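import Pool.Agent.SRF.StC

set_option autoImplicit false

/-! # SRF, module ADJ: components of the complement of a bordered set -/

open Set Metric Filter Topology

namespace Pool.Agent.SRF

theorem adj_lc {X : Type} [TopologicalSpace X] (hX : IsSurf X) : LocallyConnectedSpace X := by
  choose φ hφ hφ0 using hX.chart
  refine locallyConnectedSpace_of_connected_bases (fun x r => φ x '' ball (0 : ℂ) r)
    (fun _ r => (0 : ℝ) < r) (fun x => ?_) (fun x r hr => ?_)
  · have h1 := (nhds_basis_ball (x := (0 : ℂ))).map (φ x)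
    rw [(hφ x).map_nhds_eq, hφ0 x] at h1
    exact h1
  · exact ((convex_ball (0 : ℂ) r).isPreconnected).image _ (hφ x).continuous.continuousOn


theorem adj_three {X : Type} [TopologicalSpace X] {K U : Set X} (hUK : U ⊆ Kᶜ)
    (hU : ∀ A : Set X, IsPreconnected A → A ⊆ Kᶜ → (A ∩ U).Nonempty → A ⊆ U) {φ : ℂ → X}
    (hφ : IsOpenEmbedding φ) (h : ∀ z, φ z ∈ K ↔ 0 ≤ z.im) (h0 : φ 0 ∈ closure U) :
    φ '' {z | z.im < 0} ⊆ U := by
  have hpre : IsPreconnected (φ '' {z : ℂ | z.im < 0}) :=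
    (convex_halfSpace_im_lt 0).isPreconnected.image φ hφ.continuous.continuousOn
  refine hU _ hpre ?_ ?_
  · rintro _ ⟨z, hz, rfl⟩ hzK
    exact absurd ((h z).1 hzK) (not_le.2 hz)
  · obtain ⟨x, ⟨z, rfl⟩, hx⟩ := mem_closure_iff_nhds.1 h0 _
      (hφ.isOpen_range.mem_nhds (mem_range_self 0))
    refine ⟨φ z, ⟨z, ?_, rfl⟩, hx⟩
    by_contra hz
    exact hUK hx ((h z).2 (not_lt.1 hz))

theorem thm_ADJ (hBFR : St_BFR) : St_ADJ := by
  intro X _ hX K hK x hx
  have := hX.t2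
  have := adj_lc hX
  have hcl : IsClosed K := hK.1.isClosed
  have hxK : x ∈ Kᶜ := hx
  set U := connectedComponentIn Kᶜ x with hUdef
  have hUo : IsOpen U := hcl.isOpen_compl.connectedComponentIn
  have hUK : U ⊆ Kᶜ := connectedComponentIn_subset _ _
  have hU : ∀ A : Set X, IsPreconnected A → A ⊆ Kᶜ → (A ∩ U).Nonempty → A ⊆ U := by
    rintro A hA hAK ⟨y, hyA, hyU⟩
    have h1 := hA.subset_connectedComponentIn hyA hAK
    rw [← connectedComponentIn_eq hyU] at h1
    exact h1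
  have h3 : ∀ φ : ℂ → X, IsOpenEmbedding φ → (∀ z, φ z ∈ K ↔ 0 ≤ z.im) → φ 0 ∈ closure U →
      φ '' {z | z.im < 0} ⊆ U := fun φ hφ h h0 => adj_three hUK hU hφ h h0
  have hfr : frontier U ⊆ frontier K := by
    intro p hp
    rw [hUo.frontier_eq] at hp
    have hpK : p ∈ K := by
      by_contra hpK
      have hV : IsOpen (connectedComponentIn Kᶜ p) := hcl.isOpen_compl.connectedComponentIn
      obtain ⟨y, hyV, hyU⟩ := mem_closure_iff_nhds.1 hp.1 _
        (hV.mem_nhds (mem_connectedComponentIn hpK))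
      exact hp.2 (hU _ isPreconnected_connectedComponentIn (connectedComponentIn_subset _ _)
        ⟨y, hyV, hyU⟩ (mem_connectedComponentIn hpK))
    rw [hcl.frontier_eq]
    refine ⟨hpK, fun hpi => ?_⟩
    obtain ⟨y, hy, hyU⟩ := mem_closure_iff_nhds.1 hp.1 _ (isOpen_interior.mem_nhds hpi)
    exact hUK hyU (interior_subset hy)
  refine ⟨hUo, hfr, h3, ?_⟩
  intro A hA hAc
  have hb1 := (hBFR X hX K hK).1
  let O1 : Set X := ⋃₀ {R | ∃ φ : ℂ → X, IsOpenEmbedding φ ∧ (∀ z, φ z ∈ K ↔ 0 ≤ z.im) ∧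
    φ '' {z | z.im < 0} ⊆ U ∧ R = range φ}
  have hO1 : IsOpen O1 := by
    refine isOpen_sUnion ?_
    rintro _ ⟨φ, hφ, -, -, rfl⟩
    exact hφ.isOpen_range
  have hmem : ∀ p ∈ frontier K, p ∈ O1 → p ∈ closure U := by
    rintro p hp ⟨_, ⟨φ, hφ, h, hl, rfl⟩, z, rfl⟩
    have hz : z.im = 0 := ((hb1 φ hφ h).1 z).1 hp
    have h1 : z ∈ closure {z : ℂ | z.im < 0} := by
      rw [Complex.closure_setOfPred_im_lt]
      exact hz.le
    exact closure_mono hl (image_closure_subset_closure_image hφ.continuous ⟨z, h1, rfl⟩)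
  have hcov : A ⊆ O1 ∪ (closure U)ᶜ := by
    intro p hp
    by_cases hpU : p ∈ closure U
    · left
      obtain ⟨φ, hφ, hφ0, h⟩ := hK.2 p (hA hp)
      refine ⟨range φ, ⟨φ, hφ, h, h3 φ hφ h (by rw [hφ0]; exact hpU), rfl⟩, 0, hφ0⟩
    · exact Or.inr hpU
  rcases isPreconnected_iff_subset_of_disjoint.1 hAc O1 (closure U)ᶜ hO1
    isClosed_closure.isOpen_compl hcov (by
      rw [eq_empty_iff_forall_notMem]
      rintro p ⟨hp, hp1, hp2⟩
      exact hp2 (hmem p (hA hp) hp1)) with h | h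
  · left
    intro p hp
    rw [hUo.frontier_eq]
    refine ⟨hmem p (hA hp) (h hp), fun hpU => ?_⟩
    exact hUK hpU (hcl.frontier_subset (hA hp))
  · right
    rw [disjoint_left]
    intro p hp
    exact h hp

end Pool.Agent.SRF
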