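import Pool.Agent.SRF.StA

set_option autoImplicit false

/-! # SRF APX: approximation by functions with finitely many zeros. -/

open Set Metric Filter Topology MeasureTheory

namespace Pool.Agent.SRF

/-- Retraction of the plane onto the closed ball of radius `R`. -/
noncomputable def retB (R : ℝ) (z : ℂ) : ℂ := ((R / max R ‖z‖ : ℝ) : ℂ) * z

theorem retB_cont {R : ℝ} (hR : 0 < R) : Continuous (retB R) := by
  unfold retB
  refine Continuous.mul ?_ continuous_id
  refine Complex.continuous_ofReal.comp ?_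
  refine Continuous.div continuous_const (continuous_const.max continuous_norm) ?_
  intro z
  have : R ≤ max R ‖z‖ := le_max_left _ _
  linarith

theorem retB_eq {R : ℝ} (hR : 0 < R) {z : ℂ} (hz : ‖z‖ ≤ R) : retB R z = z := by
  unfold retB
  rw [max_eq_left hz, div_self hR.ne']
  simp

theorem retB_norm {R : ℝ} (hR : 0 < R) {z : ℂ} (hz : R ≤ ‖z‖) : ‖retB R z‖ = R := by
  unfold retB
  have hz0 : 0 < ‖z‖ := lt_of_lt_of_le hR hz
  rw [max_eq_right hz, norm_mul, Complex.norm_real, Real.norm_of_nonneg (by positivity)]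
  field_simp

theorem retB_le {R : ℝ} (hR : 0 < R) (z : ℂ) : ‖retB R z‖ ≤ R := by
  rcases le_total ‖z‖ R with h | h
  · rw [retB_eq hR h]; exact h
  · exact (retB_norm hR h).le

theorem thm_APX : St_APX := by
  intro F hF c hc R hR
  obtain ⟨G0, hG0, hd, -⟩ := hF.exists_contDiff_approx (n := 1) (ε := fun _ => c / 2)
    continuous_const (fun _ => by positivity)
  have hdiff : Differentiable ℝ G0 := hG0.differentiable one_ne_zero
  have hs : volume (G0 '' {z | (fderiv ℝ G0 z).det = 0}) = 0 :=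
    addHaar_image_eq_zero_of_det_fderivWithin_eq_zero volume (f' := fderiv ℝ G0)
      (fun x _ => (hdiff x).hasFDerivAt.hasFDerivWithinAt) (fun x hx => hx)
  obtain ⟨w, hw, hwn⟩ : ∃ w ∈ ball (0 : ℂ) (c / 2), w ∉ G0 '' {z | (fderiv ℝ G0 z).det = 0} := by
    by_contra hcon
    push Not at hcon
    have h1 : volume (ball (0 : ℂ) (c / 2)) ≤ 0 := hs ▸ measure_mono hcon
    exact absurd h1 (not_le.mpr (measure_ball_pos _ _ (by positivity)))
  have hiso : ∀ z, G0 z = w → ∀ᶠ y in 𝓝[≠] z, G0 y ≠ w := by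
    intro z hz
    have hdet : (fderiv ℝ G0 z).det ≠ 0 := fun h0 => hwn ⟨z, h0, hz⟩
    refine (hdiff z).hasFDerivAt.eventually_ne ?_
    have h2 := ((fderiv ℝ G0 z).toContinuousLinearEquivOfDetNeZero hdet).antilipschitz
    exact ⟨_, h2⟩
  have hfin : ({z | G0 z = w} ∩ closedBall (0 : ℂ) (R + 1)).Finite := by
    by_contra hinf
    have hinf' : ({z | G0 z = w} ∩ closedBall (0 : ℂ) (R + 1)).Infinite := hinf
    obtain ⟨z, -, hz⟩ := hinf'.exists_accPt_of_subset_isCompact
      (isCompact_closedBall (0 : ℂ) (R + 1)) inter_subset_right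
    have hcl : IsClosed {z | G0 z = w} := isClosed_eq hG0.continuous continuous_const
    have hz' : AccPt z (𝓟 {z | G0 z = w}) := hz.mono (principal_mono.mpr inter_subset_left)
    have hzw : G0 z = w := hcl.closure_subset_iff.mpr Subset.rfl
      (mem_closure_iff_clusterPt.mpr hz'.clusterPt)
    have h3 := hiso z hzw
    rw [accPt_iff_frequently_nhdsNE] at hz'
    exact hz' (h3.mono fun y hy => hy)
  obtain ⟨R', hR', hR'n⟩ : ((Ioo R (R + 1)) \
      (norm '' ({z | G0 z = w} ∩ closedBall (0 : ℂ) (R + 1)))).Nonempty :=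
    ((Ioo_infinite (by linarith : R < R + 1)).sdiff (hfin.image _)).nonempty
  have hRp : 0 < R' := lt_trans hR hR'.1
  refine ⟨fun z => G0 (retB R' z) - w, (hG0.continuous.comp (retB_cont hRp)).sub continuous_const,
    ?_, ?_⟩
  · intro z hz
    rw [mem_closedBall_zero_iff] at hz
    rw [mem_ball_zero_iff] at hw
    simp only
    rw [retB_eq hRp (hz.trans hR'.1.le)]
    have h4 := hd z
    rw [dist_eq_norm] at h4
    calc ‖G0 z - w - F z‖ = ‖(G0 z - F z) - w‖ := by ring_nf
      _ ≤ ‖G0 z - F z‖ + ‖w‖ := norm_sub_le _ _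
      _ < c / 2 + c / 2 := add_lt_add h4 hw
      _ = c := by ring
  · refine hfin.subset ?_
    intro z hz
    have hz1 : G0 (retB R' z) = w := sub_eq_zero.mp hz
    have hle : ‖retB R' z‖ ≤ R' := retB_le hRp z
    have hmem : retB R' z ∈ {z | G0 z = w} ∩ closedBall (0 : ℂ) (R + 1) := by
      refine ⟨hz1, ?_⟩
      rw [mem_closedBall_zero_iff]
      exact hle.trans hR'.2.le
    have hlt : ‖z‖ < R' := by
      by_contra hge
      exact hR'n ⟨_, hmem, retB_norm hRp (not_lt.mp hge)⟩
    rwa [retB_eq hRp hlt.le] at hmem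

end Pool.Agent.SRF
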