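import Pool.Agent.SRF.StB

set_option autoImplicit false

/-! # SRF ARC0: elementary facts on attaching sets -/

open Set Metric Filter Topology

namespace Pool.Agent.SRF

theorem arc0_cont : Continuous cexpi := by
  unfold cexpi
  fun_prop

theorem arc0_mem_UC (t : ℝ) : cexpi t ∈ UC := by
  simp [cexpi, Complex.norm_exp_ofReal_mul_I]

theorem arc0_add_two_pi (t : ℝ) : cexpi (t + 2 * Real.pi) = cexpi t := by
  unfold cexpi
  push_cast
  rw [add_mul, Complex.exp_add]
  have : Complex.exp (2 * (Real.pi : ℂ) * Complex.I) = 1 := Complex.exp_two_pi_mul_I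
  rw [this, mul_one]

theorem arc0_inj {e x y : ℝ} (hx : x ∈ Ico e (e + 2 * Real.pi))
    (hy : y ∈ Ico e (e + 2 * Real.pi)) (h : cexpi x = cexpi y) : x = y := by
  unfold cexpi at h
  rw [Complex.exp_eq_exp_iff_exists_int] at h
  obtain ⟨n, hn⟩ := h
  have h1 : (x : ℂ) * Complex.I = ((y + n * (2 * Real.pi) : ℝ) : ℂ) * Complex.I := by
    rw [hn]
    push_cast
    ring
  have h2 : x = y + n * (2 * Real.pi) := by
    have := mul_right_cancel₀ Complex.I_ne_zero h1
    exact_mod_cast this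
  have hpi := Real.two_pi_pos
  have h3 : (n : ℝ) < 1 := by
    by_contra h4
    push Not at h4
    have : 2 * Real.pi ≤ n * (2 * Real.pi) := by nlinarith
    linarith [hx.2, hy.1]
  have h4 : (-1 : ℝ) < n := by
    by_contra h4
    push Not at h4
    have : n * (2 * Real.pi) ≤ -(2 * Real.pi) := by nlinarith
    linarith [hx.1, hy.2]
  have h5 : n = 0 := by
    have h6 : n < 1 := by exact_mod_cast h3
    have h7 : -1 < n := by exact_mod_cast h4
    omega
  rw [h5] at h2
  simpa using h2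

theorem arc0_surj (e : ℝ) {z : ℂ} (hz : z ∈ UC) : ∃ t ∈ Ico e (e + 2 * Real.pi), cexpi t = z := by
  have hz1 : ‖z‖ = 1 := by simpa using hz
  refine ⟨toIcoMod Real.two_pi_pos e z.arg, toIcoMod_mem_Ico Real.two_pi_pos e z.arg, ?_⟩
  have h1 := toIcoMod_add_toIcoDiv_zsmul Real.two_pi_pos e z.arg
  have h2 : cexpi z.arg = z := by
    unfold cexpi
    have := Complex.norm_mul_exp_arg_mul_I z
    rw [hz1] at this
    simpa using this
  have h3 : ∀ (n : ℤ) (x : ℝ), cexpi (x + n • (2 * Real.pi)) = cexpi x := by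
    intro n x
    unfold cexpi
    rw [Complex.exp_eq_exp_iff_exists_int]
    refine ⟨n, ?_⟩
    push_cast
    simp only [zsmul_eq_mul]
    ring
  rw [← h3 (toIcoDiv Real.two_pi_pos e z.arg), h1, h2]

/-- membership in an arc, tested in a fundamental interval -/
theorem arc0_mem_carc {e a b x : ℝ} (hx : x ∈ Ico e (e + 2 * Real.pi)) (ha : e ≤ a)
    (hb : b < e + 2 * Real.pi) : cexpi x ∈ carc a b ↔ x ∈ Icc a b := by
  constructor
  · rintro ⟨y, hy, h⟩
    have := arc0_inj ⟨ha.trans hy.1, hy.2.trans_lt hb⟩ hx h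
    rw [← this]
    exact hy
  · intro h
    exact ⟨x, h, rfl⟩

theorem arc0_closed (a b : ℝ) : IsCompact (carc a b) := isCompact_Icc.image arc0_cont

theorem arc0_sub (a b : ℝ) : carc a b ⊆ UC := by
  rintro _ ⟨t, _, rfl⟩
  exact arc0_mem_UC t

theorem arc0_closure {a b : ℝ} (h : a < b) : closure (oarc a b) = carc a b := by
  apply Subset.antisymm
  · exact closure_minimal (image_mono Ioo_subset_Icc_self) (arc0_closed a b).isClosed
  · unfold carc oarc
    rw [← closure_Ioo h.ne]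
    exact image_closure_subset_closure_image arc0_cont

theorem arc0_nhds {a b : ℝ} (hb : b < a + 2 * Real.pi) {z : ℂ} (hz : z ∈ oarc a b) :
    carc a b ∈ 𝓝[UC] z := by
  obtain ⟨t, ht, rfl⟩ := hz
  have h1 : cexpi t ∉ carc b (a + 2 * Real.pi) := by
    rintro ⟨y, hy, h⟩
    rcases eq_or_lt_of_le hy.2 with h2 | h2
    · rw [h2, arc0_add_two_pi] at h
      have := arc0_inj (e := a) ⟨le_rfl, by linarith [Real.two_pi_pos]⟩
        ⟨ht.1.le, ht.2.trans hb⟩ h
      linarith [ht.1]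
    · have := arc0_inj (e := a) ⟨by linarith [ht.1, ht.2, hy.1], h2⟩
        ⟨ht.1.le, ht.2.trans hb⟩ h
      linarith [ht.2, hy.1]
  have h2 : (carc b (a + 2 * Real.pi))ᶜ ∈ 𝓝 (cexpi t) :=
    (arc0_closed _ _).isClosed.isOpen_compl.mem_nhds h1
  refine mem_nhdsWithin.2 ⟨(carc b (a + 2 * Real.pi))ᶜ,
    (arc0_closed _ _).isClosed.isOpen_compl, h1, ?_⟩
  rintro w ⟨hw1, hw2⟩
  obtain ⟨y, hy, rfl⟩ := arc0_surj a hw2
  refine ⟨y, ⟨hy.1, ?_⟩, rfl⟩
  by_contra h3
  push Not at h3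
  exact hw1 ⟨y, ⟨h3.le, hy.2.le⟩, rfl⟩

theorem arc0_end {a b : ℝ} {z : ℂ} (hz : z ∈ carc a b) (hz' : z ∉ oarc a b) :
    z = cexpi a ∨ z = cexpi b := by
  obtain ⟨t, ht, rfl⟩ := hz
  rcases eq_or_lt_of_le ht.1 with h | h
  · left
    rw [h]
  · rcases eq_or_lt_of_le ht.2 with h' | h'
    · right
      rw [h']
    · exact absurd ⟨t, ⟨h, h'⟩, rfl⟩ hz'

theorem arc0_case_one (a b : ℝ) (hab : a < b) (hb : b < a + 2 * Real.pi) (ζ : ℂ)
    (h : ζ = cexpi a ∨ ζ = cexpi b) :
    ∃ p σ τ : ℝ, (σ = 1 ∨ σ = -1) ∧ 0 < τ ∧ ζ = cexpi p ∧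
    (∀ t ∈ Ico 0 τ, cexpi (p + σ * t) ∈ carc a b) ∧
    (∀ t ∈ Ioo 0 τ, cexpi (p - σ * t) ∉ carc a b) := by
  rcases h with h | h
  · refine ⟨a, 1, min (b - a) (a + 2 * Real.pi - b), Or.inl rfl,
      lt_min (by linarith) (by linarith), h, ?_, ?_⟩
    · rintro t ⟨ht0, ht1⟩
      have h1 := ht1.trans_le (min_le_left _ _)
      exact ⟨_, ⟨by linarith, by linarith⟩, rfl⟩
    · rintro t ⟨ht0, ht1⟩
      have h1 := ht1.trans_le (min_le_left _ _)
      have h2 := ht1.trans_le (min_le_right _ _)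
      rw [← arc0_add_two_pi, arc0_mem_carc (e := a) ⟨by linarith, by linarith⟩ le_rfl hb]
      rintro ⟨_, h3⟩
      linarith
  · refine ⟨b, -1, min (b - a) (a + 2 * Real.pi - b), Or.inr rfl,
      lt_min (by linarith) (by linarith), h, ?_, ?_⟩
    · rintro t ⟨ht0, ht1⟩
      have h1 := ht1.trans_le (min_le_left _ _)
      exact ⟨_, ⟨by linarith, by linarith⟩, rfl⟩
    · rintro t ⟨ht0, ht1⟩
      have h1 := ht1.trans_le (min_le_left _ _)
      have h2 := ht1.trans_le (min_le_right _ _)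
      rw [arc0_mem_carc (e := a) ⟨by linarith, by linarith⟩ le_rfl hb]
      rintro ⟨_, h3⟩
      linarith

theorem arc0_case_two (a b c d : ℝ) (hab : a < b) (hbc : b < c) (hcd : c < d)
    (hd : d < a + 2 * Real.pi) (ζ : ℂ)
    (h : (ζ = cexpi a ∨ ζ = cexpi b) ∨ (ζ = cexpi c ∨ ζ = cexpi d)) :
    ∃ p σ τ : ℝ, (σ = 1 ∨ σ = -1) ∧ 0 < τ ∧ ζ = cexpi p ∧
    (∀ t ∈ Ico 0 τ, cexpi (p + σ * t) ∈ carc a b ∪ carc c d) ∧
    (∀ t ∈ Ioo 0 τ, cexpi (p - σ * t) ∉ carc a b ∪ carc c d) := by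
  rcases h with (h | h) | (h | h)
  · refine ⟨a, 1, min (b - a) (a + 2 * Real.pi - d), Or.inl rfl,
      lt_min (by linarith) (by linarith), h, ?_, ?_⟩
    · rintro t ⟨ht0, ht1⟩
      have h1 := ht1.trans_le (min_le_left _ _)
      exact Or.inl ⟨_, ⟨by linarith, by linarith⟩, rfl⟩
    · rintro t ⟨ht0, ht1⟩
      have h1 := ht1.trans_le (min_le_left _ _)
      have h2 := ht1.trans_le (min_le_right _ _)
      rw [← arc0_add_two_pi, mem_union,
        arc0_mem_carc (e := a) ⟨by linarith, by linarith⟩ le_rfl (by linarith),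
        arc0_mem_carc (e := a) ⟨by linarith, by linarith⟩ (by linarith) (by linarith)]
      rintro (⟨_, h3⟩ | ⟨_, h3⟩) <;> linarith
  · refine ⟨b, -1, min (b - a) (c - b), Or.inr rfl,
      lt_min (by linarith) (by linarith), h, ?_, ?_⟩
    · rintro t ⟨ht0, ht1⟩
      have h1 := ht1.trans_le (min_le_left _ _)
      exact Or.inl ⟨_, ⟨by linarith, by linarith⟩, rfl⟩
    · rintro t ⟨ht0, ht1⟩
      have h1 := ht1.trans_le (min_le_left _ _)
      have h2 := ht1.trans_le (min_le_right _ _)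
      rw [mem_union,
        arc0_mem_carc (e := a) ⟨by linarith, by linarith⟩ le_rfl (by linarith),
        arc0_mem_carc (e := a) ⟨by linarith, by linarith⟩ (by linarith) (by linarith)]
      rintro (⟨_, h3⟩ | ⟨h3, _⟩) <;> linarith
  · refine ⟨c, 1, min (d - c) (c - b), Or.inl rfl,
      lt_min (by linarith) (by linarith), h, ?_, ?_⟩
    · rintro t ⟨ht0, ht1⟩
      have h1 := ht1.trans_le (min_le_left _ _)
      exact Or.inr ⟨_, ⟨by linarith, by linarith⟩, rfl⟩
    · rintro t ⟨ht0, ht1⟩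
      have h1 := ht1.trans_le (min_le_left _ _)
      have h2 := ht1.trans_le (min_le_right _ _)
      rw [mem_union,
        arc0_mem_carc (e := a) ⟨by linarith, by linarith⟩ le_rfl (by linarith),
        arc0_mem_carc (e := a) ⟨by linarith, by linarith⟩ (by linarith) (by linarith)]
      rintro (⟨_, h3⟩ | ⟨h3, _⟩) <;> linarith
  · refine ⟨d, -1, min (d - c) (a + 2 * Real.pi - d), Or.inr rfl,
      lt_min (by linarith) (by linarith), h, ?_, ?_⟩
    · rintro t ⟨ht0, ht1⟩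
      have h1 := ht1.trans_le (min_le_left _ _)
      exact Or.inr ⟨_, ⟨by linarith, by linarith⟩, rfl⟩
    · rintro t ⟨ht0, ht1⟩
      have h1 := ht1.trans_le (min_le_left _ _)
      have h2 := ht1.trans_le (min_le_right _ _)
      rw [mem_union,
        arc0_mem_carc (e := a) ⟨by linarith, by linarith⟩ le_rfl (by linarith),
        arc0_mem_carc (e := a) ⟨by linarith, by linarith⟩ (by linarith) (by linarith)]
      rintro (⟨_, h3⟩ | ⟨_, h3⟩) <;> linarith

theorem thm_ARC0 : St_ARC0 := by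
  intro S O h
  induction h with
  | one a b hab hb =>
    refine ⟨image_mono Ioo_subset_Icc_self, arc0_sub a b, arc0_closed a b,
      ⟨cexpi a, a, ⟨le_rfl, hab.le⟩, rfl⟩, (arc0_closure hab).symm,
      fun ζ hζ => arc0_nhds hb hζ, fun ζ h1 h2 => ?_⟩
    exact arc0_case_one a b hab hb ζ (arc0_end h1 h2)
  | two a b c d hab hbc hcd hd =>
    refine ⟨union_subset_union (image_mono Ioo_subset_Icc_self) (image_mono Ioo_subset_Icc_self),
      union_subset (arc0_sub a b) (arc0_sub c d), (arc0_closed a b).union (arc0_closed c d),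
      ⟨cexpi a, Or.inl ⟨a, ⟨le_rfl, hab.le⟩, rfl⟩⟩, ?_, ?_, fun ζ h1 h2 => ?_⟩
    · rw [closure_union, arc0_closure hab, arc0_closure hcd]
    · rintro ζ (hζ | hζ)
      · exact mem_of_superset (arc0_nhds (by linarith) hζ) subset_union_left
      · exact mem_of_superset (arc0_nhds (by linarith) hζ) subset_union_right
    · refine arc0_case_two a b c d hab hbc hcd hd ζ ?_
      rcases h1 with h1 | h1
      · exact Or.inl (arc0_end h1 fun h => h2 (Or.inl h))
      · exact Or.inr (arc0_end h1 fun h => h2 (Or.inr h))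
  | full =>
    refine ⟨Subset.rfl, Subset.rfl, isCompact_sphere 0 1, ⟨1, by simp⟩,
      isClosed_sphere.closure_eq.symm, fun ζ _ => self_mem_nhdsWithin,
      fun ζ h1 h2 => absurd h1 h2⟩

end Pool.Agent.SRF
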