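import Pool.Agent.SRF.StB

set_option autoImplicit false

/-! # SRF, module ATB: attaching a tile preserves bordered sets; the frontier formula -/

open Set Metric Filter Topology

namespace Pool.Agent.SRF

theorem thm_ATB (hTE : St_TE) (hSHR : St_SHR) (hARC : St_ARC0) (hBFR : St_BFR) (hATI : St_ATI)
    (hATE : St_ATE) : St_ATB := by
  intro X _ hX K e S O hK hA
  have := hX.t2
  obtain ⟨E, hE, hEe⟩ := hTE X hX.t2 e hA.tile
  obtain ⟨hOS, hSU, hSc, -, -, hSn, hSe⟩ := hARC S O hA.shape
  obtain ⟨-, -, hK3, -, hK5⟩ := hBFR X hX K hK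
  obtain ⟨hSf, hdis⟩ := hK5 e S hA.tile hSU hA.meet
  have hKc : IsClosed K := hK.1.isClosed
  have heC : IsCompact (e '' CD) := (isCompact_closedBall 0 1).image_of_continuousOn hA.tile.1
  have hLc : IsCompact (K ∪ e '' CD) := hK.1.union heC
  have hUC : UC ⊆ CD := sphere_subset_closedBall
  have hOC : OD ⊆ CD := ball_subset_closedBall
  have hEC : E '' CD = e '' CD := image_congr hEe
  have hEO : E '' OD = e '' OD := image_congr fun z hz => hEe (hOC hz)
  have hOo : IsOpen (e '' OD) := by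
    rw [← hEO]
    exact hE.isOpenMap _ isOpen_ball
  have hchart : ∀ p ∈ (frontier K ∪ e '' UC) \ e '' O, ∃ φ : ℂ → X, IsOpenEmbedding φ ∧ φ 0 = p ∧
      ∀ z, φ z ∈ K ∪ e '' CD ↔ 0 ≤ z.im := by
    rintro p ⟨hp, hpO⟩
    by_cases hpe : p ∈ e '' CD
    · by_cases hpK : p ∈ K
      · have h1 : p ∈ e '' S := by
          rw [← hA.meet]
          exact ⟨hpe, hpK⟩
        obtain ⟨ζ, hζ, rfl⟩ := h1
        have hζO : ζ ∉ O := fun h => hpO ⟨ζ, h, rfl⟩
        obtain ⟨a, σ, τ, hσ, hτ, rfl, h2, h3⟩ := hSe ζ hζ hζO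
        exact hATE X hX K e S hK hA.tile hSU hSc.isClosed hA.meet a σ τ hσ hτ h2 h3
      · have h1 : p ∈ e '' UC := by
          rcases hp with hp | hp
          · exact absurd (hKc.frontier_subset hp) hpK
          · exact hp
        obtain ⟨ζ, hζ, rfl⟩ := h1
        have hEζ : E ζ = e ζ := hEe (hUC hζ)
        have h2 : E ⁻¹' Kᶜ ∈ 𝓝 ζ := by
          apply hE.continuous.continuousAt.preimage_mem_nhds
          rw [hEζ]
          exact hKc.isOpen_compl.mem_nhds hpK
        obtain ⟨r, hr, hr2⟩ := Metric.mem_nhds_iff.1 h2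
        obtain ⟨σ, hσ1, hσ2, hσ3, hσ4⟩ := hSHR.2.1 ζ hζ r hr
        refine ⟨E ∘ σ, hE.comp hσ1, by rw [Function.comp_apply, hσ2, hEζ], fun z => ?_⟩
        rw [← hσ4 z, Function.comp_apply]
        constructor
        · rintro (h | h)
          · exact absurd h (hr2 (hσ3 (mem_range_self z)))
          · rw [← hEC] at h
            obtain ⟨w, hw, hw2⟩ := h
            rw [← hE.injective hw2]
            exact hw
        · intro h
          right
          rw [← hEC]
          exact mem_image_of_mem E h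
    · have h1 : p ∈ frontier K := by
        rcases hp with hp | hp
        · exact hp
        · exact absurd (image_mono hUC hp) hpe
      obtain ⟨φ, hφ1, hφ2, hφ3, hφ4⟩ := hK3 p h1 (e '' CD)ᶜ (heC.isClosed.isOpen_compl.mem_nhds hpe)
      refine ⟨φ, hφ1, hφ2, fun z => ?_⟩
      rw [← hφ4 z]
      constructor
      · rintro (h | h)
        · exact h
        · exact absurd h (hφ3 (mem_range_self z))
      · exact fun h => Or.inl h
  have hfr : frontier (K ∪ e '' CD) ⊆ (frontier K ∪ e '' UC) \ e '' O := by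
    intro p hp
    have hpL : p ∈ K ∪ e '' CD := hLc.isClosed.frontier_subset hp
    have hpi : p ∉ interior (K ∪ e '' CD) := hp.2
    refine ⟨?_, ?_⟩
    · rcases hpL with h | ⟨z, hz, rfl⟩
      · left
        refine ⟨subset_closure h, fun h2 => hpi (interior_mono subset_union_left h2)⟩
      · right
        refine ⟨z, ?_, rfl⟩
        by_contra hzU
        have hzO : z ∈ OD := by
          rw [mem_ball_zero_iff]
          rw [mem_closedBall_zero_iff] at hz
          rw [mem_sphere_zero_iff_norm] at hzU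
          exact lt_of_le_of_ne hz hzU
        apply hpi
        rw [mem_interior]
        exact ⟨e '' OD, (image_mono hOC).trans subset_union_right, hOo, mem_image_of_mem e hzO⟩
    · rintro ⟨ζ, hζ, rfl⟩
      exact hpi (hATI X hX K e S hK hA.tile hSU hA.meet ζ (hSU (hOS hζ)) (hSn ζ hζ))
  have hB : Bord (K ∪ e '' CD) := ⟨hLc, fun p hp => hchart p (hfr hp)⟩
  refine ⟨hB, Subset.antisymm hfr ?_⟩
  intro p hp
  obtain ⟨φ, hφ1, hφ2, hφ3⟩ := hchart p hp
  have := ((hBFR X hX _ hB).1 φ hφ1 hφ3).1 0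
  rw [hφ2] at this
  exact this.2 rfl

end Pool.Agent.SRF
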