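import Pool.Agent.SRF.StB

/-! # SRF/ATE (helper89): attaching a tile, end points of the attaching arcs -/

set_option autoImplicit false

open Set Metric Filter Topology

namespace Pool.Agent.SRF

/-! ## The circle -/

private theorem ate_UC (t : ℝ) : cexpi t ∈ UC := by
  rw [mem_sphere_zero_iff_norm, cexpi, Complex.norm_exp_ofReal_mul_I]

private theorem ate_cont : Continuous cexpi := by
  unfold cexpi
  fun_prop

private theorem ate_inj {s t : ℝ} (h : cexpi s = cexpi t) (hst : |s - t| < 2 * Real.pi) :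
    s = t := by
  unfold cexpi at h
  rw [Complex.exp_eq_exp_iff_exists_int] at h
  obtain ⟨n, hn⟩ := h
  have h1 : (s : ℂ) * Complex.I = ((t + n * (2 * Real.pi) : ℝ) : ℂ) * Complex.I := by
    rw [hn]
    push_cast
    ring
  have h2 : s = t + n * (2 * Real.pi) := by
    exact_mod_cast mul_right_cancel₀ Complex.I_ne_zero h1
  have hpi := Real.pi_pos
  have h3 : s - t = n * (2 * Real.pi) := by linarith
  rw [h3, abs_mul, abs_of_pos (by positivity : 0 < 2 * Real.pi)] at hst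
  have h4 : |(n : ℝ)| < 1 := by
    by_contra hcon
    rw [not_lt] at hcon
    nlinarith
  have h5 : n = 0 := by
    have : |n| < 1 := by exact_mod_cast h4
    exact Int.abs_lt_one_iff.1 this
  rw [h2, h5]
  simp

private theorem ate_per (t : ℝ) : cexpi (t + 2 * Real.pi) = cexpi t := by
  unfold cexpi
  rw [Complex.exp_eq_exp_iff_exists_int]
  exact ⟨1, by push_cast; ring⟩

private theorem ate_surj {ξ : ℂ} (hξ : ξ ∈ UC) (a : ℝ) {σ : ℝ} (hσ : σ = 1 ∨ σ = -1) :
    ∃ s : ℝ, 0 ≤ s ∧ s < 2 * Real.pi ∧ ξ = cexpi (a + σ * s) := by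
  have hpi := Real.pi_pos
  have hn : ‖ξ‖ = 1 := mem_sphere_zero_iff_norm.1 hξ
  have key : ∃ s : ℝ, 0 ≤ s ∧ s < 2 * Real.pi ∧ ξ = cexpi (a + s) := by
    have h1 : ‖ξ * Complex.exp (-(a * Complex.I))‖ = 1 := by
      rw [norm_mul, hn, one_mul, Complex.norm_exp]
      simp
    have h2 := Complex.norm_mul_exp_arg_mul_I (ξ * Complex.exp (-(a * Complex.I)))
    rw [h1] at h2
    set u : ℝ := Complex.arg (ξ * Complex.exp (-(a * Complex.I))) with hu
    have h3 : ξ = cexpi (a + u) := by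
      unfold cexpi
      rw [show ((a + u : ℝ) : ℂ) * Complex.I = a * Complex.I + u * Complex.I by push_cast; ring,
        Complex.exp_add]
      have h4 : Complex.exp (u * Complex.I) = ξ * Complex.exp (-(a * Complex.I)) := by
        rw [← h2]; simp
      rw [h4, mul_comm, mul_assoc, ← Complex.exp_add]
      simp
    have h5 : u ≤ Real.pi := Complex.arg_le_pi _
    have h6 : -Real.pi < u := Complex.neg_pi_lt_arg _
    rcases lt_or_ge u 0 with h | h
    · refine ⟨u + 2 * Real.pi, by linarith, by linarith, ?_⟩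
      rw [← add_assoc, ate_per]
      exact h3
    · exact ⟨u, h, by linarith, h3⟩
  obtain ⟨s, hs0, hs1, hs⟩ := key
  rcases hσ with rfl | rfl
  · exact ⟨s, hs0, hs1, by rw [one_mul]; exact hs⟩
  · rcases hs0.eq_or_lt with h | h
    · refine ⟨0, le_rfl, by linarith, ?_⟩
      rw [mul_zero, hs, ← h]
    · refine ⟨2 * Real.pi - s, by linarith, by linarith, ?_⟩
      rw [hs, ← ate_per (a + -1 * (2 * Real.pi - s))]
      congr 1
      ring

/-! ## Straightening in the half disc -/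

private theorem ate_straight (hTH : St_TH) {α : ℝ → ℂ} {b ρ : ℝ} (hb : 0 < b) (hρ : 0 < ρ)
    (hc : ContinuousOn α (Icc 0 b)) (hi : InjOn α (Icc 0 b)) (h0 : α 0 = 0)
    (him : ∀ t ∈ Ioc 0 b, (α t).im < 0) (hρb : ρ < ‖α b‖) :
    ∃ (t₁ : ℝ) (c : ℂ) (F : ℂ ≃ₜ ℂ), t₁ ∈ Ioo 0 b ∧ c.im < 0 ∧ ‖c‖ = ρ ∧
      (∀ z : ℂ, 0 ≤ z.im → F z = z) ∧ (∀ z : ℂ, z.im < 0 → (F z).im < 0) ∧
      ∀ t ∈ Icc (0:ℝ) 1, F (α (t * t₁)) = t * c := by
  have hnc : ContinuousOn (fun t => ‖α t‖) (Icc 0 b) := hc.norm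
  -- the first time
  obtain ⟨t₁, ht₁, hmin⟩ : ∃ t₁ ∈ Icc 0 b, ‖α t₁‖ = ρ ∧ ∀ t ∈ Ico 0 t₁, ‖α t‖ < ρ := by
    have hT : IsCompact (Icc 0 b ∩ (fun t => ‖α t‖) ⁻¹' Ici ρ) :=
      isCompact_Icc.of_isClosed_subset (hnc.preimage_isClosed_of_isClosed isClosed_Icc isClosed_Ici)
        inter_subset_left
    obtain ⟨t₁, ht₁, hleast⟩ := hT.exists_isLeast ⟨b, ⟨hb.le, le_rfl⟩, hρb.le⟩
    have h1 : ∀ t ∈ Ico 0 t₁, ‖α t‖ < ρ := by
      intro t ht
      by_contra hcon
      rw [not_lt] at hcon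
      have := hleast ⟨⟨ht.1, ht.2.le.trans ht₁.1.2⟩, hcon⟩
      exact absurd ht.2 (not_lt.2 this)
    refine ⟨t₁, ht₁.1, ?_, h1⟩
    have h2 : ρ ∈ (fun t => ‖α t‖) '' Icc 0 t₁ := by
      apply intermediate_value_Icc ht₁.1.1 (hnc.mono (Icc_subset_Icc le_rfl ht₁.1.2))
      refine ⟨?_, ht₁.2⟩
      simp only [h0, norm_zero]
      exact hρ.le
    obtain ⟨t, ht, hte⟩ := h2
    rcases ht.2.lt_or_eq with h | h
    · exact absurd (h1 t ⟨ht.1, h⟩) (by rw [← hte]; exact lt_irrefl _)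
    · rw [← h]; exact hte
  obtain ⟨hnt, hlt⟩ := hmin
  have ht0 : 0 < t₁ := by
    rcases ht₁.1.lt_or_eq with h | h
    · exact h
    · rw [← h, h0, norm_zero] at hnt
      exact absurd hnt hρ.ne
  have htb : t₁ < b := by
    rcases ht₁.2.lt_or_eq with h | h
    · exact h
    · rw [h] at hnt
      exact absurd hnt hρb.ne'
  set c := α t₁ with hcdef
  have hcim : c.im < 0 := him t₁ ⟨ht0, ht₁.2⟩
  -- the half disc
  set H : Set ℂ := closedBall 0 ρ ∩ {z | z.im ≤ 0} with hH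
  have hint : interior H = ball 0 ρ ∩ {z | z.im < 0} := by
    rw [hH, interior_inter, interior_closedBall _ hρ.ne', Complex.interior_setOfPred_im_le]
  have hcl : closure H = H :=
    (isClosed_closedBall.inter (isClosed_le Complex.continuous_im continuous_const)).closure_eq
  have hcv : Convex ℝ H := (convex_closedBall 0 ρ).inter (convex_halfSpace_im_le 0)
  have hne : (interior H).Nonempty := by
    rw [hint]
    refine ⟨-((ρ / 2 : ℝ) * Complex.I), ?_, ?_⟩
    · rw [mem_ball_zero_iff, norm_neg, norm_mul, Complex.norm_I, Complex.norm_real,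
        Real.norm_of_nonneg (by linarith)]
      linarith
    · change (-((ρ / 2 : ℝ) * Complex.I)).im < 0
      simp only [Complex.neg_im, Complex.mul_im, Complex.ofReal_re, Complex.ofReal_im,
        Complex.I_re, Complex.I_im]
      linarith
  obtain ⟨h, hh1, hh2, hh3⟩ := exists_homeomorph_image_interior_closure_frontier_eq_unitBall hcv hne
    ((isBounded_closedBall (x := (0:ℂ)) (r := ρ)).subset inter_subset_left)
  have hg1 : h.symm '' OD = interior H := by
    change h.symm '' (ball (0 : ℂ) 1) = interior H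
    rw [← hh1, ← image_comp]
    simp
  have hg3 : h.symm '' UC = frontier H := by
    change h.symm '' (sphere (0 : ℂ) 1) = frontier H
    rw [← hh3, ← image_comp]
    simp
  have hfr : ∀ z ∈ H, z ∉ interior H → z ∈ h.symm '' UC := by
    intro z hz hz'
    rw [hg3]
    exact ⟨subset_closure hz, hz'⟩
  have ht01 : ∀ t ∈ Icc (0:ℝ) 1, t * t₁ ∈ Icc 0 b := by
    intro t ht
    refine ⟨mul_nonneg ht.1 ht0.le, ?_⟩
    nlinarith [ht.1, ht.2]
  have hcr1 : IsCross h.symm (fun t => α (t * t₁)) := by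
    refine ⟨⟨?_, ?_⟩, ?_, ?_, ?_⟩
    · exact hc.comp (by fun_prop) ht01
    · intro s hs t ht hst
      exact mul_right_cancel₀ ht0.ne' (hi (ht01 s hs) (ht01 t ht) hst)
    · simp only [zero_mul, h0]
      apply hfr
      · exact ⟨mem_closedBall_self hρ.le, by simp⟩
      · rw [hint]
        rintro ⟨-, h1⟩
        exact absurd h1 (by simp)
    · simp only [one_mul]
      apply hfr
      · exact ⟨mem_closedBall_zero_iff.2 hnt.le, hcim.le⟩
      · rw [hint]
        rintro ⟨h1, -⟩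
        rw [mem_ball_zero_iff] at h1
        exact absurd hnt h1.ne
    · intro t ht
      rw [hg1, hint]
      have h1 : t * t₁ < t₁ := by nlinarith [ht.1, ht.2]
      have h2 : 0 < t * t₁ := mul_pos ht.1 ht0
      exact ⟨mem_ball_zero_iff.2 (hlt _ ⟨h2.le, h1⟩), him _ ⟨h2, (h1.trans htb).le⟩⟩
  have hc0 : c ≠ 0 := by
    intro h1
    rw [h1, Complex.zero_im] at hcim
    exact lt_irrefl _ hcim
  have hcr2 : IsCross h.symm (fun t => (t : ℂ) * c) := by
    refine ⟨⟨?_, ?_⟩, ?_, ?_, ?_⟩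
    · exact Continuous.continuousOn (by fun_prop)
    · intro s hs t ht hst
      exact_mod_cast mul_right_cancel₀ hc0 hst
    · simp only [Complex.ofReal_zero, zero_mul]
      apply hfr
      · exact ⟨mem_closedBall_self hρ.le, by simp⟩
      · rw [hint]
        rintro ⟨-, h1⟩
        exact absurd h1 (by simp)
    · simp only [Complex.ofReal_one, one_mul]
      apply hfr
      · exact ⟨mem_closedBall_zero_iff.2 hnt.le, hcim.le⟩
      · rw [hint]
        rintro ⟨h1, -⟩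
        rw [mem_ball_zero_iff] at h1
        exact absurd hnt h1.ne
    · intro t ht
      rw [hg1, hint]
      constructor
      · rw [mem_ball_zero_iff, norm_mul, hnt, Complex.norm_real, Real.norm_of_nonneg ht.1.le]
        nlinarith [ht.1, ht.2]
      · change ((t : ℂ) * c).im < 0
        rw [Complex.im_ofReal_mul]
        exact mul_neg_of_pos_of_neg ht.1 hcim
  obtain ⟨F, hF1, hF2⟩ := hTH h.symm _ _ hcr1 hcr2 (by simp [h0]) (by simp [hcdef])
  have hF1' : ∀ z, z ∉ interior H → F z = z := by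
    intro z hz
    exact hF1 z (by rw [hg1]; exact hz)
  refine ⟨t₁, c, F, ⟨ht0, htb⟩, hcim, hnt, ?_, ?_, hF2⟩
  · intro z hz
    apply hF1'
    rw [hint]
    rintro ⟨-, h1⟩
    exact absurd h1 (not_lt.2 hz)
  · intro z hz
    by_cases h1 : z ∈ interior H
    · by_contra hcon
      have h2 : F z ∉ interior H := by
        rw [hint]
        rintro ⟨-, h3⟩
        exact hcon h3
      have h3 := F.injective (hF1' _ h2)
      rw [h3] at h2
      exact h2 h1
    · rw [hF1' z h1]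
      exact hz

/-! ## The core -/

private theorem ate_core (hTH : St_TH) (hSHR : St_SHR) {X : Type} [TopologicalSpace X] [T2Space X]
    {K : Set X} {e E φ : ℂ → X} {a σ b : ℝ} {f : ℝ → ℝ} {α : ℝ → ℂ}
    (hσ : σ = 1 ∨ σ = -1) (hb : 0 < b) (hb3 : b < Real.pi)
    (hec : ContinuousOn e CD) (hei : InjOn e CD)
    (hE : IsOpenEmbedding E) (hEe : EqOn E e CD)
    (hφ : IsOpenEmbedding φ) (hφ0 : φ 0 = e (cexpi a)) (hφK : ∀ z, φ z ∈ K ↔ 0 ≤ z.im)
    (hp : ∀ t ∈ Icc 0 b, φ (f t) = e (cexpi (a + σ * t)))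
    (hm : ∀ t ∈ Icc 0 b, φ (α t) = e (cexpi (a - σ * t)))
    (hfc : ContinuousOn f (Icc 0 b)) (hf0 : f 0 = 0) (hfn : ∀ t ∈ Icc 0 b, 0 ≤ f t)
    (hfb : 0 < f b)
    (hαc : ContinuousOn α (Icc 0 b)) (hαi : InjOn α (Icc 0 b)) (hα0 : α 0 = 0)
    (hαim : ∀ t ∈ Ioc 0 b, (α t).im < 0)
    (hati : ∀ t ∈ Ioo 0 b, e (cexpi (a + σ * t)) ∈ interior (K ∪ e '' CD)) :
    ∃ φ : ℂ → X, IsOpenEmbedding φ ∧ φ 0 = e (cexpi a) ∧ ∀ z, φ z ∈ K ∪ e '' CD ↔ 0 ≤ z.im := by
  have hpi := Real.pi_pos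
  have hsubU : UC ⊆ CD := sphere_subset_closedBall
  have hsubO : OD ⊆ CD := ball_subset_closedBall
  have hEO : e '' OD = E '' OD := (image_congr fun z hz => hEe (hsubO hz)).symm
  have hEC : e '' CD = E '' CD := (image_congr fun z hz => hEe hz).symm
  have hOo : IsOpen (e '' OD) := by
    rw [hEO]
    exact hE.isOpenMap _ isOpen_ball
  have hCc : IsClosed (e '' CD) := ((isCompact_closedBall 0 1).image_of_continuousOn hec).isClosed
  -- the far part of the circle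
  have hcur : Continuous (fun s : ℝ => e (cexpi (a + σ * s))) :=
    hec.comp_continuous (ate_cont.comp (by fun_prop)) fun s => hsubU (ate_UC _)
  have hfar : IsClosed ((fun s : ℝ => e (cexpi (a + σ * s))) '' Icc b (2 * Real.pi - b)) :=
    (isCompact_Icc.image hcur).isClosed
  have hfar0 : e (cexpi a) ∉ (fun s : ℝ => e (cexpi (a + σ * s))) '' Icc b (2 * Real.pi - b) := by
    rintro ⟨s, hs, hse⟩
    have h1 := hei (hsubU (ate_UC _)) (hsubU (ate_UC _)) hse
    have h2 := ate_inj h1 (by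
      rw [add_sub_cancel_left, abs_mul]
      have h3 : |σ| = 1 := by rcases hσ with rfl | rfl <;> simp
      rw [h3, one_mul, abs_of_nonneg (hb.le.trans hs.1)]
      linarith [hs.2])
    have h3 : σ * s = 0 := by linarith
    have hs0 : 0 < s := hb.trans_le hs.1
    rcases hσ with rfl | rfl <;> linarith
  obtain ⟨ρ₀, hρ₀, hρ₀s⟩ := Metric.isOpen_iff.1 (hfar.isOpen_compl.preimage hφ.continuous) 0
    (by rw [mem_preimage, hφ0]; exact hfar0)
  have hαb : 0 < ‖α b‖ := by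
    rw [norm_pos_iff]
    intro h
    have := hαim b ⟨hb, le_rfl⟩
    rw [h, Complex.zero_im] at this
    exact lt_irrefl _ this
  obtain ⟨ρ, hρ, hρ1, hρ2, hρ3⟩ : ∃ ρ : ℝ, 0 < ρ ∧ ρ < ρ₀ ∧ ρ < f b ∧ ρ < ‖α b‖ := by
    have h1 : 0 < min ρ₀ (min (f b) ‖α b‖) := lt_min hρ₀ (lt_min hfb hαb)
    refine ⟨min ρ₀ (min (f b) ‖α b‖) / 2, by linarith, ?_, ?_, ?_⟩
    · linarith [min_le_left ρ₀ (min (f b) ‖α b‖)]
    · linarith [min_le_right ρ₀ (min (f b) ‖α b‖), min_le_left (f b) ‖α b‖]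
    · linarith [min_le_right ρ₀ (min (f b) ‖α b‖), min_le_right (f b) ‖α b‖]
  obtain ⟨t₁, c, F, ht₁, hcim, hcn, hF1, hF2, hF3⟩ :=
    ate_straight hTH hb hρ hαc hαi hα0 hαim hρ3
  have hFs : ∀ z : ℂ, 0 ≤ z.im → F.symm z = z := by
    intro z hz
    rw [F.symm_apply_eq]
    exact (hF1 z hz).symm
  have hFs2 : ∀ z : ℂ, 0 ≤ (F.symm z).im ↔ 0 ≤ z.im := by
    intro z
    constructor
    · intro h
      have h1 := hF1 _ h
      rw [F.apply_symm_apply] at h1
      rw [h1]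
      exact h
    · intro h
      rw [hFs z h]
      exact h
  have hc0 : c ≠ 0 := by
    intro h1
    rw [h1, Complex.zero_im] at hcim
    exact lt_irrefl _ hcim
  -- the chart φ₁
  have hφ₁ : IsOpenEmbedding (fun z => φ (F.symm z)) := hφ.comp F.symm.isOpenEmbedding
  have hφ₁K : ∀ z, φ (F.symm z) ∈ K ↔ 0 ≤ z.im := fun z => (hφK _).trans (hFs2 z)
  -- the small radius
  have hM : IsClosed (α '' Icc t₁ b) :=
    (isCompact_Icc.image_of_continuousOn (hαc.mono (Icc_subset_Icc ht₁.1.le le_rfl))).isClosed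
  have hM0 : (0 : ℂ) ∉ α '' Icc t₁ b := by
    rintro ⟨t, ht, hte⟩
    have h1 := hαi ⟨ht₁.1.le.trans ht.1, ht.2⟩ ⟨le_rfl, hb.le⟩ (hte.trans hα0.symm)
    linarith [ht₁.1, ht.1]
  obtain ⟨ρ₃, hρ₃, hρ₃s⟩ := Metric.isOpen_iff.1
    ((isOpen_ball : IsOpen (ball (0:ℂ) ρ)).inter (((isOpen_ball : IsOpen (ball (0:ℂ) ρ)).inter
      hM.isOpen_compl).preimage F.symm.continuous)) 0
    ⟨mem_ball_self hρ, by
      rw [mem_preimage, hFs 0 (by simp)]
      exact ⟨mem_ball_self hρ, hM0⟩⟩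
  have hρ₃le : ρ₃ ≤ ρ := by
    by_contra hcon
    rw [not_le] at hcon
    have h1 : ((ρ : ℝ) : ℂ) ∈ ball (0:ℂ) ρ₃ := by
      rw [mem_ball_zero_iff, Complex.norm_real, Real.norm_of_nonneg hρ.le]
      exact hcon
    have h2 := (hρ₃s h1).1
    rw [mem_ball_zero_iff, Complex.norm_real, Real.norm_of_nonneg hρ.le] at h2
    exact lt_irrefl _ h2
  -- the circle in the chart
  have hUC : ∀ z ∈ ball (0:ℂ) ρ₃, φ (F.symm z) ∈ e '' UC →
      0 ≤ z.im ∨ ∃ t : ℝ, z = t * c := by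
    rintro z hz ⟨ξ, hξ, hξe⟩
    obtain ⟨s, hs0, hs1, rfl⟩ := ate_surj hξ a hσ
    obtain ⟨-, h1, h2⟩ := hρ₃s hz
    have h3 : ¬ (b ≤ s ∧ s ≤ 2 * Real.pi - b) := by
      rintro ⟨h4, h5⟩
      have h6 : F.symm z ∈ ball (0:ℂ) ρ₀ := ball_subset_ball hρ1.le h1
      exact (hρ₀s h6) ⟨s, ⟨h4, h5⟩, hξe⟩
    rcases lt_or_ge s b with h4 | h4
    · left
      have h5 := hp s ⟨hs0, h4.le⟩
      rw [hξe] at h5
      have h6 := hφ.injective h5
      rw [← hFs2, ← h6, Complex.ofReal_im]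
    · right
      have h5 : 2 * Real.pi - b < s := by
        by_contra hcon
        exact h3 ⟨h4, not_lt.1 hcon⟩
      have h6 : cexpi (a + σ * s) = cexpi (a - σ * (2 * Real.pi - s)) := by
        rcases hσ with rfl | rfl
        · rw [← ate_per (a - 1 * (2 * Real.pi - s))]
          congr 1
          ring
        · rw [← ate_per (a + -1 * s)]
          congr 1
          ring
      have h7 : 2 * Real.pi - s ∈ Icc 0 b := ⟨by linarith, by linarith⟩
      have h8 := hm _ h7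
      rw [← h6, hξe] at h8
      have h9 := hφ.injective h8
      have h10 : 2 * Real.pi - s < t₁ := by
        by_contra hcon
        exact h2 ⟨_, ⟨not_lt.1 hcon, h7.2⟩, h9⟩
      have h11 := hF3 ((2 * Real.pi - s) / t₁) ⟨div_nonneg h7.1 ht₁.1.le, by
        rw [div_le_one ht₁.1]
        exact h10.le⟩
      rw [div_mul_cancel₀ _ ht₁.1.ne', h9, F.apply_symm_apply] at h11
      exact ⟨_, h11⟩
  have hpos : ∀ x : ℝ, 0 < x → x < ρ₃ → φ (F.symm x) ∈ interior (K ∪ e '' CD) := by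
    intro x hx0 hx1
    rw [hFs _ (by simp)]
    have h1 : x ∈ f '' Icc 0 b := by
      apply intermediate_value_Icc hb.le hfc
      rw [hf0]
      exact ⟨hx0.le, by linarith⟩
    obtain ⟨t, ht, rfl⟩ := h1
    have h2 : t ≠ 0 := by
      rintro rfl
      rw [hf0] at hx0
      exact lt_irrefl _ hx0
    have h3 : t ≠ b := by
      rintro rfl
      linarith
    rw [hp t ht]
    exact hati t ⟨lt_of_le_of_ne ht.1 h2.symm, lt_of_le_of_ne ht.2 h3⟩
  have hray : ∀ t : ℝ, 0 ≤ t → t ≤ 1 → φ (F.symm (t * c)) = e (cexpi (a - σ * (t * t₁))) := by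
    intro t ht0 ht1
    rw [← hF3 t ⟨ht0, ht1⟩, F.symm_apply_apply]
    exact hm _ ⟨mul_nonneg ht0 ht₁.1.le, by nlinarith [ht₁.1, ht₁.2]⟩
  -- coordinates
  set k : ℝ := c.re / c.im with hk
  have hkc : k * c.im = c.re := div_mul_cancel₀ _ hcim.ne
  have hcoord : ∀ z : ℂ, z = ((z.re - k * z.im : ℝ) : ℂ) + ((z.im / c.im : ℝ) : ℂ) * c := by
    intro z
    apply Complex.ext
    · rw [Complex.add_re, Complex.ofReal_re, Complex.re_ofReal_mul, hk]
      field_simp
      ring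
    · rw [Complex.add_im, Complex.ofReal_im, Complex.im_ofReal_mul, div_mul_cancel₀ _ hcim.ne]
      ring
  have hnot : ∀ z ∈ ball (0:ℂ) ρ₃, z.im < 0 → z.re - k * z.im ≠ 0 → φ (F.symm z) ∈ e '' CD →
      φ (F.symm z) ∈ e '' OD := by
    rintro z hz hz1 hz2 ⟨ξ, hξ, hξe⟩
    rw [mem_closedBall_zero_iff] at hξ
    rcases hξ.lt_or_eq with h | h
    · exact ⟨ξ, mem_ball_zero_iff.2 h, hξe⟩
    · exfalso
      rcases hUC z hz ⟨ξ, mem_sphere_zero_iff_norm.2 h, hξe⟩ with h1 | ⟨t, h1⟩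
      · linarith
      · apply hz2
        rw [h1, Complex.re_ofReal_mul, Complex.im_ofReal_mul, ← hkc]
        ring
  have hsec : ∀ R : Set ℂ, Convex ℝ R → (∀ z ∈ R, z ∈ ball (0:ℂ) ρ₃ ∧ z.im < 0 ∧
      z.re - k * z.im ≠ 0) → (∃ z ∈ R, φ (F.symm z) ∈ e '' CD) →
      ∀ z ∈ R, φ (F.symm z) ∈ e '' OD := by
    rintro R hR hR1 ⟨z₀, hz₀, hz₀e⟩ z hz
    have h1 : IsPreconnected ((fun z => φ (F.symm z)) '' R) :=
      hR.isPreconnected.image _ hφ₁.continuous.continuousOn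
    have h2 : (fun z => φ (F.symm z)) '' R ⊆ e '' OD := by
      refine h1.subset_left_of_subset_union hOo hCc.isOpen_compl ?_ ?_ ?_
      · exact disjoint_compl_right_iff_subset.2 (image_mono hsubO)
      · rintro _ ⟨w, hw, rfl⟩
        obtain ⟨h3, h4, h5⟩ := hR1 w hw
        by_cases h6 : φ (F.symm w) ∈ e '' CD
        · exact Or.inl (hnot w h3 h4 h5 h6)
        · exact Or.inr h6
      · obtain ⟨h3, h4, h5⟩ := hR1 z₀ hz₀
        exact ⟨_, ⟨z₀, hz₀, rfl⟩, hnot z₀ h3 h4 h5 hz₀e⟩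
    exact h2 ⟨z, hz, rfl⟩
  -- the linear form
  set L : ℂ →ₗ[ℝ] ℝ := Complex.reLm - k • Complex.imLm with hL
  have hLz : ∀ z, L z = z.re - k * z.im := by
    intro z
    simp [hL]
  have hlow : Convex ℝ {z : ℂ | z.im < 0} := convex_halfSpace_im_lt 0
  -- the good sector
  have hR : ∀ z ∈ ball (0:ℂ) ρ₃, z.im < 0 → 0 < z.re - k * z.im → φ (F.symm z) ∈ e '' OD := by
    intro z hz hz1 hz2
    refine hsec (ball 0 ρ₃ ∩ {z : ℂ | z.im < 0} ∩ L ⁻¹' Ioi 0)
      (((convex_ball 0 ρ₃).inter hlow).inter ((convex_Ioi 0).linear_preimage L)) ?_ ?_ z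
      ⟨⟨hz, hz1⟩, by rw [mem_preimage, hLz]; exact hz2⟩
    · rintro w ⟨⟨h1, h2⟩, h3⟩
      rw [mem_preimage, hLz, mem_Ioi] at h3
      exact ⟨h1, h2, h3.ne'⟩
    · -- a point near the positive axis
      have h1 : IsOpen ((fun z => φ (F.symm z)) ⁻¹' interior (K ∪ e '' CD) ∩ ball (0:ℂ) ρ₃) :=
        (isOpen_interior.preimage hφ₁.continuous).inter isOpen_ball
      have hx : (((ρ₃ / 2 : ℝ)) : ℂ) ∈
          (fun z => φ (F.symm z)) ⁻¹' interior (K ∪ e '' CD) ∩ ball (0:ℂ) ρ₃ := by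
        refine ⟨hpos _ (by linarith) (by linarith), ?_⟩
        rw [mem_ball_zero_iff, Complex.norm_real, Real.norm_of_nonneg (by linarith)]
        linarith
      have h2 : Continuous (fun t : ℝ => (((ρ₃ / 2 : ℝ)) : ℂ) + t * c) := by fun_prop
      have h3 := (h1.preimage h2).mem_nhds (x := (0:ℝ)) (by
        rw [mem_preimage, Complex.ofReal_zero, zero_mul, add_zero]
        exact hx)
      obtain ⟨δ, hδ, hδs⟩ := Metric.mem_nhds_iff.1 h3
      have h4 : δ / 2 ∈ ball (0:ℝ) δ := by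
        rw [mem_ball_zero_iff, Real.norm_of_nonneg (by linarith)]
        linarith
      obtain ⟨h5, h6⟩ := hδs h4
      have him : ((((ρ₃ / 2 : ℝ)) : ℂ) + ((δ / 2 : ℝ) : ℂ) * c).im < 0 := by
        rw [Complex.add_im, Complex.ofReal_im, Complex.im_ofReal_mul, zero_add]
        exact mul_neg_of_pos_of_neg (by linarith) hcim
      refine ⟨_, ⟨⟨h6, him⟩, ?_⟩, ?_⟩
      · rw [mem_preimage, hLz, mem_Ioi, Complex.add_im, Complex.ofReal_im, Complex.im_ofReal_mul,
          Complex.add_re, Complex.ofReal_re, Complex.re_ofReal_mul, ← hkc]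
        have : ρ₃ / 2 + δ / 2 * (k * c.im) - k * (0 + δ / 2 * c.im) = ρ₃ / 2 := by ring
        rw [this]
        linarith
      · rcases interior_subset h5 with h7 | h7
        · exact absurd ((hφ₁K _).1 h7) (not_le.2 him)
        · exact h7
  -- the bad sector
  have hR' : ∀ z ∈ ball (0:ℂ) ρ₃, z.im < 0 → z.re - k * z.im < 0 → φ (F.symm z) ∉ e '' CD := by
    intro z hz hz1 hz2 hcon
    have hall : ∀ w ∈ ball (0:ℂ) ρ₃, w.im < 0 → w.re - k * w.im < 0 →
        φ (F.symm w) ∈ e '' OD := by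
      intro w hw hw1 hw2
      refine hsec (ball 0 ρ₃ ∩ {z : ℂ | z.im < 0} ∩ L ⁻¹' Iio 0)
        (((convex_ball 0 ρ₃).inter hlow).inter ((convex_Iio 0).linear_preimage L)) ?_ ?_ w
        ⟨⟨hw, hw1⟩, by rw [mem_preimage, hLz]; exact hw2⟩
      · rintro w ⟨⟨h1, h2⟩, h3⟩
        rw [mem_preimage, hLz, mem_Iio] at h3
        exact ⟨h1, h2, h3.ne⟩
      · exact ⟨z, ⟨⟨hz, hz1⟩, by rw [mem_preimage, hLz]; exact hz2⟩, hcon⟩
    have hB : IsOpen (ball (0:ℂ) ρ₃ ∩ {z : ℂ | z.im < 0}) :=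
      isOpen_ball.inter (isOpen_lt Complex.continuous_im continuous_const)
    have hraym : ∀ w ∈ ball (0:ℂ) ρ₃, w.im < 0 → w.re - k * w.im = 0 →
        φ (F.symm w) ∈ e '' UC := by
      intro w hw hw1 hw2
      have h1 := hcoord w
      rw [hw2, Complex.ofReal_zero, zero_add] at h1
      have h2 : 0 ≤ w.im / c.im := div_nonneg_of_nonpos hw1.le hcim.le
      have h3 : w.im / c.im ≤ 1 := by
        rw [mem_ball_zero_iff, h1, norm_mul, hcn, Complex.norm_real, Real.norm_of_nonneg h2] at hw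
        by_contra h4
        rw [not_le] at h4
        nlinarith
      rw [h1, hray _ h2 h3]
      exact ⟨_, ate_UC _, rfl⟩
    have hBe : (fun z => φ (F.symm z)) '' (ball (0:ℂ) ρ₃ ∩ {z : ℂ | z.im < 0}) ⊆ e '' CD := by
      rintro _ ⟨w, ⟨hw, hw1⟩, rfl⟩
      rcases lt_trichotomy (w.re - k * w.im) 0 with h | h | h
      · exact image_mono hsubO (hall w hw hw1 h)
      · exact image_mono hsubU (hraym w hw hw1 h)
      · exact image_mono hsubO (hR w hw hw1 h)
    -- a point on the ray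
    set t₂ : ℝ := ρ₃ / (2 * ρ) with ht₂
    have ht₂0 : 0 < t₂ := by positivity
    have ht₂1 : t₂ ≤ 1 := by
      rw [ht₂, div_le_one (by positivity)]
      linarith
    have hq : (t₂ : ℂ) * c ∈ ball (0:ℂ) ρ₃ ∩ {z : ℂ | z.im < 0} := by
      constructor
      · rw [mem_ball_zero_iff, norm_mul, hcn, Complex.norm_real, Real.norm_of_nonneg ht₂0.le, ht₂]
        rw [div_mul_eq_mul_div, div_lt_iff₀ (by positivity)]
        nlinarith
      · change ((t₂ : ℂ) * c).im < 0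
        rw [Complex.im_ofReal_mul]
        exact mul_neg_of_pos_of_neg ht₂0 hcim
    have h1 : IsOpen (E ⁻¹' ((fun z => φ (F.symm z)) '' (ball (0:ℂ) ρ₃ ∩ {z : ℂ | z.im < 0}))) :=
      (hφ₁.isOpenMap _ hB).preimage hE.continuous
    have h2 : E ⁻¹' ((fun z => φ (F.symm z)) '' (ball (0:ℂ) ρ₃ ∩ {z : ℂ | z.im < 0})) ⊆ CD := by
      intro v hv
      have h3 := hBe hv
      rw [hEC] at h3
      obtain ⟨v', hv', hvv⟩ := h3
      rw [← hE.injective hvv]
      exact hv'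
    have h3 : cexpi (a - σ * (t₂ * t₁)) ∈
        E ⁻¹' ((fun z => φ (F.symm z)) '' (ball (0:ℂ) ρ₃ ∩ {z : ℂ | z.im < 0})) := by
      refine ⟨_, hq, ?_⟩
      change φ (F.symm (t₂ * c)) = _
      rw [hray _ ht₂0.le ht₂1, hEe (hsubU (ate_UC _))]
    have h4 : cexpi (a - σ * (t₂ * t₁)) ∈ interior (closedBall (0:ℂ) 1) :=
      interior_maximal h2 h1 h3
    rw [interior_closedBall _ one_ne_zero, mem_ball_zero_iff] at h4
    have h5 := mem_sphere_zero_iff_norm.1 (ate_UC (a - σ * (t₂ * t₁)))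
    exact absurd h5 h4.ne
  -- the description of the union
  have hmain : ∀ z ∈ ball (0:ℂ) ρ₃, (φ (F.symm z) ∈ K ∪ e '' CD ↔
      (0 ≤ z.im ∨ ∃ s t : ℝ, 0 ≤ s ∧ 0 ≤ t ∧ z = s + t * c)) := by
    intro z hz
    constructor
    · intro h
      rcases lt_or_ge z.im 0 with h1 | h1
      · right
        rcases h with h2 | h2
        · exact absurd ((hφ₁K z).1 h2) (not_le.2 h1)
        · refine ⟨z.re - k * z.im, z.im / c.im, ?_, div_nonneg_of_nonpos h1.le hcim.le, hcoord z⟩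
          by_contra hcon
          exact hR' z hz h1 (not_le.1 hcon) h2
      · exact Or.inl h1
    · rintro (h | ⟨s, t, hs, ht, h⟩)
      · exact Or.inl ((hφ₁K z).2 h)
      · rcases lt_or_ge z.im 0 with h1 | h1
        · right
          have h2 : z.im = t * c.im := by
            rw [h, Complex.add_im, Complex.ofReal_im, Complex.im_ofReal_mul, zero_add]
          have h3 : z.re - k * z.im = s := by
            rw [h2, h, Complex.add_re, Complex.ofReal_re, Complex.re_ofReal_mul, ← hkc]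
            ring
          rcases hs.eq_or_lt with h4 | h4
          · rw [← h4, Complex.ofReal_zero, zero_add] at h
            have h5 : t ≤ 1 := by
              rw [mem_ball_zero_iff, h, norm_mul, hcn, Complex.norm_real,
                Real.norm_of_nonneg ht] at hz
              by_contra h6
              rw [not_le] at h6
              nlinarith
            rw [h, hray t ht h5]
            exact ⟨_, hsubU (ate_UC _), rfl⟩
          · exact image_mono hsubO (hR z hz h1 (by rw [h3]; exact h4))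
        · exact Or.inl ((hφ₁K z).2 h1)
  -- the chart
  obtain ⟨σ', hσ'1, hσ'2, hσ'3, hσ'4, hσ'5⟩ := hSHR.1 ρ₃ hρ₃
  obtain ⟨τ', hτ'1, hτ'2⟩ := hSHR.2.2 c hcim
  refine ⟨fun z => φ (F.symm (σ' (τ' z))), hφ₁.comp (hσ'1.comp τ'.isOpenEmbedding), ?_, ?_⟩
  · change φ (F.symm (σ' (τ' 0))) = _
    rw [hτ'1, hσ'2, hFs 0 (by simp)]
    exact hφ0
  · intro z
    rw [← hτ'2 z]
    have h1 : σ' (τ' z) ∈ ball (0:ℂ) ρ₃ := by
      rw [← hσ'3]
      exact mem_range_self _
    change φ (F.symm (σ' (τ' z))) ∈ K ∪ e '' CD ↔ _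
    rw [hmain _ h1, hσ'4]
    refine or_congr Iff.rfl ?_
    obtain ⟨l, hl, hle⟩ := hσ'5 (τ' z)
    rw [hle]
    have hl0 : (l : ℂ) ≠ 0 := by exact_mod_cast hl.ne'
    constructor
    · rintro ⟨s, t, hs, ht, h⟩
      refine ⟨s / l, t / l, div_nonneg hs hl.le, div_nonneg ht hl.le, ?_⟩
      push_cast
      field_simp
      rw [mul_comm]
      exact h
    · rintro ⟨s, t, hs, ht, h⟩
      refine ⟨l * s, l * t, mul_nonneg hl.le hs, mul_nonneg hl.le ht, ?_⟩
      rw [h]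
      push_cast
      ring

/-! ## The theorem -/

private theorem ate_refl : ∃ r : ℂ ≃ₜ ℂ, r 0 = 0 ∧ (∀ z, (r z).im = z.im) ∧ (∀ z, r (r z) = z) ∧
    ∀ x : ℝ, r ((-1 * x : ℝ) : ℂ) = x := by
  refine ⟨Complex.conjLIE.toHomeomorph.trans (Homeomorph.neg ℂ), ?_, ?_, ?_, ?_⟩
  · simp
  · intro z
    simp
  · intro z
    simp
  · intro x
    simp

/-- **ATE.** -/
theorem thm_ATE (_hSCH : St_SCH) (hTH : St_TH) (hTE : St_TE) (hSHR : St_SHR) (hBFR : St_BFR)
    (hATI : St_ATI) : St_ATE := by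
  intro X _ hX K e S hK he hSU _hSc hKS a σ τ hσ hτ hin hout
  have := hX.t2
  have hpi := Real.pi_pos
  have hpi3 := Real.pi_gt_three
  have hsubU : UC ⊆ CD := sphere_subset_closedBall
  obtain ⟨E, hE, hEe⟩ := hTE X hX.t2 e he
  have hec : ContinuousOn e CD := he.1
  have hei : InjOn e CD := he.2.1
  obtain ⟨hB1, -, hB3, -, hB5⟩ := hBFR X hX K hK
  obtain ⟨hSfr, -⟩ := hB5 e S he hSU hKS
  have hmem : ∀ ξ ∈ CD, e ξ ∈ K → ξ ∈ S := by
    intro ξ hξ h
    have h1 : e ξ ∈ e '' S := by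
      rw [← hKS]
      exact ⟨⟨ξ, hξ, rfl⟩, h⟩
    obtain ⟨η, hη, hηe⟩ := h1
    rw [← hei (hsubU (hSU hη)) hξ hηe]
    exact hη
  have haS : cexpi a ∈ S := by
    have := hin 0 ⟨le_rfl, hτ⟩
    rwa [mul_zero, add_zero] at this
  obtain ⟨φ₀, hφ₀, hφ₀0, -, hφ₀K⟩ := hB3 (e (cexpi a)) (hSfr ⟨_, haS, rfl⟩) univ univ_mem
  have hfrK := (hB1 φ₀ hφ₀ hφ₀K).1
  -- the curve in the chart
  have hcur : Continuous (fun s : ℝ => e (cexpi (a + s))) :=
    hec.comp_continuous (ate_cont.comp (by fun_prop)) fun s => hsubU (ate_UC _)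
  have hU₀ : IsOpen ((fun s : ℝ => e (cexpi (a + s))) ⁻¹' range φ₀) :=
    hφ₀.isOpen_range.preimage hcur
  set A : ℝ → ℂ := fun s => Function.invFun φ₀ (e (cexpi (a + s))) with hA
  have hAφ : ∀ s ∈ (fun s : ℝ => e (cexpi (a + s))) ⁻¹' range φ₀, φ₀ (A s) = e (cexpi (a + s)) :=
    fun s hs => Function.invFun_eq hs
  have hAc : ContinuousOn A ((fun s : ℝ => e (cexpi (a + s))) ⁻¹' range φ₀) := by
    rw [hφ₀.toIsEmbedding.toIsInducing.continuousOn_iff]
    exact hcur.continuousOn.congr fun s hs => hAφ s hs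
  obtain ⟨δ, hδ, hδs⟩ := Metric.isOpen_iff.1 hU₀ 0 (by
    rw [mem_preimage, add_zero, ← hφ₀0]
    exact mem_range_self _)
  obtain ⟨b, hb, hbτ, hb1, hbδ⟩ : ∃ b : ℝ, 0 < b ∧ b < τ ∧ b < 1 ∧ b < δ := by
    have h1 : 0 < min τ (min 1 δ) := lt_min hτ (lt_min one_pos hδ)
    refine ⟨min τ (min 1 δ) / 2, by linarith, ?_, ?_, ?_⟩
    · linarith [min_le_left τ (min 1 δ)]
    · linarith [min_le_right τ (min 1 δ), min_le_left 1 δ]
    · linarith [min_le_right τ (min 1 δ), min_le_right 1 δ]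
  have hσ1 : |σ| = 1 := by rcases hσ with rfl | rfl <;> simp
  have hbU : ∀ u : ℝ, |u| = 1 → ∀ t ∈ Icc 0 b,
      u * t ∈ (fun s : ℝ => e (cexpi (a + s))) ⁻¹' range φ₀ := by
    intro u hu t ht
    apply hδs
    rw [mem_ball_zero_iff, Real.norm_eq_abs, abs_mul, hu, one_mul, abs_of_nonneg ht.1]
    linarith [ht.2]
  have hA0 : A 0 = 0 := by
    apply hφ₀.injective
    rw [hAφ 0 (by rw [mem_preimage, add_zero, ← hφ₀0]; exact mem_range_self _), add_zero, hφ₀0]
  have hAi : ∀ u : ℝ, |u| = 1 → ∀ s ∈ Icc 0 b, ∀ t ∈ Icc 0 b, A (u * s) = A (u * t) → s = t := by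
    intro u hu s hs t ht h
    have h1 : e (cexpi (a + u * s)) = e (cexpi (a + u * t)) := by
      rw [← hAφ _ (hbU u hu s hs), ← hAφ _ (hbU u hu t ht), h]
    have h2 := ate_inj (hei (hsubU (ate_UC _)) (hsubU (ate_UC _)) h1) (by
      have h3 : a + u * s - (a + u * t) = u * (s - t) := by ring
      rw [h3, abs_mul, hu, one_mul, abs_lt]
      constructor <;> linarith [hs.1, hs.2, ht.1, ht.2])
    have h3 : u * s = u * t := by linarith
    have hu0 : u ≠ 0 := by
      rintro rfl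
      simp at hu
    exact mul_left_cancel₀ hu0 h3
  have hAcu : ∀ u : ℝ, |u| = 1 → ContinuousOn (fun t => A (u * t)) (Icc 0 b) := by
    intro u hu
    exact hAc.comp (Continuous.continuousOn (by fun_prop)) (fun t ht => hbU u hu t ht)
  have hσn : |-σ| = 1 := by rw [abs_neg, hσ1]
  -- the positive part is real
  have hre : ∀ t ∈ Icc 0 b, A (σ * t) = ((A (σ * t)).re : ℂ) := by
    intro t ht
    have h1 : φ₀ (A (σ * t)) ∈ frontier K := by
      rw [hAφ _ (hbU σ hσ1 t ht)]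
      exact hSfr ⟨_, hin t ⟨ht.1, by linarith [ht.2]⟩, rfl⟩
    rw [hfrK] at h1
    apply Complex.ext
    · simp
    · rw [h1, Complex.ofReal_im]
  -- the negative part is below
  have him : ∀ t ∈ Ioc 0 b, (A (-σ * t)).im < 0 := by
    intro t ht
    by_contra hcon
    rw [not_lt, ← hφ₀K, hAφ _ (hbU (-σ) hσn t ⟨ht.1.le, ht.2⟩)] at hcon
    have h1 := hmem _ (hsubU (ate_UC _)) hcon
    refine hout t ⟨ht.1, by linarith [ht.2]⟩ ?_
    rw [show a - σ * t = a + -σ * t by ring]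
    exact h1
  -- interior points
  have hati : ∀ t ∈ Ioo 0 b, e (cexpi (a + σ * t)) ∈ interior (K ∪ e '' CD) := by
    intro t ht
    refine hATI X hX K e S hK he hSU hKS _ (ate_UC _) ?_
    rw [mem_nhdsWithin]
    have hZ : IsClosed ((fun s : ℝ => cexpi (a + σ * s)) '' Icc b (2 * Real.pi)) :=
      (isCompact_Icc.image (ate_cont.comp (by fun_prop))).isClosed
    refine ⟨_, hZ.isOpen_compl, ?_, ?_⟩
    · rintro ⟨s, hs, hse⟩
      have h1 := ate_inj hse (by
        have h3 : a + σ * s - (a + σ * t) = σ * (s - t) := by ring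
        rw [h3, abs_mul, hσ1, one_mul, abs_lt]
        constructor <;> linarith [hs.1, hs.2, ht.1, ht.2])
      have h2 : σ * (s - t) = 0 := by linarith
      have h3 : σ ≠ 0 := by
        rintro rfl
        simp at hσ1
      have h4 : s - t = 0 := (mul_eq_zero.1 h2).resolve_left h3
      linarith [hs.1, ht.2]
    · rintro η ⟨hη, hη2⟩
      obtain ⟨s, hs0, hs1, rfl⟩ := ate_surj hη2 a hσ
      refine hin s ⟨hs0, ?_⟩
      by_contra hcon
      exact hη ⟨s, ⟨by linarith, hs1.le⟩, rfl⟩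
  -- reduction to the core
  have key : ∀ (r : ℂ ≃ₜ ℂ) (ε : ℝ), r 0 = 0 → (∀ z, (r z).im = z.im) → (∀ z, r (r z) = z) →
      (∀ x : ℝ, r ((ε * x : ℝ) : ℂ) = x) → (∀ t ∈ Icc 0 b, 0 ≤ ε * (A (σ * t)).re) →
      0 < ε * (A (σ * b)).re →
      ∃ φ : ℂ → X, IsOpenEmbedding φ ∧ φ 0 = e (cexpi a) ∧ ∀ z, φ z ∈ K ∪ e '' CD ↔ 0 ≤ z.im := by
    intro r ε hr0 hrim hrr hrε hε1 hε2
    refine ate_core (φ := fun z => φ₀ (r z)) (f := fun t => ε * (A (σ * t)).re)
      (α := fun t => r (A (-σ * t))) (σ := σ) (b := b) hTH hSHR hσ hb (by linarith) hec hei hE hEe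
      (hφ₀.comp r.isOpenEmbedding) ?_ ?_ ?_ ?_ ?_ ?_ hε1 hε2 ?_ ?_ ?_ ?_ hati
    · change φ₀ (r 0) = _
      rw [hr0, hφ₀0]
    · intro z
      rw [← hrim z]
      exact hφ₀K _
    · intro t ht
      change φ₀ (r ((ε * (A (σ * t)).re : ℝ) : ℂ)) = _
      rw [hrε, ← hre t ht]
      exact hAφ _ (hbU σ hσ1 t ht)
    · intro t ht
      change φ₀ (r (r (A (-σ * t)))) = _
      rw [hrr, hAφ _ (hbU (-σ) hσn t ht), show a - σ * t = a + -σ * t by ring]
    · exact continuousOn_const.mul (Complex.continuous_re.comp_continuousOn (hAcu σ hσ1))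
    · simp only [mul_zero, hA0, Complex.zero_re]
    · exact r.continuous.comp_continuousOn (hAcu (-σ) hσn)
    · intro s hs t ht h
      exact hAi (-σ) hσn s hs t ht (r.injective h)
    · simp only [mul_zero, hA0, hr0]
    · intro t ht
      rw [hrim]
      exact him t ht
  have hfc : ContinuousOn (fun t => (A (σ * t)).re) (Icc 0 b) :=
    Complex.continuous_re.comp_continuousOn (hAcu σ hσ1)
  have hfi : InjOn (fun t => (A (σ * t)).re) (Icc 0 b) := by
    intro s hs t ht h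
    refine hAi σ hσ1 s hs t ht ?_
    rw [hre s hs, hre t ht]
    exact congrArg _ h
  have hf0 : (A (σ * 0)).re = 0 := by rw [mul_zero, hA0, Complex.zero_re]
  rcases hfc.strictMonoOn_of_injOn_Icc' hb.le hfi with hmono | hanti
  · refine key (Homeomorph.refl ℂ) 1 (by simp) (by simp) (by simp) (by simp) ?_ ?_
    · intro t ht
      have h1 := hmono.monotoneOn ⟨le_rfl, hb.le⟩ ht ht.1
      simp only [hf0] at h1
      rw [one_mul]
      exact h1
    · have h1 := hmono ⟨le_rfl, hb.le⟩ ⟨hb.le, le_rfl⟩ hb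
      simp only [hf0] at h1
      rw [one_mul]
      exact h1
  · obtain ⟨r, hr0, hrim, hrr, hrx⟩ := ate_refl
    refine key r (-1) hr0 hrim hrr hrx ?_ ?_
    · intro t ht
      have h1 := hanti.antitoneOn ⟨le_rfl, hb.le⟩ ht ht.1
      simp only [hf0] at h1
      linarith
    · have h1 := hanti ⟨le_rfl, hb.le⟩ ⟨hb.le, le_rfl⟩ hb
      simp only [hf0] at h1
      linarith

end Pool.Agent.SRF
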