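import Pool.Agent.SRF.StB

set_option autoImplicit false

/-! # SRF/ATI: attaching a tile, interior points of the attaching arcs. -/

open Set Metric Filter Topology

namespace Pool.Agent.SRF

theorem thm_ATI (hINV : St_INV) (hBFR : St_BFR) : St_ATI := by
  intro X _ hX K e S hK he hSU hmeet ζ hζ hS
  have hT2 : T2Space X := hX.t2
  obtain ⟨-, -, -, -, h5⟩ := hBFR X hX K hK
  obtain ⟨h5a, h5b⟩ := h5 e S he hSU hmeet
  have hUCD : UC ⊆ CD := sphere_subset_closedBall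
  have hO : IsOpen (e '' OD) := (hINV X hX).1 OD e isOpen_ball
    (he.1.mono ball_subset_closedBall) (he.2.1.mono ball_subset_closedBall)
  have hC : IsCompact (e '' CD) := (isCompact_closedBall (0 : ℂ) 1).image_of_continuousOn he.1
  have hSK : e '' S ⊆ K := by
    rw [← hmeet]
    exact inter_subset_right
  have hζS : ζ ∈ S := mem_of_mem_nhdsWithin hζ hS
  have hp : e ζ ∈ frontier K := h5a ⟨ζ, hζS, rfl⟩
  obtain ⟨φ, hφ, hφ0, hφK⟩ := hK.2 (e ζ) hp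
  obtain ⟨ρ, hρ, hρS⟩ := Metric.mem_nhdsWithin_iff.mp hS
  have hcomp : IsCompact (e '' (UC \ ball ζ ρ)) :=
    ((isCompact_sphere (0 : ℂ) 1).diff isOpen_ball).image_of_continuousOn
      (he.1.mono (sdiff_subset.trans hUCD))
  have hnp : e ζ ∉ e '' (UC \ ball ζ ρ) := by
    rintro ⟨ξ, ⟨hξ, hξb⟩, h⟩
    have h1 : ξ = ζ := he.2.1 (hUCD hξ) (hUCD hζ) h
    rw [h1] at hξb
    exact hξb (mem_ball_self hρ)
  have hnhds : φ ⁻¹' (e '' (UC \ ball ζ ρ))ᶜ ∈ 𝓝 (0 : ℂ) :=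
    hφ.continuous.continuousAt.preimage_mem_nhds (by
      rw [hφ0]
      exact hcomp.isClosed.isOpen_compl.mem_nhds hnp)
  obtain ⟨ρ', hρ', hball⟩ := Metric.mem_nhds_iff.mp hnhds
  -- the lower half of the small ball
  have hBconv : Convex ℝ (ball (0 : ℂ) ρ' ∩ {z : ℂ | z.im < 0}) :=
    (convex_ball (0 : ℂ) ρ').inter (convex_halfSpace_im_lt 0)
  have hBK : ∀ z : ℂ, z.im < 0 → φ z ∉ K := by
    intro z hz h
    exact not_lt.mpr ((hφK z).mp h) hz
  have hpre : IsPreconnected (φ '' (ball (0 : ℂ) ρ' ∩ {z : ℂ | z.im < 0})) :=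
    hBconv.isPreconnected.image φ hφ.continuous.continuousOn
  have hsub : φ '' (ball (0 : ℂ) ρ' ∩ {z : ℂ | z.im < 0}) ⊆ e '' OD ∪ (e '' CD)ᶜ := by
    rintro _ ⟨z, ⟨hz1, hz2⟩, rfl⟩
    by_cases hz : φ z ∈ e '' CD
    · left
      obtain ⟨ξ, hξ, hξz⟩ := hz
      refine ⟨ξ, ?_, hξz⟩
      by_contra hξO
      have hξU : ξ ∈ UC := by
        rw [mem_sphere]
        exact le_antisymm (mem_closedBall.mp hξ) (not_lt.mp fun h => hξO (mem_ball.mpr h))
      by_cases hξb : ξ ∈ ball ζ ρ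
      · refine hBK z hz2 (hSK ⟨ξ, hρS ⟨hξb, hξU⟩, hξz⟩)
      · exact hball hz1 ⟨ξ, ⟨hξU, hξb⟩, hξz⟩
    · right
      exact hz
  have hdis : Disjoint (e '' OD) (e '' CD)ᶜ := by
    rw [disjoint_compl_right_iff_subset]
    exact image_mono ball_subset_closedBall
  -- a point of the open disc in the small ball
  have hlim : e ζ ∈ closure (e '' OD) := by
    have h1 : ζ ∈ closure OD := by
      rw [closure_ball (0 : ℂ) one_ne_zero]
      exact hUCD hζ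
    have h2 : ContinuousWithinAt e OD ζ := (he.1 ζ (hUCD hζ)).mono ball_subset_closedBall
    exact h2.mem_closure_image h1
  have hne : (φ '' (ball (0 : ℂ) ρ' ∩ {z : ℂ | z.im < 0}) ∩ e '' OD).Nonempty := by
    obtain ⟨q, ⟨z, hz, rfl⟩, hq⟩ := mem_closure_iff.mp hlim (φ '' ball (0 : ℂ) ρ')
      (hφ.isOpenMap _ isOpen_ball) ⟨0, mem_ball_self hρ', hφ0⟩
    refine ⟨φ z, ⟨z, ⟨hz, ?_⟩, rfl⟩, hq⟩
    by_contra h
    exact disjoint_left.mp h5b hq ((hφK z).mpr (not_lt.mp h))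
  have hleft := hpre.subset_left_of_subset_union hO hC.isClosed.isOpen_compl hdis hsub hne
  refine mem_interior.mpr ⟨φ '' ball (0 : ℂ) ρ', ?_, hφ.isOpenMap _ isOpen_ball,
    ⟨0, mem_ball_self hρ', hφ0⟩⟩
  rintro _ ⟨z, hz, rfl⟩
  by_cases h : 0 ≤ z.im
  · exact Or.inl ((hφK z).mpr h)
  · right
    exact image_mono ball_subset_closedBall (hleft ⟨z, ⟨hz, not_le.mp h⟩, rfl⟩)

end Pool.Agent.SRF
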