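import Pool.Agent.SRF.StA

/-! # SRF/BE (helper52): a compact set which does not separate the plane is a log set -/

set_option autoImplicit false

open Set Metric Filter Topology

namespace Pool.Agent.SRF

theorem thm_BE (hLOGB : St_LOGB) (hFINZ : St_FINZ) (hAPX : St_APX) : St_BE := by
  intro K hK hKc f hf hf0
  obtain ⟨-, -, -, -, -, h6⟩ := hLOGB
  rcases K.eq_empty_or_nonempty with hKe | hne
  · subst hKe
    exact ⟨fun _ => 0, continuousOn_empty _, fun z hz => absurd hz (notMem_empty z)⟩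
  obtain ⟨F, hF⟩ := ContinuousMap.exists_restrict_eq hK.isClosed
    (⟨K.domRestrict f, continuousOn_iff_continuous_domRestrict.1 hf⟩ : C(K, ℂ))
  have hFf : ∀ z ∈ K, F z = f z := by
    intro z hz
    exact congrArg (fun g : C(K, ℂ) => g ⟨z, hz⟩) hF
  obtain ⟨z0, hz0, hmin⟩ := hK.exists_isMinOn hne hf.norm
  have hc : 0 < ‖f z0‖ := norm_pos_iff.2 (hf0 z0 hz0)
  obtain ⟨R, hRpos, hR⟩ := hK.isBounded.subset_closedBall_lt 0 0
  obtain ⟨G, hG, hGF, hfin⟩ := hAPX F F.continuous ‖f z0‖ hc R hRpos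
  have hlt : ∀ z ∈ K, ‖G z - f z‖ < ‖f z‖ := by
    intro z hz
    have h1 := hGF z (hR hz)
    rw [hFf z hz] at h1
    exact lt_of_lt_of_le h1 (hmin hz)
  have hG0 : ∀ z ∈ K, G z ≠ 0 := by
    intro z hz h0
    have h1 := hlt z hz
    rw [h0, zero_sub, norm_neg] at h1
    exact lt_irrefl _ h1
  exact (h6 G f K hG.continuousOn hf hlt).2 (hFINZ K hK hKc G hG hfin hG0)

end Pool.Agent.SRF
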