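import Pool.Agent.SRF.StA
import Pool.Agent.CT.H6
import Pool.Agent.CT.H10

set_option autoImplicit false

/-! # SRF, CARC: Caratheodory for Jordan domains, continuity -/

open Set Metric Filter Topology

namespace Pool.Agent.SRF

theorem carc_star {P : ℝ → Prop} (hP : ∀ θ θ' : ℝ, P θ → |θ'| ≤ |θ| → P θ') :
    IsPreconnected {θ | P θ} := by
  have h : {θ | P θ} = ⋃ t : {θ // P θ}, Icc (-|t.1|) |t.1| := by
    ext θ
    simp only [mem_ofPred_eq, mem_iUnion, mem_Icc]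
    constructor
    · intro h
      exact ⟨⟨θ, h⟩, neg_abs_le θ, le_abs_self θ⟩
    · rintro ⟨⟨t, ht⟩, h1, h2⟩
      exact hP t θ ht (abs_le.2 ⟨h1, h2⟩)
  rw [h]
  exact isPreconnected_iUnion ⟨0, mem_iInter.2 fun t => ⟨by simp, by simp⟩⟩
    fun t => isPreconnected_Icc

theorem carc_cos {θ θ' : ℝ} (h : |θ'| ≤ |θ|) (hθ : |θ| ≤ Real.pi) : Real.cos θ ≤ Real.cos θ' := by
  rw [← Real.cos_abs θ, ← Real.cos_abs θ']
  exact Real.cos_le_cos_of_nonneg_of_le_pi (abs_nonneg _) hθ h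

theorem carc_exp (r θ : ℝ) :
    ‖1 - (r : ℂ) * Complex.exp (θ * Complex.I)‖ ^ 2 = 1 - 2 * r * Real.cos θ + r ^ 2 := by
  rw [Complex.sq_norm, Complex.normSq_apply]
  simp only [Complex.sub_re, Complex.sub_im, Complex.one_re, Complex.one_im,
    Complex.re_ofReal_mul, Complex.im_ofReal_mul, Complex.exp_ofReal_mul_I_re,
    Complex.exp_ofReal_mul_I_im]
  have := Real.sin_sq_add_cos_sq θ
  linear_combination r ^ 2 * this

theorem carc_polar {w : ℂ} (hw : ‖w‖ = 1) : ∃ θ : ℝ, |θ| ≤ Real.pi ∧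
    Complex.exp (θ * Complex.I) = w := by
  refine ⟨Complex.arg w, Complex.abs_arg_le_pi w, ?_⟩
  have := Complex.norm_mul_exp_arg_mul_I w
  rwa [hw, Complex.ofReal_one, one_mul] at this

theorem carc_arc {ζ : ℂ} (hζ : ζ ∈ UC) {ρ : ℝ} (hρ : 0 ≤ ρ) :
    IsPreconnected (UC ∩ closedBall ζ ρ) := by
  have hζ1 : ‖ζ‖ = 1 := by simpa using hζ
  have hζ0 : ζ ≠ 0 := by
    rintro rfl
    simp at hζ1
  have h : UC ∩ closedBall ζ ρ = (fun θ : ℝ => ζ * Complex.exp (θ * Complex.I)) ''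
      {θ | |θ| ≤ Real.pi ∧ 2 - 2 * Real.cos θ ≤ ρ ^ 2} := by
    have key : ∀ θ : ℝ, dist (ζ * Complex.exp (θ * Complex.I)) ζ ^ 2 = 2 - 2 * Real.cos θ := by
      intro θ
      have h1 : ζ * Complex.exp (θ * Complex.I) - ζ =
          -(ζ * (1 - ((1 : ℝ) : ℂ) * Complex.exp (θ * Complex.I))) := by
        push_cast
        ring
      rw [dist_eq_norm, h1, norm_neg, norm_mul, hζ1, one_mul, carc_exp]
      ring
    ext z
    constructor
    · rintro ⟨hz, hz2⟩
      have hz1 : ‖z‖ = 1 := by simpa using hz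
      obtain ⟨θ, hθ, he⟩ := carc_polar (w := z / ζ) (by rw [norm_div, hz1, hζ1, div_one])
      have hz3 : ζ * Complex.exp (θ * Complex.I) = z := by
        rw [he]
        field_simp
      refine ⟨θ, ⟨hθ, ?_⟩, hz3⟩
      rw [← key θ, hz3]
      have h0 : dist z ζ ≤ ρ := hz2
      exact pow_le_pow_left₀ dist_nonneg h0 2
    · rintro ⟨θ, ⟨hθ, h2⟩, rfl⟩
      refine ⟨?_, ?_⟩
      · rw [mem_sphere_zero_iff_norm, norm_mul, hζ1, Complex.norm_exp_ofReal_mul_I, one_mul]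
      · rw [← key θ] at h2
        exact (pow_le_pow_iff_left₀ dist_nonneg hρ two_ne_zero).1 h2
  rw [h]
  refine IsPreconnected.image (carc_star (P := fun θ => |θ| ≤ Real.pi ∧
    2 - 2 * Real.cos θ ≤ ρ ^ 2) fun θ θ' ⟨h1, h2⟩ h3 => ⟨h3.trans h1, ?_⟩) _
    (by fun_prop)
  have := carc_cos h3 h1
  linarith

theorem carc_cutset {ζ : ℂ} (hζ : ζ ∈ UC) {r : ℝ} (hr : 0 < r) :
    OD ∩ sphere ζ r = (fun θ : ℝ => ζ * (1 - (r : ℂ) * Complex.exp (θ * Complex.I))) ''
      {θ | |θ| ≤ Real.pi ∧ r / 2 < Real.cos θ} := by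
  have hζ1 : ‖ζ‖ = 1 := by simpa using hζ
  have hζ0 : ζ ≠ 0 := by
    rintro rfl
    simp at hζ1
  have hr0 : (r : ℂ) ≠ 0 := by exact_mod_cast hr.ne'
  have key : ∀ θ : ℝ, ‖ζ * (1 - (r : ℂ) * Complex.exp (θ * Complex.I))‖ < 1 ↔
      r / 2 < Real.cos θ := by
    intro θ
    rw [norm_mul, hζ1, one_mul, ← pow_lt_one_iff_of_nonneg (norm_nonneg _) two_ne_zero, carc_exp]
    constructor
    · intro h
      have h1 : r * r < r * (2 * Real.cos θ) := by nlinarith
      have h2 := lt_of_mul_lt_mul_left h1 hr.le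
      linarith
    · intro h
      nlinarith
  ext z
  constructor
  · rintro ⟨hz, hz2⟩
    have hz1 : ‖z‖ < 1 := by simpa using hz
    have hz2' : ‖z - ζ‖ = r := by
      have : dist z ζ = r := hz2
      rwa [dist_eq_norm] at this
    obtain ⟨θ, hθ, he⟩ := carc_polar (w := (ζ - z) / (ζ * r)) (by
      rw [norm_div, norm_mul, hζ1, one_mul, norm_sub_rev, hz2', Complex.norm_real,
        Real.norm_of_nonneg hr.le, div_self hr.ne'])
    have hz3 : ζ * (1 - (r : ℂ) * Complex.exp (θ * Complex.I)) = z := by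
      rw [he]
      field_simp
      ring
    refine ⟨θ, ⟨hθ, ?_⟩, hz3⟩
    rw [← key θ, hz3]
    exact hz1
  · rintro ⟨θ, ⟨hθ, h2⟩, rfl⟩
    refine ⟨?_, ?_⟩
    · rw [mem_ball_zero_iff]
      exact (key θ).2 h2
    · have h1 : ζ * (1 - (r : ℂ) * Complex.exp (θ * Complex.I)) - ζ =
          -(ζ * (r * Complex.exp (θ * Complex.I))) := by ring
      rw [mem_sphere, dist_eq_norm, h1, norm_neg, norm_mul, norm_mul, hζ1,
        Complex.norm_exp_ofReal_mul_I, one_mul, mul_one, Complex.norm_real,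
        Real.norm_of_nonneg hr.le]

theorem carc_cut {ζ : ℂ} (hζ : ζ ∈ UC) {r : ℝ} (hr : 0 < r) : IsPreconnected (OD ∩ sphere ζ r) := by
  rw [carc_cutset hζ hr]
  refine IsPreconnected.image (carc_star (P := fun θ => |θ| ≤ Real.pi ∧ r / 2 < Real.cos θ)
    fun θ θ' ⟨h1, h2⟩ h3 => ⟨h3.trans h1, h2.trans_le (carc_cos h3 h1)⟩) _ (by fun_prop)

theorem carc_cball (c : ℂ) {R : ℝ} (hR : 0 ≤ R) : IsPreconnected (closedBall c R)ᶜ := by
  have h : (closedBall c R)ᶜ = (fun p : ℝ × ℝ => c + (p.1 : ℂ) * Complex.exp (p.2 * Complex.I)) ''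
      (Ioi R ×ˢ univ) := by
    ext z
    rw [mem_compl_iff, mem_closedBall, not_le, dist_eq_norm]
    constructor
    · intro hz
      refine ⟨(‖z - c‖, Complex.arg (z - c)), ⟨hz, mem_univ _⟩, ?_⟩
      simp only [Complex.norm_mul_exp_arg_mul_I]
      ring
    · rintro ⟨⟨t, θ⟩, ⟨ht, -⟩, rfl⟩
      have ht' : R < t := ht
      simp only [add_sub_cancel_left, norm_mul, Complex.norm_exp_ofReal_mul_I, mul_one,
        Complex.norm_real, Real.norm_of_nonneg (hR.trans ht'.le)]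
      exact ht'
  rw [h]
  exact (isPreconnected_Ioi.prod isPreconnected_univ).image _ (by fun_prop)

/-- Step 1: small sets in a Jordan curve lie in small connected subsets. -/
theorem carc_small {γ : ℂ → ℂ} (hγ : IsJordan γ) {η : ℝ} (hη : 0 < η) :
    ∃ δ > 0, ∀ E ⊆ γ '' UC, (∀ p ∈ E, ∀ q ∈ E, dist p q ≤ δ) →
      ∃ A ⊆ γ '' UC, IsCompact A ∧ IsPreconnected A ∧ E ⊆ A ∧ (E = ∅ → A = ∅) ∧
        ∀ p ∈ A, ∀ q ∈ A, dist p q ≤ η := by
  have hK : IsCompact UC := isCompact_sphere 0 1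
  obtain ⟨η', hη', huc⟩ := Metric.uniformContinuousOn_iff.1
    (hK.uniformContinuousOn_of_continuous hγ.1) η hη
  set ρ : ℝ := η' / 3 with hρ
  have hρ0 : 0 < ρ := by positivity
  have hδ : ∃ δ > 0, ∀ ζ ∈ UC, ∀ ζ' ∈ UC, dist (γ ζ) (γ ζ') ≤ δ → dist ζ ζ' ≤ ρ := by
    set C : Set (ℂ × ℂ) := (UC ×ˢ UC) ∩ {p | ρ ≤ dist p.1 p.2} with hC
    have hCc : IsCompact C := (hK.prod hK).inter_right
      (isClosed_le continuous_const (continuous_fst.dist continuous_snd))
    have hcont : ContinuousOn (fun p : ℂ × ℂ => dist (γ p.1) (γ p.2)) C := by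
      exact continuous_dist.comp_continuousOn
        ((hγ.1.comp continuousOn_fst fun p hp => hp.1.1).prodMk
          (hγ.1.comp continuousOn_snd fun p hp => hp.1.2))
    rcases C.eq_empty_or_nonempty with he | hne
    · refine ⟨1, one_pos, fun ζ hζ ζ' hζ' _ => ?_⟩
      by_contra hcon
      have : ((ζ, ζ') : ℂ × ℂ) ∈ C := ⟨⟨hζ, hζ'⟩, (not_le.1 hcon).le⟩
      rw [he] at this
      exact this
    · obtain ⟨p, hp, hmin⟩ := hCc.exists_isMinOn hne hcont
      have hpos : 0 < dist (γ p.1) (γ p.2) := by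
        rw [dist_pos]
        intro h
        have h1 := hγ.2 hp.1.1 hp.1.2 h
        have h2 : ρ ≤ dist p.1 p.2 := hp.2
        rw [h1, dist_self] at h2
        linarith
      refine ⟨dist (γ p.1) (γ p.2) / 2, by positivity, fun ζ hζ ζ' hζ' hd => ?_⟩
      by_contra hcon
      have h3 : ((ζ, ζ') : ℂ × ℂ) ∈ C := ⟨⟨hζ, hζ'⟩, (not_le.1 hcon).le⟩
      have h4 : dist (γ p.1) (γ p.2) ≤ dist (γ ζ) (γ ζ') := hmin h3
      linarith
  obtain ⟨δ, hδ0, hδ⟩ := hδ
  refine ⟨δ, hδ0, fun E hE hd => ?_⟩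
  rcases E.eq_empty_or_nonempty with he | ⟨e, heE⟩
  · exact ⟨∅, empty_subset _, isCompact_empty, isPreconnected_empty, by rw [he], fun _ => rfl,
      fun p hp => absurd hp (notMem_empty p)⟩
  · obtain ⟨ζ, hζ, rfl⟩ := hE heE
    refine ⟨γ '' (UC ∩ closedBall ζ ρ), image_mono inter_subset_left,
      (hK.inter_right isClosed_closedBall).image_of_continuousOn (hγ.1.mono inter_subset_left),
      (carc_arc hζ hρ0.le).image _ (hγ.1.mono inter_subset_left), ?_, ?_, ?_⟩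
    · intro p hp
      obtain ⟨ζ', hζ', rfl⟩ := hE hp
      exact ⟨ζ', ⟨hζ', hδ _ hζ' _ hζ (hd _ hp _ heE)⟩, rfl⟩
    · intro h
      rw [h] at heE
      exact absurd heE (notMem_empty _)
    · rintro _ ⟨a, ⟨ha, ha2⟩, rfl⟩ _ ⟨b, ⟨hb, hb2⟩, rfl⟩
      refine (huc a ha b hb ?_).le
      have h1 : dist a ζ ≤ ρ := ha2
      have h2 : dist b ζ ≤ ρ := hb2
      have h3 := dist_triangle_right a b ζ
      have : ρ = η' / 3 := hρ
      linarith

theorem carc_closure {S : Set ℂ} {δ : ℝ} (h : ∀ p ∈ S, ∀ q ∈ S, dist p q ≤ δ) :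
    ∀ p ∈ closure S, ∀ q ∈ closure S, dist p q ≤ δ := by
  have h1 : ∀ p ∈ S, ∀ q ∈ closure S, dist p q ≤ δ := fun p hp q hq => by
    have h2 : closure S ⊆ closedBall p δ := closure_minimal (fun q hq => by
      rw [mem_closedBall, dist_comm]
      exact h p hp q hq) isClosed_closedBall
    have := h2 hq
    rwa [mem_closedBall, dist_comm] at this
  intro p hp q hq
  have h2 : closure S ⊆ closedBall q δ := closure_minimal (fun p hp => h1 p hp q hq)
    isClosed_closedBall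
  exact h2 hp

theorem thm_CARC (hJAN : St_JAN) (hJSEP : St_JSEP) : St_CARC := by
  intro γ hγ x hx hb f hfd hfi hfV
  set J : Set ℂ := γ '' UC with hJ
  set V : Set ℂ := connectedComponentIn Jᶜ x with hV
  have hJc : IsCompact J := (isCompact_sphere (0 : ℂ) 1).image_of_continuousOn hγ.1
  have hVo : IsOpen V := hJc.isClosed.isOpen_compl.connectedComponentIn
  have hVJ : V ⊆ Jᶜ := connectedComponentIn_subset _ _
  have hfront : frontier V = J := (hJSEP γ hγ).2.1 x hx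
  have hVpre : IsPreconnected V := isPreconnected_connectedComponentIn
  obtain ⟨-, -, g, hgd, hgf⟩ := CT.h6 (ball 0 1) isOpen_ball f hfd hfi
  have hgc : ContinuousOn g V := by
    rw [← hfV]
    exact hgd.continuousOn
  have hfc : ContinuousOn f OD := hfd.continuousOn
  have hfm : ∀ z ∈ OD, f z ∈ V := fun z hz => by
    rw [← hfV]
    exact ⟨z, hz, rfl⟩
  have hgm : ∀ p ∈ V, g p ∈ OD ∧ f (g p) = p := fun p hp => by
    rw [← hfV] at hp
    obtain ⟨z, hz, rfl⟩ := hp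
    rw [hgf z hz]
    exact ⟨hz, rfl⟩
  have h0 : (0 : ℂ) ∈ OD := mem_ball_self one_pos
  -- a ball about `f 0`
  obtain ⟨d0, hd0, hd0'⟩ : ∃ d0 > 0, ∀ z ∈ OD, 1 / 2 ≤ ‖z‖ → d0 ≤ dist (f z) (f 0) := by
    have hsub : ball (0 : ℂ) (1 / 2) ⊆ ball 0 1 := ball_subset_ball (by norm_num)
    obtain ⟨ho, -, -⟩ := CT.h6 (ball 0 (1 / 2)) isOpen_ball f (hfd.mono hsub) (hfi.mono hsub)
    obtain ⟨d0, hd0, hd1⟩ := Metric.isOpen_iff.1 ho (f 0)
      (mem_image_of_mem f (mem_ball_self (by norm_num)))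
    refine ⟨d0, hd0, fun z hz hz2 => ?_⟩
    by_contra hcon
    obtain ⟨w, hw, hwz⟩ := hd1 (mem_ball.2 (not_le.1 hcon))
    have := hfi (hsub hw) hz hwz
    rw [this, mem_ball_zero_iff] at hw
    linarith
  -- the main estimate
  have main : ∀ ζ ∈ UC, ∀ ε > 0, ∃ r > 0, ∀ z ∈ OD ∩ ball ζ r, ∀ w ∈ OD ∩ ball ζ r,
      dist (f z) (f w) < ε := by
    intro ζ hζ ε hε
    have hζ1 : ‖ζ‖ = 1 := by simpa using hζ
    set η : ℝ := min (ε / 8) (d0 / 4) with hη
    have hη0 : 0 < η := by positivity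
    have hη1 : η ≤ ε / 8 := min_le_left _ _
    have hη2 : η ≤ d0 / 4 := min_le_right _ _
    obtain ⟨δ₁, hδ₁, hsm⟩ := carc_small hγ hη0
    set δ : ℝ := min δ₁ η with hδ
    have hδ0 : 0 < δ := by positivity
    have hδa : δ ≤ δ₁ := min_le_left _ _
    have hδb : δ ≤ η := min_le_right _ _
    obtain ⟨r, hr0, hr1, hr2⟩ := CT.h10 f hfd hfi (by rw [hfV]; exact hb) ζ hζ1 δ hδ0 (1 / 2)
      (by norm_num)
    set C : Set ℂ := OD ∩ sphere ζ r with hC
    have hCpre : IsPreconnected C := carc_cut hζ hr0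
    have hCOD : C ⊆ OD := inter_subset_left
    have hCd : ∀ p ∈ f '' C, ∀ q ∈ f '' C, dist p q ≤ δ := by
      rintro _ ⟨z, ⟨hz, hz2⟩, rfl⟩ _ ⟨w, ⟨hw, hw2⟩, rfl⟩
      exact hr2 z hz w hw hz2 hw2
    set Γ₀ : Set ℂ := closure (f '' C) with hΓ₀
    have hΓ₀b : Bornology.IsBounded (f '' C) := hb.subset (by
      rintro _ ⟨z, hz, rfl⟩
      exact hfm z (hCOD hz))
    have hΓ₀c : IsCompact Γ₀ := hΓ₀b.isCompact_closure
    have hΓ₀pre : IsPreconnected Γ₀ := (hCpre.image f (hfc.mono hCOD)).closure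
    have hΓ₀d : ∀ p ∈ Γ₀, ∀ q ∈ Γ₀, dist p q ≤ δ := carc_closure hCd
    have hΓ₀V : ∀ z ∈ OD, f z ∈ Γ₀ → dist z ζ = r := by
      intro z hz hz2
      have h1 : ContinuousAt g (f z) := hgc.continuousAt (hVo.mem_nhds (hfm z hz))
      have h2 := mem_closure_image h1 hz2
      have h3 : g '' (f '' C) ⊆ sphere ζ r := by
        rintro _ ⟨_, ⟨w, hw, rfl⟩, rfl⟩
        rw [hgf w (hCOD hw)]
        exact hw.2
      have h4 := closure_minimal h3 isClosed_sphere h2
      rw [hgf z hz] at h4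
      exact h4
    -- a point of the cross cut
    set z₀ : ℂ := ζ * (1 - r) with hz₀
    have hz₀C : z₀ ∈ C := by
      rw [hC, carc_cutset hζ hr0]
      refine ⟨0, ⟨by simpa using Real.pi_pos.le, ?_⟩, ?_⟩
      · rw [Real.cos_zero]
        linarith
      · simp [hz₀]
    set a : ℂ := f z₀ with ha
    have haΓ : a ∈ Γ₀ := subset_closure ⟨z₀, hz₀C, rfl⟩
    have hz₀n : 1 / 2 ≤ ‖z₀‖ := by
      have h1 : ‖ζ‖ ≤ ‖z₀‖ + ‖ζ - z₀‖ := by
        calc ‖ζ‖ = ‖z₀ + (ζ - z₀)‖ := by ring_nf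
          _ ≤ _ := norm_add_le _ _
      have h2 : ‖ζ - z₀‖ = r := by
        rw [← dist_eq_norm, dist_comm]
        exact hz₀C.2
      rw [hζ1, h2] at h1
      linarith
    have had : d0 ≤ dist a (f 0) := hd0' z₀ (hCOD hz₀C) hz₀n
    obtain ⟨A, hAJ, hAc, hApre, hEA, hE0, hAd⟩ := hsm (Γ₀ ∩ J) inter_subset_right
      fun p hp q hq => (hΓ₀d p hp.1 q hq.1).trans hδa
    set Γ : Set ℂ := Γ₀ ∪ A with hΓ
    have hΓc : IsCompact Γ := hΓ₀c.union hAc
    set R : ℝ := δ + η with hR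
    have hR0 : 0 ≤ R := by positivity
    have hΓB : Γ ⊆ closedBall a R := by
      rintro p (hp | hp)
      · have := hΓ₀d p hp a haΓ
        rw [mem_closedBall]
        linarith
      · rcases (Γ₀ ∩ J).eq_empty_or_nonempty with he | ⟨e, he⟩
        · rw [hE0 he] at hp
          exact absurd hp (notMem_empty p)
        · have h1 := hAd p hp e (hEA he)
          have h2 := hΓ₀d e he.1 a haΓ
          have h3 := dist_triangle p e a
          rw [mem_closedBall]
          linarith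
    have hJΓ : IsPreconnected (J ∩ Γ) := by
      have : J ∩ Γ = A := by
        ext p
        constructor
        · rintro ⟨hp, hp2 | hp2⟩
          · exact hEA ⟨hp2, hp⟩
          · exact hp2
        · intro hp
          exact ⟨hAJ hp, Or.inr hp⟩
      rw [this]
      exact hApre
    have claim : ∀ z₁ ∈ OD ∩ ball ζ r, f z₁ ∈ closedBall a R := by
      rintro z₁ ⟨hz₁, hz₁r⟩
      by_contra hcon
      have hy : f 0 ∉ closedBall a R := by
        rw [mem_closedBall, dist_comm, not_le]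
        have hη2' := hη2
        linarith
      have hxJ : f z₁ ∉ J := hVJ (hfm z₁ hz₁)
      have hyJ : f 0 ∉ J := hVJ (hfm 0 h0)
      have hVeq : connectedComponentIn Jᶜ (f 0) = V := (connectedComponentIn_eq (hfm 0 h0)).symm
      have h1 : f z₁ ∈ connectedComponentIn Jᶜ (f 0) := by
        rw [hVeq]
        exact hfm z₁ hz₁
      have h2 : f z₁ ∈ connectedComponentIn Γᶜ (f 0) :=
        (carc_cball a hR0).subset_connectedComponentIn hy (compl_subset_compl.2 hΓB) hcon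
      have h3 := hJAN.1 J Γ hJc hΓc hJΓ (f 0) (f z₁)
        (fun h => h.elim hyJ fun h => hy (hΓB h)) (fun h => h.elim hxJ fun h => hcon (hΓB h)) h1 h2
      set U : Set ℂ := connectedComponentIn (J ∪ Γ)ᶜ (f 0) with hU
      have hUsub : U ⊆ (J ∪ Γ)ᶜ := connectedComponentIn_subset _ _
      have hUpre : IsPreconnected U := isPreconnected_connectedComponentIn
      have hUf0 : f 0 ∈ U := mem_connectedComponentIn fun h =>
        h.elim hyJ fun h => hy (hΓB h)
      have hUV : U ⊆ V := by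
        rw [← hVeq]
        exact hUpre.subset_connectedComponentIn hUf0 fun p hp h => hUsub hp (Or.inl h)
      have hgU : IsPreconnected (g '' U) := hUpre.image g (hgc.mono hUV)
      have hz₁U : z₁ ∈ g '' U := ⟨f z₁, h3, hgf z₁ hz₁⟩
      have h0U : (0 : ℂ) ∈ g '' U := ⟨f 0, hUf0, hgf 0 h0⟩
      have h4 := hgU.intermediate_value hz₁U h0U (f := fun z => dist z ζ)
        (by fun_prop)
      have h5 : r ∈ Icc (dist z₁ ζ) (dist (0 : ℂ) ζ) := by
        refine ⟨(mem_ball.1 hz₁r).le, ?_⟩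
        rw [dist_zero_left, hζ1]
        linarith
      obtain ⟨_, ⟨p, hp, rfl⟩, hpr⟩ := h4 h5
      have hpV := hgm p (hUV hp)
      have h6 : p ∈ Γ₀ := subset_closure ⟨g p, ⟨hpV.1, hpr⟩, hpV.2⟩
      exact hUsub hp (Or.inr (Or.inl h6))
    refine ⟨r, hr0, fun z hz w hw => ?_⟩
    have h1 := claim z hz
    have h2 := claim w hw
    rw [mem_closedBall] at h1 h2
    have h3 := dist_triangle_right (f z) (f w) a
    linarith
  -- the extension
  have hcl : CD ⊆ closure OD := by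
    rw [closure_ball (0 : ℂ) one_ne_zero]
  have hlim : ∀ z ∈ CD, ∃ y, Tendsto f (𝓝[OD] z) (𝓝 y) := by
    intro z hz
    by_cases hzO : z ∈ OD
    · exact ⟨f z, hfc z hzO⟩
    · have hzU : z ∈ UC := by
        rw [mem_sphere_zero_iff_norm]
        rw [mem_closedBall_zero_iff] at hz
        rw [mem_ball_zero_iff, not_lt] at hzO
        exact le_antisymm hz hzO
      have : (𝓝[OD] z).NeBot := mem_closure_iff_nhdsWithin_neBot.1 (hcl hz)
      rw [← cauchy_map_iff_exists_tendsto, Metric.cauchy_iff]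
      refine ⟨inferInstance, fun ε hε => ?_⟩
      obtain ⟨r, hr, h⟩ := main z hzU ε hε
      refine ⟨f '' (OD ∩ ball z r), image_mem_map (inter_mem self_mem_nhdsWithin
        (mem_nhdsWithin_of_mem_nhds (ball_mem_nhds z hr))), ?_⟩
      rintro _ ⟨p, hp, rfl⟩ _ ⟨q, hq, rfl⟩
      exact h p hp q hq
  have hFc : ContinuousOn (extendFrom OD f) CD := continuousOn_extendFrom hcl hlim
  have hFe : EqOn (extendFrom OD f) f OD := fun z hz =>
    extendFrom_eq (subset_closure hz) (hfc z hz)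
  refine ⟨extendFrom OD f, hFc, hFe, ?_⟩
  have hFU : ∀ ζ ∈ UC, extendFrom OD f ζ ∈ J := by
    intro ζ hζ
    have hζC : ζ ∈ CD := sphere_subset_closedBall hζ
    have hζ1 : ‖ζ‖ = 1 := by simpa using hζ
    obtain ⟨y, hy⟩ := hlim ζ hζC
    have hFy : extendFrom OD f ζ = y := extendFrom_eq (hcl hζC) hy
    rw [hFy]
    have : (𝓝[OD] ζ).NeBot := mem_closure_iff_nhdsWithin_neBot.1 (hcl hζC)
    have h1 : y ∈ closure V := mem_closure_of_tendsto hy
      (Filter.mem_of_superset self_mem_nhdsWithin fun z hz => hfm z hz)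
    have h2 : y ∉ V := by
      intro hyV
      have h3 : Tendsto (fun z => g (f z)) (𝓝[OD] ζ) (𝓝 (g y)) :=
        (hgc.continuousAt (hVo.mem_nhds hyV)).tendsto.comp hy
      have h4 : Tendsto (fun z : ℂ => z) (𝓝[OD] ζ) (𝓝 (g y)) := h3.congr' (by
        filter_upwards [self_mem_nhdsWithin] with z hz
        exact hgf z hz)
      have h5 : Tendsto (fun z : ℂ => z) (𝓝[OD] ζ) (𝓝 ζ) := nhdsWithin_le_nhds
      have h6 := tendsto_nhds_unique h4 h5
      have h7 := (hgm y hyV).1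
      rw [h6, mem_ball_zero_iff, hζ1] at h7
      exact lt_irrefl _ h7
    rw [← hfront, hVo.frontier_eq]
    exact ⟨h1, h2⟩
  refine Subset.antisymm ?_ ?_
  · rintro _ ⟨ζ, hζ, rfl⟩
    exact hFU ζ hζ
  · intro p hp
    have h1 : IsCompact (extendFrom OD f '' CD) :=
      (isCompact_closedBall (0 : ℂ) 1).image_of_continuousOn hFc
    have h2 : V ⊆ extendFrom OD f '' CD := by
      intro q hq
      rw [← hfV] at hq
      obtain ⟨z, hz, rfl⟩ := hq
      exact ⟨z, ball_subset_closedBall hz, hFe hz⟩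
    have h3 : closure V ⊆ extendFrom OD f '' CD := closure_minimal h2 h1.isClosed
    have h4 : p ∈ closure V := by
      rw [← hfront] at hp
      exact frontier_subset_closure hp
    obtain ⟨z, hz, rfl⟩ := h3 h4
    refine ⟨z, ?_, rfl⟩
    by_contra hzU
    have hzO : z ∈ OD := by
      rw [mem_ball_zero_iff]
      rw [mem_closedBall_zero_iff] at hz
      rw [mem_sphere_zero_iff_norm] at hzU
      exact lt_of_le_of_ne hz hzU
    rw [hFe hzO] at hp
    exact hVJ (hfm z hzO) hp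

end Pool.Agent.SRF
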