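import Pool.Agent.SRF.StA
import Pool.Agent.CT.H6
import Pool.Agent.CT.H12

set_option autoImplicit false

/-! # SRF, CARI: Caratheodory for Jordan domains, injectivity on the circle (helper53) -/

open Set Metric Filter Topology

namespace Pool.Agent.SRF

theorem cari_cexpi_norm (t : ℝ) : ‖cexpi t‖ = 1 := Complex.norm_exp_ofReal_mul_I t

theorem cari_cexpi_mem (t : ℝ) : cexpi t ∈ UC := by
  rw [mem_sphere_zero_iff_norm, cari_cexpi_norm]

theorem cari_cexpi_cont : Continuous cexpi := by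
  unfold cexpi
  fun_prop

theorem cari_cexpi_per (t : ℝ) (n : ℤ) : cexpi (t + n * (2 * Real.pi)) = cexpi t := by
  unfold cexpi
  push_cast
  rw [show ((t : ℂ) + n * (2 * Real.pi)) * Complex.I = t * Complex.I +
    n * (2 * Real.pi * Complex.I) by ring, Complex.exp_add, Complex.exp_int_mul_two_pi_mul_I,
    mul_one]

theorem cari_cexpi_inj {x y : ℝ} (h : cexpi x = cexpi y) : ∃ n : ℤ, x = y + n * (2 * Real.pi) := by
  unfold cexpi at h
  obtain ⟨n, hn⟩ := Complex.exp_eq_exp_iff_exists_int.1 h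
  refine ⟨n, ?_⟩
  have := congrArg Complex.im hn
  simpa using this

theorem cari_cexpi_inj' {x y : ℝ} (h : cexpi x = cexpi y) (h1 : x < y + 2 * Real.pi)
    (h2 : y < x + 2 * Real.pi) : x = y := by
  obtain ⟨n, hn⟩ := cari_cexpi_inj h
  have hpi := Real.two_pi_pos
  have h3 : n = 0 := by
    have h4 : (n : ℝ) < 1 := by
      by_contra hc
      push Not at hc
      nlinarith
    have h5 : (-1 : ℝ) < n := by
      by_contra hc
      push Not at hc
      nlinarith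
    have h6 : n < 1 := by exact_mod_cast h4
    have h7 : -1 < n := by exact_mod_cast h5
    omega
  rw [h3] at hn
  simpa using hn

theorem cari_polar (t : ℝ) (z : ℂ) :
    ∃ φ ∈ Ico t (t + 2 * Real.pi), z = (‖z‖ : ℂ) * cexpi φ := by
  refine ⟨toIcoMod Real.two_pi_pos t z.arg, toIcoMod_mem_Ico _ _ _, ?_⟩
  have h1 : cexpi (toIcoMod Real.two_pi_pos t z.arg) = cexpi z.arg := by
    have h2 := cari_cexpi_per (toIcoMod Real.two_pi_pos t z.arg) (toIcoDiv Real.two_pi_pos t z.arg)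
    rw [← h2]
    congr 1
    have h3 := toIcoMod_add_toIcoDiv_zsmul Real.two_pi_pos t z.arg
    rw [zsmul_eq_mul] at h3
    exact h3
  rw [h1]
  exact (Complex.norm_mul_exp_arg_mul_I z).symm

/-- the circle without a point is connected -/
theorem cari_UC_diff (z : ℂ) : IsPreconnected (UC \ {z}) := by
  by_cases hz : z ∈ UC
  · obtain ⟨φ, -, hφ⟩ := cari_polar 0 z
    rw [mem_sphere_zero_iff_norm] at hz
    rw [hz] at hφ
    simp only [Complex.ofReal_one, one_mul] at hφ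
    have h : UC \ {z} = cexpi '' Ioo φ (φ + 2 * Real.pi) := by
      ext w
      constructor
      · rintro ⟨hw, hwz⟩
        obtain ⟨ψ, hψ, hwψ⟩ := cari_polar φ w
        rw [mem_sphere_zero_iff_norm] at hw
        rw [hw] at hwψ
        simp only [Complex.ofReal_one, one_mul] at hwψ
        refine ⟨ψ, ⟨lt_of_le_of_ne hψ.1 ?_, hψ.2⟩, hwψ.symm⟩
        rintro rfl
        exact hwz (by rw [mem_singleton_iff, hwψ, hφ])
      · rintro ⟨ψ, hψ, rfl⟩
        refine ⟨cari_cexpi_mem ψ, ?_⟩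
        intro h
        rw [mem_singleton_iff, hφ] at h
        have := cari_cexpi_inj' h (by linarith [hψ.2]) (by linarith [hψ.1, Real.two_pi_pos])
        exact absurd this (ne_of_gt hψ.1)
    rw [h]
    exact isPreconnected_Ioo.image _ cari_cexpi_cont.continuousOn
  · rw [sdiff_singleton_eq_self hz]
    exact (isPreconnected_sphere (by simp [Complex.rank_real_complex]) 0 1)

/-- open sector of the open disc -/
def cariS (a b : ℝ) : Set ℂ := (fun p : ℝ × ℝ => (p.1 : ℂ) * cexpi p.2) '' (Ioo 0 1 ×ˢ Ioo a b)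

theorem cariS_pre (a b : ℝ) : IsPreconnected (cariS a b) := by
  refine IsPreconnected.image ((convex_Ioo 0 1).prod (convex_Ioo a b)).isPreconnected _ ?_
  have := cari_cexpi_cont
  fun_prop

theorem cariS_sub (a b : ℝ) : cariS a b ⊆ OD := by
  rintro _ ⟨⟨r, t⟩, ⟨hr, ht⟩, rfl⟩
  rw [mem_ball_zero_iff]
  simp only [norm_mul, cari_cexpi_norm, mul_one, Complex.norm_real, Real.norm_eq_abs]
  rw [abs_of_pos hr.1]
  exact hr.2

theorem cariS_cl (a b : ℝ) (t : ℝ) (ht : t ∈ Ioo a b) : cexpi t ∈ closure (cariS a b) := by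
  have h1 : Tendsto (fun r : ℝ => (r : ℂ) * cexpi t) (𝓝[<] 1) (𝓝 (cexpi t)) := by
    have h2 : Continuous fun r : ℝ => (r : ℂ) * cexpi t := by fun_prop
    have h3 := h2.tendsto 1
    simp only [Complex.ofReal_one, one_mul] at h3
    exact h3.mono_left nhdsWithin_le_nhds
  refine mem_closure_of_tendsto h1 ?_
  filter_upwards [Ioo_mem_nhdsLT (zero_lt_one : (0 : ℝ) < 1)] with r hr
  exact ⟨(r, t), ⟨hr, ht⟩, rfl⟩

/-- the closed radius -/
def cariR (t : ℝ) : Set ℂ := (fun r : ℝ => (r : ℂ) * cexpi t) '' Icc 0 1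

theorem cari_cover (t₁ t₂ : ℝ) (z : ℂ) (hz : z ∈ OD) :
    z ∈ cariR t₁ ∨ z ∈ cariR t₂ ∨ z ∈ cariS t₁ t₂ ∨ z ∈ cariS t₂ (t₁ + 2 * Real.pi) := by
  obtain ⟨φ, hφ, he⟩ := cari_polar t₁ z
  rw [mem_ball_zero_iff] at hz
  have hR : ∀ t, φ = t → z ∈ cariR t := by
    intro t ht
    exact ⟨‖z‖, ⟨norm_nonneg z, hz.le⟩, by rw [← ht]; exact he.symm⟩
  have hS : ∀ a b, φ ∈ Ioo a b → z ≠ 0 → z ∈ cariS a b := by
    intro a b hab h0
    exact ⟨(‖z‖, φ), ⟨⟨norm_pos_iff.2 h0, hz⟩, hab⟩, he.symm⟩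
  by_cases h0 : z = 0
  · left
    exact ⟨0, ⟨le_rfl, zero_le_one⟩, by simp [h0]⟩
  rcases eq_or_lt_of_le hφ.1 with h3 | h3
  · exact Or.inl (hR _ h3.symm)
  rcases lt_trichotomy φ t₂ with h4 | h4 | h4
  · exact Or.inr (Or.inr (Or.inl (hS _ _ ⟨h3, h4⟩ h0)))
  · exact Or.inr (Or.inl (hR _ h4))
  · exact Or.inr (Or.inr (Or.inr (hS _ _ ⟨h4, hφ.2⟩ h0)))

/-- the parameter of the closed curve of two radii -/
theorem cari_re {w : ℂ} (hw : w ∈ UC) : (1 + w.re) / 2 ∈ Icc (0 : ℝ) 1 := by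
  rw [mem_sphere_zero_iff_norm] at hw
  have h1 := Complex.abs_re_le_norm w
  rw [hw, abs_le] at h1
  constructor
  · linarith [h1.1]
  · linarith [h1.2]

theorem cari_circ {w : ℂ} (hw : w ∈ UC) : w.re * w.re + w.im * w.im = 1 := by
  rw [mem_sphere_zero_iff_norm] at hw
  have h := Complex.normSq_apply w
  rw [Complex.normSq_eq_norm_sq, hw] at h
  linarith

theorem cari_eq1 {w : ℂ} (hw : w ∈ UC) (h : w.re = 1) : w = 1 := by
  have h1 := cari_circ hw
  have h2 : w.im = 0 := by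
    rw [h] at h1
    have : w.im * w.im = 0 := by linarith
    exact mul_self_eq_zero.1 this
  exact Complex.ext (by simp [h]) (by simp [h2])

theorem cari_eqm1 {w : ℂ} (hw : w ∈ UC) (h : w.re = -1) : w = -1 := by
  have h1 := cari_circ hw
  have h2 : w.im = 0 := by
    rw [h] at h1
    have : w.im * w.im = 0 := by linarith
    exact mul_self_eq_zero.1 this
  exact Complex.ext (by simp [h]) (by simp [h2])

theorem cari_im {w w' : ℂ} (hw : w ∈ UC) (hw' : w' ∈ UC) (h : w.re = w'.re)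
    (h1 : 0 ≤ w.im ↔ 0 ≤ w'.im) : w = w' := by
  have h2 := cari_circ hw
  have h3 := cari_circ hw'
  refine Complex.ext h ?_
  rw [h] at h2
  have h4 : (w.im - w'.im) * (w.im + w'.im) = 0 := by ring_nf; ring_nf at h2 h3; linarith
  rcases mul_eq_zero.1 h4 with h5 | h5
  · linarith
  · by_cases h6 : 0 ≤ w.im
    · have h7 := h1.1 h6
      linarith
    · have h7 : ¬ 0 ≤ w'.im := fun h => h6 (h1.2 h)
      push Not at h6 h7
      linarith

theorem cari_key (hJ : St_JSEP) (γ : ℂ → ℂ) (hγ : IsJordan γ) (F : ℂ → ℂ)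
    (hc : ContinuousOn F CD) (hd : DifferentiableOn ℂ F OD) (hinj : InjOn F OD)
    (hdis : Disjoint (F '' OD) (γ '' UC)) (himg : F '' UC = γ '' UC) (t₁ t₂ : ℝ) (h1 : t₁ < t₂)
    (h2 : t₂ < t₁ + 2 * Real.pi) (he : F (cexpi t₁) = F (cexpi t₂)) : False := by
  have hpi := Real.two_pi_pos
  obtain ⟨a, ha⟩ : ∃ a, a = F (cexpi t₁) := ⟨_, rfl⟩
  have haJ : a ∈ γ '' UC := by
    rw [← himg, ha]
    exact ⟨_, cari_cexpi_mem t₁, rfl⟩
  have hVo : IsOpen (F '' OD) := (CT.h6 OD isOpen_ball F hd hinj).1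
  have hVJ : ∀ z ∈ OD, F z ∉ γ '' UC := fun z hz h => disjoint_left.1 hdis ⟨z, hz, rfl⟩ h
  have hTa : ∀ t, t = t₁ ∨ t = t₂ → F (cexpi t) = a := by
    rintro t (rfl | rfl)
    · exact ha.symm
    · rw [ha, he]
  have hnorm : ∀ (r t : ℝ), 0 ≤ r → ‖(r : ℂ) * cexpi t‖ = r := by
    intro r t hr
    rw [norm_mul, cari_cexpi_norm, mul_one, Complex.norm_real, Real.norm_eq_abs, abs_of_nonneg hr]
  have hOD : ∀ (r t : ℝ), 0 ≤ r → r < 1 → (r : ℂ) * cexpi t ∈ OD := by
    intro r t hr hr1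
    rw [mem_ball_zero_iff, hnorm r t hr]
    exact hr1
  have hcmp : ∀ t, t = t₁ ∨ t = t₂ → ∀ t', t' = t₁ ∨ t' = t₂ → t < t' + 2 * Real.pi := by
    rintro t (rfl | rfl) t' (rfl | rfl) <;> linarith
  -- values below one are in the open set
  have hr1 : ∀ (r : ℝ), r ∈ Icc (0 : ℝ) 1 → ∀ t, t = t₁ ∨ t = t₂ →
      F ((r : ℂ) * cexpi t) ∉ γ '' UC → r < 1 := by
    intro r hr t ht h
    refine lt_of_le_of_ne hr.2 ?_
    rintro rfl
    apply h
    rw [Complex.ofReal_one, one_mul, hTa t ht]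
    exact haJ
  have hval : ∀ t, t = t₁ ∨ t = t₂ → ∀ t', t' = t₁ ∨ t' = t₂ → ∀ r ∈ Icc (0 : ℝ) 1,
      ∀ r' ∈ Icc (0 : ℝ) 1, F ((r : ℂ) * cexpi t) = F ((r' : ℂ) * cexpi t') →
      r = r' ∧ (r = 0 ∨ r = 1 ∨ t = t') := by
    intro t ht t' ht' r hr r' hr' h
    rcases eq_or_lt_of_le hr.2 with h3 | h3
    · -- r = 1
      have h4 : ¬ r' < 1 := by
        intro h5
        apply hVJ _ (hOD r' t' hr'.1 h5)
        rw [← h, h3, Complex.ofReal_one, one_mul, hTa t ht]
        exact haJ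
      push Not at h4
      exact ⟨by rw [h3]; exact le_antisymm h4 hr'.2, Or.inr (Or.inl h3)⟩
    · have h4 : F ((r' : ℂ) * cexpi t') ∉ γ '' UC := by
        rw [← h]
        exact hVJ _ (hOD r t hr.1 h3)
      have h5 := hr1 r' hr' t' ht' h4
      have h6 := hinj (hOD r t hr.1 h3) (hOD r' t' hr'.1 h5) h
      have h7 : r = r' := by
        have := congrArg norm h6
        rwa [hnorm r t hr.1, hnorm r' t' hr'.1] at this
      refine ⟨h7, ?_⟩
      by_cases h0 : r = 0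
      · exact Or.inl h0
      · right; right
        rw [← h7] at h6
        have h8 : (r : ℂ) ≠ 0 := by exact_mod_cast h0
        exact cari_cexpi_inj' (mul_left_cancel₀ h8 h6) (hcmp t ht t' ht') (hcmp t' ht' t ht)
  -- the curve
  obtain ⟨τ, hτ⟩ : ∃ τ : ℂ → ℝ, ∀ w, τ w = if 0 ≤ w.im then t₁ else t₂ := ⟨_, fun _ => rfl⟩
  have hτm : ∀ w, τ w = t₁ ∨ τ w = t₂ := by
    intro w
    rw [hτ]
    split_ifs
    · exact Or.inl rfl
    · exact Or.inr rfl
  have hτe : ∀ w w', τ w = τ w' → (0 ≤ w.im ↔ 0 ≤ w'.im) := by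
    intro w w' h
    rw [hτ, hτ] at h
    split_ifs at h with h3 h4 h4
    · exact ⟨fun _ => h4, fun _ => h3⟩
    · exact absurd h (ne_of_lt h1)
    · exact absurd h (ne_of_gt h1)
    · exact ⟨fun h => absurd h h3, fun h => absurd h h4⟩
  obtain ⟨c, hcd⟩ : ∃ c : ℂ → ℂ, ∀ w, c w = F ((((1 + w.re) / 2 : ℝ) : ℂ) * cexpi (τ w)) :=
    ⟨_, fun _ => rfl⟩
  have hcinj : InjOn c UC := by
    intro w hw w' hw' h
    rw [hcd, hcd] at h
    obtain ⟨h3, h4⟩ := hval _ (hτm w) _ (hτm w') _ (cari_re hw) _ (cari_re hw') h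
    have h5 : w.re = w'.re := by linarith
    rcases h4 with h4 | h4 | h4
    · have h6 : w.re = -1 := by linarith
      rw [cari_eqm1 hw h6, cari_eqm1 hw' (h5 ▸ h6)]
    · have h6 : w.re = 1 := by linarith
      rw [cari_eq1 hw h6, cari_eq1 hw' (h5 ▸ h6)]
    · exact cari_im hw hw' h5 (hτe w w' h4)
  have hG : ∀ t : ℝ, ContinuousOn (fun w : ℂ => F ((((1 + w.re) / 2 : ℝ) : ℂ) * cexpi t)) UC := by
    intro t
    refine hc.comp ?_ ?_
    · fun_prop
    · intro w hw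
      rw [mem_closedBall_zero_iff, hnorm _ t (cari_re hw).1]
      exact (cari_re hw).2
  have hcc : ContinuousOn c UC := by
    have h3 : UC = (UC ∩ {w | 0 ≤ w.im}) ∪ (UC ∩ {w | w.im ≤ 0}) := by
      rw [← inter_union_distrib_left]
      refine (inter_eq_left.2 fun w _ => ?_).symm
      exact le_total 0 w.im
    rw [h3]
    refine ContinuousOn.union_of_isClosed ?_ ?_
      (isClosed_sphere.inter (isClosed_le continuous_const Complex.continuous_im))
      (isClosed_sphere.inter (isClosed_le Complex.continuous_im continuous_const))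
    · refine ((hG t₁).mono inter_subset_left).congr ?_
      rintro w ⟨-, hw⟩
      have hw' : 0 ≤ w.im := hw
      rw [hcd, hτ, if_pos hw']
    · refine ((hG t₂).mono inter_subset_left).congr ?_
      rintro w ⟨hw1, hw⟩
      rw [hcd, hτ]
      split_ifs with h4
      · have h5 : w.im = 0 := le_antisymm hw h4
        have h6 := cari_circ hw1
        rw [h5] at h6
        have h7 : (w.re - 1) * (w.re + 1) = 0 := by linarith
        rcases mul_eq_zero.1 h7 with h8 | h8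
        · have h9 : (1 + w.re) / 2 = 1 := by linarith
          simp only [h9, Complex.ofReal_one, one_mul]
          exact he
        · have h9 : (1 + w.re) / 2 = 0 := by linarith
          simp only [h9, Complex.ofReal_zero, zero_mul]
      · rfl
  have hcJ : IsJordan c := ⟨hcc, hcinj⟩
  obtain ⟨C, hC⟩ : ∃ C, C = c '' UC := ⟨_, rfl⟩
  have hC0 : F 0 ∈ C := by
    rw [hC]
    refine ⟨-1, by simp, ?_⟩
    rw [hcd]
    simp
  have hC1 : ∀ t, t = t₁ ∨ t = t₂ → ∀ r : ℝ, 0 ≤ r → r < 1 → F ((r : ℂ) * cexpi t) ∈ C := by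
    intro t ht r hr0 hr
    rcases eq_or_lt_of_le hr0 with h3 | h3
    · rw [← h3]
      simpa using hC0
    have h4 : 0 < 1 - (2 * r - 1) ^ 2 := by nlinarith
    have h5 : 0 < Real.sqrt (1 - (2 * r - 1) ^ 2) := Real.sqrt_pos.2 h4
    have h6 : Real.sqrt (1 - (2 * r - 1) ^ 2) * Real.sqrt (1 - (2 * r - 1) ^ 2) =
      1 - (2 * r - 1) ^ 2 := Real.mul_self_sqrt h4.le
    have hmem : ∀ s : ℝ, s * s = 1 - (2 * r - 1) ^ 2 → (⟨2 * r - 1, s⟩ : ℂ) ∈ UC := by
      intro s hs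
      rw [mem_sphere_zero_iff_norm]
      have h7 : ‖(⟨2 * r - 1, s⟩ : ℂ)‖ ^ 2 = 1 := by
        rw [← Complex.normSq_eq_norm_sq, Complex.normSq_mk, hs]
        ring
      have h8 := norm_nonneg (⟨2 * r - 1, s⟩ : ℂ)
      nlinarith
    have hre : (1 + (2 * r - 1)) / 2 = r := by ring
    rw [hC]
    rcases ht with rfl | rfl
    · refine ⟨⟨2 * r - 1, Real.sqrt (1 - (2 * r - 1) ^ 2)⟩, hmem _ h6, ?_⟩
      rw [hcd, hτ, if_pos h5.le]
      simp only [hre]
    · refine ⟨⟨2 * r - 1, -Real.sqrt (1 - (2 * r - 1) ^ 2)⟩, hmem _ (by linarith), ?_⟩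
      rw [hcd, hτ, if_neg (by simpa using h5)]
      simp only [hre]
  have hC2 : ∀ y ∈ C, ∃ t, (t = t₁ ∨ t = t₂) ∧ ∃ r ∈ Icc (0 : ℝ) 1, y = F ((r : ℂ) * cexpi t) := by
    rw [hC]
    rintro _ ⟨w, hw, rfl⟩
    exact ⟨τ w, hτm w, _, cari_re hw, hcd w⟩
  have hCcl : IsClosed C := by
    rw [hC]
    exact ((isCompact_sphere 0 1).image_of_continuousOn hcc).isClosed
  -- the two sectors
  have hA : ∀ α β : ℝ, t₁ ≤ α → β ≤ t₁ + 2 * Real.pi → t₂ ∉ Ioo α β →
      IsPreconnected (F '' cariS α β) ∧ F '' cariS α β ⊆ Cᶜ := by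
    intro α β hα hβ hm
    refine ⟨(cariS_pre α β).image F (hc.mono ((cariS_sub α β).trans ball_subset_closedBall)), ?_⟩
    rintro _ ⟨z, hz, rfl⟩ hzC
    have hzO := cariS_sub α β hz
    obtain ⟨t, ht, r, hr, hrt⟩ := hC2 _ hzC
    have h3 : r < 1 := by
      refine hr1 r hr t ht ?_
      rw [← hrt]
      exact hVJ z hzO
    have h4 := hinj hzO (hOD r t hr.1 h3) hrt
    obtain ⟨⟨ρ, θ⟩, ⟨hρ, hθ⟩, hz'⟩ := hz
    simp only at hz' hρ hθ
    rw [← hz'] at h4
    have h5 : ρ = r := by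
      have := congrArg norm h4
      rwa [hnorm ρ θ hρ.1.le, hnorm r t hr.1] at this
    rw [h5] at h4
    have h6 : (r : ℂ) ≠ 0 := by
      rw [← h5]
      exact_mod_cast hρ.1.ne'
    have h7 := mul_left_cancel₀ h6 h4
    have h8 : θ = t := by
      refine cari_cexpi_inj' h7 ?_ ?_
      · rcases ht with rfl | rfl
        · linarith [hθ.2]
        · linarith [hθ.2]
      · rcases ht with rfl | rfl
        · linarith [hθ.1]
        · linarith [hθ.1]
    rcases ht with rfl | rfl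
    · rw [h8] at hθ
      exact absurd hθ.1 (not_lt.2 hα)
    · rw [h8] at hθ
      exact hm hθ
  obtain ⟨hA1, hA1C⟩ := hA t₁ t₂ le_rfl h2.le (fun h => lt_irrefl _ h.2)
  obtain ⟨hA2, hA2C⟩ := hA t₂ (t₁ + 2 * Real.pi) h1.le le_rfl (fun h => lt_irrefl _ h.1)
  have hne : ∀ α β : ℝ, α < β → (F '' cariS α β).Nonempty := by
    intro α β h
    refine Nonempty.image F ⟨_, ⟨(1 / 2, (α + β) / 2), ⟨⟨by norm_num, by norm_num⟩, ?_⟩, rfl⟩⟩
    constructor
    · simp only; linarith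
    · simp only; linarith
  obtain ⟨x₁, hx₁⟩ := hne t₁ t₂ h1
  obtain ⟨x₂, hx₂⟩ := hne t₂ (t₁ + 2 * Real.pi) h2
  obtain ⟨hJ1, hJ2, -⟩ := hJ c hcJ
  rw [← hC] at hJ1 hJ2
  have hW1 : F '' cariS t₁ t₂ ⊆ connectedComponentIn Cᶜ x₁ :=
    hA1.subset_connectedComponentIn hx₁ hA1C
  have hW2 : F '' cariS t₂ (t₁ + 2 * Real.pi) ⊆ connectedComponentIn Cᶜ x₂ :=
    hA2.subset_connectedComponentIn hx₂ hA2C
  have hcomp : ∀ x, x ∉ C → connectedComponentIn Cᶜ x = connectedComponentIn Cᶜ x₁ ∨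
      connectedComponentIn Cᶜ x = connectedComponentIn Cᶜ x₂ := by
    intro x hx
    have h3 : F 0 ∈ closure (connectedComponentIn Cᶜ x) := by
      apply frontier_subset_closure
      rw [hJ2 x hx]
      exact hC0
    obtain ⟨y, ⟨z, hz, rfl⟩, hy⟩ :=
      mem_closure_iff.1 h3 _ hVo ⟨0, mem_ball_self zero_lt_one, rfl⟩
    have hyC : F z ∉ C := connectedComponentIn_subset _ _ hy
    have hnR : ∀ t, t = t₁ ∨ t = t₂ → z ∉ cariR t := by
      rintro t ht ⟨r, hr, rfl⟩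
      refine hyC (hC1 t ht r hr.1 ?_)
      rw [mem_ball_zero_iff] at hz
      simp only at hz
      rwa [hnorm r t hr.1] at hz
    rw [connectedComponentIn_eq hy]
    rcases cari_cover t₁ t₂ z hz with h4 | h4 | h4 | h4
    · exact absurd h4 (hnR _ (Or.inl rfl))
    · exact absurd h4 (hnR _ (Or.inr rfl))
    · exact Or.inl (connectedComponentIn_eq (hW1 ⟨z, h4, rfl⟩)).symm
    · exact Or.inr (connectedComponentIn_eq (hW2 ⟨z, h4, rfl⟩)).symm
  have hWne : connectedComponentIn Cᶜ x₁ ≠ connectedComponentIn Cᶜ x₂ := by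
    intro h
    apply hJ1
    have h3 : Cᶜ = connectedComponentIn Cᶜ x₁ := by
      refine Subset.antisymm (fun x hx => ?_) (connectedComponentIn_subset _ _)
      have h4 := mem_connectedComponentIn hx
      rcases hcomp x hx with h5 | h5
      · rwa [h5] at h4
      · rwa [h5, ← h] at h4
    rw [h3]
    exact isPreconnected_connectedComponentIn
  -- the rest of the circle
  have hJ' : IsPreconnected (γ '' UC \ {a}) := by
    obtain ⟨ζ, hζ, hζa⟩ := haJ
    have h3 : γ '' UC \ {a} = γ '' (UC \ {ζ}) := by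
      rw [hγ.2.image_sdiff_subset (singleton_subset_iff.2 hζ), image_singleton, hζa]
    rw [h3]
    exact (cari_UC_diff ζ).image γ (hγ.1.mono sdiff_subset)
  have hJ'C : γ '' UC \ {a} ⊆ Cᶜ := by
    rintro y ⟨hy, hya⟩ hyC
    obtain ⟨t, ht, r, hr, rfl⟩ := hC2 y hyC
    rcases eq_or_lt_of_le hr.2 with h3 | h3
    · apply hya
      rw [h3, Complex.ofReal_one, one_mul, hTa t ht]
      rfl
    · exact hVJ _ (hOD r t hr.1 h3) hy
  have hsep : (∀ y ∈ γ '' UC \ {a}, y ∉ connectedComponentIn Cᶜ x₁) ∨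
      (∀ y ∈ γ '' UC \ {a}, y ∉ connectedComponentIn Cᶜ x₂) := by
    by_contra hcon
    push Not at hcon
    obtain ⟨⟨y₁, hy₁, hy₁'⟩, ⟨y₂, hy₂, hy₂'⟩⟩ := hcon
    have h3 := hJ'.subset_connectedComponentIn hy₁ hJ'C hy₂
    rw [← connectedComponentIn_eq hy₁'] at h3
    exact hWne ((connectedComponentIn_eq h3).trans (connectedComponentIn_eq hy₂').symm)
  -- the conclusion for one sector
  have hfin : ∀ (α β : ℝ) (x : ℂ), α < β → x ∉ C → F '' cariS α β ⊆ connectedComponentIn Cᶜ x →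
      (∀ y ∈ γ '' UC \ {a}, y ∉ connectedComponentIn Cᶜ x) → False := by
    intro α β x hαβ hx hsub hno
    have h3 : ∀ θ ∈ Ioo α β, F (Complex.exp (θ * Complex.I)) = a := by
      intro θ hθ
      change F (cexpi θ) = a
      by_contra hna
      have hy : F (cexpi θ) ∈ γ '' UC \ {a} := by
        refine ⟨?_, hna⟩
        rw [← himg]
        exact ⟨_, cari_cexpi_mem θ, rfl⟩
      have h4 : F (cexpi θ) ∈ closure (F '' cariS α β) := by
        have h5 : ContinuousWithinAt F (cariS α β) (cexpi θ) :=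
          (hc (cexpi θ) (sphere_subset_closedBall (cari_cexpi_mem θ))).mono
            ((cariS_sub α β).trans ball_subset_closedBall)
        exact h5.mem_closure_image (cariS_cl α β θ hθ)
      have h5 := closure_mono hsub h4
      have h6 : F (cexpi θ) ∈ frontier (connectedComponentIn Cᶜ x) := by
        rw [(hCcl.isOpen_compl.connectedComponentIn).frontier_eq]
        exact ⟨h5, hno _ hy⟩
      rw [hJ2 x hx] at h6
      exact hJ'C hy h6
    have h4 := CT.h12 F a hc hd α β hαβ h3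
    apply hVJ 0 (mem_ball_self zero_lt_one)
    rw [h4]
    exact haJ
  rcases hsep with h | h
  · exact hfin t₁ t₂ x₁ h1 (hA1C hx₁) hW1 h
  · exact hfin t₂ (t₁ + 2 * Real.pi) x₂ h2 (hA2C hx₂) hW2 h

theorem thm_CARI (hJ : St_JSEP) : St_CARI := by
  intro γ hγ F hc hd hinj hdis himg z hz w hw hzw
  obtain ⟨φ, -, hφ⟩ := cari_polar 0 z
  obtain ⟨ψ, hψ, hψ'⟩ := cari_polar φ w
  rw [mem_sphere_zero_iff_norm] at hz hw
  rw [hz] at hφ
  rw [hw] at hψ'
  simp only [Complex.ofReal_one, one_mul] at hφ hψ'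
  rcases eq_or_lt_of_le hψ.1 with h | h
  · rw [hφ, hψ', h]
  · exfalso
    refine cari_key hJ γ hγ F hc hd hinj hdis himg φ ψ h hψ.2 ?_
    rw [← hφ, ← hψ']
    exact hzw

end Pool.Agent.SRF
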