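import Pool.Agent.SRF.StA

set_option autoImplicit false

/-! # SRF, CHN: a Jordan curve through finitely many disjoint arcs -/

open Set Metric Filter Topology

namespace Pool.Agent.SRF

/-- concatenation of three arcs -/
noncomputable def chn_cat (p q r : ℝ → ℂ) (u : ℝ) : ℂ :=
  if u ≤ 1 / 3 then p (3 * u) else if u ≤ 2 / 3 then q (3 * u - 1) else r (3 * u - 2)

theorem chn_cat1 {p q r : ℝ → ℂ} {u : ℝ} (h : u ≤ 1 / 3) : chn_cat p q r u = p (3 * u) :=
  if_pos h

theorem chn_cat2 {p q r : ℝ → ℂ} {u : ℝ} (h1 : p 1 = q 0) (h : 1 / 3 ≤ u) (h' : u ≤ 2 / 3) :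
    chn_cat p q r u = q (3 * u - 1) := by
  rcases h.eq_or_lt with h | h
  · rw [chn_cat1 h.ge, ← h]
    norm_num
    exact h1
  · unfold chn_cat
    rw [if_neg (not_le.2 h), if_pos h']

theorem chn_cat3 {p q r : ℝ → ℂ} {u : ℝ} (h2 : q 1 = r 0) (h : 2 / 3 ≤ u) :
    chn_cat p q r u = r (3 * u - 2) := by
  rcases h.eq_or_lt with h | h
  · unfold chn_cat
    rw [if_neg (by rw [← h]; norm_num), if_pos h.ge, ← h]
    norm_num
    exact h2
  · unfold chn_cat
    rw [if_neg (by linarith), if_neg (not_le.2 h)]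

theorem chn_cat_arc {p q r : ℝ → ℂ} (hp : IsArc p) (hq : IsArc q) (hr : IsArc r)
    (h1 : p 1 = q 0) (h2 : q 1 = r 0)
    (hpq : ∀ x ∈ Icc (0 : ℝ) 1, ∀ y ∈ Icc (0 : ℝ) 1, p x = q y → y = 0)
    (hqr : ∀ x ∈ Icc (0 : ℝ) 1, ∀ y ∈ Icc (0 : ℝ) 1, q x = r y → x = 1)
    (hpr : ∀ x ∈ Icc (0 : ℝ) 1, ∀ y ∈ Icc (0 : ℝ) 1, p x ≠ r y) : IsArc (chn_cat p q r) := by
  refine ⟨?_, ?_⟩
  · have e : Icc (0 : ℝ) 1 = (Icc 0 (1 / 3) ∪ Icc (1 / 3) (2 / 3)) ∪ Icc (2 / 3) 1 := by
      rw [Icc_union_Icc_eq_Icc (by norm_num) (by norm_num),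
        Icc_union_Icc_eq_Icc (by norm_num) (by norm_num)]
    rw [e]
    refine ContinuousOn.union_of_isClosed (ContinuousOn.union_of_isClosed ?_ ?_ isClosed_Icc
      isClosed_Icc) ?_ (isClosed_Icc.union isClosed_Icc) isClosed_Icc
    · have : ContinuousOn (fun u => p (3 * u)) (Icc 0 (1 / 3)) :=
        hp.1.comp (by fun_prop) fun u hu => ⟨by linarith [hu.1], by linarith [hu.2]⟩
      exact this.congr fun u hu => chn_cat1 hu.2
    · have : ContinuousOn (fun u => q (3 * u - 1)) (Icc (1 / 3) (2 / 3)) :=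
        hq.1.comp (by fun_prop) fun u hu => ⟨by linarith [hu.1], by linarith [hu.2]⟩
      exact this.congr fun u hu => chn_cat2 h1 hu.1 hu.2
    · have : ContinuousOn (fun u => r (3 * u - 2)) (Icc (2 / 3) 1) :=
        hr.1.comp (by fun_prop) fun u hu => ⟨by linarith [hu.1], by linarith [hu.2]⟩
      exact this.congr fun u hu => chn_cat3 h2 hu.1
  · have key : ∀ u ∈ Icc (0 : ℝ) 1, ∀ v ∈ Icc (0 : ℝ) 1, u ≤ v →
        chn_cat p q r u = chn_cat p q r v → u = v := by
      intro u hu v hv huv h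
      rcases le_or_gt u (1 / 3) with hu1 | hu1
      · rw [chn_cat1 hu1] at h
        have hum : 3 * u ∈ Icc (0 : ℝ) 1 := ⟨by linarith [hu.1], by linarith⟩
        rcases le_or_gt v (1 / 3) with hv1 | hv1
        · rw [chn_cat1 hv1] at h
          have := hp.2 hum ⟨by linarith [hv.1], by linarith⟩ h
          linarith
        · rcases le_or_gt v (2 / 3) with hv2 | hv2
          · rw [chn_cat2 h1 hv1.le hv2] at h
            have := hpq _ hum _ ⟨by linarith, by linarith⟩ h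
            linarith
          · rw [chn_cat3 h2 hv2.le] at h
            exact absurd h (hpr _ hum _ ⟨by linarith, by linarith [hv.2]⟩)
      · rcases le_or_gt u (2 / 3) with hu2 | hu2
        · rw [chn_cat2 h1 hu1.le hu2] at h
          have hum : 3 * u - 1 ∈ Icc (0 : ℝ) 1 := ⟨by linarith, by linarith⟩
          rcases le_or_gt v (2 / 3) with hv2 | hv2
          · rw [chn_cat2 h1 (by linarith) hv2] at h
            have := hq.2 hum ⟨by linarith, by linarith⟩ h
            linarith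
          · rw [chn_cat3 h2 hv2.le] at h
            have hvm : 3 * v - 2 ∈ Icc (0 : ℝ) 1 := ⟨by linarith, by linarith [hv.2]⟩
            have h3 := hqr _ hum _ hvm h
            rw [h3, h2] at h
            have := hr.2 ⟨le_rfl, zero_le_one⟩ hvm h
            linarith
        · rw [chn_cat3 h2 hu2.le, chn_cat3 h2 (by linarith)] at h
          have := hr.2 (⟨by linarith, by linarith [hu.2]⟩ : 3 * u - 2 ∈ Icc (0 : ℝ) 1)
            ⟨by linarith, by linarith [hv.2]⟩ h
          linarith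
    intro u hu v hv h
    rcases le_total u v with huv | huv
    · exact key u hu v hv huv h
    · exact (key v hv u hu huv h.symm).symm

theorem chn_logempty : LogSet ∅ := fun _ _ _ => ⟨fun _ => 0, continuousOn_empty _, by simp⟩

theorem chn_union (hJAN : St_JAN) : ∀ (m : ℕ) (K : Fin m → Set ℂ), (∀ i, IsCompact (K i)) →
    (∀ i, LogSet (K i)) → (∀ i, interior (K i) = ∅) → (∀ i j, i ≠ j → Disjoint (K i) (K j)) →
    LogSet (⋃ i, K i) ∧ interior (⋃ i, K i) = ∅
  | 0, K, _, _, _, _ => by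
    rw [iUnion_of_empty]
    exact ⟨chn_logempty, interior_empty⟩
  | m + 1, K, hc, hl, hi, hd => by
    obtain ⟨h1, h2⟩ := chn_union hJAN m (fun i => K i.succ) (fun i => hc _) (fun i => hl _)
      (fun i => hi _) (fun i j h => hd _ _ fun h' => h (Fin.succ_injective _ h'))
    have hdis : K 0 ∩ ⋃ i : Fin m, K i.succ = ∅ := by
      rw [← disjoint_iff_inter_eq_empty, disjoint_iUnion_right]
      exact fun i => hd _ _ (Fin.succ_ne_zero i).symm
    have hcl : IsClosed (⋃ i : Fin m, K i.succ) :=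
      isClosed_iUnion_of_finite fun i => (hc _).isClosed
    have hun : (⋃ i, K i) = K 0 ∪ ⋃ i : Fin m, K i.succ := by
      ext z
      simp only [mem_iUnion, mem_union]
      constructor
      · rintro ⟨i, hi⟩
        revert hi
        refine Fin.cases (fun h => Or.inl h) (fun i h => Or.inr ⟨i, h⟩) i
      · rintro (h | ⟨i, h⟩)
        · exact ⟨0, h⟩
        · exact ⟨i.succ, h⟩
    rw [hun]
    refine ⟨hJAN.2.2.1 _ _ (hc 0).isClosed hcl (by rw [hdis]; exact isPreconnected_empty)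
      (hl 0) h1, ?_⟩
    rw [interior_union_isClosed_of_interior_empty (hc 0).isClosed h2]
    exact hi 0

theorem chn_img {α : ℝ → ℂ} (h : IsArc α) : IsCompact (α '' Icc 0 1) :=
  isCompact_Icc.image_of_continuousOn h.1

/-- Part (A): one arc through all arcs. -/
theorem chn_A (hLOGB : St_LOGB) (hJAN : St_JAN) (hJOIN : St_JOIN) : ∀ (n : ℕ)
    (α : Fin (n + 1) → ℝ → ℂ), (∀ i, IsArc (α i)) →
    (∀ i j, i ≠ j → Disjoint (α i '' Icc 0 1) (α j '' Icc 0 1)) → ∀ ε : ℝ, 0 < ε → ε < 1 / 2 →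
    ∃ (A : ℝ → ℂ) (ε' : ℝ), IsArc A ∧ 0 < ε' ∧ ε' < 1 / 2 ∧
      ∀ i, α i '' Icc ε (1 - ε) ⊆ A '' Icc ε' (1 - ε')
  | 0, α, ha, _, ε, h0, h1 => ⟨α 0, ε, ha 0, h0, h1, fun i => by
      have : i = 0 := by
        apply Fin.ext
        simp
      rw [this]⟩
  | n + 1, α, ha, hd, ε, h0, h1 => by
    set Z : Set ℂ := ⋃ i, α i '' Icc 0 1 with hZ
    have hZc : IsCompact Z := isCompact_iUnion fun i => chn_img (ha i)
    obtain ⟨hZl, hZi⟩ := chn_union hJAN _ (fun i => α i '' Icc 0 1) (fun i => chn_img (ha i))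
      (fun i => hLOGB.2.2.2.1 _ (ha i)) (fun i => hJAN.2.2.2 _ (ha i)) hd
    have hsub : ∀ i, α i '' Icc 0 1 ⊆ Z := fun i => subset_iUnion (fun i => α i '' Icc 0 1) i
    have hU : ∀ i, ∀ p ∈ α i '' Icc 0 1, ∃ U ∈ 𝓝 p, U ∩ Z ⊆ α i '' Icc 0 1 := by
      intro i p hp
      refine ⟨(⋃ j, ⋃ _ : j ≠ i, α j '' Icc 0 1)ᶜ, ?_, ?_⟩
      · refine IsOpen.mem_nhds (isOpen_compl_iff.2 ?_) ?_
        · exact isClosed_iUnion_of_finite fun j => isClosed_iUnion_of_finite fun _ =>
            (chn_img (ha j)).isClosed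
        · intro h
          obtain ⟨j, hj⟩ := mem_iUnion.1 h
          obtain ⟨hji, hj⟩ := mem_iUnion.1 hj
          exact (hd j i hji).le_bot ⟨hj, hp⟩
      · rintro q ⟨hq, hqZ⟩
        obtain ⟨j, hj⟩ := mem_iUnion.1 hqZ
        by_cases hji : j = i
        · rw [hji] at hj
          exact hj
        · exact absurd (mem_iUnion.2 ⟨j, mem_iUnion.2 ⟨hji, hj⟩⟩) hq
    have h01 : (0 : Fin (n + 2)) ≠ 1 := by simp
    have hm0 : (0 : ℝ) ∈ Icc (0 : ℝ) 1 := ⟨le_rfl, zero_le_one⟩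
    have hm1 : (1 : ℝ) ∈ Icc (0 : ℝ) 1 := ⟨zero_le_one, le_rfl⟩
    obtain ⟨β, s, t, hβ, hs1, hs2, ht1, ht2, hβ0, hβ1, hβZ⟩ := hJOIN Z (α 0) (α 1) hZc
      (hJAN.2.1 Z hZc hZl) hZi (ha 0) (ha 1) (hsub 0) (hsub 1) (hU 0 _ ⟨1, hm1, rfl⟩)
      (hU 1 _ ⟨0, hm0, rfl⟩) (fun h => (hd 0 1 h01).le_bot
        ⟨(⟨1, hm1, rfl⟩ : α 0 1 ∈ α 0 '' Icc 0 1), h ▸ ⟨0, hm0, rfl⟩⟩) ε h0 h1
    have hs0 : 0 < s := by linarith
    have ht3 : t < 1 := by linarith
    -- the three pieces
    have hp : IsArc (fun u => α 0 (s * u)) := by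
      refine ⟨(ha 0).1.comp (by fun_prop) fun u hu => ⟨by nlinarith [hu.1], by nlinarith [hu.1, hu.2]⟩,
        fun u hu v hv h => ?_⟩
      have := (ha 0).2 (⟨by nlinarith [hu.1], by nlinarith [hu.1, hu.2]⟩ : s * u ∈ Icc (0 : ℝ) 1)
        ⟨by nlinarith [hv.1], by nlinarith [hv.1, hv.2]⟩ h
      exact mul_left_cancel₀ hs0.ne' this
    have hrm : ∀ u ∈ Icc (0 : ℝ) 1, t + u * (1 - t) ∈ Icc (0 : ℝ) 1 := fun u hu =>
      ⟨by nlinarith [hu.1], by nlinarith [hu.2]⟩
    have hsm : ∀ u ∈ Icc (0 : ℝ) 1, s * u ∈ Icc (0 : ℝ) 1 := fun u hu =>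
      ⟨by nlinarith [hu.1], by nlinarith [hu.1, hu.2]⟩
    have hr : IsArc (fun u => α 1 (t + u * (1 - t))) := by
      refine ⟨(ha 1).1.comp (by fun_prop) fun u hu => hrm u hu, fun u hu v hv h => ?_⟩
      have h2 := (ha 1).2 (hrm u hu) (hrm v hv) h
      have h3 : u * (1 - t) = v * (1 - t) := by linarith
      exact mul_right_cancel₀ (by linarith : (1 - t : ℝ) ≠ 0) h3
    have hβin : ∀ y ∈ Icc (0 : ℝ) 1, β y ∈ Z → y = 0 ∨ y = 1 := by
      intro y hy hyZ
      by_contra hcon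
      push Not at hcon
      exact hβZ y ⟨lt_of_le_of_ne hy.1 (Ne.symm hcon.1), lt_of_le_of_ne hy.2 hcon.2⟩ hyZ
    have hsI : s ∈ Icc (0 : ℝ) 1 := ⟨hs0.le, hs2⟩
    have htI : t ∈ Icc (0 : ℝ) 1 := ⟨ht1, ht3.le⟩
    set A₁ : ℝ → ℂ := chn_cat (fun u => α 0 (s * u)) β (fun u => α 1 (t + u * (1 - t))) with hA₁
    have e1 : (fun u => α 0 (s * u)) 1 = β 0 := by
      simp only [mul_one]
      exact hβ0.symm
    have e2 : β 1 = (fun u => α 1 (t + u * (1 - t))) 0 := by
      simp only [zero_mul, add_zero]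
      exact hβ1
    have hA₁a : IsArc A₁ := by
      refine chn_cat_arc hp hβ hr e1 e2 ?_ ?_ ?_
      · intro x hx y hy h
        rcases hβin y hy (by rw [← h]; exact hsub 0 ⟨_, hsm x hx, rfl⟩) with h2 | h2
        · exact h2
        · exfalso
          rw [h2, hβ1] at h
          exact (hd 0 1 h01).le_bot ⟨⟨_, hsm x hx, rfl⟩, (h ▸ ⟨t, htI, rfl⟩ :
            α 0 (s * x) ∈ α 1 '' Icc 0 1)⟩
      · intro x hx y hy h
        rcases hβin x hx (by rw [h]; exact hsub 1 ⟨_, hrm y hy, rfl⟩) with h2 | h2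
        · exfalso
          rw [h2, hβ0] at h
          exact (hd 0 1 h01).le_bot ⟨⟨s, hsI, rfl⟩, (h ▸ ⟨_, hrm y hy, rfl⟩ :
            α 0 s ∈ α 1 '' Icc 0 1)⟩
        · exact h2
      · intro x hx y hy h
        have h' : α 0 (s * x) = α 1 (t + y * (1 - t)) := h
        exact (hd 0 1 h01).le_bot ⟨⟨_, hsm x hx, rfl⟩, (h' ▸ ⟨_, hrm y hy, rfl⟩ :
          α 0 (s * x) ∈ α 1 '' Icc 0 1)⟩
    have hA₁Z : A₁ '' Icc 0 1 ⊆ (α 0 '' Icc 0 1 ∪ α 1 '' Icc 0 1) ∪ Zᶜ := by
      rintro _ ⟨u, hu, rfl⟩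
      rcases le_total u (1 / 3) with hu1 | hu1
      · rw [hA₁, chn_cat1 hu1]
        exact Or.inl (Or.inl ⟨_, hsm _ ⟨by linarith [hu.1], by linarith⟩, rfl⟩)
      · rcases le_total u (2 / 3) with hu2 | hu2
        · rw [hA₁, chn_cat2 e1 hu1 hu2]
          by_cases h : β (3 * u - 1) ∈ Z
          · rcases hβin _ ⟨by linarith, by linarith⟩ h with h2 | h2
            · rw [h2, hβ0]
              exact Or.inl (Or.inl ⟨s, hsI, rfl⟩)
            · rw [h2, hβ1]
              exact Or.inl (Or.inr ⟨t, htI, rfl⟩)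
          · exact Or.inr h
        · rw [hA₁, chn_cat3 e2 hu2]
          exact Or.inl (Or.inr ⟨_, hrm _ ⟨by linarith, by linarith [hu.2]⟩, rfl⟩)
    have hA₁d : ∀ i : Fin n, Disjoint (A₁ '' Icc 0 1) (α i.succ.succ '' Icc 0 1) := by
      intro i
      rw [Set.disjoint_left]
      intro p hp hp2
      rcases hA₁Z hp with (h | h) | h
      · exact (hd 0 i.succ.succ (Fin.succ_ne_zero _).symm).le_bot ⟨h, hp2⟩
      · refine (hd 1 i.succ.succ ?_).le_bot ⟨h, hp2⟩
        rw [← Fin.succ_zero_eq_one]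
        intro h3
        exact Fin.succ_ne_zero _ (Fin.succ_injective _ h3).symm
      · exact h (hsub _ hp2)
    obtain ⟨A, ε', hA, hε0, hε1, hAs⟩ := chn_A hLOGB hJAN hJOIN n
      (Fin.cons A₁ fun i : Fin n => α i.succ.succ)
      (fun i => by
        refine Fin.cases ?_ (fun i => ?_) i
        · exact hA₁a
        · exact ha _)
      (fun i j => by
        refine Fin.cases ?_ (fun i => ?_) i
        · refine Fin.cases (fun h => absurd rfl h) (fun j _ => ?_) j
          exact hA₁d j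
        · refine Fin.cases (fun _ => ?_) (fun j h => ?_) j
          · exact (hA₁d i).symm
          · refine hd _ _ fun h2 => h ?_
            exact Fin.succ_injective _ h2)
      (ε / 3) (by linarith) (by linarith)
    refine ⟨A, ε', hA, hε0, hε1, fun i => ?_⟩
    have hA₁A : A₁ '' Icc (ε / 3) (1 - ε / 3) ⊆ A '' Icc ε' (1 - ε') := hAs 0
    refine Fin.cases ?_ (fun i => ?_) i
    · refine Subset.trans ?_ hA₁A
      rintro _ ⟨v, hv, rfl⟩
      have h3 : v / (3 * s) ≤ 1 / 3 := by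
        rw [div_le_div_iff₀ (by positivity) (by norm_num)]
        nlinarith [hv.2]
      have h4 : ε / 3 ≤ v / (3 * s) := by
        rw [div_le_div_iff₀ (by norm_num) (by positivity)]
        nlinarith [hv.1]
      refine ⟨v / (3 * s), ⟨h4, by linarith⟩, ?_⟩
      rw [hA₁, chn_cat1 h3]
      change α 0 (s * (3 * (v / (3 * s)))) = _
      congr 1
      field_simp
    · refine Fin.cases ?_ (fun i => ?_) i
      · refine Subset.trans ?_ hA₁A
        rw [Fin.succ_zero_eq_one]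
        rintro _ ⟨v, hv, rfl⟩
        have h1t : 0 < 1 - t := by linarith
        set w : ℝ := (v - t) / (1 - t) with hw
        have hw0 : 0 ≤ w := div_nonneg (by linarith [hv.1]) h1t.le
        have hw1 : w ≤ 1 - ε := by
          rw [hw, div_le_iff₀ h1t]
          nlinarith [hv.2]
        have hwv : w * (1 - t) = v - t := div_mul_cancel₀ _ h1t.ne'
        refine ⟨(2 + w) / 3, ⟨by linarith, by linarith⟩, ?_⟩
        rw [hA₁, chn_cat3 e2 (by linarith)]
        change α 1 (t + (3 * ((2 + w) / 3) - 2) * (1 - t)) = _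
        congr 1
        have : 3 * ((2 + w) / 3) - 2 = w := by ring
        rw [this, hwv]
        ring
      · refine Subset.trans ?_ (hAs i.succ)
        exact image_mono (Icc_subset_Icc (by linarith) (by linarith))

theorem thm_CHN (hLOGB : St_LOGB) (hJAN : St_JAN) (hJOIN : St_JOIN) : St_CHN := by
  intro n α ha hd ε h0 h1
  obtain ⟨A, ε', hA, hε0, hε1, hAs⟩ := chn_A hLOGB hJAN hJOIN n α ha hd ε h0 h1
  set Z : Set ℂ := A '' Icc 0 1 with hZ
  have hZc : IsCompact Z := chn_img hA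
  have hm0 : (0 : ℝ) ∈ Icc (0 : ℝ) 1 := ⟨le_rfl, zero_le_one⟩
  have hm1 : (1 : ℝ) ∈ Icc (0 : ℝ) 1 := ⟨zero_le_one, le_rfl⟩
  obtain ⟨β, s, t, hβ, hs1, hs2, ht1, ht2, hβ0, hβ1, hβZ⟩ := hJOIN Z A A hZc
    (hJAN.2.1 Z hZc (hLOGB.2.2.2.1 _ hA)) (hJAN.2.2.2 _ hA) hA hA Subset.rfl Subset.rfl
    ⟨univ, univ_mem, inter_subset_right⟩ ⟨univ, univ_mem, inter_subset_right⟩
    (fun h => one_ne_zero (hA.2 hm1 hm0 h)) ε' hε0 hε1
  have hts : t < s := by linarith
  set γ : ℂ → ℂ := fun z => @ite ℂ (0 ≤ z.im) (Classical.propDecidable _)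
    (A (t + (1 - z.re) / 2 * (s - t))) (β ((1 + z.re) / 2)) with hγ
  have hγp : ∀ z : ℂ, 0 ≤ z.im → γ z = A (t + (1 - z.re) / 2 * (s - t)) := fun z hz => if_pos hz
  have hγn : ∀ z : ℂ, z.im < 0 → γ z = β ((1 + z.re) / 2) := fun z hz => if_neg (not_le.2 hz)
  have hUC : ∀ z ∈ UC, z.re ^ 2 + z.im ^ 2 = 1 := by
    intro z hz
    have h2 : ‖z‖ = 1 := by simpa using hz
    have h3 := Complex.sq_norm z
    rw [h2, Complex.normSq_apply] at h3
    nlinarith
  have hre : ∀ z ∈ UC, -1 ≤ z.re ∧ z.re ≤ 1 := fun z hz => by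
    have := hUC z hz
    constructor <;> nlinarith [sq_nonneg z.im]
  have hre' : ∀ z ∈ UC, z.im < 0 → -1 < z.re ∧ z.re < 1 := fun z hz h => by
    have := hUC z hz
    have h2 : 0 < z.im ^ 2 := by nlinarith
    constructor <;> nlinarith
  have hAm : ∀ z ∈ UC, t + (1 - z.re) / 2 * (s - t) ∈ Icc (0 : ℝ) 1 := fun z hz => by
    obtain ⟨h2, h3⟩ := hre z hz
    constructor <;> nlinarith
  have hγn' : ∀ z ∈ UC, z.im ≤ 0 → γ z = β ((1 + z.re) / 2) := by
    intro z hz hzi
    rcases hzi.lt_or_eq with h2 | h2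
    · exact hγn z h2
    · have h3 := hUC z hz
      rw [h2] at h3
      have h4 : (z.re - 1) * (z.re + 1) = 0 := by nlinarith
      rw [hγp z h2.ge]
      rcases mul_eq_zero.1 h4 with h5 | h5
      · have h6 : z.re = 1 := by linarith
        rw [h6]
        norm_num
        exact hβ1.symm
      · have h6 : z.re = -1 := by linarith
        rw [h6]
        norm_num
        exact hβ0.symm
  refine ⟨γ, ⟨?_, ?_⟩, ?_⟩
  · have e : UC = (UC ∩ {z | 0 ≤ z.im}) ∪ (UC ∩ {z | z.im ≤ 0}) := by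
      rw [← inter_union_distrib_left, eq_comm, inter_eq_left]
      intro z _
      exact le_total 0 z.im
    rw [e]
    refine ContinuousOn.union_of_isClosed ?_ ?_
      (isClosed_sphere.inter (isClosed_le continuous_const Complex.continuous_im))
      (isClosed_sphere.inter (isClosed_le Complex.continuous_im continuous_const))
    · have h2 : ContinuousOn (fun z : ℂ => A (t + (1 - z.re) / 2 * (s - t)))
          (UC ∩ {z | 0 ≤ z.im}) := hA.1.comp (by fun_prop) fun z hz => hAm z hz.1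
      exact h2.congr fun z hz => hγp z hz.2
    · have h2 : ContinuousOn (fun z : ℂ => β ((1 + z.re) / 2)) (UC ∩ {z | z.im ≤ 0}) :=
        hβ.1.comp (by fun_prop) fun z hz => by
          obtain ⟨h3, h4⟩ := hre z hz.1
          constructor <;> linarith
      exact h2.congr fun z hz => hγn' z hz.1 hz.2
  · have hsq : ∀ z ∈ UC, ∀ w ∈ UC, z.re = w.re → 0 ≤ z.im * w.im → z = w := by
      intro z hz w hw h2 h3
      have h4 := hUC z hz
      have h5 := hUC w hw
      rw [h2] at h4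
      have h6 : z.im ^ 2 = w.im ^ 2 := by linarith
      have h7 : z.im = w.im := by
        rcases sq_eq_sq_iff_eq_or_eq_neg.1 h6 with h | h
        · exact h
        · rw [h] at h3
          have h8 : w.im ^ 2 = 0 := by nlinarith [sq_nonneg w.im]
          have h9 : w.im = 0 := by simpa using h8
          rw [h, h9, neg_zero]
      exact Complex.ext h2 h7
    have hmix : ∀ z ∈ UC, ∀ w ∈ UC, 0 ≤ z.im → w.im < 0 → γ z ≠ γ w := by
      intro z hz w hw h2 h3 h4
      rw [hγp z h2, hγn w h3] at h4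
      obtain ⟨h5, h6⟩ := hre' w hw h3
      refine hβZ ((1 + w.re) / 2) ⟨by linarith, by linarith⟩ ?_
      rw [← h4]
      exact ⟨_, hAm z hz, rfl⟩
    intro z hz w hw h
    rcases le_or_gt 0 z.im with h2 | h2
    · rcases le_or_gt 0 w.im with h3 | h3
      · rw [hγp z h2, hγp w h3] at h
        have h4 := hA.2 (hAm z hz) (hAm w hw) h
        have h5 : (1 - z.re) / 2 * (s - t) = (1 - w.re) / 2 * (s - t) := by linarith
        have h6 := mul_right_cancel₀ (by linarith : (s - t : ℝ) ≠ 0) h5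
        exact hsq z hz w hw (by linarith) (mul_nonneg h2 h3)
      · exact absurd h (hmix z hz w hw h2 h3)
    · rcases le_or_gt 0 w.im with h3 | h3
      · exact absurd h.symm (hmix w hw z hz h3 h2)
      · rw [hγn z h2, hγn w h3] at h
        obtain ⟨h5, h6⟩ := hre z hz
        obtain ⟨h7, h8⟩ := hre w hw
        have h4 := hβ.2 (⟨by linarith, by linarith⟩ : (1 + z.re) / 2 ∈ Icc (0 : ℝ) 1)
          ⟨by linarith, by linarith⟩ h
        exact hsq z hz w hw (by linarith) (mul_nonneg_of_nonpos_of_nonpos h2.le h3.le)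
  · intro i
    refine (hAs i).trans ?_
    rintro _ ⟨v, hv, rfl⟩
    have hst : 0 < s - t := by linarith
    set w : ℝ := (v - t) / (s - t) with hw
    have hw0 : 0 ≤ w := div_nonneg (by linarith [hv.1]) hst.le
    have hw1 : w ≤ 1 := by
      rw [hw, div_le_iff₀ hst]
      linarith [hv.2]
    have hwv : w * (s - t) = v - t := div_mul_cancel₀ _ hst.ne'
    refine ⟨cexpi (Real.arccos (1 - 2 * w)), ⟨_, ⟨Real.arccos_nonneg _, Real.arccos_le_pi _⟩, rfl⟩,
      ?_⟩
    have hcre : (cexpi (Real.arccos (1 - 2 * w))).re = 1 - 2 * w := by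
      unfold cexpi
      rw [Complex.exp_ofReal_mul_I_re, Real.cos_arccos (by linarith) (by linarith)]
    have hcim : 0 ≤ (cexpi (Real.arccos (1 - 2 * w))).im := by
      unfold cexpi
      rw [Complex.exp_ofReal_mul_I_im]
      exact Real.sin_nonneg_of_nonneg_of_le_pi (Real.arccos_nonneg _) (Real.arccos_le_pi _)
    rw [hγp _ hcim, hcre]
    congr 1
    have : (1 - (1 - 2 * w)) / 2 = w := by ring
    rw [this, hwv]
    ring

end Pool.Agent.SRF
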