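import Pool.Agent.SRF.StA

set_option autoImplicit false

/-! # SRF, module EC: Eilenberg's criterion -/

open Set Metric Filter Topology

namespace Pool.Agent.SRF

private theorem ec_mul {f g : ℂ → ℂ} {K : Set ℂ} (hf : HasLog f K) (hg : HasLog g K) :
    HasLog (fun z => f z * g z) K := by
  obtain ⟨h, hh, hh2⟩ := hf
  obtain ⟨k, hk, hk2⟩ := hg
  exact ⟨fun z => h z + k z, hh.add hk, fun z hz => by rw [Complex.exp_add, hh2 z hz, hk2 z hz]⟩

private theorem ec_inv {f : ℂ → ℂ} {K : Set ℂ} (hf : HasLog f K) :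
    HasLog (fun z => (f z)⁻¹) K := by
  obtain ⟨h, hh, hh2⟩ := hf
  exact ⟨fun z => -h z, hh.neg, fun z hz => by rw [Complex.exp_neg, hh2 z hz]⟩

private theorem ec_congr {f g : ℂ → ℂ} {K : Set ℂ} (hf : HasLog f K) (h : ∀ z ∈ K, f z = g z) :
    HasLog g K := by
  obtain ⟨k, hk, hk2⟩ := hf
  exact ⟨k, hk, fun z hz => (hk2 z hz).trans (h z hz)⟩

private theorem ec_const {a : ℂ} (ha : a ≠ 0) (K : Set ℂ) : HasLog (fun _ => a) K :=
  ⟨fun _ => Complex.log a, continuousOn_const, fun _ _ => Complex.exp_log ha⟩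

/-- moving the pole a little -/
private theorem ec_move (hL : St_LOGB) {K : Set ℂ} {y y' : ℂ} {ρ : ℝ}
    (hy : ∀ z ∈ K, ρ ≤ ‖z - y‖) (hρ : 0 < ρ) (h : ‖y' - y‖ < ρ) :
    HasLog (fun z => (z - y') / (z - y)) K := by
  obtain ⟨-, -, -, -, -, h6⟩ := hL
  have hne : ∀ z ∈ K, z - y ≠ 0 := fun z hz h0 => by
    have := hy z hz
    rw [h0, norm_zero] at this
    linarith
  refine (h6 (fun z => (z - y') / (z - y)) (fun _ => 1) K ?_ continuousOn_const ?_).1
    (ec_const one_ne_zero K)
  · exact ((continuous_id.sub continuous_const).continuousOn).div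
      ((continuous_id.sub continuous_const).continuousOn) hne
  · intro z hz
    have h1 : (z - y') / (z - y) - 1 = (y - y') / (z - y) := by
      have := hne z hz
      field_simp
      ring
    rw [h1, norm_div, norm_one, div_lt_one (norm_pos_iff.2 (hne z hz)), norm_sub_rev]
    exact h.trans_le (hy z hz)

private theorem ec_far {K : Set ℂ} (hK : IsCompact K) {y : ℂ} (hy : y ∉ K) :
    ∃ ρ : ℝ, 0 < ρ ∧ ball y ρ ⊆ Kᶜ := by
  have h := hK.isClosed.isOpen_compl.mem_nhds hy
  exact Metric.mem_nhds_iff.1 h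

private theorem ec_far2 {K : Set ℂ} {y : ℂ} {ρ : ℝ} (h : ball y ρ ⊆ Kᶜ) :
    ∀ z ∈ K, ρ ≤ ‖z - y‖ := by
  intro z hz
  by_contra hc
  rw [not_le] at hc
  exact h (mem_ball_iff_norm.2 hc) hz

/-- the logarithm depends only on the component of the pole -/
private theorem ec_open (hL : St_LOGB) {K : Set ℂ} (x : ℂ) {y y' : ℂ} {ρ : ℝ}
    (h : ball y ρ ⊆ Kᶜ) (hρ : 0 < ρ) (hy' : y' ∈ ball y ρ) :
    HasLog (fun z => (z - x) / (z - y)) K ↔ HasLog (fun z => (z - x) / (z - y')) K := by
  have h1 := ec_move hL (ec_far2 h) hρ (mem_ball_iff_norm.1 hy')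
  have hne : ∀ z ∈ K, z - y ≠ 0 := fun z hz h0 => by
    have := ec_far2 h z hz
    rw [h0, norm_zero] at this
    linarith
  have hne' : ∀ z ∈ K, z - y' ≠ 0 := fun z hz h0 => by
    have h2 : z = y' := sub_eq_zero.1 h0
    exact h (h2 ▸ hy') hz
  constructor
  · intro h2
    refine ec_congr (ec_mul h2 (ec_inv h1)) fun z hz => ?_
    have := hne z hz
    have := hne' z hz
    field_simp
  · intro h2
    refine ec_congr (ec_mul h2 h1) fun z hz => ?_
    have := hne z hz
    have := hne' z hz
    field_simp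

private theorem ec_back (hL : St_LOGB) {K : Set ℂ} (hK : IsCompact K) {x y : ℂ} (hx : x ∉ K)
    (h : y ∈ connectedComponentIn Kᶜ x) : HasLog (fun z => (z - x) / (z - y)) K := by
  have hC : IsPreconnected (connectedComponentIn Kᶜ x) := isPreconnected_connectedComponentIn
  have hsub : connectedComponentIn Kᶜ x ⊆ Kᶜ := connectedComponentIn_subset _ _
  have h1 := isPreconnected_iff_subset_of_disjoint.1 hC
    {y | y ∈ Kᶜ ∧ HasLog (fun z => (z - x) / (z - y)) K}
    {y | y ∈ Kᶜ ∧ ¬ HasLog (fun z => (z - x) / (z - y)) K} ?_ ?_ ?_ ?_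
  · rcases h1 with h1 | h1
    · exact (h1 h).2
    · refine absurd ?_ (h1 (mem_connectedComponentIn hx)).2
      refine ec_congr (ec_const one_ne_zero K) fun z hz => ?_
      have : z - x ≠ 0 := fun h0 => hx (by rw [← sub_eq_zero.1 h0]; exact hz)
      field_simp
  · rw [Metric.isOpen_iff]
    rintro y ⟨hy, hy2⟩
    obtain ⟨ρ, hρ, hb⟩ := ec_far hK hy
    exact ⟨ρ, hρ, fun y' hy' => ⟨hb hy', (ec_open hL x hb hρ hy').1 hy2⟩⟩
  · rw [Metric.isOpen_iff]
    rintro y ⟨hy, hy2⟩
    obtain ⟨ρ, hρ, hb⟩ := ec_far hK hy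
    exact ⟨ρ, hρ, fun y' hy' => ⟨hb hy', fun h3 => hy2 ((ec_open hL x hb hρ hy').2 h3)⟩⟩
  · intro y hy
    by_cases h2 : HasLog (fun z => (z - x) / (z - y)) K
    · exact Or.inl ⟨hsub hy, h2⟩
    · exact Or.inr ⟨hsub hy, h2⟩
  · ext y
    constructor
    · rintro ⟨-, h2, h3⟩
      exact absurd h2.2 h3.2
    · intro h2
      exact absurd h2 (notMem_empty y)

/-- bounded components -/
private theorem ec_bdd (hL : St_LOGB) {K : Set ℂ} (hK : IsCompact K) {x y : ℂ} (hx : x ∉ K)
    (hy : y ∉ K) (hB : Bornology.IsBounded (connectedComponentIn Kᶜ x))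
    (hyV : y ∉ connectedComponentIn Kᶜ x) (h : HasLog (fun z => (z - x) / (z - y)) K) : False := by
  classical
  obtain ⟨L1, L2, -⟩ := hL
  have hKo : IsOpen Kᶜ := hK.isClosed.isOpen_compl
  set V := connectedComponentIn Kᶜ x with hV
  have hVo : IsOpen V := hKo.connectedComponentIn
  have hxV : x ∈ V := mem_connectedComponentIn hx
  have hfr : frontier V ⊆ K := by
    intro p hp
    by_contra hpK
    have h1 : IsOpen (connectedComponentIn Kᶜ p) := hKo.connectedComponentIn
    have h2 : p ∈ connectedComponentIn Kᶜ p := mem_connectedComponentIn hpK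
    have h3 : p ∈ closure V := frontier_subset_closure hp
    obtain ⟨q, hq1, hq2⟩ := mem_closure_iff.1 h3 _ h1 h2
    have h4 := connectedComponentIn_eq hq1
    have h5 := connectedComponentIn_eq hq2
    have h6 : p ∈ V := by
      rw [hV, h5, ← h4]
      exact h2
    rw [hVo.frontier_eq] at hp
    exact hp.2 h6
  obtain ⟨k, hk, hk2⟩ := h
  obtain ⟨H, hH⟩ := ContinuousMap.exists_restrict_eq hK.isClosed
    (⟨K.domRestrict k, continuousOn_iff_continuous_domRestrict.1 hk⟩ : C(K, ℂ))
  have hHk : ∀ z ∈ K, H z = k z := by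
    intro z hz
    have := congrArg (fun g : C(K, ℂ) => g ⟨z, hz⟩) hH
    exact this
  set G : ℂ → ℂ := V.piecewise (fun z => (z - y) * Complex.exp (H z)) (fun z => z - x) with hG
  have hGc : Continuous G := by
    refine Continuous.piecewise ?_ ?_ ?_
    · intro a ha
      have haK := hfr ha
      have h1 : a - y ≠ 0 := fun h0 => hy (by rw [← sub_eq_zero.1 h0]; exact haK)
      show (a - y) * Complex.exp (H a) = a - x
      rw [hHk a haK, hk2 a haK]
      field_simp
    · exact (continuous_id.sub continuous_const).mul (Complex.continuous_exp.comp H.continuous)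
    · exact continuous_id.sub continuous_const
  have hG0 : ∀ z, G z ≠ 0 := by
    intro z
    by_cases hz : z ∈ V
    · rw [hG, piecewise_eq_of_mem _ _ _ hz]
      refine mul_ne_zero (fun h0 => hyV ?_) (Complex.exp_ne_zero _)
      rw [← sub_eq_zero.1 h0]
      exact hz
    · rw [hG, piecewise_eq_of_notMem _ _ _ hz]
      intro h0
      exact hz (by rw [sub_eq_zero.1 h0]; exact hxV)
  obtain ⟨u, hu, hu2⟩ := L2 G hGc hG0
  obtain ⟨r, hr⟩ := hB.subset_ball x
  have hr0 : 0 < r := by
    have := hr hxV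
    exact pos_of_mem_ball this
  refine L1 x r hr0 ⟨u, hu.continuousOn, fun z hz => ?_⟩
  rw [hu2, hG, piecewise_eq_of_notMem]
  intro hzV
  have h1 := hr hzV
  rw [mem_sphere] at hz
  rw [mem_ball] at h1
  linarith

/-- the outside -/
private theorem ec_out {R : ℝ} (hR : 0 < R) : IsPreconnected {z : ℂ | R < ‖z‖} := by
  have h1 : {z : ℂ | R < ‖z‖} = Complex.exp '' {w : ℂ | Real.log R < w.re} := by
    ext z
    constructor
    · intro hz
      have hz' : R < ‖z‖ := hz
      have h0 : z ≠ 0 := by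
        rintro rfl
        rw [norm_zero] at hz'
        linarith
      refine ⟨Complex.log z, ?_, Complex.exp_log h0⟩
      show Real.log R < (Complex.log z).re
      rw [Complex.log_re]
      exact Real.log_lt_log hR hz'
    · rintro ⟨w, hw, rfl⟩
      have hw' : Real.log R < w.re := hw
      show R < ‖Complex.exp w‖
      rw [Complex.norm_exp, ← Real.exp_log hR]
      exact Real.exp_lt_exp.2 hw'
  rw [h1]
  refine IsPreconnected.image ?_ _ Complex.continuous_exp.continuousOn
  exact (convex_halfSpace_re_gt _).isPreconnected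

private theorem ec_unb {K : Set ℂ} {R : ℝ} (hR : 0 < R) (hKR : K ⊆ closedBall 0 R) {x : ℂ}
    (h : ¬ Bornology.IsBounded (connectedComponentIn Kᶜ x)) :
    {z : ℂ | R < ‖z‖} ⊆ connectedComponentIn Kᶜ x := by
  have h1 : ∃ p ∈ connectedComponentIn Kᶜ x, R < ‖p‖ := by
    by_contra hc
    push Not at hc
    refine h ((isBounded_closedBall (x := (0 : ℂ)) (r := R)).subset fun p hp => ?_)
    rw [mem_closedBall_zero_iff]
    exact hc p hp
  obtain ⟨p, hp, hp2⟩ := h1
  rw [connectedComponentIn_eq hp]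
  refine (ec_out hR).subset_connectedComponentIn hp2 fun z hz hzK => ?_
  have h2 := hKR hzK
  rw [mem_closedBall_zero_iff] at h2
  have h3 : R < ‖z‖ := hz
  linarith

private theorem ec_ball {K : Set ℂ} (hK : IsCompact K) : ∃ R : ℝ, 0 < R ∧ K ⊆ closedBall 0 R := by
  obtain ⟨R, hR⟩ := hK.isBounded.subset_closedBall 0
  exact ⟨max R 1, lt_max_of_lt_right one_pos, hR.trans (closedBall_subset_closedBall (le_max_left _ _))⟩

private theorem ec_one (hL : St_LOGB) {K : Set ℂ} (hK : IsCompact K) {x y : ℂ} (hx : x ∉ K)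
    (hy : y ∉ K) :
    HasLog (fun z => (z - x) / (z - y)) K ↔ y ∈ connectedComponentIn Kᶜ x := by
  refine ⟨fun h => ?_, ec_back hL hK hx⟩
  by_contra hyV
  by_cases hB : Bornology.IsBounded (connectedComponentIn Kᶜ x)
  · exact ec_bdd hL hK hx hy hB hyV h
  · obtain ⟨R, hR, hKR⟩ := ec_ball hK
    have h1 := ec_unb hR hKR hB
    have hxV : x ∉ connectedComponentIn Kᶜ y := by
      intro h2
      apply hyV
      rw [← connectedComponentIn_eq h2]
      exact mem_connectedComponentIn hy
    by_cases hB' : Bornology.IsBounded (connectedComponentIn Kᶜ y)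
    · refine ec_bdd hL hK hy hx hB' hxV (ec_congr (ec_inv h) fun z hz => ?_)
      rw [inv_div]
    · have h2 := ec_unb hR hKR hB'
      have h3 : R < ‖((R + 1 : ℝ) : ℂ)‖ := by
        rw [Complex.norm_real, Real.norm_eq_abs, abs_of_pos (by linarith)]
        linarith
      apply hyV
      rw [connectedComponentIn_eq (h1 h3), ← connectedComponentIn_eq (h2 h3)]
      exact mem_connectedComponentIn hy

theorem thm_EC (hL : St_LOGB) : St_EC := by
  refine ⟨fun K hK x y hx hy => ec_one hL hK hx hy, fun K hK x hx => ?_⟩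
  obtain ⟨R, hR, hKR⟩ := ec_ball hK
  set y : ℂ := ((R + 1 : ℝ) : ℂ) with hy
  have hyR : R < ‖y‖ := by
    rw [hy, Complex.norm_real, Real.norm_eq_abs, abs_of_pos (by linarith)]
    linarith
  have hyK : y ∉ K := fun h => by
    have := hKR h
    rw [mem_closedBall_zero_iff] at this
    linarith
  have hy0 : y ≠ 0 := fun h => by
    rw [h, norm_zero] at hyR
    linarith
  have h1 : HasLog (fun z => z - y) K := by
    obtain ⟨-, -, -, -, -, h6⟩ := hL
    refine (h6 (fun z => z - y) (fun _ => -y) K (continuous_id.sub continuous_const).continuousOn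
      continuousOn_const ?_).1 (ec_const (neg_ne_zero.2 hy0) K)
    intro z hz
    have := hKR hz
    rw [mem_closedBall_zero_iff] at this
    rw [norm_neg, sub_neg_eq_add, sub_add_cancel]
    linarith
  have hne : ∀ z ∈ K, z - y ≠ 0 := fun z hz h0 => hyK (by rw [← sub_eq_zero.1 h0]; exact hz)
  have h2 : HasLog (fun z => z - x) K ↔ HasLog (fun z => (z - x) / (z - y)) K := by
    constructor
    · intro h
      exact ec_congr (ec_mul h (ec_inv h1)) fun z hz => by rw [div_eq_mul_inv]
    · intro h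
      exact ec_congr (ec_mul h h1) fun z hz => div_mul_cancel₀ _ (hne z hz)
  rw [h2, ec_one hL hK hx hyK]
  constructor
  · intro h hB
    have h3 : {z : ℂ | R < ‖z‖} ⊆ connectedComponentIn Kᶜ x := by
      rw [connectedComponentIn_eq h]
      refine (ec_out hR).subset_connectedComponentIn hyR fun z hz hzK => ?_
      have h4 := hKR hzK
      rw [mem_closedBall_zero_iff] at h4
      have h5 : R < ‖z‖ := hz
      linarith
    obtain ⟨R', hR'⟩ := hB.subset_closedBall 0
    have h4 : R < ‖((max R R' + 1 : ℝ) : ℂ)‖ := by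
      rw [Complex.norm_real, Real.norm_eq_abs, abs_of_pos (by have := le_max_left R R'; linarith)]
      have := le_max_left R R'
      linarith
    have h5 := hR' (h3 h4)
    rw [mem_closedBall_zero_iff, Complex.norm_real, Real.norm_eq_abs,
      abs_of_pos (by have := le_max_left R R'; linarith)] at h5
    have := le_max_right R R'
    linarith
  · intro h
    exact ec_unb hR hKR h hyR

end Pool.Agent.SRF
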