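import Pool.Agent.SRF.StA

/-!
# SRF, FINZ (helper25): a function with finitely many zeros has a logarithm on a compact set which
does not separate the plane
-/

set_option autoImplicit false

open Set Metric Filter Topology

namespace Pool.Agent.SRF

/-- the retraction onto the closed ball of radius `R` -/
private noncomputable def finz_ρ (R : ℝ) (z : ℂ) : ℂ := ((R / max R ‖z‖ : ℝ) : ℂ) * z

private theorem finz_ρ_cont {R : ℝ} (hR : 0 < R) : Continuous (finz_ρ R) := by
  unfold finz_ρ
  refine Continuous.mul (Complex.continuous_ofReal.comp ?_) continuous_id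
  refine Continuous.div continuous_const (continuous_const.max continuous_norm) ?_
  intro z
  exact (lt_of_lt_of_le hR (le_max_left _ _)).ne'

private theorem finz_ρ_in {R : ℝ} (hR : 0 < R) {z : ℂ} (hz : ‖z‖ ≤ R) : finz_ρ R z = z := by
  unfold finz_ρ
  rw [max_eq_left hz, div_self hR.ne', Complex.ofReal_one, one_mul]

private theorem finz_ρ_norm {R : ℝ} (hR : 0 < R) (z : ℂ) : ‖finz_ρ R z‖ = R / max R ‖z‖ * ‖z‖ := by
  unfold finz_ρ
  rw [norm_mul, Complex.norm_real, Real.norm_of_nonneg]
  exact div_nonneg hR.le (hR.le.trans (le_max_left _ _))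

private theorem finz_ρ_le {R : ℝ} (hR : 0 < R) (z : ℂ) : ‖finz_ρ R z‖ ≤ R := by
  rw [finz_ρ_norm hR]
  have h0 : 0 < max R ‖z‖ := lt_of_lt_of_le hR (le_max_left _ _)
  rw [div_mul_eq_mul_div, div_le_iff₀ h0]
  exact mul_le_mul_of_nonneg_left (le_max_right _ _) hR.le

private theorem finz_ρ_lt {R : ℝ} (hR : 0 < R) {z : ℂ} (hz : ‖finz_ρ R z‖ < R) :
    finz_ρ R z = z := by
  apply finz_ρ_in hR
  by_contra h
  have h1 : R < ‖z‖ := not_le.1 h
  rw [finz_ρ_norm hR, max_eq_right h1.le, div_mul_cancel₀ _ (hR.trans h1).ne'] at hz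
  exact lt_irrefl _ hz

/-- **FINZ.** -/
theorem thm_FINZ (hL : St_LOGB) (hM : St_MOVE) : St_FINZ := by
  intro K hK hKc
  have main : ∀ (Z : Finset ℂ), (∀ z ∈ Z, z ∉ K) → ∀ F : ℂ → ℂ, Continuous F →
      (∀ z, F z = 0 → z ∈ Z) → HasLog F K := by
    intro Z
    induction Z using Finset.induction_on with
    | empty =>
      intro _ F hF hz
      obtain ⟨h, hh, he⟩ := hL.2.1 F hF (fun z h0 => by simpa using hz z h0)
      exact ⟨h, hh.continuousOn, fun z _ => he z⟩
    | insert z₀ Z' hz₀ ih =>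
      intro hZK F hF hz
      have hZK' : ∀ z ∈ Z', z ∉ K := fun z h => hZK z (Finset.mem_insert_of_mem h)
      have hz₀K : z₀ ∉ K := hZK z₀ (Finset.mem_insert_self _ _)
      obtain ⟨R, hR, hsub⟩ := (hK.isBounded.union
        (Z'.finite_toSet.isBounded)).subset_ball_lt 0 (0 : ℂ)
      have hKR : ∀ z ∈ K, ‖z‖ < R := fun z h => by
        have h1 := hsub (Or.inl h)
        rwa [mem_ball_zero_iff] at h1
      have hZR : ∀ z ∈ Z', ‖z‖ < R := fun z h => by
        have h1 := hsub (Or.inr (Finset.mem_coe.2 h))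
        rwa [mem_ball_zero_iff] at h1
      obtain ⟨q, hq⟩ : ∃ q : ℂ, R < ‖q‖ := ⟨((R + 1 : ℝ) : ℂ), by
        rw [Complex.norm_real, Real.norm_of_nonneg (by linarith)]
        linarith⟩
      have hWo : IsOpen (Kᶜ \ (Z' : Set ℂ)) :=
        hK.isClosed.isOpen_compl.sdiff Z'.finite_toSet.isClosed
      have hWc : IsPreconnected (Kᶜ \ (Z' : Set ℂ)) :=
        hM.2 _ hK.isClosed.isOpen_compl hKc _ Z'.finite_toSet
      obtain ⟨χ, hχ, hχq⟩ := hM.1 _ hWo hWc z₀ ⟨hz₀K, fun h => hz₀ (Finset.mem_coe.1 h)⟩ q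
        ⟨fun h => by linarith [hKR q h], fun h => by linarith [hZR q (Finset.mem_coe.1 h)]⟩
      have hχK : ∀ z ∈ K, χ.symm z = z := by
        intro z h
        have h1 := hχ z (fun h2 => h2.1 h)
        conv_lhs => rw [← h1]
        exact χ.symm_apply_apply z
      have hχZ : ∀ z ∈ Z', χ z = z := fun z h => hχ z (fun h2 => h2.2 (Finset.mem_coe.2 h))
      have h2 := ih hZK' (fun z => F (χ.symm (finz_ρ R z)))
        (hF.comp (χ.symm.continuous.comp (finz_ρ_cont hR))) (by
        intro z h0
        have h1 := hz _ h0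
        rcases Finset.mem_insert.1 h1 with h3 | h3
        · exfalso
          have h4 : finz_ρ R z = q := by
            rw [← hχq, ← h3, χ.apply_symm_apply]
          have h5 := finz_ρ_le hR z
          rw [h4] at h5
          linarith
        · have h4 : finz_ρ R z = χ.symm (finz_ρ R z) := by
            have h5 := hχZ _ h3
            rw [χ.apply_symm_apply] at h5
            exact h5
          have h5 : finz_ρ R z ∈ Z' := by
            rw [h4]
            exact h3
          have h6 := finz_ρ_lt hR (hZR _ h5)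
          rw [h6] at h5
          exact h5)
      obtain ⟨h, hh, he⟩ := h2
      refine ⟨h, hh, fun z hz => ?_⟩
      rw [he z hz]
      beta_reduce
      rw [finz_ρ_in hR (hKR z hz).le, hχK z hz]
  intro F hF hfin hz
  refine main hfin.toFinset ?_ F hF ?_
  · intro z hz1 hzK
    rw [Finite.mem_toFinset] at hz1
    exact hz z hzK hz1
  · intro z h0
    rw [Finite.mem_toFinset]
    exact h0

end Pool.Agent.SRF
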