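import Pool.Agent.SRF.StA

set_option autoImplicit false

/-! # SRF, module HLOG: bounded open connected sets with connected complement are log sets -/

open Set Metric Filter Topology

namespace Pool.Agent.SRF

/-- Two continuous logarithms of one function on a preconnected set which agree at a point are
equal. -/
theorem hlog_unique {S : Set ℂ} (hS : IsPreconnected S) {h h' : ℂ → ℂ} (hc : ContinuousOn h S)
    (hc' : ContinuousOn h' S) (he : ∀ z ∈ S, Complex.exp (h z) = Complex.exp (h' z)) {p : ℂ}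
    (hp : p ∈ S) (hh : h p = h' p) : EqOn h h' S := by
  refine Complex.isCoveringMap_exp.eqOn_of_comp_eqOn hS hc hc' (fun z hz => ?_) hp hh
  exact Subtype.ext (he z hz)

/-- Compact subsets of `V` are log sets for functions without zeros on `V`. -/
theorem hlog_compact (h1 : St_BE) {V : Set ℂ} (hb : Bornology.IsBounded V)
    (hV : IsPreconnected Vᶜ) {f : ℂ → ℂ} (hf : ContinuousOn f V) (hf0 : ∀ z ∈ V, f z ≠ 0)
    {C : Set ℂ} (hC : IsCompact C) (hCV : C ⊆ V) : HasLog f C := by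
  obtain ⟨q, hq⟩ : (Vᶜ).Nonempty := by
    by_contra hc
    rw [not_nonempty_iff_eq_empty, compl_empty_iff] at hc
    rw [hc] at hb
    exact NormedSpace.unbounded_univ ℝ ℂ hb
  have hVC : Vᶜ ⊆ Cᶜ := compl_subset_compl.2 hCV
  set U : Set ℂ := connectedComponentIn Cᶜ q with hU
  have hUo : IsOpen U := hC.isClosed.isOpen_compl.connectedComponentIn
  have hVU : Vᶜ ⊆ U := hV.subset_connectedComponentIn hq hVC
  have hUV : Uᶜ ⊆ V := by
    rw [compl_subset_comm]
    exact hVU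
  have hUk : IsCompact Uᶜ :=
    isCompact_of_isClosed_isBounded hUo.isClosed_compl (hb.subset hUV)
  have hL : LogSet Uᶜ := by
    refine h1 Uᶜ hUk ?_
    rw [compl_compl]
    exact isPreconnected_connectedComponentIn
  obtain ⟨h, hh, he⟩ := hL f (hf.mono hUV) (fun z hz => hf0 z (hUV hz))
  have hCU : C ⊆ Uᶜ := by
    rw [subset_compl_comm]
    exact connectedComponentIn_subset _ _
  exact ⟨h, hh.mono hCU, fun z hz => he z (hCU hz)⟩

/-- A normalised logarithm. -/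
theorem hlog_norm {f : ℂ → ℂ} {C : Set ℂ} (h : HasLog f C) {p c : ℂ} (hp : p ∈ C)
    (hc : Complex.exp c = f p) :
    ∃ g : ℂ → ℂ, ContinuousOn g C ∧ (∀ z ∈ C, Complex.exp (g z) = f z) ∧ g p = c := by
  obtain ⟨g, hg, he⟩ := h
  refine ⟨fun z => g z + (c - g p), hg.add continuousOn_const, fun z hz => ?_, ?_⟩
  · have h2 : f p ≠ 0 := by
      rw [← hc]
      exact Complex.exp_ne_zero _
    rw [Complex.exp_add, Complex.exp_sub, he z hz, hc, he p hp, div_self h2, mul_one]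
  · simp only
    ring

theorem thm_HLOG (h1 : St_BE) : St_HLOG := by
  intro V hVo hVc hb hVcc f hf hf0
  rcases V.eq_empty_or_nonempty with rfl | ⟨p, hp⟩
  · exact ⟨fun _ => 0, continuousOn_empty _, fun z hz => absurd hz (notMem_empty z)⟩
  obtain ⟨c, hc⟩ : ∃ c : ℂ, Complex.exp c = f p := ⟨Complex.log (f p), Complex.exp_log (hf0 p hp)⟩
  -- the good sets
  have key : ∀ C : Set ℂ, IsCompact C ∧ IsPreconnected C ∧ p ∈ C ∧ C ⊆ V → ∃ g : ℂ → ℂ,
      ContinuousOn g C ∧ (∀ z ∈ C, Complex.exp (g z) = f z) ∧ g p = c := by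
    rintro C ⟨k1, k2, k3, k4⟩
    exact hlog_norm (hlog_compact h1 hb hVcc hf hf0 k1 k4) k3 hc
  choose! g hgc hge hgp using key
  -- two good sets
  have agree : ∀ C C' : Set ℂ, (IsCompact C ∧ IsPreconnected C ∧ p ∈ C ∧ C ⊆ V) →
      (IsCompact C' ∧ IsPreconnected C' ∧ p ∈ C' ∧ C' ⊆ V) → C ⊆ C' → EqOn (g C) (g C') C := by
    intro C C' k k' hCC
    refine hlog_unique k.2.1 (hgc C k) ((hgc C' k').mono hCC) (fun z hz => ?_) k.2.2.1 ?_
    · rw [hge C k z hz, hge C' k' z (hCC hz)]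
    · rw [hgp C k, hgp C' k']
  have hun : ∀ C C' : Set ℂ, (IsCompact C ∧ IsPreconnected C ∧ p ∈ C ∧ C ⊆ V) →
      (IsCompact C' ∧ IsPreconnected C' ∧ p ∈ C' ∧ C' ⊆ V) →
      (IsCompact (C ∪ C') ∧ IsPreconnected (C ∪ C') ∧ p ∈ C ∪ C' ∧ C ∪ C' ⊆ V) := by
    intro C C' k k'
    exact ⟨k.1.union k'.1, k.2.1.union p k.2.2.1 k'.2.2.1 k'.2.1, Or.inl k.2.2.1,
      union_subset k.2.2.2 k'.2.2.2⟩
  have agree2 : ∀ C C' : Set ℂ, (IsCompact C ∧ IsPreconnected C ∧ p ∈ C ∧ C ⊆ V) →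
      (IsCompact C' ∧ IsPreconnected C' ∧ p ∈ C' ∧ C' ⊆ V) → ∀ z, z ∈ C → z ∈ C' →
      g C z = g C' z := by
    intro C C' k k' z hz hz'
    rw [agree C (C ∪ C') k (hun C C' k k') subset_union_left hz,
      agree C' (C ∪ C') k' (hun C C' k k') subset_union_right hz']
  -- paths
  have hpath : IsPathConnected V := (hVo.isConnected_iff_isPathConnected).1 ⟨⟨p, hp⟩, hVc⟩
  have hex : ∀ z ∈ V, ∃ C : Set ℂ, (IsCompact C ∧ IsPreconnected C ∧ p ∈ C ∧ C ⊆ V) ∧ z ∈ C := by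
    intro z hz
    obtain ⟨γ, hγ⟩ := hpath.joinedIn p hp z hz
    refine ⟨range γ, ⟨isCompact_range γ.continuous, isPreconnected_range γ.continuous,
      ⟨0, γ.source⟩, ?_⟩, ⟨1, γ.target⟩⟩
    rintro _ ⟨t, rfl⟩
    exact hγ t
  choose! Cz hCz hzC using hex
  refine ⟨fun z => g (Cz z) z, fun z hz => ?_, fun z hz => hge (Cz z) (hCz z hz) z (hzC z hz)⟩
  obtain ⟨r, hr, hrV⟩ := nhds_basis_closedBall.mem_iff.1 (hVo.mem_nhds hz)
  have hball : z ∈ closedBall z r := mem_closedBall_self hr.le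
  set C' : Set ℂ := Cz z ∪ closedBall z r with hC'
  have k' : IsCompact C' ∧ IsPreconnected C' ∧ p ∈ C' ∧ C' ⊆ V := by
    refine ⟨(hCz z hz).1.union (isCompact_closedBall z r), ?_, Or.inl (hCz z hz).2.2.1,
      union_subset (hCz z hz).2.2.2 hrV⟩
    exact (hCz z hz).2.1.union z (hzC z hz) hball (convex_closedBall z r).isPreconnected
  have hnb : C' ∈ 𝓝 z := mem_of_superset (closedBall_mem_nhds z hr) subset_union_right
  have hca : ContinuousAt (g C') z := (hgc C' k').continuousAt hnb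
  refine ContinuousAt.continuousWithinAt ?_
  refine hca.congr ?_
  filter_upwards [hnb] with w hw
  exact agree2 C' (Cz w) k' (hCz w (k'.2.2.2 hw)) w hw (hzC w (k'.2.2.2 hw))

end Pool.Agent.SRF
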