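import Pool.Agent.SRF.StA
import Pool.Agent.CT.H1

/-!
# SRF (MP_3b9597_lc): invariance of domain for surfaces
-/

set_option autoImplicit false

open Set Metric Filter Topology

namespace Pool.Agent.SRF

theorem inv_ball {z : ℂ} {r : ℝ} (hr : 0 < r) {F : ℂ → ℂ} (hc : ContinuousOn F (closedBall z r))
    (hi : InjOn F (closedBall z r)) : F z ∈ interior (F '' closedBall z r) := by
  have hm : MapsTo (fun w : ℂ => z + r * w) (closedBall 0 1) (closedBall z r) := by
    intro w hw
    rw [mem_closedBall_zero_iff] at hw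
    rw [mem_closedBall_iff_norm]
    show ‖z + r * w - z‖ ≤ r
    rw [add_sub_cancel_left, norm_mul, Complex.norm_of_nonneg hr.le]
    exact mul_le_of_le_one_right hr.le hw
  have hrc : (r : ℂ) ≠ 0 := by exact_mod_cast hr.ne'
  have hg : ContinuousOn (fun w : ℂ => z + r * w) (closedBall 0 1) :=
    (continuous_const.add (continuous_const.mul continuous_id)).continuousOn
  have h := Pool.Agent.CT.h1 (fun w => F (z + r * w)) (hc.comp hg hm) (by
    intro a ha b hb hab
    have h2 := hi (hm ha) (hm hb) hab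
    have h3 : z + r * a = z + r * b := h2
    exact mul_left_cancel₀ hrc (add_left_cancel h3))
  have h0 : F (z + r * 0) = F z := by simp
  rw [h0] at h
  refine interior_mono ?_ h
  rintro _ ⟨w, hw, rfl⟩
  exact mem_image_of_mem F (hm hw)

theorem inv_one {X : Type} [TopologicalSpace X] (hX : IsSurf X) (U : Set ℂ) (f : ℂ → X)
    (hU : IsOpen U) (hf : ContinuousOn f U) (hi : InjOn f U) : IsOpen (f '' U) := by
  rw [isOpen_iff_mem_nhds]
  rintro _ ⟨z, hz, rfl⟩
  obtain ⟨φ, hφ, hφ0⟩ := hX.chart (f z)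
  have hfz : f z ∈ range φ := ⟨0, hφ0⟩
  have h1 : U ∩ f ⁻¹' range φ ∈ 𝓝 z := by
    refine inter_mem (hU.mem_nhds hz) ?_
    exact (hf.continuousAt (hU.mem_nhds hz)).preimage_mem_nhds (hφ.isOpen_range.mem_nhds hfz)
  obtain ⟨r, hr, hrs⟩ := Metric.nhds_basis_closedBall.mem_iff.1 h1
  let e := hφ.toOpenPartialHomeomorph φ
  have het : e.target = range φ := hφ.toOpenPartialHomeomorph_target
  have hmt : MapsTo f (closedBall z r) e.target := by
    intro w hw
    rw [het]
    exact (hrs hw).2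
  have hc : ContinuousOn (fun w => e.symm (f w)) (closedBall z r) :=
    e.continuousOn_symm.comp (hf.mono fun w hw => (hrs hw).1) hmt
  have hinj : InjOn (fun w => e.symm (f w)) (closedBall z r) := by
    intro a ha b hb hab
    exact hi (hrs ha).1 (hrs hb).1 (e.symm.injOn (hmt ha) (hmt hb) hab)
  have h2 := inv_ball hr hc hinj
  have hright : ∀ w ∈ closedBall z r, φ (e.symm (f w)) = f w := fun w hw =>
    e.right_inv (hmt hw)
  have h3 : IsOpen (φ '' interior ((fun w => e.symm (f w)) '' closedBall z r)) :=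
    hφ.isOpenMap _ isOpen_interior
  refine mem_of_superset (h3.mem_nhds ?_) ?_
  · exact ⟨_, h2, hright z (mem_closedBall_self hr.le)⟩
  · rintro _ ⟨v, hv, rfl⟩
    obtain ⟨w, hw, rfl⟩ := interior_subset hv
    refine ⟨w, (hrs hw).1, (hright w hw).symm⟩

theorem thm_INV : St_INV := by
  intro X _ hX
  refine ⟨inv_one hX, ?_⟩
  intro Y _ hY f hf hi
  refine IsOpenEmbedding.of_continuous_injective_isOpenMap hf hi ?_
  intro V hV
  rw [isOpen_iff_mem_nhds]
  rintro _ ⟨y, hy, rfl⟩
  obtain ⟨ψ, hψ, hψ0⟩ := hY.chart y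
  have h1 := inv_one hX (ψ ⁻¹' V) (f ∘ ψ) (hV.preimage hψ.continuous)
    (hf.comp hψ.continuous).continuousOn (hi.comp hψ.injective).injOn
  refine mem_of_superset (h1.mem_nhds ?_) ?_
  · refine ⟨0, ?_, ?_⟩
    · show ψ 0 ∈ V
      rw [hψ0]
      exact hy
    · show f (ψ 0) = f y
      rw [hψ0]
  · rintro _ ⟨w, hw, rfl⟩
    exact ⟨ψ w, hw, rfl⟩

end Pool.Agent.SRF
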