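import Pool.Agent.SRF.StA

set_option autoImplicit false

/-! # SRF: module JAN (Janiszewski's theorem and consequences) -/

open Set Metric Filter Topology

namespace Pool.Agent.SRF

private theorem jan_ext {R : ℝ} (hR : 0 < R) : IsPreconnected {z : ℂ | R < ‖z‖} := by
  have h1 : {z : ℂ | R < ‖z‖} = Complex.exp '' {w : ℂ | Real.log R < w.re} := by
    ext z
    constructor
    · intro hz
      have hz' : R < ‖z‖ := hz
      have hz0 : z ≠ 0 := by
        intro h
        rw [h, norm_zero] at hz'
        linarith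
      refine ⟨Complex.log z, ?_, Complex.exp_log hz0⟩
      change Real.log R < (Complex.log z).re
      rw [Complex.log_re]
      exact Real.log_lt_log hR hz'
    · rintro ⟨w, hw, rfl⟩
      change R < ‖Complex.exp w‖
      have hw' : Real.log R < w.re := hw
      rw [Complex.norm_exp, ← Real.exp_log hR]
      exact Real.exp_lt_exp.2 hw'
  rw [h1]
  exact (convex_halfSpace_re_gt (Real.log R)).isPreconnected.image _
    Complex.continuous_exp.continuousOn

private theorem jan_circ {c p : ℂ} {r : ℝ} (hr : 0 < r) (hp : p ∈ sphere c r) :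
    IsPreconnected (sphere c r \ {p}) := by
  have hpc : ‖p - c‖ = r := by rwa [mem_sphere_iff_norm] at hp
  have hpc0 : p - c ≠ 0 := by
    intro h
    rw [h, norm_zero] at hpc
    linarith
  have h1 : sphere c r \ {p} =
      (fun t : ℝ => c + (p - c) * Complex.exp (t * Complex.I)) '' Ioo 0 (2 * Real.pi) := by
    ext z
    constructor
    · rintro ⟨hz, hzp⟩
      rw [mem_sphere_iff_norm] at hz
      have hw : ‖(z - c) / (p - c)‖ = 1 := by
        rw [norm_div, hz, hpc, div_self hr.ne']
      have hw1 : (z - c) / (p - c) ≠ 1 := by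
        intro h
        rw [div_eq_one_iff_eq hpc0] at h
        exact hzp (sub_left_injective h)
      have hexp : Complex.exp ((Complex.arg ((z - c) / (p - c)) : ℂ) * Complex.I) =
          (z - c) / (p - c) := by
        have h2 := Complex.norm_mul_exp_arg_mul_I ((z - c) / (p - c))
        rwa [hw, Complex.ofReal_one, one_mul] at h2
      have hfin : ∀ t : ℝ, Complex.exp ((t : ℂ) * Complex.I) = (z - c) / (p - c) →
          c + (p - c) * Complex.exp (t * Complex.I) = z := by
        intro t ht
        rw [ht, mul_div_cancel₀ _ hpc0]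
        ring
      have hle := Complex.arg_le_pi ((z - c) / (p - c))
      have hgt := Complex.neg_pi_lt_arg ((z - c) / (p - c))
      have hpi := Real.pi_pos
      rcases lt_trichotomy (Complex.arg ((z - c) / (p - c))) 0 with h | h | h
      · refine ⟨Complex.arg ((z - c) / (p - c)) + 2 * Real.pi, ⟨by linarith, by linarith⟩, ?_⟩
        apply hfin
        push_cast
        rw [add_mul, Complex.exp_add, Complex.exp_two_pi_mul_I, mul_one]
        exact hexp
      · exfalso
        rw [h, Complex.ofReal_zero, zero_mul, Complex.exp_zero] at hexp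
        exact hw1 hexp.symm
      · exact ⟨Complex.arg ((z - c) / (p - c)), ⟨h, by linarith⟩, hfin _ hexp⟩
    · rintro ⟨t, ⟨ht0, ht1⟩, rfl⟩
      constructor
      · rw [mem_sphere_iff_norm]
        have h2 : c + (p - c) * Complex.exp (t * Complex.I) - c =
            (p - c) * Complex.exp (t * Complex.I) := by ring
        rw [h2, norm_mul, Complex.norm_exp_ofReal_mul_I, mul_one, hpc]
      · intro h
        have h' : c + (p - c) * Complex.exp (t * Complex.I) = p := h
        have h2 : (p - c) * Complex.exp (t * Complex.I) = (p - c) * 1 := by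
          rw [mul_one]
          linear_combination h'
        have h3 := mul_left_cancel₀ hpc0 h2
        rw [Complex.exp_eq_one_iff] at h3
        obtain ⟨n, hn⟩ := h3
        have h4 : (t : ℂ) = (n : ℂ) * (2 * Real.pi) := by
          have h5 : (t : ℂ) * Complex.I = ((n : ℂ) * (2 * Real.pi)) * Complex.I := by
            rw [hn]
            ring
          exact mul_right_cancel₀ Complex.I_ne_zero h5
        have h6 : t = (n : ℝ) * (2 * Real.pi) := by exact_mod_cast h4
        have hpi := Real.pi_pos
        have h7 : (0 : ℝ) < n := by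
          by_contra h8
          rw [not_lt] at h8
          nlinarith
        have h8 : (n : ℝ) < 1 := by
          by_contra h9
          rw [not_lt] at h9
          nlinarith
        have h9 : (0 : ℤ) < n := by exact_mod_cast h7
        have h10 : n < (1 : ℤ) := by exact_mod_cast h8
        omega
  rw [h1]
  refine isPreconnected_Ioo.image _ ?_
  exact (by fun_prop : Continuous fun t : ℝ =>
    c + (p - c) * Complex.exp (t * Complex.I)).continuousOn

private theorem jan_sph {c : ℂ} {r : ℝ} (hr : 0 < r) : IsPreconnected (sphere c r) := by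
  have h1 : IsConnected (sphere c r) := isConnected_sphere (by
    rw [Complex.rank_real_complex]
    exact Cardinal.one_lt_two) c hr.le
  exact h1.isPreconnected

/-- Janiszewski's theorem and consequences -/
theorem thm_JAN (hL : St_LOGB) (hE : St_EC) : St_JAN := by
  obtain ⟨L1, L2, L3, L4, L5, L6⟩ := hL
  obtain ⟨E1, E2⟩ := hE
  refine ⟨?_, ?_, ?_, ?_⟩
  · intro K L hK hLc hKL x y hx hy hyK hyL
    have hxK : x ∉ K := fun h => hx (Or.inl h)
    have hxL : x ∉ L := fun h => hx (Or.inr h)
    have hyK' : y ∉ K := fun h => hy (Or.inl h)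
    have hyL' : y ∉ L := fun h => hy (Or.inr h)
    have h1 := (E1 K hK x y hxK hyK').2 hyK
    have h2 := (E1 L hLc x y hxL hyL').2 hyL
    exact (E1 (K ∪ L) (hK.union hLc) x y hx hy).1
      (L5 _ K L hK.isClosed hLc.isClosed hKL h1 h2)
  · intro K hK hlog
    obtain ⟨R₀, hR₀⟩ := hK.isBounded.subset_closedBall (0 : ℂ)
    obtain ⟨R, hR, hRR⟩ : ∃ R : ℝ, 0 < R ∧ R₀ ≤ R := ⟨max R₀ 1, by positivity, le_max_left _ _⟩
    have hKR : K ⊆ closedBall (0 : ℂ) R := hR₀.trans (closedBall_subset_closedBall hRR)
    have hext : {z : ℂ | R < ‖z‖} ⊆ Kᶜ := by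
      intro z hz hzK
      have h1 := hKR hzK
      rw [mem_closedBall_zero_iff] at h1
      have h2 : R < ‖z‖ := hz
      linarith
    have hw : ((R + 1 : ℝ) : ℂ) ∈ {z : ℂ | R < ‖z‖} := by
      change R < ‖((R + 1 : ℝ) : ℂ)‖
      rw [Complex.norm_real, Real.norm_of_nonneg (by linarith)]
      linarith
    have hcomp : ∀ x ∈ Kᶜ, connectedComponentIn Kᶜ x =
        connectedComponentIn Kᶜ ((R + 1 : ℝ) : ℂ) := by
      intro x hx
      have h1 : HasLog (fun z => z - x) K := by
        apply hlog
        · fun_prop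
        · intro z hz h
          rw [sub_eq_zero] at h
          rw [h] at hz
          exact hx hz
      have h2 := (E2 K hK x hx).1 h1
      have h3 : ¬ connectedComponentIn Kᶜ x ⊆ closedBall (0 : ℂ) R := fun h =>
        h2 (isBounded_closedBall.subset h)
      rw [not_subset] at h3
      obtain ⟨z, hz, hzR⟩ := h3
      rw [mem_closedBall_zero_iff, not_le] at hzR
      rw [connectedComponentIn_eq hz]
      have h4 : {z : ℂ | R < ‖z‖} ⊆ connectedComponentIn Kᶜ z :=
        (jan_ext hR).subset_connectedComponentIn hzR hext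
      exact connectedComponentIn_eq (h4 hw)
    refine ⟨⟨_, hext hw⟩, ?_⟩
    have hall : Kᶜ = connectedComponentIn Kᶜ ((R + 1 : ℝ) : ℂ) := by
      apply Subset.antisymm
      · intro x hx
        rw [← hcomp x hx]
        exact mem_connectedComponentIn hx
      · exact connectedComponentIn_subset _ _
    rw [hall]
    exact isPreconnected_connectedComponentIn
  · intro K L hK hLc hKL hlK hlL f hf hf0
    exact L5 f K L hK hLc hKL (hlK f (hf.mono subset_union_left) fun z hz => hf0 z (Or.inl hz))
      (hlL f (hf.mono subset_union_right) fun z hz => hf0 z (Or.inr hz))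
  · intro α hα
    obtain ⟨hαc, hαi⟩ := hα
    by_contra hne
    rw [← ne_eq, ← nonempty_iff_ne_empty] at hne
    obtain ⟨c, hc⟩ := hne
    rw [mem_interior_iff_mem_nhds, Metric.mem_nhds_iff] at hc
    obtain ⟨ρ, hρ, hball⟩ := hc
    have hr : 0 < ρ / 2 := by positivity
    have hS : sphere c (ρ / 2) ⊆ α '' Icc 0 1 := by
      intro z hz
      apply hball
      rw [mem_sphere] at hz
      rw [mem_ball, hz]
      linarith
    let g : Icc (0 : ℝ) 1 → ℂ := fun t => α t
    have hgc : Continuous g := continuousOn_iff_continuous_domRestrict.1 hαc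
    have hgi : Function.Injective g := fun s t h => Subtype.ext (hαi s.2 t.2 h)
    have hge : IsClosedEmbedding g := hgc.isClosedEmbedding hgi
    have himg : ∀ A : Set ℂ, A ⊆ sphere c (ρ / 2) → g '' (g ⁻¹' A) = A := by
      intro A hA
      rw [image_preimage_eq_iff]
      intro z hz
      obtain ⟨t, ht, rfl⟩ := hS (hA hz)
      exact ⟨⟨t, ht⟩, rfl⟩
    have hpre : ∀ A : Set ℂ, A ⊆ sphere c (ρ / 2) → IsPreconnected A →
        (g ⁻¹' A).OrdConnected := by
      intro A hA hAc
      apply IsPreconnected.ordConnected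
      rw [← hge.isInducing.isPreconnected_image, himg A hA]
      exact hAc
    have hT := hpre _ Subset.rfl (jan_sph hr)
    have hp1 : c + ((ρ / 2 : ℝ) : ℂ) ∈ sphere c (ρ / 2) := by
      rw [mem_sphere_iff_norm, add_sub_cancel_left, Complex.norm_real, Real.norm_of_nonneg hr.le]
    have hp2 : c - ((ρ / 2 : ℝ) : ℂ) ∈ sphere c (ρ / 2) := by
      rw [mem_sphere_iff_norm, sub_sub_cancel_left, norm_neg, Complex.norm_real,
        Real.norm_of_nonneg hr.le]
    obtain ⟨t1, ht1, e1⟩ := hS hp1
    obtain ⟨t2, ht2, e2⟩ := hS hp2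
    have hne' : (⟨t1, ht1⟩ : Icc (0 : ℝ) 1) ≠ ⟨t2, ht2⟩ := by
      intro h
      have h1 : t1 = t2 := congrArg Subtype.val h
      rw [h1, e2] at e1
      have h2 : ((ρ / 2 : ℝ) : ℂ) = 0 := by linear_combination (-1 / 2 : ℂ) * e1
      rw [Complex.ofReal_eq_zero] at h2
      linarith
    have key : ∀ u v : Icc (0 : ℝ) 1, u < v → g u ∈ sphere c (ρ / 2) →
        g v ∈ sphere c (ρ / 2) → False := by
      intro u v huv hu hv
      obtain ⟨m, hm1, hm2⟩ := exists_between huv
      have hm : g m ∈ sphere c (ρ / 2) := hT.out hu hv ⟨hm1.le, hm2.le⟩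
      have h3 := hpre _ sdiff_subset (jan_circ hr hm)
      have h4 : m ∈ g ⁻¹' (sphere c (ρ / 2) \ {g m}) :=
        h3.out ⟨hu, fun h => hm1.ne (hgi h)⟩ ⟨hv, fun h => hm2.ne' (hgi h)⟩ ⟨hm1.le, hm2.le⟩
      exact h4.2 rfl
    rcases lt_or_gt_of_ne hne' with h | h
    · exact key _ _ h (by change α t1 ∈ _; rw [e1]; exact hp1) (by change α t2 ∈ _; rw [e2]; exact hp2)
    · exact key _ _ h (by change α t2 ∈ _; rw [e2]; exact hp2) (by change α t1 ∈ _; rw [e1]; exact hp1)

end Pool.Agent.SRF
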