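import Pool.Agent.SRF.StA

/-!
# SRF, module JD: the closure of a bounded component is a closed disc
-/

set_option autoImplicit false

open Set Metric Filter Topology

namespace Pool.Agent.SRF

theorem jd_conn_UC : IsConnected UC :=
  isConnected_sphere (by rw [Complex.rank_real_complex]; norm_num) 0 zero_le_one

theorem jd_conn {γ : ℂ → ℂ} (hγ : IsJordan γ) : IsConnected (γ '' UC) :=
  jd_conn_UC.image γ hγ.1

theorem jd_closed {γ : ℂ → ℂ} (hγ : IsJordan γ) : IsClosed (γ '' UC) :=
  ((isCompact_sphere (0 : ℂ) 1).image_of_continuousOn hγ.1).isClosed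

theorem jd_compl (hJSEP : St_JSEP) {γ : ℂ → ℂ} (hγ : IsJordan γ) (x : ℂ) :
    IsPreconnected (connectedComponentIn (γ '' UC)ᶜ x)ᶜ := by
  obtain ⟨j0, hj0⟩ := (jd_conn hγ).nonempty
  have hJ : γ '' UC ⊆ (connectedComponentIn (γ '' UC)ᶜ x)ᶜ := by
    intro z hz hz'
    exact connectedComponentIn_subset _ _ hz' hz
  refine isPreconnected_of_forall j0 fun y hy => ?_
  by_cases hyJ : y ∈ γ '' UC
  · exact ⟨γ '' UC, hJ, hj0, hyJ, (jd_conn hγ).isPreconnected⟩
  · have hfr := (hJSEP γ hγ).2.1 y hyJ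
    have hyc : y ∈ connectedComponentIn (γ '' UC)ᶜ y := mem_connectedComponentIn hyJ
    refine ⟨connectedComponentIn (γ '' UC)ᶜ y ∪ γ '' UC, ?_, Or.inr hj0, Or.inl hyc, ?_⟩
    · refine union_subset (fun z hz hz' => hy ?_) hJ
      rw [connectedComponentIn_eq hz', ← connectedComponentIn_eq hz]
      exact hyc
    · have h1 : IsPreconnected (connectedComponentIn (γ '' UC)ᶜ y) :=
        isPreconnected_connectedComponentIn
      refine h1.subset_closure subset_union_left (union_subset subset_closure ?_)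
      have h2 := frontier_subset_closure (s := connectedComponentIn (γ '' UC)ᶜ y)
      rwa [hfr] at h2

theorem thm_JD (hJSEP : St_JSEP) (hHLOG : St_HLOG) (hRMTV : St_RMTV) (hCARC : St_CARC)
    (hCARI : St_CARI) : St_JD := by
  intro γ hγ x hx hb
  set J : Set ℂ := γ '' UC with hJ
  set V : Set ℂ := connectedComponentIn Jᶜ x with hV
  have hVo : IsOpen V := (jd_closed hγ).isOpen_compl.connectedComponentIn
  have hxV : x ∈ V := mem_connectedComponentIn hx
  have hVc : IsConnected V := ⟨⟨x, hxV⟩, isPreconnected_connectedComponentIn⟩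
  have hlog : LogSet V := hHLOG V hVo hVc.isPreconnected hb (jd_compl hJSEP hγ x)
  obtain ⟨f, hf, hfi, hfV, hf0⟩ := hRMTV V hVo hVc hb hlog x hxV
  obtain ⟨F, hF, hFf, hFJ⟩ := hCARC γ hγ x hx hb f hf hfi hfV
  have hFV : F '' OD = V := by
    rw [hFf.image_eq, hfV]
  have hd : Disjoint (F '' OD) (γ '' UC) := by
    rw [hFV, disjoint_left]
    intro z hz hz'
    exact connectedComponentIn_subset _ _ hz hz'
  have hFi : InjOn F OD := fun a ha b hb h => hfi ha hb (by rw [← hFf ha, ← hFf hb, h])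
  have hFU : InjOn F UC := hCARI γ hγ F hF (hf.congr hFf) hFi hd hFJ
  refine ⟨F, hF, ?_, hFV, hFJ, ?_⟩
  · intro a ha b hb h
    have hc : ∀ z ∈ CD, z ∈ OD ∨ z ∈ UC := fun z hz => by
      have h1 : z ∈ ball (0 : ℂ) 1 ∪ sphere 0 1 := by
        rw [ball_union_sphere]
        exact hz
      exact h1
    replace ha := hc a ha
    replace hb := hc b hb
    rcases ha with ha | ha <;> rcases hb with hb | hb
    · exact hFi ha hb h
    · exfalso
      refine disjoint_left.1 hd ⟨a, ha, rfl⟩ ?_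
      rw [h, ← hFJ]
      exact ⟨b, hb, rfl⟩
    · exfalso
      refine disjoint_left.1 hd ⟨b, hb, rfl⟩ ?_
      rw [← h, ← hFJ]
      exact ⟨a, ha, rfl⟩
    · exact hFU ha hb h
  · rw [hFf (mem_ball_self one_pos), hf0]

end Pool.Agent.SRF
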