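import Pool.Agent.SRF.StA

set_option autoImplicit false

/-! # SRF, JSEP: a Jordan curve separates the plane and is the frontier of every component -/

open Set Metric Filter Topology

namespace Pool.Agent.SRF

/-- the inverse of an injective continuous map on a compact set is continuous -/
private theorem jsep_inv (K : Set ℂ) (hK : IsCompact K) (f : ℂ → ℂ) (hf : ContinuousOn f K)
    (hi : InjOn f K) : ContinuousOn (Function.invFunOn f K) (f '' K) := by
  rw [continuousOn_iff_isClosed]
  intro t ht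
  have hc : IsCompact (K ∩ t) := hK.inter_right ht
  refine ⟨f '' (K ∩ t), (hc.image_of_continuousOn (hf.mono inter_subset_left)).isClosed, ?_⟩
  ext w
  constructor
  · rintro ⟨hw, ⟨z, hz, rfl⟩⟩
    have h1 : Function.invFunOn f K (f z) = z := hi.leftInvOn_invFunOn hz
    have h2 : z ∈ t := by
      have h3 : Function.invFunOn f K (f z) ∈ t := hw
      rwa [h1] at h3
    exact ⟨⟨z, ⟨hz, h2⟩, rfl⟩, ⟨z, hz, rfl⟩⟩
  · rintro ⟨⟨z, ⟨hz, hzt⟩, rfl⟩, -⟩
    have h1 : Function.invFunOn f K (f z) = z := hi.leftInvOn_invFunOn hz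
    refine ⟨?_, ⟨z, hz, rfl⟩⟩
    rw [mem_preimage, h1]
    exact hzt

private theorem jsep_norm (t : ℝ) : ‖cexpi t‖ = 1 := Complex.norm_exp_ofReal_mul_I t

private theorem jsep_mem (ζ : ℂ) (hζ : ζ ∈ UC) (t : ℝ) : ζ * cexpi t ∈ UC := by
  rw [mem_sphere_zero_iff_norm] at hζ ⊢
  rw [norm_mul, hζ, jsep_norm, mul_one]

private theorem jsep_cont : Continuous cexpi := by
  unfold cexpi
  fun_prop

private theorem jsep_inj (s t : ℝ) (h : cexpi s = cexpi t) (hst : |s - t| < 2 * Real.pi) :
    s = t := by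
  unfold cexpi at h
  rw [Complex.exp_eq_exp_iff_exists_int] at h
  obtain ⟨n, hn⟩ := h
  have h1 : (s : ℂ) = t + n * (2 * Real.pi) := by
    have hI := Complex.I_ne_zero
    apply mul_right_cancel₀ hI
    rw [hn]
    ring
  have h2 : s = t + n * (2 * Real.pi) := by exact_mod_cast h1
  have hpi := Real.pi_pos
  have h3 : |(n : ℝ)| * (2 * Real.pi) < 1 * (2 * Real.pi) := by
    have h4 : s - t = n * (2 * Real.pi) := by linarith
    rw [h4, abs_mul, abs_of_pos (by positivity : (0 : ℝ) < 2 * Real.pi)] at hst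
    linarith
  have h5 : |(n : ℝ)| < 1 := lt_of_mul_lt_mul_right h3 (by positivity)
  have h6 : n = 0 := by
    rw [← Int.cast_abs] at h5
    have h7 : |n| < 1 := by exact_mod_cast h5
    exact Int.abs_lt_one_iff.1 h7
  rw [h6] at h2
  simpa using h2

private theorem jsep_surj (w : ℂ) (hw : w ∈ UC) : ∃ t : ℝ, 0 ≤ t ∧ t < 2 * Real.pi ∧ cexpi t = w := by
  rw [mem_sphere_zero_iff_norm] at hw
  have h1 : Complex.exp (Complex.arg w * Complex.I) = w := by
    have h2 := Complex.norm_mul_exp_arg_mul_I w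
    rw [hw] at h2
    simpa using h2
  have hpi := Real.pi_pos
  rcases le_or_gt 0 (Complex.arg w) with h | h
  · exact ⟨Complex.arg w, h, by linarith [Complex.arg_le_pi w], h1⟩
  · refine ⟨Complex.arg w + 2 * Real.pi, by linarith [Complex.neg_pi_lt_arg w], by linarith, ?_⟩
    unfold cexpi
    have h3 : ((Complex.arg w + 2 * Real.pi : ℝ) : ℂ) * Complex.I =
        Complex.arg w * Complex.I + 2 * Real.pi * Complex.I := by
      push_cast
      ring
    rw [h3, Complex.exp_add, Complex.exp_two_pi_mul_I, mul_one, h1]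

private theorem jsep_per (t : ℝ) : cexpi (t - 2 * Real.pi) = cexpi t := by
  unfold cexpi
  have h3 : ((t - 2 * Real.pi : ℝ) : ℂ) * Complex.I =
      t * Complex.I - 2 * Real.pi * Complex.I := by
    push_cast
    ring
  rw [h3, Complex.exp_sub, Complex.exp_two_pi_mul_I, div_one]

/-- the outside of a ball is preconnected -/
private theorem jsep_out (R : ℝ) (hR : 0 ≤ R) : IsPreconnected {z : ℂ | R < ‖z‖} := by
  have h1 : IsPreconnected (Ioi R ×ˢ (sphere (0 : ℂ) 1)) := by
    apply IsPreconnected.prod isPreconnected_Ioi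
    apply isPreconnected_sphere
    rw [Complex.rank_real_complex]
    norm_num
  have h2 : {z : ℂ | R < ‖z‖} = (fun q : ℝ × ℂ => (q.1 : ℂ) * q.2) '' (Ioi R ×ˢ (sphere (0 : ℂ) 1)) := by
    ext z
    constructor
    · intro hz
      have hz' : R < ‖z‖ := hz
      have h0 : 0 < ‖z‖ := lt_of_le_of_lt hR hz'
      have hz0 : (‖z‖ : ℂ) ≠ 0 := by exact_mod_cast h0.ne'
      refine ⟨(‖z‖, z / ‖z‖), ⟨hz', ?_⟩, ?_⟩
      · rw [mem_sphere_zero_iff_norm]
        simp only
        rw [norm_div, Complex.norm_real, norm_norm, div_self h0.ne']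
      · simp only
        field_simp
    · rintro ⟨⟨r, w⟩, ⟨hr, hw⟩, rfl⟩
      rw [mem_sphere_zero_iff_norm] at hw
      simp only at hr hw
      change R < ‖(r : ℂ) * w‖
      rw [norm_mul, hw, mul_one, Complex.norm_real, Real.norm_eq_abs]
      exact lt_of_lt_of_le hr (le_abs_self r)
  rw [h2]
  apply h1.image
  fun_prop

/-- **JSEP.** -/
theorem thm_JSEP (hLOGB : St_LOGB) (hBE : St_BE) (hJAN : St_JAN) : St_JSEP := by
  obtain ⟨hlog1, -, -, hlog4, -, -⟩ := hLOGB
  obtain ⟨-, hjan2, -, -⟩ := hJAN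
  intro γ hγ
  have hUCc : IsCompact UC := isCompact_sphere 0 1
  have hJc : IsCompact (γ '' UC) := hUCc.image_of_continuousOn hγ.1
  have hJo : IsOpen (γ '' UC)ᶜ := hJc.isClosed.isOpen_compl
  -- part 1
  have part1 : ¬ IsPreconnected (γ '' UC)ᶜ := by
    intro hpre
    have hLS := hBE _ hJc hpre
    have hginv : ∀ z ∈ UC, Function.invFunOn γ UC (γ z) = z := fun z hz =>
      hγ.2.leftInvOn_invFunOn hz
    obtain ⟨h, hh, hexp⟩ := hLS (Function.invFunOn γ UC) (jsep_inv UC hUCc γ hγ.1 hγ.2) (by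
      rintro _ ⟨z, hz, rfl⟩
      rw [hginv z hz]
      intro h0
      rw [h0, mem_sphere_zero_iff_norm, norm_zero] at hz
      exact zero_ne_one hz)
    apply hlog1 0 1 one_pos
    refine ⟨h ∘ γ, hh.comp hγ.1 (fun z hz => ⟨z, hz, rfl⟩), ?_⟩
    intro z hz
    rw [Function.comp_apply, hexp (γ z) ⟨z, hz, rfl⟩, hginv z hz]
    exact (sub_zero z).symm
  refine ⟨part1, ?_, ?_⟩
  · -- part 2
    intro x hx
    obtain ⟨V, hV⟩ : ∃ V, V = connectedComponentIn (γ '' UC)ᶜ x := ⟨_, rfl⟩
    have hVo : IsOpen V := by rw [hV]; exact hJo.connectedComponentIn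
    have hVJ : V ⊆ (γ '' UC)ᶜ := by rw [hV]; exact connectedComponentIn_subset _ _
    have hxV : x ∈ V := by rw [hV]; exact mem_connectedComponentIn hx
    rw [← hV]
    have hfr : frontier V ⊆ γ '' UC := by
      intro y hy
      by_contra hyJ
      have hyo : IsOpen (connectedComponentIn (γ '' UC)ᶜ y) := hJo.connectedComponentIn
      have hyy : y ∈ connectedComponentIn (γ '' UC)ᶜ y := mem_connectedComponentIn hyJ
      have hycl : y ∈ closure V := frontier_subset_closure hy
      obtain ⟨z, hz1, hz2⟩ := mem_closure_iff.1 hycl _ hyo hyy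
      have e1 : connectedComponentIn (γ '' UC)ᶜ y = connectedComponentIn (γ '' UC)ᶜ z :=
        connectedComponentIn_eq hz1
      have e2 : connectedComponentIn (γ '' UC)ᶜ x = connectedComponentIn (γ '' UC)ᶜ z := by
        rw [hV] at hz2
        exact connectedComponentIn_eq hz2
      have hyV : y ∈ V := by
        rw [hV, e2, ← e1]
        exact hyy
      rw [hVo.frontier_eq] at hy
      exact hy.2 hyV
    apply Subset.antisymm hfr
    rintro _ ⟨ζ, hζ, rfl⟩
    by_contra hcon
    have hζn : ‖ζ‖ = 1 := mem_sphere_zero_iff_norm.1 hζ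
    have hζ0 : ζ ≠ 0 := by
      rw [← norm_ne_zero_iff, hζn]
      exact one_ne_zero
    have hpi := Real.pi_gt_three
    -- the path
    have hc : Continuous fun t : ℝ => γ (ζ * cexpi t) := by
      apply hγ.1.comp_continuous
      · exact continuous_const.mul jsep_cont
      · intro t
        exact jsep_mem ζ hζ t
    have hc0 : γ (ζ * cexpi 0) = γ ζ := by
      unfold cexpi
      simp
    have hopen : IsOpen ((fun t : ℝ => γ (ζ * cexpi t)) ⁻¹' (frontier V)ᶜ) :=
      isClosed_frontier.isOpen_compl.preimage hc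
    have hmem0 : (0 : ℝ) ∈ (fun t : ℝ => γ (ζ * cexpi t)) ⁻¹' (frontier V)ᶜ := by
      rw [mem_preimage, mem_compl_iff, hc0]
      exact hcon
    obtain ⟨ε₀, hε₀, hball⟩ := Metric.isOpen_iff.1 hopen 0 hmem0
    obtain ⟨ε, hε, hε1, hεε⟩ : ∃ ε : ℝ, 0 < ε ∧ ε ≤ 1 ∧ ε ≤ ε₀ :=
      ⟨min ε₀ 1, lt_min hε₀ one_pos, min_le_right _ _, min_le_left _ _⟩
    have hnot : ∀ t : ℝ, |t| < ε → γ (ζ * cexpi t) ∉ frontier V := by
      intro t ht
      have h1 : t ∈ ball (0 : ℝ) ε₀ := by
        rw [mem_ball, Real.dist_eq, sub_zero]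
        linarith
      exact hball h1
    -- the complementary arc
    obtain ⟨α, hα⟩ : ∃ α : ℝ → ℂ, ∀ s, α s = γ (ζ * cexpi (ε + s * (2 * Real.pi - 2 * ε))) :=
      ⟨_, fun s => rfl⟩
    have hlen : 0 < 2 * Real.pi - 2 * ε := by linarith
    have hαarc : IsArc α := by
      constructor
      · have h1 : Continuous α := by
          have h2 : α = (fun t : ℝ => γ (ζ * cexpi t)) ∘
              (fun s : ℝ => ε + s * (2 * Real.pi - 2 * ε)) := by
            funext s
            exact hα s
          rw [h2]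
          exact hc.comp (by fun_prop)
        exact h1.continuousOn
      · intro s hs t ht hst
        rw [hα, hα] at hst
        have h1 := hγ.2 (jsep_mem ζ hζ _) (jsep_mem ζ hζ _) hst
        have h2 := mul_left_cancel₀ hζ0 h1
        have h3 := jsep_inj _ _ h2 (by
          have e1 : ε + s * (2 * Real.pi - 2 * ε) - (ε + t * (2 * Real.pi - 2 * ε)) =
              (s - t) * (2 * Real.pi - 2 * ε) := by ring
          rw [e1, abs_mul, abs_of_pos hlen]
          have h4 : |s - t| ≤ 1 := by
            rw [abs_le]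
            constructor <;> linarith [hs.1, hs.2, ht.1, ht.2]
          nlinarith [abs_nonneg (s - t)])
        have h4 : s * (2 * Real.pi - 2 * ε) = t * (2 * Real.pi - 2 * ε) := by linarith
        exact mul_right_cancel₀ hlen.ne' h4
    have hαJ : α '' Icc 0 1 ⊆ γ '' UC := by
      rintro _ ⟨s, -, rfl⟩
      rw [hα]
      exact ⟨_, jsep_mem ζ hζ _, rfl⟩
    have hfrA : frontier V ⊆ α '' Icc 0 1 := by
      intro y hy
      obtain ⟨w, hw, rfl⟩ := hfr hy
      have hwζ : w / ζ ∈ UC := by
        rw [mem_sphere_zero_iff_norm] at hw ⊢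
        rw [norm_div, hw, hζn, div_one]
      obtain ⟨t, ht0, ht1, ht⟩ := jsep_surj _ hwζ
      have hwt : w = ζ * cexpi t := by
        rw [ht]
        field_simp
      rw [hwt] at hy ⊢
      have h1 : ε ≤ t := by
        by_contra hlt
        push Not at hlt
        apply hnot t _ hy
        rw [abs_of_nonneg ht0]
        exact hlt
      have h2 : t ≤ 2 * Real.pi - ε := by
        by_contra hlt
        push Not at hlt
        apply hnot (t - 2 * Real.pi)
        · rw [abs_lt]
          constructor <;> linarith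
        · rw [jsep_per]
          exact hy
      refine ⟨(t - ε) / (2 * Real.pi - 2 * ε), ⟨?_, ?_⟩, ?_⟩
      · apply div_nonneg _ hlen.le
        linarith
      · rw [div_le_one hlen]
        linarith
      · rw [hα]
        congr 2
        rw [div_mul_cancel₀ _ hlen.ne']
        congr 1
        ring
    have hAc : IsCompact (α '' Icc 0 1) := isCompact_Icc.image_of_continuousOn hαarc.1
    have hAconn : IsConnected (α '' Icc 0 1)ᶜ := hjan2 _ hAc (hlog4 α hαarc)
    have hVA : V ⊆ (α '' Icc 0 1)ᶜ := hVJ.trans (compl_subset_compl.2 hαJ)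
    have hAV : (α '' Icc 0 1)ᶜ ⊆ V := by
      apply hAconn.isPreconnected.subset_of_closure_inter_subset hVo ⟨x, hVA hxV, hxV⟩
      rintro y ⟨hy1, hy2⟩
      by_contra hyV
      apply hy2
      apply hfrA
      rw [hVo.frontier_eq]
      exact ⟨hy1, hyV⟩
    have hζA : γ ζ ∉ α '' Icc 0 1 := by
      rintro ⟨s, hs, hse⟩
      rw [hα, ← hc0] at hse
      have h1 := hγ.2 (jsep_mem ζ hζ _) (jsep_mem ζ hζ _) hse
      have h2 := mul_left_cancel₀ hζ0 h1
      have h5 : 0 ≤ s * (2 * Real.pi - 2 * ε) := mul_nonneg hs.1 hlen.le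
      have h6 : s * (2 * Real.pi - 2 * ε) ≤ 1 * (2 * Real.pi - 2 * ε) :=
        mul_le_mul_of_nonneg_right hs.2 hlen.le
      have h3 := jsep_inj _ _ h2 (by
        rw [sub_zero, abs_lt]
        constructor <;> linarith)
      linarith
    exact hVJ (hAV hζA) ⟨ζ, hζ, rfl⟩
  · -- part 3
    by_contra hcon
    push Not at hcon
    obtain ⟨R, hR⟩ := hJc.isBounded.subset_closedBall 0
    obtain ⟨R', hR', hR'0⟩ : ∃ R' : ℝ, R ≤ R' ∧ 0 ≤ R' := ⟨max R 0, le_max_left _ _, le_max_right _ _⟩
    have hout := jsep_out R' hR'0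
    have hoJ : {z : ℂ | R' < ‖z‖} ⊆ (γ '' UC)ᶜ := by
      intro z hz hzJ
      have h1 := hR hzJ
      rw [mem_closedBall_zero_iff] at h1
      have hz' : R' < ‖z‖ := hz
      linarith
    have hsub : ∀ x, x ∉ γ '' UC → {z : ℂ | R' < ‖z‖} ⊆ connectedComponentIn (γ '' UC)ᶜ x := by
      intro x hx
      have h1 := hcon x hx
      have h2 : ¬ connectedComponentIn (γ '' UC)ᶜ x ⊆ closedBall 0 R' := fun h =>
        h1 (isBounded_closedBall.subset h)
      obtain ⟨z, hz, hzR⟩ := not_subset.1 h2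
      rw [mem_closedBall_zero_iff, not_le] at hzR
      rw [connectedComponentIn_eq hz]
      exact hout.subset_connectedComponentIn hzR hoJ
    apply part1
    -- a point far away
    have hfar : ((R' + 1 : ℝ) : ℂ) ∈ {z : ℂ | R' < ‖z‖} := by
      change R' < ‖((R' + 1 : ℝ) : ℂ)‖
      rw [Complex.norm_real, Real.norm_eq_abs, abs_of_nonneg (by linarith)]
      linarith
    have heq : (γ '' UC)ᶜ = connectedComponentIn (γ '' UC)ᶜ ((R' + 1 : ℝ) : ℂ) := by
      apply Subset.antisymm
      · intro x hx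
        have h1 := hsub x hx hfar
        rw [← connectedComponentIn_eq h1]
        exact mem_connectedComponentIn hx
      · exact connectedComponentIn_subset _ _
    rw [heq]
    exact isPreconnected_connectedComponentIn

end Pool.Agent.SRF
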