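import Pool.Agent.SRF.StA

set_option autoImplicit false

/-! # SRF MOVE: moving points in open connected sets of the plane. -/

open Set Metric Filter Topology

namespace Pool.Agent.SRF

namespace MOVEp

theorem rank_C : 1 < Module.rank ℝ ℂ := by
  rw [Complex.rank_real_complex]
  exact Nat.one_lt_ofNat

/-- The punctured disc is preconnected. -/
theorem punctured (z : ℂ) {r : ℝ} (hr : 0 < r) : IsPreconnected (ball z r \ {z}) := by
  have h0 : IsPreconnected ({0}ᶜ : Set ℂ) :=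
    (isConnected_compl_singleton_of_one_lt_rank rank_C 0).isPreconnected
  have hc : Continuous fun y : ℂ => z + ((r / (1 + ‖y‖) : ℝ) : ℂ) * y := by
    refine continuous_const.add (Continuous.mul ?_ continuous_id)
    refine Complex.continuous_ofReal.comp ?_
    refine Continuous.div continuous_const (continuous_const.add continuous_norm) ?_
    intro y
    have := norm_nonneg y
    linarith
  have h1 := h0.image _ hc.continuousOn
  convert h1 using 1
  apply Subset.antisymm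
  · rintro u ⟨hu, huz⟩
    rw [mem_ball, dist_eq_norm] at hu
    have huz' : u ≠ z := huz
    have hpos : 0 < r - ‖u - z‖ := by linarith
    refine ⟨((1 / (r - ‖u - z‖) : ℝ) : ℂ) * (u - z), ?_, ?_⟩
    · simp only [mem_compl_iff, mem_singleton_iff, mul_eq_zero, not_or]
      refine ⟨?_, sub_ne_zero.mpr huz'⟩
      rw [Complex.ofReal_eq_zero]
      positivity
    · simp only
      rw [norm_mul, Complex.norm_real, Real.norm_of_nonneg (by positivity), ← mul_assoc,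
        ← Complex.ofReal_mul]
      have : r / (1 + 1 / (r - ‖u - z‖) * ‖u - z‖) * (1 / (r - ‖u - z‖)) = 1 := by
        have h2 : 1 + 1 / (r - ‖u - z‖) * ‖u - z‖ = r / (r - ‖u - z‖) := by
          field_simp
          ring
        rw [h2]
        field_simp
      rw [this]
      simp
  · rintro _ ⟨y, hy, rfl⟩
    have hy' : y ≠ 0 := hy
    have hyn : 0 < ‖y‖ := norm_pos_iff.mpr hy'
    refine ⟨?_, ?_⟩
    · rw [mem_ball, dist_eq_norm, add_sub_cancel_left, norm_mul, Complex.norm_real,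
        Real.norm_of_nonneg (by positivity), div_mul_eq_mul_div, div_lt_iff₀ (by positivity)]
      nlinarith
    · intro h
      rw [mem_singleton_iff, add_eq_left, mul_eq_zero, Complex.ofReal_eq_zero] at h
      rcases h with h | h
      · have : 0 < r / (1 + ‖y‖) := by positivity
        linarith
      · exact hy' h

theorem onePoint {W : Set ℂ} (hW : IsOpen W) (hp : IsPreconnected W) (z : ℂ) :
    IsPreconnected (W \ {z}) := by
  by_cases hz : z ∈ W
  swap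
  · rwa [sdiff_singleton_eq_self hz]
  obtain ⟨r, hr, hrW⟩ := Metric.isOpen_iff.mp hW z hz
  have key : ∀ u v : Set ℂ, IsOpen u → IsOpen v → W \ {z} ⊆ u ∪ v → W \ {z} ∩ (u ∩ v) = ∅ →
      ball z r \ {z} ⊆ u → W \ {z} ⊆ u := by
    intro u v hu hv huv hd hbu
    have hv' : IsOpen (v \ {z}) := hv.sdiff isClosed_singleton
    have h1 := isPreconnected_iff_subset_of_disjoint.mp hp (u ∪ ball z r) (v \ {z})
      (hu.union isOpen_ball) hv' ?_ ?_
    · rcases h1 with h1 | h1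
      · intro y hy
        rcases h1 hy.1 with h2 | h2
        · exact h2
        · exact hbu ⟨h2, hy.2⟩
      · exact absurd rfl (h1 hz).2
    · intro y hy
      by_cases hyz : y = z
      · left; right; rw [hyz]; exact mem_ball_self hr
      · rcases huv ⟨hy, hyz⟩ with h2 | h2
        · left; left; exact h2
        · right; exact ⟨h2, hyz⟩
    · rw [eq_empty_iff_forall_notMem]
      rintro y ⟨hyW, hy1, hy2, hyz⟩
      have hyu : y ∈ u := by
        rcases hy1 with h2 | h2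
        · exact h2
        · exact hbu ⟨h2, hyz⟩
      have : y ∈ W \ {z} ∩ (u ∩ v) := ⟨⟨hyW, hyz⟩, hyu, hy2⟩
      rw [hd] at this
      exact this
  have hsub : ball z r \ {z} ⊆ W \ {z} := fun y hy => ⟨hrW hy.1, hy.2⟩
  rw [isPreconnected_iff_subset_of_disjoint]
  intro u v hu hv huv hd
  have h3 := isPreconnected_iff_subset_of_disjoint.mp (punctured z hr) u v hu hv
    (hsub.trans huv) (by
      rw [eq_empty_iff_forall_notMem] at hd ⊢
      rintro y ⟨hy1, hy2⟩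
      exact hd y ⟨hsub hy1, hy2⟩)
  rcases h3 with h3 | h3
  · left
    exact key u v hu hv huv hd h3
  · right
    refine key v u hv hu (by rwa [union_comm]) (by rwa [inter_comm v u]) h3

theorem finPoints {W : Set ℂ} (hW : IsOpen W) (hp : IsPreconnected W) (Z : Set ℂ)
    (hZ : Z.Finite) : IsPreconnected (W \ Z) := by
  induction Z, hZ using Set.Finite.induction_on with
  | empty => simpa using hp
  | @insert a s ha hs ih =>
    have h1 : W \ insert a s = (W \ s) \ {a} := by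
      ext y
      simp only [Set.mem_sdiff, mem_insert_iff, not_or, mem_singleton_iff]
      tauto
    rw [h1]
    exact onePoint (hW.sdiff hs.isClosed) ih a

/-- The local step. -/
theorem localStep (W : Set ℂ) (p : ℂ) (ρ : ℝ) (hρ : 0 < ρ) (hb : ball p ρ ⊆ W) (q : ℂ)
    (hq : q ∈ ball p ρ) : ∃ χ : ℂ ≃ₜ ℂ, (∀ z, z ∉ W → χ z = z) ∧ χ p = q := by
  rw [mem_ball, dist_eq_norm] at hq
  set f : ℂ → ℂ := fun z => z + ((max 0 (1 - ‖z - p‖ / ρ) : ℝ) : ℂ) * (q - p) with hf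
  set c : NNReal := ⟨‖q - p‖ / ρ, by positivity⟩ with hc
  have hlip : ∀ x y : ℂ, |max 0 (1 - ‖x - p‖ / ρ) - max 0 (1 - ‖y - p‖ / ρ)| ≤ ‖x - y‖ / ρ := by
    intro x y
    have h1 : |max 0 (1 - ‖x - p‖ / ρ) - max 0 (1 - ‖y - p‖ / ρ)| ≤
        |(1 - ‖x - p‖ / ρ) - (1 - ‖y - p‖ / ρ)| := by
      have := abs_max_sub_max_le_abs (1 - ‖x - p‖ / ρ) (1 - ‖y - p‖ / ρ) 0
      rwa [max_comm (1 - ‖x - p‖ / ρ) 0, max_comm (1 - ‖y - p‖ / ρ) 0] at this
    refine h1.trans ?_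
    have h2 : (1 - ‖x - p‖ / ρ) - (1 - ‖y - p‖ / ρ) = (‖y - p‖ - ‖x - p‖) / ρ := by ring
    rw [h2, abs_div, abs_of_pos hρ]
    have h3 : |‖y - p‖ - ‖x - p‖| ≤ ‖x - y‖ := by
      have := abs_norm_sub_norm_le (y - p) (x - p)
      have h4 : y - p - (x - p) = y - x := by ring
      rw [h4, norm_sub_rev y x] at this
      exact this
    gcongr
  have happ : ApproximatesLinearOn f ((ContinuousLinearEquiv.refl ℝ ℂ : ℂ ≃L[ℝ] ℂ) : ℂ →L[ℝ] ℂ)
      univ c := by
    intro x _ y _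
    have h1 : f x - f y - ((ContinuousLinearEquiv.refl ℝ ℂ : ℂ ≃L[ℝ] ℂ) : ℂ →L[ℝ] ℂ) (x - y) =
        ((max 0 (1 - ‖x - p‖ / ρ) - max 0 (1 - ‖y - p‖ / ρ) : ℝ) : ℂ) * (q - p) := by
      simp only [hf, ContinuousLinearEquiv.coe_coe, ContinuousLinearEquiv.coe_refl', id_eq]
      push_cast
      ring
    rw [h1, norm_mul, Complex.norm_real, Real.norm_eq_abs]
    have h2 : ((c : NNReal) : ℝ) = ‖q - p‖ / ρ := rfl
    rw [h2]
    calc |max 0 (1 - ‖x - p‖ / ρ) - max 0 (1 - ‖y - p‖ / ρ)| * ‖q - p‖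
        ≤ (‖x - y‖ / ρ) * ‖q - p‖ := by gcongr; exact hlip x y
      _ = ‖q - p‖ / ρ * ‖x - y‖ := by ring
  have hN : c < ‖(((ContinuousLinearEquiv.refl ℝ ℂ : ℂ ≃L[ℝ] ℂ).symm : ℂ ≃L[ℝ] ℂ) :
      ℂ →L[ℝ] ℂ)‖₊⁻¹ := by
    have h1 : ‖(((ContinuousLinearEquiv.refl ℝ ℂ : ℂ ≃L[ℝ] ℂ).symm : ℂ ≃L[ℝ] ℂ) :
      ℂ →L[ℝ] ℂ)‖₊ = 1 := by
      have h2 : (((ContinuousLinearEquiv.refl ℝ ℂ : ℂ ≃L[ℝ] ℂ).symm : ℂ ≃L[ℝ] ℂ) :
        ℂ →L[ℝ] ℂ) = ContinuousLinearMap.id ℝ ℂ := rfl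
      rw [h2, ← NNReal.coe_inj, coe_nnnorm]
      simp
    rw [h1, inv_one, ← NNReal.coe_lt_coe]
    show ‖q - p‖ / ρ < 1
    rw [div_lt_one hρ]
    exact hq
  refine ⟨happ.toHomeomorph f (Or.inr hN), ?_, ?_⟩
  · intro z hz
    show f z = z
    have h1 : ¬ ‖z - p‖ < ρ := by
      intro h
      exact hz (hb (by rwa [mem_ball, dist_eq_norm]))
    have h2 : max 0 (1 - ‖z - p‖ / ρ) = 0 := by
      apply max_eq_left
      have : 1 ≤ ‖z - p‖ / ρ := (one_le_div hρ).mpr (not_lt.mp h1)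
      linarith
    simp only [hf]
    rw [h2]
    simp
  · show f p = q
    simp [hf]

end MOVEp

open MOVEp in
theorem thm_MOVE : St_MOVE := by
  refine ⟨?_, fun W hW hp Z hZ => finPoints hW hp Z hZ⟩
  intro W hW hpre p hp q hq
  set S : Set ℂ := {q | q ∈ W ∧ ∃ χ : ℂ ≃ₜ ℂ, (∀ z, z ∉ W → χ z = z) ∧ χ p = q} with hS
  have hSo : IsOpen S := by
    rw [Metric.isOpen_iff]
    rintro x ⟨hxW, χ, hχ, hχp⟩
    obtain ⟨r, hr, hrW⟩ := Metric.isOpen_iff.mp hW x hxW
    refine ⟨r, hr, fun y hy => ⟨hrW hy, ?_⟩⟩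
    obtain ⟨χ', hχ', hχ'p⟩ := localStep W x r hr hrW y hy
    refine ⟨χ.trans χ', fun z hz => ?_, ?_⟩
    · rw [Homeomorph.trans_apply, hχ z hz, hχ' z hz]
    · rw [Homeomorph.trans_apply, hχp, hχ'p]
  have hTo : IsOpen (W \ S) := by
    rw [Metric.isOpen_iff]
    rintro x ⟨hxW, hxS⟩
    obtain ⟨r, hr, hrW⟩ := Metric.isOpen_iff.mp hW x hxW
    refine ⟨r, hr, fun y hy => ⟨hrW hy, ?_⟩⟩
    rintro ⟨-, χ, hχ, hχp⟩
    obtain ⟨χ', hχ', hχ'p⟩ := localStep W x r hr hrW y hy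
    refine hxS ⟨hxW, χ.trans χ'.symm, fun z hz => ?_, ?_⟩
    · rw [Homeomorph.trans_apply, hχ z hz, Homeomorph.symm_apply_eq, hχ' z hz]
    · rw [Homeomorph.trans_apply, hχp, Homeomorph.symm_apply_eq, hχ'p]
  have h1 := isPreconnected_iff_subset_of_disjoint.mp hpre S (W \ S) hSo hTo
    (fun x hx => by
      by_cases h : x ∈ S
      · exact Or.inl h
      · exact Or.inr ⟨hx, h⟩)
    (by
      rw [eq_empty_iff_forall_notMem]
      rintro x ⟨_, h2, h3⟩
      exact h3.2 h2)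
  have hpS : p ∈ S := ⟨hp, Homeomorph.refl ℂ, fun z _ => rfl, rfl⟩
  rcases h1 with h1 | h1
  · exact (h1 hq).2
  · exact absurd hpS (h1 hp).2

end Pool.Agent.SRF
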