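import Pool.Agent.SRF.StA
import Pool.Agent.CT.H1

/-!
# SRF, RADH (helper25): radial extension of a circle map
-/

set_option autoImplicit false

open Set Metric Filter Topology

namespace Pool.Agent.SRF

/-- the radial extension -/
private noncomputable def radh_c (b : ℂ → ℂ) (z : ℂ) : ℂ := (‖z‖ : ℂ) * b (z / (‖z‖ : ℂ))

private theorem radh_uc {z : ℂ} (hz : z ≠ 0) : z / (‖z‖ : ℂ) ∈ UC := by
  rw [mem_sphere_zero_iff_norm, norm_div, Complex.norm_real, norm_norm,
    div_self (norm_ne_zero_iff.2 hz)]

private theorem radh_norm {b : ℂ → ℂ} (hm : MapsTo b UC UC) (z : ℂ) : ‖radh_c b z‖ = ‖z‖ := by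
  unfold radh_c
  rcases eq_or_ne z 0 with rfl | hz
  · simp
  · have h1 := hm (radh_uc hz)
    rw [mem_sphere_zero_iff_norm] at h1
    rw [norm_mul, h1, mul_one, Complex.norm_real, norm_norm]

private theorem radh_cont {b : ℂ → ℂ} (hb : ContinuousOn b UC) (hm : MapsTo b UC UC) :
    Continuous (radh_c b) := by
  rw [continuous_iff_continuousAt]
  intro z
  rcases eq_or_ne z 0 with rfl | hz
  · have h0 : radh_c b 0 = 0 := by
      rw [← norm_eq_zero, radh_norm hm, norm_zero]
    unfold ContinuousAt
    rw [h0, tendsto_zero_iff_norm_tendsto_zero]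
    have h1 : (fun z => ‖radh_c b z‖) = fun z => ‖z‖ := by
      funext z
      exact radh_norm hm z
    rw [h1]
    have h2 := continuous_norm (E := ℂ)
    have h3 := h2.tendsto 0
    rwa [norm_zero] at h3
  · have hopen : IsOpen {w : ℂ | w ≠ 0} := isOpen_ne
    have h1 : ContinuousOn (radh_c b) {w : ℂ | w ≠ 0} := by
      unfold radh_c
      refine ContinuousOn.mul (Complex.continuous_ofReal.comp continuous_norm).continuousOn ?_
      refine hb.comp ?_ ?_
      · refine continuousOn_id.div (Complex.continuous_ofReal.comp continuous_norm).continuousOn ?_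
        intro w hw
        simp only [Function.comp_apply, ne_eq, Complex.ofReal_eq_zero, norm_eq_zero]
        exact hw
      · intro w hw
        exact radh_uc hw
    exact h1.continuousAt (hopen.mem_nhds hz)

private theorem radh_inj {b : ℂ → ℂ} (hi : InjOn b UC) (hm : MapsTo b UC UC) :
    Function.Injective (radh_c b) := by
  intro z w h
  have h1 : ‖z‖ = ‖w‖ := by rw [← radh_norm hm z, ← radh_norm hm w, h]
  rcases eq_or_ne z 0 with rfl | hz
  · rw [norm_zero] at h1
    exact (norm_eq_zero.1 h1.symm).symm
  · have hw : w ≠ 0 := by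
      rintro rfl
      rw [norm_zero, norm_eq_zero] at h1
      exact hz h1
    have hn : (‖w‖ : ℂ) ≠ 0 := by
      simpa using hw
    unfold radh_c at h
    rw [h1] at h
    have h2 := mul_left_cancel₀ hn h
    have h3 := radh_uc hz
    rw [h1] at h3
    have h4 := hi h3 (radh_uc hw) h2
    exact (div_left_inj' hn).1 h4

/-- **RADH.** -/
theorem thm_RADH : St_RADH := by
  intro b hb hi hm
  have hc := radh_cont hb hm
  have hinj := radh_inj hi hm
  have hprop : IsProperMap (radh_c b) := by
    rw [isProperMap_iff_tendsto_cocompact]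
    refine ⟨hc, ?_⟩
    rw [← Metric.cobounded_eq_cocompact, ← tendsto_norm_atTop_iff_cobounded]
    have h1 : (fun z => ‖radh_c b z‖) = fun z => ‖z‖ := by
      funext z
      exact radh_norm hm z
    rw [h1, tendsto_norm_atTop_iff_cobounded]
    exact tendsto_id
  have hcl : IsClosedMap (radh_c b) := hprop.isClosedMap
  have hopen : IsOpen (range (radh_c b)) := by
    rw [isOpen_iff_mem_nhds]
    rintro _ ⟨z, rfl⟩
    have h1 := Pool.Agent.CT.h1 (fun w => radh_c b (z + w))
      (hc.comp (continuous_const.add continuous_id)).continuousOn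
      (fun u _ v _ h => add_left_cancel (hinj h))
    rw [mem_interior_iff_mem_nhds] at h1
    simp only [add_zero] at h1
    refine mem_of_superset h1 ?_
    rintro _ ⟨w, _, rfl⟩
    exact ⟨z + w, rfl⟩
  have huniv : range (radh_c b) = univ :=
    IsClopen.eq_univ ⟨hcl.isClosed_range, hopen⟩ (range_nonempty _)
  have hsurj : Function.Surjective (radh_c b) := range_eq_univ.1 huniv
  have hhom : IsHomeomorph (radh_c b) :=
    isHomeomorph_iff_continuous_isClosedMap_bijective.2 ⟨hc, hcl, hinj, hsurj⟩
  refine ⟨hhom.homeomorph, ?_, radh_norm hm⟩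
  intro z hz
  have h1 : ‖z‖ = 1 := by
    rwa [mem_sphere_zero_iff_norm] at hz
  change radh_c b z = b z
  unfold radh_c
  rw [h1, Complex.ofReal_one, one_mul, div_one]

end Pool.Agent.SRF
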