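import Pool.Agent.SRF.StA
import Pool.Agent.CT.H4
import Pool.Agent.CT.H5
import Pool.Agent.CT.H6
import Pool.Agent.CT.H7

set_option autoImplicit false

/-! # SRF, RMTV: the Riemann mapping theorem for bounded open connected log sets -/

namespace Pool.Agent.SRF

open Set Metric Filter Topology ComplexConjugate
open Pool.Agent.CT

/-- square roots on log sets -/
theorem rmtv_sqrt {U : Set ℂ} (hlog : LogSet U) {F : ℂ → ℂ} (hFc : ContinuousOn F U)
    (hF0 : ∀ z ∈ U, F z ≠ 0) : ∃ h : ℂ → ℂ, ContinuousOn h U ∧ ∀ z, h z ^ 2 = F z := by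
  classical
  obtain ⟨L, hL, hLF⟩ := hlog F hFc hF0
  refine ⟨fun z => if z ∈ U then Complex.exp (L z / 2) else F z ^ (((2 : ℕ) : ℂ)⁻¹), ?_, ?_⟩
  · refine ContinuousOn.congr (f := fun z => Complex.exp (L z / 2)) ?_ fun z hz => if_pos hz
    exact Complex.continuous_exp.comp_continuousOn (hL.div_const 2)
  · intro z
    by_cases hz : z ∈ U
    · simp only [if_pos hz]
      rw [← hLF z hz, ← Complex.exp_nat_mul]
      congr 1
      push_cast
      ring
    · simp only [if_neg hz]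
      exact Complex.cpow_nat_inv_pow (F z) two_ne_zero

theorem rmtv_koebe : ∀ U : Set ℂ, IsOpen U → LogSet U → ∀ p ∈ U, ∀ f : ℂ → ℂ,
    DifferentiableOn ℂ f U → InjOn f U → MapsTo f U (ball 0 1) → f p = 0 → deriv f p ≠ 0 →
    ∀ w ∈ ball (0 : ℂ) 1, w ∉ f '' U →
    ∃ g : ℂ → ℂ, DifferentiableOn ℂ g U ∧ InjOn g U ∧ MapsTo g U (ball 0 1) ∧ g p = 0 ∧
      ‖deriv f p‖ < ‖deriv g p‖ := by
  intro U hU hlog p hp f hd hinj hmaps hfp hf' w hw hwU
  rw [mem_ball_zero_iff] at hw
  have hfn : ∀ z ∈ U, ‖f z‖ < 1 := fun z hz => mem_ball_zero_iff.1 (hmaps hz)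
  set F : ℂ → ℂ := fun z => h7_mob w (f z) with hF
  have hFn : ∀ z ∈ U, ‖F z‖ < 1 := fun z hz => h7_norm_lt hw (hfn z hz)
  have hF0 : ∀ z ∈ U, F z ≠ 0 := by
    intro z hz h
    rw [hF] at h
    simp only [h7_mob] at h
    rcases div_eq_zero_iff.1 h with h | h
    · exact hwU ⟨z, hz, sub_eq_zero.1 h⟩
    · exact h7_den hw (hfn z hz).le h
  have hFd : ∀ z ∈ U, DifferentiableAt ℂ F z := fun z hz =>
    ((h7_deriv hw (hfn z hz).le).differentiableAt).comp z (hd.differentiableAt (hU.mem_nhds hz))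
  have hFc : ContinuousOn F U := fun z hz => (hFd z hz).continuousAt.continuousWithinAt
  obtain ⟨h, hhc, hh⟩ := rmtv_sqrt hlog hFc hF0
  have hhn : ∀ z ∈ U, ‖h z‖ < 1 := by
    intro z hz
    have h1 : ‖h z‖ ^ 2 < 1 := by
      rw [← norm_pow, hh]
      exact hFn z hz
    nlinarith [norm_nonneg (h z)]
  have hh0 : ∀ z ∈ U, h z ≠ 0 := by
    intro z hz h0
    apply hF0 z hz
    rw [← hh z, h0]
    ring
  have hhd : ∀ z ∈ U, DifferentiableAt ℂ h z := by
    intro z hz
    have hs := hasStrictDerivAt_pow 2 (h z)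
    have hne : ((2 : ℕ) : ℂ) * h z ^ (2 - 1) ≠ 0 := by
      simp [hh0 z hz]
    have hca : ContinuousAt h z := hhc.continuousAt (hU.mem_nhds hz)
    have h1 := hca.eventually (hs.eventually_left_inverse hne)
    have h2 := (hs.to_localInverse hne).hasDerivAt.differentiableAt
    rw [hh z] at h2
    have h3 : DifferentiableAt ℂ (fun x => hs.localInverse _ _ _ hne (F x)) z :=
      h2.comp z (hFd z hz)
    refine h3.congr_of_eventuallyEq ?_
    filter_upwards [h1] with x hx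
    rw [← hh x]
    exact hx.symm
  have hb := hhn p hp
  refine ⟨fun z => h7_mob (h p) (h z), ?_, ?_, ?_, ?_, ?_⟩
  · intro z hz
    exact (((h7_deriv hb (hhn z hz).le).differentiableAt).comp z (hhd z hz)).differentiableWithinAt
  · intro x hx y hy hxy
    have h1 := h7_inj hb (hhn x hx).le (hhn y hy).le hxy
    have h2 : F x = F y := by rw [← hh x, ← hh y, h1]
    have h3 := h7_inj hw (hfn x hx).le (hfn y hy).le h2
    exact hinj hx hy h3
  · intro z hz
    rw [mem_ball_zero_iff]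
    exact h7_norm_lt hb (hhn z hz)
  · simp [h7_mob]
  · -- the derivatives
    have hd1 : HasDerivAt F ((1 - w * conj w) * deriv f p) p := by
      have h1 := (h7_deriv hw (hfn p hp).le).comp p
        (hd.differentiableAt (hU.mem_nhds hp)).hasDerivAt
      rw [hfp] at h1
      refine h1.congr_deriv ?_
      simp
    have hd2 : HasDerivAt F (2 * h p * deriv h p) p := by
      have h1 := (hhd p hp).hasDerivAt.pow 2
      have h2 : (fun z => h z ^ 2) = F := funext hh
      have h3 : HasDerivAt (fun z => h z ^ 2) (((2 : ℕ) : ℂ) * h p ^ (2 - 1) * deriv h p) p := h1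
      rw [h2] at h3
      simpa using h3
    have hd3 : HasDerivAt (fun z => h7_mob (h p) (h z))
        ((1 - h p * conj (h p)) / (1 - conj (h p) * h p) ^ 2 * deriv h p) p :=
      (h7_deriv hb hb.le).comp p (hhd p hp).hasDerivAt
    rw [hd3.deriv]
    have heq : 2 * h p * deriv h p = (1 - w * conj w) * deriv f p := hd2.unique hd1
    have hbw : ‖h p‖ ^ 2 = ‖w‖ := by
      rw [← norm_pow, hh p]
      simp [hF, h7_mob, hfp]
    set b := ‖h p‖ with hbdef
    have hb0 : 0 < b := norm_pos_iff.2 (hh0 p hp)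
    have e1 : ‖1 - w * conj w‖ = 1 - ‖w‖ ^ 2 := by
      rw [h7_sq]
      rw [show (1 : ℂ) - ((‖w‖ ^ 2 : ℝ) : ℂ) = ((1 - ‖w‖ ^ 2 : ℝ) : ℂ) by push_cast; ring,
        Complex.norm_real, Real.norm_eq_abs, abs_of_nonneg]
      nlinarith [norm_nonneg w]
    have e2 : ‖1 - h p * conj (h p)‖ = 1 - b ^ 2 := by
      rw [h7_sq]
      rw [show (1 : ℂ) - ((‖h p‖ ^ 2 : ℝ) : ℂ) = ((1 - ‖h p‖ ^ 2 : ℝ) : ℂ) by push_cast; ring,
        Complex.norm_real, Real.norm_eq_abs, abs_of_nonneg]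
      nlinarith [norm_nonneg (h p)]
    have e3 : ‖1 - conj (h p) * h p‖ = 1 - b ^ 2 := by
      rw [mul_comm, e2]
    have e4 : 2 * b * ‖deriv h p‖ = (1 - ‖w‖ ^ 2) * ‖deriv f p‖ := by
      have := congrArg norm heq
      rw [norm_mul, norm_mul, norm_mul, e1] at this
      simpa using this
    have hpos : 0 < 1 - b ^ 2 := by nlinarith
    rw [norm_mul, norm_div, norm_pow, e2, e3]
    have e5 : (1 - b ^ 2) / (1 - b ^ 2) ^ 2 * ‖deriv h p‖ = ‖deriv h p‖ / (1 - b ^ 2) := by
      field_simp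
    rw [e5, lt_div_iff₀ hpos]
    have hfpos : 0 < ‖deriv f p‖ := norm_pos_iff.2 hf'
    rw [← hbw] at e4
    have e6 : ‖deriv f p‖ * (1 - b ^ 2) * (2 * b) < ‖deriv h p‖ * (2 * b) := by
      have e7 : ‖deriv h p‖ * (2 * b) = (1 - (b ^ 2) ^ 2) * ‖deriv f p‖ := by
        rw [← e4]; ring
      rw [e7]
      have e8 : (1 - (b ^ 2) ^ 2) * ‖deriv f p‖ - ‖deriv f p‖ * (1 - b ^ 2) * (2 * b)
          = ‖deriv f p‖ * (1 - b ^ 2) * (1 - b) ^ 2 := by ring
      have e9 : 0 < ‖deriv f p‖ * (1 - b ^ 2) * (1 - b) ^ 2 := by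
        apply mul_pos (mul_pos hfpos hpos)
        have : 0 < 1 - b := by linarith
        positivity
      linarith
    exact lt_of_mul_lt_mul_right e6 (by positivity)

theorem thm_RMTV : St_RMTV := by
  intro U hU hUc hUb hlog p hp
  have hpre : IsPreconnected U := hUc.isPreconnected
  set X : Set (ℂ → ℂ) := {h | DifferentiableOn ℂ h U ∧ InjOn h U ∧ MapsTo h U (ball 0 1) ∧
    h p = 0} with hX
  set S : Set ℝ := (fun h : ℂ → ℂ => ‖deriv h p‖) '' X with hS
  -- a member of the family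
  obtain ⟨R, hR0, hR⟩ : ∃ R : ℝ, 0 < R ∧ ∀ z ∈ U, ‖z - p‖ < R := by
    obtain ⟨R, hR⟩ := hUb.subset_ball p
    refine ⟨max R 1, lt_of_lt_of_le one_pos (le_max_right _ _), fun z hz => ?_⟩
    have := hR hz
    rw [mem_ball, dist_eq_norm] at this
    exact lt_of_lt_of_le this (le_max_left _ _)
  have hRne : (R : ℂ) ≠ 0 := by
    rw [ne_eq, Complex.ofReal_eq_zero]
    exact hR0.ne'
  have hder0 : ∀ z, HasDerivAt (fun z : ℂ => (z - p) / (R : ℂ)) (1 / (R : ℂ)) z := fun z =>
    ((hasDerivAt_id z).sub_const p).div_const (R : ℂ)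
  have hX0 : (fun z : ℂ => (z - p) / (R : ℂ)) ∈ X := by
    refine ⟨fun z _ => (hder0 z).differentiableAt.differentiableWithinAt, ?_, ?_, ?_⟩
    · intro x _ y _ hxy
      have hxy' : (x - p) / (R : ℂ) = (y - p) / (R : ℂ) := hxy
      rw [div_left_inj' hRne] at hxy'
      exact sub_left_injective hxy'
    · intro z hz
      rw [mem_ball_zero_iff, norm_div, Complex.norm_real, Real.norm_eq_abs, abs_of_pos hR0,
        div_lt_one hR0]
      exact hR z hz
    · simp
  have hSne : S.Nonempty := ⟨_, mem_image_of_mem _ hX0⟩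
  obtain ⟨r, hr, hrU⟩ := Metric.isOpen_iff.1 hU p hp
  have hSb : BddAbove S := by
    refine ⟨1 / r, ?_⟩
    rintro _ ⟨h, ⟨h1, h2, h3, h4⟩, rfl⟩
    refine Complex.norm_deriv_le_div_of_mapsTo_ball (h1.mono hrU) (fun z hz => ?_) hr
    rw [h4]
    exact ball_subset_closedBall (h3 (hrU hz))
  obtain ⟨v, -, hv, hvS⟩ := exists_seq_tendsto_sSup hSne hSb
  choose f hfX hfv using hvS
  obtain ⟨l, F, hl, hlt, hF⟩ := h4 U hU f (fun n => (hfX n).1)
    (fun n z hz => ball_subset_closedBall ((hfX n).2.2.1 hz))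
  have hFd : DifferentiableOn ℂ F U := hF.differentiableOn
    (Eventually.of_forall fun n => (hfX n).1) hU
  -- the derivative of the limit
  have hderF : ‖deriv F p‖ = sSup S := by
    have h1 : Tendsto (fun n => ‖deriv (f n) p‖) l (𝓝 ‖deriv F p‖) :=
      ((hF.deriv (Eventually.of_forall fun n => (hfX n).1) hU).tendsto_at hp).norm
    have h2 : Tendsto (fun n => ‖deriv (f n) p‖) l (𝓝 (sSup S)) := by
      have : (fun n => ‖deriv (f n) p‖) = v := funext fun n => hfv n
      rw [this]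
      exact hv.mono_left hlt
    exact tendsto_nhds_unique h1 h2
  have hpos : 0 < sSup S := by
    refine lt_of_lt_of_le ?_ (le_csSup hSb (mem_image_of_mem _ hX0))
    rw [(hder0 p).deriv, norm_div, norm_one, Complex.norm_real, Real.norm_eq_abs, abs_of_pos hR0]
    positivity
  have hderne : deriv F p ≠ 0 := by
    intro h
    rw [h, norm_zero] at hderF
    exact hpos.ne hderF
  have hnc : ∃ z ∈ U, ∃ w ∈ U, F z ≠ F w := by
    by_contra hcon
    push Not at hcon
    apply hderne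
    have h1 : F =ᶠ[𝓝 p] fun _ => F p := by
      filter_upwards [hU.mem_nhds hp] with z hz
      exact hcon z hz p hp
    rw [h1.deriv_eq, deriv_const]
  have hFinj : InjOn F U := h5 U hU hpre f F l hl (fun n => (hfX n).1)
    (fun n => (hfX n).2.1) hF hnc
  have hFp : F p = 0 := by
    have h1 := hF.tendsto_at hp
    have h2 : Tendsto (fun n => f n p) l (𝓝 0) := by
      have : (fun n => f n p) = fun _ => (0 : ℂ) := funext fun n => (hfX n).2.2.2
      rw [this]
      exact tendsto_const_nhds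
    exact tendsto_nhds_unique h1 h2
  obtain ⟨hopen, -, g, hgd, hg⟩ := h6 U hU F hFd hFinj
  have hFle : F '' U ⊆ closedBall 0 1 := by
    rintro _ ⟨z, hz, rfl⟩
    exact isClosed_closedBall.mem_of_tendsto (hF.tendsto_at hz)
      (Eventually.of_forall fun n => ball_subset_closedBall ((hfX n).2.2.1 hz))
  have hFlt : F '' U ⊆ ball 0 1 := by
    rw [← interior_closedBall (0 : ℂ) one_ne_zero]
    exact interior_maximal hFle hopen
  have hFX : F ∈ X := ⟨hFd, hFinj, fun z hz => hFlt (mem_image_of_mem F hz), hFp⟩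
  have hsurj : F '' U = ball 0 1 := by
    refine subset_antisymm hFlt fun w hw => ?_
    by_contra hwU
    obtain ⟨k, hk1, hk2, hk3, hk4, hk5⟩ := rmtv_koebe U hU hlog p hp F hFd hFinj hFX.2.2.1 hFp hderne
      w hw hwU
    have h1 : ‖deriv k p‖ ≤ sSup S := le_csSup hSb ⟨k, ⟨hk1, hk2, hk3, hk4⟩, rfl⟩
    rw [hderF] at hk5
    linarith
  rw [hsurj] at hgd
  refine ⟨g, hgd, ?_, ?_, ?_⟩
  · intro x hx y hy hxy
    change x ∈ ball (0 : ℂ) 1 at hx
    change y ∈ ball (0 : ℂ) 1 at hy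
    rw [← hsurj] at hx hy
    obtain ⟨z, hz, rfl⟩ := hx
    obtain ⟨w, hw, rfl⟩ := hy
    rw [hg z hz, hg w hw] at hxy
    rw [hxy]
  · change g '' ball (0 : ℂ) 1 = U
    rw [← hsurj]
    apply subset_antisymm
    · rintro _ ⟨_, ⟨z, hz, rfl⟩, rfl⟩
      rw [hg z hz]
      exact hz
    · intro z hz
      exact ⟨F z, mem_image_of_mem F hz, hg z hz⟩
  · rw [← hFp]
    exact hg p hp

end Pool.Agent.SRF
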