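import Pool.Agent.SRF.StA

set_option autoImplicit false

/-! # SRF, SCH: Schoenflies' theorem, with parametrisation (helper60 for helper68) -/

open Set Metric Filter Topology

namespace Pool.Agent.SRF

/-- The closure of a bounded component, with the given parametrisation of the boundary. -/
theorem sch_param (hJD : St_JD) (hRADH : St_RADH) (γ : ℂ → ℂ) (hγ : IsJordan γ) (x : ℂ)
    (hx : x ∉ γ '' UC) (hb : Bornology.IsBounded (connectedComponentIn (γ '' UC)ᶜ x)) :
    ∃ G : ℂ → ℂ, ContinuousOn G CD ∧ InjOn G CD ∧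
      G '' OD = connectedComponentIn (γ '' UC)ᶜ x ∧ (∀ z ∈ UC, G z = γ z) ∧ G 0 = x := by
  obtain ⟨F, hFc, hFi, hFO, hFU, hF0⟩ := hJD γ hγ x hx hb
  have hUCD : UC ⊆ CD := sphere_subset_closedBall
  have h1 : ∀ z : ℂ, ∃ w, z ∈ UC → (w ∈ UC ∧ F w = γ z) := by
    intro z
    by_cases hz : z ∈ UC
    · have h2 : γ z ∈ F '' UC := hFU ▸ mem_image_of_mem γ hz
      obtain ⟨w, hw, hw'⟩ := h2
      exact ⟨w, fun _ => ⟨hw, hw'⟩⟩
    · exact ⟨0, fun h => absurd h hz⟩
  choose b hb1 using h1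
  have hbm : MapsTo b UC UC := fun z hz => (hb1 z hz).1
  have hbi : InjOn b UC := by
    intro z hz w hw h
    apply hγ.2 hz hw
    rw [← (hb1 z hz).2, ← (hb1 w hw).2, h]
  have hbc : ContinuousOn b UC := by
    rw [continuousOn_iff_continuous_domRestrict]
    have hcs : CompactSpace UC := isCompact_iff_compactSpace.1 (isCompact_sphere 0 1)
    have hf : IsClosedEmbedding (UC.domRestrict F) := Continuous.isClosedEmbedding
      (continuousOn_iff_continuous_domRestrict.1 (hFc.mono hUCD))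
      (injOn_iff_injective.1 (hFi.mono hUCD))
    let b' : UC → UC := fun z => ⟨b z, hbm z.2⟩
    have hb' : Continuous b' := by
      rw [hf.isInducing.continuous_iff]
      have h3 : UC.domRestrict F ∘ b' = UC.domRestrict γ := by
        funext z
        exact (hb1 z z.2).2
      rw [h3]
      exact continuousOn_iff_continuous_domRestrict.1 hγ.1
    exact continuous_subtype_val.comp hb'
  obtain ⟨c, hc1, hc2⟩ := hRADH b hbc hbi hbm
  have hcCD : MapsTo c CD CD := by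
    intro z hz
    rw [mem_closedBall_zero_iff] at hz ⊢
    rwa [hc2]
  have hcOD : c '' OD = OD := by
    apply Subset.antisymm
    · rintro _ ⟨z, hz, rfl⟩
      rw [mem_ball_zero_iff] at hz ⊢
      rwa [hc2]
    · intro z hz
      refine ⟨c.symm z, ?_, c.apply_symm_apply z⟩
      rw [mem_ball_zero_iff] at hz ⊢
      rwa [← hc2, c.apply_symm_apply]
  refine ⟨fun z => F (c z), hFc.comp c.continuous.continuousOn hcCD, ?_, ?_, ?_, ?_⟩
  · intro z hz w hw h
    exact c.injective (hFi (hcCD hz) (hcCD hw) h)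
  · have h3 : (fun z => F (c z)) '' OD = F '' (c '' OD) := by
      rw [image_image]
    rw [h3, hcOD, hFO]
  · intro z hz
    change F (c z) = γ z
    rw [hc1 hz, (hb1 z hz).2]
  · change F (c 0) = x
    have h3 : c 0 = 0 := by
      rw [← norm_eq_zero, hc2, norm_zero]
    rw [h3, hF0]

/-- The inverted curve. -/
theorem sch_inv (h3 : St_UNIQ) (h5 : St_MOVE) (γ : ℂ → ℂ) (hγ : IsJordan γ) (p : ℂ)
    (hp : p ∉ γ '' UC) (hb : Bornology.IsBounded (connectedComponentIn (γ '' UC)ᶜ p)) :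
    IsJordan (fun z => (γ z - p)⁻¹) ∧ (0 : ℂ) ∉ (fun z => (γ z - p)⁻¹) '' UC ∧
    (∀ w ∈ connectedComponentIn ((fun z => (γ z - p)⁻¹) '' UC)ᶜ 0, w ≠ 0 →
      p + w⁻¹ ∉ connectedComponentIn (γ '' UC)ᶜ p ∧ p + w⁻¹ ∉ γ '' UC) ∧
    Bornology.IsBounded (connectedComponentIn ((fun z => (γ z - p)⁻¹) '' UC)ᶜ 0) ∧
    ∀ y, y ∉ γ '' UC → y ∉ connectedComponentIn (γ '' UC)ᶜ p →
      y ≠ p ∧ (y - p)⁻¹ ∈ connectedComponentIn ((fun z => (γ z - p)⁻¹) '' UC)ᶜ 0 := by
  have hne : ∀ z ∈ UC, γ z - p ≠ 0 := fun z hz h => hp ⟨z, hz, sub_eq_zero.1 h⟩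
  have hγ' : IsJordan (fun z => (γ z - p)⁻¹) := by
    refine ⟨(hγ.1.sub continuousOn_const).inv₀ hne, fun z hz w hw h => hγ.2 hz hw ?_⟩
    have h6 := inv_injective h
    exact sub_left_injective h6
  have hJo : IsOpen (γ '' UC)ᶜ :=
    ((isCompact_sphere 0 1).image_of_continuousOn hγ.1).isClosed.isOpen_compl
  have hJo' : IsOpen ((fun z => (γ z - p)⁻¹) '' UC)ᶜ :=
    ((isCompact_sphere 0 1).image_of_continuousOn hγ'.1).isClosed.isOpen_compl
  have h0 : (0 : ℂ) ∉ (fun z => (γ z - p)⁻¹) '' UC := by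
    rintro ⟨z, hz, h⟩
    exact inv_ne_zero (hne z hz) h
  set V := connectedComponentIn (γ '' UC)ᶜ p with hV
  set W := connectedComponentIn ((fun z => (γ z - p)⁻¹) '' UC)ᶜ 0 with hW
  have hVo : IsOpen V := hJo.connectedComponentIn
  have hWo : IsOpen W := hJo'.connectedComponentIn
  have hpV : p ∈ V := mem_connectedComponentIn hp
  have h0W : (0 : ℂ) ∈ W := mem_connectedComponentIn h0
  have hVs : V ⊆ (γ '' UC)ᶜ := connectedComponentIn_subset _ _
  have hWs : W ⊆ ((fun z => (γ z - p)⁻¹) '' UC)ᶜ := connectedComponentIn_subset _ _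
  have hWJ : ∀ w ∈ W, w ≠ 0 → p + w⁻¹ ∉ γ '' UC := by
    rintro w hw hw0 ⟨z, hz, h⟩
    apply hWs hw
    refine ⟨z, hz, ?_⟩
    change (γ z - p)⁻¹ = w
    rw [h, add_sub_cancel_left, inv_inv]
  have hWV : ∀ w ∈ W, w ≠ 0 → p + w⁻¹ ∉ V := by
    intro w hw hw0 hwV
    have t1 : IsPreconnected (W \ {0}) :=
      h5.2 W hWo isPreconnected_connectedComponentIn {0} (finite_singleton 0)
    have t2 : IsPreconnected ((fun w : ℂ => p + w⁻¹) '' (W \ {0})) :=
      t1.image _ (continuousOn_const.add (continuousOn_id.inv₀ fun z hz => hz.2))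
    have t3 : (fun w : ℂ => p + w⁻¹) '' (W \ {0}) ⊆ (γ '' UC)ᶜ := by
      rintro _ ⟨z, hz, rfl⟩
      exact hWJ z hz.1 hz.2
    have t4 := t2.subset_connectedComponentIn (x := p + w⁻¹) ⟨w, ⟨hw, hw0⟩, rfl⟩ t3
    rw [← connectedComponentIn_eq hwV] at t4
    obtain ⟨ε, hε, hball⟩ := Metric.isOpen_iff.1 hWo 0 h0W
    obtain ⟨R, hR⟩ := hb.exists_norm_le
    have hR0 : 0 ≤ R := (norm_nonneg _).trans (hR p hpV)
    set δ : ℝ := min (ε / 2) (R + ‖p‖ + 1)⁻¹ with hδ
    have hpos : 0 < R + ‖p‖ + 1 := by positivity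
    have hδ0 : 0 < δ := lt_min (by linarith) (inv_pos.2 hpos)
    have hδW : (δ : ℂ) ∈ W \ {0} := by
      refine ⟨hball ?_, ?_⟩
      · rw [mem_ball_zero_iff, Complex.norm_real, Real.norm_of_nonneg hδ0.le]
        have := min_le_left (ε / 2) (R + ‖p‖ + 1)⁻¹
        linarith
      · intro h
        have h7 : (δ : ℂ) = 0 := h
        rw [Complex.ofReal_eq_zero] at h7
        exact hδ0.ne' h7
    have t5 : ‖p + (δ : ℂ)⁻¹‖ ≤ R := hR _ (t4 ⟨_, hδW, rfl⟩)
    have t6 : ‖(δ : ℂ)⁻¹‖ = δ⁻¹ := by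
      rw [norm_inv, Complex.norm_real, Real.norm_of_nonneg hδ0.le]
    have t7 : R + ‖p‖ + 1 ≤ δ⁻¹ := by
      rw [le_inv_comm₀ hpos hδ0]
      exact min_le_right _ _
    have t8 : ‖(δ : ℂ)⁻¹‖ ≤ ‖p + (δ : ℂ)⁻¹‖ + ‖p‖ := by
      have := norm_sub_le (p + (δ : ℂ)⁻¹) p
      rwa [add_sub_cancel_left] at this
    linarith
  refine ⟨hγ', h0, fun w hw hw0 => ⟨hWV w hw hw0, hWJ w hw hw0⟩, ?_, ?_⟩
  · obtain ⟨ε, hε, hball⟩ := Metric.isOpen_iff.1 hVo p hpV
    rw [isBounded_iff_forall_norm_le]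
    refine ⟨ε⁻¹, fun w hw => ?_⟩
    by_contra hlt
    rw [not_le] at hlt
    have hw0 : w ≠ 0 := by
      rintro rfl
      rw [norm_zero] at hlt
      exact absurd hlt (not_lt.2 (inv_nonneg.2 hε.le))
    refine hWV w hw hw0 (hball ?_)
    rw [mem_ball, dist_eq_norm, add_sub_cancel_left, norm_inv]
    exact inv_lt_of_inv_lt₀ hε hlt
  · intro y hy hyV
    have hyp : y ≠ p := by
      rintro rfl
      exact hyV hpV
    refine ⟨hyp, ?_⟩
    set C := connectedComponentIn (γ '' UC)ᶜ y with hC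
    have hyC : y ∈ C := mem_connectedComponentIn hy
    have hCs : C ⊆ (γ '' UC)ᶜ := connectedComponentIn_subset _ _
    have hCb : ¬ Bornology.IsBounded C := by
      intro h
      apply hyV
      rw [hV, ← h3 γ hγ y p hy hp h hb]
      exact hyC
    have hpC : p ∉ C := by
      intro h
      apply hyV
      rw [hV, ← connectedComponentIn_eq h]
      exact hyC
    have hneC : ∀ z ∈ C, z - p ≠ 0 := fun z hz h => hpC (sub_eq_zero.1 h ▸ hz)
    have t2 : IsPreconnected ((fun z : ℂ => (z - p)⁻¹) '' C) :=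
      isPreconnected_connectedComponentIn.image _
        ((continuousOn_id.sub continuousOn_const).inv₀ hneC)
    have t3 : (fun z : ℂ => (z - p)⁻¹) '' C ⊆ ((fun z => (γ z - p)⁻¹) '' UC)ᶜ := by
      rintro _ ⟨z, hz, rfl⟩ ⟨u, hu, h⟩
      apply hCs hz
      exact ⟨u, hu, sub_left_injective (inv_injective h)⟩
    obtain ⟨ε, hε, hball⟩ := Metric.isOpen_iff.1 hWo 0 h0W
    have t4 : ∃ z ∈ C, ε⁻¹ < ‖z - p‖ := by
      by_contra hcon
      push Not at hcon
      apply hCb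
      rw [isBounded_iff_forall_norm_le]
      refine ⟨ε⁻¹ + ‖p‖, fun z hz => ?_⟩
      have h7 := hcon z hz
      have h8 := norm_add_le (z - p) p
      rw [sub_add_cancel] at h8
      linarith
    obtain ⟨z, hz, hlt⟩ := t4
    have t5 : (z - p)⁻¹ ∈ W := by
      apply hball
      rw [mem_ball_zero_iff, norm_inv]
      exact inv_lt_of_inv_lt₀ hε hlt
    have t6 := t2.subset_connectedComponentIn (x := (z - p)⁻¹) ⟨z, hz, rfl⟩ t3
    rw [← connectedComponentIn_eq t5] at t6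
    exact t6 ⟨y, hyC, rfl⟩

theorem thm_SCH (h1 : St_JSEP) (h2 : St_JD) (h3 : St_UNIQ) (h4 : St_RADH) (h5 : St_MOVE) :
    St_SCH := by
  classical
  intro γ hγ
  obtain ⟨p, hp, hb⟩ := (h1 γ hγ).2.2
  obtain ⟨hγ', h0', hdis, hb', hcov⟩ := sch_inv h3 h5 γ hγ p hp hb
  obtain ⟨G, c1, i1, o1, u1, z1⟩ := sch_param h2 h4 γ hγ p hp hb
  obtain ⟨H, c2, i2, o2, u2, z2⟩ := sch_param h2 h4 _ hγ' 0 h0' hb'
  set V := connectedComponentIn (γ '' UC)ᶜ p with hV
  set W := connectedComponentIn ((fun z => (γ z - p)⁻¹) '' UC)ᶜ 0 with hW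
  have hVs : V ⊆ (γ '' UC)ᶜ := connectedComponentIn_subset _ _
  let r : ℂ → ℂ := fun z => (starRingEnd ℂ z)⁻¹
  have hrn : ∀ z, ‖r z‖ = ‖z‖⁻¹ := fun z => by
    change ‖(starRingEnd ℂ z)⁻¹‖ = _
    rw [norm_inv, Complex.norm_conj]
  have hrr : ∀ z, r (r z) = z := fun z => by
    change (starRingEnd ℂ ((starRingEnd ℂ z)⁻¹))⁻¹ = z
    rw [map_inv₀, inv_inv, Complex.conj_conj]
  have hr1 : ∀ z ∈ UC, r z = z := by
    intro z hz
    rw [mem_sphere_zero_iff_norm] at hz
    change (starRingEnd ℂ z)⁻¹ = z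
    refine inv_eq_of_mul_eq_one_left ?_
    rw [Complex.mul_conj, Complex.normSq_eq_norm_sq, hz]
    norm_num
  have hrc : ContinuousOn r {z | 1 ≤ ‖z‖} := by
    refine (Complex.continuous_conj.continuousOn).inv₀ fun z hz => ?_
    rw [map_ne_zero]
    rintro rfl
    have h6 : (1 : ℝ) ≤ ‖(0 : ℂ)‖ := hz
    rw [norm_zero] at h6
    exact absurd h6 (not_le.2 one_pos)
  have hrCD : MapsTo r {z | 1 ≤ ‖z‖} CD := by
    intro z hz
    rw [mem_closedBall_zero_iff, hrn]
    exact inv_le_one_of_one_le₀ hz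
  have hr0 : ∀ z, 1 ≤ ‖z‖ → r z ≠ 0 := by
    intro z hz h
    have h6 : ‖r z‖ = 0 := by rw [h, norm_zero]
    rw [hrn, inv_eq_zero] at h6
    linarith
  have hH0 : ∀ z, 1 ≤ ‖z‖ → H (r z) ≠ 0 := by
    intro z hz h
    apply hr0 z hz
    exact i2 (hrCD hz) (mem_closedBall_self zero_le_one) (h.trans z2.symm)
  let g : ℂ → ℂ := fun z => if ‖z‖ ≤ 1 then G z else p + (H (r z))⁻¹
  have g1 : ∀ z, ‖z‖ ≤ 1 → g z = G z := fun z hz => if_pos hz
  have g2 : ∀ z, 1 < ‖z‖ → g z = p + (H (r z))⁻¹ := fun z hz => if_neg (not_le.2 hz)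
  have g2' : ∀ z, 1 ≤ ‖z‖ → g z = p + (H (r z))⁻¹ := by
    intro z hz
    rcases hz.lt_or_eq with h | h
    · exact g2 z h
    · have hzU : z ∈ UC := mem_sphere_zero_iff_norm.2 h.symm
      rw [g1 z h.symm.le, u1 z hzU, hr1 z hzU, u2 z hzU, inv_inv]
      ring
  have hgU : ∀ z ∈ UC, g z = γ z := by
    intro z hz
    rw [g1 z (mem_sphere_zero_iff_norm.1 hz).le, u1 z hz]
  -- continuity
  have hgc : Continuous g := by
    rw [← continuousOn_univ]
    have hu : (univ : Set ℂ) = CD ∪ {z | 1 ≤ ‖z‖} := by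
      ext z
      simp only [mem_univ, mem_union, mem_closedBall_zero_iff, mem_setOf_eq, true_iff]
      exact le_total _ _
    rw [hu]
    refine ContinuousOn.union_of_isClosed ?_ ?_ isClosed_closedBall
      (isClosed_le continuous_const continuous_norm)
    · exact c1.congr fun z hz => g1 z (mem_closedBall_zero_iff.1 hz)
    · refine ContinuousOn.congr ?_ fun z hz => g2' z hz
      exact continuousOn_const.add ((c2.comp hrc hrCD).inv₀ fun z hz => hH0 z hz)
  -- the outside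
  have hrOD : ∀ z, 1 < ‖z‖ → r z ∈ OD := by
    intro z hz
    rw [mem_ball_zero_iff, hrn]
    exact inv_lt_one_of_one_lt₀ hz
  have hHW : ∀ z, 1 < ‖z‖ → H (r z) ∈ W := fun z hz => by
    rw [← o2]
    exact mem_image_of_mem H (hrOD z hz)
  have hin : ∀ z, ‖z‖ ≤ 1 → G z ∈ V ∨ G z ∈ γ '' UC := by
    intro z hz
    rcases hz.lt_or_eq with h | h
    · left
      rw [← o1]
      exact mem_image_of_mem G (mem_ball_zero_iff.2 h)
    · right
      have hzU : z ∈ UC := mem_sphere_zero_iff_norm.2 h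
      exact ⟨z, hzU, (u1 z hzU).symm⟩
  have hne : ∀ z w, ‖z‖ ≤ 1 → 1 < ‖w‖ → g z ≠ g w := by
    intro z w hz hw h
    rw [g1 z hz, g2 w hw] at h
    obtain ⟨h7, h8⟩ := hdis (H (r w)) (hHW w hw) (hH0 w hw.le)
    rcases hin z hz with h9 | h9
    · rw [h] at h9
      exact h7 h9
    · rw [h] at h9
      exact h8 h9
  have hgi : Function.Injective g := by
    intro z w h
    rcases le_or_gt ‖z‖ 1 with hz | hz
    · rcases le_or_gt ‖w‖ 1 with hw | hw
      · rw [g1 z hz, g1 w hw] at h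
        exact i1 (mem_closedBall_zero_iff.2 hz) (mem_closedBall_zero_iff.2 hw) h
      · exact absurd h (hne z w hz hw)
    · rcases le_or_gt ‖w‖ 1 with hw | hw
      · exact absurd h.symm (hne w z hw hz)
      · rw [g2 z hz, g2 w hw] at h
        have h7 := inv_injective (add_left_cancel h)
        have h8 := i2 (hrCD hz.le) (hrCD hw.le) h7
        rw [← hrr z, h8, hrr]
  have hgs : Function.Surjective g := by
    intro y
    by_cases hyJ : y ∈ γ '' UC
    · obtain ⟨z, hz, rfl⟩ := hyJ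
      exact ⟨z, hgU z hz⟩
    · by_cases hyV : y ∈ V
      · rw [← o1] at hyV
        obtain ⟨z, hz, rfl⟩ := hyV
        exact ⟨z, g1 z (mem_ball_zero_iff.1 hz).le⟩
      · obtain ⟨hyp, hyW⟩ := hcov y hyJ hyV
        rw [← o2] at hyW
        obtain ⟨v, hv, hvy⟩ := hyW
        have hv0 : v ≠ 0 := by
          rintro rfl
          rw [z2] at hvy
          exact inv_ne_zero (sub_ne_zero.2 hyp) hvy.symm
        have hv1 : ‖v‖ < 1 := mem_ball_zero_iff.1 hv
        refine ⟨r v, ?_⟩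
        rw [g2 (r v), hrr, hvy, inv_inv]
        · ring
        · rw [hrn]
          exact one_lt_inv_iff₀.2 ⟨norm_pos_iff.2 hv0, hv1⟩
  -- properness
  have hgp : Tendsto g (cocompact ℂ) (cocompact ℂ) := by
    rw [← Metric.cobounded_eq_cocompact]
    have e1 : ∀ᶠ z in Bornology.cobounded ℂ, 1 < ‖z‖ :=
      (tendsto_norm_cobounded_atTop (E := ℂ)).eventually (eventually_gt_atTop 1)
    have t1 : Tendsto r (Bornology.cobounded ℂ) (𝓝 0) := by
      rw [tendsto_zero_iff_norm_tendsto_zero]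
      simp only [hrn]
      exact tendsto_inv_atTop_zero.comp tendsto_norm_cobounded_atTop
    have t2 : Tendsto H (𝓝 0) (𝓝 0) := by
      have h7 : ContinuousAt H 0 :=
        c2.continuousAt (closedBall_mem_nhds (0 : ℂ) one_pos)
      have h8 := h7.tendsto
      rwa [z2] at h8
    have t3 : Tendsto (fun z => H (r z)) (Bornology.cobounded ℂ) (𝓝[≠] 0) := by
      rw [tendsto_nhdsWithin_iff]
      refine ⟨t2.comp t1, ?_⟩
      filter_upwards [e1] with z hz
      exact hH0 z hz.le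
    have t4 : Tendsto (fun z => (H (r z))⁻¹) (Bornology.cobounded ℂ) (Bornology.cobounded ℂ) :=
      tendsto_inv₀_nhdsNE_zero.comp t3
    have t5 : Tendsto (fun z => p + (H (r z))⁻¹) (Bornology.cobounded ℂ)
        (Bornology.cobounded ℂ) := by
      rw [← tendsto_norm_atTop_iff_cobounded] at t4 ⊢
      refine tendsto_atTop_mono (f := fun z => ‖(H (r z))⁻¹‖ - ‖p‖) ?_
        (tendsto_atTop_add_const_right _ _ t4)
      intro z
      have h7 := norm_sub_le (p + (H (r z))⁻¹) p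
      rw [add_sub_cancel_left] at h7
      linarith
    refine t5.congr' ?_
    filter_upwards [e1] with z hz
    exact (g2 z hz).symm
  have hgcl : IsClosedMap g :=
    (isProperMap_iff_tendsto_cocompact.2 ⟨hgc, hgp⟩).isClosedMap
  have hgh : IsHomeomorph g :=
    isHomeomorph_iff_continuous_isClosedMap_bijective.2 ⟨hgc, hgcl, hgi, hgs⟩
  exact ⟨hgh.homeomorph g, hgU⟩

end Pool.Agent.SRF
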