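import Pool.Agent.SRF.StA

/-! # SRF/STR (helper52): simultaneous straightening of finitely many disjoint arcs -/

set_option autoImplicit false

open Set Metric Filter Topology

namespace Pool.Agent.SRF

/-- the boundary of the upper half disc: the upper half circle is mapped onto the segment `[-1, 1]`,
the lower half circle onto the upper half circle -/
private noncomputable def str_curve (z : ℂ) : ℂ :=
  ((z.re : ℝ) : ℂ) + ((max 0 (-z.im) : ℝ) : ℂ) * Complex.I

private theorem str_re (z : ℂ) : (str_curve z).re = z.re := by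
  simp [str_curve]

private theorem str_im (z : ℂ) : (str_curve z).im = max 0 (-z.im) := by
  simp [str_curve]

private theorem str_jordan : IsJordan str_curve := by
  constructor
  · apply Continuous.continuousOn
    unfold str_curve
    exact (Complex.continuous_ofReal.comp Complex.continuous_re).add
      ((Complex.continuous_ofReal.comp (continuous_const.max Complex.continuous_im.neg)).mul
        continuous_const)
  · intro z hz w hw h
    have h1 : z.re = w.re := by rw [← str_re z, ← str_re w, h]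
    have h2 : max 0 (-z.im) = max 0 (-w.im) := by rw [← str_im z, ← str_im w, h]
    have hz1 : z.re * z.re + z.im * z.im = 1 := by
      have h3 : ‖z‖ = 1 := by simpa using hz
      have h4 := Complex.normSq_eq_norm_sq z
      rw [h3, Complex.normSq_apply] at h4
      linarith
    have hw1 : w.re * w.re + w.im * w.im = 1 := by
      have h3 : ‖w‖ = 1 := by simpa using hw
      have h4 := Complex.normSq_eq_norm_sq w
      rw [h3, Complex.normSq_apply] at h4
      linarith
    have h5 : (z.im - w.im) * (z.im + w.im) = 0 := by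
      rw [h1] at hz1; nlinarith
    rcases mul_eq_zero.1 h5 with h6 | h6
    · exact Complex.ext h1 (by linarith)
    · have h7 : w.im = -z.im := by linarith
      rw [h7, neg_neg] at h2
      have h8 : z.im = 0 := by
        rcases lt_trichotomy z.im 0 with hlt | heq | hgt
        · rw [max_eq_right (by linarith : (0 : ℝ) ≤ -z.im), max_eq_left hlt.le] at h2
          linarith
        · exact heq
        · rw [max_eq_left (by linarith : -z.im ≤ (0 : ℝ)), max_eq_right hgt.le] at h2
          linarith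
      exact Complex.ext h1 (by rw [h7, h8]; simp)

private theorem str_carc_sub : carc 0 Real.pi ⊆ UC := by
  rintro _ ⟨t, -, rfl⟩
  simp [cexpi, Complex.norm_exp_ofReal_mul_I]

private theorem str_carc_real (z : ℂ) (hz : z ∈ carc 0 Real.pi) :
    str_curve z = ((z.re : ℝ) : ℂ) := by
  obtain ⟨t, ht, rfl⟩ := hz
  have him : 0 ≤ (cexpi t).im := by
    unfold cexpi
    rw [Complex.exp_ofReal_mul_I_im]
    exact Real.sin_nonneg_of_mem_Icc ht
  unfold str_curve
  rw [max_eq_left (by linarith : -(cexpi t).im ≤ (0 : ℝ))]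
  simp

theorem thm_STR (hCHN : St_CHN) (hSCH : St_SCH) : St_STR := by
  intro n α hα hdis ε hε hε2
  rcases n with - | n
  · exact ⟨Homeomorph.refl ℂ, fun i => i.elim0, fun i => i.elim0, fun i => i.elim0,
      fun i => i.elim0⟩
  obtain ⟨γ, hγ, hsub⟩ := hCHN n α hα hdis ε hε hε2
  obtain ⟨g₀, hg₀⟩ := hSCH γ hγ
  obtain ⟨g₁, hg₁⟩ := hSCH str_curve str_jordan
  have hreal : ∀ i, ∀ t ∈ Icc ε (1 - ε),
      (g₀.symm.trans g₁) (α i t) = ((((g₀.symm.trans g₁) (α i t)).re : ℝ) : ℂ) := by
    intro i t ht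
    obtain ⟨ζ, hζ, hζe⟩ := hsub i ⟨t, ht, rfl⟩
    have h1 : (g₀.symm.trans g₁) (α i t) = ((ζ.re : ℝ) : ℂ) := by
      rw [← hζe, ← hg₀ ζ (str_carc_sub hζ)]
      rw [Homeomorph.trans_apply, Homeomorph.symm_apply_apply, hg₁ ζ (str_carc_sub hζ),
        str_carc_real ζ hζ]
    rw [h1, Complex.ofReal_re]
  have hεε : ε < 1 - ε := by linarith
  have hIcc : Icc ε (1 - ε) ⊆ Icc (0 : ℝ) 1 := Icc_subset_Icc hε.le (by linarith)
  have himg : ∀ i, (fun t : ℝ => ((g₀.symm.trans g₁) (α i t)).re) '' Icc ε (1 - ε) =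
      Icc (sInf ((fun t : ℝ => ((g₀.symm.trans g₁) (α i t)).re) '' Icc ε (1 - ε)))
        (sSup ((fun t : ℝ => ((g₀.symm.trans g₁) (α i t)).re) '' Icc ε (1 - ε))) := by
    intro i
    refine ContinuousOn.image_Icc hεε.le ?_
    exact (Complex.continuous_re.comp (g₀.symm.trans g₁).continuous).comp_continuousOn
      ((hα i).1.mono hIcc)
  refine ⟨g₀.symm.trans g₁,
    fun i => sInf ((fun t : ℝ => ((g₀.symm.trans g₁) (α i t)).re) '' Icc ε (1 - ε)),
    fun i => sSup ((fun t : ℝ => ((g₀.symm.trans g₁) (α i t)).re) '' Icc ε (1 - ε)), ?_, ?_⟩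
  · intro i
    by_contra hcon
    rw [not_lt] at hcon
    have hsing := subsingleton_Icc_of_ge hcon
    rw [← himg i] at hsing
    have h1 := hsing ⟨ε, left_mem_Icc.2 hεε.le, rfl⟩ ⟨1 - ε, right_mem_Icc.2 hεε.le, rfl⟩
    have h2 : (g₀.symm.trans g₁) (α i ε) = (g₀.symm.trans g₁) (α i (1 - ε)) := by
      rw [hreal i ε (left_mem_Icc.2 hεε.le), hreal i (1 - ε) (right_mem_Icc.2 hεε.le)]
      exact congrArg _ h1
    have h3 := (hα i).2 (hIcc (left_mem_Icc.2 hεε.le)) (hIcc (right_mem_Icc.2 hεε.le))
      ((g₀.symm.trans g₁).injective h2)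
    linarith
  · intro i
    change _ = (fun x : ℝ => (x : ℂ)) ''
      Icc (sInf ((fun t : ℝ => ((g₀.symm.trans g₁) (α i t)).re) '' Icc ε (1 - ε)))
        (sSup ((fun t : ℝ => ((g₀.symm.trans g₁) (α i t)).re) '' Icc ε (1 - ε)))
    rw [← himg i, image_image, image_image]
    exact image_congr (hreal i)

end Pool.Agent.SRF
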