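import Pool.Agent.SRF.StA
import Pool.Agent.CT.H1

/-!
# SRF, TE (helper25): every tile extends to a coordinate disc
-/

set_option autoImplicit false

open Set Metric Filter Topology

namespace Pool.Agent.SRF

/-- invariance of domain -/
private theorem te_open {f : ℂ → ℂ} {U : Set ℂ} (hU : IsOpen U) (hf : ContinuousOn f U)
    (hi : InjOn f U) : IsOpen (f '' U) := by
  rw [isOpen_iff_mem_nhds]
  rintro _ ⟨z, hz, rfl⟩
  obtain ⟨r, hr, hsub⟩ := nhds_basis_closedBall.mem_iff.1 (hU.mem_nhds hz)
  have hr0 : (r : ℂ) ≠ 0 := by exact_mod_cast hr.ne'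
  have hmap : MapsTo (fun w : ℂ => z + r * w) (closedBall 0 1) U := by
    intro w hw
    apply hsub
    rw [mem_closedBall_zero_iff] at hw
    rw [mem_closedBall, dist_eq_norm, add_sub_cancel_left, norm_mul, Complex.norm_real,
      Real.norm_eq_abs, abs_of_pos hr]
    nlinarith [norm_nonneg w]
  have h1 := Pool.Agent.CT.h1 (fun w => f (z + r * w))
    (hf.comp (Continuous.continuousOn (by fun_prop)) hmap)
    (fun u hu v hv h => mul_left_cancel₀ hr0 (add_left_cancel (hi (hmap hu) (hmap hv) h)))
  rw [mem_interior_iff_mem_nhds] at h1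
  simp only [mul_zero, add_zero] at h1
  refine mem_of_superset h1 ?_
  rintro _ ⟨w, hw, rfl⟩
  exact ⟨_, hmap hw, rfl⟩

private theorem te_compl_conn : IsPreconnected (CDᶜ : Set ℂ) := by
  have h1 : IsPreconnected {z : ℂ | 0 < z.re} := (convex_halfSpace_re_gt 0).isPreconnected
  have h2 : (CDᶜ : Set ℂ) = Complex.exp '' {z : ℂ | 0 < z.re} := by
    ext w
    rw [mem_compl_iff, mem_closedBall_zero_iff, not_le]
    constructor
    · intro hw
      have hw0 : w ≠ 0 := by
        rintro rfl
        rw [norm_zero] at hw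
        linarith
      refine ⟨Complex.log w, ?_, Complex.exp_log hw0⟩
      change 0 < (Complex.log w).re
      rw [Complex.log_re]
      exact Real.log_pos hw
    · rintro ⟨z, hz, rfl⟩
      rw [Complex.norm_exp]
      exact Real.one_lt_exp_iff.2 hz
  rw [h2]
  exact h1.image _ Complex.continuous_exp.continuousOn

private theorem te_core {χ : ℂ → ℂ} (hc : ContinuousOn χ CD) (hi : InjOn χ CD)
    (hid : ∀ z ∈ UC, χ z = z) : χ '' OD = OD := by
  have hsub : OD ⊆ CD := ball_subset_closedBall
  have hsubU : UC ⊆ CD := sphere_subset_closedBall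
  have hopen : IsOpen (χ '' OD) := te_open isOpen_ball (hc.mono hsub) (hi.mono hsub)
  have hK : IsClosed (χ '' CD) := ((isCompact_closedBall 0 1).image_of_continuousOn hc).isClosed
  have hdisj : ∀ z ∈ OD, χ z ∉ UC := by
    intro z hz h
    have h1 := hi (hsub hz) (hsubU h) (hid _ h).symm
    rw [← h1] at h
    rw [mem_sphere_zero_iff_norm] at h
    rw [mem_ball_zero_iff] at hz
    linarith
  have hconn : IsPreconnected (χ '' OD) :=
    (convex_ball (0 : ℂ) 1).isPreconnected.image _ (hc.mono hsub)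
  have h0 : (0 : ℂ) ∈ OD := mem_ball_self one_pos
  have hcov : χ '' OD ⊆ OD ∪ CDᶜ := by
    rintro _ ⟨z, hz, rfl⟩
    have h1 := hdisj z hz
    rw [mem_sphere_zero_iff_norm] at h1
    rcases lt_or_gt_of_ne h1 with h2 | h2
    · exact Or.inl (mem_ball_zero_iff.2 h2)
    · refine Or.inr ?_
      rw [mem_compl_iff, mem_closedBall_zero_iff, not_le]
      exact h2
  have hcdo : IsOpen (CDᶜ : Set ℂ) := isClosed_closedBall.isOpen_compl
  have hdis : Disjoint (OD : Set ℂ) CDᶜ := disjoint_compl_right_iff_subset.2 hsub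
  -- a connected set which avoids the circle and meets the image lies in the image
  have hback : ∀ S : Set ℂ, IsPreconnected S → Disjoint S UC → χ 0 ∈ S → S ⊆ χ '' OD := by
    intro S hS hSU hS0
    refine hS.subset_left_of_subset_union hopen hK.isOpen_compl ?_ ?_ ⟨χ 0, hS0, 0, h0, rfl⟩
    · exact disjoint_compl_right_iff_subset.2 (image_mono hsub)
    · intro w hw
      by_cases h1 : w ∈ χ '' CD
      · obtain ⟨z, hz, rfl⟩ := h1
        rw [mem_closedBall_zero_iff] at hz
        rcases hz.lt_or_eq with h2 | h2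
        · exact Or.inl ⟨z, mem_ball_zero_iff.2 h2, rfl⟩
        · exfalso
          have h3 : z ∈ UC := mem_sphere_zero_iff_norm.2 h2
          rw [hid z h3] at hw
          exact (disjoint_left.1 hSU hw) h3
      · exact Or.inr h1
  rcases hcov ⟨0, h0, rfl⟩ with h1 | h1
  · refine Subset.antisymm ?_ ?_
    · exact hconn.subset_left_of_subset_union isOpen_ball hcdo hdis hcov
        ⟨χ 0, ⟨0, h0, rfl⟩, h1⟩
    · refine hback OD (convex_ball (0 : ℂ) 1).isPreconnected ?_ h1
      rw [disjoint_left]
      intro w hw hw'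
      rw [mem_sphere_zero_iff_norm] at hw'
      rw [mem_ball_zero_iff] at hw
      linarith
  · exfalso
    have h2 := hback CDᶜ te_compl_conn (by
      rw [disjoint_left]
      intro w hw hw'
      exact hw (hsubU hw')) h1
    have h3 : Bornology.IsBounded (χ '' CD) :=
      ((isCompact_closedBall 0 1).image_of_continuousOn hc).isBounded
    obtain ⟨R, hR, hsubR⟩ := h3.subset_ball_lt 1 (0 : ℂ)
    have h4 : ((R : ℝ) : ℂ) ∈ (CDᶜ : Set ℂ) := by
      rw [mem_compl_iff, mem_closedBall_zero_iff, not_le, Complex.norm_real,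
        Real.norm_of_nonneg (by linarith)]
      exact hR
    have h5 := hsubR (image_mono hsub (h2 h4))
    rw [mem_ball_zero_iff, Complex.norm_real, Real.norm_of_nonneg (by linarith)] at h5
    exact lt_irrefl _ h5

open Classical in
private theorem te_homeo {χ : ℂ → ℂ} (hc : ContinuousOn χ CD) (hi : InjOn χ CD)
    (hid : ∀ z ∈ UC, χ z = z) : ∃ Θ : ℂ ≃ₜ ℂ, EqOn Θ χ CD := by
  have himg := te_core hc hi hid
  set t : ℂ → ℂ := fun z => if ‖z‖ ≤ 1 then χ z else z with ht
  have htin : ∀ z, ‖z‖ ≤ 1 → t z = χ z := fun z hz => by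
    rw [ht]
    exact if_pos hz
  have htout : ∀ z, 1 ≤ ‖z‖ → t z = z := fun z hz => by
    rcases hz.lt_or_eq with h | h
    · rw [ht]
      exact if_neg (not_le.2 h)
    · rw [htin z h.ge]
      exact hid z (mem_sphere_zero_iff_norm.2 h.symm)
  have htlt : ∀ z, ‖z‖ < 1 → ‖t z‖ < 1 := fun z hz => by
    rw [htin z hz.le]
    have h1 : χ z ∈ χ '' OD := ⟨z, mem_ball_zero_iff.2 hz, rfl⟩
    rw [himg, mem_ball_zero_iff] at h1
    exact h1
  have hcont : Continuous t := by
    rw [ht]
    refine continuous_if_le continuous_norm continuous_const ?_ continuous_id.continuousOn ?_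
    · refine hc.mono ?_
      intro z hz
      exact mem_closedBall_zero_iff.2 hz
    · intro z hz
      exact hid z (mem_sphere_zero_iff_norm.2 hz)
  have hinj : Function.Injective t := by
    intro z w h
    rcases lt_or_ge ‖z‖ 1 with hz | hz
    · rcases lt_or_ge ‖w‖ 1 with hw | hw
      · rw [htin z hz.le, htin w hw.le] at h
        exact hi (mem_closedBall_zero_iff.2 hz.le) (mem_closedBall_zero_iff.2 hw.le) h
      · exfalso
        have h1 := htlt z hz
        rw [h, htout w hw] at h1
        linarith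
    · rcases lt_or_ge ‖w‖ 1 with hw | hw
      · exfalso
        have h1 := htlt w hw
        rw [← h, htout z hz] at h1
        linarith
      · rw [htout z hz, htout w hw] at h
        exact h
  have hsurj : Function.Surjective t := by
    intro w
    rcases lt_or_ge ‖w‖ 1 with hw | hw
    · have h1 : w ∈ χ '' OD := by
        rw [himg]
        exact mem_ball_zero_iff.2 hw
      obtain ⟨z, hz, rfl⟩ := h1
      exact ⟨z, htin z (mem_ball_zero_iff.1 hz).le⟩
    · exact ⟨w, htout w hw⟩
  have hprop : IsProperMap t := by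
    rw [isProperMap_iff_tendsto_cocompact]
    refine ⟨hcont, ?_⟩
    refine tendsto_id.congr' ?_
    have h1 : (CDᶜ : Set ℂ) ∈ cocompact ℂ := (isCompact_closedBall 0 1).compl_mem_cocompact
    filter_upwards [h1] with z hz
    rw [mem_compl_iff, mem_closedBall_zero_iff, not_le] at hz
    rw [htout z hz.le]
    rfl
  have hhom : IsHomeomorph t :=
    isHomeomorph_iff_continuous_isClosedMap_bijective.2 ⟨hcont, hprop.isClosedMap, hinj, hsurj⟩
  refine ⟨hhom.homeomorph, fun z hz => ?_⟩
  exact htin z (mem_closedBall_zero_iff.1 hz)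

/-- **TE.** -/
theorem thm_TE (hS : St_SCH) (_hI : St_INV) : St_TE := by
  intro X _ _ e he
  obtain ⟨hec, hei, φ, hφ, hr⟩ := he
  set ψ : ℂ → ℂ := fun z => Function.invFun φ (e z) with hψ
  have hφψ : ∀ z ∈ CD, φ (ψ z) = e z := fun z hz =>
    Function.invFun_eq (hr ⟨z, hz, rfl⟩)
  have hψc : ContinuousOn ψ CD := by
    rw [hφ.toIsEmbedding.toIsInducing.continuousOn_iff]
    exact hec.congr fun z hz => hφψ z hz
  have hψi : InjOn ψ CD := by
    intro z hz w hw h
    apply hei hz hw
    rw [← hφψ z hz, ← hφψ w hw, h]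
  have hsubU : UC ⊆ CD := sphere_subset_closedBall
  obtain ⟨g, hg⟩ := hS ψ ⟨hψc.mono hsubU, hψi.mono hsubU⟩
  obtain ⟨Θ, hΘ⟩ := te_homeo (χ := fun z => g.symm (ψ z))
    (g.symm.continuous.comp_continuousOn hψc)
    (fun z hz w hw h => hψi hz hw (g.symm.injective h))
    (fun z hz => by
      rw [← hg z hz]
      exact g.symm_apply_apply z)
  refine ⟨φ ∘ g ∘ Θ, hφ.comp (g.isOpenEmbedding.comp Θ.isOpenEmbedding), fun z hz => ?_⟩
  change φ (g (Θ z)) = e z
  rw [hΘ hz]
  change φ (g (g.symm (ψ z))) = e z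
  rw [g.apply_symm_apply, hφψ z hz]

end Pool.Agent.SRF
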