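import Pool.Agent.SRF.StA
import Pool.Agent.CT.H1

set_option autoImplicit false

/-! # SRF, module TH: crosscuts (theta lemma) -/

open Set Metric Filter Topology

namespace Pool.Agent.SRF

/-! ### Schoenflies for convex bodies, invariance of domain -/

theorem th_convex (hSCH : St_SCH) {S : Set ℂ} (hc : Convex ℝ S) (hb : Bornology.IsBounded S)
    (hne : (interior S).Nonempty) {f : ℂ → ℂ} (hf : ContinuousOn f (frontier S))
    (hi : InjOn f (frontier S)) : ∃ h : ℂ ≃ₜ ℂ, ∀ z ∈ frontier S, h z = f z := by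
  obtain ⟨k, _, _, hk⟩ := exists_homeomorph_image_interior_closure_frontier_eq_unitBall hc hne hb
  have hmap : MapsTo k.symm UC (frontier S) := by
    intro z hz
    have h1 : z ∈ k '' frontier S := by rw [hk]; exact hz
    obtain ⟨w, hw, rfl⟩ := h1
    rwa [k.symm_apply_apply]
  obtain ⟨g, hg⟩ := hSCH (fun z => f (k.symm z))
    ⟨hf.comp k.symm.continuous.continuousOn hmap,
      fun x hx y hy h => k.symm.injective (hi (hmap hx) (hmap hy) h)⟩
  refine ⟨k.trans g, fun z hz => ?_⟩
  have h1 : k z ∈ UC := by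
    have h2 : k z ∈ k '' frontier S := ⟨z, hz, rfl⟩
    rwa [hk] at h2
  change g (k z) = f z
  rw [hg _ h1, k.symm_apply_apply]

/-- injective continuous maps of the plane are open -/
theorem th_open {F : ℂ → ℂ} (hF : Continuous F) (hi : Function.Injective F) : IsOpenMap F := by
  intro U hU
  rw [isOpen_iff_mem_nhds]
  rintro _ ⟨z, hz, rfl⟩
  obtain ⟨r, hr, hrU⟩ := Metric.nhds_basis_closedBall.mem_iff.mp (hU.mem_nhds hz)
  have h1 := CT.h1 (fun w => F (z + r * w)) (by fun_prop) (by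
    intro x _ y _ h
    have h2 := hi h
    have hr' : (r : ℂ) ≠ 0 := by exact_mod_cast hr.ne'
    exact mul_left_cancel₀ hr' (add_left_cancel h2))
  have h2 : (fun w : ℂ => F (z + r * w)) '' closedBall 0 1 ⊆ F '' U := by
    rintro _ ⟨w, hw, rfl⟩
    refine ⟨z + r * w, hrU ?_, rfl⟩
    rw [mem_closedBall, dist_eq_norm, add_sub_cancel_left, norm_mul, Complex.norm_real,
      Real.norm_eq_abs, abs_of_pos hr]
    rw [mem_closedBall_zero_iff] at hw
    nlinarith
  have h3 := interior_mono h2 h1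
  simp only [mul_zero, add_zero] at h3
  exact mem_interior_iff_mem_nhds.mp h3

/-- an injective continuous map of the plane which is the identity off the disc is a
homeomorphism -/
theorem th_homeo {F : ℂ → ℂ} (hF : Continuous F) (hi : Function.Injective F)
    (hid : ∀ z, z ∉ OD → F z = z) : ∃ G : ℂ ≃ₜ ℂ, ∀ z, G z = F z := by
  have hop := th_open hF hi
  have hsurj : Function.Surjective F := by
    have h1 : IsClosed (range F) := by
      have h2 : range F = F '' CD ∪ ODᶜ := by
        ext w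
        constructor
        · rintro ⟨z, rfl⟩
          by_cases hz : z ∈ OD
          · exact Or.inl ⟨z, ball_subset_closedBall hz, rfl⟩
          · right
            rw [hid z hz]; exact hz
        · rintro (⟨z, _, rfl⟩ | hw)
          · exact ⟨z, rfl⟩
          · exact ⟨w, hid w hw⟩
      rw [h2]
      exact ((isCompact_closedBall (0 : ℂ) 1).image hF).isClosed.union
        isOpen_ball.isClosed_compl
    have h2 : IsOpen (range F) := hop.isOpen_range
    have h3 : range F = univ := IsClopen.eq_univ ⟨h1, h2⟩ ⟨F 0, 0, rfl⟩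
    exact range_eq_univ.mp h3
  exact ⟨(Equiv.ofBijective F ⟨hi, hsurj⟩).toHomeomorphOfContinuousOpen hF hop, fun z => rfl⟩

/-! ### Chords of the disc -/

/-- the side of the line through `u` and `v` -/
def thL (u v z : ℂ) : ℝ := (z.im - u.im) * (v.re - u.re) - (z.re - u.re) * (v.im - u.im)

/-- the coordinate along the chord -/
noncomputable def thS (u v z : ℂ) : ℝ :=
  ((z.re - u.re) * (v.re - u.re) + (z.im - u.im) * (v.im - u.im)) /
    ((v.re - u.re) ^ 2 + (v.im - u.im) ^ 2)

/-- half discs -/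
def thH (u v : ℂ) (e : ℝ) : Set ℂ := {z | z ∈ CD ∧ 0 ≤ e * thL u v z}

theorem th_norm_sq (z : ℂ) : ‖z‖ ^ 2 = z.re ^ 2 + z.im ^ 2 := by
  rw [← Complex.normSq_eq_norm_sq, Complex.normSq_apply]; ring

theorem th_mem_CD (z : ℂ) : z ∈ CD ↔ z.re ^ 2 + z.im ^ 2 ≤ 1 := by
  rw [mem_closedBall_zero_iff, ← th_norm_sq]
  have := norm_nonneg z
  constructor
  · intro h; nlinarith
  · intro h; nlinarith

theorem th_mem_OD (z : ℂ) : z ∈ OD ↔ z.re ^ 2 + z.im ^ 2 < 1 := by
  rw [mem_ball_zero_iff, ← th_norm_sq]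
  have := norm_nonneg z
  constructor
  · intro h; nlinarith
  · intro h; nlinarith

theorem th_mem_UC (z : ℂ) : z ∈ UC ↔ z.re ^ 2 + z.im ^ 2 = 1 := by
  rw [mem_sphere_zero_iff_norm, ← th_norm_sq]
  have := norm_nonneg z
  constructor
  · intro h; rw [h]; norm_num
  · intro h; nlinarith

section chord

variable {u v : ℂ} (hu : u ∈ UC) (hv : v ∈ UC) (huv : u ≠ v)

include huv in
theorem th_d : 0 < (v.re - u.re) ^ 2 + (v.im - u.im) ^ 2 := by
  by_contra h
  have h1 : v.re - u.re = 0 := by nlinarith [sq_nonneg (v.re - u.re), sq_nonneg (v.im - u.im)]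
  have h2 : v.im - u.im = 0 := by nlinarith [sq_nonneg (v.re - u.re), sq_nonneg (v.im - u.im)]
  apply huv
  apply Complex.ext <;> linarith

include huv in
theorem th_line {z : ℂ} (hz : thL u v z = 0) : z = u + (thS u v z : ℂ) * (v - u) := by
  have hd := th_d huv
  have hs : thS u v z * ((v.re - u.re) ^ 2 + (v.im - u.im) ^ 2) =
      (z.re - u.re) * (v.re - u.re) + (z.im - u.im) * (v.im - u.im) := by
    unfold thS
    exact div_mul_cancel₀ _ hd.ne'
  unfold thL at hz
  generalize thS u v z = s at hs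
  apply Complex.ext
  · have h1 : (u + (s : ℂ) * (v - u)).re = u.re + s * (v.re - u.re) := by simp
    rw [h1]
    have h2 : (z.re - u.re - s * (v.re - u.re)) *
        ((v.re - u.re) ^ 2 + (v.im - u.im) ^ 2) = 0 := by
      linear_combination (-(v.im - u.im)) * hz - (v.re - u.re) * hs
    rcases mul_eq_zero.mp h2 with h3 | h3
    · linarith
    · exact absurd h3 hd.ne'
  · have h1 : (u + (s : ℂ) * (v - u)).im = u.im + s * (v.im - u.im) := by simp
    rw [h1]
    have h2 : (z.im - u.im - s * (v.im - u.im)) *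
        ((v.re - u.re) ^ 2 + (v.im - u.im) ^ 2) = 0 := by
      linear_combination (v.re - u.re) * hz - (v.im - u.im) * hs
    rcases mul_eq_zero.mp h2 with h3 | h3
    · linarith
    · exact absurd h3 hd.ne'

include hu hv in
theorem th_sq (t : ℝ) : (u + (t : ℂ) * (v - u)).re ^ 2 + (u + (t : ℂ) * (v - u)).im ^ 2 =
    1 + (t ^ 2 - t) * ((v.re - u.re) ^ 2 + (v.im - u.im) ^ 2) := by
  rw [th_mem_UC] at hu hv
  simp
  linear_combination (1 - t) * hu + t * hv

include hu hv huv in
theorem th_seg {z : ℂ} (hz : thL u v z = 0) (hzD : z ∈ CD) : thS u v z ∈ Icc (0 : ℝ) 1 := by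
  have hd := th_d huv
  rw [th_line huv hz, th_mem_CD, th_sq hu hv] at hzD
  set t := thS u v z
  have h1 : t ^ 2 - t ≤ 0 := by
    by_contra h
    push Not at h
    have := mul_pos h hd
    linarith
  constructor
  · by_contra h
    push Not at h
    nlinarith
  · by_contra h
    push Not at h
    nlinarith

theorem th_L_chord (t : ℝ) : thL u v (u + (t : ℂ) * (v - u)) = 0 := by
  simp [thL]
  ring

include huv in
theorem th_S_chord (t : ℝ) : thS u v (u + (t : ℂ) * (v - u)) = t := by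
  have hd := (th_d huv).ne'
  simp only [thS]
  rw [div_eq_iff hd]
  simp
  ring

include hu hv huv in
theorem th_chord_CD {t : ℝ} (ht : t ∈ Icc (0 : ℝ) 1) : u + (t : ℂ) * (v - u) ∈ CD := by
  have hd := th_d huv
  rw [th_mem_CD, th_sq hu hv]
  have h1 : t ^ 2 - t ≤ 0 := by nlinarith [ht.1, ht.2]
  nlinarith

theorem th_L_cont : Continuous (thL u v) := by
  unfold thL
  fun_prop

theorem th_S_cont : Continuous (thS u v) := by
  unfold thS
  fun_prop

theorem th_H_closed (e : ℝ) : IsClosed (thH u v e) := by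
  have h1 : thH u v e = CD ∩ {z | 0 ≤ e * thL u v z} := rfl
  rw [h1]
  exact isClosed_closedBall.inter
    (isClosed_le continuous_const (continuous_const.mul th_L_cont))

theorem th_H_convex (e : ℝ) : Convex ℝ (thH u v e) := by
  have h1 : thH u v e = CD ∩ {z | 0 ≤ e * thL u v z} := rfl
  rw [h1]
  refine (convex_closedBall (0 : ℂ) 1).inter ?_
  intro x hx y hy a b ha hb hab
  simp only [mem_ofPred_eq] at hx hy ⊢
  have h2 : e * thL u v (a • x + b • y) = a * (e * thL u v x) + b * (e * thL u v y) := by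
    simp only [thL, Complex.add_re, Complex.add_im, Complex.real_smul, Complex.mul_re,
      Complex.mul_im, Complex.ofReal_re, Complex.ofReal_im]
    have hb' : b = 1 - a := by linarith
    subst hb'
    ring
  rw [h2]
  positivity

theorem th_H_bdd (e : ℝ) : Bornology.IsBounded (thH u v e) :=
  isBounded_closedBall.subset fun _ hz => hz.1

/-- the points `i (v - u) / |v - u|` and its negative -/
theorem th_top (hu : u ∈ UC) (hv : v ∈ UC) (huv : u ≠ v) {e : ℝ} (he : e ^ 2 = 1) :
    ∃ p ∈ UC, 0 < e * thL u v p := by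
  have hd := th_d huv
  rw [th_mem_UC] at hu hv
  set d := (v.re - u.re) ^ 2 + (v.im - u.im) ^ 2 with hdd
  have hs := Real.sqrt_pos.mpr hd
  have hss := Real.sq_sqrt hd.le
  refine ⟨⟨-(e * (v.im - u.im) / √d), e * (v.re - u.re) / √d⟩, ?_, ?_⟩
  · rw [th_mem_UC]
    simp only
    have h1 : (-(e * (v.im - u.im) / √d)) ^ 2 + (e * (v.re - u.re) / √d) ^ 2 =
        e ^ 2 * d / (√d) ^ 2 := by
      rw [hdd]; ring
    rw [h1, hss, he, one_mul, div_self hd.ne']
  · simp only [thL]
    have h1 : e * ((e * (v.re - u.re) / √d - u.im) * (v.re - u.re) -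
        (-(e * (v.im - u.im) / √d) - u.re) * (v.im - u.im)) =
        e ^ 2 * d / √d - e * (u.im * (v.re - u.re) - u.re * (v.im - u.im)) := by
      rw [hdd]; ring
    rw [h1, he, one_mul]
    have h2 : d / √d = √d := by
      rw [div_eq_iff hs.ne']
      nlinarith
    rw [h2]
    have h3 : (e * (u.im * (v.re - u.re) - u.re * (v.im - u.im))) ^ 2 < (√d) ^ 2 := by
      rw [hss, mul_pow, he, one_mul]
      have h4 : u.re * (v.re - u.re) + u.im * (v.im - u.im) = - d / 2 := by
        rw [hdd]; linarith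
      have h5 : (u.im * (v.re - u.re) - u.re * (v.im - u.im)) ^ 2 +
          (u.re * (v.re - u.re) + u.im * (v.im - u.im)) ^ 2 = (u.re ^ 2 + u.im ^ 2) * d := by
        rw [hdd]; ring
      rw [h4, hu] at h5
      nlinarith
    have h4 := abs_lt_of_sq_lt_sq h3 hs.le
    have h5 := (abs_lt.mp h4).2
    linarith

theorem th_H_int (e : ℝ) {z : ℂ} (hz : z ∈ OD) (hL : 0 < e * thL u v z) :
    z ∈ interior (thH u v e) := by
  rw [mem_interior]
  refine ⟨OD ∩ {z | 0 < e * thL u v z}, fun w hw => ⟨ball_subset_closedBall hw.1, hw.2.le⟩, ?_,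
    hz, hL⟩
  exact isOpen_ball.inter (isOpen_lt continuous_const (continuous_const.mul th_L_cont))

theorem th_H_int_OD (e : ℝ) {z : ℂ} (hz : z ∈ interior (thH u v e)) : z ∈ OD := by
  have h1 : interior (thH u v e) ⊆ interior CD := interior_mono fun w hw => hw.1
  have h2 := h1 hz
  rwa [interior_closedBall (0 : ℂ) one_ne_zero] at h2

include huv in
theorem th_H_int_L {e : ℝ} (he : e ^ 2 = 1) {z : ℂ} (hz : z ∈ interior (thH u v e)) :
    0 < e * thL u v z := by
  have hd := th_d huv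
  have hc : ContinuousAt (fun t : ℝ => z - (t : ℂ) * ((e : ℂ) * (Complex.I * (v - u)))) 0 := by
    fun_prop
  have h1 : ∀ᶠ t : ℝ in 𝓝 0, z - (t : ℂ) * ((e : ℂ) * (Complex.I * (v - u))) ∈ thH u v e := by
    have h2 : thH u v e ∈ 𝓝 (z - ((0 : ℝ) : ℂ) * ((e : ℂ) * (Complex.I * (v - u)))) := by
      simpa using mem_interior_iff_mem_nhds.mp hz
    exact hc.eventually_mem h2
  obtain ⟨t, ht, ht0⟩ := ((h1.filter_mono nhdsWithin_le_nhds).and
    (self_mem_nhdsWithin : Ioi (0 : ℝ) ∈ 𝓝[>] 0)).exists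
  have h3 := ht.2
  have h4 : e * thL u v (z - (t : ℂ) * ((e : ℂ) * (Complex.I * (v - u)))) =
      e * thL u v z - e ^ 2 * t * ((v.re - u.re) ^ 2 + (v.im - u.im) ^ 2) := by
    simp [thL]
    ring
  rw [h4, he, one_mul] at h3
  have h5 : 0 < t * ((v.re - u.re) ^ 2 + (v.im - u.im) ^ 2) := mul_pos ht0 hd
  linarith

include hu hv huv in
theorem th_H_ne {e : ℝ} (he : e ^ 2 = 1) : (interior (thH u v e)).Nonempty := by
  obtain ⟨p, hp, hpL⟩ := th_top hu hv huv he
  have hc : ContinuousAt (fun r : ℝ => e * thL u v ((r : ℂ) * p)) 1 := by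
    have h0 := th_L_cont (u := u) (v := v)
    fun_prop
  have h1 : ∀ᶠ r : ℝ in 𝓝 1, 0 < e * thL u v ((r : ℂ) * p) := by
    refine hc.eventually (lt_mem_nhds ?_)
    simpa using hpL
  have h2 : ∀ᶠ r : ℝ in 𝓝[<] 1, 0 < e * thL u v ((r : ℂ) * p) ∧ r < 1 ∧ 0 < r := by
    filter_upwards [h1.filter_mono nhdsWithin_le_nhds, self_mem_nhdsWithin,
      nhdsWithin_le_nhds (lt_mem_nhds (show (0 : ℝ) < 1 by norm_num))] with r a1 a2 a3
    exact ⟨a1, a2, a3⟩
  obtain ⟨r, hr, hr1, hr0⟩ := h2.exists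
  refine ⟨(r : ℂ) * p, th_H_int e ?_ hr⟩
  rw [mem_ball_zero_iff, norm_mul, Complex.norm_real, Real.norm_eq_abs, abs_of_pos hr0,
    mem_sphere_zero_iff_norm.mp hp, mul_one]
  exact hr1

include huv in
theorem th_H_fr {e : ℝ} (he : e ^ 2 = 1) (z : ℂ) : z ∈ frontier (thH u v e) ↔
    z ∈ thH u v e ∧ (z ∈ UC ∨ thL u v z = 0) := by
  have he0 : e ≠ 0 := by intro h; rw [h] at he; norm_num at he
  rw [(th_H_closed e).frontier_eq]
  constructor
  · rintro ⟨h1, h2⟩
    refine ⟨h1, ?_⟩
    by_contra hcon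
    push Not at hcon
    apply h2
    refine th_H_int e ?_ ?_
    · have h3 := (th_mem_CD z).mp h1.1
      rw [th_mem_OD]
      refine lt_of_le_of_ne h3 fun h => hcon.1 ((th_mem_UC z).mpr h)
    · refine lt_of_le_of_ne h1.2 fun h => hcon.2 ?_
      rcases mul_eq_zero.mp h.symm with h | h
      · exact absurd h he0
      · exact h
  · rintro ⟨h1, h2⟩
    refine ⟨h1, fun h3 => ?_⟩
    rcases h2 with h2 | h2
    · have h4 := th_H_int_OD e h3
      rw [mem_ball_zero_iff] at h4
      rw [mem_sphere_zero_iff_norm] at h2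
      linarith
    · have h4 := th_H_int_L huv he h3
      rw [h2, mul_zero] at h4
      exact lt_irrefl _ h4

end chord

/-! ### Components -/

theorem th_split {P S : Set ℂ} (hP : IsPreconnected P) (hS : IsClosed S)
    (hd : Disjoint P (frontier S)) : P ⊆ interior S ∨ P ⊆ Sᶜ := by
  refine hP.subset_or_subset isOpen_interior hS.isOpen_compl ?_ ?_
  · rw [Set.disjoint_left]
    exact fun z hz hz' => hz' (interior_subset hz)
  · intro z hz
    by_cases hzS : z ∈ S
    · left
      by_contra h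
      refine Set.disjoint_left.mp hd hz ?_
      rw [hS.frontier_eq]
      exact ⟨hzS, h⟩
    · exact Or.inr hzS

theorem th_out : IsPreconnected (CD)ᶜ := by
  have h1 : (CD)ᶜ = (fun p : ℝ × ℂ => (p.1 : ℂ) * p.2) '' (Ioi (1 : ℝ) ×ˢ UC) := by
    ext z
    rw [mem_compl_iff, mem_closedBall_zero_iff, not_le]
    constructor
    · intro hz
      have h0 : (‖z‖ : ℂ) ≠ 0 := by
        have : ‖z‖ ≠ 0 := by linarith
        exact_mod_cast this
      refine ⟨(‖z‖, z / ‖z‖), ⟨hz, ?_⟩, ?_⟩
      · rw [mem_sphere_zero_iff_norm, norm_div, Complex.norm_real, norm_norm, div_self]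
        linarith
      · change (‖z‖ : ℂ) * (z / ‖z‖) = z
        field_simp
    · rintro ⟨⟨r, w⟩, ⟨hr, hw⟩, rfl⟩
      rw [mem_sphere_zero_iff_norm] at hw
      simp only [norm_mul, Complex.norm_real, Real.norm_eq_abs]
      rw [hw, mul_one]
      exact lt_of_lt_of_le hr (le_abs_self r)
  rw [h1]
  refine (isPreconnected_Ioi.prod (isPreconnected_sphere ?_ 0 1)).image _ ?_
  · rw [Complex.rank_real_complex]; norm_num
  · fun_prop

theorem th_in {S : Set ℂ} (hS : IsClosed S) (hb : Bornology.IsBounded S) (h : ℂ ≃ₜ ℂ)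
    (hfr : ∀ z ∈ frontier S, h z ∈ CD) : (∀ z ∈ S, h z ∈ CD) ∧ ∀ z ∈ interior S, h z ∈ OD := by
  have key : ∀ z ∈ S, h z ∈ CD := by
    have hP : IsPreconnected (h.symm '' (CD)ᶜ) := th_out.image _ h.symm.continuous.continuousOn
    have hd : Disjoint (h.symm '' (CD)ᶜ) (frontier S) := by
      rw [Set.disjoint_left]
      rintro _ ⟨w, hw, rfl⟩ hw2
      have h1 := hfr _ hw2
      rw [h.apply_symm_apply] at h1
      exact hw h1
    rcases th_split hP hS hd with h1 | h1
    · exfalso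
      have hc : IsCompact (h '' S) :=
        (Metric.isCompact_of_isClosed_isBounded hS hb).image h.continuous
      obtain ⟨R, hR⟩ := hc.isBounded.subset_closedBall (0 : ℂ)
      have h2 : ((|R| + 2 : ℝ) : ℂ) ∈ (CD)ᶜ := by
        rw [mem_compl_iff, mem_closedBall_zero_iff, Complex.norm_real, Real.norm_eq_abs, not_le]
        have := abs_nonneg R
        rw [abs_of_pos (by linarith)]
        linarith
      have h3 := interior_subset (h1 ⟨_, h2, rfl⟩)
      have h4 := hR ⟨_, h3, rfl⟩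
      rw [h.apply_symm_apply, mem_closedBall_zero_iff, Complex.norm_real, Real.norm_eq_abs] at h4
      have h5 := abs_nonneg R
      rw [abs_of_pos (by linarith)] at h4
      have := le_abs_self R
      linarith
    · intro z hz
      by_contra hcon
      exact h1 ⟨h z, hcon, h.symm_apply_apply z⟩ hz
  refine ⟨key, fun z hz => ?_⟩
  have h1 : h '' interior S ⊆ interior CD := by
    refine interior_maximal ?_ (h.isOpenMap _ isOpen_interior)
    rintro _ ⟨w, hw, rfl⟩
    exact key w (interior_subset hw)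
  have h2 := h1 ⟨z, hz, rfl⟩
  rwa [interior_closedBall (0 : ℂ) one_ne_zero] at h2

section main

/-- the data: `f` on the union of the circle and the chord -/
structure ThD (u v : ℂ) (f : ℂ → ℂ) : Prop where
  hu : u ∈ UC
  hv : v ∈ UC
  huv : u ≠ v
  fU : ∀ z ∈ UC, f z = z
  fC : ∀ z ∈ CD, thL u v z = 0 → z ∉ UC → f z ∈ OD
  cont : ContinuousOn f (UC ∪ {z | z ∈ CD ∧ thL u v z = 0})
  inj : InjOn f (UC ∪ {z | z ∈ CD ∧ thL u v z = 0})

theorem th_fr_sub {u v : ℂ} (huv : u ≠ v) {e : ℝ} (he : e ^ 2 = 1) :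
    frontier (thH u v e) ⊆ UC ∪ {z | z ∈ CD ∧ thL u v z = 0} := by
  intro z hz
  obtain ⟨h1, h2⟩ := (th_H_fr huv he z).mp hz
  rcases h2 with h2 | h2
  · exact Or.inl h2
  · exact Or.inr ⟨h1.1, h2⟩

theorem th_fr_CD {u v : ℂ} {f : ℂ → ℂ} (D : ThD u v f) {e : ℝ} (he : e ^ 2 = 1) {h : ℂ ≃ₜ ℂ}
    (hh : ∀ z ∈ frontier (thH u v e), h z = f z) :
    ∀ z ∈ frontier (thH u v e), h z ∈ CD := by
  intro z hz
  rw [hh z hz]
  by_cases hzU : z ∈ UC
  · rw [D.fU z hzU]; exact sphere_subset_closedBall hzU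
  · rcases th_fr_sub D.huv he hz with h1 | h1
    · exact absurd h1 hzU
    · exact ball_subset_closedBall (D.fC z h1.1 h1.2 hzU)

/-- the images of the interiors miss the other half -/
theorem th_disj {u v : ℂ} {f : ℂ → ℂ} (D : ThD u v f) {e : ℝ} (he : e ^ 2 = 1) {h h' : ℂ ≃ₜ ℂ}
    (hh : ∀ z ∈ frontier (thH u v e), h z = f z)
    (hh' : ∀ z ∈ frontier (thH u v (-e)), h' z = f z) :
    ∀ z ∈ interior (thH u v e), ∀ w ∈ thH u v (-e), h z ≠ h' w := by
  have he' : (-e) ^ 2 = 1 := by rw [neg_sq]; exact he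
  have hin := th_in (th_H_closed e) (th_H_bdd e) h (th_fr_CD D he hh)
  have hin' := th_in (th_H_closed (-e)) (th_H_bdd (-e)) h' (th_fr_CD D he' hh')
  have hP : IsPreconnected ((fun z => h'.symm (h z)) '' interior (thH u v e)) :=
    (th_H_convex e).interior.isPreconnected.image _
      (h'.symm.continuous.comp h.continuous).continuousOn
  have hd : Disjoint ((fun z => h'.symm (h z)) '' interior (thH u v e))
      (frontier (thH u v (-e))) := by
    rw [Set.disjoint_left]
    rintro _ ⟨z, hz, rfl⟩ hw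
    obtain ⟨w, hwdef⟩ : ∃ w, w = h'.symm (h z) := ⟨_, rfl⟩
    simp only [← hwdef] at hw
    have h1 : h' w = h z := by rw [hwdef, h'.apply_symm_apply]
    rw [hh' w hw] at h1
    have h2 := hin.2 z hz
    by_cases hwU : w ∈ UC
    · rw [D.fU w hwU] at h1
      rw [← h1, mem_ball_zero_iff] at h2
      rw [mem_sphere_zero_iff_norm] at hwU
      linarith
    · rcases th_fr_sub D.huv he' hw with h3 | h3
      · exact hwU h3
      · have h4 : w ∈ frontier (thH u v e) := by
          rw [th_H_fr D.huv he]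
          refine ⟨⟨h3.1, ?_⟩, Or.inr h3.2⟩
          rw [h3.2, mul_zero]
        rw [← hh w h4] at h1
        have h5 := h.injective h1
        rw [h5] at h4
        rw [(th_H_closed e).frontier_eq] at h4
        exact h4.2 hz
  rcases th_split hP (th_H_closed (-e)) hd with h1 | h1
  · exfalso
    obtain ⟨p, hp, hpL⟩ := th_top D.hu D.hv D.huv he
    have hpS : p ∈ thH u v e := ⟨sphere_subset_closedBall hp, hpL.le⟩
    have hpf : p ∈ frontier (thH u v e) := (th_H_fr D.huv he p).mpr ⟨hpS, Or.inl hp⟩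
    have hpp : h p = p := by rw [hh p hpf, D.fU p hp]
    have hcl : p ∈ closure (interior (thH u v e)) := by
      rw [(th_H_convex e).closure_interior_eq_closure_of_nonempty_interior
        (th_H_ne D.hu D.hv D.huv he)]
      exact subset_closure hpS
    have hsub : closure (interior (thH u v e)) ⊆ (fun z => h'.symm (h z)) ⁻¹' thH u v (-e) := by
      refine closure_minimal ?_
        ((th_H_closed (-e)).preimage (h'.symm.continuous.comp h.continuous))
      intro z hz
      have h9 : h'.symm (h z) ∈ interior (thH u v (-e)) := h1 ⟨z, hz, rfl⟩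
      have h10 : h'.symm (h z) ∈ thH u v (-e) := interior_subset h9
      exact h10
    have h2 : h'.symm (h p) ∈ thH u v (-e) := hsub hcl
    rw [hpp] at h2
    obtain ⟨y, hydef⟩ : ∃ y, y = h'.symm p := ⟨_, rfl⟩
    rw [← hydef] at h2
    have h3 : h' y = p := by rw [hydef, h'.apply_symm_apply]
    have hpn := mem_sphere_zero_iff_norm.mp hp
    by_cases hyi : y ∈ interior (thH u v (-e))
    · have h4 := hin'.2 y hyi
      rw [h3, mem_ball_zero_iff] at h4
      linarith
    · have hyf : y ∈ frontier (thH u v (-e)) := by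
        rw [(th_H_closed (-e)).frontier_eq]; exact ⟨h2, hyi⟩
      rw [hh' y hyf] at h3
      by_cases hyU : y ∈ UC
      · rw [D.fU y hyU] at h3
        rw [h3] at h2
        have := h2.2
        linarith
      · rcases th_fr_sub D.huv he' hyf with h4 | h4
        · exact hyU h4
        · have h5 := D.fC y h4.1 h4.2 hyU
          rw [h3, mem_ball_zero_iff] at h5
          linarith
  · intro z hz w hw heq
    apply h1 ⟨z, hz, rfl⟩
    simp only
    rw [heq, h'.symm_apply_apply]
    exact hw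

theorem th_glue (hSCH : St_SCH) {u v : ℂ} {f : ℂ → ℂ} (D : ThD u v f) :
    ∃ F : ℂ ≃ₜ ℂ, (∀ z, z ∉ OD → F z = z) ∧ ∀ z ∈ CD, thL u v z = 0 → F z = f z := by
  classical
  have he : (1 : ℝ) ^ 2 = 1 := one_pow 2
  have he' : (-1 : ℝ) ^ 2 = 1 := by norm_num
  obtain ⟨h, hh⟩ := th_convex hSCH (th_H_convex 1) (th_H_bdd 1) (th_H_ne D.hu D.hv D.huv he)
    (D.cont.mono (th_fr_sub D.huv he)) (D.inj.mono (th_fr_sub D.huv he))
  obtain ⟨h', hh'⟩ := th_convex hSCH (th_H_convex (-1)) (th_H_bdd (-1))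
    (th_H_ne D.hu D.hv D.huv he') (D.cont.mono (th_fr_sub D.huv he'))
    (D.inj.mono (th_fr_sub D.huv he'))
  have hin := th_in (th_H_closed 1) (th_H_bdd 1) h (th_fr_CD D he hh)
  have hin' := th_in (th_H_closed (-1)) (th_H_bdd (-1)) h' (th_fr_CD D he' hh')
  have hd := th_disj D he hh hh'
  have hd' := th_disj D he' hh' (by rw [neg_neg]; exact hh)
  rw [neg_neg] at hd'
  let F : ℂ → ℂ := fun z => if z ∈ thH u v 1 then h z else if z ∈ thH u v (-1) then h' z else z
  have F1 : ∀ z ∈ thH u v 1, F z = h z := fun z hz => by simp only [F, if_pos hz]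
  have hchord : ∀ z ∈ CD, thL u v z = 0 → h z = f z ∧ h' z = f z ∧ z ∈ thH u v 1 := by
    intro z hz hL
    have a1 : z ∈ thH u v 1 := ⟨hz, by rw [hL, mul_zero]⟩
    have a2 : z ∈ thH u v (-1) := ⟨hz, by rw [hL, mul_zero]⟩
    exact ⟨hh z ((th_H_fr D.huv he z).mpr ⟨a1, Or.inr hL⟩),
      hh' z ((th_H_fr D.huv he' z).mpr ⟨a2, Or.inr hL⟩), a1⟩
  have F2 : ∀ z ∈ thH u v (-1), F z = h' z := by
    intro z hz
    by_cases hz1 : z ∈ thH u v 1
    · have hL : thL u v z = 0 := by
        have a1 := hz.2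
        have a2 := hz1.2
        linarith
      obtain ⟨b1, b2, _⟩ := hchord z hz.1 hL
      rw [F1 z hz1, b1, b2]
    · simp only [F, if_neg hz1, if_pos hz]
  have hUfr : ∀ z ∈ thH u v 1, z ∉ OD → z ∈ UC ∧ z ∈ frontier (thH u v 1) := by
    intro z hz hzO
    have a1 : z ∈ UC := by
      rw [th_mem_UC]
      have a2 := (th_mem_CD z).mp hz.1
      rw [th_mem_OD] at hzO
      linarith
    exact ⟨a1, (th_H_fr D.huv he z).mpr ⟨hz, Or.inl a1⟩⟩
  have hUfr' : ∀ z ∈ thH u v (-1), z ∉ OD → z ∈ UC ∧ z ∈ frontier (thH u v (-1)) := by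
    intro z hz hzO
    have a1 : z ∈ UC := by
      rw [th_mem_UC]
      have a2 := (th_mem_CD z).mp hz.1
      rw [th_mem_OD] at hzO
      linarith
    exact ⟨a1, (th_H_fr D.huv he' z).mpr ⟨hz, Or.inl a1⟩⟩
  have F3 : ∀ z, z ∉ OD → F z = z := by
    intro z hz
    by_cases hz1 : z ∈ thH u v 1
    · obtain ⟨a1, a2⟩ := hUfr z hz1 hz
      rw [F1 z hz1, hh z a2, D.fU z a1]
    · by_cases hz2 : z ∈ thH u v (-1)
      · obtain ⟨a1, a2⟩ := hUfr' z hz2 hz
        rw [F2 z hz2, hh' z a2, D.fU z a1]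
      · simp only [F, if_neg hz1, if_neg hz2]
  have hcover : ∀ z, z ∈ thH u v 1 ∨ z ∈ thH u v (-1) ∨ z ∉ OD := by
    intro z
    by_cases hz : z ∈ OD
    · rcases le_total 0 (thL u v z) with a | a
      · exact Or.inl ⟨ball_subset_closedBall hz, by linarith⟩
      · exact Or.inr (Or.inl ⟨ball_subset_closedBall hz, by linarith⟩)
    · exact Or.inr (Or.inr hz)
  have Fcont : Continuous F := by
    rw [← continuousOn_univ]
    have a1 : (univ : Set ℂ) = (thH u v 1 ∪ thH u v (-1)) ∪ ODᶜ := by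
      ext z
      simp only [mem_univ, true_iff, mem_union, mem_compl_iff]
      rcases hcover z with a | a | a
      · exact Or.inl (Or.inl a)
      · exact Or.inl (Or.inr a)
      · exact Or.inr a
    rw [a1]
    refine ContinuousOn.union_of_isClosed (ContinuousOn.union_of_isClosed ?_ ?_
      (th_H_closed 1) (th_H_closed (-1))) ?_ ((th_H_closed 1).union (th_H_closed (-1)))
      isOpen_ball.isClosed_compl
    · exact h.continuous.continuousOn.congr F1
    · exact h'.continuous.continuousOn.congr F2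
    · exact continuousOn_id.congr F3
  have A12 : ∀ x ∈ thH u v 1, ∀ y ∈ thH u v (-1), h x = h' y → x = y := by
    intro x hx y hy hxy
    have b1 : x ∉ interior (thH u v 1) := fun a => hd x a y hy hxy
    have b2 : y ∉ interior (thH u v (-1)) := fun a => hd' y a x hx hxy.symm
    have c1 : x ∈ frontier (thH u v 1) := by rw [(th_H_closed 1).frontier_eq]; exact ⟨hx, b1⟩
    have c2 : y ∈ frontier (thH u v (-1)) := by
      rw [(th_H_closed (-1)).frontier_eq]; exact ⟨hy, b2⟩
    rw [hh x c1, hh' y c2] at hxy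
    exact D.inj (th_fr_sub D.huv he c1) (th_fr_sub D.huv he' c2) hxy
  have A1o : ∀ x ∈ thH u v 1, ∀ y, y ∉ OD → h x = y → x = y := by
    intro x hx y hy hxy
    have b1 : x ∉ interior (thH u v 1) := fun a => hy (hxy ▸ hin.2 x a)
    have c1 : x ∈ frontier (thH u v 1) := by rw [(th_H_closed 1).frontier_eq]; exact ⟨hx, b1⟩
    have b2 : y ∈ CD := hxy ▸ hin.1 x hx
    have b3 : y ∈ UC := by
      rw [th_mem_UC]
      have a2 := (th_mem_CD y).mp b2
      rw [th_mem_OD] at hy
      linarith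
    rw [hh x c1] at hxy
    refine D.inj (th_fr_sub D.huv he c1) (Or.inl b3) ?_
    rw [hxy, D.fU y b3]
  have A2o : ∀ x ∈ thH u v (-1), ∀ y, y ∉ OD → h' x = y → x = y := by
    intro x hx y hy hxy
    have b1 : x ∉ interior (thH u v (-1)) := fun a => hy (hxy ▸ hin'.2 x a)
    have c1 : x ∈ frontier (thH u v (-1)) := by
      rw [(th_H_closed (-1)).frontier_eq]; exact ⟨hx, b1⟩
    have b2 : y ∈ CD := hxy ▸ hin'.1 x hx
    have b3 : y ∈ UC := by
      rw [th_mem_UC]
      have a2 := (th_mem_CD y).mp b2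
      rw [th_mem_OD] at hy
      linarith
    rw [hh' x c1] at hxy
    refine D.inj (th_fr_sub D.huv he' c1) (Or.inl b3) ?_
    rw [hxy, D.fU y b3]
  have Finj : Function.Injective F := by
    intro x y hxy
    rcases hcover x with hx | hx | hx <;> rcases hcover y with hy | hy | hy
    · rw [F1 x hx, F1 y hy] at hxy
      exact h.injective hxy
    · rw [F1 x hx, F2 y hy] at hxy
      exact A12 x hx y hy hxy
    · rw [F1 x hx, F3 y hy] at hxy
      exact A1o x hx y hy hxy
    · rw [F2 x hx, F1 y hy] at hxy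
      exact (A12 y hy x hx hxy.symm).symm
    · rw [F2 x hx, F2 y hy] at hxy
      exact h'.injective hxy
    · rw [F2 x hx, F3 y hy] at hxy
      exact A2o x hx y hy hxy
    · rw [F3 x hx, F1 y hy] at hxy
      exact (A1o y hy x hx hxy.symm).symm
    · rw [F3 x hx, F2 y hy] at hxy
      exact (A2o y hy x hx hxy.symm).symm
    · rw [F3 x hx, F3 y hy] at hxy
      exact hxy
  obtain ⟨G, hG⟩ := th_homeo Fcont Finj F3
  refine ⟨G, fun z hz => by rw [hG, F3 z hz], fun z hz hL => ?_⟩
  obtain ⟨b1, _, b3⟩ := hchord z hz hL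
  rw [hG, F1 z b3, b1]

theorem th_main (hSCH : St_SCH) (β : ℝ → ℂ) (hβ : IsArc β) (h0 : β 0 ∈ UC) (h1 : β 1 ∈ UC)
    (hm : ∀ t ∈ Ioo (0 : ℝ) 1, β t ∈ OD) :
    ∃ F : ℂ ≃ₜ ℂ, (∀ z, z ∉ OD → F z = z) ∧
      ∀ t ∈ Icc (0 : ℝ) 1, F (β 0 + (t : ℂ) * (β 1 - β 0)) = β t := by
  classical
  obtain ⟨hβc, hβi⟩ := hβ
  have m0 : (0 : ℝ) ∈ Icc (0 : ℝ) 1 := ⟨le_refl _, zero_le_one⟩
  have m1 : (1 : ℝ) ∈ Icc (0 : ℝ) 1 := ⟨zero_le_one, le_refl _⟩
  have huv : β 0 ≠ β 1 := fun h => zero_ne_one (hβi m0 m1 h)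
  obtain ⟨u, hu⟩ : ∃ u, u = β 0 := ⟨_, rfl⟩
  obtain ⟨v, hv⟩ : ∃ v, v = β 1 := ⟨_, rfl⟩
  rw [← hu, ← hv] at huv
  rw [← hu] at h0
  rw [← hv] at h1
  rw [← hu, ← hv]
  let f : ℂ → ℂ := fun z => if z ∈ UC then z else β (thS u v z)
  have fU : ∀ z ∈ UC, f z = z := fun z hz => by simp only [f, if_pos hz]
  have hend : ∀ z ∈ CD, thL u v z = 0 → z ∈ UC → z = β (thS u v z) := by
    intro z hz hL hzU
    have hd := th_d huv
    have hl := th_line huv hL
    have a1 := hzU
    rw [th_mem_UC, hl, th_sq h0 h1] at a1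
    have a2 : (thS u v z) * (thS u v z - 1) = 0 := by
      have a3 : ((thS u v z) * (thS u v z - 1)) *
          ((v.re - u.re) ^ 2 + (v.im - u.im) ^ 2) = 0 := by linarith
      rcases mul_eq_zero.mp a3 with a4 | a4
      · exact a4
      · exact absurd a4 hd.ne'
    rcases mul_eq_zero.mp a2 with a3 | a3
    · rw [a3] at hl ⊢
      rw [← hu, hl]; simp
    · have a4 : thS u v z = 1 := by linarith
      rw [a4] at hl ⊢
      rw [← hv, hl]; simp
  have fCh : ∀ z ∈ CD, thL u v z = 0 → f z = β (thS u v z) := by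
    intro z hz hL
    by_cases hzU : z ∈ UC
    · rw [fU z hzU]; exact hend z hz hL hzU
    · simp only [f, if_neg hzU]
  have hseg : ∀ z ∈ CD, thL u v z = 0 → thS u v z ∈ Icc (0 : ℝ) 1 :=
    fun z hz hL => th_seg h0 h1 huv hL hz
  have hOD : ∀ z ∈ CD, thL u v z = 0 → z ∉ UC → β (thS u v z) ∈ OD := by
    intro z hz hL hzU
    apply hm
    obtain ⟨b1, b2⟩ := hseg z hz hL
    have hl := th_line huv hL
    constructor
    · rcases b1.lt_or_eq with b3 | b3
      · exact b3
      · exfalso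
        rw [← b3] at hl
        apply hzU
        rw [hl]; simpa using h0
    · rcases b2.lt_or_eq with b3 | b3
      · exact b3
      · exfalso
        rw [b3] at hl
        apply hzU
        rw [hl]; simpa using h1
  have D : ThD u v f := by
    refine ⟨h0, h1, huv, fU, ?_, ?_, ?_⟩
    · intro z hz hL hzU
      rw [fCh z hz hL]
      exact hOD z hz hL hzU
    · refine ContinuousOn.union_of_isClosed ?_ ?_ isClosed_sphere ?_
      · exact continuousOn_id.congr fU
      · refine ContinuousOn.congr (f := fun z => β (thS u v z)) ?_ fun z hz => fCh z hz.1 hz.2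
        exact hβc.comp (th_S_cont).continuousOn fun z hz => hseg z hz.1 hz.2
      · exact isClosed_closedBall.inter (isClosed_eq th_L_cont continuous_const)
    · have key : ∀ z ∈ CD, thL u v z = 0 → ∀ w ∈ UC, f z = f w → z = w := by
        intro z hz hL w hw hzw
        by_cases hzU : z ∈ UC
        · rwa [fU z hzU, fU w hw] at hzw
        · exfalso
          rw [fCh z hz hL, fU w hw] at hzw
          have b1 := hOD z hz hL hzU
          rw [hzw, mem_ball_zero_iff] at b1
          rw [mem_sphere_zero_iff_norm] at hw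
          linarith
      rintro z (hz | hz) w (hw | hw) hzw
      · rwa [fU z hz, fU w hw] at hzw
      · exact (key w hw.1 hw.2 z hz hzw.symm).symm
      · exact key z hz.1 hz.2 w hw hzw
      · rw [fCh z hz.1 hz.2, fCh w hw.1 hw.2] at hzw
        have b1 := hβi (hseg z hz.1 hz.2) (hseg w hw.1 hw.2) hzw
        rw [th_line huv hz.2, th_line huv hw.2, b1]
  obtain ⟨F, hF1, hF2⟩ := th_glue hSCH D
  refine ⟨F, hF1, fun t ht => ?_⟩
  rw [hF2 _ (th_chord_CD h0 h1 huv ht) (th_L_chord t), fCh _ (th_chord_CD h0 h1 huv ht)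
    (th_L_chord t), th_S_chord huv]

end main

theorem thm_TH (hSCH : St_SCH) : St_TH := by
  intro g β β' hβ hβ' h0 h1
  have main : ∀ γ : ℝ → ℂ, IsCross g γ → ∃ F : ℂ ≃ₜ ℂ, (∀ z, z ∉ OD → F z = z) ∧
      ∀ t ∈ Icc (0 : ℝ) 1, F (g.symm (γ 0) + (t : ℂ) * (g.symm (γ 1) - g.symm (γ 0))) =
        g.symm (γ t) := by
    intro γ hγ
    refine th_main hSCH (fun t => g.symm (γ t)) ⟨?_, ?_⟩ ?_ ?_ ?_
    · exact g.symm.continuous.comp_continuousOn hγ.arc.1
    · intro x hx y hy hxy
      exact hγ.arc.2 hx hy (g.symm.injective hxy)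
    · obtain ⟨w, hw, hw2⟩ := hγ.e0
      simp only [← hw2, g.symm_apply_apply]
      exact hw
    · obtain ⟨w, hw, hw2⟩ := hγ.e1
      simp only [← hw2, g.symm_apply_apply]
      exact hw
    · intro t ht
      obtain ⟨w, hw, hw2⟩ := hγ.mid t ht
      simp only [← hw2, g.symm_apply_apply]
      exact hw
  obtain ⟨F, hF1, hF2⟩ := main β hβ
  obtain ⟨F', hF1', hF2'⟩ := main β' hβ'
  refine ⟨g.symm.trans (F.symm.trans (F'.trans g)), ?_, ?_⟩
  · intro z hz
    have h2 : g.symm z ∉ OD := fun h => hz ⟨_, h, g.apply_symm_apply z⟩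
    change g (F' (F.symm (g.symm z))) = z
    have h3 : F.symm (g.symm z) = g.symm z := by
      rw [Homeomorph.symm_apply_eq, hF1 _ h2]
    rw [h3, hF1' _ h2, g.apply_symm_apply]
  · intro t ht
    change g (F' (F.symm (g.symm (β t)))) = β' t
    rw [← hF2 t ht, F.symm_apply_apply, h0, h1, hF2' t ht, g.apply_symm_apply]

end Pool.Agent.SRF
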