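import Pool.Agent.SRF.StA
import Pool.Agent.CT.H1

/-!
# SRF UNIQ: only one bounded component
-/

set_option autoImplicit false

open Set Metric Filter Topology

namespace Pool.Agent.SRF

/-- inversion in the unit circle -/
noncomputable def uniq_i (z : ℂ) : ℂ := (starRingEnd ℂ z)⁻¹

theorem uniq_norm (z : ℂ) : ‖uniq_i z‖ = ‖z‖⁻¹ := by
  unfold uniq_i
  rw [norm_inv, RCLike.norm_conj]

theorem uniq_ii (z : ℂ) : uniq_i (uniq_i z) = z := by
  unfold uniq_i
  rw [map_inv₀, inv_inv, Complex.conj_conj]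

theorem uniq_one {z : ℂ} (hz : ‖z‖ = 1) : uniq_i z = z := by
  unfold uniq_i
  apply inv_eq_of_mul_eq_one_right
  rw [mul_comm, Complex.mul_conj, Complex.normSq_eq_norm_sq, hz]
  simp

theorem uniq_cont : ContinuousOn uniq_i {z : ℂ | 1 ≤ ‖z‖} := by
  refine ContinuousOn.inv₀ Complex.continuous_conj.continuousOn fun z hz h => ?_
  have h1 : ‖starRingEnd ℂ z‖ = 0 := by rw [h, norm_zero]
  rw [RCLike.norm_conj] at h1
  have hz : 1 ≤ ‖z‖ := hz
  linarith

theorem uniq_open {Φ : ℂ → ℂ} (hc : Continuous Φ) (hi : Function.Injective Φ) (z : ℂ) :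
    Φ z ∈ interior (range Φ) := by
  have h := Pool.Agent.CT.h1 (fun w => Φ (z + w)) (by fun_prop) (by
    intro a _ b _ hab
    exact add_left_cancel (hi hab))
  simp only [add_zero] at h
  refine interior_mono ?_ h
  rintro _ ⟨w, -, rfl⟩
  exact ⟨_, rfl⟩

theorem uniq_b {F F' : ℂ → ℂ} (hF : ContinuousOn F CD) (hF' : ContinuousOn F' CD)
    (hFi : InjOn F CD) (hFi' : InjOn F' CD) (hJ : F '' UC = F' '' UC) :
    ∃ b : ℂ → ℂ, ContinuousOn b UC ∧ InjOn b UC ∧ MapsTo b UC UC ∧ ∀ z ∈ UC, F' (b z) = F z := by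
  have hUC : UC ⊆ CD := sphere_subset_closedBall
  have hex : ∀ z ∈ UC, ∃ w ∈ UC, F' w = F z := by
    intro z hz
    have : F z ∈ F' '' UC := by rw [← hJ]; exact ⟨z, hz, rfl⟩
    exact this
  choose! b hb1 hb2 using hex
  refine ⟨b, ?_, ?_, hb1, hb2⟩
  · rw [continuousOn_iff_continuous_domRestrict]
    have h1 : Continuous (UC.domRestrict F') := continuousOn_iff_continuous_domRestrict.1 (hF'.mono hUC)
    have h2 : Function.Injective (UC.domRestrict F') := by
      intro x y hxy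
      exact Subtype.ext (hFi' (hUC x.2) (hUC y.2) hxy)
    have : CompactSpace UC := isCompact_iff_compactSpace.1 (isCompact_sphere 0 1)
    have h3 : IsClosedEmbedding (UC.domRestrict F') := h1.isClosedEmbedding h2
    have h4 : Continuous fun z : UC => (⟨b z, hb1 z z.2⟩ : UC) := by
      rw [h3.isInducing.continuous_iff]
      have h5 : (UC.domRestrict F') ∘ (fun z : UC => (⟨b z, hb1 z z.2⟩ : UC)) = UC.domRestrict F := by
        funext z
        exact hb2 z z.2
      rw [h5]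
      exact continuousOn_iff_continuous_domRestrict.1 (hF.mono hUC)
    exact continuous_subtype_val.comp h4
  · intro z hz w hw hzw
    apply hFi (hUC hz) (hUC hw)
    rw [← hb2 z hz, ← hb2 w hw, hzw]

theorem thm_UNIQ (hJD : St_JD) (hRADH : St_RADH) : St_UNIQ := by
  intro γ hγ x y hx hy hbx hby
  by_contra hne
  have hdis : ∀ z, z ∈ connectedComponentIn (γ '' UC)ᶜ x →
      z ∈ connectedComponentIn (γ '' UC)ᶜ y → False := by
    intro z h1 h2
    exact hne ((connectedComponentIn_eq h1).trans (connectedComponentIn_eq h2).symm)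
  have hyJ : ∀ z, z ∈ connectedComponentIn (γ '' UC)ᶜ y → z ∉ γ '' UC := fun z hz =>
    connectedComponentIn_subset _ _ hz
  obtain ⟨F, hFc, hFi, hFO, hFU, hF0⟩ := hJD γ hγ x hx hbx
  obtain ⟨F', hFc', hFi', hFO', hFU', hF0'⟩ := hJD γ hγ y hy hby
  obtain ⟨b, hb1, hb2, hb3, hb4⟩ := uniq_b hFc hFc' hFi hFi' (hFU.trans hFU'.symm)
  obtain ⟨c, hc1, hc2⟩ := hRADH b hb1 hb2 hb3
  have hmemCD : ∀ z : ℂ, 1 ≤ ‖z‖ → c (uniq_i z) ∈ CD := by
    intro z hz
    rw [mem_closedBall_zero_iff, hc2, uniq_norm]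
    exact inv_le_one_of_one_le₀ hz
  have hagree : ∀ z : ℂ, ‖z‖ = 1 → F z = F' (c (uniq_i z)) := by
    intro z hz
    have hz' : z ∈ UC := mem_sphere_zero_iff_norm.2 hz
    rw [uniq_one hz, hc1 hz', hb4 z hz']
  set Φ : ℂ → ℂ := fun z => if ‖z‖ ≤ 1 then F z else F' (c (uniq_i z)) with hΦ
  have hΦ1 : ∀ z, ‖z‖ ≤ 1 → Φ z = F z := fun z hz => if_pos hz
  have hΦ2 : ∀ z, 1 ≤ ‖z‖ → Φ z = F' (c (uniq_i z)) := by
    intro z hz
    rcases hz.lt_or_eq with h | h
    · exact if_neg (not_le.2 h)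
    · rw [hΦ1 z h.symm.le]
      exact hagree z h.symm
  have hΦc : Continuous Φ := by
    refine continuous_if_le continuous_norm continuous_const ?_ ?_ hagree
    · exact hFc.mono fun z hz => mem_closedBall_zero_iff.2 hz
    · exact hFc'.comp (c.continuous.comp_continuousOn uniq_cont) hmemCD
  have hmix : ∀ z w : ℂ, ‖z‖ ≤ 1 → 1 < ‖w‖ → Φ z ≠ Φ w := by
    intro z w hz hw h
    have hw1 : Φ w ∈ connectedComponentIn (γ '' UC)ᶜ y := by
      rw [hΦ2 w hw.le, ← hFO']
      refine ⟨_, ?_, rfl⟩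
      rw [mem_ball_zero_iff, hc2, uniq_norm]
      exact inv_lt_one_of_one_lt₀ hw
    rw [← h, hΦ1 z hz] at hw1
    rcases hz.lt_or_eq with h1 | h1
    · refine hdis (F z) ?_ hw1
      rw [← hFO]
      exact ⟨z, mem_ball_zero_iff.2 h1, rfl⟩
    · refine hyJ _ hw1 ?_
      rw [← hFU]
      exact ⟨z, mem_sphere_zero_iff_norm.2 h1, rfl⟩
  have hΦi : Function.Injective Φ := by
    intro z w hzw
    rcases le_or_gt ‖z‖ 1 with hz | hz <;> rcases le_or_gt ‖w‖ 1 with hw | hw
    · rw [hΦ1 z hz, hΦ1 w hw] at hzw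
      exact hFi (mem_closedBall_zero_iff.2 hz) (mem_closedBall_zero_iff.2 hw) hzw
    · exact absurd hzw (hmix z w hz hw)
    · exact absurd hzw.symm (hmix w z hw hz)
    · rw [hΦ2 z hz.le, hΦ2 w hw.le] at hzw
      have h1 := c.injective (hFi' (hmemCD z hz.le) (hmemCD w hw.le) hzw)
      rw [← uniq_ii z, h1, uniq_ii]
  set T : Set ℂ := F '' CD ∪ F' '' CD with hT
  have hTc : IsCompact T :=
    ((isCompact_closedBall 0 1).image_of_continuousOn hFc).union
      ((isCompact_closedBall 0 1).image_of_continuousOn hFc')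
  have hrT : range Φ ⊆ T := by
    rintro _ ⟨z, rfl⟩
    rcases le_or_gt ‖z‖ 1 with hz | hz
    · rw [hΦ1 z hz]
      exact Or.inl ⟨z, mem_closedBall_zero_iff.2 hz, rfl⟩
    · rw [hΦ2 z hz.le]
      exact Or.inr ⟨_, hmemCD z hz.le, rfl⟩
  have hrange : ∀ z, Φ z ∈ interior T := fun z => interior_mono hrT (uniq_open hΦc hΦi z)
  have hTo : IsOpen T := by
    rw [← subset_interior_iff_isOpen]
    rintro p (⟨z, hz, rfl⟩ | ⟨u, hu, rfl⟩)
    · rw [← hΦ1 z (mem_closedBall_zero_iff.1 hz)]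
      exact hrange z
    · rw [mem_closedBall_zero_iff] at hu
      by_cases hu0 : u = 0
      · subst hu0
        refine interior_mono ?_ (Pool.Agent.CT.h1 F' hFc' hFi')
        exact subset_union_right
      · have hn : ‖c.symm u‖ = ‖u‖ := by
          have := hc2 (c.symm u)
          rw [c.apply_symm_apply] at this
          exact this.symm
        have hw : 1 ≤ ‖uniq_i (c.symm u)‖ := by
          rw [uniq_norm, hn]
          exact (one_le_inv₀ (norm_pos_iff.2 hu0)).2 hu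
        have h1 := hΦ2 _ hw
        rw [uniq_ii, c.apply_symm_apply] at h1
        rw [← h1]
        exact hrange _
  have huniv : T = univ :=
    IsClopen.eq_univ ⟨hTc.isClosed, hTo⟩ ⟨_, Or.inl ⟨0, by simp, rfl⟩⟩
  rw [huniv] at hTc
  exact noncompact_univ ℂ hTc

end Pool.Agent.SRF
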