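import Pool.Agent.SRF.LOGB
import Pool.Agent.SRF.MOVE
import Pool.Agent.SRF.FINZ
import Pool.Agent.SRF.APX
import Pool.Agent.SRF.BE
import Pool.Agent.SRF.EC
import Pool.Agent.SRF.JAN
import Pool.Agent.SRF.JSEP
import Pool.Agent.SRF.HLOG
import Pool.Agent.SRF.RMTV
import Pool.Agent.SRF.CARC
import Pool.Agent.SRF.CARI
import Pool.Agent.SRF.JD
import Pool.Agent.SRF.RADH
import Pool.Agent.SRF.UNIQ
import Pool.Agent.SRF.SCH
import Pool.Agent.SRF.TH
import Pool.Agent.SRF.JOIN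
import Pool.Agent.SRF.CHN
import Pool.Agent.SRF.STR
import Pool.Agent.SRF.INV
import Pool.Agent.SRF.TE

set_option autoImplicit false

/-! # SRF, Part I assembled: Schoenflies' theorem and its companions -/

namespace Pool.Agent.SRF

theorem sLOGB : St_LOGB := thm_LOGB
theorem sMOVE : St_MOVE := thm_MOVE
theorem sFINZ : St_FINZ := thm_FINZ sLOGB sMOVE
theorem sAPX : St_APX := thm_APX
theorem sBE : St_BE := thm_BE sLOGB sFINZ sAPX
theorem sEC : St_EC := thm_EC sLOGB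
theorem sJAN : St_JAN := thm_JAN sLOGB sEC
theorem sJSEP : St_JSEP := thm_JSEP sLOGB sBE sJAN
theorem sHLOG : St_HLOG := thm_HLOG sBE
theorem sRMTV : St_RMTV := thm_RMTV
theorem sCARC : St_CARC := thm_CARC sJAN sJSEP
theorem sCARI : St_CARI := thm_CARI sJSEP
theorem sJD : St_JD := thm_JD sJSEP sHLOG sRMTV sCARC sCARI
theorem sRADH : St_RADH := thm_RADH
theorem sUNIQ : St_UNIQ := thm_UNIQ sJD sRADH
theorem sSCH : St_SCH := thm_SCH sJSEP sJD sUNIQ sRADH sMOVE
theorem sTH : St_TH := thm_TH sSCH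
theorem sJOIN : St_JOIN := thm_JOIN sMOVE
theorem sCHN : St_CHN := thm_CHN sLOGB sJAN sJOIN
theorem sSTR : St_STR := thm_STR sCHN sSCH
theorem sINV : St_INV := thm_INV
theorem sTE : St_TE := thm_TE sSCH sINV

end Pool.Agent.SRF
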