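import Pool.Agent.SRF.StB

/-! # SRF/BB (helper52): built sets are bordered and connected -/

set_option autoImplicit false

open Set Metric Filter Topology

namespace Pool.Agent.SRF

private theorem bb_interior {X : Type} [TopologicalSpace X] {E : ℂ → X} (hE : IsOpenEmbedding E) :
    interior (E '' CD) = E '' OD := by
  apply Subset.antisymm
  · intro p hp
    obtain ⟨z, hz, rfl⟩ := interior_subset hp
    have h1 : IsOpen (E ⁻¹' interior (E '' CD)) := isOpen_interior.preimage hE.continuous
    have h2 : E ⁻¹' interior (E '' CD) ⊆ CD := by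
      intro w hw
      obtain ⟨w', hw', hww⟩ := interior_subset hw
      rwa [← hE.injective hww]
    have h3 : z ∈ interior CD := interior_maximal h2 h1 hp
    rw [interior_closedBall (0 : ℂ) one_ne_zero] at h3
    exact ⟨z, h3, rfl⟩
  · exact interior_maximal (image_mono ball_subset_closedBall)
      (hE.isOpenMap _ isOpen_ball)

theorem thm_BB (hTE : St_TE) (hSHR : St_SHR) (hARC : St_ARC0) (hATB : St_ATB) : St_BB := by
  intro X _ hX
  have : T2Space X := hX.t2
  have htile : ∀ e : ℂ → X, IsTile e → Bord (e '' CD) ∧ frontier (e '' CD) = e '' UC ∧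
      IsConnected (e '' CD) := by
    intro e he
    obtain ⟨E, hE, hEe⟩ := hTE X hX.t2 e he
    have hCD : e '' CD = E '' CD := (hEe.image_eq).symm
    have hUC : e '' UC = E '' UC := ((hEe.mono sphere_subset_closedBall).image_eq).symm
    have hcomp : IsCompact (e '' CD) := (isCompact_closedBall (0 : ℂ) 1).image_of_continuousOn he.1
    have hfr : frontier (e '' CD) = e '' UC := by
      rw [hCD, hUC, frontier, bb_interior hE]
      rw [hCD] at hcomp
      rw [hcomp.isClosed.closure_eq, ← image_sdiff hE.injective, closedBall_sdiff_ball]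
    refine ⟨⟨hcomp, ?_⟩, hfr, ?_⟩
    · intro p hp
      rw [hfr, hUC] at hp
      obtain ⟨ζ, hζ, rfl⟩ := hp
      obtain ⟨σ, hσ, hσ0, -, hσC⟩ := hSHR.2.1 ζ hζ 1 one_pos
      refine ⟨E ∘ σ, hE.comp hσ, by simp [hσ0], ?_⟩
      intro z
      rw [hCD, ← hσC z]
      constructor
      · rintro ⟨w, hw, hww⟩
        have h1 : w = σ z := hE.injective hww
        rwa [← h1]
      · intro h
        exact ⟨σ z, h, rfl⟩
    · exact IsConnected.image ⟨⟨0, by simp⟩, (convex_closedBall (0 : ℂ) 1).isPreconnected⟩ e he.1
  refine ⟨htile, ?_, ?_⟩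
  · intro K L h hK
    induction h with
    | refl => exact hK
    | step L' e S O _ ha ih => exact (hATB X hX L' e S O ih ha).1
  · intro K L h hK
    induction h with
    | refl => exact hK
    | step L' e S O _ ha ih =>
      refine IsConnected.union ?_ ih (htile e ha.tile).2.2
      obtain ⟨ζ, hζ⟩ := (hARC S O ha.shape).2.2.2.1
      have h1 : e ζ ∈ e '' CD ∩ L' := by
        rw [ha.meet]
        exact ⟨ζ, hζ, rfl⟩
      exact ⟨e ζ, h1.2, h1.1⟩

end Pool.Agent.SRF
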