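import Pool.Agent.SRF.StB

set_option autoImplicit false

/-! # SRF (MP_3b9597_lc), module BCI: the frontier of a bordered set is a finite disjoint union of
Jordan curves. -/

open Set Metric Filter Topology

namespace Pool.Agent.SRF

private theorem bci_chart {X : Type} [TopologicalSpace X] {K : Set X} {φ : ℂ → X}
    (hφ : IsOpenEmbedding φ) (h1 : ∀ z, φ z ∈ frontier K ↔ z.im = 0) (p : frontier K)
    (h0 : φ 0 = p) : ∃ f : ℝ → frontier K, IsOpenEmbedding f ∧ f 0 = p := by
  have hf : ∀ x : ℝ, φ (x : ℂ) ∈ frontier K := fun x => (h1 _).2 (Complex.ofReal_im x)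
  refine ⟨fun x => ⟨φ (x : ℂ), hf x⟩, ?_, ?_⟩
  · have hc : Continuous (fun x : ℝ => (⟨φ (x : ℂ), hf x⟩ : frontier K)) :=
      (hφ.continuous.comp Complex.continuous_ofReal).subtype_mk _
    refine ⟨?_, ?_⟩
    · apply IsEmbedding.of_comp hc continuous_subtype_val
      exact hφ.isEmbedding.comp Complex.isometry_ofReal.isEmbedding
    · have h2 : range (fun x : ℝ => (⟨φ (x : ℂ), hf x⟩ : frontier K)) =
          Subtype.val ⁻¹' (range φ) := by
        ext q
        constructor
        · rintro ⟨x, rfl⟩
          exact ⟨(x : ℂ), rfl⟩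
        · rintro ⟨z, hz⟩
          have h3 : z.im = 0 := (h1 z).1 (by rw [hz]; exact q.2)
          refine ⟨z.re, ?_⟩
          apply Subtype.ext
          show φ ((z.re : ℝ) : ℂ) = q.1
          rw [← hz]
          congr 1
          apply Complex.ext
          · simp
          · simp [h3]
      rw [h2]
      exact hφ.isOpen_range.preimage continuous_subtype_val
  · apply Subtype.ext
    show φ ((0 : ℝ) : ℂ) = p
    rw [Complex.ofReal_zero, h0]

theorem thm_BCI (hBFR : St_BFR) (hONE2 : St_ONE2) : St_BCI := by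
  intro X _ hX K hK
  have := hX.t2
  have hcl : IsClosed K := hK.1.isClosed
  have hcomp : IsCompact (frontier K) :=
    hK.1.of_isClosed_subset isClosed_frontier hcl.frontier_subset
  have hcs : CompactSpace (frontier K) := isCompact_iff_compactSpace.1 hcomp
  obtain ⟨hb, -⟩ := hBFR X hX K hK
  obtain ⟨n, γ, hγ, hd, hu⟩ := hONE2 (frontier K) (by
    intro p
    obtain ⟨φ, hφ, h0, hz⟩ := hK.2 p.1 p.2
    exact bci_chart hφ (hb φ hφ hz).1 p h0)
  have him : ∀ i, (fun z => ((γ i z : frontier K) : X)) '' UC = Subtype.val '' (γ i '' UC) := by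
    intro i
    rw [image_image]
  refine ⟨n, fun i z => ((γ i z : frontier K) : X), ?_, ?_, ?_⟩
  · intro i
    refine ⟨continuous_subtype_val.comp_continuousOn (hγ i).1, ?_⟩
    intro z hz w hw h
    exact (hγ i).2 hz hw (Subtype.ext h)
  · intro i j hij
    rw [him, him]
    exact disjoint_image_of_injective Subtype.val_injective (hd i j hij)
  · have h1 : (⋃ i, (fun z => ((γ i z : frontier K) : X)) '' UC) =
        Subtype.val '' (⋃ i, γ i '' UC) := by
      rw [image_iUnion]
      exact iUnion_congr him
    rw [h1, ← hu, image_univ, Subtype.range_coe]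

end Pool.Agent.SRF
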