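import Pool.Agent.SRF.StB

set_option autoImplicit false

/-! # SRF, module BFR (helper56): bordered sets -/

open Set Metric Filter Topology

namespace Pool.Agent.SRF

section

variable {X : Type} [TopologicalSpace X]

theorem bfr_one {K : Set X} {φ : ℂ → X} (hφ : IsOpenEmbedding φ) (h : ∀ z, φ z ∈ K ↔ 0 ≤ z.im) :
    (∀ z, φ z ∈ frontier K ↔ z.im = 0) ∧ (∀ z, φ z ∈ interior K ↔ 0 < z.im) := by
  have hpre : φ ⁻¹' K = {z : ℂ | 0 ≤ z.im} := by
    ext z
    exact h z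
  constructor
  · intro z
    have h1 := hφ.isOpenMap.preimage_frontier_eq_frontier_preimage hφ.continuous K
    rw [hpre, Complex.frontier_setOfPred_le_im] at h1
    exact (Set.ext_iff.1 h1 z)
  · intro z
    have h1 := hφ.isOpenMap.preimage_interior_eq_interior_preimage hφ.continuous K
    rw [hpre, Complex.interior_setOfPred_le_im] at h1
    exact (Set.ext_iff.1 h1 z)

theorem bfr_two {K : Set X} (hX : IsSurf X) (hK : Bord K) : closure (interior K) = K := by
  have := hX.t2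
  have hc : IsClosed K := hK.1.isClosed
  refine Subset.antisymm (closure_minimal interior_subset hc) fun p hp => ?_
  by_cases hpi : p ∈ interior K
  · exact subset_closure hpi
  · have hpf : p ∈ frontier K := by
      rw [hc.frontier_eq]
      exact ⟨hp, hpi⟩
    obtain ⟨φ, hφ, hφ0, hφK⟩ := hK.2 p hpf
    have h1 : (0 : ℂ) ∈ closure {z : ℂ | 0 < z.im} := by
      rw [Complex.closure_setOfPred_lt_im]
      show (0 : ℝ) ≤ (0 : ℂ).im
      exact le_rfl
    have h2 : φ 0 ∈ closure (φ '' {z : ℂ | 0 < z.im}) :=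
      image_closure_subset_closure_image hφ.continuous ⟨0, h1, rfl⟩
    rw [hφ0] at h2
    refine closure_mono ?_ h2
    rintro _ ⟨z, hz, rfl⟩
    exact ((bfr_one hφ hφK).2 z).2 hz

theorem bfr_three (hSHR : St_SHR) {K : Set X} (hK : Bord K) :
    ∀ p ∈ frontier K, ∀ U ∈ 𝓝 p, ∃ φ : ℂ → X, IsOpenEmbedding φ ∧ φ 0 = p ∧ range φ ⊆ U ∧
      ∀ z, φ z ∈ K ↔ 0 ≤ z.im := by
  intro p hp U hU
  obtain ⟨φ, hφ, hφ0, hφK⟩ := hK.2 p hp
  have h1 : φ ⁻¹' U ∈ 𝓝 (0 : ℂ) := by
    apply hφ.continuous.continuousAt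
    rw [hφ0]
    exact hU
  obtain ⟨r, hr, hrU⟩ := Metric.mem_nhds_iff.1 h1
  obtain ⟨σ, hσ, hσ0, hσr, hσi, -⟩ := hSHR.1 r hr
  refine ⟨φ ∘ σ, hφ.comp hσ, ?_, ?_, fun z => ?_⟩
  · show φ (σ 0) = p
    rw [hσ0, hφ0]
  · rintro _ ⟨z, rfl⟩
    exact hrU (hσr ▸ mem_range_self z)
  · exact (hφK (σ z)).trans (hσi z)

/-- one of two disjoint open sets which cover the interior contains the half disc -/
theorem bfr_half {K A B : Set X} (hA : IsOpen A) (hB : IsOpen B) (hAB : Disjoint A B)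
    (hi : interior K ⊆ A ∪ B) {φ : ℂ → X} (hφ : IsOpenEmbedding φ)
    (h : ∀ z, φ z ∈ K ↔ 0 ≤ z.im) :
    φ '' {z : ℂ | 0 < z.im} ⊆ A ∨ φ '' {z : ℂ | 0 < z.im} ⊆ B := by
  refine IsPreconnected.subset_or_subset hA hB hAB ?_ ?_
  · rintro _ ⟨z, hz, rfl⟩
    exact hi (((bfr_one hφ h).2 z).2 hz)
  · exact (convex_halfSpace_im_gt 0).isPreconnected.image φ hφ.continuous.continuousOn

theorem bfr_side {K A B : Set X} (hAB : Disjoint A B) (hBK : B ⊆ interior K) {p : X}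
    {φ : ℂ → X} (hφ : IsOpenEmbedding φ) (h : ∀ z, φ z ∈ K ↔ 0 ≤ z.im) (h0 : φ 0 = p)
    (hA : φ '' {z : ℂ | 0 < z.im} ⊆ A) : p ∉ closure B := by
  intro hp
  have h1 : range φ ∈ 𝓝 p := hφ.isOpen_range.mem_nhds ⟨0, h0⟩
  obtain ⟨x, ⟨z, rfl⟩, hx⟩ := mem_closure_iff_nhds.1 hp _ h1
  have h2 : 0 < z.im := ((bfr_one hφ h).2 z).1 (hBK hx)
  exact disjoint_left.1 hAB (hA ⟨z, h2, rfl⟩) hx

theorem bfr_conn {K : Set X} (hX : IsSurf X) (hK : Bord K) (hc : IsConnected K) :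
    IsConnected (interior K) := by
  have := hX.t2
  have hcl := bfr_two hX hK
  constructor
  · by_contra hne
    rw [not_nonempty_iff_eq_empty] at hne
    rw [hne, closure_empty] at hcl
    exact hc.nonempty.ne_empty hcl.symm
  · intro u v hu hv huv hnu hnv
    by_contra hemp
    have hA : IsOpen (interior K ∩ u) := isOpen_interior.inter hu
    have hB : IsOpen (interior K ∩ v) := isOpen_interior.inter hv
    have hAB : Disjoint (interior K ∩ u) (interior K ∩ v) := by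
      rw [disjoint_left]
      rintro x ⟨h1, h2⟩ ⟨h3, h4⟩
      exact hemp ⟨x, h1, h2, h4⟩
    have hi : interior K ⊆ (interior K ∩ u) ∪ (interior K ∩ v) := by
      intro x hx
      rcases huv hx with h1 | h1
      · exact Or.inl ⟨hx, h1⟩
      · exact Or.inr ⟨hx, h1⟩
    have hKs : K ⊆ closure (interior K ∩ u) ∪ closure (interior K ∩ v) := by
      rw [← closure_union]
      intro x hx
      rw [← hcl] at hx
      exact closure_mono hi hx
    obtain ⟨a, ha⟩ := hnu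
    obtain ⟨b, hb⟩ := hnv
    obtain ⟨p, hpK, hpA, hpB⟩ := isPreconnected_closed_iff.1 hc.isPreconnected _ _ isClosed_closure
      isClosed_closure hKs ⟨a, interior_subset ha.1, subset_closure ha⟩
      ⟨b, interior_subset hb.1, subset_closure hb⟩
    have hpi : p ∉ interior K := by
      intro hp
      rcases hi hp with h1 | h1
      · obtain ⟨x, hx1, hx2⟩ := mem_closure_iff_nhds.1 hpB _ (hA.mem_nhds h1)
        exact disjoint_left.1 hAB hx1 hx2
      · obtain ⟨x, hx1, hx2⟩ := mem_closure_iff_nhds.1 hpA _ (hB.mem_nhds h1)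
        exact disjoint_left.1 hAB hx2 hx1
    have hpf : p ∈ frontier K := by
      rw [hK.1.isClosed.frontier_eq]
      exact ⟨hpK, hpi⟩
    obtain ⟨φ, hφ, hφ0, hφK⟩ := hK.2 p hpf
    rcases bfr_half hA hB hAB hi hφ hφK with h1 | h1
    · exact bfr_side hAB inter_subset_left hφ hφK hφ0 h1 hpB
    · exact bfr_side hAB.symm inter_subset_left hφ hφK hφ0 h1 hpA

theorem bfr_five {K : Set X} (hX : IsSurf X) (hK : Bord K) (e : ℂ → X) (S : Set ℂ)
    (he : IsTile e) (hS : S ⊆ UC) (hm : e '' CD ∩ K = e '' S) :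
    e '' S ⊆ frontier K ∧ Disjoint (e '' OD) K := by
  have := hX.t2
  have hdis : Disjoint (e '' OD) K := by
    rw [disjoint_left]
    rintro _ ⟨z, hz, rfl⟩ hzK
    have h1 : e z ∈ e '' CD ∩ K := ⟨⟨z, ball_subset_closedBall hz, rfl⟩, hzK⟩
    rw [hm] at h1
    obtain ⟨s, hs, hse⟩ := h1
    have h2 : s = z := he.2.1 (sphere_subset_closedBall (hS hs)) (ball_subset_closedBall hz) hse
    have h3 : dist s 0 = 1 := hS hs
    have h4 : dist z 0 < 1 := hz
    rw [h2] at h3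
    linarith
  refine ⟨?_, hdis⟩
  rintro _ ⟨ζ, hζ, rfl⟩
  have hζK : e ζ ∈ K := by
    have h1 : e ζ ∈ e '' S := ⟨ζ, hζ, rfl⟩
    rw [← hm] at h1
    exact h1.2
  rw [hK.1.isClosed.frontier_eq]
  refine ⟨hζK, fun hi => ?_⟩
  have hζC : ζ ∈ CD := sphere_subset_closedBall (hS hζ)
  have h1 : ContinuousWithinAt e OD ζ := (he.1 ζ hζC).mono ball_subset_closedBall
  have h2 : e ⁻¹' interior K ∈ 𝓝[OD] ζ := h1 (isOpen_interior.mem_nhds hi)
  have h3 : (𝓝[OD] ζ).NeBot := by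
    rw [← mem_closure_iff_nhdsWithin_neBot, closure_ball _ one_ne_zero]
    exact hζC
  obtain ⟨z, hz1, hz2⟩ := h3.nonempty_of_mem (Filter.inter_mem h2 self_mem_nhdsWithin)
  exact disjoint_left.1 hdis ⟨z, hz2, rfl⟩ (interior_subset hz1)

end

/-- BFR -/
theorem thm_BFR (hSHR : St_SHR) : St_BFR := by
  intro X _ hX K hK
  refine ⟨fun φ hφ h => bfr_one hφ h, bfr_two hX hK, bfr_three hSHR hK, ?_, bfr_five hX hK⟩
  intro hc T hT1 hT2
  refine (bfr_conn hX hK hc).subset_closure hT1 ?_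
  rw [bfr_two hX hK]
  exact hT2

end Pool.Agent.SRF
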