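import Pool.Agent.SRF.StB

/-!
# SRF, CAP (helper25): a boundary circle inside a chart
-/

set_option autoImplicit false

open Set Metric Filter Topology

namespace Pool.Agent.SRF

/-- **CAP.** -/
theorem thm_CAP (hS : St_SCH) (_hI : St_INV) (hB : St_BFR) : St_CAP := by
  intro X _ hX K φ γ hK hKc hφ hγ hγK hγφ
  haveI : T2Space X := hX.t2
  have hKcl : IsClosed K := hK.1.isClosed
  have hsub : OD ⊆ CD := ball_subset_closedBall
  have hsubU : UC ⊆ CD := sphere_subset_closedBall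
  -- the Jordan curve in the plane
  set ψ : ℂ → ℂ := fun z => Function.invFun φ (γ z) with hψ
  have hφψ : ∀ z ∈ UC, φ (ψ z) = γ z := fun z hz => Function.invFun_eq (hγφ ⟨z, hz, rfl⟩)
  have hψc : ContinuousOn ψ UC := by
    rw [hφ.toIsEmbedding.toIsInducing.continuousOn_iff]
    exact hγ.1.congr fun z hz => hφψ z hz
  have hψi : InjOn ψ UC := by
    intro z hz w hw h
    apply hγ.2 hz hw
    rw [← hφψ z hz, ← hφψ w hw, h]
  obtain ⟨g, hg⟩ := hS ψ ⟨hψc, hψi⟩
  have he : EqOn (φ ∘ g) γ UC := fun z hz => by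
    change φ (g z) = γ z
    rw [hg z hz, hφψ z hz]
  have hUC : (φ ∘ g) '' UC = γ '' UC := he.image_eq
  refine ⟨g, hUC, ?_⟩
  have hop : IsOpen ((φ ∘ g) '' OD) :=
    (hφ.isOpenMap.comp g.isOpenMap) _ isOpen_ball
  have hcl : IsClosed ((φ ∘ g) '' CD) :=
    ((isCompact_closedBall 0 1).image (hφ.continuous.comp g.continuous)).isClosed
  have hfr : (φ ∘ g) '' UC ⊆ frontier K := by
    rw [hUC]
    exact hγK
  have hT : IsConnected (K \ (φ ∘ g) '' UC) := by
    refine (hB X hX K hK).2.2.2.1 hKc _ ?_ diff_subset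
    intro x hx
    refine ⟨interior_subset hx, fun h => ?_⟩
    exact (hfr h).2 hx
  have hcov : K \ (φ ∘ g) '' UC ⊆ (φ ∘ g) '' OD ∪ ((φ ∘ g) '' CD)ᶜ := by
    intro x hx
    by_cases h : x ∈ (φ ∘ g) '' CD
    · obtain ⟨z, hz, rfl⟩ := h
      left
      refine ⟨z, ?_, rfl⟩
      rw [mem_closedBall_zero_iff] at hz
      rcases hz.lt_or_eq with h1 | h1
      · exact mem_ball_zero_iff.2 h1
      · exact absurd ⟨z, mem_sphere_zero_iff_norm.2 h1, rfl⟩ hx.2
    · exact Or.inr h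
  have hdis : Disjoint ((φ ∘ g) '' OD) ((φ ∘ g) '' CD)ᶜ :=
    disjoint_compl_right_iff_subset.2 (image_mono hsub)
  rcases hT.isPreconnected.subset_or_subset hop hcl.isOpen_compl hdis hcov with h | h
  · right
    intro x hx
    by_cases h1 : x ∈ (φ ∘ g) '' UC
    · exact image_mono hsubU h1
    · exact image_mono hsub (h ⟨hx, h1⟩)
  · left
    refine Subset.antisymm ?_ ?_
    · rintro x ⟨hx1, hx2⟩
      by_contra h1
      exact h ⟨hx2, h1⟩ hx1
    · intro x hx
      exact ⟨image_mono hsubU hx, hKcl.frontier_subset (hfr hx)⟩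

end Pool.Agent.SRF
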