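import Pool.Agent.SRF.StB

set_option autoImplicit false

/-! # SRF, CAPS: capping all boundary circles inside a chart -/

open Set Metric Filter Topology

namespace Pool.Agent.SRF

private theorem caps_sphere_conn : IsConnected (UC : Set ℂ) := by
  refine isConnected_sphere ?_ _ zero_le_one
  rw [Complex.rank_real_complex]
  exact Nat.one_lt_ofNat

private theorem caps_out : IsPreconnected (ODᶜ : Set ℂ) := by
  have h : (ODᶜ : Set ℂ) = (fun p : ℝ × ℂ => (p.1 : ℂ) * p.2) '' (Ici (1 : ℝ) ×ˢ UC) := by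
    ext z
    rw [mem_compl_iff, mem_ball_zero_iff, not_lt]
    constructor
    · intro hz
      have hz0 : (‖z‖ : ℂ) ≠ 0 := by
        rw [Ne, Complex.ofReal_eq_zero]
        linarith
      refine ⟨(‖z‖, z / ‖z‖), ⟨hz, ?_⟩, ?_⟩
      · rw [mem_sphere_zero_iff_norm, norm_div, Complex.norm_real, norm_norm]
        exact div_self (by linarith)
      · show (‖z‖ : ℂ) * (z / ‖z‖) = z
        field_simp
    · rintro ⟨⟨t, u⟩, ⟨ht, hu⟩, rfl⟩
      have hu' : ‖u‖ = 1 := mem_sphere_zero_iff_norm.1 hu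
      have ht' : (1 : ℝ) ≤ t := ht
      show 1 ≤ ‖(t : ℂ) * u‖
      rw [norm_mul, hu', mul_one, Complex.norm_real, Real.norm_of_nonneg (by linarith)]
      exact ht'
  rw [h]
  refine (isPreconnected_Ici.prod caps_sphere_conn.isPreconnected).image _ ?_
  exact ((Complex.continuous_ofReal.comp continuous_fst).mul continuous_snd).continuousOn

private theorem caps_in (h : ℂ ≃ₜ ℂ) (hU : h '' UC ⊆ OD) : h '' CD ⊆ OD := by
  rintro _ ⟨z₀, hz₀, rfl⟩
  by_contra hcon
  have hW : IsPreconnected (h.symm '' ODᶜ) := caps_out.image _ h.symm.continuous.continuousOn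
  have hN : IsPreconnected (norm '' (h.symm '' ODᶜ)) :=
    hW.image _ continuous_norm.continuousOn
  have h0 : ‖z₀‖ ∈ norm '' (h.symm '' ODᶜ) :=
    ⟨z₀, ⟨h z₀, hcon, h.symm_apply_apply z₀⟩, rfl⟩
  have hb : Bornology.IsBounded (h.symm '' CD) :=
    ((isCompact_closedBall (0 : ℂ) 1).image h.symm.continuous).isBounded
  obtain ⟨R, hR⟩ := hb.exists_norm_le
  have h1 : |R| + 2 ∈ norm '' (h.symm '' ODᶜ) := by
    refine ⟨((|R| + 2 : ℝ) : ℂ), ⟨h ((|R| + 2 : ℝ) : ℂ), ?_, h.symm_apply_apply _⟩, ?_⟩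
    · intro hc
      have h2 := hR _ (mem_image_of_mem h.symm (ball_subset_closedBall hc))
      rw [h.symm_apply_apply, Complex.norm_real, Real.norm_of_nonneg (by positivity)] at h2
      have := le_abs_self R
      linarith
    · rw [Complex.norm_real, Real.norm_of_nonneg (by positivity)]
  have h2 : (1 : ℝ) ∈ norm '' (h.symm '' ODᶜ) := by
    refine hN.Icc_subset h0 h1 ⟨mem_closedBall_zero_iff.1 hz₀, ?_⟩
    have := abs_nonneg R
    linarith
  obtain ⟨_, ⟨w, hw, rfl⟩, hw1⟩ := h2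
  apply hw
  have h3 := hU (mem_image_of_mem h (mem_sphere_zero_iff_norm.2 hw1))
  rwa [h.apply_symm_apply] at h3

private theorem caps_in2 (g g' : ℂ ≃ₜ ℂ) (h : g' '' UC ⊆ g '' OD) : g' '' CD ⊆ g '' OD := by
  have h1 : (g'.trans g.symm) '' UC ⊆ OD := by
    rintro _ ⟨z, hz, rfl⟩
    obtain ⟨w, hw, h2⟩ := h (mem_image_of_mem g' hz)
    show g.symm (g' z) ∈ OD
    rw [← h2, g.symm_apply_apply]
    exact hw
  rintro _ ⟨z, hz, rfl⟩
  exact ⟨g.symm (g' z), caps_in _ h1 (mem_image_of_mem _ hz), g.apply_symm_apply _⟩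

private theorem caps_two (g g' : ℂ ≃ₜ ℂ) (h : g' '' UC ⊆ g '' OD) (h' : g '' UC ⊆ g' '' OD) :
    False := by
  have h1 := caps_in2 g g' h
  have h2 := caps_in2 g' g h'
  have h3 : g '' CD ⊆ g '' OD :=
    h2.trans ((image_mono ball_subset_closedBall).trans h1)
  have h4 : (1 : ℂ) ∈ CD := by simp
  obtain ⟨w, hw, h5⟩ := h3 (mem_image_of_mem g h4)
  rw [g.injective h5] at hw
  simp at hw

private theorem caps_tile {X : Type} [TopologicalSpace X] {φ : ℂ → X} (hφ : IsOpenEmbedding φ)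
    (g : ℂ ≃ₜ ℂ) : IsTile (φ ∘ g) := by
  refine ⟨(hφ.continuous.comp g.continuous).continuousOn,
    (hφ.injective.comp g.injective).injOn, φ, hφ, ?_⟩
  rintro _ ⟨z, _, rfl⟩
  exact mem_range_self _

private theorem caps_CD : (CD : Set ℂ) = OD ∪ UC := by
  rw [ball_union_sphere]

/-- The final case: all circles are in the chart and `K` is inside all of them. -/
private theorem caps_fin (hBFR : St_BFR) {X : Type} [TopologicalSpace X] (hX : IsSurf X)
    {K : Set X} {φ : ℂ → X} (hK : Bord K) (hKc : IsConnected K) (hφ : IsOpenEmbedding φ) {n : ℕ}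
    {γ : Fin n → ℂ → X} (hd : ∀ i j, i ≠ j → Disjoint (γ i '' UC) (γ j '' UC))
    (hfr : frontier K = ⋃ i, γ i '' UC) (i₀ : Fin n) (G : ∀ i, γ i '' UC ⊆ range φ →
      ∃ g : ℂ ≃ₜ ℂ, (φ ∘ g) '' UC = γ i '' UC ∧ K ⊆ (φ ∘ g) '' CD)
    (h0 : γ i₀ '' UC ⊆ range φ) : ∃ g : ℂ ≃ₜ ℂ, K = (φ ∘ g) '' CD := by
  have := hX.t2
  have hKcl : IsClosed K := hK.1.isClosed
  obtain ⟨g, hg1, hg2⟩ := G i₀ h0
  have hfK : ∀ j, γ j '' UC ⊆ K := fun j =>
    (subset_iUnion (fun i => γ i '' UC) j).trans (hfr ▸ hKcl.frontier_subset)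
  have hr : ∀ j, γ j '' UC ⊆ range φ := by
    intro j x hx
    obtain ⟨z, _, rfl⟩ := hg2 (hfK j hx)
    exact mem_range_self _
  have hkey : ∀ i j (g g' : ℂ ≃ₜ ℂ), i ≠ j → (φ ∘ g) '' UC = γ i '' UC → K ⊆ (φ ∘ g) '' CD →
      (φ ∘ g') '' UC = γ j '' UC → g' '' UC ⊆ g '' OD := by
    rintro i j g g' hij h1 h2 h3 _ ⟨z, hz, rfl⟩
    have h4 : φ (g' z) ∈ γ j '' UC := h3 ▸ mem_image_of_mem (φ ∘ g') hz
    obtain ⟨w, hw, h5⟩ := h2 (hfK j h4)
    have h6 : g w = g' z := hφ.injective h5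
    rw [caps_CD] at hw
    rcases hw with hw | hw
    · exact ⟨w, hw, h6⟩
    · exfalso
      have h7 : φ (g' z) ∈ γ i '' UC := by
        rw [← h1]
        exact ⟨w, hw, h5⟩
      exact disjoint_left.1 (hd i j hij) h7 h4
  have hall : ∀ j, j = i₀ := by
    intro j
    by_contra hj
    obtain ⟨g', h1, h2⟩ := G j (hr j)
    exact caps_two g g' (hkey i₀ j g g' (Ne.symm hj) hg1 hg2 h1)
      (hkey j i₀ g' g hj h1 h2 hg1)
  have hfr' : frontier K = (φ ∘ g) '' UC := by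
    rw [hfr, hg1]
    refine Subset.antisymm (iUnion_subset fun j => ?_) (subset_iUnion (fun i => γ i '' UC) i₀)
    rw [hall j]
  have hinj : Function.Injective (φ ∘ g) := hφ.injective.comp g.injective
  have hdis : Disjoint ((φ ∘ g) '' OD) (frontier K) := by
    rw [hfr', disjoint_image_iff hinj]
    exact disjoint_left.2 fun z h1 h2 => by
      rw [mem_ball_zero_iff] at h1
      rw [mem_sphere_zero_iff_norm] at h2
      linarith
  refine ⟨g, Subset.antisymm hg2 ?_⟩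
  have hint : (interior K).Nonempty := by
    rw [← closure_nonempty_iff, (hBFR X hX K hK).2.1]
    exact hKc.nonempty
  have hOD : (φ ∘ g) '' OD ⊆ interior K := by
    have hc : IsPreconnected ((φ ∘ g) '' OD) :=
      (convex_ball (0 : ℂ) 1).isPreconnected.image _
        (hφ.continuous.comp g.continuous).continuousOn
    refine hc.subset_left_of_subset_union isOpen_interior hKcl.isOpen_compl ?_ ?_ ?_
    · exact disjoint_compl_right_iff_subset.2 interior_subset
    · intro x hx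
      by_cases hxK : x ∈ K
      · left
        by_contra h
        exact disjoint_left.1 hdis hx ⟨subset_closure hxK, h⟩
      · exact Or.inr hxK
    · obtain ⟨p, hp⟩ := hint
      obtain ⟨z, hz, rfl⟩ := hg2 (interior_subset hp)
      rw [caps_CD] at hz
      rcases hz with hz | hz
      · exact ⟨_, ⟨z, hz, rfl⟩, hp⟩
      · exfalso
        have h1 : (φ ∘ g) z ∈ frontier K := by
          rw [hfr']
          exact ⟨z, hz, rfl⟩
        exact h1.2 hp
  rw [caps_CD, image_union]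
  refine union_subset (hOD.trans interior_subset) ?_
  rw [← hfr']
  exact hKcl.frontier_subset

private theorem caps_ind (hBFR : St_BFR) (hATB : St_ATB) (hCAP : St_CAP) {X : Type}
    [TopologicalSpace X] (hX : IsSurf X) {φ : ℂ → X} (hφ : IsOpenEmbedding φ) :
    ∀ (n : ℕ) (K : Set X), Bord K → IsConnected K → ∀ γ : Fin n → ℂ → X,
    (∀ i, IsJordan (γ i)) → (∀ i j, i ≠ j → Disjoint (γ i '' UC) (γ j '' UC)) →
    frontier K = (⋃ i, γ i '' UC) → ∃ K₁ : Set X, BuiltFrom K K₁ ∧ IsConnected K₁ ∧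
    ((∃ g : ℂ ≃ₜ ℂ, K₁ = (φ ∘ g) '' CD) ∨
      (∃ (n : ℕ) (γ : Fin n → ℂ → X), (∀ i, IsJordan (γ i)) ∧
        (∀ i j, i ≠ j → Disjoint (γ i '' UC) (γ j '' UC)) ∧ frontier K₁ = (⋃ i, γ i '' UC) ∧
        ∀ i, ¬ γ i '' UC ⊆ range φ)) := by
  intro n
  induction n with
  | zero =>
    intro K hK hKc γ hJ hd hfr
    exact ⟨K, .refl, hKc, Or.inr ⟨0, γ, hJ, hd, hfr, fun i => i.elim0⟩⟩
  | succ n ih =>
    intro K hK hKc γ hJ hd hfr
    have := hX.t2
    by_cases hA : ∀ i, ¬ γ i '' UC ⊆ range φ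
    · exact ⟨K, .refl, hKc, Or.inr ⟨n + 1, γ, hJ, hd, hfr, hA⟩⟩
    push Not at hA
    obtain ⟨i₀, hi₀⟩ := hA
    have hsub : ∀ i, γ i '' UC ⊆ frontier K := fun i => by
      rw [hfr]
      exact subset_iUnion (fun i => γ i '' UC) i
    by_cases hB : ∃ (i : Fin (n + 1)) (g : ℂ ≃ₜ ℂ), (φ ∘ g) '' UC = γ i '' UC ∧
        (φ ∘ g) '' CD ∩ K = (φ ∘ g) '' UC
    · obtain ⟨i, g, hg1, hg2⟩ := hB
      have hatt : Att K (φ ∘ g) UC UC := ⟨caps_tile hφ g, .full, hg2⟩
      obtain ⟨hK', hfr1⟩ := hATB X hX K (φ ∘ g) UC UC hK hatt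
      have hCDc : IsConnected ((φ ∘ g) '' CD) :=
        ((convex_closedBall (0 : ℂ) 1).isConnected ⟨0, by simp⟩).image _
          (hφ.continuous.comp g.continuous).continuousOn
      have hK'c : IsConnected (K ∪ (φ ∘ g) '' CD) := by
        refine IsConnected.union ?_ hKc hCDc
        rw [inter_comm, hg2]
        exact ⟨_, mem_image_of_mem _ (mem_sphere_zero_iff_norm.2 (norm_one))⟩
      have hfr2 : frontier (K ∪ (φ ∘ g) '' CD) = ⋃ j, γ (i.succAbove j) '' UC := by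
        rw [hfr1, hg1, union_eq_self_of_subset_right (hsub i), hfr]
        ext x
        simp only [Set.mem_sdiff, mem_iUnion]
        constructor
        · rintro ⟨⟨j, hj⟩, hx⟩
          have hne : j ≠ i := by
            rintro rfl
            exact hx hj
          obtain ⟨k, rfl⟩ := Fin.exists_succAbove_eq hne
          exact ⟨k, hj⟩
        · rintro ⟨k, hk⟩
          exact ⟨⟨_, hk⟩, fun hx =>
            disjoint_left.1 (hd _ _ (Fin.succAbove_ne i k)) hk hx⟩
      obtain ⟨K₁, h1, h2, h3⟩ := ih (K ∪ (φ ∘ g) '' CD) hK' hK'c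
        (fun j => γ (i.succAbove j)) (fun j => hJ _)
        (fun j k hjk => hd _ _ fun h => hjk (Fin.succAbove_right_injective h)) hfr2
      exact ⟨K₁, (BuiltFrom.step K (φ ∘ g) UC UC .refl hatt).trans h1, h2, h3⟩
    · push Not at hB
      refine ⟨K, .refl, hKc, Or.inl ?_⟩
      refine caps_fin hBFR hX hK hKc hφ hd hfr i₀ ?_ hi₀
      intro i hi
      obtain ⟨g, hg1, hg2⟩ := hCAP X hX K φ (γ i) hK hKc hφ (hJ i) (hsub i) hi
      rcases hg2 with hg2 | hg2
      · exact absurd hg2 (hB i g hg1)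
      · exact ⟨g, hg1, hg2⟩

theorem thm_CAPS (hBFR : St_BFR) (hATB : St_ATB) (hBCI : St_BCI) (hCAP : St_CAP) : St_CAPS := by
  intro X _ hX K φ hK hKc hφ
  obtain ⟨n, γ, hJ, hd, hfr⟩ := hBCI X hX K hK
  exact caps_ind hBFR hATB hCAP hX hφ n K hK hKc γ hJ hd hfr

end Pool.Agent.SRF
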