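import Pool.Agent.SRF.StB

/-! # SRF/CARS (helper52): arcs of a Jordan curve inside an open set -/

set_option autoImplicit false

open Set Metric Filter Topology

namespace Pool.Agent.SRF

/-- the piecewise linear function through `(0, a)`, `(1/4, a')`, `(3/4, b')`, `(1, b)` -/
private theorem cars_pl (a a' b' b : ℝ) (h1 : a < a') (h2 : a' < b') (h3 : b' < b) :
    ∃ p : ℝ → ℝ, Continuous p ∧ StrictMono p ∧ p 0 = a ∧ p (1 / 4) = a' ∧ p (3 / 4) = b' ∧
      p 1 = b := by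
  set p : ℝ → ℝ := fun t => a' + (b' - a') * max 0 (min 1 (2 * t - 1 / 2)) -
    (a' - a) * max 0 (1 - 4 * t) + (b - b') * max 0 (4 * t - 3) with hp
  have p1 : ∀ t : ℝ, t ≤ 1 / 4 → p t = a' - (a' - a) * (1 - 4 * t) := by
    intro t ht
    simp only [hp]
    rw [min_eq_right (by linarith : 2 * t - 1 / 2 ≤ 1), max_eq_left (by linarith : 2 * t - 1 / 2 ≤ 0),
      max_eq_right (by linarith : 0 ≤ 1 - 4 * t), max_eq_left (by linarith : 4 * t - 3 ≤ 0)]
    ring
  have p2 : ∀ t : ℝ, 1 / 4 ≤ t → t ≤ 3 / 4 → p t = a' + (b' - a') * (2 * t - 1 / 2) := by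
    intro t ht ht'
    simp only [hp]
    rw [min_eq_right (by linarith : 2 * t - 1 / 2 ≤ 1), max_eq_right (by linarith : 0 ≤ 2 * t - 1 / 2),
      max_eq_left (by linarith : 1 - 4 * t ≤ 0), max_eq_left (by linarith : 4 * t - 3 ≤ 0)]
    ring
  have p3 : ∀ t : ℝ, 3 / 4 ≤ t → p t = b' + (b - b') * (4 * t - 3) := by
    intro t ht
    simp only [hp]
    rw [min_eq_left (by linarith : 1 ≤ 2 * t - 1 / 2), max_eq_right (zero_le_one),
      max_eq_left (by linarith : 1 - 4 * t ≤ 0), max_eq_right (by linarith : 0 ≤ 4 * t - 3)]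
    ring
  refine ⟨p, ?_, ?_, ?_, ?_, ?_, ?_⟩
  · simp only [hp]
    fun_prop
  · intro s t hst
    have m1 : ∀ s t : ℝ, s < t → t ≤ 1 / 4 → p s < p t := by
      intro s t hst ht
      rw [p1 s (by linarith), p1 t ht]
      nlinarith [mul_pos (sub_pos.2 h1) (sub_pos.2 hst)]
    have m2 : ∀ s t : ℝ, 1 / 4 ≤ s → s < t → t ≤ 3 / 4 → p s < p t := by
      intro s t hs hst ht
      rw [p2 s hs (by linarith), p2 t (by linarith) ht]
      nlinarith [mul_pos (sub_pos.2 h2) (sub_pos.2 hst)]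
    have m3 : ∀ s t : ℝ, 3 / 4 ≤ s → s < t → p s < p t := by
      intro s t hs hst
      rw [p3 s hs, p3 t (by linarith)]
      nlinarith [mul_pos (sub_pos.2 h3) (sub_pos.2 hst)]
    have m23 : ∀ s t : ℝ, 1 / 4 ≤ s → s < t → p s < p t := by
      intro s t hs hst
      rcases le_total t (3 / 4) with ht | ht
      · exact m2 s t hs hst ht
      · rcases lt_or_ge s (3 / 4) with hs' | hs'
        · refine (m2 s (3 / 4) hs hs' le_rfl).trans_le ?_
          rcases ht.eq_or_lt with h | h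
          · rw [← h]
          · exact (m3 _ _ le_rfl h).le
        · exact m3 s t hs' hst
    rcases le_total t (1 / 4) with ht | ht
    · exact m1 s t hst ht
    · rcases lt_or_ge s (1 / 4) with hs' | hs'
      · refine (m1 s (1 / 4) hs' le_rfl).trans_le ?_
        rcases ht.eq_or_lt with h | h
        · rw [← h]
        · exact (m23 _ _ le_rfl h).le
      · exact m23 s t hs' hst
  · rw [p1 0 (by norm_num)]; ring
  · rw [p1 (1 / 4) le_rfl]; ring
  · rw [p3 (3 / 4) le_rfl]; ring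
  · rw [p3 1 (by norm_num)]; ring

/-- finitely many disjoint closed intervals in an open set, around a compact set -/
private theorem cars_line (A V : Set ℝ) (hA : IsCompact A) (hV : IsOpen V) (hAV : A ⊆ V) :
    ∃ (m : ℕ) (a a' b' b : Fin m → ℝ), (∀ i, a i < a' i) ∧ (∀ i, a' i < b' i) ∧
      (∀ i, b' i < b i) ∧ (∀ i, Icc (a i) (b i) ⊆ V) ∧
      (∀ i j, i ≠ j → Disjoint (Icc (a i) (b i)) (Icc (a j) (b j))) ∧
      A ⊆ ⋃ i, Icc (a' i) (b' i) := by
  classical
  obtain ⟨t, htA, hcov⟩ := hA.elim_nhds_subcover (fun x => connectedComponentIn V x)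
    (fun x hx => hV.connectedComponentIn.mem_nhds (mem_connectedComponentIn (hAV hx)))
  set CC : Finset (Set ℝ) := t.image (connectedComponentIn V) with hCC
  have hW : ∀ W : CC, ∃ a a' b' b : ℝ, a < a' ∧ a' < b' ∧ b' < b ∧ Icc a b ⊆ W.1 ∧
      A ∩ W.1 ⊆ Icc a' b' := by
    rintro ⟨W, hWC⟩
    obtain ⟨x, hxt, rfl⟩ := Finset.mem_image.1 hWC
    have hxA : x ∈ A := htA x hxt
    set W := connectedComponentIn V x with hWd
    have hWo : IsOpen W := hV.connectedComponentIn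
    have hWp : IsPreconnected W := isPreconnected_connectedComponentIn
    have hxW : x ∈ W := mem_connectedComponentIn (hAV hxA)
    have hcl : closure W ∩ V ⊆ W := by
      refine IsPreconnected.subset_connectedComponentIn ?_ ⟨subset_closure hxW, hAV hxA⟩
        inter_subset_right
      exact hWp.subset_closure (subset_inter subset_closure (connectedComponentIn_subset V x))
        inter_subset_left
    have hKc : IsCompact (A ∩ closure W) := hA.inter_right isClosed_closure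
    obtain ⟨l, hl, hl'⟩ := hKc.exists_isLeast ⟨x, hxA, subset_closure hxW⟩
    obtain ⟨u, hu, hu'⟩ := hKc.exists_isGreatest ⟨x, hxA, subset_closure hxW⟩
    have hlW : l ∈ W := hcl ⟨hl.2, hAV hl.1⟩
    have huW : u ∈ W := hcl ⟨hu.2, hAV hu.1⟩
    have hlu : l ≤ u := hl' hu
    obtain ⟨e1, he1, hb1⟩ := Metric.isOpen_iff.1 hWo l hlW
    obtain ⟨e2, he2, hb2⟩ := Metric.isOpen_iff.1 hWo u huW
    refine ⟨l - e1 / 2, l - e1 / 4, u + e2 / 4, u + e2 / 2, by linarith, by linarith, by linarith,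
      ?_, ?_⟩
    · refine hWp.ordConnected.out (hb1 ?_) (hb2 ?_)
      · rw [Metric.mem_ball, Real.dist_eq, abs_lt]
        constructor <;> linarith
      · rw [Metric.mem_ball, Real.dist_eq, abs_lt]
        constructor <;> linarith
    · rintro y ⟨hyA, hyW⟩
      have h1 := hl' ⟨hyA, subset_closure hyW⟩
      have h2 := hu' ⟨hyA, subset_closure hyW⟩
      exact ⟨by linarith, by linarith⟩
  choose a a' b' b h1 h2 h3 h4 h5 using hW
  refine ⟨CC.card, fun i => a (CC.equivFin.symm i), fun i => a' (CC.equivFin.symm i),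
    fun i => b' (CC.equivFin.symm i), fun i => b (CC.equivFin.symm i), fun i => h1 _,
    fun i => h2 _, fun i => h3 _, ?_, ?_, ?_⟩
  · intro i
    refine (h4 _).trans ?_
    obtain ⟨x, -, hx⟩ := Finset.mem_image.1 (CC.equivFin.symm i).2
    rw [← hx]
    exact connectedComponentIn_subset V x
  · intro i j hij
    have hne : CC.equivFin.symm i ≠ CC.equivFin.symm j :=
      fun h => hij (CC.equivFin.symm.injective h)
    refine Disjoint.mono (h4 _) (h4 _) ?_
    rw [Set.disjoint_left]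
    intro z hz hz'
    apply hne
    obtain ⟨x, -, hx⟩ := Finset.mem_image.1 (CC.equivFin.symm i).2
    obtain ⟨y, -, hy⟩ := Finset.mem_image.1 (CC.equivFin.symm j).2
    apply Subtype.ext
    rw [← hx] at hz ⊢
    rw [← hy] at hz' ⊢
    rw [connectedComponentIn_eq hz, connectedComponentIn_eq hz']
  · intro x hx
    have hx' := hcov hx
    rw [mem_iUnion₂] at hx'
    obtain ⟨y, hyt, hxy⟩ := hx'
    have hmem : connectedComponentIn V y ∈ CC := Finset.mem_image_of_mem _ hyt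
    rw [mem_iUnion]
    refine ⟨CC.equivFin ⟨_, hmem⟩, ?_⟩
    simp only [Equiv.symm_apply_apply]
    exact h5 ⟨_, hmem⟩ ⟨hx, hxy⟩

private theorem cars_mem (t : ℝ) : cexpi t ∈ UC := by
  simp [cexpi, Complex.norm_exp_ofReal_mul_I]

private theorem cars_cont : Continuous cexpi := by
  unfold cexpi
  fun_prop

private theorem cars_inj {s t : ℝ} (h : cexpi s = cexpi t) (hst : |s - t| < 2 * Real.pi) :
    s = t := by
  unfold cexpi at h
  rw [Complex.exp_eq_exp_iff_exists_int] at h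
  obtain ⟨n, hn⟩ := h
  have h1 : s = t + n * (2 * Real.pi) := by
    have h2 := congrArg Complex.im hn
    simpa using h2
  have hpi : 0 < 2 * Real.pi := Real.two_pi_pos
  have h3 : |(n : ℝ)| < 1 := by
    have h4 : s - t = n * (2 * Real.pi) := by linarith
    rw [h4, abs_mul, abs_of_pos hpi] at hst
    by_contra hcon
    rw [not_lt] at hcon
    have h5 : 1 * (2 * Real.pi) ≤ |(n : ℝ)| * (2 * Real.pi) :=
      mul_le_mul_of_nonneg_right hcon hpi.le
    linarith
  have h6 : n = 0 := by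
    have h7 : |n| < 1 := by exact_mod_cast h3
    exact Int.abs_lt_one_iff.1 h7
  rw [h1, h6]
  simp

private theorem cars_surj (θ₀ : ℝ) (ζ : ℂ) (hζ : ζ ∈ UC) :
    ∃ θ ∈ Ico θ₀ (θ₀ + 2 * Real.pi), cexpi θ = ζ := by
  have hpi : 0 < 2 * Real.pi := Real.two_pi_pos
  refine ⟨toIcoMod hpi θ₀ (Complex.arg ζ), toIcoMod_mem_Ico hpi θ₀ _, ?_⟩
  have h1 : cexpi (Complex.arg ζ) = ζ := by
    have h2 := Complex.norm_mul_exp_arg_mul_I ζ
    have h3 : ‖ζ‖ = 1 := by simpa using hζ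
    rw [h3] at h2
    simpa [cexpi] using h2
  rw [toIcoMod]
  conv_rhs => rw [← h1]
  unfold cexpi
  rw [Complex.exp_eq_exp_iff_exists_int]
  refine ⟨-toIcoDiv hpi θ₀ (Complex.arg ζ), ?_⟩
  simp only [zsmul_eq_mul]
  push_cast
  ring

theorem thm_CARS : St_CARS := by
  intro X _ _ γ U C hγ hU hC hCU hnot
  obtain ⟨y, ⟨ζ₀, hζ₀, rfl⟩, hyU⟩ := not_subset.1 hnot
  obtain ⟨θ₀, -, hθ₀⟩ := cars_surj 0 ζ₀ hζ₀
  have hpi : 0 < 2 * Real.pi := Real.two_pi_pos
  have hδ : Continuous (fun θ : ℝ => γ (cexpi θ)) :=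
    hγ.1.comp_continuous cars_cont cars_mem
  have hinj : InjOn (fun θ : ℝ => γ (cexpi θ)) (Ioo θ₀ (θ₀ + 2 * Real.pi)) := by
    intro s hs t ht hst
    refine cars_inj (hγ.2 (cars_mem s) (cars_mem t) hst) ?_
    rw [abs_lt]
    constructor <;> linarith [hs.1, hs.2, ht.1, ht.2]
  have hend : cexpi (θ₀ + 2 * Real.pi) = ζ₀ := by
    rw [← hθ₀]
    unfold cexpi
    rw [Complex.exp_eq_exp_iff_exists_int]
    refine ⟨1, ?_⟩
    push_cast
    ring
  set A : Set ℝ := Icc θ₀ (θ₀ + 2 * Real.pi) ∩ (fun θ : ℝ => γ (cexpi θ)) ⁻¹' C with hAd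
  set V : Set ℝ := Ioo θ₀ (θ₀ + 2 * Real.pi) ∩ (fun θ : ℝ => γ (cexpi θ)) ⁻¹' U with hVd
  have hA : IsCompact A := isCompact_Icc.inter_right (hC.preimage hδ)
  have hV : IsOpen V := isOpen_Ioo.inter (hU.preimage hδ)
  have hAV : A ⊆ V := by
    rintro θ ⟨⟨h1, h2⟩, h3⟩
    have h4 : γ (cexpi θ) ∈ U := hCU h3
    refine ⟨⟨lt_of_le_of_ne h1 ?_, lt_of_le_of_ne h2 ?_⟩, h4⟩
    · intro h
      rw [← h, hθ₀] at h4
      exact hyU h4
    · intro h
      rw [h, hend] at h4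
      exact hyU h4
  obtain ⟨m, a, a', b', b, h1, h2, h3, h4, h5, h6⟩ := cars_line A V hA hV hAV
  choose p hpc hpm hp0 hp1 hp2 hp3 using fun i => cars_pl (a i) (a' i) (b' i) (b i) (h1 i) (h2 i) (h3 i)
  have hpI : ∀ i, ∀ t ∈ Icc (0 : ℝ) 1, p i t ∈ Icc (a i) (b i) := by
    intro i t ht
    constructor
    · rw [← hp0 i]; exact (hpm i).monotone ht.1
    · rw [← hp3 i]; exact (hpm i).monotone ht.2
  have hpV : ∀ i, ∀ t ∈ Icc (0 : ℝ) 1, p i t ∈ V := fun i t ht => h4 i (hpI i t ht)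
  refine ⟨m, fun i t => γ (cexpi (p i t)), ?_, ?_, ?_, ?_⟩
  · intro i
    refine ⟨(hδ.comp (hpc i)).continuousOn, ?_⟩
    intro s hs t ht hst
    exact (hpm i).injective (hinj (hpV i s hs).1 (hpV i t ht).1 hst)
  · intro i j hij
    rw [Set.disjoint_left]
    rintro _ ⟨s, hs, rfl⟩ ⟨t, ht, hst⟩
    have h7 : p j t = p i s := hinj (hpV j t ht).1 (hpV i s hs).1 hst
    exact Set.disjoint_left.1 (h5 i j hij) (hpI i s hs) (h7 ▸ hpI j t ht)
  · rintro i _ ⟨t, ht, rfl⟩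
    exact ⟨⟨_, cars_mem _, rfl⟩, (hpV i t ht).2⟩
  · rintro _ ⟨⟨ζ, hζ, rfl⟩, hyC⟩
    obtain ⟨θ, hθ, rfl⟩ := cars_surj θ₀ ζ hζ
    have hθA : θ ∈ A := ⟨⟨hθ.1, hθ.2.le⟩, hyC⟩
    obtain ⟨i, hi⟩ := mem_iUnion.1 (h6 hθA)
    rw [mem_iUnion]
    refine ⟨i, ?_⟩
    have h7 : Icc (p i (1 / 4)) (p i (3 / 4)) ⊆ p i '' Icc (1 / 4) (3 / 4) :=
      intermediate_value_Icc (by norm_num) (hpc i).continuousOn
    rw [hp1 i, hp2 i] at h7
    obtain ⟨t, ht, hpt⟩ := h7 hi
    exact ⟨t, ht, by simp only [hpt]⟩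

end Pool.Agent.SRF
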