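import Pool.Agent.SRF.StB

set_option autoImplicit false

/-! # SRF, module CASEA: from a disc in a chart to a bigger disc -/

open Set Metric Filter Topology

namespace Pool.Agent.SRF

private theorem casea_exp {x y : ℂ} (h : Complex.exp x = Complex.exp y) :
    ∃ n : ℤ, x.re = y.re ∧ x.im = y.im + n * (2 * Real.pi) := by
  obtain ⟨n, hn⟩ := Complex.exp_eq_exp_iff_exists_int.1 h
  refine ⟨n, ?_, ?_⟩
  · rw [hn]
    simp
  · rw [hn]
    simp

private theorem casea_int {n : ℤ} {t : ℝ} (h : t = n * (2 * Real.pi)) (h1 : -(2 * Real.pi) < t)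
    (h2 : t < 2 * Real.pi) : n = 0 := by
  have hp := Real.pi_pos
  have a1 : (-1 : ℝ) < n := by
    by_contra hc
    push Not at hc
    nlinarith
  have a2 : (n : ℝ) < 1 := by
    by_contra hc
    push Not at hc
    nlinarith
  have b1 : (-1 : ℤ) < n := by exact_mod_cast a1
  have b2 : n < 1 := by exact_mod_cast a2
  omega

private theorem casea_inj {a b c d : ℝ} (hd : d < c + 2 * Real.pi) :
    InjOn Complex.exp (Rect a b c d) := by
  intro x hx y hy h
  obtain ⟨n, h1, h2⟩ := casea_exp h
  have hn : n = 0 := by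
    apply casea_int (t := x.im - y.im) (by linarith)
    · linarith [hx.2.1, hy.2.2]
    · linarith [hx.2.2, hy.2.1]
  rw [hn] at h2
  apply Complex.ext h1
  rw [h2]
  simp

private theorem casea_tile {X : Type} [TopologicalSpace X] {ψ : ℂ → X} (hψ : IsOpenEmbedding ψ)
    {a b c d : ℝ} (hd : d < c + 2 * Real.pi) {e : ℂ → ℂ} (h1 : ContinuousOn e CD)
    (h2 : InjOn e CD) (h3 : e '' CD = Rect a b c d) : IsTile (ψ ∘ Complex.exp ∘ e) := by
  refine ⟨?_, ?_, ψ, hψ, ?_⟩
  · exact hψ.continuous.comp_continuousOn (Complex.continuous_exp.comp_continuousOn h1)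
  · intro x hx y hy h
    apply h2 hx hy
    apply casea_inj (a := a) (b := b) hd
    · rw [← h3]
      exact mem_image_of_mem e hx
    · rw [← h3]
      exact mem_image_of_mem e hy
    · exact hψ.injective h
  · rintro _ ⟨z, -, rfl⟩
    exact ⟨_, rfl⟩

private theorem casea_cd {w : ℂ} : Complex.exp w ∈ CD ↔ w.re ≤ 0 := by
  rw [mem_closedBall_zero_iff, Complex.norm_exp]
  exact Real.exp_le_one_iff

private theorem casea_left {T c d : ℝ} (hT : 0 < T) :
    Complex.exp '' Rect 0 T c d ∩ CD = Complex.exp '' Rect 0 0 c d := by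
  ext z
  constructor
  · rintro ⟨⟨w, hw, rfl⟩, hz⟩
    exact ⟨w, ⟨⟨hw.1.1, casea_cd.1 hz⟩, hw.2⟩, rfl⟩
  · rintro ⟨w, hw, rfl⟩
    exact ⟨⟨w, ⟨⟨hw.1.1, hw.1.2.trans hT.le⟩, hw.2⟩, rfl⟩, casea_cd.2 hw.1.2⟩

private theorem casea_comp {X : Type} (ψ : ℂ → X) (e : ℂ → ℂ) (A : Set ℂ) :
    (ψ ∘ Complex.exp ∘ e) '' A = ψ '' (Complex.exp '' (e '' A)) := by
  rw [image_comp, image_comp]

theorem thm_CASEA (hRECT : St_RECT) : St_CASEA := by
  intro X _ φ hφ g C hC hCφ
  have hp := Real.pi_pos
  set ψ : ℂ → X := φ ∘ g with hψdef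
  have hψ : IsOpenEmbedding ψ := hφ.comp g.isOpenEmbedding
  have hr : range ψ = range φ := by
    rw [hψdef, range_comp, g.surjective.range_eq, image_univ]
  have hCψ : C ⊆ range ψ := by rw [hr]; exact hCφ
  have hcomp : IsCompact (ψ ⁻¹' C) := hψ.isInducing.isCompact_preimage' hC hCψ
  obtain ⟨R, hR1, hRC⟩ : ∃ R : ℝ, 1 < R ∧ ψ ⁻¹' C ⊆ closedBall 0 R := by
    obtain ⟨r, hr⟩ := hcomp.isBounded.subset_closedBall 0
    exact ⟨max r 2, lt_of_lt_of_le (by norm_num) (le_max_right _ _),
      hr.trans (closedBall_subset_closedBall (le_max_left _ _))⟩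
  have hT : 0 < Real.log R := Real.log_pos hR1
  obtain ⟨e, he1, he2, he3, -, -, he6, -⟩ := hRECT 0 (Real.log R) 0 Real.pi hT hp
  obtain ⟨e', hf1, hf2, hf3, -, hf5, hf6, hf7⟩ :=
    hRECT 0 (Real.log R) Real.pi (2 * Real.pi) hT (by linarith)
  have hi1 : (ψ ∘ Complex.exp ∘ e) '' CD =
      ψ '' (Complex.exp '' Rect 0 (Real.log R) 0 Real.pi) := by
    rw [casea_comp, he3]
  have hi2 : (ψ ∘ Complex.exp ∘ e') '' CD =
      ψ '' (Complex.exp '' Rect 0 (Real.log R) Real.pi (2 * Real.pi)) := by
    rw [casea_comp, hf3]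
  have hA1 : Att (ψ '' CD) (ψ ∘ Complex.exp ∘ e) (carc (3 * Real.pi / 4) (5 * Real.pi / 4))
      (oarc (3 * Real.pi / 4) (5 * Real.pi / 4)) := by
    refine ⟨casea_tile hψ (by linarith) he1 he2 he3, AttSet.one _ _ (by linarith) (by linarith),
      ?_⟩
    rw [hi1, ← image_inter hψ.injective, casea_left hT, casea_comp, he6]
  have hA2 : Att (ψ '' CD ∪ (ψ ∘ Complex.exp ∘ e) '' CD) (ψ ∘ Complex.exp ∘ e')
      (carc (Real.pi / 4) (7 * Real.pi / 4)) (oarc (Real.pi / 4) (7 * Real.pi / 4)) := by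
    refine ⟨casea_tile hψ (by linarith) hf1 hf2 hf3, AttSet.one _ _ (by linarith) (by linarith),
      ?_⟩
    have hs : carc (Real.pi / 4) (7 * Real.pi / 4) = carc (Real.pi / 4) (3 * Real.pi / 4) ∪
        carc (3 * Real.pi / 4) (5 * Real.pi / 4) ∪ carc (5 * Real.pi / 4) (7 * Real.pi / 4) := by
      unfold carc
      rw [← image_union, ← image_union, Icc_union_Icc_eq_Icc (by linarith) (by linarith),
        Icc_union_Icc_eq_Icc (by linarith) (by linarith)]
    rw [hi1, hi2, ← image_union, ← image_inter hψ.injective, hs, casea_comp,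
      image_union e', image_union e', hf5, hf6, hf7]
    congr 1
    ext z
    constructor
    · rintro ⟨⟨w, hw, rfl⟩, hz | ⟨w', hw', hz⟩⟩
      · exact ⟨w, Or.inl (Or.inr ⟨⟨hw.1.1, casea_cd.1 hz⟩, hw.2⟩), rfl⟩
      · obtain ⟨n, h1, h2⟩ := casea_exp hz
        refine ⟨w, ?_, rfl⟩
        have a1 := hw.2.1
        have a2 := hw.2.2
        have a3 := hw'.2.1
        have a4 := hw'.2.2
        have b1 : (-2 : ℝ) < n := by
          by_contra hc
          push Not at hc
          nlinarith
        have b2 : (n : ℝ) < 1 := by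
          by_contra hc
          push Not at hc
          nlinarith
        have c1 : (-2 : ℤ) < n := by exact_mod_cast b1
        have c2 : n < 1 := by exact_mod_cast b2
        have c3 : n = 0 ∨ n = -1 := by omega
        rcases c3 with rfl | rfl
        · right
          push_cast at h2
          exact ⟨hw.1, ⟨a1, by linarith⟩⟩
        · left
          left
          push_cast at h2
          exact ⟨hw.1, ⟨by linarith, a2⟩⟩
    · rintro ⟨w, (hw | hw) | hw, rfl⟩
      · have h2 : w.im = 2 * Real.pi := le_antisymm hw.2.2 hw.2.1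
        refine ⟨⟨w, ⟨hw.1, ⟨by linarith, h2.le⟩⟩, rfl⟩, Or.inr ⟨w - 2 * Real.pi * Complex.I, ?_, ?_⟩⟩
        · refine ⟨?_, ?_⟩
          · have : (w - 2 * Real.pi * Complex.I).re = w.re := by simp
            rw [this]
            exact hw.1
          · have : (w - 2 * Real.pi * Complex.I).im = 0 := by simp [h2]
            rw [this]
            exact ⟨le_refl _, hp.le⟩
        · rw [Complex.exp_sub, Complex.exp_two_pi_mul_I, div_one]
      · exact ⟨⟨w, ⟨⟨hw.1.1, hw.1.2.trans hT.le⟩, hw.2⟩, rfl⟩, Or.inl (casea_cd.2 hw.1.2)⟩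
      · have h2 : w.im = Real.pi := le_antisymm hw.2.2 hw.2.1
        exact ⟨⟨w, ⟨hw.1, ⟨hw.2.1, by linarith⟩⟩, rfl⟩,
          Or.inr ⟨w, ⟨hw.1, ⟨by linarith, h2.le⟩⟩, rfl⟩⟩
  have hK' : ψ '' CD ∪ (ψ ∘ Complex.exp ∘ e) '' CD ∪ (ψ ∘ Complex.exp ∘ e') '' CD =
      ψ '' closedBall 0 R := by
    rw [hi1, hi2, ← image_union, ← image_union]
    congr 1
    ext z
    have hle : ∀ w : ℂ, w.re ≤ Real.log R → Complex.exp w ∈ closedBall (0 : ℂ) R := by
      intro w hw
      rw [mem_closedBall_zero_iff, Complex.norm_exp]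
      rwa [← Real.le_log_iff_exp_le (by linarith)]
    constructor
    · rintro ((hz | ⟨w, hw, rfl⟩) | ⟨w, hw, rfl⟩)
      · exact closedBall_subset_closedBall hR1.le hz
      · exact hle w hw.1.2
      · exact hle w hw.1.2
    · intro hz
      rw [mem_closedBall_zero_iff] at hz
      by_cases h1 : ‖z‖ ≤ 1
      · left
        left
        rw [mem_closedBall_zero_iff]
        exact h1
      · push Not at h1
        have hz0 : z ≠ 0 := by
          rintro rfl
          rw [norm_zero] at h1
          linarith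
        have hre : (Complex.log z).re ∈ Icc 0 (Real.log R) := by
          rw [Complex.log_re]
          exact ⟨Real.log_nonneg h1.le, Real.log_le_log (by linarith) hz⟩
        by_cases h2 : 0 ≤ (Complex.log z).im
        · left
          right
          exact ⟨Complex.log z, ⟨hre, ⟨h2, Complex.log_im_le_pi z⟩⟩, Complex.exp_log hz0⟩
        · push Not at h2
          right
          refine ⟨Complex.log z + 2 * Real.pi * Complex.I, ⟨?_, ?_⟩, ?_⟩
          · have : (Complex.log z + 2 * Real.pi * Complex.I).re = (Complex.log z).re := by simp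
            rw [this]
            exact hre
          · have : (Complex.log z + 2 * Real.pi * Complex.I).im =
                (Complex.log z).im + 2 * Real.pi := by simp
            rw [this]
            have := Complex.neg_pi_lt_log_im z
            exact ⟨by linarith, by linarith⟩
          · rw [Complex.exp_add, Complex.exp_two_pi_mul_I, mul_one, Complex.exp_log hz0]
  refine ⟨_, BuiltFrom.step _ _ _ _ (BuiltFrom.step _ _ _ _ BuiltFrom.refl hA1) hA2, ?_, ?_⟩
  · rw [hK']
    apply union_subset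
    · exact image_mono (closedBall_subset_closedBall hR1.le)
    · intro x hx
      obtain ⟨z, rfl⟩ := hCψ hx
      exact mem_image_of_mem ψ (hRC hx)
  · rw [hK']
    have h1 : IsConnected (closedBall (0 : ℂ) R) :=
      ((convex_closedBall (0 : ℂ) R).isPathConnected
        ⟨0, mem_closedBall_self (by linarith)⟩).isConnected
    exact h1.image ψ hψ.continuous.continuousOn

end Pool.Agent.SRF
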