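import Pool.Agent.SRF.StA

/-!
# SRF (MP_3b9597_lc): basic facts on continuous logarithms
-/

set_option autoImplicit false

open Set Metric Filter Topology

namespace Pool.Agent.SRF

theorem logb_const {X : Type*} [TopologicalSpace X] {S : Set X} (hS : IsPreconnected S)
    {u : X → ℂ} (hu : ContinuousOn u S)
    (h1 : ∀ x ∈ S, ∀ y ∈ S, Complex.exp (u x) = Complex.exp (u y)) :
    ∀ x ∈ S, ∀ y ∈ S, u x = u y := by
  intro x hx y hy
  have hpi := Real.pi_pos
  have hn : ∀ z ∈ S, ∃ n : ℤ, u z = u x + n * (2 * Real.pi * Complex.I) := fun z hz =>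
    Complex.exp_eq_exp_iff_exists_int.1 (h1 z hz x hx)
  let r : X → ℝ := fun z => (u z - u x).im / (2 * Real.pi)
  have hr : ContinuousOn r S :=
    (Complex.continuous_im.comp_continuousOn (hu.sub continuousOn_const)).div_const _
  have hrn : ∀ z ∈ S, ∀ n : ℤ, u z = u x + n * (2 * Real.pi * Complex.I) → r z = n := by
    intro z _ n h
    have : (u z - u x).im = n * (2 * Real.pi) := by
      rw [h]
      simp
    show (u z - u x).im / (2 * Real.pi) = n
    rw [this]
    field_simp
  have hord : OrdConnected (r '' S) := (hS.image r hr).ordConnected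
  obtain ⟨n, hy'⟩ := hn y hy
  have hry := hrn y hy n hy'
  have hrx : r x = 0 := by
    show (u x - u x).im / (2 * Real.pi) = 0
    simp
  have hhalf : ∀ k : ℤ, (k : ℝ) ≠ 1 / 2 := by
    intro k hk
    have h2 : (2 : ℝ) * k = 1 := by rw [hk]; norm_num
    have h3 : (2 : ℤ) * k = 1 := by exact_mod_cast h2
    omega
  have hhalf' : ∀ k : ℤ, (k : ℝ) ≠ -(1 / 2) := by
    intro k hk
    have h2 : (2 : ℝ) * k = -1 := by rw [hk]; norm_num
    have h3 : (2 : ℤ) * k = -1 := by exact_mod_cast h2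
    omega
  have hn0 : n = 0 := by
    by_contra hne
    rcases lt_or_gt_of_ne hne with hlt | hgt
    · have h5 : (n : ℝ) ≤ -1 := by exact_mod_cast (by omega : n ≤ -1)
      obtain ⟨z, hz, hz2⟩ := hord.out ⟨y, hy, hry⟩ ⟨x, hx, hrx⟩
        (show (-(1 / 2) : ℝ) ∈ Icc (n : ℝ) 0 from ⟨by linarith, by norm_num⟩)
      obtain ⟨m, hm⟩ := hn z hz
      exact hhalf' m ((hrn z hz m hm).symm.trans hz2)
    · have h5 : (1 : ℝ) ≤ n := by exact_mod_cast (by omega : 1 ≤ n)
      obtain ⟨z, hz, hz2⟩ := hord.out ⟨x, hx, hrx⟩ ⟨y, hy, hry⟩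
        (show (1 / 2 : ℝ) ∈ Icc (0 : ℝ) n from ⟨by norm_num, by linarith⟩)
      obtain ⟨m, hm⟩ := hn z hz
      exact hhalf m ((hrn z hz m hm).symm.trans hz2)
  rw [hy', hn0]
  simp

theorem logb_one (c : ℂ) (r : ℝ) (hr : 0 < r) : ¬ HasLog (fun z => z - c) (sphere c r) := by
  rintro ⟨h, hc, he⟩
  let g : ℝ → ℂ := fun t => c + r * Complex.exp (t * Complex.I)
  have hg : Continuous g := by
    show Continuous fun t : ℝ => c + r * Complex.exp (t * Complex.I)
    fun_prop
  have hgm : ∀ t, g t ∈ sphere c r := by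
    intro t
    rw [mem_sphere_iff_norm]
    show ‖c + r * Complex.exp (t * Complex.I) - c‖ = r
    rw [add_sub_cancel_left, norm_mul, Complex.norm_exp_ofReal_mul_I, mul_one,
      Complex.norm_of_nonneg hr.le]
  have hu : Continuous fun t : ℝ => h (g t) - t * Complex.I :=
    (hc.comp_continuous hg hgm).sub (by fun_prop)
  have hexp : ∀ t : ℝ, Complex.exp (h (g t) - t * Complex.I) = r := by
    intro t
    rw [Complex.exp_sub, he (g t) (hgm t)]
    show (c + r * Complex.exp (t * Complex.I) - c) / _ = _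
    rw [add_sub_cancel_left]
    exact mul_div_cancel_right₀ _ (Complex.exp_ne_zero _)
  have h0 := logb_const isPreconnected_univ hu.continuousOn
    (fun x _ y _ => (hexp x).trans (hexp y).symm) 0 (mem_univ _) (2 * Real.pi) (mem_univ _)
  have hg2 : g (2 * Real.pi) = g 0 := by
    show c + r * Complex.exp ((2 * Real.pi : ℝ) * Complex.I) =
      c + r * Complex.exp ((0 : ℝ) * Complex.I)
    have : Complex.exp ((2 * Real.pi : ℝ) * Complex.I) = 1 := by
      push_cast
      exact Complex.exp_two_pi_mul_I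
    rw [this]
    simp
  rw [hg2] at h0
  have h3 : ((2 * Real.pi : ℝ) : ℂ) * Complex.I = 0 := by
    have h4 : h (g 0) - ((0 : ℝ) : ℂ) * Complex.I = h (g 0) := by simp
    rw [h4] at h0
    have := sub_eq_self.1 h0.symm
    exact this
  have h5 := congrArg Complex.im h3
  simp at h5

theorem logb_two (f : ℂ → ℂ) (hf : Continuous f) (h0 : ∀ z, f z ≠ 0) :
    ∃ h : ℂ → ℂ, Continuous h ∧ ∀ z, Complex.exp (h z) = f z := by
  rcases Complex.isCoveringMapOn_exp.existsUnique_continuousMap_lifts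
    ⟨f, hf⟩ (Complex.exp_log (h0 0)) (fun x => h0 x) with ⟨g, ⟨-, hg⟩, -⟩
  exact ⟨g, g.continuous, fun z => congrFun hg z⟩

theorem logb_three (c : ℂ) (r : ℝ) : LogSet (closedBall c r) := by
  intro f hf h0
  rcases lt_trichotomy r 0 with hr | hr | hr
  · refine ⟨fun _ => 0, continuousOn_const, fun z hz => ?_⟩
    rw [closedBall_eq_empty.2 hr] at hz
    exact hz.elim
  · refine ⟨fun _ => Complex.log (f c), continuousOn_const, fun z hz => ?_⟩
    rw [hr, closedBall_zero, mem_singleton_iff] at hz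
    rw [hz]
    refine Complex.exp_log (h0 c ?_)
    rw [mem_closedBall, dist_self, hr]
  · let ρ : ℂ → ℂ := fun z => c + ((r / max r ‖z - c‖ : ℝ) : ℂ) * (z - c)
    have hmax : ∀ z : ℂ, 0 < max r ‖z - c‖ := fun z => lt_of_lt_of_le hr (le_max_left _ _)
    have hρ : Continuous ρ := by
      show Continuous fun z : ℂ => c + ((r / max r ‖z - c‖ : ℝ) : ℂ) * (z - c)
      have h1 : Continuous fun z : ℂ => r / max r ‖z - c‖ :=
        continuous_const.div (by fun_prop) fun z => (hmax z).ne'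
      exact continuous_const.add ((Complex.continuous_ofReal.comp h1).mul (by fun_prop))
    have hρm : ∀ z, ρ z ∈ closedBall c r := by
      intro z
      rw [mem_closedBall_iff_norm]
      show ‖c + ((r / max r ‖z - c‖ : ℝ) : ℂ) * (z - c) - c‖ ≤ r
      rw [add_sub_cancel_left, norm_mul, Complex.norm_of_nonneg (div_nonneg hr.le (hmax z).le),
        div_mul_eq_mul_div, div_le_iff₀ (hmax z)]
      exact mul_le_mul_of_nonneg_left (le_max_right _ _) hr.le
    have hρi : ∀ z ∈ closedBall c r, ρ z = z := by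
      intro z hz
      rw [mem_closedBall_iff_norm] at hz
      show c + ((r / max r ‖z - c‖ : ℝ) : ℂ) * (z - c) = z
      rw [max_eq_left hz, div_self hr.ne']
      simp
    obtain ⟨h, hc, he⟩ := logb_two (fun z => f (ρ z)) (hf.comp_continuous hρ hρm)
      fun z => h0 _ (hρm z)
    refine ⟨h, hc.continuousOn, fun z hz => ?_⟩
    rw [he]
    show f (ρ z) = f z
    rw [hρi z hz]

theorem logb_four (α : ℝ → ℂ) (hα : IsArc α) : LogSet (α '' Icc 0 1) := by
  classical
  intro f hf h0
  let P : ℂ → Icc (0 : ℝ) 1 := fun z => projIcc 0 1 zero_le_one z.re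
  have hP : Continuous P := continuous_projIcc.comp Complex.continuous_re
  have hα1 : Continuous fun t : Icc (0 : ℝ) 1 => α t :=
    continuousOn_iff_continuous_domRestrict.1 hα.1
  have hm : ∀ z, α (P z) ∈ α '' Icc 0 1 := fun z => mem_image_of_mem _ (P z).2
  obtain ⟨h, hc, he⟩ := logb_two (fun z => f (α (P z)))
    (hf.comp_continuous (hα1.comp hP) hm) fun z => h0 _ (hm z)
  let E : Icc (0 : ℝ) 1 ≃ α '' Icc 0 1 := Equiv.Set.imageOfInjOn α (Icc 0 1) hα.2
  have hE : Continuous E := by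
    refine Continuous.subtype_mk ?_ _
    exact hα1
  let H := hE.homeoOfEquivCompactToT2
  refine ⟨fun w => if hw : w ∈ α '' Icc 0 1 then h ((H.symm ⟨w, hw⟩ : Icc (0 : ℝ) 1) : ℝ) else 0,
    ?_, ?_⟩
  · rw [continuousOn_iff_continuous_domRestrict]
    have h1 : Continuous fun w : α '' Icc 0 1 => h (((H.symm w : Icc (0 : ℝ) 1) : ℝ) : ℂ) :=
      hc.comp (Complex.continuous_ofReal.comp (continuous_subtype_val.comp H.symm.continuous))
    refine h1.congr fun w => ?_
    rw [domRestrict_apply, dif_pos w.2]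
  · intro w hw
    show Complex.exp (if hw : w ∈ α '' Icc 0 1 then
      h ((H.symm ⟨w, hw⟩ : Icc (0 : ℝ) 1) : ℝ) else 0) = f w
    rw [dif_pos hw, he]
    have h2 : α (H.symm ⟨w, hw⟩ : Icc (0 : ℝ) 1) = w := by
      have := congrArg Subtype.val (H.apply_symm_apply ⟨w, hw⟩)
      exact this
    show f (α (projIcc 0 1 zero_le_one
      ((((H.symm ⟨w, hw⟩ : Icc (0 : ℝ) 1) : ℝ) : ℂ)).re)) = f w
    rw [Complex.ofReal_re, projIcc_val, h2]

theorem logb_five (f : ℂ → ℂ) (K L : Set ℂ) (hK : IsClosed K) (hL : IsClosed L)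
    (hKL : IsPreconnected (K ∩ L)) : HasLog f K → HasLog f L → HasLog f (K ∪ L) := by
  classical
  rintro ⟨h1, hc1, he1⟩ ⟨h2, hc2, he2⟩
  have hcd : ContinuousOn (fun z => h1 z - h2 z) (K ∩ L) :=
    (hc1.mono inter_subset_left).sub (hc2.mono inter_subset_right)
  have hed : ∀ z ∈ K ∩ L, Complex.exp (h1 z - h2 z) = 1 := by
    intro z hz
    rw [Complex.exp_sub, he1 z hz.1, he2 z hz.2]
    refine div_self ?_
    rw [← he1 z hz.1]
    exact Complex.exp_ne_zero _
  obtain ⟨k, hk1, hk2⟩ : ∃ k : ℂ, Complex.exp k = 1 ∧ ∀ z ∈ K ∩ L, h1 z = h2 z + k := by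
    rcases (K ∩ L).eq_empty_or_nonempty with h | ⟨x, hx⟩
    · refine ⟨0, Complex.exp_zero, fun z hz => ?_⟩
      rw [h] at hz
      exact hz.elim
    · refine ⟨h1 x - h2 x, hed x hx, fun z hz => ?_⟩
      have := logb_const hKL hcd (fun a ha b hb => (hed a ha).trans (hed b hb).symm) z hz x hx
      rw [← this]
      ring
  have hgl : ∀ z ∈ L, (if z ∈ K then h1 z else h2 z + k) = h2 z + k := by
    intro z hz
    by_cases hzK : z ∈ K
    · rw [if_pos hzK, hk2 z ⟨hzK, hz⟩]
    · rw [if_neg hzK]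
  refine ⟨fun z => if z ∈ K then h1 z else h2 z + k, ?_, ?_⟩
  · refine ContinuousOn.union_of_isClosed ?_ ?_ hK hL
    · exact hc1.congr fun z hz => if_pos hz
    · exact (hc2.add continuousOn_const).congr hgl
  · intro z hz
    by_cases hzK : z ∈ K
    · show Complex.exp (if z ∈ K then h1 z else h2 z + k) = f z
      rw [if_pos hzK]
      exact he1 z hzK
    · have hzL : z ∈ L := hz.resolve_left hzK
      show Complex.exp (if z ∈ K then h1 z else h2 z + k) = f z
      rw [if_neg hzK, Complex.exp_add, hk1, mul_one]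
      exact he2 z hzL

theorem logb_six (f g : ℂ → ℂ) (K : Set ℂ) (hf : ContinuousOn f K) (hg : ContinuousOn g K)
    (hfg : ∀ z ∈ K, ‖f z - g z‖ < ‖g z‖) : HasLog g K ↔ HasLog f K := by
  have hg0 : ∀ z ∈ K, g z ≠ 0 := by
    intro z hz h
    have := hfg z hz
    rw [h, norm_zero] at this
    exact absurd this (not_lt.2 (norm_nonneg _))
  have hf0 : ∀ z ∈ K, f z ≠ 0 := by
    intro z hz h
    have := hfg z hz
    rw [h, zero_sub, norm_neg] at this
    exact lt_irrefl _ this
  have hsl : ∀ z ∈ K, f z / g z ∈ Complex.slitPlane := by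
    intro z hz
    have h1 : ‖f z / g z - 1‖ < 1 := by
      have h2 : f z / g z - 1 = (f z - g z) / g z := by
        rw [sub_div, div_self (hg0 z hz)]
      rw [h2, norm_div, div_lt_one (norm_pos_iff.2 (hg0 z hz))]
      exact hfg z hz
    have h3 := Complex.mem_slitPlane_of_norm_lt_one h1
    rwa [add_sub_cancel] at h3
  have hlc : ContinuousOn (fun z => Complex.log (f z / g z)) K :=
    (hf.div hg hg0).clog hsl
  have hle : ∀ z ∈ K, Complex.exp (Complex.log (f z / g z)) = f z / g z := fun z hz =>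
    Complex.exp_log (div_ne_zero (hf0 z hz) (hg0 z hz))
  constructor
  · rintro ⟨h, hc, he⟩
    refine ⟨fun z => h z + Complex.log (f z / g z), hc.add hlc, fun z hz => ?_⟩
    rw [Complex.exp_add, he z hz, hle z hz]
    have := hg0 z hz
    field_simp
  · rintro ⟨h, hc, he⟩
    refine ⟨fun z => h z - Complex.log (f z / g z), hc.sub hlc, fun z hz => ?_⟩
    rw [Complex.exp_sub, he z hz, hle z hz]
    have := hg0 z hz
    have := hf0 z hz
    field_simp

theorem thm_LOGB : St_LOGB :=
  ⟨logb_one, logb_two, logb_three, logb_four, logb_five, logb_six⟩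

end Pool.Agent.SRF
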