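import Pool.Agent.SRF.StC
import Pool.Agent.SRF.LOGB

set_option autoImplicit false

/-! # SRF CNT: surgery of Jordan curves. -/

open Set Metric Filter Topology

namespace Pool.Agent.SRF

theorem cnt_inv {A B : Type} [TopologicalSpace A] [TopologicalSpace B] [T2Space B] [Nonempty A]
    {f : A → B} {K : Set A} (hK : IsCompact K) (hf : ContinuousOn f K) (hi : InjOn f K) :
    ContinuousOn (Function.invFunOn f K) (f '' K) := by
  rw [continuousOn_iff_isClosed]
  intro t ht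
  have hc : IsCompact (K ∩ t) := hK.inter_right ht
  refine ⟨f '' (K ∩ t), (hc.image_of_continuousOn (hf.mono inter_subset_left)).isClosed, ?_⟩
  ext w
  constructor
  · rintro ⟨hw, z, hz, rfl⟩
    have h1 : Function.invFunOn f K (f z) = z :=
      hi.leftInvOn_invFunOn hz
    rw [mem_preimage, h1] at hw
    exact ⟨⟨z, ⟨hz, hw⟩, rfl⟩, ⟨z, hz, rfl⟩⟩
  · rintro ⟨⟨z, ⟨hz, hzt⟩, rfl⟩, -⟩
    have h1 : Function.invFunOn f K (f z) = z :=
      hi.leftInvOn_invFunOn hz
    exact ⟨by rw [mem_preimage, h1]; exact hzt, ⟨z, hz, rfl⟩⟩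

theorem cnt_norm (t : ℝ) : ‖cexpi t‖ = 1 := Complex.norm_exp_ofReal_mul_I t

theorem cnt_mem (t : ℝ) : cexpi t ∈ UC := by
  rw [mem_sphere_zero_iff_norm]; exact cnt_norm t

theorem cnt_cont : Continuous cexpi := by
  unfold cexpi
  fun_prop

theorem cnt_per (t : ℝ) : cexpi (t + 2 * Real.pi) = cexpi t := by
  unfold cexpi
  have h3 : ((t + 2 * Real.pi : ℝ) : ℂ) * Complex.I =
      t * Complex.I + 2 * Real.pi * Complex.I := by
    push_cast
    rw [add_mul]
  rw [h3, Complex.exp_add, Complex.exp_two_pi_mul_I, mul_one]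

theorem cnt_inj (s t : ℝ) (h : cexpi s = cexpi t) (hst : |s - t| < 2 * Real.pi) : s = t := by
  unfold cexpi at h
  rw [Complex.exp_eq_exp_iff_exists_int] at h
  obtain ⟨n, hn⟩ := h
  have h1 : (s : ℂ) = t + n * (2 * Real.pi) := by
    have hI := Complex.I_ne_zero
    apply mul_right_cancel₀ hI
    rw [hn]
    ring
  have h2 : s = t + n * (2 * Real.pi) := by exact_mod_cast h1
  have hpi := Real.pi_pos
  have h3 : |(n : ℝ)| * (2 * Real.pi) < 1 * (2 * Real.pi) := by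
    have : s - t = n * (2 * Real.pi) := by rw [h2]; ring
    rw [this, abs_mul, abs_of_pos (by positivity : (0 : ℝ) < 2 * Real.pi)] at hst
    linarith
  have h4 : |(n : ℝ)| < 1 := lt_of_mul_lt_mul_right h3 (by positivity)
  have h5 : |n| < 1 := by exact_mod_cast h4
  have h6 : n = 0 := by
    rw [abs_lt] at h5
    omega
  rw [h2, h6]
  simp

theorem cnt_surj (a : ℝ) (w : ℂ) (hw : w ∈ UC) : ∃ t : ℝ, a ≤ t ∧ t < a + 2 * Real.pi ∧
    cexpi t = w := by
  rw [mem_sphere_zero_iff_norm] at hw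
  have h1 : cexpi (Complex.arg w) = w := by
    have h2 := Complex.norm_mul_exp_arg_mul_I w
    rw [hw, Complex.ofReal_one, one_mul] at h2
    exact h2
  have hpi := Real.two_pi_pos
  -- periodic in general
  have hk : ∀ k : ℤ, cexpi (Complex.arg w + k * (2 * Real.pi)) = w := by
    intro k
    rw [← h1]
    unfold cexpi
    rw [Complex.exp_eq_exp_iff_exists_int]
    refine ⟨k, ?_⟩
    push_cast
    have : (Complex.arg (Complex.exp (↑(Complex.arg w) * Complex.I)) : ℂ) = (Complex.arg w : ℂ) := by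
      have h3 : Complex.exp (↑(Complex.arg w) * Complex.I) = w := h1
      rw [h3]
    rw [this]
    ring
  obtain ⟨k, ⟨hk1, hk2⟩, -⟩ := existsUnique_add_zsmul_mem_Ico hpi (Complex.arg w) a
  rw [zsmul_eq_mul] at hk1 hk2
  exact ⟨_, hk1, hk2, hk k⟩

theorem cnt_compl {a b : ℝ} (hab : a < b) (hb : b < a + 2 * Real.pi) (z : ℂ) :
    z ∈ carc b (a + 2 * Real.pi) ↔ z ∈ UC ∧ z ∉ oarc a b := by
  constructor
  · rintro ⟨t, ht, rfl⟩
    refine ⟨cnt_mem t, ?_⟩
    rintro ⟨s, hs, hst⟩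
    have : s = t := cnt_inj s t hst (by
      rw [abs_lt]
      constructor <;> linarith [ht.1, ht.2, hs.1, hs.2])
    rw [this] at hs
    linarith [ht.1, hs.2]
  · rintro ⟨hz, hzo⟩
    obtain ⟨t, h1, h2, rfl⟩ := cnt_surj a z hz
    rcases h1.lt_or_eq with h3 | h3
    · refine ⟨t, ⟨?_, h2.le⟩, rfl⟩
      by_contra h4
      exact hzo ⟨t, ⟨h3, not_le.1 h4⟩, rfl⟩
    · refine ⟨a + 2 * Real.pi, ⟨hb.le, le_rfl⟩, ?_⟩
      rw [cnt_per, h3]

theorem cnt_arc_sub (a b : ℝ) : carc a b ⊆ UC := by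
  rintro _ ⟨t, -, rfl⟩
  exact cnt_mem t

theorem cnt_oarc_sub (a b : ℝ) : oarc a b ⊆ carc a b := image_mono Ioo_subset_Icc_self

theorem cnt_cover {a b : ℝ} (hab : a < b) (hb : b < a + 2 * Real.pi) :
    UC = carc a b ∪ carc b (a + 2 * Real.pi) := by
  ext z
  constructor
  · intro hz
    by_cases h : z ∈ oarc a b
    · exact Or.inl (cnt_oarc_sub a b h)
    · exact Or.inr ((cnt_compl hab hb z).2 ⟨hz, h⟩)
  · rintro (h | h)
    · exact cnt_arc_sub _ _ h
    · exact cnt_arc_sub _ _ h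

theorem cnt_injOn {a b : ℝ} (hb : b < a + 2 * Real.pi) : InjOn cexpi (Icc a b) := by
  intro s hs t ht h
  apply cnt_inj s t h
  rw [abs_lt]
  constructor <;> linarith [hs.1, hs.2, ht.1, ht.2]

theorem cnt_compact (a b : ℝ) : IsCompact (carc a b) := isCompact_Icc.image cnt_cont

section

variable {X : Type} [TopologicalSpace X] [T2Space X]

/-- Reparametrisation of `γ` along the common arc. -/
theorem cnt_lift {e γ : ℂ → X} (he : ContinuousOn e UC) (hei : InjOn e UC) (hγ : IsJordan γ)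
    {a b : ℝ} (hab : a < b) (hb : b < a + 2 * Real.pi) (hsub : e '' carc a b ⊆ γ '' UC) :
    ∃ (γ₁ : ℂ → X) (θ : ℝ → ℝ), IsJordan γ₁ ∧ γ₁ '' UC = γ '' UC ∧ ContinuousOn θ (Icc a b) ∧
      StrictMonoOn θ (Icc a b) ∧ ∀ t ∈ Icc a b, γ₁ (cexpi (θ t)) = e (cexpi t) := by
  have hUC : IsCompact UC := isCompact_sphere 0 1
  -- the path on the circle
  set g := Function.invFunOn γ UC with hg
  have hgc : ContinuousOn g (γ '' UC) := cnt_inv hUC hγ.1 hγ.2
  have hgr : ∀ y ∈ γ '' UC, g y ∈ UC ∧ γ (g y) = y := fun y hy =>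
    ⟨Function.invFunOn_mem hy, Function.invFunOn_eq hy⟩
  set ψ : ℝ → ℂ := fun t => g (e (cexpi t)) with hψ
  have hψc : ContinuousOn ψ (Icc a b) := by
    refine hgc.comp (he.comp cnt_cont.continuousOn fun t _ => cnt_mem t) ?_
    intro t ht
    exact hsub ⟨cexpi t, ⟨t, ht, rfl⟩, rfl⟩
  have hψm : ∀ t ∈ Icc a b, ψ t ∈ UC ∧ γ (ψ t) = e (cexpi t) := fun t ht =>
    hgr _ (hsub ⟨cexpi t, ⟨t, ht, rfl⟩, rfl⟩)
  -- extension to the plane
  set pr : ℂ → ℝ := fun z => max a (min b z.re) with hpr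
  have hprc : Continuous pr := continuous_const.max (continuous_const.min Complex.continuous_re)
  have hprm : ∀ z, pr z ∈ Icc a b := fun z => ⟨le_max_left _ _, max_le hab.le (min_le_left _ _)⟩
  obtain ⟨h, hhc, hhe⟩ := thm_LOGB.2.1 (fun z => ψ (pr z)) (hψc.comp_continuous hprc hprm)
    (fun z h0 => by
      have h1 := (hψm _ (hprm z)).1
      rw [mem_sphere_zero_iff_norm, h0, norm_zero] at h1
      exact zero_ne_one h1)
  have hpre : ∀ t ∈ Icc a b, pr (t : ℂ) = t := by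
    intro t ht
    simp only [hpr, Complex.ofReal_re]
    rw [min_eq_right ht.2, max_eq_right ht.1]
  have hexp : ∀ t ∈ Icc a b, cexpi ((h (t : ℂ)).im) = ψ t := by
    intro t ht
    have h1 := hhe (t : ℂ)
    rw [hpre t ht] at h1
    have h2 : ‖Complex.exp (h (t : ℂ))‖ = 1 := by
      rw [h1]
      exact mem_sphere_zero_iff_norm.1 (hψm t ht).1
    rw [Complex.norm_exp, Real.exp_eq_one_iff] at h2
    rw [← h1]
    unfold cexpi
    congr 1
    apply Complex.ext
    · simp [h2]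
    · simp
  have hinj : InjOn (fun t : ℝ => (h (t : ℂ)).im) (Icc a b) := by
    intro s hs t ht hst
    have h1 : ψ s = ψ t := by rw [← hexp s hs, ← hexp t ht]; exact congrArg cexpi hst
    have h2 : e (cexpi s) = e (cexpi t) := by rw [← (hψm s hs).2, ← (hψm t ht).2, h1]
    exact cnt_injOn hb hs ht (hei (cnt_mem s) (cnt_mem t) h2)
  have hcont : Continuous (fun t : ℝ => (h (t : ℂ)).im) :=
    Complex.continuous_im.comp (hhc.comp Complex.continuous_ofReal)
  rcases hcont.continuousOn.strictMonoOn_of_injOn_Icc' hab.le hinj with hm | hm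
  · refine ⟨γ, fun t => (h (t : ℂ)).im, hγ, rfl, hcont.continuousOn, hm, ?_⟩
    intro t ht
    rw [hexp t ht]
    exact (hψm t ht).2
  · have hconj : ∀ z ∈ UC, (starRingEnd ℂ) z ∈ UC := fun z hz => by
      rw [mem_sphere_zero_iff_norm] at hz ⊢
      rw [RCLike.norm_conj, hz]
    refine ⟨γ ∘ (starRingEnd ℂ), fun t => -(h (t : ℂ)).im, ⟨?_, ?_⟩, ?_, hcont.neg.continuousOn,
      fun s hs t ht hst => neg_lt_neg (hm hs ht hst), ?_⟩
    · exact hγ.1.comp Complex.continuous_conj.continuousOn hconj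
    · intro z hz w hw hzw
      have := hγ.2 (hconj z hz) (hconj w hw) hzw
      have h3 := congrArg (starRingEnd ℂ) this
      rwa [Complex.conj_conj, Complex.conj_conj] at h3
    · ext y
      constructor
      · rintro ⟨z, hz, rfl⟩
        exact ⟨_, hconj z hz, rfl⟩
      · rintro ⟨z, hz, rfl⟩
        refine ⟨_, hconj z hz, ?_⟩
        simp
    · intro t ht
      have h1 : (starRingEnd ℂ) (cexpi (-(h (t : ℂ)).im)) = cexpi ((h (t : ℂ)).im) := by
        unfold cexpi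
        rw [← Complex.exp_conj]
        congr 1
        simp
      show γ ((starRingEnd ℂ) (cexpi (-(h (t : ℂ)).im))) = e (cexpi t)
      rw [h1, hexp t ht]
      exact (hψm t ht).2

/-- Replacing an arc. -/
theorem cnt_replace {e γ : ℂ → X} (he : ContinuousOn e UC) (hei : InjOn e UC) (hγ : IsJordan γ)
    {a b : ℝ} (hab : a < b) (hb : b < a + 2 * Real.pi)
    (hmeet : e '' UC ∩ γ '' UC = e '' carc a b) :
    ∃ γ' : ℂ → X, IsJordan γ' ∧ γ' '' UC = (γ '' UC ∪ e '' UC) \ e '' oarc a b ∧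
      ∀ z ∈ carc b (a + 2 * Real.pi), γ' z = e z := by
  have hsub : e '' carc a b ⊆ γ '' UC := by rw [← hmeet]; exact inter_subset_right
  obtain ⟨γ₁, θ, hγ₁, himg, hθc, hθm, hθe⟩ := cnt_lift he hei hγ hab hb hsub
  rw [← himg] at hmeet hsub ⊢
  have ha' : a ∈ Icc a b := ⟨le_rfl, hab.le⟩
  have hb' : b ∈ Icc a b := ⟨hab.le, le_rfl⟩
  have huv : θ a < θ b := hθm ha' hb' hab
  have hv : θ b < θ a + 2 * Real.pi := by
    by_contra hcon
    push Not at hcon
    obtain ⟨t, ht, htθ⟩ := intermediate_value_Icc hab.le hθc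
      (show θ a + 2 * Real.pi ∈ Icc (θ a) (θ b) from ⟨by linarith [Real.pi_pos], hcon⟩)
    have h1 : e (cexpi t) = e (cexpi a) := by
      rw [← hθe t ht, ← hθe a ha', htθ, cnt_per]
    have h2 := cnt_injOn hb ht ha' (hei (cnt_mem t) (cnt_mem a) h1)
    rw [h2] at htθ
    linarith [Real.pi_pos]
  -- the common open arc
  have hopen : γ₁ '' oarc (θ a) (θ b) = e '' oarc a b := by
    ext y
    constructor
    · rintro ⟨_, ⟨s, hs, rfl⟩, rfl⟩
      obtain ⟨t, ht, rfl⟩ := intermediate_value_Ioo hab.le hθc hs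
      exact ⟨cexpi t, ⟨t, ht, rfl⟩, (hθe t (Ioo_subset_Icc_self ht)).symm⟩
    · rintro ⟨_, ⟨t, ht, rfl⟩, rfl⟩
      have htI := Ioo_subset_Icc_self ht
      exact ⟨cexpi (θ t), ⟨θ t, ⟨hθm ha' htI ht.1, hθm htI hb' ht.2⟩, rfl⟩, hθe t htI⟩
  -- the new arc
  set φ : ℝ → ℝ := fun t => θ a + 2 * Real.pi - (t - a) / (b - a) * (θ a + 2 * Real.pi - θ b)
    with hφ
  have hba : 0 < b - a := by linarith
  have hL : 0 < θ a + 2 * Real.pi - θ b := by linarith
  have hφc : Continuous φ := by fun_prop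
  have hφa : φ a = θ a + 2 * Real.pi := by simp [hφ]
  have hφb : φ b = θ b := by
    simp only [hφ]
    rw [div_self hba.ne']
    ring
  have hφm : ∀ t ∈ Icc a b, φ t ∈ Icc (θ b) (θ a + 2 * Real.pi) := by
    intro t ht
    have h1 : 0 ≤ (t - a) / (b - a) := div_nonneg (by linarith [ht.1]) hba.le
    have h2 : (t - a) / (b - a) ≤ 1 := (div_le_one hba).2 (by linarith [ht.2])
    simp only [hφ]
    constructor <;> nlinarith
  have hφi : ∀ s t, φ s = φ t → s = t := by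
    intro s t hst
    simp only [hφ] at hst
    have h1 : (s - a) / (b - a) * (θ a + 2 * Real.pi - θ b) =
        (t - a) / (b - a) * (θ a + 2 * Real.pi - θ b) := by linarith
    have h2 := mul_right_cancel₀ hL.ne' h1
    rw [div_left_inj' hba.ne'] at h2
    linarith
  have hφs : ∀ s ∈ Icc (θ b) (θ a + 2 * Real.pi), ∃ t ∈ Icc a b, φ t = s := by
    intro s hs
    have h1 : ContinuousOn φ (Icc a b) := hφc.continuousOn
    have h2 := intermediate_value_Icc' hab.le h1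
    rw [hφa, hφb] at h2
    exact h2 hs
  -- the angle on the arc
  set τ := Function.invFunOn cexpi (Icc a b) with hτ
  have hτc : ContinuousOn τ (carc a b) := cnt_inv isCompact_Icc cnt_cont.continuousOn (cnt_injOn hb)
  have hτe : ∀ t ∈ Icc a b, τ (cexpi t) = t := fun t ht => (cnt_injOn hb).leftInvOn_invFunOn ht
  classical
  set G : ℂ → X := fun z => if z ∈ carc a b then γ₁ (cexpi (φ (τ z))) else e z with hG
  have hG1 : ∀ t ∈ Icc a b, G (cexpi t) = γ₁ (cexpi (φ t)) := by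
    intro t ht
    simp only [hG]
    rw [if_pos ⟨t, ht, rfl⟩, hτe t ht]
  have hGa : G (cexpi a) = e (cexpi a) := by
    rw [hG1 a ha', hφa, cnt_per, hθe a ha']
  have hGb : G (cexpi b) = e (cexpi b) := by
    rw [hG1 b hb', hφb, hθe b hb']
  have hG2 : ∀ z ∈ carc b (a + 2 * Real.pi), G z = e z := by
    intro z hz
    by_cases h : z ∈ carc a b
    · obtain ⟨t, ht, rfl⟩ := h
      have hno := ((cnt_compl hab hb _).1 hz).2
      have h1 : t = a ∨ t = b := by
        by_contra hcon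
        push Not at hcon
        exact hno ⟨t, ⟨lt_of_le_of_ne ht.1 (Ne.symm hcon.1), lt_of_le_of_ne ht.2 hcon.2⟩, rfl⟩
      rcases h1 with rfl | rfl
      · exact hGa
      · exact hGb
    · simp only [hG]
      rw [if_neg h]
  have hGc : ContinuousOn G UC := by
    rw [cnt_cover hab hb]
    refine ContinuousOn.union_of_isClosed ?_ ?_ (cnt_compact a b).isClosed
      (cnt_compact b (a + 2 * Real.pi)).isClosed
    · have h1 : ContinuousOn (fun z => γ₁ (cexpi (φ (τ z)))) (carc a b) :=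
        hγ₁.1.comp ((cnt_cont.comp hφc).comp_continuousOn hτc) fun z _ => cnt_mem _
      refine h1.congr fun z hz => ?_
      simp only [hG]
      rw [if_pos hz]
    · exact (he.mono (cnt_arc_sub _ _)).congr fun z hz => hG2 z hz
  -- injectivity of the two pieces
  have hcix : InjOn cexpi (Icc (θ b) (θ a + 2 * Real.pi)) := cnt_injOn (by linarith)
  have hpiece : ∀ s ∈ Icc a b, ∀ t ∈ Icc a b, G (cexpi s) = G (cexpi t) → s = t := by
    intro s hs t ht hst
    rw [hG1 s hs, hG1 t ht] at hst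
    exact hφi s t (hcix (hφm s hs) (hφm t ht) (hγ₁.2 (cnt_mem _) (cnt_mem _) hst))
  have hmix : ∀ x ∈ carc a b, ∀ y ∈ carc b (a + 2 * Real.pi), G x = G y → x = y := by
    rintro x ⟨s, hs, rfl⟩ y hy hxy
    have h1 : e y ∈ e '' UC ∩ γ₁ '' UC := by
      refine ⟨⟨y, cnt_arc_sub _ _ hy, rfl⟩, ?_⟩
      rw [← hG2 y hy, ← hxy, hG1 s hs]
      exact ⟨_, cnt_mem _, rfl⟩
    rw [hmeet] at h1
    obtain ⟨y', hy', hyy⟩ := h1
    have h2 := hei (cnt_arc_sub _ _ hy') (cnt_arc_sub _ _ hy) hyy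
    rw [h2] at hy'
    obtain ⟨t, ht, rfl⟩ := hy'
    rw [hpiece s hs t ht hxy]
  have hGi : InjOn G UC := by
    intro x hx y hy hxy
    rw [cnt_cover hab hb] at hx hy
    rcases hx with hx | hx <;> rcases hy with hy | hy
    · obtain ⟨s, hs, rfl⟩ := hx
      obtain ⟨t, ht, rfl⟩ := hy
      rw [hpiece s hs t ht hxy]
    · exact hmix x hx y hy hxy
    · exact (hmix y hy x hx hxy.symm).symm
    · rw [hG2 x hx, hG2 y hy] at hxy
      exact hei (cnt_arc_sub _ _ hx) (cnt_arc_sub _ _ hy) hxy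
  have himgA : G '' carc a b = γ₁ '' UC \ e '' oarc a b := by
    rw [← hopen]
    ext y
    constructor
    · rintro ⟨_, ⟨t, ht, rfl⟩, rfl⟩
      rw [hG1 t ht]
      refine ⟨⟨_, cnt_mem _, rfl⟩, ?_⟩
      rintro ⟨w, hw, hwe⟩
      have h1 := hγ₁.2 (cnt_arc_sub _ _ (cnt_oarc_sub _ _ hw)) (cnt_mem _) hwe
      have h2 : cexpi (φ t) ∈ carc (θ b) (θ a + 2 * Real.pi) := ⟨_, hφm t ht, rfl⟩
      rw [cnt_compl huv hv] at h2
      exact h2.2 (h1 ▸ hw)
    · rintro ⟨⟨z, hz, rfl⟩, hno⟩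
      have h1 : z ∈ carc (θ b) (θ a + 2 * Real.pi) := by
        rw [cnt_compl huv hv]
        exact ⟨hz, fun h => hno ⟨z, h, rfl⟩⟩
      obtain ⟨s, hs, rfl⟩ := h1
      obtain ⟨t, ht, rfl⟩ := hφs s hs
      exact ⟨cexpi t, ⟨t, ht, rfl⟩, hG1 t ht⟩
  refine ⟨G, ⟨hGc, hGi⟩, ?_, hG2⟩
  have himgU : G '' UC = G '' carc a b ∪ e '' carc b (a + 2 * Real.pi) := by
    conv_lhs => rw [cnt_cover hab hb]
    rw [image_union]
    congr 1
    exact image_congr fun z hz => hG2 z hz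
  rw [himgU, himgA]
  ext y
  constructor
  · rintro (⟨h1, h2⟩ | ⟨z, hz, rfl⟩)
    · exact ⟨Or.inl h1, h2⟩
    · rw [cnt_compl hab hb] at hz
      refine ⟨Or.inr ⟨z, hz.1, rfl⟩, ?_⟩
      rintro ⟨w, hw, hwe⟩
      have := hei (cnt_arc_sub _ _ (cnt_oarc_sub _ _ hw)) hz.1 hwe
      exact hz.2 (this ▸ hw)
  · rintro ⟨h1 | ⟨z, hz, rfl⟩, h2⟩
    · exact Or.inl ⟨h1, h2⟩
    · right
      refine ⟨z, ?_, rfl⟩
      rw [cnt_compl hab hb]
      exact ⟨hz, fun h => h2 ⟨z, h, rfl⟩⟩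

end

theorem thm_CNT : St_CNT := by
  intro X _ _ e he hei
  refine ⟨?_, ?_⟩
  · intro γ a b hγ hab hb hmeet
    obtain ⟨γ', h1, h2, -⟩ := cnt_replace he hei hγ hab hb hmeet
    exact ⟨γ', h1, h2⟩
  · intro γ₁ γ₂ a b c d hγ₁ hγ₂ hdisj hab hbc hcd hd hm1 hm2
    have hb : b < a + 2 * Real.pi := by linarith
    have hd' : d < c + 2 * Real.pi := by linarith
    obtain ⟨e₁, hJ, himg, heq⟩ := cnt_replace he hei hγ₁ hab hb hm1
    have hcdb : carc c d ⊆ carc b (a + 2 * Real.pi) :=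
      image_mono (Icc_subset_Icc (by linarith) (by linarith))
    have hocd : oarc c d ⊆ carc b (a + 2 * Real.pi) := (cnt_oarc_sub c d).trans hcdb
    have e1 : e₁ '' carc c d = e '' carc c d := image_congr fun z hz => heq z (hcdb hz)
    have e2 : e₁ '' oarc c d = e '' oarc c d := image_congr fun z hz => heq z (hocd hz)
    have hno : ∀ y ∈ e '' carc c d, y ∉ e '' oarc a b := by
      rintro _ ⟨z, hz, rfl⟩ ⟨w, hw, hwe⟩
      have h1 := hei (cnt_arc_sub _ _ (cnt_oarc_sub _ _ hw)) (cnt_arc_sub _ _ hz) hwe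
      exact ((cnt_compl hab hb z).1 (hcdb hz)).2 (h1 ▸ hw)
    obtain ⟨γ', hJ', himg', -⟩ := cnt_replace hJ.1 hJ.2 hγ₂ hcd hd' (by
      rw [e1, ← hm2, himg]
      ext y
      constructor
      · rintro ⟨⟨h1 | h1, h2⟩, h3⟩
        · exact absurd h3 (disjoint_left.1 hdisj h1)
        · exact ⟨h1, h3⟩
      · rintro ⟨h1, h2⟩
        have h3 : y ∈ e '' carc c d := by rw [← hm2]; exact ⟨h1, h2⟩
        exact ⟨⟨Or.inr h1, hno y h3⟩, h2⟩)
    refine ⟨γ', hJ', ?_⟩
    rw [himg', himg, e2, image_union]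
    ext y
    constructor
    · rintro ⟨h1 | ⟨h1, h2⟩, h3⟩
      · refine ⟨Or.inl (Or.inr h1), ?_⟩
        rintro (h4 | h4)
        · have h5 : y ∈ e '' carc c d := by
            rw [← hm2]
            exact ⟨image_mono ((cnt_oarc_sub a b).trans (cnt_arc_sub _ _)) h4, h1⟩
          exact hno y h5 h4
        · exact h3 h4
      · refine ⟨?_, ?_⟩
        · rcases h1 with h1 | h1
          · exact Or.inl (Or.inl h1)
          · exact Or.inr h1
        · rintro (h4 | h4)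
          · exact h2 h4
          · exact h3 h4
    · rintro ⟨(h1 | h1) | h1, h2⟩
      · exact ⟨Or.inr ⟨Or.inl h1, fun h => h2 (Or.inl h)⟩, fun h => h2 (Or.inr h)⟩
      · exact ⟨Or.inl h1, fun h => h2 (Or.inr h)⟩
      · exact ⟨Or.inr ⟨Or.inr h1, fun h => h2 (Or.inl h)⟩, fun h => h2 (Or.inr h)⟩

end Pool.Agent.SRF
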