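import Pool.Agent.SRF.St6

set_option autoImplicit false

/-! # SRF, module EFF: measurability of the reduction -/

open Set Metric Filter Topology TopologicalSpace

namespace Pool.Agent.SRF

theorem thm_EFF : St_EFF := by
  intro U _ hU j hj
  have hjc : IsClosedEmbedding j := hj.isClosedEmbedding
  let f : Closeds U → Closeds U := fun F =>
    ⟨j '' ((F : Set U) ×ˢ (univ : Set Circle)),
      hjc.isClosedMap _ (F.isClosed.prod isClosed_univ)⟩
  have hf : ∀ F : Closeds U, ((f F : Closeds U) : Set U) = j '' ((F : Set U) ×ˢ univ) :=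
    fun F => rfl
  refine ⟨f, ?_, ?_⟩
  · letI := effros U
    refine measurable_generateFrom ?_
    rintro _ ⟨V, hV, rfl⟩
    have h1 : f ⁻¹' {F : Closeds U | ((F : Set U) ∩ V).Nonempty} =
        {F : Closeds U | ((F : Set U) ∩ Prod.fst '' (j ⁻¹' V)).Nonempty} := by
      ext F
      simp only [mem_preimage, mem_ofPred_eq, hf]
      constructor
      · rintro ⟨y, ⟨⟨x, s⟩, hx, rfl⟩, hy⟩
        exact ⟨x, hx.1, ⟨(x, s), hy, rfl⟩⟩
      · rintro ⟨x, hx, ⟨⟨x', s⟩, hy, rfl⟩⟩
        exact ⟨j (x', s), ⟨(x', s), ⟨hx, mem_univ _⟩, rfl⟩, hy⟩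
    rw [h1]
    refine MeasurableSpace.measurableSet_generateFrom ⟨_, ?_, rfl⟩
    exact isOpenMap_fst _ (hV.preimage hjc.continuous)
  · intro F
    let g : ↥F × Circle → U := fun p => j (p.1.1, p.2)
    have hg : IsEmbedding g :=
      hjc.isEmbedding.comp (IsEmbedding.subtypeVal.prodMap IsEmbedding.id)
    have hr : range g = ((f F : Closeds U) : Set U) := by
      rw [hf]
      ext y
      constructor
      · rintro ⟨⟨x, s⟩, rfl⟩
        exact ⟨(x.1, s), ⟨x.2, mem_univ _⟩, rfl⟩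
      · rintro ⟨⟨x, s⟩, hx, rfl⟩
        exact ⟨(⟨x, hx.1⟩, s), rfl⟩
    exact ⟨(hg.toHomeomorph.trans (Homeomorph.setCongr hr)).symm⟩

end Pool.Agent.SRF
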