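import Pool.Agent.SRF.StB

set_option autoImplicit false

/-! # SRF, module EXH: exhaustion -/

open Set Metric Filter Topology

namespace Pool.Agent.SRF

private theorem exh_a (hS : St_STEP) {X : Type} [TopologicalSpace X] (hX : IsSurf X) {K : Set X}
    (φ : ℂ → X) (hK : Bord K) (hC : IsConnected K) (hφ : IsOpenEmbedding φ)
    (h : (φ '' closedBall 0 1 ∩ K).Nonempty) :
    ∃ K' : Set X, BuiltFrom K K' ∧ φ '' ball 0 1 ⊆ interior K' ∧ Bord K' ∧ IsConnected K' := by
  obtain ⟨K', h1, h2, h3, h4⟩ := hS X hX K φ hK hC hφ h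
  refine ⟨K', h1, ?_, h3, h4⟩
  refine interior_maximal ?_ (hφ.isOpenMap _ isOpen_ball)
  exact (image_mono ball_subset_closedBall).trans (subset_union_right.trans h2)

private theorem exh_b (hS : St_STEP) {X : Type} [TopologicalSpace X] (hX : IsSurf X)
    [ConnectedSpace X] {K : Set X} (φ : X → ℂ → X) (hφ : ∀ x, IsOpenEmbedding (φ x))
    (hφ0 : ∀ x, φ x 0 = x) (hK : Bord K) (hC : IsConnected K) (x : X) :
    ∃ K' : Set X, BuiltFrom K K' ∧ x ∈ interior K' ∧ Bord K' ∧ IsConnected K' := by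
  have hb : ∀ x, x ∈ φ x '' ball 0 1 := fun x => ⟨0, mem_ball_self one_pos, hφ0 x⟩
  set U : Set X := {x | ∃ K' : Set X, BuiltFrom K K' ∧ x ∈ interior K' ∧ Bord K' ∧
    IsConnected K'} with hU
  have hUo : IsOpen U := by
    rw [isOpen_iff_mem_nhds]
    rintro y ⟨K', h1, h2, h3, h4⟩
    refine mem_of_superset (isOpen_interior.mem_nhds h2) fun z hz => ?_
    exact ⟨K', h1, hz, h3, h4⟩
  have hUc : IsClosed U := by
    rw [← closure_subset_iff_isClosed]
    intro y hy
    obtain ⟨z, hz1, K', h1, h2, h3, h4⟩ := mem_closure_iff.1 hy (φ y '' ball 0 1)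
      ((hφ y).isOpenMap _ isOpen_ball) (hb y)
    obtain ⟨K'', g1, g2, g3, g4⟩ := exh_a hS hX (φ y) h3 h4 (hφ y)
      ⟨z, image_mono ball_subset_closedBall hz1, interior_subset h2⟩
    exact ⟨K'', h1.trans g1, g2 (hb y), g3, g4⟩
  have hUn : U.Nonempty := by
    obtain ⟨y, hy⟩ := hC.nonempty
    obtain ⟨K'', g1, g2, g3, g4⟩ := exh_a hS hX (φ y) hK hC (hφ y)
      ⟨y, image_mono ball_subset_closedBall (hb y), hy⟩
    exact ⟨y, K'', g1, g2 (hb y), g3, g4⟩
  have hall : U = univ := IsClopen.eq_univ ⟨hUc, hUo⟩ hUn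
  have : x ∈ U := by
    rw [hall]
    exact mem_univ x
  exact this

theorem thm_EXH (hS : St_STEP) : St_EXH := by
  classical
  intro X _ hX hcon K C hK hC hCc
  choose φ hφ hφ0 using hX.chart
  have hb : ∀ x, x ∈ φ x '' ball 0 1 := fun x => ⟨0, mem_ball_self one_pos, hφ0 x⟩
  have key : ∀ t : Finset X, ∃ K' : Set X, BuiltFrom K K' ∧
      (∀ x ∈ t, φ x '' ball 0 1 ⊆ interior K') ∧ Bord K' ∧ IsConnected K' := by
    intro t
    induction t using Finset.induction_on with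
    | empty => exact ⟨K, .refl, fun x hx => absurd hx (Finset.notMem_empty x), hK, hC⟩
    | insert x t _ ih =>
      obtain ⟨K1, a1, a2, a3, a4⟩ := ih
      obtain ⟨K2, b1, b2, b3, b4⟩ := exh_b hS hX φ hφ hφ0 a3 a4 x
      obtain ⟨K3, c1, c2, c3, c4⟩ := exh_a hS hX (φ x) b3 b4 (hφ x)
        ⟨x, image_mono ball_subset_closedBall (hb x), interior_subset b2⟩
      have hsub : K1 ⊆ K3 := b1.subset.trans c1.subset
      refine ⟨K3, (a1.trans b1).trans c1, fun y hy => ?_, c3, c4⟩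
      rcases Finset.mem_insert.1 hy with rfl | hy
      · exact c2
      · exact (a2 y hy).trans (interior_mono hsub)
  have hcomp : IsCompact (K ∪ C) := hK.1.union hCc
  obtain ⟨t, -, ht⟩ := hcomp.elim_nhds_subcover (fun x => φ x '' ball 0 1)
    (fun x _ => ((hφ x).isOpenMap _ isOpen_ball).mem_nhds (hb x))
  obtain ⟨K', h1, h2, h3, h4⟩ := key t
  exact ⟨K', h1, ht.trans (iUnion₂_subset h2), h3, h4⟩

end Pool.Agent.SRF
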