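import Pool.Agent.SRF.LOCU

set_option autoImplicit false

/-! # SRF, module FILL: filling a relatively compact component -/

open Set Metric Filter Topology

namespace Pool.Agent.SRF

theorem thm_FILL (_hARC : St_ARC0) (hEXH : St_EXH) (hLOC : St_LOC) (hADJ : St_ADJ) :
    St_FILL := by
  intro X _ hX hXc K x hK hKc hx hUc
  have := hX.t2
  have hcl : IsClosed K := hK.1.isClosed
  obtain ⟨hUo, hfr, h3, -⟩ := hADJ X hX K hK x hx
  set U := connectedComponentIn Kᶜ x with hUdef
  have hUK : U ⊆ Kᶜ := connectedComponentIn_subset _ _
  constructor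
  · obtain ⟨K', hK', hsub, -, -⟩ := hEXH X hX hXc K (closure U) hK hKc hUc
    have h1 := thm_LOCU hLOC hADJ X hX K K' hK hK' x hx
    have h2 : K' ∩ connectedComponentIn Kᶜ x = U := by
      refine inter_eq_self_of_subset_right fun y hy => ?_
      exact interior_subset (hsub (Or.inr (subset_closure hy)))
    rw [h2] at h1
    exact h1
  · have hclU : closure U ⊆ U ∪ K := by
      intro y hy
      by_cases hyU : y ∈ U
      · exact Or.inl hyU
      · right
        have h1 : y ∈ frontier U := by
          rw [hUo.frontier_eq]
          exact ⟨hy, hyU⟩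
        exact hcl.frontier_subset (hfr h1)
    have hL : IsClosed (K ∪ U) := by
      refine isClosed_of_closure_subset ?_
      rw [closure_union, hcl.closure_eq]
      rintro y (hy | hy)
      · exact Or.inl hy
      · rcases hclU hy with h | h
        · exact Or.inr h
        · exact Or.inl h
    ext p
    constructor
    · intro hp
      rw [hL.frontier_eq] at hp
      have hpU : p ∉ U := fun h =>
        hp.2 (mem_interior.2 ⟨U, subset_union_right, hUo, h⟩)
      have hpK : p ∈ K := hp.1.resolve_right hpU
      have hpf : p ∈ frontier K := by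
        rw [hcl.frontier_eq]
        exact ⟨hpK, fun h => hp.2 (interior_mono subset_union_left h)⟩
      refine ⟨hpf, fun hpfU => hp.2 ?_⟩
      obtain ⟨φ, hφ, hφ0, h⟩ := hK.2 p hpf
      have hpc : φ 0 ∈ closure U := by
        rw [hφ0]
        exact frontier_subset_closure hpfU
      have hs := h3 φ hφ h hpc
      refine mem_interior.2 ⟨range φ, ?_, hφ.isOpen_range, 0, hφ0⟩
      rintro _ ⟨z, rfl⟩
      rcases le_or_gt 0 z.im with hz | hz
      · exact Or.inl ((h z).2 hz)
      · exact Or.inr (hs ⟨z, hz, rfl⟩)
    · rintro ⟨hp, hpU⟩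
      have hpK : p ∈ K := hcl.frontier_subset hp
      have hpU' : p ∉ U := fun h => hUK h hpK
      have hpc : p ∉ closure U := by
        intro h
        apply hpU
        rw [hUo.frontier_eq]
        exact ⟨h, hpU'⟩
      rw [hL.frontier_eq]
      refine ⟨Or.inl hpK, fun hpi => ?_⟩
      rw [hcl.frontier_eq] at hp
      apply hp.2
      refine mem_interior.2 ⟨interior (K ∪ U) ∩ (closure U)ᶜ, ?_,
        isOpen_interior.inter isClosed_closure.isOpen_compl, hpi, hpc⟩
      rintro y ⟨hy, hyU⟩
      rcases interior_subset hy with h | h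
      · exact h
      · exact absurd (subset_closure h) hyU

end Pool.Agent.SRF
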