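import Pool.Agent.SRF.St6

set_option autoImplicit false

/-! # SRF, module FIN6: the Borel reduction -/

open Set Metric Filter Topology TopologicalSpace

namespace Pool.Agent.SRF

theorem thm_FIN6 (hTOP : St_TOP) (hURY : St_URY) (hMAN : St_MAN) (hEFF : St_EFF) : St_FIN6 := by
  intro U _ hU
  obtain ⟨hM1, hM2, hM3⟩ := hMAN
  have hsep : SeparableSpace (U × Circle) := by
    have := hU.separable
    infer_instance
  obtain ⟨j, hj⟩ := hURY U (U × Circle) hU hsep
  obtain ⟨f, hfm, hfh⟩ := hEFF U hU.complete j hj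
  have h3 : ∀ F : MM 2 U, IsManifold 3 ↥(f F.1) := by
    intro F
    obtain ⟨e⟩ := hfh F.1
    exact hM3 3 _ _ ⟨e.symm⟩ (hM2 _ F.2)
  refine ⟨fun F => ⟨f F.1, h3 F⟩, ?_, ?_⟩
  · let m2 : MeasurableSpace (MM 2 U) := borelMM 2 U
    let mU : MeasurableSpace (Closeds U) := effros U
    exact measurable_comap_iff.2 (hfm.comp (comap_measurable _))
  · intro F G
    obtain ⟨eF⟩ := hfh F.1
    obtain ⟨eG⟩ := hfh G.1
    constructor
    · rintro ⟨h⟩
      exact ⟨(eF.trans (h.prodCongr (Homeomorph.refl Circle))).trans eG.symm⟩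
    · rintro ⟨h⟩
      exact hTOP _ _ (hM1 _ F.2) (hM1 _ G.2) ⟨(eF.symm.trans h).trans eG⟩

end Pool.Agent.SRF
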