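import Pool.Agent.SRF.StB

set_option autoImplicit false

/-! # SRF, module FLATN (helper17): straightening the frontier in a chart -/

open Set Metric Filter Topology

namespace Pool.Agent.SRF

theorem thm_FLATN (hSTR : St_STR) (hCARS : St_CARS) : St_FLATN := by
  classical
  intro X _ hX K φ hK hφ n γ hγ hγd hfr hγn
  have := hX.t2
  have hC2 : IsCompact (φ '' closedBall 0 2) := (isCompact_closedBall (0 : ℂ) 2).image hφ.continuous
  choose m α a1 a2 a3 a4 using fun i => hCARS X (γ i) (range φ) (φ '' closedBall 0 2) (hγ i)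
    hφ.isOpen_range hC2.isClosed (image_subset_range _ _) (hγn i)
  let e : Fin (Fintype.card (Σ i, Fin (m i))) ≃ Σ i, Fin (m i) := (Fintype.equivFin _).symm
  let β : (Σ i, Fin (m i)) → ℝ → X := fun p => α p.1 p.2
  have hβa : ∀ p, IsArc (β p) := fun p => a1 p.1 p.2
  have hβγ : ∀ p, ∀ t ∈ Icc (0 : ℝ) 1, β p t ∈ γ p.1 '' UC := fun p t ht =>
    (a3 p.1 p.2 ⟨t, ht, rfl⟩).1
  have hβφ : ∀ p, ∀ t ∈ Icc (0 : ℝ) 1, β p t ∈ range φ := fun p t ht => (a3 p.1 p.2 ⟨t, ht, rfl⟩).2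
  have hβfr : ∀ p, ∀ t ∈ Icc (0 : ℝ) 1, β p t ∈ frontier K := by
    intro p t ht
    rw [hfr]
    exact mem_iUnion.2 ⟨p.1, hβγ p t ht⟩
  have hβd : ∀ p q, ∀ s ∈ Icc (0 : ℝ) 1, ∀ t ∈ Icc (0 : ℝ) 1, β p s = β q t → p = q := by
    rintro ⟨i, k⟩ ⟨j, l⟩ s hs t ht hst
    by_cases hij : i = j
    · subst hij
      by_cases hkl : k = l
      · rw [hkl]
      · exfalso
        exact Set.disjoint_left.1 (a2 i k l hkl) ⟨s, hs, rfl⟩ ⟨t, ht, hst.symm⟩
    · exfalso
      refine Set.disjoint_left.1 (hγd i j hij) (hβγ ⟨i, k⟩ s hs) ?_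
      rw [hst]
      exact hβγ ⟨j, l⟩ t ht
  -- the arcs in the chart
  let β' : (Σ i, Fin (m i)) → ℝ → ℂ := fun p t => Function.invFun φ (β p t)
  have hβ' : ∀ p, ∀ t ∈ Icc (0 : ℝ) 1, φ (β' p t) = β p t := fun p t ht =>
    Function.invFun_eq (hβφ p t ht)
  have hβ'a : ∀ p, IsArc (β' p) := by
    intro p
    refine ⟨?_, ?_⟩
    · rw [hφ.isInducing.continuousOn_iff]
      exact (hβa p).1.congr fun t ht => hβ' p t ht
    · intro s hs t ht hst
      refine (hβa p).2 hs ht ?_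
      rw [← hβ' p s hs, ← hβ' p t ht, hst]
  obtain ⟨g, u, v, -, hg⟩ := hSTR _ (fun j => β' (e j)) (fun j => hβ'a (e j)) (by
    intro i j hij
    rw [Set.disjoint_left]
    rintro _ ⟨s, hs, rfl⟩ ⟨t, ht, hst⟩
    apply hij
    apply e.injective
    refine hβd (e i) (e j) s hs t ht ?_
    rw [← hβ' _ s hs, ← hβ' _ t ht]
    exact congrArg φ hst.symm) (1 / 4) (by norm_num) (by norm_num)
  have h34 : (1 : ℝ) - 1 / 4 = 3 / 4 := by norm_num
  rw [h34] at hg
  have hsub : Icc (1 / 4 : ℝ) (3 / 4) ⊆ Icc 0 1 := Icc_subset_Icc (by norm_num) (by norm_num)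
  -- the points of the frontier in the disc of radius two
  have key : ∀ w ∈ closedBall (0 : ℂ) 2, φ w ∈ frontier K → ∃ p, ∃ t ∈ Icc (1 / 4 : ℝ) (3 / 4),
      β p t = φ w := by
    intro w hw hwK
    rw [hfr] at hwK
    obtain ⟨i, hi⟩ := mem_iUnion.1 hwK
    obtain ⟨k, hk⟩ := mem_iUnion.1 (a4 i ⟨hi, ⟨w, hw, rfl⟩⟩)
    obtain ⟨t, ht, hte⟩ := hk
    exact ⟨⟨i, k⟩, t, ht, hte⟩
  refine ⟨φ ∘ g.symm, g '' ball 0 2, g '' closedBall 0 1, ⋃ j, Icc (u j) (v j), ?_,
    (isCompact_closedBall (0 : ℂ) 1).image g.continuous, ?_, ?_, ?_⟩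
  · refine ⟨hK, hφ.comp g.symm.isOpenEmbedding, g.isOpenMap _ isOpen_ball, ?_, ?_⟩
    · rintro _ ⟨w, hw, rfl⟩
      rw [Function.comp_apply, g.symm_apply_apply]
      constructor
      · intro h
        obtain ⟨p, t, ht, hpt⟩ := key w (ball_subset_closedBall hw) h
        obtain ⟨j, rfl⟩ := e.surjective p
        have hw2 : β' (e j) t = w := hφ.injective (by rw [hβ' _ t (hsub ht), hpt])
        have h1 : g w ∈ (fun x : ℝ => (x : ℂ)) '' Icc (u j) (v j) := by
          rw [← hg j]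
          exact ⟨w, ⟨t, ht, hw2⟩, rfl⟩
        obtain ⟨x, hx, hxe⟩ := h1
        simp only at hxe
        rw [← hxe]
        exact ⟨Complex.ofReal_im x, mem_iUnion.2 ⟨j, by rwa [Complex.ofReal_re]⟩⟩
      · rintro ⟨h1, h2⟩
        obtain ⟨j, hj⟩ := mem_iUnion.1 h2
        have h3 : g w ∈ (fun x : ℝ => (x : ℂ)) '' Icc (u j) (v j) := by
          refine ⟨(g w).re, hj, ?_⟩
          apply Complex.ext
          · simp
          · simp [h1]
        rw [← hg j] at h3
        obtain ⟨w', ⟨t, ht, rfl⟩, hgw⟩ := h3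
        have h4 := g.injective hgw
        rw [← h4, hβ' _ t (hsub ht)]
        exact hβfr _ t (hsub ht)
    · intro x hx hxN
      obtain ⟨j, hj⟩ := mem_iUnion.1 hx
      have h3 : (x : ℂ) ∈ (fun x : ℝ => (x : ℂ)) '' Icc (u j) (v j) := ⟨x, hj, rfl⟩
      rw [← hg j] at h3
      obtain ⟨_, ⟨t, ht, rfl⟩, hgx⟩ := h3
      obtain ⟨w, hw, hwx⟩ := hxN
      have hwt : w = β' (e j) t := g.injective (by rw [hwx, hgx])
      -- a neighbourhood of `t` in `[0, 1]` is mapped into the disc of radius two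
      have hnear : ∀ᶠ s in 𝓝[Icc (0 : ℝ) 1] t, β' (e j) s ∈ ball (0 : ℂ) 2 := by
        have h5 := (hβ'a (e j)).1 t (hsub ht)
        refine h5.eventually (isOpen_ball.mem_nhds ?_)
        rw [← hwt]
        exact hw
      have hmem : ∀ s ∈ Icc (0 : ℝ) 1, β' (e j) s ∈ ball (0 : ℂ) 2 → s ∈ Icc (1 / 4 : ℝ) (3 / 4) := by
        intro s hs hsb
        have h6 : φ (β' (e j) s) ∈ frontier K := by
          rw [hβ' _ s hs]
          exact hβfr _ s hs
        obtain ⟨p, r, hr, hpr⟩ := key _ (ball_subset_closedBall hsb) h6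
        rw [hβ' _ s hs] at hpr
        have h7 := hβd p (e j) r (hsub hr) s hs hpr
        subst h7
        have h8 := (hβa (e j)).2 (hsub hr) hs hpr
        rwa [← h8]
      have hin : ∀ᶠ s in 𝓝 t, s ∈ Icc (1 / 4 : ℝ) (3 / 4) := by
        have h9 : Icc (0 : ℝ) 1 ∈ 𝓝 t := Icc_mem_nhds (by linarith [ht.1]) (by linarith [ht.2])
        rw [nhdsWithin_eq_nhds.2 h9] at hnear
        filter_upwards [hnear, h9] with s hs hs'
        exact hmem s hs' hs
      have ht' : t ∈ Ioo (1 / 4 : ℝ) (3 / 4) := by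
        have h10 : t ∈ interior (Icc (1 / 4 : ℝ) (3 / 4)) := mem_interior_iff_mem_nhds.2 hin
        rwa [interior_Icc] at h10
      -- the real coordinate along the arc
      have hreal : ∀ s ∈ Icc (1 / 4 : ℝ) (3 / 4), ((g (β' (e j) s)).re : ℂ) = g (β' (e j) s) ∧
          (g (β' (e j) s)).re ∈ Icc (u j) (v j) := by
        intro s hs
        have h11 : g (β' (e j) s) ∈ (fun x : ℝ => (x : ℂ)) '' Icc (u j) (v j) := by
          rw [← hg j]
          exact ⟨_, ⟨s, hs, rfl⟩, rfl⟩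
        obtain ⟨y, hy, hye⟩ := h11
        simp only at hye
        rw [← hye, Complex.ofReal_re]
        exact ⟨rfl, hy⟩
      have hmono := ContinuousOn.strictMonoOn_of_injOn_Icc' (a := (1 / 4 : ℝ)) (b := 3 / 4)
        (f := fun s => (g (β' (e j) s)).re) (by norm_num)
        (Complex.continuous_re.comp_continuousOn
          (g.continuous.comp_continuousOn ((hβ'a (e j)).1.mono hsub))) (by
          intro s hs s' hs' hss
          simp only at hss
          have h12 : g (β' (e j) s) = g (β' (e j) s') := by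
            rw [← (hreal s hs).1, ← (hreal s' hs').1, hss]
          exact (hβ'a (e j)).2 (hsub hs) (hsub hs') (g.injective h12))
      have hxt : (g (β' (e j) t)).re = x := by
        rw [hgx, Complex.ofReal_re]
      have m1 : (1 / 4 : ℝ) ∈ Icc (1 / 4 : ℝ) (3 / 4) := ⟨le_refl _, by norm_num⟩
      have m2 : (3 / 4 : ℝ) ∈ Icc (1 / 4 : ℝ) (3 / 4) := ⟨by norm_num, le_refl _⟩
      have hIoo : x ∈ Ioo (u j) (v j) := by
        rw [← hxt]
        rcases hmono with hm | hm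
        · exact ⟨(hreal _ m1).2.1.trans_lt (hm m1 ht ht'.1), (hm ht m2 ht'.2).trans_le (hreal _ m2).2.2⟩
        · exact ⟨(hreal _ m2).2.1.trans_lt (hm ht m2 ht'.2), (hm m1 ht ht'.1).trans_le (hreal _ m1).2.2⟩
      exact mem_of_superset (Icc_mem_nhds hIoo.1 hIoo.2) (subset_iUnion (fun j => Icc (u j) (v j)) j)
  · exact ((convex_closedBall (0 : ℂ) 1).isConnected ⟨0, by simp⟩).image _ g.continuous.continuousOn
  · exact image_mono (closedBall_subset_ball (by norm_num))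
  · rw [image_comp]
    congr 1
    ext z
    constructor
    · rintro ⟨_, ⟨w, hw, rfl⟩, rfl⟩
      rwa [g.symm_apply_apply]
    · intro hz
      exact ⟨g z, ⟨z, hz, rfl⟩, g.symm_apply_apply z⟩

end Pool.Agent.SRF
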