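import Pool.Agent.SRF.StB

set_option autoImplicit false

/-! # SRF GR1: every cell has exactly one status. -/

open Set Metric Filter Topology

namespace Pool.Agent.SRF

theorem gr1_T (h : ℝ) (c : ℤ × ℤ) : T h c =
    (Icc (h * c.1 - h / 2) (h * c.1 + h / 2)) ×ℂ (Icc (h * c.2 - h / 2) (h * c.2 + h / 2)) := by
  ext z
  rw [Complex.mem_reProdIm]
  unfold T
  rw [mem_ofPred_eq, abs_le, abs_le, mem_Icc, mem_Icc]
  constructor
  · rintro ⟨⟨h1, h2⟩, h3, h4⟩
    exact ⟨⟨by linarith, by linarith⟩, by linarith, by linarith⟩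
  · rintro ⟨⟨h1, h2⟩, h3, h4⟩
    exact ⟨⟨by linarith, by linarith⟩, by linarith, by linarith⟩

theorem gr1_closed (h : ℝ) (c : ℤ × ℤ) : IsClosed (T h c) := by
  have h1 : IsClosed {z : ℂ | |z.re - h * c.1| ≤ h / 2} :=
    isClosed_le (Complex.continuous_re.sub continuous_const).abs continuous_const
  have h2 : IsClosed {z : ℂ | |z.im - h * c.2| ≤ h / 2} :=
    isClosed_le (Complex.continuous_im.sub continuous_const).abs continuous_const
  exact h1.inter h2

theorem gr1_pre (h : ℝ) (c : ℤ × ℤ) (S : Set ℝ) (hS : Convex ℝ S) :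
    IsPreconnected {z ∈ T h c | z.im ∈ S} := by
  have : {z ∈ T h c | z.im ∈ S} = (Icc (h * c.1 - h / 2) (h * c.1 + h / 2)) ×ℂ
      ((Icc (h * c.2 - h / 2) (h * c.2 + h / 2)) ∩ S) := by
    ext z
    rw [mem_sep_iff, gr1_T, Complex.mem_reProdIm, Complex.mem_reProdIm, mem_inter_iff]
    tauto
  rw [this]
  have h1 : Convex ℝ ((Icc (h * c.1 - h / 2) (h * c.1 + h / 2)) ×ℂ
      ((Icc (h * c.2 - h / 2) (h * c.2 + h / 2)) ∩ S)) :=
    ((convex_Icc _ _).linear_preimage Complex.reLm).inter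
      (((convex_Icc _ _).inter hS).linear_preimage Complex.imLm)
  exact h1.isPreconnected

/-- A preconnected set whose image misses the frontier is mapped inside or outside. -/
theorem gr1_dich {X : Type} [TopologicalSpace X] {K : Set X} (hK : IsClosed K) {ψ : ℂ → X}
    (hψ : Continuous ψ) {P : Set ℂ} (hP : IsPreconnected P) (hm : ∀ z ∈ P, ψ z ∉ frontier K) :
    (∀ z ∈ P, ψ z ∈ interior K) ∨ (∀ z ∈ P, ψ z ∉ K) := by
  have h1 : ψ '' P ⊆ interior K ∪ Kᶜ := by
    rintro _ ⟨z, hz, rfl⟩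
    by_cases h2 : ψ z ∈ K
    · left
      by_contra h3
      exact hm z hz (by rw [hK.frontier_eq]; exact ⟨h2, h3⟩)
    · exact Or.inr h2
  have h2 : Disjoint (interior K) Kᶜ := by
    rw [disjoint_left]
    intro x hx hx'
    exact hx' (interior_subset hx)
  rcases (hP.image ψ hψ.continuousOn).subset_or_subset isOpen_interior hK.isOpen_compl h2 h1 with
    h3 | h3
  · exact Or.inl fun z hz => h3 ⟨z, hz, rfl⟩
  · exact Or.inr fun z hz => h3 ⟨z, hz, rfl⟩

theorem gr1_SO {X : Type} [TopologicalSpace X] {K : Set X} {ψ : ℂ → X} {h : ℝ} {c : ℤ × ℤ}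
    (hm : ∀ z ∈ T h c, ψ z ∉ K) : SO K ψ h c ∧ pc K ψ h c = T h c := by
  constructor
  · unfold SO
    rw [disjoint_left]
    rintro _ ⟨z, hz, rfl⟩
    exact hm z hz
  · unfold pc
    have : {z ∈ T h c | ψ z ∉ K} = T h c := by
      ext z
      exact ⟨fun hz => hz.1, fun hz => ⟨hz, hm z hz⟩⟩
    rw [this, (gr1_closed h c).closure_eq]

theorem gr1_SK {X : Type} [TopologicalSpace X] {K : Set X} {ψ : ℂ → X} {h : ℝ} {c : ℤ × ℤ}
    (hm : ∀ z ∈ T h c, ψ z ∈ K) : SK K ψ h c ∧ pc K ψ h c = ∅ := by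
  constructor
  · rintro _ ⟨z, hz, rfl⟩
    exact hm z hz
  · unfold pc
    have : {z ∈ T h c | ψ z ∉ K} = ∅ := by
      ext z
      exact ⟨fun hz => hz.2 (hm z hz.1), fun hz => hz.elim⟩
    rw [this, closure_empty]

theorem gr1_SL {X : Type} [TopologicalSpace X] {K : Set X} {ψ : ℂ → X} {h : ℝ} {c : ℤ × ℤ}
    (hh : 0 < h) (hc : c.2 = 0) (σ : ℝ) (hσ : σ = 1 ∨ σ = -1)
    (hm : ∀ z ∈ T h c, 0 ≤ σ * z.im → ψ z ∈ K) (hm' : ∀ z ∈ T h c, σ * z.im < 0 → ψ z ∉ K) :
    SL K ψ h σ c ∧ pc K ψ h c = {z ∈ T h c | σ * z.im ≤ 0} := by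
  have hσ2 : σ * σ = 1 := by rcases hσ with h1 | h1 <;> rw [h1] <;> norm_num
  constructor
  · refine ⟨hc, hσ, fun z hz => ⟨fun h1 => ?_, hm z hz⟩⟩
    by_contra h2
    exact hm' z hz (not_le.1 h2) h1
  · unfold pc
    have h1 : {z ∈ T h c | ψ z ∉ K} = {z ∈ T h c | σ * z.im < 0} := by
      ext z
      refine ⟨fun hz => ⟨hz.1, ?_⟩, fun hz => ⟨hz.1, hm' z hz.1 hz.2⟩⟩
      by_contra h2
      exact hz.2 (hm z hz.1 (not_lt.1 h2))
    rw [h1]
    apply Subset.antisymm
    · apply closure_minimal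
      · exact fun z hz => ⟨hz.1, hz.2.le⟩
      · exact (gr1_closed h c).inter (isClosed_le (continuous_const.mul Complex.continuous_im)
          continuous_const)
    · rintro z ⟨hz, hz2⟩
      rcases hz2.lt_or_eq with h2 | h2
      · exact subset_closure ⟨hz, h2⟩
      · have him : z.im = 0 := by
          rcases mul_eq_zero.1 h2 with h3 | h3
          · rw [h3] at hσ2
            norm_num at hσ2
          · exact h3
        rw [Metric.mem_closure_iff]
        intro ε hε
        set t : ℝ := min (ε / 2) (h / 2) with ht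
        have ht0 : 0 < t := lt_min (by positivity) (by positivity)
        have ht1 : t ≤ ε / 2 := min_le_left _ _
        have ht2 : t ≤ h / 2 := min_le_right _ _
        refine ⟨⟨z.re, -(σ * t)⟩, ⟨⟨hz.1, ?_⟩, ?_⟩, ?_⟩
        · rw [hc]
          simp only [Int.cast_zero, mul_zero, sub_zero, abs_neg, abs_mul]
          rcases hσ with h3 | h3 <;> rw [h3]
          · rw [abs_one, one_mul, abs_of_pos ht0]; exact ht2
          · rw [abs_neg, abs_one, one_mul, abs_of_pos ht0]; exact ht2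
        · show σ * -(σ * t) < 0
          have : σ * -(σ * t) = -t := by linear_combination (-t) * hσ2
          rw [this]
          linarith
        · rw [dist_eq_norm]
          have h3 : z - ⟨z.re, -(σ * t)⟩ = ((σ * t : ℝ) : ℂ) * Complex.I := by
            apply Complex.ext
            · simp
            · simp [him]
          rw [h3, norm_mul, Complex.norm_I, mul_one, Complex.norm_real, Real.norm_eq_abs, abs_mul]
          rcases hσ with h3 | h3 <;> rw [h3]
          · rw [abs_one, one_mul, abs_of_pos ht0]; linarith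
          · rw [abs_neg, abs_one, one_mul, abs_of_pos ht0]; linarith

theorem thm_GR1 (h0 : St_BFR) : St_GR1 := by
  intro X _ hX K ψ N L hG h c hh hcN
  obtain ⟨hbord, hemb, hopn, hfr, hnhd⟩ := hG
  have := hX.t2
  have hK : IsClosed K := hbord.1.isClosed
  have hcl : closure (interior K) = K := (h0 X hX K hbord).2.1
  have hψ : Continuous ψ := hemb.continuous
  -- the case where the square misses the frontier
  have hmiss : (∀ z ∈ T h c, ψ z ∉ frontier K) → (SO K ψ h c ∧ pc K ψ h c = T h c) ∨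
      (SK K ψ h c ∧ pc K ψ h c = ∅) := by
    intro hm
    have hpre : IsPreconnected (T h c) := by
      have := gr1_pre h c univ convex_univ
      have h1 : {z ∈ T h c | z.im ∈ (univ : Set ℝ)} = T h c := by
        ext z; exact ⟨fun hz => hz.1, fun hz => ⟨hz, mem_univ _⟩⟩
      rwa [h1] at this
    rcases gr1_dich hK hψ hpre hm with h1 | h1
    · exact Or.inr (gr1_SK fun z hz => interior_subset (h1 z hz))
    · exact Or.inl (gr1_SO h1)
  by_cases hc2 : c.2 = 0
  swap
  · rcases hmiss (by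
      intro z hz hzf
      have h1 := ((hfr z (hcN hz)).1 hzf).1
      have h2 := hz.2
      rw [h1, zero_sub, abs_neg, abs_mul, abs_of_pos hh] at h2
      have h3 : (1 : ℝ) ≤ |((c.2 : ℤ) : ℝ)| := by
        have : (1 : ℤ) ≤ |c.2| := Int.one_le_abs hc2
        exact_mod_cast this
      nlinarith) with h1 | h1
    · exact Or.inl h1
    · exact Or.inr (Or.inl h1)
  -- the real interval
  have hJT : ∀ x ∈ Icc (h * c.1 - h / 2) (h * c.1 + h / 2), ((x : ℝ) : ℂ) ∈ T h c := by
    intro x hx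
    rw [gr1_T, Complex.mem_reProdIm]
    refine ⟨hx, ?_⟩
    rw [hc2]
    simp only [Complex.ofReal_im, Int.cast_zero, mul_zero, zero_sub, zero_add, mem_Icc]
    constructor <;> linarith
  have hV : IsOpen {x : ℝ | ψ (x : ℂ) ∉ frontier K} :=
    (isClosed_frontier.preimage (hψ.comp Complex.continuous_ofReal)).isOpen_compl
  have hsplit := isPreconnected_iff_subset_of_disjoint.1
    (isPreconnected_Icc : IsPreconnected (Icc (h * c.1 - h / 2) (h * c.1 + h / 2)))
    (interior L) {x : ℝ | ψ (x : ℂ) ∉ frontier K} isOpen_interior hV (by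
      intro x hx
      by_cases hxL : x ∈ L
      · left
        exact mem_interior_iff_mem_nhds.2 (hnhd x hxL (hcN (hJT x hx)))
      · right
        intro hf
        have := ((hfr _ (hcN (hJT x hx))).1 hf).2
        rw [Complex.ofReal_re] at this
        exact hxL this) (by
      rw [eq_empty_iff_forall_notMem]
      rintro x ⟨hx, hx1, hx2⟩
      apply hx2
      refine (hfr _ (hcN (hJT x hx))).2 ⟨Complex.ofReal_im x, ?_⟩
      rw [Complex.ofReal_re]
      exact interior_subset hx1)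
  have hreal : ∀ z ∈ T h c, z.im = 0 → z.re ∈ Icc (h * c.1 - h / 2) (h * c.1 + h / 2) ∧
      ((z.re : ℝ) : ℂ) = z := by
    intro z hz him
    refine ⟨?_, ?_⟩
    · rw [gr1_T, Complex.mem_reProdIm] at hz
      exact hz.1
    · apply Complex.ext
      · simp
      · simp [him]
  rcases hsplit with hL | hL
  swap
  · rcases hmiss (by
      intro z hz hzf
      have h1 := (hfr z (hcN hz)).1 hzf
      obtain ⟨h2, h3⟩ := hreal z hz h1.1
      have := hL h2
      rw [mem_ofPred_eq, h3] at this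
      exact this hzf) with h1 | h1
    · exact Or.inl h1
    · exact Or.inr (Or.inl h1)
  -- the real points are on the frontier
  have hfrz : ∀ z ∈ T h c, z.im = 0 → ψ z ∈ frontier K := by
    intro z hz him
    exact (hfr z (hcN hz)).2 ⟨him, interior_subset (hL (hreal z hz him).1)⟩
  have hup : (∀ z ∈ {z ∈ T h c | z.im ∈ Ioi (0 : ℝ)}, ψ z ∈ interior K) ∨
      (∀ z ∈ {z ∈ T h c | z.im ∈ Ioi (0 : ℝ)}, ψ z ∉ K) := by
    refine gr1_dich hK hψ (gr1_pre h c _ (convex_Ioi 0)) ?_
    rintro z ⟨hz, hz2⟩ hzf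
    have := ((hfr z (hcN hz)).1 hzf).1
    rw [this] at hz2
    exact lt_irrefl (0 : ℝ) hz2
  have hdn : (∀ z ∈ {z ∈ T h c | z.im ∈ Iio (0 : ℝ)}, ψ z ∈ interior K) ∨
      (∀ z ∈ {z ∈ T h c | z.im ∈ Iio (0 : ℝ)}, ψ z ∉ K) := by
    refine gr1_dich hK hψ (gr1_pre h c _ (convex_Iio 0)) ?_
    rintro z ⟨hz, hz2⟩ hzf
    have := ((hfr z (hcN hz)).1 hzf).1
    rw [this] at hz2
    exact lt_irrefl (0 : ℝ) hz2
  -- the centre
  set z0 : ℂ := ((h * c.1 : ℝ) : ℂ) with hz0
  have hz0T : z0 ∈ T h c := hJT _ ⟨by linarith, by linarith⟩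
  have hz0f : ψ z0 ∈ frontier K := hfrz z0 hz0T (Complex.ofReal_im _)
  have hz0n : T h c ∈ 𝓝 z0 := by
    have h1 : IsOpen {z : ℂ | |z.re - h * c.1| < h / 2} :=
      isOpen_lt (Complex.continuous_re.sub continuous_const).abs continuous_const
    have h2 : IsOpen {z : ℂ | |z.im - h * c.2| < h / 2} :=
      isOpen_lt (Complex.continuous_im.sub continuous_const).abs continuous_const
    refine mem_of_superset ((h1.inter h2).mem_nhds ⟨?_, ?_⟩) (fun z hz => ⟨hz.1.le, hz.2.le⟩)
    · simp only [hz0, mem_ofPred_eq, Complex.ofReal_re, sub_self, abs_zero]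
      positivity
    · simp only [hz0, mem_ofPred_eq, Complex.ofReal_im, hc2, Int.cast_zero, mul_zero, sub_self,
        abs_zero]
      positivity
  right; right
  rcases hup with h1 | h1 <;> rcases hdn with h2 | h2
  · exfalso
    have h3 : ψ '' T h c ⊆ K := by
      rintro _ ⟨z, hz, rfl⟩
      rcases lt_trichotomy z.im 0 with h4 | h4 | h4
      · exact interior_subset (h2 z ⟨hz, h4⟩)
      · exact hK.frontier_subset (hfrz z hz h4)
      · exact interior_subset (h1 z ⟨hz, h4⟩)
    have h4 : ψ z0 ∈ interior K := by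
      rw [mem_interior_iff_mem_nhds]
      exact mem_of_superset (hemb.isOpenMap.image_mem_nhds hz0n) h3
    rw [hK.frontier_eq] at hz0f
    exact hz0f.2 h4
  · refine ⟨1, gr1_SL hh hc2 1 (Or.inl rfl) ?_ ?_⟩
    · intro z hz h3
      rw [one_mul] at h3
      rcases h3.lt_or_eq with h4 | h4
      · exact interior_subset (h1 z ⟨hz, h4⟩)
      · exact hK.frontier_subset (hfrz z hz h4.symm)
    · intro z hz h3
      rw [one_mul] at h3
      exact h2 z ⟨hz, h3⟩
  · refine ⟨-1, gr1_SL hh hc2 (-1) (Or.inr rfl) ?_ ?_⟩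
    · intro z hz h3
      rcases lt_trichotomy z.im 0 with h4 | h4 | h4
      · exact interior_subset (h2 z ⟨hz, h4⟩)
      · exact hK.frontier_subset (hfrz z hz h4)
      · linarith
    · intro z hz h3
      exact h1 z ⟨hz, by show 0 < z.im; linarith⟩
  · exfalso
    have h3 : ψ z0 ∈ closure (interior K) := by
      rw [hcl]
      exact hK.frontier_subset hz0f
    have h4 : ψ '' interior (T h c) ∈ 𝓝 (ψ z0) :=
      hemb.isOpenMap.image_mem_nhds (interior_mem_nhds.2 hz0n)
    obtain ⟨_, ⟨z, hz, rfl⟩, hzK⟩ := mem_closure_iff_nhds.1 h3 _ h4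
    have hGo : IsOpen (interior (T h c) ∩ ψ ⁻¹' interior K) :=
      isOpen_interior.inter (isOpen_interior.preimage hψ)
    obtain ⟨ε, hε, hball⟩ := Metric.isOpen_iff.1 hGo z ⟨hz, hzK⟩
    have himz : ∀ w ∈ interior (T h c) ∩ ψ ⁻¹' interior K, w.im = 0 := by
      rintro w ⟨hw, hwK⟩
      rcases lt_trichotomy w.im 0 with h5 | h5 | h5
      · exact absurd (interior_subset hwK) (h2 w ⟨interior_subset hw, h5⟩)
      · exact h5
      · exact absurd (interior_subset hwK) (h1 w ⟨interior_subset hw, h5⟩)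
    have h5 := himz z ⟨hz, hzK⟩
    have h6 := himz (z + ((ε / 2 : ℝ) : ℂ) * Complex.I) (hball (by
      rw [mem_ball, dist_eq_norm, add_sub_cancel_left, norm_mul, Complex.norm_I, mul_one,
        Complex.norm_real, Real.norm_of_nonneg (by positivity)]
      linarith))
    rw [Complex.add_im, h5, Complex.im_ofReal_mul, Complex.I_im, mul_one, zero_add] at h6
    linarith

end Pool.Agent.SRF
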