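import Pool.Agent.SRF.StB

set_option autoImplicit false

/-! # SRF GR2: choice of the grid. -/

open Set Metric Filter Topology

namespace Pool.Agent.SRF

theorem gr2_blk (f c : ℤ × ℤ) : c ∈ blk f ↔
    (f.1 - 1 ≤ c.1 ∧ c.1 ≤ f.1 + 1) ∧ (f.2 - 1 ≤ c.2 ∧ c.2 ≤ f.2 + 1) := by
  unfold blk
  rw [Finset.mem_product, Finset.mem_Icc, Finset.mem_Icc]

theorem gr2_closed (h : ℝ) (c : ℤ × ℤ) : IsClosed (T h c) := by
  have h1 : IsClosed {z : ℂ | |z.re - h * c.1| ≤ h / 2} :=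
    isClosed_le (Complex.continuous_re.sub continuous_const).abs continuous_const
  have h2 : IsClosed {z : ℂ | |z.im - h * c.2| ≤ h / 2} :=
    isClosed_le (Complex.continuous_im.sub continuous_const).abs continuous_const
  exact h1.inter h2

/-- If two cells have a common point their coordinates differ by at most one. -/
theorem gr2_near {h : ℝ} (hh : 0 < h) {c c' : ℤ × ℤ} {z : ℂ} (h1 : z ∈ T h c) (h2 : z ∈ T h c') :
    (c.1 ≤ c'.1 + 1 ∧ c'.1 ≤ c.1 + 1) ∧ (c.2 ≤ c'.2 + 1 ∧ c'.2 ≤ c.2 + 1) := by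
  obtain ⟨h3, h4⟩ := h1
  obtain ⟨h5, h6⟩ := h2
  rw [abs_le] at h3 h4 h5 h6
  refine ⟨⟨?_, ?_⟩, ?_, ?_⟩
  · by_contra hcon
    push Not at hcon
    have : ((c'.1 : ℤ) : ℝ) + 1 + 1 ≤ (c.1 : ℝ) := by exact_mod_cast hcon
    nlinarith
  · by_contra hcon
    push Not at hcon
    have : ((c.1 : ℤ) : ℝ) + 1 + 1 ≤ (c'.1 : ℝ) := by exact_mod_cast hcon
    nlinarith
  · by_contra hcon
    push Not at hcon
    have : ((c'.2 : ℤ) : ℝ) + 1 + 1 ≤ (c.2 : ℝ) := by exact_mod_cast hcon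
    nlinarith
  · by_contra hcon
    push Not at hcon
    have : ((c.2 : ℤ) : ℝ) + 1 + 1 ≤ (c'.2 : ℝ) := by exact_mod_cast hcon
    nlinarith

theorem gr2_round {h : ℝ} (hh : 0 < h) (x : ℝ) : ∃ n : ℤ, |x - h * n| ≤ h / 2 := by
  refine ⟨round (x / h), ?_⟩
  have h1 := abs_sub_round (x / h)
  have h2 : x - h * (round (x / h) : ℤ) = h * (x / h - (round (x / h) : ℤ)) := by
    field_simp
  rw [h2, abs_mul, abs_of_pos hh]
  nlinarith

theorem gr2_odd (n : ℤ) : ∃ m : ℤ, Odd m ∧ m - 1 ≤ n ∧ n ≤ m + 1 := by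
  rcases Int.even_or_odd n with hn | hn
  · exact ⟨n + 1, hn.add_one, by omega, by omega⟩
  · exact ⟨n, hn, by omega, by omega⟩

theorem thm_GR2 : St_GR2 := by
  intro C N hC hCc hN hCN
  obtain ⟨δ, hδ, hδN⟩ := hC.exists_thickening_subset_open hN hCN
  set h : ℝ := δ / 10 with hh
  have hhp : 0 < h := by positivity
  obtain ⟨R, hR⟩ := hC.isBounded.subset_closedBall 0
  -- every point is in a cell of a block of a face cell
  have hpt : ∀ z : ℂ, ∃ f c : ℤ × ℤ, IsF f ∧ c ∈ blk f ∧ z ∈ T h c := by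
    intro z
    obtain ⟨a, ha⟩ := gr2_round hhp z.re
    obtain ⟨b, hb⟩ := gr2_round hhp z.im
    obtain ⟨a', ha', ha1, ha2⟩ := gr2_odd a
    obtain ⟨b', hb', hb1, hb2⟩ := gr2_odd b
    exact ⟨(a', b'), (a, b), ⟨ha', hb'⟩, by rw [gr2_blk]; exact ⟨⟨ha1, ha2⟩, hb1, hb2⟩, ha, hb⟩
  have hfin : {f : ℤ × ℤ | IsF f ∧ ∃ c ∈ blk f, (T h c ∩ C).Nonempty}.Finite := by
    obtain ⟨M, hM⟩ := exists_nat_gt ((|R| + 2 * h) / h)
    refine Set.Finite.subset (Set.finite_Icc ((-(M : ℤ), -(M : ℤ)) : ℤ × ℤ) ((M : ℤ), (M : ℤ))) ?_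
    rintro f ⟨-, c, hc, z, hz, hzC⟩
    have hzR := hR hzC
    rw [mem_closedBall_zero_iff] at hzR
    have hre := Complex.abs_re_le_norm z
    have him := Complex.abs_im_le_norm z
    have hRR := le_abs_self R
    rw [gr2_blk] at hc
    obtain ⟨h1, h2⟩ := hz
    rw [div_lt_iff₀ hhp] at hM
    rw [abs_le] at h1 h2 hre him
    obtain ⟨⟨h3, h4⟩, h5, h6⟩ := hc
    have h3' : (f.1 : ℝ) - 1 ≤ c.1 := by exact_mod_cast h3
    have h4' : (c.1 : ℝ) ≤ f.1 + 1 := by exact_mod_cast h4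
    have h5' : (f.2 : ℝ) - 1 ≤ c.2 := by exact_mod_cast h5
    have h6' : (c.2 : ℝ) ≤ f.2 + 1 := by exact_mod_cast h6
    have key : ∀ x y w : ℝ, -(h / 2) ≤ w - h * y → w - h * y ≤ h / 2 → x - 1 ≤ y → y ≤ x + 1 →
        -‖z‖ ≤ w → w ≤ ‖z‖ → -(M : ℝ) ≤ x ∧ x ≤ M := by
      intro x y w a1 a2 a3 a4 a5 a6
      have b1 : h * x ≤ h * (y + 1) := mul_le_mul_of_nonneg_left (by linarith) hhp.le
      have b2 : h * (y - 1) ≤ h * x := mul_le_mul_of_nonneg_left (by linarith) hhp.le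
      constructor
      · by_contra hcon
        push Not at hcon
        have : h * x < h * (-(M : ℝ)) := mul_lt_mul_of_pos_left hcon hhp
        nlinarith
      · by_contra hcon
        push Not at hcon
        have : h * (M : ℝ) < h * x := mul_lt_mul_of_pos_left hcon hhp
        nlinarith
    have k1 := key f.1 c.1 z.re (by linarith [h1.1]) h1.2 h3' h4' hre.1 hre.2
    have k2 := key f.2 c.2 z.im (by linarith [h2.1]) h2.2 h5' h6' him.1 him.2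
    refine ⟨⟨?_, ?_⟩, ?_, ?_⟩
    · show -(M : ℤ) ≤ f.1
      exact_mod_cast k1.1
    · show -(M : ℤ) ≤ f.2
      exact_mod_cast k2.1
    · show f.1 ≤ (M : ℤ)
      exact_mod_cast k1.2
    · show f.2 ≤ (M : ℤ)
      exact_mod_cast k2.2
  have hmem : ∀ f, f ∈ hfin.toFinset ↔ IsF f ∧ ∃ c ∈ blk f, (T h c ∩ C).Nonempty := fun f => by
    rw [Set.Finite.mem_toFinset]; rfl
  have hcov : ∀ z ∈ C, ∃ f ∈ hfin.toFinset, ∃ c ∈ blk f, z ∈ T h c := by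
    intro z hz
    obtain ⟨f, c, hf, hc, hzc⟩ := hpt z
    exact ⟨f, (hmem f).2 ⟨hf, c, hc, z, hzc, hz⟩, c, hc, hzc⟩
  refine ⟨h, hfin.toFinset, hhp, ?_, fun f hf => ((hmem f).1 hf).1, ?_, ?_,
    fun f hf => ((hmem f).1 hf).2, ?_⟩
  · obtain ⟨z, hz⟩ := hCc.nonempty
    obtain ⟨f, hf, -⟩ := hcov z hz
    exact ⟨f, hf⟩
  · intro z hz
    obtain ⟨f, hf, c, hc, hzc⟩ := hcov z hz
    exact mem_iUnion₂.2 ⟨f, hf, mem_iUnion₂.2 ⟨c, hc, hzc⟩⟩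
  · intro f hf c hc w hw
    obtain ⟨-, c', hc', z, hz, hzC⟩ := (hmem f).1 hf
    apply hδN
    rw [mem_thickening_iff]
    refine ⟨z, hzC, ?_⟩
    rw [dist_eq_norm]
    refine lt_of_le_of_lt (Complex.norm_le_abs_re_add_abs_im _) ?_
    rw [gr2_blk] at hc hc'
    obtain ⟨h1, h2⟩ := hw
    obtain ⟨h3, h4⟩ := hz
    obtain ⟨⟨a1, a2⟩, a3, a4⟩ := hc
    obtain ⟨⟨b1, b2⟩, b3, b4⟩ := hc'
    have key : ∀ (x y : ℝ) (p q r : ℤ), |x - h * p| ≤ h / 2 → |y - h * q| ≤ h / 2 → r - 1 ≤ p →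
        p ≤ r + 1 → r - 1 ≤ q → q ≤ r + 1 → |x - y| ≤ 3 * h := by
      intro x y p q r e1 e2 e3 e4 e5 e6
      rw [abs_le] at e1 e2
      have e3' : (r : ℝ) - 1 ≤ p := by exact_mod_cast e3
      have e4' : (p : ℝ) ≤ r + 1 := by exact_mod_cast e4
      have e5' : (r : ℝ) - 1 ≤ q := by exact_mod_cast e5
      have e6' : (q : ℝ) ≤ r + 1 := by exact_mod_cast e6
      have f1 : h * (p : ℝ) ≤ h * q + 2 * h := by nlinarith
      have f2 : h * (q : ℝ) ≤ h * p + 2 * h := by nlinarith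
      rw [abs_le]
      constructor <;> linarith
    have k1 := key w.re z.re c.1 c'.1 f.1 h1 h3 a1 a2 b1 b2
    have k2 := key w.im z.im c.2 c'.2 f.2 h2 h4 a3 a4 b3 b4
    rw [Complex.sub_re, Complex.sub_im]
    have : δ = 10 * h := by rw [hh]; ring
    rw [this]
    linarith
  · intro A hA hstep f' hf'
    by_contra hf'A
    set Y : Set ℂ := ⋃ f ∈ {f | f ∈ hfin.toFinset ∧ f ∈ A}, ⋃ c ∈ blk f, T h c with hY
    set Y' : Set ℂ := ⋃ f ∈ {f | f ∈ hfin.toFinset ∧ f ∉ A}, ⋃ c ∈ blk f, T h c with hY'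
    have hYc : IsClosed Y := by
      refine Set.Finite.isClosed_biUnion (hfin.toFinset.finite_toSet.subset fun x hx => hx.1) ?_
      intro f _
      exact Set.Finite.isClosed_biUnion (blk f).finite_toSet fun c _ => gr2_closed h c
    have hYc' : IsClosed Y' := by
      refine Set.Finite.isClosed_biUnion (hfin.toFinset.finite_toSet.subset fun x hx => hx.1) ?_
      intro f _
      exact Set.Finite.isClosed_biUnion (blk f).finite_toSet fun c _ => gr2_closed h c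
    have hsub : C ⊆ Y ∪ Y' := by
      intro z hz
      obtain ⟨f, hf, c, hc, hzc⟩ := hcov z hz
      by_cases hfA : f ∈ A
      · exact Or.inl (mem_iUnion₂.2 ⟨f, ⟨hf, hfA⟩, mem_iUnion₂.2 ⟨c, hc, hzc⟩⟩)
      · exact Or.inr (mem_iUnion₂.2 ⟨f, ⟨hf, hfA⟩, mem_iUnion₂.2 ⟨c, hc, hzc⟩⟩)
    have hn1 : (C ∩ Y).Nonempty := by
      obtain ⟨f, hf, hfA⟩ := hA
      obtain ⟨-, c, hc, z, hz, hzC⟩ := (hmem f).1 hf
      exact ⟨z, hzC, mem_iUnion₂.2 ⟨f, ⟨hf, hfA⟩, mem_iUnion₂.2 ⟨c, hc, hz⟩⟩⟩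
    have hn2 : (C ∩ Y').Nonempty := by
      obtain ⟨-, c, hc, z, hz, hzC⟩ := (hmem f').1 hf'
      exact ⟨z, hzC, mem_iUnion₂.2 ⟨f', ⟨hf', hf'A⟩, mem_iUnion₂.2 ⟨c, hc, hz⟩⟩⟩
    obtain ⟨z, -, hz1, hz2⟩ := isPreconnected_closed_iff.1 hCc.isPreconnected Y Y' hYc hYc' hsub
      hn1 hn2
    obtain ⟨f1, ⟨hf1, hf1A⟩, hz1'⟩ := mem_iUnion₂.1 hz1
    obtain ⟨c1, hc1, hzc1⟩ := mem_iUnion₂.1 hz1'
    obtain ⟨f2, ⟨hf2, hf2A⟩, hz2'⟩ := mem_iUnion₂.1 hz2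
    obtain ⟨c2, hc2, hzc2⟩ := mem_iUnion₂.1 hz2'
    have hnear := gr2_near hhp hzc1 hzc2
    rw [gr2_blk] at hc1 hc2
    obtain ⟨o1, o2⟩ := ((hmem f1).1 hf1).1
    obtain ⟨o3, o4⟩ := ((hmem f2).1 hf2).1
    rw [Int.odd_iff] at o1 o2 o3 o4
    refine hf2A (hstep f1 hf1 f2 hf2 hf1A ?_ ?_)
    · rw [abs_le]; omega
    · rw [abs_le]; omega

end Pool.Agent.SRF
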