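import Pool.Agent.SRF.StB

set_option autoImplicit false

/-! # SRF GR3: the combinatorial search step. -/

open Set Metric Filter Topology

namespace Pool.Agent.SRF

theorem gr3_adj (c c' : ℤ × ℤ) : Adj c c' ↔
    (c.1 = c'.1 ∧ (c.2 = c'.2 + 1 ∨ c'.2 = c.2 + 1)) ∨
    (c.2 = c'.2 ∧ (c.1 = c'.1 + 1 ∨ c'.1 = c.1 + 1)) := by
  unfold Adj
  rcases abs_cases (c.1 - c'.1) with ⟨h1, h2⟩ | ⟨h1, h2⟩ <;>
    rcases abs_cases (c.2 - c'.2) with ⟨h3, h4⟩ | ⟨h3, h4⟩ <;> rw [h1, h3] <;> omega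

theorem gr3_blk (f c : ℤ × ℤ) : c ∈ blk f ↔
    (f.1 - 1 ≤ c.1 ∧ c.1 ≤ f.1 + 1) ∧ (f.2 - 1 ≤ c.2 ∧ c.2 ≤ f.2 + 1) := by
  unfold blk
  rw [Finset.mem_product, Finset.mem_Icc, Finset.mem_Icc]

theorem thm_GR3 : St_GR3 := by
  intro Φ o k l hF hconn hst hl2 hko hll hex W hw
  by_contra hno
  -- the set `U`
  set D := Φ.biUnion blk with hD
  have hDm : ∀ f ∈ Φ, ∀ c, c ∈ blk f → c ∈ D := fun f hf c hc =>
    Finset.mem_biUnion.2 ⟨f, hf, hc⟩
  set U : Set (ℤ × ℤ) := {w | w ∈ D ∧ IsV w ∧ o w ∧ w ∉ W} with hU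
  have hb : ∀ w ∈ U, ∀ e ∈ D, ∀ w' ∈ D, IsE e → IsV w' → Adj e w → Adj e w' → w' ∈ U := by
    rintro w ⟨hwD, hwV, hwo, hwW⟩ e heD w' hw'D heE hw'V haw haw'
    by_cases hww : w' = w
    · rw [hww]; exact ⟨hwD, hwV, hwo, hwW⟩
    have heo : o e := by
      rcases hst e heD with h | h | h
      · exact h
      · exact absurd hwo (hko e heD w hwD haw h)
      · exfalso
        have he2 := hl2 e heD h
        have he1 : ¬ Even e.1 := fun h1 => heE.1 ⟨h1, by rw [he2]; exact Even.zero⟩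
        have hw2 : w.2 = 0 := by
          rw [gr3_adj] at haw
          obtain ⟨h1, h2⟩ := hwV
          rw [Int.even_iff] at h1 h2 he1
          omega
        exact (hll e heD w hwD haw he2 hw2 h).2 hwo
    rcases hst w' hw'D with h | h | h
    · refine ⟨hw'D, hw'V, h, fun hW => ?_⟩
      exact hno ⟨w, hwD, e, heD, w', hw'D, hwV, heE, hw'V, hwo, hwW, heo, haw, haw', hww,
        Or.inl hW⟩
    · exfalso
      have haw'' : Adj w' e := by
        rw [gr3_adj] at haw' ⊢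
        omega
      exact hko w' hw'D e heD haw'' h heo
    · exact absurd ⟨w, hwD, e, heD, w', hw'D, hwV, heE, hw'V, hwo, hwW, heo, haw, haw', hww,
        Or.inr h⟩ hno
  -- corners
  have hcor : ∀ f ∈ Φ, ∀ s t : ℤ, (s = 1 ∨ s = -1) → (t = 1 ∨ t = -1) →
      (f.1 + s, f.2 + t) ∈ U → (f.1 - s, f.2 + t) ∈ U ∧ (f.1 + s, f.2 - t) ∈ U := by
    intro f hf s t hs ht hmem
    obtain ⟨hf1, hf2⟩ := hF f hf
    rw [Int.odd_iff] at hf1 hf2
    constructor
    · refine hb _ hmem (f.1, f.2 + t) (hDm f hf _ ?_) _ (hDm f hf _ ?_) ?_ ?_ ?_ ?_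
      · rw [gr3_blk]; dsimp only; omega
      · rw [gr3_blk]; dsimp only; omega
      · constructor
        · rintro ⟨h1, _⟩; rw [Int.even_iff] at h1; dsimp only at h1; omega
        · rintro ⟨_, h2⟩; rw [Int.odd_iff] at h2; dsimp only at h2; omega
      · constructor <;> rw [Int.even_iff] <;> dsimp only <;> omega
      · rw [gr3_adj]; dsimp only; omega
      · rw [gr3_adj]; dsimp only; omega
    · refine hb _ hmem (f.1 + s, f.2) (hDm f hf _ ?_) _ (hDm f hf _ ?_) ?_ ?_ ?_ ?_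
      · rw [gr3_blk]; dsimp only; omega
      · rw [gr3_blk]; dsimp only; omega
      · constructor
        · rintro ⟨_, h1⟩; rw [Int.even_iff] at h1; dsimp only at h1; omega
        · rintro ⟨h2, _⟩; rw [Int.odd_iff] at h2; dsimp only at h2; omega
      · constructor <;> rw [Int.even_iff] <;> dsimp only <;> omega
      · rw [gr3_adj]; dsimp only; omega
      · rw [gr3_adj]; dsimp only; omega
  have hall : ∀ f ∈ Φ, ∀ s t : ℤ, (s = 1 ∨ s = -1) → (t = 1 ∨ t = -1) →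
      (f.1 + s, f.2 + t) ∈ U → ∀ s' t' : ℤ, (s' = 1 ∨ s' = -1) → (t' = 1 ∨ t' = -1) →
      (f.1 + s', f.2 + t') ∈ U := by
    intro f hf s t hs ht hmem s' t' hs' ht'
    have h1 := (hcor f hf s t hs ht hmem).1
    have h2 := (hcor f hf s t hs ht hmem).2
    have hs2 : (-s = 1 ∨ -s = -1) := by omega
    have h3 := (hcor f hf (-s) t hs2 ht (by rw [← sub_eq_add_neg]; exact h1)).2
    have hc : (s' = s ∨ s' = -s) ∧ (t' = t ∨ t' = -t) := by omega
    rcases hc with ⟨h4 | h4, h5 | h5⟩ <;> rw [h4, h5]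
    · exact hmem
    · rw [← sub_eq_add_neg]; exact h2
    · rw [← sub_eq_add_neg]; exact h1
    · rw [← sub_eq_add_neg f.2]; exact h3
  -- all corners of all faces are in `U`
  have hA := hconn {f | ∀ s t : ℤ, (s = 1 ∨ s = -1) → (t = 1 ∨ t = -1) → (f.1 + s, f.2 + t) ∈ U}
    (by
      obtain ⟨w, hwD, hwV, hwo, hwW⟩ := hw
      obtain ⟨f, hf, hwf⟩ := Finset.mem_biUnion.1 hwD
      refine ⟨f, hf, hall f hf (w.1 - f.1) (w.2 - f.2) ?_ ?_ ?_⟩
      · rw [gr3_blk] at hwf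
        obtain ⟨hf1, hf2⟩ := hF f hf
        obtain ⟨h1, h2⟩ := hwV
        rw [Int.odd_iff] at hf1 hf2
        rw [Int.even_iff] at h1 h2
        omega
      · rw [gr3_blk] at hwf
        obtain ⟨hf1, hf2⟩ := hF f hf
        obtain ⟨h1, h2⟩ := hwV
        rw [Int.odd_iff] at hf1 hf2
        rw [Int.even_iff] at h1 h2
        omega
      · have : ((f.1 + (w.1 - f.1), f.2 + (w.2 - f.2)) : ℤ × ℤ) = w := by
          ext <;> simp
        rw [this]
        exact ⟨hwD, hwV, hwo, hwW⟩)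
    (by
      intro f hf f' hf' hfA h1 h2
      obtain ⟨hf1, hf2⟩ := hF f hf
      obtain ⟨hf1', hf2'⟩ := hF f' hf'
      rw [Int.odd_iff] at hf1 hf2 hf1' hf2'
      rw [abs_le] at h1 h2
      obtain ⟨s, s', hs, hs', hss⟩ : ∃ s s' : ℤ, (s = 1 ∨ s = -1) ∧ (s' = 1 ∨ s' = -1) ∧
          f.1 + s = f'.1 + s' := by
        have h3 : f'.1 = f.1 ∨ f'.1 = f.1 + 2 ∨ f'.1 = f.1 - 2 := by omega
        rcases h3 with h3 | h3 | h3
        · exact ⟨1, 1, Or.inl rfl, Or.inl rfl, by omega⟩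
        · exact ⟨1, -1, Or.inl rfl, Or.inr rfl, by omega⟩
        · exact ⟨-1, 1, Or.inr rfl, Or.inl rfl, by omega⟩
      obtain ⟨t, t', ht, ht', htt⟩ : ∃ s s' : ℤ, (s = 1 ∨ s = -1) ∧ (s' = 1 ∨ s' = -1) ∧
          f.2 + s = f'.2 + s' := by
        have h3 : f'.2 = f.2 ∨ f'.2 = f.2 + 2 ∨ f'.2 = f.2 - 2 := by omega
        rcases h3 with h3 | h3 | h3
        · exact ⟨1, 1, Or.inl rfl, Or.inl rfl, by omega⟩
        · exact ⟨1, -1, Or.inl rfl, Or.inr rfl, by omega⟩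
        · exact ⟨-1, 1, Or.inr rfl, Or.inl rfl, by omega⟩
      have h4 := hfA s t hs ht
      rw [hss, htt] at h4
      exact hall f' hf' s' t' hs' ht' h4)
  -- contradiction
  obtain ⟨c, hcD, hco⟩ := hex
  obtain ⟨f, hf, hcf⟩ := Finset.mem_biUnion.1 hcD
  have hfA := hA f hf
  obtain ⟨hf1, hf2⟩ := hF f hf
  rw [Int.odd_iff] at hf1 hf2
  -- an edge cell of the block has status `o`
  have hedge : ∀ e ∈ blk f, e.1 = f.1 ∨ e.2 = f.2 → e ≠ f → o e := by
    intro e he hor hne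
    have heD := hDm f hf e he
    rw [gr3_blk] at he
    have hne' : ¬ (e.1 = f.1 ∧ e.2 = f.2) := fun h => hne (Prod.ext h.1 h.2)
    obtain ⟨s, t, hs, ht, hadj, hsame⟩ : ∃ s t : ℤ, (s = 1 ∨ s = -1) ∧ (t = 1 ∨ t = -1) ∧
        Adj e (f.1 + s, f.2 + t) ∧ (e.2 = 0 → f.2 + t = 0) := by
      by_cases h1 : e.1 = f.1
      · refine ⟨1, e.2 - f.2, Or.inl rfl, by omega, ?_, fun h => by omega⟩
        rw [gr3_adj]; dsimp only; omega
      · refine ⟨e.1 - f.1, 1, by omega, Or.inl rfl, ?_, fun h => by omega⟩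
        rw [gr3_adj]; dsimp only; omega
    have hc := hfA s t hs ht
    rcases hst e heD with h | h | h
    · exact h
    · exact absurd hc.2.2.1 (hko e heD _ hc.1 hadj h)
    · have he2 := hl2 e heD h
      exact absurd hc.2.2.1 (hll e heD _ hc.1 hadj he2 (hsame he2) h).2
  by_cases hcase : c.1 = f.1 ∨ c.2 = f.2
  · by_cases hcf' : c = f
    · subst hcf'
      have he : ((c.1 + 1, c.2) : ℤ × ℤ) ∈ blk c := by
        rw [gr3_blk]; dsimp only; omega
      have heo := hedge (c.1 + 1, c.2) he (Or.inr rfl) (by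
        intro h
        have := congrArg Prod.fst h
        dsimp only at this
        omega)
      rcases hst c hcD with h | h | h
      · exact hco h
      · exact hko c hcD _ (hDm c hf _ he) (by rw [gr3_adj]; dsimp only; omega) h heo
      · have := hl2 c hcD h
        omega
    · exact hco (hedge c hcf hcase hcf')
  · have hcor2 := hfA (c.1 - f.1) (c.2 - f.2) (by rw [gr3_blk] at hcf; omega)
      (by rw [gr3_blk] at hcf; omega)
    have : ((f.1 + (c.1 - f.1), f.2 + (c.2 - f.2)) : ℤ × ℤ) = c := by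
      ext <;> simp
    rw [this] at hcor2
    exact hco hcor2.2.2.1

end Pool.Agent.SRF
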