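import Pool.Agent.SRF.StB

set_option autoImplicit false

/-! # SRF/GR5: grid, attaching a vertex cell together with an edge cell. -/

open Set Metric Filter Topology

namespace Pool.Agent.SRF

theorem gr5_mem (h : ℝ) (c : ℤ × ℤ) (z : ℂ) : z ∈ T h c ↔
    (h * c.1 - h / 2 ≤ z.re ∧ z.re ≤ h * c.1 + h / 2) ∧
      (h * c.2 - h / 2 ≤ z.im ∧ z.im ≤ h * c.2 + h / 2) := by
  show |z.re - h * c.1| ≤ h / 2 ∧ |z.im - h * c.2| ≤ h / 2 ↔ _
  rw [abs_le, abs_le]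
  constructor
  · rintro ⟨⟨h1, h2⟩, h3, h4⟩
    exact ⟨⟨by linarith, by linarith⟩, by linarith, by linarith⟩
  · rintro ⟨⟨h1, h2⟩, h3, h4⟩
    exact ⟨⟨by linarith, by linarith⟩, by linarith, by linarith⟩

theorem gr5_closed (h : ℝ) (c : ℤ × ℤ) : IsClosed (T h c) := by
  refine IsClosed.inter ?_ ?_
  · exact isClosed_le ((Complex.continuous_re.sub continuous_const).abs) continuous_const
  · exact isClosed_le ((Complex.continuous_im.sub continuous_const).abs) continuous_const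

/-- Integers whose multiples by `h` are at distance at most `h`. -/
theorem gr5_int {h x : ℝ} (hh : 0 < h) {m n : ℤ} (h1 : h * m - h / 2 ≤ x) (h2 : x ≤ h * m + h / 2)
    (h3 : h * n - h / 2 ≤ x) (h4 : x ≤ h * n + h / 2) : m - n ≤ 1 ∧ n - m ≤ 1 := by
  constructor
  · have h5 : h * ((m - n : ℤ) : ℝ) ≤ h * 1 := by push_cast; nlinarith
    have h6 := le_of_mul_le_mul_left h5 hh
    exact_mod_cast h6
  · have h5 : h * ((n - m : ℤ) : ℝ) ≤ h * 1 := by push_cast; nlinarith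
    have h6 := le_of_mul_le_mul_left h5 hh
    exact_mod_cast h6

section

variable {X : Type} [TopologicalSpace X]

theorem gr5_pc_sub (K : Set X) (ψ : ℂ → X) (h : ℝ) (c : ℤ × ℤ) : pc K ψ h c ⊆ T h c :=
  closure_minimal (fun _ hz => hz.1) (gr5_closed h c)

theorem gr5_pc_eq {K : Set X} {ψ : ℂ → X} {h : ℝ} {c : ℤ × ℤ} (hc : SO K ψ h c) :
    pc K ψ h c = T h c := by
  refine (gr5_pc_sub K ψ h c).antisymm fun z hz => subset_closure ⟨hz, ?_⟩
  exact disjoint_left.mp hc ⟨z, hz, rfl⟩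

/-- The topological part. -/
theorem gr5_core (hRATT : St_RATT) {K : Set X} {ψ : ℂ → X} (hψ : IsOpenEmbedding ψ) {h : ℝ}
    {Sg : Finset (ℤ × ℤ)} {w e v : ℤ × ℤ} (hw : SO K ψ h w) (he : SO K ψ h e) (hv : v ∈ Sg)
    (hS : ∀ c ∈ Sg, ∀ z, z ∈ T h e ∪ T h w → z ∈ T h c → z ∈ T h e ∧ z ∈ T h v)
    {a b c d : ℝ} {W : Set ℂ} (hab : a < b) (hcd : c < d) (hW : RSel a b c d W)
    (hR : Rect a b c d = T h e ∪ T h w) (hWT : W = T h e ∩ T h v) :
    ∃ (t : ℂ → X) (S O : Set ℂ), Att (gM K ψ h Sg) t S O ∧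
      gM K ψ h (insert w (insert e Sg)) = gM K ψ h Sg ∪ t '' CD := by
  have hKO : ∀ z ∈ T h e ∪ T h w, ψ z ∉ K := by
    rintro z (hz | hz)
    · exact disjoint_left.mp he ⟨z, hz, rfl⟩
    · exact disjoint_left.mp hw ⟨z, hz, rfl⟩
  obtain ⟨t, S, O, hatt, htR⟩ := hRATT X ψ hψ (gM K ψ h Sg) a b c d W hab hcd hW (by
    rw [hR, hWT]
    ext q
    constructor
    · rintro ⟨⟨z, hz, rfl⟩, hq⟩
      rcases hq with hq | ⟨z', hz', hzz⟩
      · exact absurd hq (hKO z hz)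
      · have : z' = z := hψ.injective hzz
        subst this
        obtain ⟨c', hc', hzc⟩ := mem_iUnion₂.mp hz'
        exact ⟨z', hS c' hc' z' hz (gr5_pc_sub K ψ h c' hzc), rfl⟩
    · rintro ⟨z, ⟨hz1, hz2⟩, rfl⟩
      refine ⟨⟨z, Or.inl hz1, rfl⟩, Or.inr ⟨z, mem_iUnion₂.mpr ⟨v, hv, ?_⟩, rfl⟩⟩
      exact subset_closure ⟨hz2, hKO z (Or.inl hz1)⟩)
  refine ⟨t, S, O, hatt, ?_⟩
  rw [htR, hR]
  show K ∪ ψ '' _ = K ∪ ψ '' _ ∪ ψ '' _
  rw [union_assoc, ← image_union]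
  congr 2
  ext z
  simp only [mem_iUnion, Finset.mem_insert, mem_union, exists_prop]
  constructor
  · rintro ⟨c', rfl | rfl | hc', hz⟩
    · exact Or.inr (Or.inr (gr5_pc_sub K ψ h _ hz))
    · exact Or.inr (Or.inl (gr5_pc_sub K ψ h _ hz))
    · exact Or.inl ⟨c', hc', hz⟩
  · rintro (⟨c', hc', hz⟩ | hz | hz)
    · exact ⟨c', Or.inr (Or.inr hc'), hz⟩
    · exact ⟨e, Or.inr (Or.inl rfl), by rw [gr5_pc_eq he]; exact hz⟩
    · exact ⟨w, Or.inl rfl, by rw [gr5_pc_eq hw]; exact hz⟩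

end

/-- Neighbours. -/
theorem gr5_adj {c c' : ℤ × ℤ} (hc : Adj c c') :
    ((c.1 - c'.1 = 1 ∨ c.1 - c'.1 = -1) ∧ c.2 = c'.2) ∨
      (c.1 = c'.1 ∧ (c.2 - c'.2 = 1 ∨ c.2 - c'.2 = -1)) := by
  unfold Adj at hc
  rcases abs_cases (c.1 - c'.1) with ⟨h1, h2⟩ | ⟨h1, h2⟩ <;>
  rcases abs_cases (c.2 - c'.2) with ⟨h3, h4⟩ | ⟨h3, h4⟩ <;>
  rw [h1, h3] at hc <;> omega

theorem gr5_adj' {c c' : ℤ × ℤ} (hc : ((c.1 - c'.1 = 1 ∨ c.1 - c'.1 = -1) ∧ c.2 = c'.2) ∨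
      (c.1 = c'.1 ∧ (c.2 - c'.2 = 1 ∨ c.2 - c'.2 = -1))) : Adj c c' := by
  unfold Adj
  rcases hc with ⟨h | h, h'⟩ | ⟨h', h | h⟩
  · rw [h, h']; simp
  · rw [h, h']; simp
  · rw [h, h']; simp
  · rw [h, h']; simp

theorem gr5_odd {m : ℤ} : ¬ Even m → Odd m := Int.not_even_iff_odd.mp

theorem thm_GR5 (_hGR1 : St_GR1) (hRATT : St_RATT) : St_GR5 := by
  intro X _ hX K ψ N L hctx h hh Sg w e v hSg hwN heN hw he hv hOw hOe hew hev hvw hvS hwS heS
    hnadj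
  have hcore := gr5_core (X := X) hRATT (K := K) hctx.emb (h := h) (Sg := Sg) hOw hOe hvS
  -- cells of `Sg` do not touch the vertex cell `w`
  have hSw : ∀ c ∈ Sg, ∀ z, z ∈ T h w → z ∉ T h c := by
    intro c hc z hz hzc
    rw [gr5_mem] at hz hzc
    obtain ⟨h1, h2⟩ := gr5_int hh hz.1.1 hz.1.2 hzc.1.1 hzc.1.2
    obtain ⟨h3, h4⟩ := gr5_int hh hz.2.1 hz.2.2 hzc.2.1 hzc.2.2
    obtain ⟨k, hk⟩ := hw.1
    obtain ⟨l, hl⟩ := hw.2
    have hne : c ≠ w := fun h => hwS (h ▸ hc)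
    have hne' : ¬ (c.1 = w.1 ∧ c.2 = w.2) := fun h => hne (Prod.ext h.1 h.2)
    have hF := (hSg c hc).2
    have hodd : ¬ ((c.1 - w.1 = 1 ∨ c.1 - w.1 = -1) ∧ (c.2 - w.2 = 1 ∨ c.2 - w.2 = -1)) := by
      rintro ⟨h5, h6⟩
      refine hF ⟨?_, ?_⟩
      · rw [Int.odd_iff]; omega
      · rw [Int.odd_iff]; omega
    refine hnadj c hc (gr5_adj' ?_)
    omega
  obtain ⟨k, hk⟩ := hw.1
  obtain ⟨l, hl⟩ := hw.2
  obtain ⟨k', hk'⟩ := hv.1
  obtain ⟨l', hl'⟩ := hv.2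
  have hvw' : ¬ (v.1 = w.1 ∧ v.2 = w.2) := fun h => hvw (Prod.ext h.1 h.2)
  rcases gr5_adj hew with ⟨h1, h2⟩ | ⟨h1, h2⟩
  · -- horizontal case
    have hv2 : v.2 = e.2 := by
      rcases gr5_adj hev with ⟨-, h3⟩ | ⟨h3, -⟩
      · exact h3.symm
      · omega
    have hv1 : v.1 - e.1 = e.1 - w.1 := by
      rcases gr5_adj hev with ⟨h4, -⟩ | ⟨-, h4⟩ <;> omega
    have hS : ∀ c ∈ Sg, ∀ z, z ∈ T h e ∪ T h w → z ∈ T h c → z ∈ T h e ∧ z ∈ T h v := by
      rintro c hc z (hz | hz) hzc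
      swap
      · exact absurd hzc (hSw c hc z hz)
      refine ⟨hz, ?_⟩
      rw [gr5_mem] at hz hzc ⊢
      obtain ⟨h5, h6⟩ := gr5_int hh hz.1.1 hz.1.2 hzc.1.1 hzc.1.2
      obtain ⟨h7, h8⟩ := gr5_int hh hz.2.1 hz.2.2 hzc.2.1 hzc.2.2
      have hne' : ¬ (c.1 = e.1 ∧ c.2 = e.2) := fun h => heS (by
        have : c = e := Prod.ext h.1 h.2
        rwa [this] at hc)
      have hne'' : ¬ (c.1 = w.1 ∧ c.2 = w.2) := fun h => hwS (by
        have : c = w := Prod.ext h.1 h.2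
        rwa [this] at hc)
      have hF := (hSg c hc).2
      have hodd : ¬ (c.1 = e.1 ∧ (c.2 - e.2 = 1 ∨ c.2 - e.2 = -1)) := by
        rintro ⟨h9, h10⟩
        refine hF ⟨?_, ?_⟩
        · rw [Int.odd_iff]; omega
        · rw [Int.odd_iff]; omega
      have hna : ¬ (((c.1 - w.1 = 1 ∨ c.1 - w.1 = -1) ∧ c.2 = w.2) ∨
          (c.1 = w.1 ∧ (c.2 - w.2 = 1 ∨ c.2 - w.2 = -1))) := fun h => hnadj c hc (gr5_adj' h)
      have hcv : c.1 = v.1 := by omega
      rw [hv2, ← hcv]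
      exact ⟨hzc.1, hz.2⟩
    have hv2r : (v.2 : ℝ) = e.2 := by exact_mod_cast hv2
    have he2r : (e.2 : ℝ) = w.2 := by exact_mod_cast h2
    rcases h1 with h1 | h1
    · have he1 : (e.1 : ℝ) = w.1 + 1 := by
        have : e.1 = w.1 + 1 := by omega
        exact_mod_cast this
      have hv1r : (v.1 : ℝ) = w.1 + 2 := by
        have : v.1 = w.1 + 2 := by omega
        exact_mod_cast this
      refine hcore hS (a := h * w.1 - h / 2) (b := h * w.1 + 3 * h / 2) (c := h * w.2 - h / 2)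
        (d := h * w.2 + h / 2) (by linarith) (by linarith) RSel.right ?_ ?_
      · ext z
        rw [mem_union, gr5_mem, gr5_mem, he1, he2r]
        show ((_ ≤ _ ∧ _ ≤ _) ∧ (_ ≤ _ ∧ _ ≤ _)) ↔ _
        constructor
        · rintro ⟨⟨a1, a2⟩, a3, a4⟩
          rcases le_total (h * w.1 + h / 2) z.re with a5 | a5
          · exact Or.inl ⟨⟨by linarith, by linarith⟩, by linarith, by linarith⟩
          · exact Or.inr ⟨⟨by linarith, by linarith⟩, by linarith, by linarith⟩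
        · rintro (⟨⟨a1, a2⟩, a3, a4⟩ | ⟨⟨a1, a2⟩, a3, a4⟩)
          · exact ⟨⟨by linarith, by linarith⟩, by linarith, by linarith⟩
          · exact ⟨⟨by linarith, by linarith⟩, by linarith, by linarith⟩
      · ext z
        rw [mem_inter_iff, gr5_mem, gr5_mem, he1, hv1r, hv2r, he2r]
        show ((_ ≤ _ ∧ _ ≤ _) ∧ (_ ≤ _ ∧ _ ≤ _)) ↔ _
        constructor
        · rintro ⟨⟨a1, a2⟩, a3, a4⟩
          exact ⟨⟨⟨by linarith, by linarith⟩, by linarith, by linarith⟩,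
            ⟨by linarith, by linarith⟩, by linarith, by linarith⟩
        · rintro ⟨⟨⟨a1, a2⟩, a3, a4⟩, ⟨a5, a6⟩, a7, a8⟩
          exact ⟨⟨by linarith, by linarith⟩, by linarith, by linarith⟩
    · have he1 : (e.1 : ℝ) = w.1 - 1 := by
        have : e.1 = w.1 - 1 := by omega
        exact_mod_cast this
      have hv1r : (v.1 : ℝ) = w.1 - 2 := by
        have : v.1 = w.1 - 2 := by omega
        exact_mod_cast this
      refine hcore hS (a := h * w.1 - 3 * h / 2) (b := h * w.1 + h / 2) (c := h * w.2 - h / 2)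
        (d := h * w.2 + h / 2) (by linarith) (by linarith) RSel.left ?_ ?_
      · ext z
        rw [mem_union, gr5_mem, gr5_mem, he1, he2r]
        show ((_ ≤ _ ∧ _ ≤ _) ∧ (_ ≤ _ ∧ _ ≤ _)) ↔ _
        constructor
        · rintro ⟨⟨a1, a2⟩, a3, a4⟩
          rcases le_total z.re (h * w.1 - h / 2) with a5 | a5
          · exact Or.inl ⟨⟨by linarith, by linarith⟩, by linarith, by linarith⟩
          · exact Or.inr ⟨⟨by linarith, by linarith⟩, by linarith, by linarith⟩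
        · rintro (⟨⟨a1, a2⟩, a3, a4⟩ | ⟨⟨a1, a2⟩, a3, a4⟩)
          · exact ⟨⟨by linarith, by linarith⟩, by linarith, by linarith⟩
          · exact ⟨⟨by linarith, by linarith⟩, by linarith, by linarith⟩
      · ext z
        rw [mem_inter_iff, gr5_mem, gr5_mem, he1, hv1r, hv2r, he2r]
        show ((_ ≤ _ ∧ _ ≤ _) ∧ (_ ≤ _ ∧ _ ≤ _)) ↔ _
        constructor
        · rintro ⟨⟨a1, a2⟩, a3, a4⟩
          exact ⟨⟨⟨by linarith, by linarith⟩, by linarith, by linarith⟩,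
            ⟨by linarith, by linarith⟩, by linarith, by linarith⟩
        · rintro ⟨⟨⟨a1, a2⟩, a3, a4⟩, ⟨a5, a6⟩, a7, a8⟩
          exact ⟨⟨by linarith, by linarith⟩, by linarith, by linarith⟩
  · -- vertical case
    have hv1 : v.1 = e.1 := by
      rcases gr5_adj hev with ⟨-, h3⟩ | ⟨h3, -⟩
      · omega
      · exact h3.symm
    have hv2 : v.2 - e.2 = e.2 - w.2 := by
      rcases gr5_adj hev with ⟨h4, -⟩ | ⟨-, h4⟩ <;> omega
    have hS : ∀ c ∈ Sg, ∀ z, z ∈ T h e ∪ T h w → z ∈ T h c → z ∈ T h e ∧ z ∈ T h v := by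
      rintro c hc z (hz | hz) hzc
      swap
      · exact absurd hzc (hSw c hc z hz)
      refine ⟨hz, ?_⟩
      rw [gr5_mem] at hz hzc ⊢
      obtain ⟨h5, h6⟩ := gr5_int hh hz.1.1 hz.1.2 hzc.1.1 hzc.1.2
      obtain ⟨h7, h8⟩ := gr5_int hh hz.2.1 hz.2.2 hzc.2.1 hzc.2.2
      have hne' : ¬ (c.1 = e.1 ∧ c.2 = e.2) := fun h => heS (by
        have : c = e := Prod.ext h.1 h.2
        rwa [this] at hc)
      have hne'' : ¬ (c.1 = w.1 ∧ c.2 = w.2) := fun h => hwS (by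
        have : c = w := Prod.ext h.1 h.2
        rwa [this] at hc)
      have hF := (hSg c hc).2
      have hodd : ¬ (c.2 = e.2 ∧ (c.1 - e.1 = 1 ∨ c.1 - e.1 = -1)) := by
        rintro ⟨h9, h10⟩
        refine hF ⟨?_, ?_⟩
        · rw [Int.odd_iff]; omega
        · rw [Int.odd_iff]; omega
      have hna : ¬ (((c.1 - w.1 = 1 ∨ c.1 - w.1 = -1) ∧ c.2 = w.2) ∨
          (c.1 = w.1 ∧ (c.2 - w.2 = 1 ∨ c.2 - w.2 = -1))) := fun h => hnadj c hc (gr5_adj' h)
      have hcv : c.2 = v.2 := by omega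
      rw [hv1, ← hcv]
      exact ⟨hz.1, hzc.2⟩
    have hv1r : (v.1 : ℝ) = e.1 := by exact_mod_cast hv1
    have he1r : (e.1 : ℝ) = w.1 := by exact_mod_cast h1
    rcases h2 with h2 | h2
    · have he2 : (e.2 : ℝ) = w.2 + 1 := by
        have : e.2 = w.2 + 1 := by omega
        exact_mod_cast this
      have hv2r : (v.2 : ℝ) = w.2 + 2 := by
        have : v.2 = w.2 + 2 := by omega
        exact_mod_cast this
      refine hcore hS (a := h * w.1 - h / 2) (b := h * w.1 + h / 2) (c := h * w.2 - h / 2)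
        (d := h * w.2 + 3 * h / 2) (by linarith) (by linarith) RSel.top ?_ ?_
      · ext z
        rw [mem_union, gr5_mem, gr5_mem, he2, he1r]
        show ((_ ≤ _ ∧ _ ≤ _) ∧ (_ ≤ _ ∧ _ ≤ _)) ↔ _
        constructor
        · rintro ⟨⟨a1, a2⟩, a3, a4⟩
          rcases le_total (h * w.2 + h / 2) z.im with a5 | a5
          · exact Or.inl ⟨⟨by linarith, by linarith⟩, by linarith, by linarith⟩
          · exact Or.inr ⟨⟨by linarith, by linarith⟩, by linarith, by linarith⟩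
        · rintro (⟨⟨a1, a2⟩, a3, a4⟩ | ⟨⟨a1, a2⟩, a3, a4⟩)
          · exact ⟨⟨by linarith, by linarith⟩, by linarith, by linarith⟩
          · exact ⟨⟨by linarith, by linarith⟩, by linarith, by linarith⟩
      · ext z
        rw [mem_inter_iff, gr5_mem, gr5_mem, he2, hv2r, hv1r, he1r]
        show ((_ ≤ _ ∧ _ ≤ _) ∧ (_ ≤ _ ∧ _ ≤ _)) ↔ _
        constructor
        · rintro ⟨⟨a1, a2⟩, a3, a4⟩
          exact ⟨⟨⟨by linarith, by linarith⟩, by linarith, by linarith⟩,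
            ⟨by linarith, by linarith⟩, by linarith, by linarith⟩
        · rintro ⟨⟨⟨a1, a2⟩, a3, a4⟩, ⟨a5, a6⟩, a7, a8⟩
          exact ⟨⟨by linarith, by linarith⟩, by linarith, by linarith⟩
    · have he2 : (e.2 : ℝ) = w.2 - 1 := by
        have : e.2 = w.2 - 1 := by omega
        exact_mod_cast this
      have hv2r : (v.2 : ℝ) = w.2 - 2 := by
        have : v.2 = w.2 - 2 := by omega
        exact_mod_cast this
      refine hcore hS (a := h * w.1 - h / 2) (b := h * w.1 + h / 2) (c := h * w.2 - 3 * h / 2)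
        (d := h * w.2 + h / 2) (by linarith) (by linarith) RSel.bottom ?_ ?_
      · ext z
        rw [mem_union, gr5_mem, gr5_mem, he2, he1r]
        show ((_ ≤ _ ∧ _ ≤ _) ∧ (_ ≤ _ ∧ _ ≤ _)) ↔ _
        constructor
        · rintro ⟨⟨a1, a2⟩, a3, a4⟩
          rcases le_total z.im (h * w.2 - h / 2) with a5 | a5
          · exact Or.inl ⟨⟨by linarith, by linarith⟩, by linarith, by linarith⟩
          · exact Or.inr ⟨⟨by linarith, by linarith⟩, by linarith, by linarith⟩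
        · rintro (⟨⟨a1, a2⟩, a3, a4⟩ | ⟨⟨a1, a2⟩, a3, a4⟩)
          · exact ⟨⟨by linarith, by linarith⟩, by linarith, by linarith⟩
          · exact ⟨⟨by linarith, by linarith⟩, by linarith, by linarith⟩
      · ext z
        rw [mem_inter_iff, gr5_mem, gr5_mem, he2, hv2r, hv1r, he1r]
        show ((_ ≤ _ ∧ _ ≤ _) ∧ (_ ≤ _ ∧ _ ≤ _)) ↔ _
        constructor
        · rintro ⟨⟨a1, a2⟩, a3, a4⟩
          exact ⟨⟨⟨by linarith, by linarith⟩, by linarith, by linarith⟩,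
            ⟨by linarith, by linarith⟩, by linarith, by linarith⟩
        · rintro ⟨⟨⟨a1, a2⟩, a3, a4⟩, ⟨a5, a6⟩, a7, a8⟩
          exact ⟨⟨by linarith, by linarith⟩, by linarith, by linarith⟩

end Pool.Agent.SRF
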