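import Pool.Agent.SRF.GR1
import Pool.Agent.SRF.GR5

set_option autoImplicit false

/-! # SRF GR4: attaching single cells. -/

open Set Metric Filter Topology

namespace Pool.Agent.SRF

section

variable {X : Type} [TopologicalSpace X]

omit [TopologicalSpace X] in
theorem gr4_insert (K : Set X) (ψ : ℂ → X) (h : ℝ) (Sg : Finset (ℤ × ℤ)) (v : ℤ × ℤ) :
    gM K ψ h (insert v Sg) = gM K ψ h Sg ∪ ψ '' pc K ψ h v := by
  show K ∪ ψ '' _ = K ∪ ψ '' _ ∪ ψ '' _
  rw [union_assoc, ← image_union]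
  congr 2
  ext z
  simp only [mem_iUnion, Finset.mem_insert, mem_union, exists_prop]
  constructor
  · rintro ⟨c', rfl | hc', hz⟩
    · exact Or.inr hz
    · exact Or.inl ⟨c', hc', hz⟩
  · rintro (⟨c', hc', hz⟩ | hz)
    · exact ⟨c', Or.inr hc', hz⟩
    · exact ⟨v, Or.inl rfl, hz⟩

/-- The topological part. -/
theorem gr4_core (hRATT : St_RATT) {K : Set X} {ψ : ℂ → X} (hψ : IsOpenEmbedding ψ) {h : ℝ}
    {Sg : Finset (ℤ × ℤ)} {v : ℤ × ℤ} {a b c d : ℝ} {W : Set ℂ} (hab : a < b) (hcd : c < d)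
    (hW : RSel a b c d W) (hR : Rect a b c d = pc K ψ h v) (hWR : W ⊆ Rect a b c d)
    (h1 : ∀ z ∈ W, ψ z ∈ K ∨ ∃ c ∈ Sg, z ∈ pc K ψ h c)
    (h2 : ∀ z ∈ Rect a b c d, ψ z ∈ K → z ∈ W)
    (h3 : ∀ z ∈ Rect a b c d, ∀ c ∈ Sg, z ∈ pc K ψ h c → z ∈ W) :
    ∃ (t : ℂ → X) (S O : Set ℂ), Att (gM K ψ h Sg) t S O ∧
      gM K ψ h (insert v Sg) = gM K ψ h Sg ∪ t '' CD := by
  obtain ⟨t, S, O, hatt, htR⟩ := hRATT X ψ hψ (gM K ψ h Sg) a b c d W hab hcd hW (by
    ext q
    constructor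
    · rintro ⟨⟨z, hz, rfl⟩, hq⟩
      rcases hq with hq | ⟨z', hz', hzz⟩
      · exact ⟨z, h2 z hz hq, rfl⟩
      · have : z' = z := hψ.injective hzz
        subst this
        obtain ⟨c', hc', hzc⟩ := mem_iUnion₂.mp hz'
        exact ⟨z', h3 z' hz c' hc' hzc, rfl⟩
    · rintro ⟨z, hz, rfl⟩
      refine ⟨⟨z, hWR hz, rfl⟩, ?_⟩
      rcases h1 z hz with h4 | ⟨c', hc', hzc⟩
      · exact Or.inl h4
      · exact Or.inr ⟨z, mem_iUnion₂.mpr ⟨c', hc', hzc⟩, rfl⟩)
  refine ⟨t, S, O, hatt, ?_⟩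
  rw [gr4_insert, htR, hR]

end

theorem thm_GR4 (hGR1 : St_GR1) (hRATT : St_RATT) : St_GR4 := by
  intro X _ hX K ψ N L hctx h hh
  refine ⟨?_, ?_⟩
  · intro Sg v σ hSg hv hvN hvS hSL
    obtain ⟨hv2, hσ, hK⟩ := hSL
    have hpc := (gr1_SL hh hv2 σ hσ (fun z hz h1 => (hK z hz).2 h1)
      (fun z hz h1 h2 => absurd ((hK z hz).1 h2) (not_le.2 h1))).2
    -- other vertex cells do not touch `v`
    have hno : ∀ c ∈ Sg, ∀ z, z ∈ T h v → z ∉ T h c := by
      intro c hc z hz hzc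
      rw [gr5_mem] at hz hzc
      obtain ⟨h1, h2⟩ := gr5_int hh hz.1.1 hz.1.2 hzc.1.1 hzc.1.2
      obtain ⟨h3, h4⟩ := gr5_int hh hz.2.1 hz.2.2 hzc.2.1 hzc.2.2
      obtain ⟨k, hk⟩ := hv.1
      obtain ⟨l, hl⟩ := hv.2
      obtain ⟨k', hk'⟩ := (hSg c hc).2.1
      obtain ⟨l', hl'⟩ := (hSg c hc).2.2
      have hne : c ≠ v := fun h => hvS (h ▸ hc)
      exact hne (Prod.ext (by omega) (by omega))
    have hRsub : ∀ z ∈ pc K ψ h v, ∀ c ∈ Sg, z ∉ pc K ψ h c := fun z hz c hc hzc =>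
      hno c hc z (gr5_pc_sub K ψ h v hz) (gr5_pc_sub K ψ h c hzc)
    have hside : ∀ z ∈ pc K ψ h v, (ψ z ∈ K ↔ z.im = 0) := by
      intro z hz
      rw [hpc] at hz
      rw [hK z hz.1]
      have hz2 := hz.2
      constructor
      · intro h1
        have h2 : σ * z.im = 0 := le_antisymm hz2 h1
        rcases mul_eq_zero.1 h2 with h3 | h3
        · rcases hσ with h4 | h4 <;> rw [h4] at h3 <;> norm_num at h3
        · exact h3
      · intro h1
        rw [h1, mul_zero]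
    rcases hσ with hσ | hσ
    · -- the lower half is added
      have hR : Rect (h * v.1 - h / 2) (h * v.1 + h / 2) (-(h / 2)) 0 = pc K ψ h v := by
        rw [hpc, hσ]
        ext z
        show z.re ∈ Icc _ _ ∧ z.im ∈ Icc _ _ ↔ z ∈ T h v ∧ 1 * z.im ≤ 0
        rw [gr5_mem, hv2, mem_Icc, mem_Icc]
        simp only [Int.cast_zero, mul_zero, zero_sub, zero_add, one_mul]
        constructor
        · rintro ⟨⟨h1, h2⟩, h3, h4⟩
          exact ⟨⟨⟨h1, h2⟩, h3, by linarith⟩, h4⟩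
        · rintro ⟨⟨⟨h1, h2⟩, h3, h4⟩, h5⟩
          exact ⟨⟨h1, h2⟩, h3, h5⟩
      refine gr4_core hRATT hctx.emb (by linarith) (by linarith) RSel.top hR ?_ ?_ ?_ ?_
      · rintro z ⟨h1, h2⟩
        exact ⟨h1, by linarith [h2.1], h2.2⟩
      · rintro z ⟨h1, h2⟩
        left
        refine (hside z ?_).2 (le_antisymm h2.2 h2.1)
        rw [← hR]
        exact ⟨h1, by linarith [h2.1], h2.2⟩
      · intro z hz hzK
        have h1 := (hside z (hR ▸ hz)).1 hzK
        exact ⟨hz.1, by rw [h1], by rw [h1]⟩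
      · intro z hz c hc hzc
        exact absurd hzc (hRsub z (hR ▸ hz) c hc)
    · -- the upper half is added
      have hR : Rect (h * v.1 - h / 2) (h * v.1 + h / 2) 0 (h / 2) = pc K ψ h v := by
        rw [hpc, hσ]
        ext z
        show z.re ∈ Icc _ _ ∧ z.im ∈ Icc _ _ ↔ z ∈ T h v ∧ -1 * z.im ≤ 0
        rw [gr5_mem, hv2, mem_Icc, mem_Icc]
        simp only [Int.cast_zero, mul_zero, zero_sub, zero_add]
        constructor
        · rintro ⟨⟨h1, h2⟩, h3, h4⟩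
          exact ⟨⟨⟨h1, h2⟩, by linarith, h4⟩, by linarith⟩
        · rintro ⟨⟨⟨h1, h2⟩, h3, h4⟩, h5⟩
          exact ⟨⟨h1, h2⟩, by linarith, h4⟩
      refine gr4_core hRATT hctx.emb (by linarith) (by linarith) RSel.bottom hR ?_ ?_ ?_ ?_
      · rintro z ⟨h1, h2⟩
        exact ⟨h1, h2.1, by linarith [h2.2]⟩
      · rintro z ⟨h1, h2⟩
        left
        refine (hside z ?_).2 (le_antisymm h2.2 h2.1)
        rw [← hR]
        exact ⟨h1, h2.1, by linarith [h2.2]⟩
      · intro z hz hzK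
        have h1 := (hside z (hR ▸ hz)).1 hzK
        exact ⟨hz.1, by rw [h1], by rw [h1]⟩
      · intro z hz c hc hzc
        exact absurd hzc (hRsub z (hR ▸ hz) c hc)
  · intro Sg f hSg hf hblk hfS hSO hall
    have hmiss : ∀ z ∈ T h f, ψ z ∉ K := fun z hz => disjoint_left.1 hSO ⟨z, hz, rfl⟩
    have hR : Rect (h * f.1 - h / 2) (h * f.1 + h / 2) (h * f.2 - h / 2) (h * f.2 + h / 2) =
        pc K ψ h f := by
      rw [gr5_pc_eq hSO]
      ext z
      rw [gr5_mem]
      rfl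
    -- common points with other cells of the block
    have hcom : ∀ c ∈ blk f, c ≠ f → ∀ z ∈ T h f, z ∈ T h c → c ∈ Sg ∧ z ∈ pc K ψ h c := by
      intro c hc hcf z hz hzc
      have hnK := hmiss z hz
      refine ⟨hall c hc hcf fun hSK => hnK (hSK ⟨z, hzc, rfl⟩), subset_closure ⟨hzc, hnK⟩⟩
    have hblkm : ∀ i j : ℤ, (i = 0 ∨ i = 1 ∨ i = -1) → (j = 0 ∨ j = 1 ∨ j = -1) →
        ((f.1 + i, f.2 + j) : ℤ × ℤ) ∈ blk f := by
      intro i j hi hj
      unfold blk
      rw [Finset.mem_product, Finset.mem_Icc, Finset.mem_Icc]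
      dsimp only
      omega
    have hsub : Rect (h * f.1 - h / 2) (h * f.1 - h / 2) (h * f.2 - h / 2) (h * f.2 + h / 2) ∪
        Rect (h * f.1 - h / 2) (h * f.1 + h / 2) (h * f.2 - h / 2) (h * f.2 - h / 2) ∪
        Rect (h * f.1 + h / 2) (h * f.1 + h / 2) (h * f.2 - h / 2) (h * f.2 + h / 2) ∪
        Rect (h * f.1 - h / 2) (h * f.1 + h / 2) (h * f.2 + h / 2) (h * f.2 + h / 2) ⊆
        Rect (h * f.1 - h / 2) (h * f.1 + h / 2) (h * f.2 - h / 2) (h * f.2 + h / 2) := by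
      rintro z (((hz | hz) | hz) | hz)
      · exact ⟨⟨hz.1.1, by linarith [hz.1.2]⟩, hz.2⟩
      · exact ⟨hz.1, hz.2.1, by linarith [hz.2.2]⟩
      · exact ⟨⟨by linarith [hz.1.1], hz.1.2⟩, hz.2⟩
      · exact ⟨hz.1, by linarith [hz.2.1], hz.2.2⟩
    refine gr4_core hRATT hctx.emb (by linarith) (by linarith) RSel.all hR hsub ?_ ?_ ?_
    · intro z hz
      right
      have hzR := hsub hz
      have hzT : z ∈ T h f := by rw [gr5_mem]; exact hzR
      have hfin : ∀ i j : ℤ, (i = 0 ∨ i = 1 ∨ i = -1) → (j = 0 ∨ j = 1 ∨ j = -1) →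
          ¬ (i = 0 ∧ j = 0) → z ∈ T h (f.1 + i, f.2 + j) → ∃ c ∈ Sg, z ∈ pc K ψ h c := by
        intro i j hi hj hij hzc
        refine ⟨_, hcom _ (hblkm i j hi hj) ?_ z hzT hzc⟩
        intro hcon
        have h1 := congrArg Prod.fst hcon
        have h2 := congrArg Prod.snd hcon
        dsimp only at h1 h2
        omega
      obtain ⟨⟨a1, a2⟩, a3, a4⟩ := hzR
      rcases hz with ((hz | hz) | hz) | hz
      · refine hfin (-1) 0 (by omega) (by omega) (by omega) ?_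
        rw [gr5_mem]
        push_cast
        have b1 := hz.1.1
        have b2 := hz.1.2
        refine ⟨⟨by linarith, by linarith⟩, by linarith, by linarith⟩
      · refine hfin 0 (-1) (by omega) (by omega) (by omega) ?_
        rw [gr5_mem]
        push_cast
        have b1 := hz.2.1
        have b2 := hz.2.2
        refine ⟨⟨by linarith, by linarith⟩, by linarith, by linarith⟩
      · refine hfin 1 0 (by omega) (by omega) (by omega) ?_
        rw [gr5_mem]
        push_cast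
        have b1 := hz.1.1
        have b2 := hz.1.2
        refine ⟨⟨by linarith, by linarith⟩, by linarith, by linarith⟩
      · refine hfin 0 1 (by omega) (by omega) (by omega) ?_
        rw [gr5_mem]
        push_cast
        have b1 := hz.2.1
        have b2 := hz.2.2
        refine ⟨⟨by linarith, by linarith⟩, by linarith, by linarith⟩
    · intro z hz hzK
      have hzT : z ∈ T h f := by rw [gr5_mem]; exact hz
      exact absurd hzK (hmiss z hzT)
    · intro z hz c hc hzc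
      have hzc' := gr5_pc_sub K ψ h c hzc
      have hcf : c ≠ f := fun h => hfS (h ▸ hc)
      rw [gr5_mem] at hzc'
      obtain ⟨⟨a1, a2⟩, a3, a4⟩ := hz
      obtain ⟨⟨b1, b2⟩, b3, b4⟩ := hzc'
      obtain ⟨h1, h2⟩ := gr5_int hh a1 a2 b1 b2
      obtain ⟨h3, h4⟩ := gr5_int hh a3 a4 b3 b4
      have hcase : c.1 = f.1 + 1 ∨ c.1 = f.1 - 1 ∨ c.2 = f.2 + 1 ∨ c.2 = f.2 - 1 := by
        by_contra hcon
        push Not at hcon
        exact hcf (Prod.ext (by omega) (by omega))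
      have hcast : ∀ m n k : ℤ, m = n + k → h * (m : ℝ) = h * n + h * k := fun m n k h' => by
        rw [h']; push_cast; ring
      rcases hcase with h5 | h5 | h5 | h5
      · have h6 := hcast _ _ _ h5
        push_cast at h6
        exact Or.inl (Or.inr ⟨⟨by linarith, a2⟩, a3, a4⟩)
      · have h6 := hcast c.1 f.1 (-1) h5
        push_cast at h6
        exact Or.inl (Or.inl (Or.inl ⟨⟨a1, by linarith⟩, a3, a4⟩))
      · have h6 := hcast _ _ _ h5
        push_cast at h6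
        exact Or.inr ⟨⟨a1, a2⟩, by linarith, a4⟩
      · have h6 := hcast c.2 f.2 (-1) h5
        push_cast at h6
        exact Or.inl (Or.inl (Or.inr ⟨⟨a1, a2⟩, a3, by linarith⟩))

end Pool.Agent.SRF
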