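import Pool.Agent.SRF.StB

set_option autoImplicit false

/-! # SRF, GR6 (helper96): attaching an edge cell between two vertex cells -/

open Set Metric Filter Topology

namespace Pool.Agent.SRF

private theorem gr6_adj (h : ℝ) (hh : 0 < h) (x : ℝ) (m k : ℤ) (h1 : |x - h * m| ≤ h / 2)
    (h2 : |x - h * k| ≤ h / 2) :
    k = m ∨ (k = m - 1 ∧ x = h * m - h / 2) ∨ (k = m + 1 ∧ x = h * m + h / 2) := by
  rw [abs_le] at h1 h2
  have h3 : k ≤ m + 1 := by
    by_contra hcon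
    have h4 : m + 2 ≤ k := by omega
    have h5 : (m : ℝ) + 2 ≤ k := by exact_mod_cast h4
    have h6 : h * ((m : ℝ) + 2) ≤ h * k := mul_le_mul_of_nonneg_left h5 hh.le
    nlinarith [h1.1, h1.2, h2.1, h2.2]
  have h3' : m - 1 ≤ k := by
    by_contra hcon
    have h4 : k + 2 ≤ m := by omega
    have h5 : (k : ℝ) + 2 ≤ m := by exact_mod_cast h4
    have h6 : h * ((k : ℝ) + 2) ≤ h * m := mul_le_mul_of_nonneg_left h5 hh.le
    nlinarith [h1.1, h1.2, h2.1, h2.2]
  rcases (by omega : k = m ∨ k = m - 1 ∨ k = m + 1) with h4 | h4 | h4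
  · exact Or.inl h4
  · refine Or.inr (Or.inl ⟨h4, ?_⟩)
    rw [h4] at h2
    push_cast at h2
    linarith [h1.1, h2.2]
  · refine Or.inr (Or.inr ⟨h4, ?_⟩)
    rw [h4] at h2
    push_cast at h2
    linarith [h1.2, h2.1]

private theorem gr6_closed (h : ℝ) (c : ℤ × ℤ) : IsClosed (T h c) := by
  have h1 : IsClosed {z : ℂ | |z.re - h * c.1| ≤ h / 2} :=
    isClosed_le ((Complex.continuous_re.sub continuous_const).abs) continuous_const
  have h2 : IsClosed {z : ℂ | |z.im - h * c.2| ≤ h / 2} :=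
    isClosed_le ((Complex.continuous_im.sub continuous_const).abs) continuous_const
  exact h1.inter h2

section

variable {X : Type} [TopologicalSpace X]

private theorem gr6_pcT (K : Set X) (ψ : ℂ → X) (h : ℝ) (c : ℤ × ℤ) : pc K ψ h c ⊆ T h c :=
  closure_minimal (fun z hz => hz.1) (gr6_closed h c)

private theorem gr6_pc (K : Set X) (ψ : ℂ → X) (h : ℝ) (c : ℤ × ℤ) (z : ℂ) (hz : z ∈ T h c)
    (hK : ψ z ∉ K) : z ∈ pc K ψ h c := subset_closure ⟨hz, hK⟩

private theorem gr6_gM (K : Set X) (ψ : ℂ → X) (hψ : Function.Injective ψ) (h : ℝ)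
    (Sg : Finset (ℤ × ℤ)) (z : ℂ) :
    ψ z ∈ gM K ψ h Sg ↔ ψ z ∈ K ∨ ∃ c ∈ Sg, z ∈ pc K ψ h c := by
  unfold gM
  constructor
  · rintro (h1 | ⟨w, hw, he⟩)
    · exact Or.inl h1
    · rw [hψ he] at hw
      simp only [mem_iUnion] at hw
      obtain ⟨c, hc, hw⟩ := hw
      exact Or.inr ⟨c, hc, hw⟩
  · rintro (h1 | ⟨c, hc, hz⟩)
    · exact Or.inl h1
    · refine Or.inr ⟨z, ?_, rfl⟩
      simp only [mem_iUnion]
      exact ⟨c, hc, hz⟩

private theorem gr6_fin (hR : St_RATT) (K : Set X) (ψ : ℂ → X) (hψ : IsOpenEmbedding ψ) (h : ℝ)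
    (Sg : Finset (ℤ × ℤ)) (e : ℤ × ℤ) (a b c d : ℝ) (W : Set ℂ) (hab : a < b) (hcd : c < d)
    (hsel : RSel a b c d W) (hpc : pc K ψ h e = Rect a b c d)
    (hW1 : ∀ z ∈ Rect a b c d, ψ z ∈ gM K ψ h Sg → z ∈ W)
    (hW2 : ∀ z ∈ W, z ∈ Rect a b c d ∧ ψ z ∈ gM K ψ h Sg) :
    ∃ (t : ℂ → X) (S O : Set ℂ), Att (gM K ψ h Sg) t S O ∧
      gM K ψ h (insert e Sg) = gM K ψ h Sg ∪ t '' CD := by
  obtain ⟨t, S, O, h1, h2⟩ := hR X ψ hψ (gM K ψ h Sg) a b c d W hab hcd hsel (by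
    ext x
    constructor
    · rintro ⟨⟨z, hz, rfl⟩, hx⟩
      exact ⟨z, hW1 z hz hx, rfl⟩
    · rintro ⟨z, hz, rfl⟩
      exact ⟨⟨z, (hW2 z hz).1, rfl⟩, (hW2 z hz).2⟩)
  refine ⟨t, S, O, h1, ?_⟩
  rw [h2, ← hpc]
  unfold gM
  rw [Finset.set_biUnion_insert, image_union, union_comm (ψ '' pc K ψ h e), union_assoc]

end

/-- GR6 -/
theorem thm_GR6 (hG : St_GR1) (hR : St_RATT) : St_GR6 := by
  intro X _ hX K ψ N L hC h hh Sg e hSg heN hE hSK hV heS
  have hinj : Function.Injective ψ := hC.emb.injective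
  have hTe : ∀ z, z ∈ T h e ↔ z ∈ Rect (h * e.1 - h / 2) (h * e.1 + h / 2) (h * e.2 - h / 2)
      (h * e.2 + h / 2) := by
    intro z
    unfold T Rect
    simp only [mem_ofPred_eq, abs_le, mem_Icc]
    constructor
    · rintro ⟨⟨h1, h2⟩, h3, h4⟩
      refine ⟨⟨?_, ?_⟩, ?_, ?_⟩ <;> linarith
    · rintro ⟨⟨h1, h2⟩, h3, h4⟩
      refine ⟨⟨?_, ?_⟩, ?_, ?_⟩ <;> linarith
  -- points of `T e` in other cells
  have hother : ∀ z ∈ T h e, ∀ c ∈ Sg, z ∈ pc K ψ h c →
      (Odd e.1 → z.re = h * e.1 - h / 2 ∨ z.re = h * e.1 + h / 2) ∧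
      (Odd e.2 → z.im = h * e.2 - h / 2 ∨ z.im = h * e.2 + h / 2) := by
    intro z hz c hc hzc
    have hzc' : z ∈ T h c := gr6_pcT K ψ h c hzc
    have hne : c ≠ e := fun h1 => heS (h1 ▸ hc)
    have hnF := (hSg c hc).2
    have h1 := gr6_adj h hh z.re e.1 c.1 hz.1 hzc'.1
    have h2 := gr6_adj h hh z.im e.2 c.2 hz.2 hzc'.2
    have hpar : ∀ m : ℤ, Odd m ↔ m % 2 = 1 := fun m => Int.odd_iff
    have hpar' : ∀ m : ℤ, Even m ↔ m % 2 = 0 := fun m => Int.even_iff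
    have hE' : ¬ (e.1 % 2 = 0 ∧ e.2 % 2 = 0) ∧ ¬ (e.1 % 2 = 1 ∧ e.2 % 2 = 1) := by
      have h3 := hE.1
      have h4 := hE.2
      unfold IsV at h3
      unfold IsF at h4
      rw [hpar', hpar'] at h3
      rw [hpar, hpar] at h4
      exact ⟨h3, h4⟩
    have hnF' : ¬ (c.1 % 2 = 1 ∧ c.2 % 2 = 1) := by
      unfold IsF at hnF
      rw [hpar, hpar] at hnF
      exact hnF
    have hne' : ¬ (c.1 = e.1 ∧ c.2 = e.2) := fun h3 => hne (Prod.ext h3.1 h3.2)
    constructor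
    · intro ho
      rw [hpar] at ho
      rcases h1 with h1 | h1 | h1
      · exfalso
        rcases h2 with h2 | h2 | h2 <;> omega
      · exact Or.inl h1.2
      · exact Or.inr h1.2
    · intro ho
      rw [hpar] at ho
      rcases h2 with h2 | h2 | h2
      · exfalso
        rcases h1 with h1 | h1 | h1 <;> omega
      · exact Or.inl h2.2
      · exact Or.inr h2.2
  -- the two neighbours
  have hVh : Odd e.1 → Even e.2 → (e.1 - 1, e.2) ∈ Sg ∧ (e.1 + 1, e.2) ∈ Sg := by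
    intro h1 h2
    constructor
    · refine hV _ ⟨?_, h2⟩ ?_
      · show Even (e.1 - 1)
        exact h1.sub_odd odd_one
      · show |e.1 - (e.1 - 1)| + |e.2 - e.2| = 1
        rw [sub_sub_cancel, sub_self]
        norm_num
    · refine hV _ ⟨?_, h2⟩ ?_
      · show Even (e.1 + 1)
        exact h1.add_odd odd_one
      · show |e.1 - (e.1 + 1)| + |e.2 - e.2| = 1
        have h3 : e.1 - (e.1 + 1) = -1 := by ring
        rw [h3, sub_self]
        norm_num
  have hVv : Even e.1 → Odd e.2 → (e.1, e.2 - 1) ∈ Sg ∧ (e.1, e.2 + 1) ∈ Sg := by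
    intro h1 h2
    constructor
    · refine hV _ ⟨h1, ?_⟩ ?_
      · show Even (e.2 - 1)
        exact h2.sub_odd odd_one
      · show |e.1 - e.1| + |e.2 - (e.2 - 1)| = 1
        rw [sub_sub_cancel, sub_self]
        norm_num
    · refine hV _ ⟨h1, ?_⟩ ?_
      · show Even (e.2 + 1)
        exact h2.add_odd odd_one
      · show |e.1 - e.1| + |e.2 - (e.2 + 1)| = 1
        have h3 : e.2 - (e.2 + 1) = -1 := by ring
        rw [h3, sub_self]
        norm_num
  -- points of the sides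
  have hside : ∀ z : ℂ, ψ z ∉ K → ∀ v ∈ Sg, |z.re - h * v.1| ≤ h / 2 → |z.im - h * v.2| ≤ h / 2 →
      ψ z ∈ gM K ψ h Sg := by
    intro z hzK v hv h1 h2
    rw [gr6_gM K ψ hinj]
    exact Or.inr ⟨v, hv, gr6_pc K ψ h v z ⟨h1, h2⟩ hzK⟩
  rcases hG X hX K ψ N L hC h e hh heN with ⟨hO, hpc⟩ | ⟨hK, _⟩ | ⟨σ, hL, hpc⟩
  · -- status `O`
    have hnK : ∀ z ∈ T h e, ψ z ∉ K := fun z hz hzK =>
      (Set.disjoint_left.1 hO) ⟨z, hz, rfl⟩ hzK
    have hpc' : pc K ψ h e = Rect (h * e.1 - h / 2) (h * e.1 + h / 2) (h * e.2 - h / 2)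
        (h * e.2 + h / 2) := by
      rw [hpc]
      ext z
      exact hTe z
    rcases Int.even_or_odd e.1 with h1 | h1
    · have h2 : Odd e.2 := by
        rcases Int.even_or_odd e.2 with h2 | h2
        · exact absurd ⟨h1, h2⟩ hE.1
        · exact h2
      obtain ⟨hv1, hv2⟩ := hVv h1 h2
      refine gr6_fin hR K ψ hC.emb h Sg e _ _ _ _ _ (by linarith) (by linarith) RSel.bt hpc'
        ?_ ?_
      · intro z hz hzM
        have hz' := (hTe z).2 hz
        rw [gr6_gM K ψ hinj] at hzM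
        rcases hzM with hzM | ⟨c, hc, hzc⟩
        · exact absurd hzM (hnK z hz')
        · rcases (hother z hz' c hc hzc).2 h2 with h3 | h3
          · exact Or.inl ⟨⟨hz.1.1, hz.1.2⟩, h3.ge, h3.le⟩
          · exact Or.inr ⟨⟨hz.1.1, hz.1.2⟩, h3.ge, h3.le⟩
      · rintro z (hz | hz)
        · have hzR : z ∈ Rect (h * e.1 - h / 2) (h * e.1 + h / 2) (h * e.2 - h / 2)
              (h * e.2 + h / 2) := ⟨⟨hz.1.1, hz.1.2⟩, hz.2.1, by linarith [hz.2.2]⟩
          refine ⟨hzR, hside z (hnK z ((hTe z).2 hzR)) _ hv1 ?_ ?_⟩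
          · exact ((hTe z).2 hzR).1
          · have h3 : z.im = h * e.2 - h / 2 := le_antisymm hz.2.2 hz.2.1
            rw [h3]
            push_cast
            rw [abs_le]
            constructor <;> linarith
        · have hzR : z ∈ Rect (h * e.1 - h / 2) (h * e.1 + h / 2) (h * e.2 - h / 2)
              (h * e.2 + h / 2) := ⟨⟨hz.1.1, hz.1.2⟩, by linarith [hz.2.1], hz.2.2⟩
          refine ⟨hzR, hside z (hnK z ((hTe z).2 hzR)) _ hv2 ?_ ?_⟩
          · exact ((hTe z).2 hzR).1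
          · have h3 : z.im = h * e.2 + h / 2 := le_antisymm hz.2.2 hz.2.1
            rw [h3]
            push_cast
            rw [abs_le]
            constructor <;> linarith
    · have h2 : Even e.2 := by
        rcases Int.even_or_odd e.2 with h2 | h2
        · exact h2
        · exact absurd ⟨h1, h2⟩ hE.2
      obtain ⟨hv1, hv2⟩ := hVh h1 h2
      refine gr6_fin hR K ψ hC.emb h Sg e _ _ _ _ _ (by linarith) (by linarith) RSel.lr hpc'
        ?_ ?_
      · intro z hz hzM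
        have hz' := (hTe z).2 hz
        rw [gr6_gM K ψ hinj] at hzM
        rcases hzM with hzM | ⟨c, hc, hzc⟩
        · exact absurd hzM (hnK z hz')
        · rcases (hother z hz' c hc hzc).1 h1 with h3 | h3
          · exact Or.inl ⟨⟨h3.ge, h3.le⟩, hz.2.1, hz.2.2⟩
          · exact Or.inr ⟨⟨h3.ge, h3.le⟩, hz.2.1, hz.2.2⟩
      · rintro z (hz | hz)
        · have hzR : z ∈ Rect (h * e.1 - h / 2) (h * e.1 + h / 2) (h * e.2 - h / 2)
              (h * e.2 + h / 2) := ⟨⟨hz.1.1, by linarith [hz.1.2]⟩, hz.2.1, hz.2.2⟩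
          refine ⟨hzR, hside z (hnK z ((hTe z).2 hzR)) _ hv1 ?_ ?_⟩
          · have h3 : z.re = h * e.1 - h / 2 := le_antisymm hz.1.2 hz.1.1
            rw [h3]
            push_cast
            rw [abs_le]
            constructor <;> linarith
          · exact ((hTe z).2 hzR).2
        · have hzR : z ∈ Rect (h * e.1 - h / 2) (h * e.1 + h / 2) (h * e.2 - h / 2)
              (h * e.2 + h / 2) := ⟨⟨by linarith [hz.1.1], hz.1.2⟩, hz.2.1, hz.2.2⟩
          refine ⟨hzR, hside z (hnK z ((hTe z).2 hzR)) _ hv2 ?_ ?_⟩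
          · have h3 : z.re = h * e.1 + h / 2 := le_antisymm hz.1.2 hz.1.1
            rw [h3]
            push_cast
            rw [abs_le]
            constructor <;> linarith
          · exact ((hTe z).2 hzR).2
  · exact absurd hK hSK
  · -- status `L`
    obtain ⟨he0, hσ, hL⟩ := hL
    have h2 : Even e.2 := by rw [he0]; exact Even.zero
    have h1 : Odd e.1 := by
      rcases Int.even_or_odd e.1 with h1 | h1
      · exact absurd ⟨h1, h2⟩ hE.1
      · exact h1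
    obtain ⟨hv1, hv2⟩ := hVh h1 h2
    have he0' : (e.2 : ℝ) = 0 := by rw [he0]; norm_num
    rw [he0', mul_zero, zero_sub, zero_add] at hTe
    -- the left and right sides
    have hlr : ∀ z ∈ T h e, (z.re = h * e.1 - h / 2 ∨ z.re = h * e.1 + h / 2) →
        ψ z ∈ gM K ψ h Sg := by
      intro z hz hzz
      by_cases hzK : ψ z ∈ K
      · rw [gr6_gM K ψ hinj]
        exact Or.inl hzK
      · rcases hzz with h3 | h3
        · refine hside z hzK _ hv1 ?_ hz.2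
          rw [h3]
          push_cast
          rw [abs_le]
          constructor <;> linarith
        · refine hside z hzK _ hv2 ?_ hz.2
          rw [h3]
          push_cast
          rw [abs_le]
          constructor <;> linarith
    rcases hσ with rfl | rfl
    · have hpc' : pc K ψ h e = Rect (h * e.1 - h / 2) (h * e.1 + h / 2) (-(h / 2)) 0 := by
        rw [hpc]
        ext z
        rw [mem_ofPred_eq, hTe z, one_mul]
        constructor
        · rintro ⟨⟨⟨h3, h4⟩, h5, h6⟩, h7⟩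
          exact ⟨⟨h3, h4⟩, h5, h7⟩
        · rintro ⟨⟨h3, h4⟩, h5, h6⟩
          exact ⟨⟨⟨h3, h4⟩, h5, by linarith⟩, h6⟩
      have hRT : ∀ z ∈ Rect (h * e.1 - h / 2) (h * e.1 + h / 2) (-(h / 2)) 0, z ∈ T h e :=
        fun z hz => (hTe z).2 ⟨⟨hz.1.1, hz.1.2⟩, hz.2.1, by linarith [hz.2.2]⟩
      refine gr6_fin hR K ψ hC.emb h Sg e _ _ _ _ _ (by linarith) (by linarith) RSel.ltr hpc'
        ?_ ?_
      · intro z hz hzM
        have hz' := hRT z hz
        rw [gr6_gM K ψ hinj] at hzM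
        rcases hzM with hzM | ⟨c, hc, hzc⟩
        · have h3 := (hL z hz').1 hzM
          rw [one_mul] at h3
          exact Or.inl (Or.inr ⟨⟨hz.1.1, hz.1.2⟩, h3, hz.2.2⟩)
        · rcases (hother z hz' c hc hzc).1 h1 with h3 | h3
          · exact Or.inl (Or.inl ⟨⟨h3.ge, h3.le⟩, hz.2.1, hz.2.2⟩)
          · exact Or.inr ⟨⟨h3.ge, h3.le⟩, hz.2.1, hz.2.2⟩
      · rintro z ((hz | hz) | hz)
        · have hzR : z ∈ Rect (h * e.1 - h / 2) (h * e.1 + h / 2) (-(h / 2)) 0 :=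
            ⟨⟨hz.1.1, by linarith [hz.1.2]⟩, hz.2.1, hz.2.2⟩
          exact ⟨hzR, hlr z (hRT z hzR) (Or.inl (le_antisymm hz.1.2 hz.1.1))⟩
        · have hzR : z ∈ Rect (h * e.1 - h / 2) (h * e.1 + h / 2) (-(h / 2)) 0 :=
            ⟨⟨hz.1.1, hz.1.2⟩, by linarith [hz.2.1], hz.2.2⟩
          refine ⟨hzR, ?_⟩
          rw [gr6_gM K ψ hinj]
          refine Or.inl ((hL z (hRT z hzR)).2 ?_)
          rw [one_mul]
          exact hz.2.1
        · have hzR : z ∈ Rect (h * e.1 - h / 2) (h * e.1 + h / 2) (-(h / 2)) 0 :=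
            ⟨⟨by linarith [hz.1.1], hz.1.2⟩, hz.2.1, hz.2.2⟩
          exact ⟨hzR, hlr z (hRT z hzR) (Or.inr (le_antisymm hz.1.2 hz.1.1))⟩
    · have hpc' : pc K ψ h e = Rect (h * e.1 - h / 2) (h * e.1 + h / 2) 0 (h / 2) := by
        rw [hpc]
        ext z
        rw [mem_ofPred_eq, hTe z]
        constructor
        · rintro ⟨⟨⟨h3, h4⟩, h5, h6⟩, h7⟩
          exact ⟨⟨h3, h4⟩, by linarith, h6⟩
        · rintro ⟨⟨h3, h4⟩, h5, h6⟩
          exact ⟨⟨⟨h3, h4⟩, by linarith, h6⟩, by linarith⟩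
      have hRT : ∀ z ∈ Rect (h * e.1 - h / 2) (h * e.1 + h / 2) 0 (h / 2), z ∈ T h e :=
        fun z hz => (hTe z).2 ⟨⟨hz.1.1, hz.1.2⟩, by linarith [hz.2.1], hz.2.2⟩
      refine gr6_fin hR K ψ hC.emb h Sg e _ _ _ _ _ (by linarith) (by linarith) RSel.lbr hpc'
        ?_ ?_
      · intro z hz hzM
        have hz' := hRT z hz
        rw [gr6_gM K ψ hinj] at hzM
        rcases hzM with hzM | ⟨c, hc, hzc⟩
        · have h3 := (hL z hz').1 hzM
          exact Or.inl (Or.inr ⟨⟨hz.1.1, hz.1.2⟩, hz.2.1, by linarith⟩)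
        · rcases (hother z hz' c hc hzc).1 h1 with h3 | h3
          · exact Or.inl (Or.inl ⟨⟨h3.ge, h3.le⟩, hz.2.1, hz.2.2⟩)
          · exact Or.inr ⟨⟨h3.ge, h3.le⟩, hz.2.1, hz.2.2⟩
      · rintro z ((hz | hz) | hz)
        · have hzR : z ∈ Rect (h * e.1 - h / 2) (h * e.1 + h / 2) 0 (h / 2) :=
            ⟨⟨hz.1.1, by linarith [hz.1.2]⟩, hz.2.1, hz.2.2⟩
          exact ⟨hzR, hlr z (hRT z hzR) (Or.inl (le_antisymm hz.1.2 hz.1.1))⟩
        · have hzR : z ∈ Rect (h * e.1 - h / 2) (h * e.1 + h / 2) 0 (h / 2) :=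
            ⟨⟨hz.1.1, hz.1.2⟩, hz.2.1, by linarith [hz.2.2]⟩
          refine ⟨hzR, ?_⟩
          rw [gr6_gM K ψ hinj]
          refine Or.inl ((hL z (hRT z hzR)).2 ?_)
          have h3 : z.im ≤ 0 := hz.2.2
          linarith
        · have hzR : z ∈ Rect (h * e.1 - h / 2) (h * e.1 + h / 2) 0 (h / 2) :=
            ⟨⟨by linarith [hz.1.1], hz.1.2⟩, hz.2.1, hz.2.2⟩
          exact ⟨hzR, hlr z (hRT z hzR) (Or.inr (le_antisymm hz.1.2 hz.1.1))⟩

end Pool.Agent.SRF
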