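import Pool.Agent.SRF.StB

set_option autoImplicit false

/-! # SRF: GRB, the grid theorem -/

open Set Metric Filter Topology

namespace Pool.Agent.SRF

section

variable {X : Type} [TopologicalSpace X]

private theorem grb_half {h : ℝ} (hh : 0 < h) {a b : ℤ} (hab : |a - b| ≤ 1) :
    |h * ((a : ℝ) + b) / 2 - h * a| ≤ h / 2 ∧ |h * ((a : ℝ) + b) / 2 - h * b| ≤ h / 2 := by
  have h1 := abs_le.mp hab
  have h2 : b = a - 1 ∨ b = a ∨ b = a + 1 := by omega
  rcases h2 with rfl | rfl | rfl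
  · push_cast
    constructor <;> rw [abs_le] <;> constructor <;> linarith
  · constructor <;> rw [abs_le] <;> constructor <;> linarith
  · push_cast
    constructor <;> rw [abs_le] <;> constructor <;> linarith

private theorem grb_adj {c c' : ℤ × ℤ} (hadj : Adj c c') :
    |c.1 - c'.1| ≤ 1 ∧ |c.2 - c'.2| ≤ 1 := by
  unfold Adj at hadj
  have h1 := abs_nonneg (c.1 - c'.1)
  have h2 := abs_nonneg (c.2 - c'.2)
  constructor <;> omega

private theorem grb_mid {h : ℝ} (hh : 0 < h) {c c' : ℤ × ℤ} (hadj : Adj c c') :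
    ∃ z : ℂ, z ∈ T h c ∧ z ∈ T h c' := by
  obtain ⟨h1, h2⟩ := grb_adj hadj
  refine ⟨⟨h * ((c.1 : ℝ) + c'.1) / 2, h * ((c.2 : ℝ) + c'.2) / 2⟩, ?_, ?_⟩
  · exact ⟨(grb_half hh h1).1, (grb_half hh h2).1⟩
  · exact ⟨(grb_half hh h1).2, (grb_half hh h2).2⟩

private theorem grb_side {h : ℝ} (hh : 0 < h) {c c' : ℤ × ℤ} (hadj : Adj c c') (h0 : c.2 = 0)
    (h0' : c'.2 = 0) (y : ℝ) (hy : |y| ≤ h / 2) :
    ∃ z : ℂ, z ∈ T h c ∧ z ∈ T h c' ∧ z.im = y := by
  obtain ⟨h1, h2⟩ := grb_adj hadj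
  refine ⟨⟨h * ((c.1 : ℝ) + c'.1) / 2, y⟩, ⟨(grb_half hh h1).1, ?_⟩, ⟨(grb_half hh h1).2, ?_⟩, rfl⟩
  · simp only [h0, Int.cast_zero, mul_zero, sub_zero]; exact hy
  · simp only [h0', Int.cast_zero, mul_zero, sub_zero]; exact hy

omit [TopologicalSpace X] in
private theorem grb_ko {K : Set X} {ψ : ℂ → X} {h : ℝ} (hh : 0 < h) {c c' : ℤ × ℤ}
    (hadj : Adj c c') (hk : SK K ψ h c) : ¬ SO K ψ h c' := by
  intro ho
  obtain ⟨z, hz, hz'⟩ := grb_mid hh hadj
  exact Set.disjoint_left.mp ho ⟨z, hz', rfl⟩ (hk ⟨z, hz, rfl⟩)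

omit [TopologicalSpace X] in
private theorem grb_ll {K : Set X} {ψ : ℂ → X} {h : ℝ} (hh : 0 < h) {c c' : ℤ × ℤ}
    (hadj : Adj c c') (h0 : c.2 = 0) (h0' : c'.2 = 0) {σ : ℝ} (hl : SL K ψ h σ c) :
    ¬ SO K ψ h c' ∧ ¬ SK K ψ h c' := by
  obtain ⟨_, hσ, hm⟩ := hl
  have habs : |σ * (h / 2)| ≤ h / 2 := by
    rcases hσ with rfl | rfl
    · rw [one_mul, abs_of_pos (by linarith)]
    · rw [abs_mul, abs_neg, abs_one, one_mul, abs_of_pos (by linarith)]
  have hσσ : σ * σ = 1 := by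
    rcases hσ with rfl | rfl <;> norm_num
  constructor
  · intro ho
    obtain ⟨z, hz, hz', hzi⟩ := grb_side hh hadj h0 h0' (σ * (h / 2)) habs
    refine Set.disjoint_left.mp ho ⟨z, hz', rfl⟩ ((hm z hz).mpr ?_)
    rw [hzi, ← mul_assoc, hσσ]; linarith
  · intro hk
    obtain ⟨z, hz, hz', hzi⟩ := grb_side hh hadj h0 h0' (-(σ * (h / 2))) (by rw [abs_neg]; exact habs)
    have := (hm z hz).mp (hk ⟨z, hz', rfl⟩)
    rw [hzi, mul_neg, ← mul_assoc, hσσ] at this; linarith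

omit [TopologicalSpace X] in
private theorem grb_lnotk {K : Set X} {ψ : ℂ → X} {h : ℝ} (hh : 0 < h) {c : ℤ × ℤ} {σ : ℝ}
    (hl : SL K ψ h σ c) : ¬ SK K ψ h c := by
  obtain ⟨h0, hσ, hm⟩ := hl
  have hσσ : σ * σ = 1 := by
    rcases hσ with rfl | rfl <;> norm_num
  have hz : (⟨h * c.1, -(σ * (h / 2))⟩ : ℂ) ∈ T h c := by
    constructor
    · simp only [sub_self, abs_zero]; linarith
    · simp only [h0, Int.cast_zero, mul_zero, sub_zero, abs_neg]
      rcases hσ with rfl | rfl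
      · rw [one_mul, abs_of_pos (by linarith)]
      · rw [abs_mul, abs_neg, abs_one, one_mul, abs_of_pos (by linarith)]
  intro hk
  have := (hm _ hz).mp (hk ⟨_, hz, rfl⟩)
  simp only [mul_neg] at this
  rw [← mul_assoc, hσσ] at this
  linarith

omit [TopologicalSpace X] in
private theorem grb_gM_empty {K : Set X} {ψ : ℂ → X} {h : ℝ} : gM K ψ h ∅ = K := by
  simp [gM]

end

/-! ### Parity facts -/

private theorem grb_vf {c : ℤ × ℤ} (hv : IsV c) : ¬ IsF c := by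
  intro hf
  exact (Int.not_even_iff_odd.mpr hf.1) hv.1

/-- A cell adjacent to a vertex cell is an edge cell. -/
private theorem grb_adj_v {c w : ℤ × ℤ} (hw : IsV w) (ha : Adj c w) : IsE c := by
  obtain ⟨h1, h2⟩ := grb_adj ha
  unfold Adj at ha
  have a1 := abs_le.mp h1
  have a2 := abs_le.mp h2
  obtain ⟨⟨p, hp⟩, ⟨q, hq⟩⟩ := hw
  constructor
  · rintro ⟨⟨r, hr⟩, ⟨s, hs⟩⟩
    have e1 : c.1 = w.1 := by omega
    have e2 : c.2 = w.2 := by omega
    rw [e1, e2, sub_self, sub_self, abs_zero] at ha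
    omega
  · rintro ⟨⟨r, hr⟩, ⟨s, hs⟩⟩
    have e1 : c.1 - w.1 = 1 ∨ c.1 - w.1 = -1 := by omega
    have e2 : c.2 - w.2 = 1 ∨ c.2 - w.2 = -1 := by omega
    rcases e1 with e1 | e1 <;> rcases e2 with e2 | e2 <;> rw [e1, e2] at ha <;> norm_num at ha

/-- An edge cell has only two adjacent vertex cells. -/
private theorem grb_two {e u v w : ℤ × ℤ} (hu : IsV u) (hv : IsV v) (hw : IsV w)
    (au : Adj e u) (av : Adj e v) (aw : Adj e w) (hvw : v ≠ w) : u = v ∨ u = w := by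
  unfold Adj at au av aw
  obtain ⟨⟨p1, hp1⟩, ⟨p2, hp2⟩⟩ := hu
  obtain ⟨⟨q1, hq1⟩, ⟨q2, hq2⟩⟩ := hv
  obtain ⟨⟨r1, hr1⟩, ⟨r2, hr2⟩⟩ := hw
  have hvw' : v.1 ≠ w.1 ∨ v.2 ≠ w.2 := by
    by_contra hcon
    push Not at hcon
    exact hvw (Prod.ext hcon.1 hcon.2)
  have key : (u.1 = v.1 ∧ u.2 = v.2) ∨ (u.1 = w.1 ∧ u.2 = w.2) := by
    rcases abs_cases (e.1 - u.1) with ⟨x1, _⟩ | ⟨x1, _⟩ <;>
    rcases abs_cases (e.2 - u.2) with ⟨x2, _⟩ | ⟨x2, _⟩ <;>
    rcases abs_cases (e.1 - v.1) with ⟨y1, _⟩ | ⟨y1, _⟩ <;>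
    rcases abs_cases (e.2 - v.2) with ⟨y2, _⟩ | ⟨y2, _⟩ <;>
    rcases abs_cases (e.1 - w.1) with ⟨z1, _⟩ | ⟨z1, _⟩ <;>
    rcases abs_cases (e.2 - w.2) with ⟨z2, _⟩ | ⟨z2, _⟩ <;>
    omega
  rcases key with k | k
  · exact Or.inl (Prod.ext k.1 k.2)
  · exact Or.inr (Prod.ext k.1 k.2)

/-- A vertex cell adjacent to an edge cell in a block of a face cell is in the block. -/
private theorem grb_blk {f e v : ℤ × ℤ} (hf : IsF f) (he : e ∈ blk f) (hv : IsV v)
    (ha : Adj e v) : v ∈ blk f := by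
  obtain ⟨h1, h2⟩ := grb_adj ha
  have a1 := abs_le.mp h1
  have a2 := abs_le.mp h2
  obtain ⟨⟨p, hp⟩, ⟨q, hq⟩⟩ := hf
  obtain ⟨⟨r, hr⟩, ⟨s, hs⟩⟩ := hv
  unfold blk at he ⊢
  rw [Finset.mem_product, Finset.mem_Icc, Finset.mem_Icc] at he ⊢
  obtain ⟨⟨b1, b2⟩, b3, b4⟩ := he
  refine ⟨⟨?_, ?_⟩, ?_, ?_⟩ <;> omega

/-- The only face cell of the block of a face cell. -/
private theorem grb_face {f f' : ℤ × ℤ} (hf : IsF f) (hf' : IsF f') (h : f ∈ blk f') : f = f' := by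
  obtain ⟨⟨p, hp⟩, ⟨q, hq⟩⟩ := hf
  obtain ⟨⟨r, hr⟩, ⟨s, hs⟩⟩ := hf'
  unfold blk at h
  rw [Finset.mem_product, Finset.mem_Icc, Finset.mem_Icc] at h
  obtain ⟨⟨b1, b2⟩, b3, b4⟩ := h
  exact Prod.ext (by omega) (by omega)

/-- Edge cells in row `0`: adjacent vertex cells are in row `0`. -/
private theorem grb_row {e v : ℤ × ℤ} (h0 : e.2 = 0) (hv : IsV v) (ha : Adj e v) :
    v.2 = 0 := by
  obtain ⟨h1, h2⟩ := grb_adj ha
  have a1 := abs_le.mp h1
  have a2 := abs_le.mp h2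
  obtain ⟨⟨r, hr⟩, ⟨s, hs⟩⟩ := hv
  omega

/-- A cell of a block which is neither a vertex cell nor a face cell is an edge cell. -/
private theorem grb_cases (c : ℤ × ℤ) : IsV c ∨ IsE c ∨ IsF c := by
  by_cases hv : IsV c
  · exact Or.inl hv
  · by_cases hf : IsF c
    · exact Or.inr (Or.inr hf)
    · exact Or.inr (Or.inl ⟨hv, hf⟩)

/-- A maximal finite subset with a property. -/
private theorem grb_max {α : Type} [DecidableEq α] (D : Finset α) (P : Finset α → Prop)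
    (S₀ : Finset α) (h0 : P S₀) (hD : S₀ ⊆ D) :
    ∃ S, P S ∧ S ⊆ D ∧ ∀ c ∈ D, ∀ S', P S' → S' ⊆ D → S ⊆ S' → c ∈ S' → c ∈ S := by
  classical
  obtain ⟨S, hS, hmax⟩ := Finset.exists_max_image (D.powerset.filter P) Finset.card
    ⟨S₀, Finset.mem_filter.mpr ⟨Finset.mem_powerset.mpr hD, h0⟩⟩
  rw [Finset.mem_filter, Finset.mem_powerset] at hS
  refine ⟨S, hS.2, hS.1, ?_⟩
  intro c _ S' hS' hS'D hSS' hc
  have h1 := hmax S' (Finset.mem_filter.mpr ⟨Finset.mem_powerset.mpr hS'D, hS'⟩)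
  rw [Finset.eq_of_subset_of_card_le hSS' h1]
  exact hc

/-- GRB. The grid theorem. -/
theorem thm_GRB (h1 : St_GR1) (h2 : St_GR2) (h3 : St_GR3) (h4 : St_GR4) (h5 : St_GR5)
    (h6 : St_GR6) : St_GRB := by
  classical
  intro X _ hX K ψ N C L hctx hCc hC hCN hCK
  obtain ⟨h, Φ, hh, _, hΦF, hcov, hN, _, hconn⟩ := h2 C N hCc hC hctx.opn hCN
  set D : Finset (ℤ × ℤ) := Φ.biUnion blk with hDdef
  have hDN : ∀ c ∈ D, T h c ⊆ N := by
    intro c hc
    rw [hDdef, Finset.mem_biUnion] at hc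
    obtain ⟨f, hf, hcf⟩ := hc
    exact hN f hf c hcf
  have hstat : ∀ c ∈ D, SO K ψ h c ∨ SK K ψ h c ∨ ∃ σ : ℝ, SL K ψ h σ c := by
    intro c hc
    rcases h1 X hX K ψ N L hctx h c hh (hDN c hc) with h' | h' | ⟨σ, h'⟩
    · exact Or.inl h'.1
    · exact Or.inr (Or.inl h'.1)
    · exact Or.inr (Or.inr ⟨σ, h'.1⟩)
  have hcovD : ∀ z ∈ C, ∃ c ∈ D, z ∈ T h c := by
    intro z hz
    have := hcov hz
    simp only [mem_iUnion] at this
    obtain ⟨f, hf, c, hc, hzc⟩ := this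
    exact ⟨c, Finset.mem_biUnion.mpr ⟨f, hf, hc⟩, hzc⟩
  have hGR4 := h4 X hX K ψ N L hctx h hh
  have hGR5 := h5 X hX K ψ N L hctx h hh
  have hGR6 := h6 X hX K ψ N L hctx h hh
  -- phase 0
  set V : Finset (ℤ × ℤ) := D.filter (fun c => IsV c ∧ ∃ σ : ℝ, SL K ψ h σ c) with hVdef
  have hV : ∀ S : Finset (ℤ × ℤ), S ⊆ V → BuiltFrom K (gM K ψ h S) := by
    intro S
    induction S using Finset.induction_on with
    | empty =>
      intro _
      rw [grb_gM_empty]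
      exact BuiltFrom.refl
    | insert v S hvS ih =>
      intro hsub
      have hS : S ⊆ V := fun x hx => hsub (Finset.mem_insert_of_mem hx)
      have hvV : v ∈ V := hsub (Finset.mem_insert_self v S)
      rw [hVdef, Finset.mem_filter] at hvV
      obtain ⟨hvD, hvv, σ, hσ⟩ := hvV
      obtain ⟨e, S', O, hatt, heq⟩ := hGR4.1 S v σ (by
        intro c hc
        have := hS hc
        rw [hVdef, Finset.mem_filter] at this
        exact ⟨hDN c this.1, this.2.1⟩) hvv (hDN v hvD) hvS hσ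
      rw [heq]
      exact BuiltFrom.step _ e S' O (ih hS) hatt
  -- phase 1
  obtain ⟨S1, ⟨p1, p2, p3, p4⟩, hS1D, hmax1⟩ := grb_max D
    (fun S => BuiltFrom K (gM K ψ h S) ∧ (∀ c ∈ S, ¬ IsF c) ∧
      (∀ c ∈ S, IsE c → ∀ v, IsV v → Adj c v → v ∈ S) ∧ V ⊆ S) V
    ⟨hV V Finset.Subset.rfl, by
      intro c hc
      rw [hVdef, Finset.mem_filter] at hc
      exact grb_vf hc.2.1, by
      intro c hc hE
      rw [hVdef, Finset.mem_filter] at hc
      exact absurd hc.2.1 hE.1, Finset.Subset.rfl⟩ (Finset.filter_subset _ _)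
  have hlV : ∀ v ∈ D, IsV v → (∃ σ : ℝ, SL K ψ h σ v) → v ∈ S1 := by
    intro v hv hvv hl
    apply p4
    rw [hVdef, Finset.mem_filter]
    exact ⟨hv, hvv, hl⟩
  have hoV : ∀ v ∈ D, IsV v → SO K ψ h v → v ∈ S1 := by
    by_contra hcon
    push Not at hcon
    obtain ⟨w, e, v, hw, he, hv, hwV, heE, hvV, hwo, hwS, heo, hew, hev, hvw, hor⟩ : ∃ w e v : ℤ × ℤ,
        w ∈ D ∧ e ∈ D ∧ v ∈ D ∧ IsV w ∧ IsE e ∧ IsV v ∧ SO K ψ h w ∧ w ∉ S1 ∧ SO K ψ h e ∧
          Adj e w ∧ Adj e v ∧ v ≠ w ∧ (v ∈ S1 ∨ ∃ σ : ℝ, SL K ψ h σ v) := by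
      obtain ⟨w, hw, e, he, v, hv, r⟩ := h3 Φ (fun c => SO K ψ h c) (fun c => SK K ψ h c)
        (fun c => ∃ σ : ℝ, SL K ψ h σ c) hΦF hconn hstat
        (by rintro c _ ⟨σ, hσ⟩; exact hσ.1)
        (by intro c _ c' _ ha hk; exact grb_ko hh ha hk)
        (by
          rintro c _ c' hc' ha h0 h0' ⟨σ, hσ⟩
          obtain ⟨g1, g2⟩ := grb_ll hh ha h0 h0' hσ
          refine ⟨?_, g1⟩
          rcases hstat c' hc' with g | g | g
          · exact absurd g g1
          · exact absurd g g2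
          · exact g)
        (by
          obtain ⟨x, ⟨z, hz, rfl⟩, hxK⟩ := hCK
          obtain ⟨c, hc, hzc⟩ := hcovD z hz
          refine ⟨c, hc, ?_⟩
          intro ho
          exact Set.disjoint_left.mp ho ⟨z, hzc, rfl⟩ hxK)
        S1 (by
          obtain ⟨v, hv, hvv, hvo, hvS⟩ := hcon
          exact ⟨v, hv, hvv, hvo, hvS⟩)
      exact ⟨w, e, v, hw, he, hv, r⟩
    have hvS : v ∈ S1 := by
      rcases hor with h' | h'
      · exact h'
      · exact hlV v hv hvV h'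
    have heS : e ∉ S1 := fun h' => hwS (p3 e h' heE w hwV hew)
    obtain ⟨t, S', O, hatt, heq⟩ := hGR5 S1 w e v (fun c hc => ⟨hDN c (hS1D hc), p2 c hc⟩)
      (hDN w hw) (hDN e he) hwV heE hvV hwo heo hew hev hvw hvS hwS heS (by
        intro c hc ha
        exact hwS (p3 c hc (grb_adj_v hwV ha) w hwV ha))
    refine hwS (hmax1 w hw (insert w (insert e S1)) ⟨?_, ?_, ?_, ?_⟩ ?_ ?_ ?_)
    · rw [heq]
      exact BuiltFrom.step _ t S' O p1 hatt
    · intro c hc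
      rw [Finset.mem_insert, Finset.mem_insert] at hc
      rcases hc with rfl | rfl | hc
      · exact grb_vf hwV
      · exact heE.2
      · exact p2 c hc
    · intro c hc hcE u hu hcu
      rw [Finset.mem_insert, Finset.mem_insert] at hc
      rw [Finset.mem_insert, Finset.mem_insert]
      rcases hc with rfl | rfl | hc
      · exact absurd hwV hcE.1
      · rcases grb_two hu hvV hwV hcu hev hew hvw with rfl | rfl
        · exact Or.inr (Or.inr hvS)
        · exact Or.inl rfl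
      · exact Or.inr (Or.inr (p3 c hc hcE u hu hcu))
    · exact fun x hx => Finset.mem_insert_of_mem (Finset.mem_insert_of_mem (p4 hx))
    · intro x hx
      rw [Finset.mem_insert, Finset.mem_insert] at hx
      rcases hx with rfl | rfl | hx
      · exact hw
      · exact he
      · exact hS1D hx
    · exact fun x hx => Finset.mem_insert_of_mem (Finset.mem_insert_of_mem hx)
    · exact Finset.mem_insert_self _ _
  have hnkV : ∀ v ∈ D, IsV v → ¬ SK K ψ h v → v ∈ S1 := by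
    intro v hv hvv hk
    rcases hstat v hv with g | g | g
    · exact hoV v hv hvv g
    · exact absurd g hk
    · exact hlV v hv hvv g
  -- phase 2
  obtain ⟨S2, ⟨q1, q2, q3⟩, hS2D, hmax2⟩ := grb_max D
    (fun S => BuiltFrom K (gM K ψ h S) ∧ (∀ c ∈ S, ¬ IsF c) ∧
      (∀ v ∈ D, IsV v → ¬ SK K ψ h v → v ∈ S)) S1 ⟨p1, p2, hnkV⟩ hS1D
  have hE : ∀ e ∈ D, IsE e → ¬ SK K ψ h e → e ∈ S2 := by
    intro e he heE hek
    by_contra heS
    obtain ⟨t, S', O, hatt, heq⟩ := hGR6 S2 e (fun c hc => ⟨hDN c (hS2D hc), q2 c hc⟩)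
      (hDN e he) heE hek (by
        intro v hv hev
        have hvD : v ∈ D := by
          rw [hDdef, Finset.mem_biUnion] at he ⊢
          obtain ⟨f, hf, hef⟩ := he
          exact ⟨f, hf, grb_blk (hΦF f hf) hef hv hev⟩
        apply q3 v hvD hv
        rcases hstat e he with g | g | ⟨σ, g⟩
        · intro hvk
          have hve : Adj v e := by
            unfold Adj at hev ⊢
            rw [abs_sub_comm v.1, abs_sub_comm v.2]
            exact hev
          exact grb_ko hh hve hvk g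
        · exact absurd g hek
        · exact (grb_ll hh hev g.1 (grb_row g.1 hv hev) g).2) heS
    refine heS (hmax2 e he (insert e S2) ⟨?_, ?_, ?_⟩ ?_ ?_ ?_)
    · rw [heq]
      exact BuiltFrom.step _ t S' O q1 hatt
    · intro c hc
      rw [Finset.mem_insert] at hc
      rcases hc with rfl | hc
      · exact heE.2
      · exact q2 c hc
    · exact fun v hv hvv hk => Finset.mem_insert_of_mem (q3 v hv hvv hk)
    · intro x hx
      rw [Finset.mem_insert] at hx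
      rcases hx with rfl | hx
      · exact he
      · exact hS2D hx
    · exact fun x hx => Finset.mem_insert_of_mem hx
    · exact Finset.mem_insert_self _ _
  -- phase 3
  obtain ⟨S3, ⟨r1, r2⟩, hS3D, hmax3⟩ := grb_max D
    (fun S => BuiltFrom K (gM K ψ h S) ∧ (∀ c ∈ D, ¬ IsF c → ¬ SK K ψ h c → c ∈ S)) S2
    ⟨q1, by
      intro c hc hF hk
      rcases grb_cases c with g | g | g
      · exact q3 c hc g hk
      · exact hE c hc g hk
      · exact absurd g hF⟩ hS2D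
  have hF : ∀ f ∈ D, IsF f → ¬ SK K ψ h f → f ∈ S3 := by
    intro f hf hfF hfk
    by_contra hfS
    have hfΦ : f ∈ Φ := by
      rw [hDdef, Finset.mem_biUnion] at hf
      obtain ⟨f', hf', hff'⟩ := hf
      rw [grb_face hfF (hΦF f' hf') hff']
      exact hf'
    have hfo : SO K ψ h f := by
      rcases hstat f hf with g | g | ⟨σ, g⟩
      · exact g
      · exact absurd g hfk
      · have := hfF.2
        rw [g.1] at this
        exact absurd this (by decide)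
    obtain ⟨t, S', O, hatt, heq⟩ := hGR4.2 S3 f (fun c hc => hDN c (hS3D hc)) hfF
      (fun c hc => hN f hfΦ c hc) hfS hfo (by
        intro c hc hcf hck
        exact r2 c (Finset.mem_biUnion.mpr ⟨f, hfΦ, hc⟩)
          (fun hcF => hcf (grb_face hcF hfF hc)) hck)
    refine hfS (hmax3 f hf (insert f S3) ⟨?_, ?_⟩ ?_ ?_ ?_)
    · rw [heq]
      exact BuiltFrom.step _ t S' O r1 hatt
    · exact fun c hc hcF hk => Finset.mem_insert_of_mem (r2 c hc hcF hk)
    · intro x hx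
      rw [Finset.mem_insert] at hx
      rcases hx with rfl | hx
      · exact hf
      · exact hS3D hx
    · exact fun x hx => Finset.mem_insert_of_mem hx
    · exact Finset.mem_insert_self _ _
  -- conclusion
  refine ⟨gM K ψ h S3, r1, union_subset ?_ ?_⟩
  · exact subset_union_left
  · rintro _ ⟨z, hz, rfl⟩
    by_cases hzK : ψ z ∈ K
    · exact Or.inl hzK
    · obtain ⟨c, hc, hzc⟩ := hcovD z hz
      have hck : ¬ SK K ψ h c := fun hk => hzK (hk ⟨z, hzc, rfl⟩)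
      have hcS : c ∈ S3 := by
        by_cases hcF : IsF c
        · exact hF c hc hcF hck
        · exact r2 c hc hcF hck
      refine Or.inr ⟨z, ?_, rfl⟩
      simp only [mem_iUnion]
      exact ⟨c, hcS, subset_closure ⟨hzc, hzK⟩⟩

end Pool.Agent.SRF
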