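import Pool.Agent.SRF.StB

set_option autoImplicit false

/-! # SRF LOC: localisation of a building process. -/

open Set Metric Filter Topology

namespace Pool.Agent.SRF

theorem loc_aux {X : Type} [TopologicalSpace X] (h0 : St_ARC0) (K A B : Set X)
    (hA : IsOpen A) (hB : IsOpen B) (hd : Disjoint A B) (hK : Kᶜ = A ∪ B) (M : Set X)
    (h1 : K ⊆ M) (h2 : M ⊆ K ∪ A) (L : Set X) (hL : BuiltFrom K L) :
    BuiltFrom M (M ∪ (L ∩ B)) := by
  have hAK : ∀ x, x ∈ A → x ∉ K := fun x hx hxK => by
    have : x ∈ Kᶜ := hK ▸ Or.inl hx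
    exact this hxK
  have hBK : ∀ x, x ∈ B → x ∉ K := fun x hx hxK => by
    have : x ∈ Kᶜ := hK ▸ Or.inr hx
    exact this hxK
  have hcov : ∀ x, x ∈ K ∨ x ∈ A ∨ x ∈ B := fun x => by
    by_cases hx : x ∈ K
    · exact Or.inl hx
    · have : x ∈ A ∪ B := hK ▸ hx
      exact Or.inr this
  induction hL with
  | refl =>
    have : M ∪ (K ∩ B) = M := by
      apply union_eq_self_of_subset_right
      rintro x ⟨hx, hxB⟩
      exact absurd hx (hBK x hxB)
    rw [this]
    exact BuiltFrom.refl
  | step L e S O hL hatt ih =>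
    have hKL : K ⊆ L := hL.subset
    have hSU : S ⊆ UC := (h0 S O hatt.shape).2.1
    obtain ⟨hc, hi, _⟩ := hatt.tile
    have hOC : OD ⊆ CD := ball_subset_closedBall
    have hmiss : ∀ x ∈ e '' OD, x ∉ L := by
      rintro _ ⟨z, hz, rfl⟩ hzL
      have : e z ∈ e '' CD ∩ L := ⟨⟨z, hOC hz, rfl⟩, hzL⟩
      rw [hatt.meet] at this
      obtain ⟨s, hs, hse⟩ := this
      have hsU := hSU hs
      have hsz : s = z := hi (sphere_subset_closedBall hsU) (hOC hz) hse
      rw [hsz] at hsU
      rw [mem_ball, dist_zero_right] at hz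
      rw [mem_sphere, dist_zero_right] at hsU
      linarith
    have hpre : IsPreconnected (e '' OD) :=
      (convex_ball (0 : ℂ) 1).isPreconnected.image e (hc.mono hOC)
    have hsub : e '' OD ⊆ A ∪ B := by
      intro x hx
      rcases hcov x with h | h
      · exact absurd (hKL h) (hmiss x hx)
      · exact h
    have hcl : e '' CD ⊆ closure (e '' OD) := by
      have h3 : closure OD = CD := closure_ball (0 : ℂ) one_ne_zero
      have h4 : ContinuousOn e (closure OD) := by rw [h3]; exact hc
      have h5 := h4.image_closure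
      rwa [h3] at h5
    rcases hpre.subset_or_subset hA hB hd hsub with hh | hh
    · have h6 : ∀ x ∈ e '' CD, x ∉ B := by
        intro x hx hxB
        have h7 : Disjoint (closure A) B := hd.closure_left hB
        exact (disjoint_left.1 h7) (closure_mono hh (hcl hx)) hxB
      have h8 : (L ∪ e '' CD) ∩ B = L ∩ B := by
        ext x
        constructor
        · rintro ⟨hx | hx, hxB⟩
          · exact ⟨hx, hxB⟩
          · exact absurd hxB (h6 x hx)
        · rintro ⟨hx, hxB⟩
          exact ⟨Or.inl hx, hxB⟩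
      rw [h8]
      exact ih
    · have h6 : ∀ x ∈ e '' CD, x ∉ A := by
        intro x hx hxA
        have h7 : Disjoint A (closure B) := hd.closure_right hA
        exact (disjoint_left.1 h7) hxA (closure_mono hh (hcl hx))
      have h8 : M ∪ ((L ∪ e '' CD) ∩ B) = (M ∪ (L ∩ B)) ∪ e '' CD := by
        ext x
        constructor
        · rintro (hx | ⟨hx | hx, hxB⟩)
          · exact Or.inl (Or.inl hx)
          · exact Or.inl (Or.inr ⟨hx, hxB⟩)
          · exact Or.inr hx
        · rintro ((hx | hx) | hx)
          · exact Or.inl hx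
          · exact Or.inr ⟨Or.inl hx.1, hx.2⟩
          · rcases hcov x with h | h | h
            · exact Or.inl (h1 h)
            · exact absurd h (h6 x hx)
            · exact Or.inr ⟨Or.inr hx, h⟩
      rw [h8]
      refine BuiltFrom.step _ e S O ih ⟨hatt.tile, hatt.shape, ?_⟩
      rw [← hatt.meet]
      ext x
      constructor
      · rintro ⟨hx, hxM | hxM⟩
        · refine ⟨hx, ?_⟩
          rcases h2 hxM with h | h
          · exact hKL h
          · exact absurd h (h6 x hx)
        · exact ⟨hx, hxM.1⟩
      · rintro ⟨hx, hxL⟩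
        refine ⟨hx, ?_⟩
        rcases hcov x with h | h | h
        · exact Or.inl (h1 h)
        · exact absurd h (h6 x hx)
        · exact Or.inr ⟨hxL, h⟩

theorem thm_LOC (h0 : St_ARC0) : St_LOC := by
  intro X _ _ K L A B _ hL hA hB hd hK
  refine ⟨loc_aux h0 K B A hB hA hd.symm (by rw [hK, union_comm]) K Subset.rfl
    subset_union_left L hL, ?_⟩
  have h1 := loc_aux h0 K A B hA hB hd hK (K ∪ (L ∩ A)) subset_union_left
    (union_subset_union_right K inter_subset_right) L hL
  have h2 : K ∪ (L ∩ A) ∪ (L ∩ B) = L := by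
    ext x
    constructor
    · rintro ((hx | hx) | hx)
      · exact hL.subset hx
      · exact hx.1
      · exact hx.1
    · intro hx
      by_cases hxK : x ∈ K
      · exact Or.inl (Or.inl hxK)
      · have : x ∈ A ∪ B := hK ▸ hxK
        rcases this with h | h
        · exact Or.inl (Or.inr ⟨hx, h⟩)
        · exact Or.inr ⟨hx, h⟩
  rwa [h2] at h1

end Pool.Agent.SRF
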