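import Pool.Agent.SRF.StC

set_option autoImplicit false

/-! # SRF, module LOCU: the part of a building process in one component -/

open Set Metric Filter Topology

namespace Pool.Agent.SRF

/-- LOCU. The tiles inside one component of the complement. Needs: LOC, ADJ. -/
def St_LOCU : Prop := ∀ (X : Type) [TopologicalSpace X], IsSurf X → ∀ (K L : Set X), Bord K →
  BuiltFrom K L → ∀ x, x ∉ K → BuiltFrom K (K ∪ (L ∩ connectedComponentIn Kᶜ x))

theorem thm_LOCU (hLOC : St_LOC) (hADJ : St_ADJ) : St_LOCU := by
  intro X _ hX K L hK hKL x hx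
  haveI := hX.t2
  have hcl : IsClosed K := hK.1.isClosed
  have hx' : x ∈ Kᶜ := hx
  set U := connectedComponentIn Kᶜ x with hU
  have hUo : IsOpen U := (hADJ X hX K hK x hx).1
  have hUK : U ⊆ Kᶜ := connectedComponentIn_subset _ _
  have hBo : IsOpen (Kᶜ \ U) := by
    have h1 : Kᶜ \ U = ⋃ y ∈ Kᶜ \ U, connectedComponentIn Kᶜ y := by
      ext z
      simp only [mem_iUnion, exists_prop]
      constructor
      · intro hz
        exact ⟨z, hz, mem_connectedComponentIn hz.1⟩
      · rintro ⟨y, hy, hz⟩
        refine ⟨connectedComponentIn_subset _ _ hz, fun hzU => ?_⟩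
        have h2 := connectedComponentIn_eq hz
        have h3 := connectedComponentIn_eq hzU
        apply hy.2
        rw [hU, h3, ← h2]
        exact mem_connectedComponentIn hy.1
    rw [h1]
    refine isOpen_biUnion fun y hy => ?_
    exact (hADJ X hX K hK y hy.1).1
  exact (hLOC X K L U (Kᶜ \ U) hcl hKL hUo hBo disjoint_sdiff_right
    (by rw [union_sdiff_self, union_eq_self_of_subset_left hUK])).1

end Pool.Agent.SRF
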