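import Pool.Agent.SRF.StC

set_option autoImplicit false

/-! # SRF, module MOVX: moving points in a surface -/

open Set Metric Filter Topology

namespace Pool.Agent.SRF

/-- The relation: `q` is the image of `p` under a homeomorphism with compact support in `U`. -/
def movx_rel {X : Type} [TopologicalSpace X] (U : Set X) (p q : X) : Prop :=
  ∃ (χ : X ≃ₜ X) (C : Set X), IsCompact C ∧ C ⊆ U ∧ (∀ x, x ∉ C → χ x = x) ∧ χ p = q

theorem movx_refl {X : Type} [TopologicalSpace X] (U : Set X) (p : X) : movx_rel U p p :=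
  ⟨Homeomorph.refl X, ∅, isCompact_empty, empty_subset _, fun _ _ => rfl, rfl⟩

theorem movx_symm {X : Type} [TopologicalSpace X] {U : Set X} {p q : X} (h : movx_rel U p q) :
    movx_rel U q p := by
  obtain ⟨χ, C, hC, hCU, h1, h2⟩ := h
  refine ⟨χ.symm, C, hC, hCU, fun x hx => ?_, ?_⟩
  · rw [Homeomorph.symm_apply_eq, h1 x hx]
  · rw [Homeomorph.symm_apply_eq, h2]

theorem movx_trans {X : Type} [TopologicalSpace X] {U : Set X} {p q r : X} (h : movx_rel U p q)
    (h' : movx_rel U q r) : movx_rel U p r := by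
  obtain ⟨χ, C, hC, hCU, h1, h2⟩ := h
  obtain ⟨χ', C', hC', hCU', h1', h2'⟩ := h'
  refine ⟨χ.trans χ', C ∪ C', hC.union hC', union_subset hCU hCU', fun x hx => ?_, ?_⟩
  · have hx1 : x ∉ C := fun h => hx (Or.inl h)
    have hx2 : x ∉ C' := fun h => hx (Or.inr h)
    rw [Homeomorph.trans_apply, h1 x hx1, h1' x hx2]
  · rw [Homeomorph.trans_apply, h2, h2']

/-- Extension of a homeomorphism of the plane with support in a ball by the identity. -/
theorem movx_ext {X : Type} [TopologicalSpace X] [T2Space X] {φ : ℂ → X} (hφ : IsOpenEmbedding φ)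
    (χ₀ : ℂ ≃ₜ ℂ) (h : ∀ z, z ∉ ball (0 : ℂ) 2 → χ₀ z = z) :
    ∃ χ : X ≃ₜ X, (∀ z, χ (φ z) = φ (χ₀ z)) ∧ ∀ x, x ∉ φ '' closedBall 0 2 → χ x = x := by
  classical
  have hne : Function.Injective φ := hφ.injective
  let F : (ℂ → ℂ) → X → X := fun g x => if hx : x ∈ range φ then φ (g hx.choose) else x
  have hF1 : ∀ (g : ℂ → ℂ) (z : ℂ), F g (φ z) = φ (g z) := by
    intro g z
    have hx : φ z ∈ range φ := mem_range_self z
    have h1 : hx.choose = z := hne hx.choose_spec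
    simp only [F, dif_pos hx]
    rw [h1]
  have hF2 : ∀ (g : ℂ → ℂ) (x : X), x ∉ range φ → F g x = x := by
    intro g x hx
    simp only [F, dif_neg hx]
  have hF3 : ∀ (g : ℂ → ℂ), (∀ z, z ∉ ball (0 : ℂ) 2 → g z = z) → ∀ x, x ∉ φ '' closedBall 0 2 →
      F g x = x := by
    intro g hg x hx
    by_cases hx' : x ∈ range φ
    · obtain ⟨z, rfl⟩ := hx'
      rw [hF1, hg]
      intro hz
      exact hx (mem_image_of_mem _ (ball_subset_closedBall hz))
    · exact hF2 g x hx'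
  have hcl : IsClosed (φ '' closedBall (0 : ℂ) 2) :=
    ((isCompact_closedBall (0 : ℂ) 2).image hφ.continuous).isClosed
  have hFc : ∀ (g : ℂ → ℂ), Continuous g → (∀ z, z ∉ ball (0 : ℂ) 2 → g z = z) →
      Continuous (F g) := by
    intro g hg hg'
    rw [continuous_iff_continuousAt]
    intro x
    by_cases hx : x ∈ range φ
    · obtain ⟨z, rfl⟩ := hx
      rw [← hφ.continuousAt_iff]
      have : F g ∘ φ = φ ∘ g := funext fun z => hF1 g z
      rw [this]
      exact (hφ.continuous.comp hg).continuousAt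
    · have hx' : x ∈ (φ '' closedBall (0 : ℂ) 2)ᶜ := fun h => hx (image_subset_range _ _ h)
      have : F g =ᶠ[𝓝 x] id := by
        filter_upwards [hcl.isOpen_compl.mem_nhds hx'] with y hy
        exact hF3 g hg' y hy
      exact continuousAt_id.congr this.symm
  have hinv : ∀ (g g' : ℂ → ℂ), (∀ z, g' (g z) = z) → ∀ x, F g' (F g x) = x := by
    intro g g' hgg x
    by_cases hx : x ∈ range φ
    · obtain ⟨z, rfl⟩ := hx
      rw [hF1, hF1, hgg]
    · rw [hF2 g x hx, hF2 g' x hx]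
  have h' : ∀ z, z ∉ ball (0 : ℂ) 2 → χ₀.symm z = z := by
    intro z hz
    rw [Homeomorph.symm_apply_eq, h z hz]
  refine ⟨{ toFun := F χ₀, invFun := F χ₀.symm, left_inv := hinv _ _ fun z => χ₀.symm_apply_apply z,
            right_inv := hinv _ _ fun z => χ₀.apply_symm_apply z,
            continuous_toFun := hFc _ χ₀.continuous h,
            continuous_invFun := hFc _ χ₀.symm.continuous h' }, ?_, ?_⟩
  · intro z
    exact hF1 _ z
  · intro x hx
    exact hF3 _ h x hx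

theorem thm_MOVX (hSHR : St_SHR) (hMOVE : St_MOVE) : St_MOVX := by
  intro X _ hX U hU hUp p hp q hq
  have := hX.t2
  -- local step
  have hloc : ∀ x ∈ U, ∃ V, IsOpen V ∧ x ∈ V ∧ V ⊆ U ∧ ∀ y ∈ V, movx_rel U x y := by
    intro x hx
    obtain ⟨φ₀, hφ₀, hφ₀x⟩ := hX.chart x
    have h1 : φ₀ ⁻¹' U ∈ 𝓝 (0 : ℂ) :=
      hφ₀.continuous.continuousAt.preimage_mem_nhds (by rw [hφ₀x]; exact hU.mem_nhds hx)
    obtain ⟨r, hr, hrU⟩ := Metric.mem_nhds_iff.1 h1
    obtain ⟨σ, hσ, hσ0, hσr, -, -⟩ := hSHR.1 r hr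
    have hφ : IsOpenEmbedding (φ₀ ∘ σ) := hφ₀.comp hσ
    have hφU : range (φ₀ ∘ σ) ⊆ U := by
      rintro _ ⟨z, rfl⟩
      apply hrU
      rw [← hσr]
      exact mem_range_self z
    refine ⟨(φ₀ ∘ σ) '' ball 0 2, hφ.isOpenMap _ isOpen_ball, ⟨0, mem_ball_self two_pos, ?_⟩,
      (image_subset_range _ _).trans hφU, ?_⟩
    · show φ₀ (σ 0) = x
      rw [hσ0, hφ₀x]
    · rintro _ ⟨w, hw, rfl⟩
      obtain ⟨χ₀, h2, h3⟩ := hMOVE.1 (ball 0 2) isOpen_ball (convex_ball 0 2).isPreconnected 0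
        (mem_ball_self two_pos) w hw
      obtain ⟨χ, h4, h5⟩ := movx_ext hφ χ₀ h2
      refine ⟨χ, (φ₀ ∘ σ) '' closedBall 0 2, (isCompact_closedBall _ _).image hφ.continuous,
        (image_subset_range _ _).trans hφU, h5, ?_⟩
      have h6 : x = (φ₀ ∘ σ) 0 := by
        show x = φ₀ (σ 0)
        rw [hσ0, hφ₀x]
      rw [h6, h4, h3]
  -- the classes are open
  have hclass : ∀ x ∈ U, IsOpen {y | y ∈ U ∧ movx_rel U x y} := by
    intro x hx
    rw [isOpen_iff_mem_nhds]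
    rintro y ⟨hyU, hxy⟩
    obtain ⟨V, hV, hyV, hVU, hVr⟩ := hloc y hyU
    filter_upwards [hV.mem_nhds hyV] with z hz
    exact ⟨hVU hz, movx_trans hxy (hVr z hz)⟩
  have hcomp : IsOpen {y | y ∈ U ∧ ¬ movx_rel U p y} := by
    rw [isOpen_iff_mem_nhds]
    rintro y ⟨hyU, hxy⟩
    obtain ⟨V, hV, hyV, hVU, hVr⟩ := hloc y hyU
    filter_upwards [hV.mem_nhds hyV] with z hz
    exact ⟨hVU hz, fun h => hxy (movx_trans h (movx_symm (hVr z hz)))⟩
  by_contra hcon
  have hq' : ¬ movx_rel U p q := hcon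
  obtain ⟨y, hy, hy1, hy2⟩ := hUp _ _ (hclass p hp) hcomp (by
    intro y hy
    by_cases h : movx_rel U p y
    · exact Or.inl ⟨hy, h⟩
    · exact Or.inr ⟨hy, h⟩) ⟨p, hp, hp, movx_refl U p⟩ ⟨q, hq, hq, hq'⟩
  exact hy2.2 hy1.2

end Pool.Agent.SRF
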