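import Pool.Agent.SRF.StB

/-!
# SRF ONE1: two intersecting open lines

`one1_Mo f g D`: on `D` one has `f = g ∘ τ` with `τ` strictly increasing. If `f x = g y` and `τ` is
increasing near `x`, then either all of `f` to the right of `x` is of this form or all of `g` to the
right of `y` (with the roles exchanged), see `one1_right`; the same holds on the left.
-/

set_option autoImplicit false

open Set Metric Filter Topology

namespace Pool.Agent.SRF

section one1

variable {M : Type} [TopologicalSpace M]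

/-- on `D` the map `f` is `g` after a strictly increasing change of the parameter -/
def one1_Mo (f g : ℝ → M) (D : Set ℝ) : Prop :=
  ∃ τ : ℝ → ℝ, ContinuousOn τ D ∧ StrictMonoOn τ D ∧ ∀ x ∈ D, f x = g (τ x)

omit [TopologicalSpace M] in
theorem one1_Mo.mono {f g : ℝ → M} {D D' : Set ℝ} (h : one1_Mo f g D) (hD : D' ⊆ D) :
    one1_Mo f g D' := by
  obtain ⟨τ, h1, h2, h3⟩ := h
  exact ⟨τ, h1.mono hD, h2.mono hD, fun x hx => h3 x (hD hx)⟩

omit [TopologicalSpace M] in
theorem one1_Mo.neg {f g : ℝ → M} {D : Set ℝ} (h : one1_Mo f g D) :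
    one1_Mo (fun x => f (-x)) (fun x => g (-x)) ((fun x => -x) ⁻¹' D) := by
  obtain ⟨τ, h1, h2, h3⟩ := h
  refine ⟨fun x => -τ (-x), ?_, ?_, ?_⟩
  · exact (h1.comp continuous_neg.continuousOn (fun x hx => hx)).neg
  · intro x hx y hy hxy
    have := h2 hy hx (neg_lt_neg hxy)
    show -τ (-x) < -τ (-y)
    linarith
  · intro x hx
    simp only [neg_neg]
    exact h3 _ hx

theorem one1_cont {f g : ℝ → M} (hf : Continuous f) (hg : IsOpenEmbedding g) {τ : ℝ → ℝ}
    {D : Set ℝ} (h : ∀ x ∈ D, f x = g (τ x)) : ContinuousOn τ D := by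
  rw [hg.isInducing.continuousOn_iff]
  exact hf.continuousOn.congr fun x hx => (h x hx).symm

theorem one1_inj {f g : ℝ → M} (hf : IsOpenEmbedding f) {τ : ℝ → ℝ} {D : Set ℝ}
    (h : ∀ x ∈ D, f x = g (τ x)) : InjOn τ D := by
  intro x hx y hy hxy
  apply hf.injective
  rw [h x hx, h y hy, hxy]

theorem one1_ext {f g : ℝ → M} (hf : IsOpenEmbedding f) (hg : IsOpenEmbedding g) {τ : ℝ → ℝ}
    {D : Set ℝ} (hD : D.OrdConnected) (h : ∀ x ∈ D, f x = g (τ x)) {a b : ℝ} (hab : a < b)
    (ha : a ∈ D) (hb : b ∈ D) (hm : one1_Mo f g (Icc a b)) : StrictMonoOn τ D := by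
  have hc := one1_cont hf.continuous hg h
  have hi : InjOn τ D := one1_inj hf h
  have hlt : τ a < τ b := by
    obtain ⟨σ, -, h2, h3⟩ := hm
    have e1 : τ a = σ a := hg.injective ((h a ha).symm.trans (h3 a (left_mem_Icc.2 hab.le)))
    have e2 : τ b = σ b := hg.injective ((h b hb).symm.trans (h3 b (right_mem_Icc.2 hab.le)))
    rw [e1, e2]
    exact h2 (left_mem_Icc.2 hab.le) (right_mem_Icc.2 hab.le) hab
  intro x hx y hy hxy
  have hp : min a x ∈ D := by
    rcases min_choice a x with h | h <;> rw [h] <;> assumption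
  have hq : max b y ∈ D := by
    rcases max_choice b y with h | h <;> rw [h] <;> assumption
  have hpq : Icc (min a x) (max b y) ⊆ D := hD.out hp hq
  have hle : min a x ≤ max b y := (min_le_left a x).trans (hab.le.trans (le_max_left b y))
  rcases (hc.mono hpq).strictMonoOn_of_injOn_Icc' hle (hi.mono hpq) with h1 | h1
  · exact h1 ⟨min_le_right _ _, hxy.le.trans (le_max_right _ _)⟩
      ⟨(min_le_right _ _).trans hxy.le, le_max_right _ _⟩ hxy
  · have := h1 ⟨min_le_left a x, hab.le.trans (le_max_left b y)⟩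
      ⟨(min_le_left a x).trans hab.le, le_max_left b y⟩ hab
    linarith

theorem one1_right [T2Space M] {f g : ℝ → M} (hf : IsOpenEmbedding f) (hg : IsOpenEmbedding g)
    {x y ε : ℝ} (hε : 0 < ε) (hxy : f x = g y) (hm : one1_Mo f g (Icc x (x + ε))) :
    one1_Mo f g (Ici x) ∨ one1_Mo g f (Ici y) := by
  classical
  set t : ℝ → ℝ := fun z => Function.invFun g (f z) with ht
  have htO : ∀ z, f z ∈ range g → f z = g (t z) := fun z hz => (Function.invFun_eq hz).symm
  by_cases hall : ∀ z, x ≤ z → f z ∈ range g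
  · left
    have h : ∀ z ∈ Ici x, f z = g (t z) := fun z hz => htO z (hall z hz)
    exact ⟨t, one1_cont hf.continuous hg h, one1_ext hf hg ordConnected_Ici h
      (lt_add_of_pos_right x hε) self_mem_Ici (le_add_of_nonneg_right hε.le) hm, h⟩
  · right
    push Not at hall
    set S : Set ℝ := Ici x ∩ (f ⁻¹' range g)ᶜ with hS
    have hSc : IsClosed S :=
      isClosed_Ici.inter (hg.isOpen_range.preimage hf.continuous).isClosed_compl
    have hSn : S.Nonempty := by
      obtain ⟨z, h1, h2⟩ := hall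
      exact ⟨z, h1, h2⟩
    have hSb : BddBelow S := ⟨x, fun z hz => hz.1⟩
    set β := sInf S with hβd
    have hβ : β ∈ S := hSc.csInf_mem hSn hSb
    have hxβ : x < β := by
      refine lt_of_le_of_ne hβ.1 fun h => hβ.2 ?_
      rw [← h]
      exact ⟨y, hxy.symm⟩
    have hlt : ∀ z, x ≤ z → z < β → f z ∈ range g := fun z h1 h2 => by
      by_contra h3
      exact absurd (csInf_le hSb ⟨h1, h3⟩) (not_le.2 h2)
    have h : ∀ z ∈ Ico x β, f z = g (t z) := fun z hz => htO z (hlt z hz.1 hz.2)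
    have hx : t x = y := hg.injective ((htO x ⟨y, hxy.symm⟩).symm.trans hxy)
    have hb1 : x < min (x + ε) ((x + β) / 2) := lt_min (by linarith) (by linarith)
    have hb2 : min (x + ε) ((x + β) / 2) < β := (min_le_right _ _).trans_lt (by linarith)
    have hmono : StrictMonoOn t (Ico x β) :=
      one1_ext hf hg ordConnected_Ico h hb1 ⟨le_rfl, hxβ⟩ ⟨hb1.le, hb2⟩
        (hm.mono (Icc_subset_Icc_right (min_le_left _ _)))
    have hcont : ContinuousOn t (Ico x β) := one1_cont hf.continuous hg h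
    have hsurj : ∀ w, y ≤ w → ∃ z, z ∈ Ico x β ∧ t z = w := by
      intro w hw
      have hK : IsCompact (g '' Icc y w) := isCompact_Icc.image hg.continuous
      have hKc : IsClosed (g '' Icc y w) := hK.isClosed
      have hβK : f β ∈ (g '' Icc y w)ᶜ := fun h => hβ.2 (image_subset_range _ _ h)
      have hev : ∀ᶠ z in 𝓝 β, f z ∈ (g '' Icc y w)ᶜ :=
        hf.continuous.continuousAt.eventually (hKc.isOpen_compl.mem_nhds hβK)
      have hev1 : ∀ᶠ z in 𝓝[<] β, f z ∈ (g '' Icc y w)ᶜ := hev.filter_mono nhdsWithin_le_nhds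
      have hev2 : ∀ᶠ z in 𝓝[<] β, x < z := (lt_mem_nhds hxβ).filter_mono nhdsWithin_le_nhds
      have hev3 : ∀ᶠ z in 𝓝[<] β, z < β := self_mem_nhdsWithin
      obtain ⟨z, h1, h2, h3⟩ := (hev1.and (hev2.and hev3)).exists
      have hz : z ∈ Ico x β := ⟨h2.le, h3⟩
      have hty : y < t z := by
        rw [← hx]
        exact hmono ⟨le_rfl, hxβ⟩ hz h2
      have htw : w < t z := by
        by_contra h4
        exact h1 ⟨t z, ⟨hty.le, not_lt.1 h4⟩, (h z hz).symm⟩
      have hsub : Icc x z ⊆ Ico x β := fun a ha => ⟨ha.1, lt_of_le_of_lt ha.2 h3⟩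
      have hiv := intermediate_value_Icc h2.le (hcont.mono hsub)
      obtain ⟨a, ha, hta⟩ := hiv ⟨by rw [hx]; exact hw, htw.le⟩
      exact ⟨a, hsub ha, hta⟩
    choose! σ hσ using hsurj
    have h' : ∀ w ∈ Ici y, g w = f (σ w) := fun w hw => by
      rw [h _ (hσ w hw).1, (hσ w hw).2]
    refine ⟨σ, one1_cont hg.continuous hf h', ?_, h'⟩
    intro w hw w' hw' hww
    by_contra hc
    have := hmono.monotoneOn (hσ w' hw').1 (hσ w hw).1 (not_lt.1 hc)
    rw [(hσ w hw).2, (hσ w' hw').2] at this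
    linarith

theorem one1_negEmb {f : ℝ → M} (hf : IsOpenEmbedding f) : IsOpenEmbedding (fun z => f (-z)) :=
  hf.comp (Homeomorph.neg ℝ).isOpenEmbedding

theorem one1_left [T2Space M] {f g : ℝ → M} (hf : IsOpenEmbedding f) (hg : IsOpenEmbedding g)
    {x y ε : ℝ} (hε : 0 < ε) (hxy : f x = g y) (hm : one1_Mo f g (Icc (x - ε) x)) :
    one1_Mo f g (Iic x) ∨ one1_Mo g f (Iic y) := by
  have hm' : one1_Mo (fun z => f (-z)) (fun z => g (-z)) (Icc (-x) (-x + ε)) := by
    refine hm.neg.mono ?_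
    intro z hz
    constructor <;> linarith [hz.1, hz.2]
  rcases one1_right (one1_negEmb hf) (one1_negEmb hg) (x := -x) (y := -y) hε (by simpa using hxy) hm'
    with h | h
  · left
    have h1 := h.neg
    simp only [neg_neg] at h1
    refine h1.mono fun z hz => ?_
    exact neg_le_neg (show z ≤ x from hz)
  · right
    have h1 := h.neg
    simp only [neg_neg] at h1
    refine h1.mono fun z hz => ?_
    exact neg_le_neg (show z ≤ y from hz)

theorem one1_germ {f g : ℝ → M} (hf : IsOpenEmbedding f) (hg : IsOpenEmbedding g) {x y : ℝ}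
    (hxy : f x = g y) : ∃ ε : ℝ, 0 < ε ∧ (one1_Mo f g (Icc (x - ε) (x + ε)) ∨
      one1_Mo f (fun w => g (-w)) (Icc (x - ε) (x + ε))) := by
  classical
  have hO : IsOpen (f ⁻¹' range g) := hg.isOpen_range.preimage hf.continuous
  have hx : x ∈ f ⁻¹' range g := ⟨y, hxy.symm⟩
  obtain ⟨ε, hε, hsub⟩ : ∃ ε : ℝ, 0 < ε ∧ Icc (x - ε) (x + ε) ⊆ f ⁻¹' range g := by
    obtain ⟨δ, hδ, h⟩ := Metric.isOpen_iff.1 hO x hx
    refine ⟨δ / 2, half_pos hδ, fun z hz => h ?_⟩
    rw [Real.ball_eq_Ioo]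
    constructor <;> linarith [hz.1, hz.2]
  refine ⟨ε, hε, ?_⟩
  set t : ℝ → ℝ := fun z => Function.invFun g (f z) with ht
  have h : ∀ z ∈ Icc (x - ε) (x + ε), f z = g (t z) := fun z hz =>
    (Function.invFun_eq (hsub hz)).symm
  have hc := one1_cont hf.continuous hg h
  have hi := one1_inj hf h
  rcases hc.strictMonoOn_of_injOn_Icc' (by linarith) hi with h1 | h1
  · exact Or.inl ⟨t, hc, h1, h⟩
  · refine Or.inr ⟨fun z => -t z, hc.neg, ?_, fun z hz => by simpa using h z hz⟩
    intro a ha b hb hab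
    exact neg_lt_neg (h1 ha hb hab)

/-- other common points -/
theorem one1_N [T2Space M] {f g : ℝ → M} (hf : IsOpenEmbedding f) (hg : IsOpenEmbedding g)
    {x0 y0 : ℝ} (hxy0 : f x0 = g y0) (H1 : one1_Mo f g (Ici x0)) (H2 : one1_Mo g f (Iic y0))
    {x y : ℝ} (hxy : f x = g y) (hx : x < x0) (hy : y0 < y) :
    one1_Mo f g (Iic x) ∧ one1_Mo g f (Ici y) := by
  obtain ⟨τ1, -, hτ1, hτ1'⟩ := H1
  obtain ⟨σ2, -, hσ2, hσ2'⟩ := H2
  obtain ⟨ε, hε, hg1 | hg2⟩ := one1_germ hf hg hxy
  · constructor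
    · rcases one1_left hf hg hε hxy (hg1.mono (Icc_subset_Icc_right (by linarith))) with h | h
      · exact h
      · exfalso
        obtain ⟨σ, -, h2, h3⟩ := h
        have e1 : σ y = x := hf.injective ((h3 y self_mem_Iic).symm.trans hxy.symm)
        have e2 : σ y0 = x0 := hf.injective ((h3 y0 hy.le).symm.trans hxy0.symm)
        have := h2 (show y0 ∈ Iic y from hy.le) self_mem_Iic hy
        rw [e1, e2] at this
        linarith
    · rcases one1_right hf hg hε hxy (hg1.mono (Icc_subset_Icc_left (by linarith))) with h | h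
      · exfalso
        obtain ⟨τ, -, h2, h3⟩ := h
        have e1 : τ x = y := hg.injective ((h3 x self_mem_Ici).symm.trans hxy)
        have e2 : τ x0 = y0 := hg.injective ((h3 x0 hx.le).symm.trans hxy0)
        have := h2 self_mem_Ici (show x0 ∈ Ici x from hx.le) hx
        rw [e1, e2] at this
        linarith
      · exact h
  · exfalso
    have hxy' : f x = (fun w => g (-w)) (-y) := by simpa using hxy
    rcases one1_right hf (one1_negEmb hg) hε hxy' (hg2.mono (Icc_subset_Icc_left (by linarith)))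
      with h | h
    · obtain ⟨τ, -, h2, h3⟩ := h
      have e : ∀ z, x0 ≤ z → τ1 z = -τ z := fun z hz =>
        hg.injective ((hτ1' z hz).symm.trans (h3 z (hx.le.trans hz)))
      have a1 := hτ1 self_mem_Ici (show x0 + 1 ∈ Ici x0 by simp) (lt_add_one x0)
      have a2 := h2 (show x0 ∈ Ici x from hx.le) (show x0 + 1 ∈ Ici x by
        show x ≤ x0 + 1
        linarith) (lt_add_one x0)
      rw [e x0 le_rfl, e (x0 + 1) (by linarith)] at a1
      linarith
    · obtain ⟨σ, -, h2, h3⟩ := h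
      have e : ∀ v, v ≤ y0 → σ2 v = σ (-v) := by
        intro v hv
        have h4 := h3 (-v) (by
          show -y ≤ -v
          linarith)
        simp only [neg_neg] at h4
        exact hf.injective ((hσ2' v hv).symm.trans h4)
      have a1 := hσ2 (show y0 - 1 ∈ Iic y0 by simp) self_mem_Iic (sub_one_lt y0)
      have a2 := h2 (show -y0 ∈ Ici (-y) by
        show -y ≤ -y0
        linarith) (show -(y0 - 1) ∈ Ici (-y) by
        show -y ≤ -(y0 - 1)
        linarith) (by linarith)
      rw [e y0 le_rfl, e (y0 - 1) (by linarith)] at a1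
      linarith

/-- the case of a line -/
theorem one1_line {f g : ℝ → M} (hf : IsOpenEmbedding f) (hg : IsOpenEmbedding g)
    {x0 y0 : ℝ} (hxy0 : f x0 = g y0) (H1 : one1_Mo f g (Ici x0)) (H2 : one1_Mo g f (Iic y0))
    (hno : ∀ x y, x < x0 → y0 < y → f x ≠ g y) : IsLine (range f ∪ range g) := by
  classical
  obtain ⟨τ1, hτc, hτ1, hτ1'⟩ := H1
  obtain ⟨σ2, -, hσ2, hσ2'⟩ := H2
  have t0 : τ1 x0 = y0 := hg.injective ((hτ1' x0 self_mem_Ici).symm.trans hxy0)
  have s0 : σ2 y0 = x0 := hf.injective ((hσ2' y0 self_mem_Iic).symm.trans hxy0.symm)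
  set k : ℝ → M := fun x => if x ≤ x0 then f x else g (x - x0 + y0) with hk
  have k1 : ∀ x, x ≤ x0 → k x = f x := fun x hx => if_pos hx
  have k2 : ∀ x, x0 < x → k x = g (x - x0 + y0) := fun x hx => if_neg (not_le.2 hx)
  have hsh : IsOpenEmbedding (fun x : ℝ => g (x - x0 + y0)) := by
    have h1 : IsOpenEmbedding (fun x : ℝ => x - x0 + y0) :=
      ((Homeomorph.subRight x0).trans (Homeomorph.addRight y0)).isOpenEmbedding
    exact hg.comp h1
  refine ⟨k, ?_, ?_⟩
  · refine IsOpenEmbedding.of_continuous_injective_isOpenMap ?_ ?_ ?_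
    · refine Continuous.if_le hf.continuous hsh.continuous continuous_id continuous_const ?_
      intro x hx
      rw [hx, hxy0]
      congr 1
      ring
    · have key : ∀ a b, a ≤ x0 → x0 < b → k a ≠ k b := by
        intro a b ha hb hab
        rw [k1 a ha, k2 b hb] at hab
        rcases lt_or_eq_of_le ha with h | h
        · exact hno a _ h (by linarith) hab
        · rw [h, hxy0] at hab
          have := hg.injective hab
          linarith
      intro a b hab
      rcases le_or_gt a x0 with ha | ha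
      · rcases le_or_gt b x0 with hb | hb
        · rw [k1 a ha, k1 b hb] at hab
          exact hf.injective hab
        · exact absurd hab (key a b ha hb)
      · rcases le_or_gt b x0 with hb | hb
        · exact absurd hab.symm (key b a hb ha)
        · rw [k2 a ha, k2 b hb] at hab
          exact hsh.injective hab
    · rw [isOpenMap_iff_nhds_le]
      intro a
      rcases lt_trichotomy a x0 with ha | ha | ha
      · have h1 : k =ᶠ[𝓝 a] f := by
          filter_upwards [gt_mem_nhds ha] with z hz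
          exact k1 z hz.le
        rw [Filter.map_congr h1, k1 a ha.le]
        exact hf.isOpenMap.nhds_le a
      · rw [ha, k1 x0 le_rfl]
        intro U hU
        rw [Filter.mem_map] at hU
        apply hf.isOpenMap.nhds_le x0
        rw [Filter.mem_map]
        have h1 : ∀ᶠ z in 𝓝 x0, k z ∈ U := hU
        have h2 : Tendsto (fun z => τ1 z - y0 + x0) (𝓝[≥] x0) (𝓝 x0) := by
          have h3 : Tendsto τ1 (𝓝[≥] x0) (𝓝 (τ1 x0)) := hτc x0 self_mem_Ici
          rw [t0] at h3
          have h4 := (h3.sub_const y0).add_const x0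
          simpa using h4
        have h3 : ∀ᶠ z in 𝓝[≥] x0, k (τ1 z - y0 + x0) ∈ U := h2.eventually h1
        have h4 : ∀ᶠ z in 𝓝[≥] x0, f z ∈ U := by
          filter_upwards [h3, self_mem_nhdsWithin] with z hz hz'
          rcases lt_or_eq_of_le (show x0 ≤ z from hz') with h5 | h5
          · have h6 : y0 < τ1 z := by
              rw [← t0]
              exact hτ1 self_mem_Ici hz' h5
            rw [k2 _ (by linarith)] at hz
            rw [hτ1' z hz']
            have e : τ1 z - y0 + x0 - x0 + y0 = τ1 z := by ring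
            rw [e] at hz
            exact hz
          · rw [← h5, t0, k1 _ (by linarith)] at hz
            have e : y0 - y0 + x0 = x0 := by ring
            rw [e] at hz
            rw [← h5]
            exact hz
        have h5 : ∀ᶠ z in 𝓝[≤] x0, f z ∈ U := by
          filter_upwards [h1.filter_mono nhdsWithin_le_nhds, self_mem_nhdsWithin] with z hz hz'
          rw [k1 z hz'] at hz
          exact hz
        have h6 : ∀ᶠ z in 𝓝 x0, f z ∈ U := by
          rw [← nhdsLE_sup_nhdsGE, Filter.eventually_sup]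
          exact ⟨h5, h4⟩
        exact h6
      · have h1 : k =ᶠ[𝓝 a] fun x => g (x - x0 + y0) := by
          filter_upwards [lt_mem_nhds ha] with z hz
          exact k2 z hz
        rw [Filter.map_congr h1, k2 a ha]
        exact hsh.isOpenMap.nhds_le a
  · apply Subset.antisymm
    · rintro _ ⟨x, rfl⟩
      rcases le_or_gt x x0 with h | h
      · rw [k1 x h]
        exact Or.inl ⟨x, rfl⟩
      · rw [k2 x h]
        exact Or.inr ⟨_, rfl⟩
    · rintro _ (⟨x, rfl⟩ | ⟨y, rfl⟩)
      · rcases le_or_gt x x0 with h | h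
        · exact ⟨x, k1 x h⟩
        · have h1 : y0 < τ1 x := by
            rw [← t0]
            exact hτ1 self_mem_Ici h.le h
          refine ⟨τ1 x - y0 + x0, ?_⟩
          rw [k2 _ (by linarith), hτ1' x h.le]
          congr 1
          ring
      · rcases le_or_gt y y0 with h | h
        · have h1 : σ2 y ≤ x0 := by
            rw [← s0]
            exact hσ2.monotoneOn h self_mem_Iic h
          exact ⟨σ2 y, by rw [k1 _ h1, hσ2' y h]⟩
        · refine ⟨y - y0 + x0, ?_⟩
          rw [k2 _ (by linarith)]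
          congr 1
          ring

/-- two arcs with common ends form a closed curve -/
theorem one1_glue {F G : ℝ → M} (hF : ContinuousOn F (Icc (-1) 1)) (hG : ContinuousOn G (Icc (-1) 1))
    (iF : InjOn F (Icc (-1) 1)) (iG : InjOn G (Icc (-1) 1)) (e1 : F 1 = G 1)
    (e2 : F (-1) = G (-1))
    (J : ∀ r ∈ Icc (-1 : ℝ) 1, ∀ s ∈ Icc (-1 : ℝ) 1, F r = G s → (r = 1 ∧ s = 1) ∨
      (r = -1 ∧ s = -1)) :
    ∃ γ : ℂ → M, IsJordan γ ∧ γ '' UC = F '' Icc (-1) 1 ∪ G '' Icc (-1) 1 := by
  classical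
  set γ : ℂ → M := fun z => if 0 ≤ z.im then F z.re else G z.re with hγ
  have hre : ∀ z ∈ UC, z.re * z.re + z.im * z.im = 1 := by
    intro z hz
    have h1 : ‖z‖ = 1 := by simpa using hz
    have h2 : Complex.normSq z = 1 := by
      rw [Complex.normSq_eq_norm_sq, h1]
      norm_num
    rwa [Complex.normSq_apply] at h2
  have hI : ∀ z ∈ UC, z.re ∈ Icc (-1 : ℝ) 1 := by
    intro z hz
    have := hre z hz
    constructor <;> nlinarith [mul_self_nonneg z.im]
  have hU : ∀ z, 0 ≤ z.im → γ z = F z.re := fun z hz => if_pos hz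
  have hL : ∀ z ∈ UC, z.im ≤ 0 → γ z = G z.re := by
    intro z hz h
    rcases lt_or_eq_of_le h with h1 | h1
    · exact if_neg (not_le.2 h1)
    · rw [hU z h1.ge]
      have h2 := hre z hz
      rw [h1] at h2
      have h3 : (z.re - 1) * (z.re + 1) = 0 := by linarith
      rcases mul_eq_zero.1 h3 with h4 | h4
      · rw [show z.re = 1 by linarith]
        exact e1
      · rw [show z.re = -1 by linarith]
        exact e2
  have hmk : ∀ r ∈ Icc (-1 : ℝ) 1, ∃ s : ℝ, 0 ≤ s ∧ r * r + s * s = 1 := by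
    intro r hr
    refine ⟨Real.sqrt (1 - r * r), Real.sqrt_nonneg _, ?_⟩
    rw [Real.mul_self_sqrt (by nlinarith [hr.1, hr.2])]
    ring
  have hmem : ∀ r s : ℝ, r * r + s * s = 1 → (⟨r, s⟩ : ℂ) ∈ UC := by
    intro r s h
    have h2 : Complex.normSq (⟨r, s⟩ : ℂ) = 1 := by
      rw [Complex.normSq_apply]
      exact h
    rw [Complex.normSq_eq_norm_sq] at h2
    have h3 : ‖(⟨r, s⟩ : ℂ)‖ = 1 := by
      have := norm_nonneg (⟨r, s⟩ : ℂ)
      nlinarith
    simpa using h3
  refine ⟨γ, ⟨?_, ?_⟩, ?_⟩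
  · have hc1 : ContinuousOn γ (UC ∩ {z : ℂ | 0 ≤ z.im}) := by
      refine ContinuousOn.congr (f := fun z : ℂ => F z.re) ?_ fun z hz => hU z hz.2
      exact hF.comp Complex.continuous_re.continuousOn fun z hz => hI z hz.1
    have hc2 : ContinuousOn γ (UC ∩ {z : ℂ | z.im ≤ 0}) := by
      refine ContinuousOn.congr (f := fun z : ℂ => G z.re) ?_ fun z hz => hL z hz.1 hz.2
      exact hG.comp Complex.continuous_re.continuousOn fun z hz => hI z hz.1
    have hd1 : IsClosed (UC ∩ {z : ℂ | 0 ≤ z.im}) :=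
      isClosed_sphere.inter (isClosed_le continuous_const Complex.continuous_im)
    have hd2 : IsClosed (UC ∩ {z : ℂ | z.im ≤ 0}) :=
      isClosed_sphere.inter (isClosed_le Complex.continuous_im continuous_const)
    refine (hc1.union_of_isClosed hc2 hd1 hd2).mono fun z hz => ?_
    rcases le_total 0 z.im with h | h
    · exact Or.inl ⟨hz, h⟩
    · exact Or.inr ⟨hz, h⟩
  · have key : ∀ z ∈ UC, ∀ w ∈ UC, 0 ≤ z.im → w.im ≤ 0 → γ z = γ w → z = w := by
      intro z hz w hw h1 h2 h
      rw [hU z h1, hL w hw h2] at h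
      have hz' := hre z hz
      have hw' := hre w hw
      rcases J _ (hI z hz) _ (hI w hw) h with ⟨a, b⟩ | ⟨a, b⟩
      · rw [a] at hz'
        rw [b] at hw'
        refine Complex.ext (a.trans b.symm) ?_
        have h3 : z.im * z.im = 0 := by linarith
        have h4 : w.im * w.im = 0 := by linarith
        rw [mul_self_eq_zero.1 h3, mul_self_eq_zero.1 h4]
      · rw [a] at hz'
        rw [b] at hw'
        refine Complex.ext (a.trans b.symm) ?_
        have h3 : z.im * z.im = 0 := by linarith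
        have h4 : w.im * w.im = 0 := by linarith
        rw [mul_self_eq_zero.1 h3, mul_self_eq_zero.1 h4]
    intro z hz w hw h
    rcases le_total 0 z.im with h1 | h1 <;> rcases le_total 0 w.im with h2 | h2
    · rw [hU z h1, hU w h2] at h
      have hr := iF (hI z hz) (hI w hw) h
      have hz' := hre z hz
      have hw' := hre w hw
      rw [hr] at hz'
      refine Complex.ext hr ?_
      exact (mul_self_inj h1 h2).1 (by linarith)
    · exact key z hz w hw h1 h2 h
    · exact (key w hw z hz h2 h1 h.symm).symm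
    · rw [hL z hz h1, hL w hw h2] at h
      have hr := iG (hI z hz) (hI w hw) h
      have hz' := hre z hz
      have hw' := hre w hw
      rw [hr] at hz'
      refine Complex.ext hr ?_
      have h3 : -z.im = -w.im :=
        (mul_self_inj (neg_nonneg.2 h1) (neg_nonneg.2 h2)).1 (by nlinarith)
      linarith
  · apply Subset.antisymm
    · rintro _ ⟨z, hz, rfl⟩
      rcases le_total 0 z.im with h | h
      · rw [hU z h]
        exact Or.inl ⟨_, hI z hz, rfl⟩
      · rw [hL z hz h]
        exact Or.inr ⟨_, hI z hz, rfl⟩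
    · rintro _ (⟨r, hr, rfl⟩ | ⟨r, hr, rfl⟩)
      · obtain ⟨s, hs, h⟩ := hmk r hr
        exact ⟨⟨r, s⟩, hmem r s h, hU _ hs⟩
      · obtain ⟨s, hs, h⟩ := hmk r hr
        have h' := hmem r (-s) (by linarith [neg_mul_neg s s])
        exact ⟨⟨r, -s⟩, h', hL _ h' (neg_nonpos.2 hs)⟩

/-- the case of a circle -/
theorem one1_circle [T2Space M] {f g : ℝ → M} (hf : IsOpenEmbedding f) (hg : IsOpenEmbedding g)
    {x0 y0 x1 y1 : ℝ} (hxy0 : f x0 = g y0) (H1 : one1_Mo f g (Ici x0)) (H2 : one1_Mo g f (Iic y0))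
    (hx : x1 < x0) (hy : y0 < y1) (hxy1 : f x1 = g y1) : IsCirc (range f ∪ range g) := by
  have N := one1_N hf hg hxy0 H1 H2 hxy1 hx hy
  obtain ⟨⟨τN, hτNc, hτN, hτN'⟩, ⟨σN, hσNc, hσN, hσN'⟩⟩ := N
  have J : ∀ x y, x1 ≤ x → x ≤ x0 → y0 ≤ y → y ≤ y1 → f x = g y → (x = x1 ∧ y = y1) ∨
      (x = x0 ∧ y = y0) := by
    intro x y h1 h2 h3 h4 h
    rcases lt_or_eq_of_le h2 with h5 | h5
    · rcases lt_or_eq_of_le h3 with h6 | h6
      · left
        obtain ⟨⟨τ, -, t2, t3⟩, -⟩ := one1_N hf hg hxy0 H1 H2 h h5 h6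
        have a1 : τ x = y := hg.injective ((t3 x self_mem_Iic).symm.trans h)
        have a2 : τ x1 = y1 := hg.injective ((t3 x1 h1).symm.trans hxy1)
        rcases lt_or_eq_of_le h1 with h7 | h7
        · have := t2 (show x1 ∈ Iic x from h1) self_mem_Iic h7
          rw [a1, a2] at this
          linarith
        · refine ⟨h7.symm, ?_⟩
          rw [← a1, ← a2, h7]
      · exfalso
        rw [← h6, ← hxy0] at h
        exact h5.ne (hf.injective h)
    · right
      refine ⟨h5, ?_⟩
      rw [h5, hxy0] at h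
      exact (hg.injective h).symm
  obtain ⟨τ1, hτ1c, hτ1, hτ1'⟩ := H1
  obtain ⟨σ2, -, hσ2, hσ2'⟩ := H2
  have C1 : ∀ x, f x ∈ f '' Icc x1 x0 ∪ g '' Icc y0 y1 := by
    intro x
    rcases lt_or_ge x x1 with h | h
    · have a1 : τN x1 = y1 := hg.injective ((hτN' x1 self_mem_Iic).symm.trans hxy1)
      have a2 : τN x < y1 := by
        rw [← a1]
        exact hτN (show x ∈ Iic x1 from h.le) self_mem_Iic h
      rcases le_or_gt y0 (τN x) with h3 | h3
      · rw [hτN' x h.le]
        exact Or.inr ⟨_, ⟨h3, a2.le⟩, rfl⟩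
      · exfalso
        have hiv := intermediate_value_Icc h.le (hτNc.mono fun z hz => hz.2)
        obtain ⟨z, hz, hz'⟩ := hiv ⟨h3.le, by rw [a1]; exact hy.le⟩
        have h4 := hτN' z hz.2
        rw [hz', ← hxy0] at h4
        have := hf.injective h4
        linarith [hz.2]
    · rcases le_or_gt x x0 with h2 | h2
      · exact Or.inl ⟨x, ⟨h, h2⟩, rfl⟩
      · have a1 : τ1 x0 = y0 := hg.injective ((hτ1' x0 self_mem_Ici).symm.trans hxy0)
        have a2 : y0 < τ1 x := by
          rw [← a1]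
          exact hτ1 self_mem_Ici (show x ∈ Ici x0 from h2.le) h2
        rcases le_or_gt (τ1 x) y1 with h3 | h3
        · rw [hτ1' x h2.le]
          exact Or.inr ⟨_, ⟨a2.le, h3⟩, rfl⟩
        · exfalso
          have hiv := intermediate_value_Icc h2.le (hτ1c.mono fun z hz => hz.1)
          obtain ⟨z, hz, hz'⟩ := hiv ⟨by rw [a1]; exact hy.le, h3.le⟩
          have h4 := hτ1' z hz.1
          rw [hz', ← hxy1] at h4
          have := hf.injective h4
          linarith [hz.1]
  have C2 : ∀ y, g y ∈ f '' Icc x1 x0 ∪ g '' Icc y0 y1 := by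
    intro y
    rcases lt_or_ge y y0 with h | h
    · rw [hσ2' y h.le]
      exact C1 _
    · rcases le_or_gt y y1 with h2 | h2
      · exact Or.inr ⟨y, ⟨h, h2⟩, rfl⟩
      · rw [hσN' y h2.le]
        exact C1 _
  have hd0 : (0 : ℝ) < (x0 - x1) / 2 := by linarith
  have hd1 : (0 : ℝ) < (y1 - y0) / 2 := by linarith
  set p : ℝ → ℝ := fun r => x1 + (1 - r) * ((x0 - x1) / 2) with hp
  set q : ℝ → ℝ := fun r => y1 - (1 - r) * ((y1 - y0) / 2) with hq
  have pI : ∀ r ∈ Icc (-1 : ℝ) 1, x1 ≤ p r ∧ p r ≤ x0 := by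
    intro r hr
    have h1 : 0 ≤ (1 - r) * ((x0 - x1) / 2) := mul_nonneg (by linarith [hr.2]) hd0.le
    have h2 : 0 ≤ (1 + r) * ((x0 - x1) / 2) := mul_nonneg (by linarith [hr.1]) hd0.le
    constructor
    · show x1 ≤ x1 + (1 - r) * ((x0 - x1) / 2)
      linarith
    · show x1 + (1 - r) * ((x0 - x1) / 2) ≤ x0
      linarith
  have qI : ∀ r ∈ Icc (-1 : ℝ) 1, y0 ≤ q r ∧ q r ≤ y1 := by
    intro r hr
    have h1 : 0 ≤ (1 - r) * ((y1 - y0) / 2) := mul_nonneg (by linarith [hr.2]) hd1.le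
    have h2 : 0 ≤ (1 + r) * ((y1 - y0) / 2) := mul_nonneg (by linarith [hr.1]) hd1.le
    constructor
    · show y0 ≤ y1 - (1 - r) * ((y1 - y0) / 2)
      linarith
    · show y1 - (1 - r) * ((y1 - y0) / 2) ≤ y1
      linarith
  have pinj : ∀ r s, p r = p s → r = s := by
    intro r s h
    have h1 : x1 + (1 - r) * ((x0 - x1) / 2) = x1 + (1 - s) * ((x0 - x1) / 2) := h
    have h2 : (1 - r) * ((x0 - x1) / 2) = (1 - s) * ((x0 - x1) / 2) := by linarith
    have := mul_right_cancel₀ hd0.ne' h2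
    linarith
  have qinj : ∀ r s, q r = q s → r = s := by
    intro r s h
    have h1 : y1 - (1 - r) * ((y1 - y0) / 2) = y1 - (1 - s) * ((y1 - y0) / 2) := h
    have h2 : (1 - r) * ((y1 - y0) / 2) = (1 - s) * ((y1 - y0) / 2) := by linarith
    have := mul_right_cancel₀ hd1.ne' h2
    linarith
  have p1 : p 1 = x1 := by
    show x1 + (1 - 1) * ((x0 - x1) / 2) = x1
    ring
  have p2 : p (-1) = x0 := by
    show x1 + (1 - -1) * ((x0 - x1) / 2) = x0
    ring
  have q1 : q 1 = y1 := by
    show y1 - (1 - 1) * ((y1 - y0) / 2) = y1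
    ring
  have q2 : q (-1) = y0 := by
    show y1 - (1 - -1) * ((y1 - y0) / 2) = y0
    ring
  have pc : Continuous p := by
    rw [hp]
    fun_prop
  have qc : Continuous q := by
    rw [hq]
    fun_prop
  have pim : ∀ x ∈ Icc x1 x0, ∃ r ∈ Icc (-1 : ℝ) 1, p r = x := by
    intro x hx
    refine ⟨1 - (x - x1) / ((x0 - x1) / 2), ⟨?_, ?_⟩, ?_⟩
    · have : (x - x1) / ((x0 - x1) / 2) ≤ 2 := by
        rw [div_le_iff₀ hd0]
        linarith [hx.2]
      linarith
    · have : 0 ≤ (x - x1) / ((x0 - x1) / 2) := div_nonneg (by linarith [hx.1]) hd0.le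
      linarith
    · show x1 + (1 - (1 - (x - x1) / ((x0 - x1) / 2))) * ((x0 - x1) / 2) = x
      have : (x - x1) / ((x0 - x1) / 2) * ((x0 - x1) / 2) = x - x1 := div_mul_cancel₀ _ hd0.ne'
      linear_combination this
  have qim : ∀ y ∈ Icc y0 y1, ∃ r ∈ Icc (-1 : ℝ) 1, q r = y := by
    intro y hy
    refine ⟨1 - (y1 - y) / ((y1 - y0) / 2), ⟨?_, ?_⟩, ?_⟩
    · have : (y1 - y) / ((y1 - y0) / 2) ≤ 2 := by
        rw [div_le_iff₀ hd1]
        linarith [hy.1]
      linarith
    · have : 0 ≤ (y1 - y) / ((y1 - y0) / 2) := div_nonneg (by linarith [hy.2]) hd1.le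
      linarith
    · show y1 - (1 - (1 - (y1 - y) / ((y1 - y0) / 2))) * ((y1 - y0) / 2) = y
      have : (y1 - y) / ((y1 - y0) / 2) * ((y1 - y0) / 2) = y1 - y := div_mul_cancel₀ _ hd1.ne'
      linear_combination -this
  obtain ⟨γ, hγ, hγi⟩ := one1_glue (F := fun r => f (p r)) (G := fun r => g (q r))
    (hf.continuous.comp pc).continuousOn (hg.continuous.comp qc).continuousOn
    (fun r _ s _ h => pinj r s (hf.injective h)) (fun r _ s _ h => qinj r s (hg.injective h))
    (by rw [p1, q1]; exact hxy1) (by rw [p2, q2]; exact hxy0) (by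
      intro r hr s hs h
      rcases J _ _ (pI r hr).1 (pI r hr).2 (qI s hs).1 (qI s hs).2 h with ⟨a, b⟩ | ⟨a, b⟩
      · exact Or.inl ⟨pinj _ _ (a.trans p1.symm), qinj _ _ (b.trans q1.symm)⟩
      · exact Or.inr ⟨pinj _ _ (a.trans p2.symm), qinj _ _ (b.trans q2.symm)⟩)
  refine ⟨hf.isOpen_range.union hg.isOpen_range, γ, hγ, ?_⟩
  rw [hγi]
  apply Subset.antisymm
  · rintro _ (⟨r, -, rfl⟩ | ⟨r, -, rfl⟩)
    · exact Or.inl ⟨_, rfl⟩
    · exact Or.inr ⟨_, rfl⟩
  · have key : f '' Icc x1 x0 ∪ g '' Icc y0 y1 ⊆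
        (fun r => f (p r)) '' Icc (-1) 1 ∪ (fun r => g (q r)) '' Icc (-1) 1 := by
      rintro _ (⟨x, hx, rfl⟩ | ⟨y, hy, rfl⟩)
      · obtain ⟨r, hr, rfl⟩ := pim x hx
        exact Or.inl ⟨r, hr, rfl⟩
      · obtain ⟨r, hr, rfl⟩ := qim y hy
        exact Or.inr ⟨r, hr, rfl⟩
    rintro _ (⟨x, rfl⟩ | ⟨y, rfl⟩)
    · exact key (C1 x)
    · exact key (C2 y)

theorem one1_main [T2Space M] {f g : ℝ → M} (hf : IsOpenEmbedding f) (hg : IsOpenEmbedding g)
    {x0 y0 : ℝ} (hxy0 : f x0 = g y0) (H1 : one1_Mo f g (Ici x0)) (H2 : one1_Mo g f (Iic y0)) :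
    IsLine (range f ∪ range g) ∨ IsCirc (range f ∪ range g) := by
  by_cases h : ∃ x y, x < x0 ∧ y0 < y ∧ f x = g y
  · obtain ⟨x, y, h1, h2, h3⟩ := h
    exact Or.inr (one1_circle hf hg hxy0 H1 H2 h1 h2 h3)
  · refine Or.inl (one1_line hf hg hxy0 H1 H2 fun x y h1 h2 h3 => h ⟨x, y, h1, h2, h3⟩)

theorem one1_inc [T2Space M] {f g : ℝ → M} (hf : IsOpenEmbedding f) (hg : IsOpenEmbedding g)
    {x y ε : ℝ} (hε : 0 < ε) (hxy : f x = g y) (hm : one1_Mo f g (Icc (x - ε) (x + ε))) :
    range g ⊆ range f ∨ range f ⊆ range g ∨ IsLine (range f ∪ range g) ∨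
      IsCirc (range f ∪ range g) := by
  have hR := one1_right hf hg hε hxy (hm.mono (Icc_subset_Icc_left (by linarith)))
  have hL := one1_left hf hg hε hxy (hm.mono (Icc_subset_Icc_right (by linarith)))
  rcases hR with hR | hR <;> rcases hL with hL | hL
  · right
    left
    rintro _ ⟨z, rfl⟩
    rcases le_total x z with h | h
    · obtain ⟨τ, -, -, h3⟩ := hR
      exact ⟨_, (h3 z h).symm⟩
    · obtain ⟨τ, -, -, h3⟩ := hL
      exact ⟨_, (h3 z h).symm⟩
  · exact Or.inr (Or.inr (one1_main hf hg hxy hR hL))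
  · have h := one1_main hg hf hxy.symm hR hL
    rw [union_comm] at h
    exact Or.inr (Or.inr h)
  · left
    rintro _ ⟨z, rfl⟩
    rcases le_total y z with h | h
    · obtain ⟨τ, -, -, h3⟩ := hR
      exact ⟨_, (h3 z h).symm⟩
    · obtain ⟨τ, -, -, h3⟩ := hL
      exact ⟨_, (h3 z h).symm⟩

end one1

/-- two intersecting open lines -/
theorem thm_ONE1 : St_ONE1 := by
  intro M _ _ A B hA hB hAB
  obtain ⟨f, hf, rfl⟩ := hA
  obtain ⟨g, hg, rfl⟩ := hB
  obtain ⟨_, ⟨x, rfl⟩, ⟨y, hy⟩⟩ := hAB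
  obtain ⟨ε, hε, h | h⟩ := one1_germ hf hg hy.symm
  · exact one1_inc hf hg hε hy.symm h
  · have h1 := one1_inc hf (one1_negEmb hg) (x := x) (y := -y) hε (by simpa using hy.symm) h
    have h2 : range (fun z => g (-z)) = range g := by
      apply Subset.antisymm
      · rintro _ ⟨z, rfl⟩
        exact ⟨-z, rfl⟩
      · rintro _ ⟨z, rfl⟩
        exact ⟨-z, by simp⟩
    rwa [h2] at h1

end Pool.Agent.SRF
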