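import Pool.Agent.SRF.StB

set_option autoImplicit false

/-! # SRF ONE2: compact one dimensional manifolds are finite unions of circles -/

open Set Metric Filter Topology

namespace Pool.Agent.SRF

theorem one2_circ_clopen {M : Type} [TopologicalSpace M] [T2Space M] {A : Set M} (h : IsCirc A) :
    IsClopen A := by
  obtain ⟨ho, γ, hγ, rfl⟩ := h
  exact ⟨((isCompact_sphere (0 : ℂ) 1).image_of_continuousOn hγ.1).isClosed, ho⟩

theorem one2_line_conn {M : Type} [TopologicalSpace M] {A : Set M} (h : IsLine A) :
    IsPreconnected A := by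
  obtain ⟨f, hf, rfl⟩ := h
  exact isPreconnected_range hf.continuous

theorem one2_circ_conn {M : Type} [TopologicalSpace M] {A : Set M} (h : IsCirc A) :
    IsPreconnected A := by
  obtain ⟨ho, γ, hγ, rfl⟩ := h
  refine IsPreconnected.image (isPreconnected_sphere ?_ 0 1) γ hγ.1
  rw [Complex.rank_real_complex]
  exact_mod_cast one_lt_two

theorem one2_open {M : Type} [TopologicalSpace M] {A : Set M} (h : IsLine A ∨ IsCirc A) :
    IsOpen A := by
  rcases h with ⟨f, hf, rfl⟩ | h
  · exact hf.isOpen_range
  · exact h.1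

theorem one2_pair (h1 : St_ONE1) {M : Type} [TopologicalSpace M] [T2Space M] (A B : Set M)
    (hA : IsLine A ∨ IsCirc A) (hB : IsLine B ∨ IsCirc B) (hne : (A ∩ B).Nonempty) :
    B ⊆ A ∨ (IsLine (A ∪ B) ∨ IsCirc (A ∪ B)) := by
  rcases hB with hB | hB
  · rcases hA with hA | hA
    · rcases h1 M A B hA hB hne with h | h | h | h
      · exact Or.inl h
      · rw [union_eq_self_of_subset_left h]
        exact Or.inr (Or.inl hB)
      · exact Or.inr (Or.inl h)
      · exact Or.inr (Or.inr h)
    · left
      rw [inter_comm] at hne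
      exact (one2_line_conn hB).subset_isClopen (one2_circ_clopen hA) hne
  · right
    right
    have h : A ⊆ B := by
      rcases hA with hA | hA
      · exact (one2_line_conn hA).subset_isClopen (one2_circ_clopen hB) hne
      · exact (one2_circ_conn hA).subset_isClopen (one2_circ_clopen hB) hne
    rw [union_eq_self_of_subset_left h]
    exact hB

open Classical in
theorem one2_insert (h1 : St_ONE1) {M : Type} [TopologicalSpace M] [T2Space M] (n : ℕ) :
    ∀ (F : Finset (Set M)), F.card = n → (∀ A ∈ F, IsLine A ∨ IsCirc A) →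
      (∀ A ∈ F, ∀ A' ∈ F, A ≠ A' → Disjoint A A') → ∀ B : Set M, IsLine B ∨ IsCirc B →
      ∃ G : Finset (Set M), (∀ A ∈ G, IsLine A ∨ IsCirc A) ∧
        (∀ A ∈ G, ∀ A' ∈ G, A ≠ A' → Disjoint A A') ∧ (⋃ A ∈ G, A) = (⋃ A ∈ F, A) ∪ B := by
  induction n with
  | zero =>
    intro F hF hF1 hF2 B hB
    rw [Finset.card_eq_zero] at hF
    refine ⟨{B}, ?_, ?_, ?_⟩
    · intro A hA
      rw [Finset.mem_singleton.1 hA]
      exact hB
    · intro A hA A' hA' hne
      rw [Finset.mem_singleton.1 hA, Finset.mem_singleton.1 hA'] at hne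
      exact absurd rfl hne
    · rw [hF]
      simp
  | succ n ih =>
    intro F hF hF1 hF2 B hB
    by_cases hd : ∀ A ∈ F, Disjoint A B
    · refine ⟨insert B F, ?_, ?_, ?_⟩
      · intro A hA
        rcases Finset.mem_insert.1 hA with rfl | hA
        · exact hB
        · exact hF1 A hA
      · intro A hA A' hA' hne
        rcases Finset.mem_insert.1 hA with h | h <;> rcases Finset.mem_insert.1 hA' with h' | h'
        · exact absurd (h.trans h'.symm) hne
        · rw [h]
          exact (hd A' h').symm
        · rw [h']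
          exact hd A h
        · exact hF2 A h A' h' hne
      · rw [Finset.set_biUnion_insert, union_comm]
    · push Not at hd
      obtain ⟨A, hA, hAB⟩ := hd
      have hne : (A ∩ B).Nonempty := not_disjoint_iff_nonempty_inter.1 hAB
      rcases one2_pair h1 A B (hF1 A hA) hB hne with h | h
      · refine ⟨F, hF1, hF2, ?_⟩
        rw [union_eq_self_of_subset_right]
        exact h.trans (subset_biUnion_of_mem (u := fun A => A) hA)
      · obtain ⟨G, g1, g2, g3⟩ := ih (F.erase A) (by rw [Finset.card_erase_of_mem hA, hF]; rfl)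
          (fun A' hA' => hF1 A' (Finset.mem_of_mem_erase hA'))
          (fun A' hA' A'' hA'' => hF2 A' (Finset.mem_of_mem_erase hA') A''
            (Finset.mem_of_mem_erase hA'')) (A ∪ B) h
        refine ⟨G, g1, g2, ?_⟩
        rw [g3, ← union_assoc]
        congr 1
        conv_rhs => rw [← Finset.insert_erase hA, Finset.set_biUnion_insert]
        rw [union_comm]

open Classical in
theorem one2_cover (h1 : St_ONE1) {M : Type} [TopologicalSpace M] [T2Space M]
    (f : M → ℝ → M) (hf : ∀ p, IsOpenEmbedding (f p)) (t : Finset M) :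
    ∃ G : Finset (Set M), (∀ A ∈ G, IsLine A ∨ IsCirc A) ∧
      (∀ A ∈ G, ∀ A' ∈ G, A ≠ A' → Disjoint A A') ∧ (⋃ A ∈ G, A) = ⋃ p ∈ t, range (f p) := by
  induction t using Finset.induction_on with
  | empty => exact ⟨∅, by simp, by simp, by simp⟩
  | insert p t hp ih =>
    obtain ⟨G, g1, g2, g3⟩ := ih
    obtain ⟨G', k1, k2, k3⟩ := one2_insert h1 G.card G rfl g1 g2 (range (f p))
      (Or.inl ⟨f p, hf p, rfl⟩)
    refine ⟨G', k1, k2, ?_⟩
    rw [k3, g3, Finset.set_biUnion_insert, union_comm]

theorem thm_ONE2 (h1 : St_ONE1) : St_ONE2 := by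
  classical
  intro M _ _ _ hM
  choose f hf hf0 using hM
  obtain ⟨t, ht⟩ := isCompact_univ.elim_finite_subcover (fun p : M => range (f p))
    (fun p => (hf p).isOpen_range) (fun p _ => mem_iUnion.2 ⟨p, 0, hf0 p⟩)
  obtain ⟨G, g1, g2, g3⟩ := one2_cover h1 f hf t
  have hG : (⋃ A ∈ G, A) = univ := by
    rw [g3]
    exact univ_subset_iff.1 ht
  have hcirc : ∀ A ∈ G, IsCirc A := by
    intro A hA
    rcases g1 A hA with h | h
    · exfalso
      have hcl : IsClosed A := by
        have : A = (⋃ A' ∈ G.erase A, A')ᶜ := by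
          apply Subset.antisymm
          · intro x hx hx'
            simp only [mem_iUnion, exists_prop] at hx'
            obtain ⟨A', hA', hx'⟩ := hx'
            exact (disjoint_left.1 (g2 A hA A' (Finset.mem_of_mem_erase hA')
              (Finset.ne_of_mem_erase hA').symm)) hx hx'
          · intro x hx
            have hx1 : x ∈ ⋃ A ∈ G, A := by
              rw [hG]
              exact mem_univ x
            simp only [mem_iUnion, exists_prop] at hx1
            obtain ⟨A', hA', hx'⟩ := hx1
            by_contra hxA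
            apply hx
            simp only [mem_iUnion, exists_prop]
            refine ⟨A', Finset.mem_erase.2 ⟨?_, hA'⟩, hx'⟩
            rintro rfl
            exact hxA hx'
        rw [this, isClosed_compl_iff]
        exact isOpen_biUnion fun A' hA' => one2_open (g1 A' (Finset.mem_of_mem_erase hA'))
      obtain ⟨g, hg, rfl⟩ := h
      have hc : IsCompact (g '' univ) := by
        rw [image_univ]
        exact hcl.isCompact
      exact noncompact_univ ℝ (hg.isEmbedding.isCompact_iff.2 hc)
    · exact h
  let E := G.equivFin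
  have hch : ∀ A : G, ∃ γ : ℂ → M, IsJordan γ ∧ γ '' UC = A.1 := fun A => (hcirc A.1 A.2).2
  choose γ γ1 γ2 using hch
  refine ⟨G.card, fun i => γ (E.symm i), fun i => γ1 _, ?_, ?_⟩
  · intro i j hij
    rw [γ2, γ2]
    apply g2 _ (E.symm i).2 _ (E.symm j).2
    intro h
    exact hij (E.symm.injective (Subtype.ext h))
  · rw [← hG]
    ext x
    simp only [mem_iUnion, exists_prop]
    constructor
    · rintro ⟨A, hA, hx⟩
      refine ⟨E ⟨A, hA⟩, ?_⟩
      rw [Equiv.symm_apply_apply, γ2]
      exact hx
    · rintro ⟨i, hx⟩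
      rw [γ2] at hx
      exact ⟨_, (E.symm i).2, hx⟩

end Pool.Agent.SRF
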