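import Pool.Agent.SRF.StB
import Pool.Agent.SRF.TH
import Pool.Agent.SRF.CHN

set_option autoImplicit false

/-! # SRF, PDT: moving a closed disc onto another one inside the unit disc (helper58)

`F₁` (theta lemma) maps the crosscut `[-1,a] J₁ [b,1]` to the straight segment `[-1,1]`; the other arc
`J₂` goes to an arc in the upper or in the lower half disc, which `F₂` (theta lemma in the half disc)
maps to a standard one. The two cases are exchanged by a twist. -/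

open Set Metric Filter Topology

namespace Pool.Agent.SRF

theorem pdt_circ (h : ℂ ≃ₜ ℂ) (hh : h '' UC = UC) : h '' CD = CD := by
  have h1 : ∀ k : ℂ ≃ₜ ℂ, k '' UC = UC → k '' CD ⊆ CD := by
    intro k hk
    rintro _ ⟨z, hz, rfl⟩
    refine (th_in isClosed_closedBall isBounded_closedBall k (fun z hz => ?_)).1 z hz
    rw [frontier_closedBall (0 : ℂ) one_ne_zero] at hz
    have h2 : k z ∈ k '' UC := ⟨z, hz, rfl⟩
    rw [hk] at h2
    exact sphere_subset_closedBall h2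
  refine subset_antisymm (h1 h hh) ?_
  intro z hz
  have h2 : h.symm '' UC = UC := by
    conv_lhs => rw [← hh]
    rw [← image_comp]
    simp
  exact ⟨h.symm z, h1 h.symm h2 ⟨z, hz, rfl⟩, h.apply_symm_apply z⟩

/-! ### the twist -/

theorem pdt_cnorm (t : ℝ) : ‖cexpi t‖ = 1 := Complex.norm_exp_ofReal_mul_I t

theorem pdt_ccont : Continuous cexpi := by
  unfold cexpi
  fun_prop

theorem pdt_cinv (t : ℝ) : cexpi t * cexpi (-t) = 1 := by
  unfold cexpi
  rw [← Complex.exp_add]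
  have : ((t : ℂ) * Complex.I + ((-t : ℝ) : ℂ) * Complex.I) = 0 := by
    push_cast; ring
  rw [this, Complex.exp_zero]

theorem pdt_cpi : cexpi Real.pi = -1 := by
  unfold cexpi
  exact Complex.exp_pi_mul_I

/-- the angle -/
noncomputable def pdt_ang (r : ℝ) : ℝ := Real.pi * min 1 (max 0 (2 - 2 * r))

theorem pdt_ang_cont : Continuous pdt_ang := by
  unfold pdt_ang
  fun_prop

theorem pdt_twist : ∃ G : ℂ ≃ₜ ℂ, (∀ z, z ∉ OD → G z = z) ∧ ∀ z, ‖z‖ ≤ 1 / 2 → G z = -z := by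
  have hc : ∀ s : ℝ, Continuous fun z : ℂ => z * cexpi (s * pdt_ang ‖z‖) := by
    intro s
    exact continuous_id.mul (pdt_ccont.comp (continuous_const.mul
      (pdt_ang_cont.comp continuous_norm)))
  have hn : ∀ (s : ℝ) (z : ℂ), ‖z * cexpi (s * pdt_ang ‖z‖)‖ = ‖z‖ := by
    intro s z
    rw [norm_mul, pdt_cnorm, mul_one]
  refine ⟨{ toFun := fun z => z * cexpi (1 * pdt_ang ‖z‖)
            invFun := fun z => z * cexpi (-1 * pdt_ang ‖z‖)
            left_inv := fun z => ?_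
            right_inv := fun z => ?_
            continuous_toFun := hc 1
            continuous_invFun := hc (-1) }, ?_, ?_⟩
  · show z * cexpi (1 * pdt_ang ‖z‖) * cexpi (-1 * pdt_ang ‖z * cexpi (1 * pdt_ang ‖z‖)‖) = z
    rw [hn, mul_assoc, one_mul, neg_one_mul, pdt_cinv, mul_one]
  · show z * cexpi (-1 * pdt_ang ‖z‖) * cexpi (1 * pdt_ang ‖z * cexpi (-1 * pdt_ang ‖z‖)‖) = z
    rw [hn, mul_assoc, one_mul, neg_one_mul, mul_comm (cexpi _), pdt_cinv, mul_one]
  · intro z hz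
    show z * cexpi (1 * pdt_ang ‖z‖) = z
    rw [mem_ball_zero_iff, not_lt] at hz
    have h1 : pdt_ang ‖z‖ = 0 := by
      unfold pdt_ang
      rw [max_eq_left (by linarith), min_eq_right (by norm_num), mul_zero]
    have h2 : cexpi 0 = 1 := by unfold cexpi; simp
    rw [h1, mul_zero, h2, mul_one]
  · intro z hz
    show z * cexpi (1 * pdt_ang ‖z‖) = -z
    have h1 : pdt_ang ‖z‖ = Real.pi := by
      unfold pdt_ang
      rw [max_eq_right (by linarith), min_eq_left (by linarith), mul_one]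
    rw [h1, one_mul, pdt_cpi, mul_neg_one]

/-! ### the standard curve -/

/-- the straight part -/
noncomputable def pdt_S (x : ℝ) : ℂ := ((2 * x - 1) / 3 : ℝ)

/-- the curved part -/
noncomputable def pdt_M (e x : ℝ) : ℂ := ⟨(2 * x - 1) / 3, e * (x * (1 - x))⟩

/-- the standard curve -/
def pdt_C (e : ℝ) : Set ℂ := pdt_S '' Icc 0 1 ∪ pdt_M e '' Icc 0 1

theorem pdt_C_norm {e : ℝ} (he : e ^ 2 = 1) {z : ℂ} (hz : z ∈ pdt_C e) : ‖z‖ ≤ 1 / 2 := by
  have h1 : ‖z‖ ^ 2 ≤ (1 / 2) ^ 2 := by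
    rw [th_norm_sq]
    rcases hz with ⟨x, hx, rfl⟩ | ⟨x, hx, rfl⟩
    · unfold pdt_S
      rw [Complex.ofReal_re, Complex.ofReal_im]
      nlinarith [hx.1, hx.2]
    · unfold pdt_M
      simp only
      have h2 : (e * (x * (1 - x))) ^ 2 = (x * (1 - x)) ^ 2 := by rw [mul_pow, he, one_mul]
      rw [h2]
      have h3 : 0 ≤ x * (1 - x) := mul_nonneg hx.1 (by linarith [hx.2])
      have h4 : x * (1 - x) ≤ 1 / 4 := by nlinarith [sq_nonneg (x - 1 / 2)]
      have h5 : (x * (1 - x)) ^ 2 ≤ (1 / 4) ^ 2 := by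
        exact pow_le_pow_left₀ h3 h4 2
      nlinarith [hx.1, hx.2]
  exact le_of_sq_le_sq h1 (by norm_num)

theorem pdt_C_neg (e : ℝ) (G : ℂ ≃ₜ ℂ) (he : e ^ 2 = 1) (hG : ∀ z, ‖z‖ ≤ 1 / 2 → G z = -z) :
    G '' pdt_C e = pdt_C (-e) := by
  have h1 : G '' pdt_C e = (fun z => -z) '' pdt_C e :=
    image_congr fun z hz => hG z (pdt_C_norm he hz)
  rw [h1]
  have hS : ∀ x, -(pdt_S x) = pdt_S (1 - x) := by
    intro x
    unfold pdt_S
    push_cast; ring
  have hM : ∀ x, -(pdt_M e x) = pdt_M (-e) (1 - x) := by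
    intro x
    unfold pdt_M
    apply Complex.ext
    · simp only [Complex.neg_re]; ring
    · simp only [Complex.neg_im]; ring
  have hI : ∀ x, x ∈ Icc (0 : ℝ) 1 → 1 - x ∈ Icc (0 : ℝ) 1 :=
    fun x hx => ⟨by linarith [hx.2], by linarith [hx.1]⟩
  unfold pdt_C
  rw [image_union]
  congr 1
  · ext z
    constructor
    · rintro ⟨_, ⟨x, hx, rfl⟩, rfl⟩
      exact ⟨1 - x, hI x hx, (hS x).symm⟩
    · rintro ⟨x, hx, rfl⟩
      refine ⟨_, ⟨1 - x, hI x hx, rfl⟩, ?_⟩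
      show -(pdt_S (1 - x)) = _
      rw [hS, sub_sub_cancel]
  · ext z
    constructor
    · rintro ⟨_, ⟨x, hx, rfl⟩, rfl⟩
      exact ⟨1 - x, hI x hx, (hM x).symm⟩
    · rintro ⟨x, hx, rfl⟩
      refine ⟨_, ⟨1 - x, hI x hx, rfl⟩, ?_⟩
      show -(pdt_M e (1 - x)) = _
      rw [hM, sub_sub_cancel]

/-! ### extreme points -/

theorem pdt_ext (g : ℂ ≃ₜ ℂ) (s : ℝ) (hs : s ≠ 0) :
    ∃ ζ ∈ UC, ∀ z ∈ g '' CD, s * (g ζ).re ≤ s * z.re := by
  have hc : IsCompact (g '' CD) := (isCompact_closedBall 0 1).image g.continuous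
  have hne : (g '' CD).Nonempty := ⟨_, ⟨0, by simp, rfl⟩⟩
  have hf : ContinuousOn (fun z : ℂ => s * z.re) (g '' CD) := by fun_prop
  obtain ⟨_, ⟨ζ, hζ, rfl⟩, hmin⟩ := hc.exists_isMinOn hne hf
  refine ⟨ζ, ?_, fun z hz => hmin hz⟩
  by_contra hcon
  have h1 : ζ ∈ OD := by
    rw [mem_ball_zero_iff]
    rw [mem_closedBall_zero_iff] at hζ
    rw [mem_sphere_zero_iff_norm] at hcon
    exact lt_of_le_of_ne hζ hcon
  have h2 : g '' OD ∈ 𝓝 (g ζ) := (g.isOpenMap _ isOpen_ball).mem_nhds ⟨ζ, h1, rfl⟩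
  have h3 : Tendsto (fun t : ℝ => g ζ - ((t * s : ℝ) : ℂ)) (𝓝 0) (𝓝 (g ζ)) := by
    have : Continuous fun t : ℝ => g ζ - ((t * s : ℝ) : ℂ) := by fun_prop
    have h4 := this.tendsto 0
    simpa using h4
  obtain ⟨t, ht, ht0⟩ := ((h3.eventually_mem h2).filter_mono nhdsWithin_le_nhds |>.and
    (self_mem_nhdsWithin : Ioi (0 : ℝ) ∈ 𝓝[>] 0)).exists
  have h4 := hmin (image_mono ball_subset_closedBall ht)
  simp only [mem_ofPred_eq, Complex.sub_re, Complex.ofReal_re] at h4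
  have h5 : 0 < t * (s * s) := mul_pos ht0 (mul_self_pos.2 hs)
  nlinarith

/-! ### arcs of the circle -/

theorem pdt_cinj (s t : ℝ) (h : cexpi s = cexpi t) (hst : |s - t| < 2 * Real.pi) :
    s = t := by
  unfold cexpi at h
  rw [Complex.exp_eq_exp_iff_exists_int] at h
  obtain ⟨n, hn⟩ := h
  have h1 : (s : ℂ) = t + n * (2 * Real.pi) := by
    have hI := Complex.I_ne_zero
    apply mul_right_cancel₀ hI
    rw [hn]
    ring
  have h2 : s = t + n * (2 * Real.pi) := by exact_mod_cast h1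
  have hpi := Real.pi_pos
  have h3 : |(n : ℝ)| * (2 * Real.pi) < 1 * (2 * Real.pi) := by
    have h4 : s - t = n * (2 * Real.pi) := by linarith
    rw [h4, abs_mul, abs_of_pos (by positivity : (0 : ℝ) < 2 * Real.pi)] at hst
    linarith
  have h5 : |(n : ℝ)| < 1 := lt_of_mul_lt_mul_right h3 (by positivity)
  have h6 : n = 0 := by
    rw [← Int.cast_abs] at h5
    have h7 : |n| < 1 := by exact_mod_cast h5
    exact Int.abs_lt_one_iff.1 h7
  rw [h6] at h2
  simpa using h2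

theorem pdt_csurj (w : ℂ) (hw : w ∈ UC) : ∃ t : ℝ, 0 ≤ t ∧ t < 2 * Real.pi ∧ cexpi t = w := by
  rw [mem_sphere_zero_iff_norm] at hw
  have h1 : Complex.exp (Complex.arg w * Complex.I) = w := by
    have h2 := Complex.norm_mul_exp_arg_mul_I w
    rw [hw] at h2
    simpa using h2
  have hpi := Real.pi_pos
  rcases le_or_gt 0 (Complex.arg w) with h | h
  · exact ⟨Complex.arg w, h, by linarith [Complex.arg_le_pi w], h1⟩
  · refine ⟨Complex.arg w + 2 * Real.pi, by linarith [Complex.neg_pi_lt_arg w], by linarith, ?_⟩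
    unfold cexpi
    have h3 : ((Complex.arg w + 2 * Real.pi : ℝ) : ℂ) * Complex.I =
        Complex.arg w * Complex.I + 2 * Real.pi * Complex.I := by
      push_cast
      ring
    rw [h3, Complex.exp_add, Complex.exp_two_pi_mul_I, mul_one, h1]

theorem pdt_cadd (s t : ℝ) : cexpi (s + t) = cexpi s * cexpi t := by
  unfold cexpi
  rw [← Complex.exp_add]
  congr 1
  push_cast; ring

theorem pdt_cper (t : ℝ) : cexpi (t - 2 * Real.pi) = cexpi t := by
  unfold cexpi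
  have h3 : ((t - 2 * Real.pi : ℝ) : ℂ) * Complex.I =
      t * Complex.I - 2 * Real.pi * Complex.I := by
    push_cast
    ring
  rw [h3, Complex.exp_sub, Complex.exp_two_pi_mul_I, div_one]

/-- the two arcs of the circle between two points -/
theorem pdt_arcs (a b : ℂ) (ha : a ∈ UC) (hb : b ∈ UC) (hab : a ≠ b) :
    ∃ κ₁ κ₂ : ℝ → ℂ, Continuous κ₁ ∧ Continuous κ₂ ∧ InjOn κ₁ (Icc 0 1) ∧ InjOn κ₂ (Icc 0 1) ∧
      κ₁ 0 = a ∧ κ₁ 1 = b ∧ κ₂ 0 = a ∧ κ₂ 1 = b ∧ UC = κ₁ '' Icc 0 1 ∪ κ₂ '' Icc 0 1 ∧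
      ∀ s ∈ Icc (0 : ℝ) 1, ∀ t ∈ Icc (0 : ℝ) 1, κ₁ s = κ₂ t → t = 0 ∨ t = 1 := by
  have hpi := Real.pi_pos
  obtain ⟨α, hα⟩ : ∃ α : ℝ, cexpi α = a := by
    obtain ⟨t, -, -, h⟩ := pdt_csurj a ha
    exact ⟨t, h⟩
  have hrot : ∀ w ∈ UC, ∃ r : ℝ, 0 ≤ r ∧ r < 2 * Real.pi ∧ cexpi (α + r) = w := by
    intro w hw
    have h1 : w * cexpi (-α) ∈ UC := by
      rw [mem_sphere_zero_iff_norm] at hw ⊢
      rw [norm_mul, hw, pdt_cnorm, mul_one]
    obtain ⟨r, h2, h3, h4⟩ := pdt_csurj _ h1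
    refine ⟨r, h2, h3, ?_⟩
    rw [pdt_cadd, h4, mul_comm w, ← mul_assoc, pdt_cinv, one_mul]
  obtain ⟨δ, hδ0, hδ1, hδ⟩ := hrot b hb
  have hδp : 0 < δ := by
    refine lt_of_le_of_ne hδ0 fun h => hab ?_
    rw [← hα, ← hδ, ← h, add_zero]
  have hδ' : 0 < 2 * Real.pi - δ := by linarith
  refine ⟨fun t => cexpi (α + t * δ), fun t => cexpi (α - t * (2 * Real.pi - δ)), ?_, ?_, ?_, ?_,
    ?_, ?_, ?_, ?_, ?_, ?_⟩
  · exact pdt_ccont.comp (by fun_prop)
  · exact pdt_ccont.comp (by fun_prop)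
  · intro s hs t ht h
    have h1 := pdt_cinj _ _ h (by
      rw [abs_lt]
      constructor <;> nlinarith [hs.1, hs.2, ht.1, ht.2])
    have h2 : s * δ = t * δ := by linarith
    exact mul_right_cancel₀ hδp.ne' h2
  · intro s hs t ht h
    have h1 := pdt_cinj _ _ h (by
      rw [abs_lt]
      constructor <;> nlinarith [hs.1, hs.2, ht.1, ht.2])
    have h2 : s * (2 * Real.pi - δ) = t * (2 * Real.pi - δ) := by linarith
    exact mul_right_cancel₀ hδ'.ne' h2
  · simp [hα]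
  · simp [hδ]
  · simp [hα]
  · show cexpi (α - 1 * (2 * Real.pi - δ)) = b
    rw [one_mul, show α - (2 * Real.pi - δ) = (α + δ) - 2 * Real.pi by ring, pdt_cper, hδ]
  · ext w
    constructor
    · intro hw
      obtain ⟨r, h1, h2, h3⟩ := hrot w hw
      rcases le_or_gt r δ with h4 | h4
      · left
        refine ⟨r / δ, ⟨by positivity, (div_le_one hδp).2 h4⟩, ?_⟩
        show cexpi (α + r / δ * δ) = w
        rw [div_mul_cancel₀ _ hδp.ne', h3]
      · right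
        refine ⟨(2 * Real.pi - r) / (2 * Real.pi - δ), ⟨div_nonneg (by linarith) hδ'.le,
          (div_le_one hδ').2 (by linarith)⟩, ?_⟩
        show cexpi (α - (2 * Real.pi - r) / (2 * Real.pi - δ) * (2 * Real.pi - δ)) = w
        rw [div_mul_cancel₀ _ hδ'.ne', show α - (2 * Real.pi - r) = (α + r) - 2 * Real.pi by ring,
          pdt_cper, h3]
    · rintro (⟨t, -, rfl⟩ | ⟨t, -, rfl⟩)
      · exact mem_sphere_zero_iff_norm.2 (pdt_cnorm _)
      · exact mem_sphere_zero_iff_norm.2 (pdt_cnorm _)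
  · intro s hs t ht h
    by_contra hcon
    push Not at hcon
    have ht0 : 0 < t := lt_of_le_of_ne ht.1 (Ne.symm hcon.1)
    have ht1 : t < 1 := lt_of_le_of_ne ht.2 hcon.2
    have h0 : 0 < t * (2 * Real.pi - δ) := mul_pos ht0 hδ'
    have h0' : t * (2 * Real.pi - δ) < 2 * Real.pi - δ := by nlinarith
    have h0'' : s * δ ≤ δ := by nlinarith [hs.2]
    have h0''' : 0 ≤ s * δ := mul_nonneg hs.1 hδp.le
    have h1 := pdt_cinj _ _ h (by
      rw [abs_lt]
      constructor <;> linarith)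
    linarith

/-! ### the straight crosscut -/

theorem pdt_lt (g : ℂ ≃ₜ ℂ) (a b : ℂ) (ha : ∀ z ∈ g '' CD, a.re ≤ z.re)
    (hb : ∀ z ∈ g '' CD, z.re ≤ b.re) : a.re < b.re := by
  have h2 : g '' OD ∈ 𝓝 (g 0) := (g.isOpenMap _ isOpen_ball).mem_nhds ⟨0, by simp, rfl⟩
  have h3 : Tendsto (fun t : ℝ => g 0 + (t : ℂ)) (𝓝 0) (𝓝 (g 0)) := by
    have : Continuous fun t : ℝ => g 0 + (t : ℂ) := by fun_prop
    have h4 := this.tendsto 0
    simpa using h4
  obtain ⟨t, ht, ht0⟩ := ((h3.eventually_mem h2).filter_mono nhdsWithin_le_nhds |>.and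
    (self_mem_nhdsWithin : Ioi (0 : ℝ) ∈ 𝓝[>] 0)).exists
  have h4 := hb _ (image_mono ball_subset_closedBall ht)
  have h5 := ha (g 0) ⟨0, by simp, rfl⟩
  rw [Complex.add_re, Complex.ofReal_re] at h4
  have h6 : 0 < t := ht0
  linarith

/-- a homeomorphism which is the identity off the open disc maps the open disc to itself -/
theorem pdt_OD (F : ℂ ≃ₜ ℂ) (hF : ∀ z, z ∉ OD → F z = z) {z : ℂ} (hz : z ∈ OD) : F z ∈ OD := by
  by_contra h
  have h1 := F.injective (hF _ h)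
  rw [h1] at h
  exact h hz

theorem pdt_seg1 {a : ℂ} (ha : a ∈ OD) {u : ℝ} (hu : 0 < u) (hu1 : u ≤ 1) {c : ℂ} (hc : ‖c‖ = 1) :
    c + u * (a - c) ∈ OD := by
  rw [mem_ball_zero_iff] at ha ⊢
  have h1 : c + u * (a - c) = ((1 - u : ℝ) : ℂ) * c + (u : ℂ) * a := by
    push_cast; ring
  rw [h1]
  calc ‖((1 - u : ℝ) : ℂ) * c + (u : ℂ) * a‖ ≤ ‖((1 - u : ℝ) : ℂ) * c‖ + ‖(u : ℂ) * a‖ :=
        norm_add_le _ _
    _ = (1 - u) + u * ‖a‖ := by
        rw [norm_mul, norm_mul, Complex.norm_real, Complex.norm_real, hc, mul_one,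
          Real.norm_of_nonneg (by linarith), Real.norm_of_nonneg hu.le]
    _ < 1 := by nlinarith

theorem pdt_one (hTH : St_TH) (g : ℂ ≃ₜ ℂ) (hg : g '' CD ⊆ OD) :
    ∃ (F : ℂ ≃ₜ ℂ) (e : ℝ), (e = 1 ∨ e = -1) ∧ (∀ z, z ∉ OD → F z = z) ∧
      F '' (g '' UC) = pdt_C e := by
  obtain ⟨ζa, hζa, hamin⟩ := pdt_ext g 1 one_ne_zero
  obtain ⟨ζb, hζb, hbmax⟩ := pdt_ext g (-1) (by norm_num)
  have hA : ∀ z ∈ g '' CD, (g ζa).re ≤ z.re := fun z hz => by linarith [hamin z hz]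
  have hB : ∀ z ∈ g '' CD, z.re ≤ (g ζb).re := fun z hz => by linarith [hbmax z hz]
  have hlt := pdt_lt g _ _ hA hB
  have hne : ζa ≠ ζb := by
    rintro rfl
    exact lt_irrefl _ hlt
  obtain ⟨κ₁, κ₂, hκ₁, hκ₂, hi₁, hi₂, h10, h11, h20, h21, hU, hint⟩ :=
    pdt_arcs ζa ζb hζa hζb hne
  have hm1 : ∀ t ∈ Icc (0 : ℝ) 1, κ₁ t ∈ UC := fun t ht => by
    rw [hU]; exact Or.inl ⟨t, ht, rfl⟩
  have hm2 : ∀ t ∈ Icc (0 : ℝ) 1, κ₂ t ∈ UC := fun t ht => by
    rw [hU]; exact Or.inr ⟨t, ht, rfl⟩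
  have hE : ∀ ζ ∈ UC, g ζ ∈ g '' CD := fun ζ hζ => ⟨ζ, sphere_subset_closedBall hζ, rfl⟩
  set a := g ζa with ha
  set b := g ζb with hb
  have haOD : a ∈ OD := hg (hE _ hζa)
  have hbOD : b ∈ OD := hg (hE _ hζb)
  have hare : -1 < a.re := by
    have h1 := abs_lt.1 (lt_of_le_of_lt (Complex.abs_re_le_norm a) (mem_ball_zero_iff.1 haOD))
    exact h1.1
  have hbre : b.re < 1 := by
    have h1 := abs_lt.1 (lt_of_le_of_lt (Complex.abs_re_le_norm b) (mem_ball_zero_iff.1 hbOD))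
    exact h1.2
  -- the three parts of the crosscut
  let p : ℝ → ℂ := fun u => -1 + u * (a - -1)
  let q : ℝ → ℂ := fun u => g (κ₁ u)
  let r : ℝ → ℂ := fun u => 1 + (1 - u : ℝ) * (b - 1)
  have hpre : ∀ u, (p u).re = -1 + u * (a.re + 1) := by
    intro u; simp [p]
  have hrre : ∀ u, (r u).re = b.re + u * (1 - b.re) := by
    intro u; simp [r]; ring
  have hp : IsArc p := by
    refine ⟨by fun_prop, fun u _ v _ h => ?_⟩
    have h1 := congrArg Complex.re h
    simp only [hpre] at h1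
    have h2 : u * (a.re + 1) = v * (a.re + 1) := by linarith
    exact mul_right_cancel₀ (by linarith) h2
  have hq : IsArc q := by
    refine ⟨(g.continuous.comp hκ₁).continuousOn, fun u hu v hv h => hi₁ hu hv (g.injective h)⟩
  have hr : IsArc r := by
    refine ⟨by fun_prop, fun u _ v _ h => ?_⟩
    have h1 := congrArg Complex.re h
    simp only [hrre] at h1
    have h2 : u * (1 - b.re) = v * (1 - b.re) := by linarith
    exact mul_right_cancel₀ (by linarith) h2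
  have hp0 : p 0 = -1 := by simp [p]
  have hp1 : p 1 = a := by simp [p]
  have hq0 : q 0 = a := by simp [q, h10, ha]
  have hq1 : q 1 = b := by simp [q, h11, hb]
  have hr0 : r 0 = b := by simp [r]
  have hr1 : r 1 = 1 := by simp [r]
  have hqE : ∀ u ∈ Icc (0 : ℝ) 1, q u ∈ g '' CD := fun u hu => hE _ (hm1 u hu)
  -- points of the disc on the segments
  have hpE : ∀ u ∈ Icc (0 : ℝ) 1, p u ∈ g '' CD → u = 1 := by
    intro u hu h
    have h1 := hA _ h
    rw [hpre] at h1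
    nlinarith [hu.2]
  have hrE : ∀ u ∈ Icc (0 : ℝ) 1, r u ∈ g '' CD → u = 0 := by
    intro u hu h
    have h1 := hB _ h
    rw [hrre] at h1
    nlinarith [hu.1]
  have hβ : IsArc (chn_cat p q r) := by
    refine chn_cat_arc hp hq hr (hp1.trans hq0.symm) (hq1.trans hr0.symm) ?_ ?_ ?_
    · intro x hx y hy h
      have h1 : x = 1 := hpE x hx (by rw [h]; exact hqE y hy)
      rw [h1, hp1, ← hq0] at h
      exact (hq.2 ⟨le_rfl, zero_le_one⟩ hy h).symm
    · intro x hx y hy h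
      have h1 : y = 0 := hrE y hy (by rw [← h]; exact hqE x hx)
      rw [h1, hr0, ← hq1] at h
      exact hq.2 hx ⟨zero_le_one, le_rfl⟩ h
    · intro x hx y hy h
      have h1 := congrArg Complex.re h
      rw [hpre, hrre] at h1
      nlinarith [hx.1, hx.2, hy.1, hy.2]
  have hpOD : ∀ u, 0 < u → u ≤ 1 → p u ∈ OD := fun u hu hu1 =>
    pdt_seg1 haOD hu hu1 (by simp)
  have hrOD : ∀ u, 0 ≤ u → u < 1 → r u ∈ OD := fun u hu hu1 =>
    pdt_seg1 hbOD (by linarith) (by linarith) (by simp)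
  have hcross : IsCross (Homeomorph.refl ℂ) (chn_cat p q r) := by
    refine ⟨hβ, ?_, ?_, ?_⟩
    · rw [chn_cat1 (by norm_num), mul_zero, hp0]
      exact ⟨-1, by simp, rfl⟩
    · rw [chn_cat3 (hq1.trans hr0.symm) (by norm_num)]
      norm_num
      rw [hr1]
      simp
    · intro t ht
      suffices hh : chn_cat p q r t ∈ OD from ⟨_, hh, rfl⟩
      rcases le_or_gt t (1 / 3) with h1 | h1
      · rw [chn_cat1 h1]
        exact hpOD _ (by linarith [ht.1]) (by linarith)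
      · rcases le_or_gt t (2 / 3) with h2 | h2
        · rw [chn_cat2 (hp1.trans hq0.symm) h1.le h2]
          exact hg (hqE _ ⟨by linarith, by linarith⟩)
        · rw [chn_cat3 (hq1.trans hr0.symm) h2.le]
          exact hrOD _ (by linarith) (by linarith [ht.2])
  let σ : ℝ → ℂ := fun t => ((2 * t - 1 : ℝ) : ℂ)
  have hσ : IsCross (Homeomorph.refl ℂ) σ := by
    refine ⟨⟨by fun_prop, fun u _ v _ h => ?_⟩, ⟨-1, by simp, ?_⟩, ⟨1, by simp, ?_⟩, ?_⟩
    · have h1 : (2 * u - 1 : ℝ) = 2 * v - 1 := Complex.ofReal_injective h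
      linarith
    · simp [σ]
    · simp [σ]; norm_num
    · intro t ht
      refine ⟨_, ?_, rfl⟩
      rw [mem_ball_zero_iff]
      show ‖((2 * t - 1 : ℝ) : ℂ)‖ < 1
      rw [Complex.norm_real, Real.norm_eq_abs, abs_lt]
      constructor <;> linarith [ht.1, ht.2]
  obtain ⟨F₁, hF₁', hF₁β⟩ := hTH _ _ _ hcross hσ (by
      rw [chn_cat1 (by norm_num), mul_zero, hp0]; simp [σ]) (by
      rw [chn_cat3 (hq1.trans hr0.symm) (by norm_num)]
      norm_num
      rw [hr1]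
      simp [σ]; norm_num)
  have hF₁ : ∀ z, z ∉ OD → F₁ z = z := by
    intro z hz
    apply hF₁'
    rintro ⟨w, hw, rfl⟩
    exact hz hw
  have hF₁p : ∀ u ∈ Icc (0 : ℝ) 1, F₁ (q u) = ((2 * u - 1) / 3 : ℝ) := by
    intro u hu
    have h1 := hF₁β ((u + 1) / 3) ⟨by linarith [hu.1], by linarith [hu.2]⟩
    rw [chn_cat2 (hp1.trans hq0.symm) (by linarith [hu.1]) (by linarith [hu.2])] at h1
    have h2 : 3 * ((u + 1) / 3) - 1 = u := by ring
    rw [h2] at h1
    rw [h1]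
    show ((2 * ((u + 1) / 3) - 1 : ℝ) : ℂ) = _
    congr 1
    ring
  -- the image of the second arc
  let K : ℝ → ℂ := fun t => F₁ (g (κ₂ t))
  have hKc : Continuous K := F₁.continuous.comp (g.continuous.comp hκ₂)
  have hK0 : K 0 = ((-1 / 3 : ℝ) : ℂ) := by
    have h1 := hF₁p 0 ⟨le_rfl, zero_le_one⟩
    rw [hq0] at h1
    show F₁ (g (κ₂ 0)) = _
    rw [h20, ← ha, h1]
    norm_num
  have hK1 : K 1 = ((1 / 3 : ℝ) : ℂ) := by
    have h1 := hF₁p 1 ⟨zero_le_one, le_rfl⟩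
    rw [hq1] at h1
    show F₁ (g (κ₂ 1)) = _
    rw [h21, ← hb, h1]
    norm_num
  have hKinj : InjOn K (Icc 0 1) := fun s hs t ht h => hi₂ hs ht (g.injective (F₁.injective h))
  have hKOD : ∀ t ∈ Icc (0 : ℝ) 1, K t ∈ OD := fun t ht =>
    pdt_OD F₁ hF₁ (hg (hE _ (hm2 t ht)))
  have hKim : ∀ t ∈ Ioo (0 : ℝ) 1, (K t).im ≠ 0 := by
    intro t ht him
    have htI : t ∈ Icc (0 : ℝ) 1 := ⟨ht.1.le, ht.2.le⟩
    have hG : g (κ₂ t) ∈ g '' CD := hE _ (hm2 t htI)
    have hre := abs_lt.1 (lt_of_le_of_lt (Complex.abs_re_le_norm (K t))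
      (mem_ball_zero_iff.1 (hKOD t htI)))
    set s : ℝ := ((K t).re + 1) / 2 with hs
    have hs0 : 0 ≤ s := by linarith [hre.1]
    have hs1 : s ≤ 1 := by linarith [hre.2]
    have h1 : K t = F₁ (chn_cat p q r s) := by
      rw [hF₁β s ⟨hs0, hs1⟩]
      show K t = ((2 * s - 1 : ℝ) : ℂ)
      rw [hs]
      apply Complex.ext
      · rw [Complex.ofReal_re]; ring
      · rw [Complex.ofReal_im, him]
    have h2 : g (κ₂ t) = chn_cat p q r s := F₁.injective h1
    rcases le_or_gt s (1 / 3) with h3 | h3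
    · rw [chn_cat1 h3] at h2
      have h4 := hpE (3 * s) ⟨by linarith, by linarith⟩ (by rw [← h2]; exact hG)
      rw [h4, hp1, ha] at h2
      have h5 := g.injective h2
      rw [← h20] at h5
      have := hi₂ htI ⟨le_rfl, zero_le_one⟩ h5
      linarith [ht.1]
    · rcases le_or_gt s (2 / 3) with h4 | h4
      · rw [chn_cat2 (hp1.trans hq0.symm) h3.le h4] at h2
        have h5 := g.injective h2
        rcases hint _ ⟨by linarith, by linarith⟩ t htI h5.symm with h6 | h6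
        · linarith [ht.1]
        · linarith [ht.2]
      · rw [chn_cat3 (hq1.trans hr0.symm) h4.le] at h2
        have h5 := hrE (3 * s - 2) ⟨by linarith, by linarith⟩ (by rw [← h2]; exact hG)
        rw [h5, hr0, hb] at h2
        have h6 := g.injective h2
        rw [← h21] at h6
        have := hi₂ htI ⟨zero_le_one, le_rfl⟩ h6
        linarith [ht.2]
  obtain ⟨e, he1, hKe⟩ : ∃ e : ℝ, (e = 1 ∨ e = -1) ∧ ∀ t ∈ Ioo (0 : ℝ) 1, 0 < e * (K t).im := by
    by_cases hpos : ∀ t ∈ Ioo (0 : ℝ) 1, 0 < (K t).im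
    · exact ⟨1, Or.inl rfl, fun t ht => by rw [one_mul]; exact hpos t ht⟩
    · refine ⟨-1, Or.inr rfl, fun t ht => ?_⟩
      push Not at hpos
      obtain ⟨t₀, ht₀, h0⟩ := hpos
      by_contra hcon
      have h1 : 0 ≤ (K t).im := by linarith
      have h2 := isPreconnected_Ioo.intermediate_value ht₀ ht
        (Complex.continuous_im.comp hKc).continuousOn
      obtain ⟨t₁, ht₁, h3⟩ := h2 (⟨h0, h1⟩ : (0 : ℝ) ∈ Icc (K t₀).im (K t).im)
      exact hKim t₁ ht₁ h3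
  have he : e ^ 2 = 1 := by rcases he1 with rfl | rfl <;> norm_num
  -- the half disc
  have hm1 : (-1 : ℂ) ∈ UC := by simp
  have hp1' : (1 : ℂ) ∈ UC := by simp
  have hmp : (-1 : ℂ) ≠ 1 := by norm_num
  have hL : ∀ z : ℂ, thL (-1) 1 z = 2 * z.im := by
    intro z
    simp [thL]
    ring
  obtain ⟨k, hk1, hk2, hk3⟩ := exists_homeomorph_image_interior_closure_frontier_eq_unitBall
    (th_H_convex (u := -1) (v := 1) e) (th_H_ne hm1 hp1' hmp he) (th_H_bdd e)
  have hkk : ∀ (S T : Set ℂ), k '' S = T → ∀ z, z ∈ k.symm '' T ↔ z ∈ S := by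
    intro S T hST z
    subst hST
    constructor
    · rintro ⟨_, ⟨w, hw, rfl⟩, rfl⟩
      rwa [k.symm_apply_apply]
    · intro hz
      exact ⟨k z, ⟨z, hz, rfl⟩, k.symm_apply_apply z⟩
  have hkO : ∀ z, z ∈ k.symm '' OD ↔ z ∈ interior (thH (-1) 1 e) := hkk _ _ hk1
  have hkU : ∀ z, z ∈ k.symm '' UC ↔ z ∈ frontier (thH (-1) 1 e) := hkk _ _ hk3
  have hint' : ∀ z : ℂ, z ∈ OD → 0 < e * z.im → z ∈ interior (thH (-1) 1 e) := by
    intro z hz h
    refine th_H_int e hz ?_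
    rw [hL]
    linarith
  have hreal : ∀ x : ℝ, |x| < 1 → (x : ℂ) ∈ frontier (thH (-1) 1 e) := by
    intro x hx
    rw [th_H_fr hmp he]
    refine ⟨⟨?_, ?_⟩, Or.inr ?_⟩
    · rw [mem_closedBall_zero_iff, Complex.norm_real]
      exact hx.le
    · rw [hL, Complex.ofReal_im]; simp
    · rw [hL, Complex.ofReal_im]; simp
  have hnot : ∀ x : ℝ, (x : ℂ) ∉ interior (thH (-1) 1 e) := by
    intro x hx
    have h1 := th_H_int_L hmp he hx
    rw [hL, Complex.ofReal_im] at h1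
    simp at h1
  have hcK : IsCross k.symm K := by
    refine ⟨⟨hKc.continuousOn, hKinj⟩, ?_, ?_, ?_⟩
    · rw [hkU, hK0]
      exact hreal _ (by rw [abs_lt]; constructor <;> norm_num)
    · rw [hkU, hK1]
      exact hreal _ (by rw [abs_lt]; constructor <;> norm_num)
    · intro t ht
      rw [hkO]
      exact hint' _ (hKOD t ⟨ht.1.le, ht.2.le⟩) (hKe t ht)
  have hM0 : pdt_M e 0 = ((-1 / 3 : ℝ) : ℂ) := by
    unfold pdt_M
    apply Complex.ext
    · rw [Complex.ofReal_re]; norm_num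
    · rw [Complex.ofReal_im]; norm_num
  have hM1 : pdt_M e 1 = ((1 / 3 : ℝ) : ℂ) := by
    unfold pdt_M
    apply Complex.ext
    · rw [Complex.ofReal_re]; norm_num
    · rw [Complex.ofReal_im]; norm_num
  have hMc : Continuous (pdt_M e) := by
    have h1 : pdt_M e = fun x : ℝ => (((2 * x - 1) / 3 : ℝ) : ℂ) +
        ((e * (x * (1 - x)) : ℝ) : ℂ) * Complex.I := by
      funext x
      apply Complex.ext
      · simp [pdt_M]
      · simp [pdt_M]
    rw [h1]
    fun_prop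
  have hcM : IsCross k.symm (pdt_M e) := by
    refine ⟨⟨hMc.continuousOn, fun u _ v _ h => ?_⟩, ?_, ?_, ?_⟩
    · have h1 := congrArg Complex.re h
      simp only [pdt_M] at h1
      linarith
    · rw [hkU, hM0]
      exact hreal _ (by rw [abs_lt]; constructor <;> norm_num)
    · rw [hkU, hM1]
      exact hreal _ (by rw [abs_lt]; constructor <;> norm_num)
    · intro t ht
      rw [hkO]
      refine hint' _ ?_ ?_
      · rw [mem_ball_zero_iff]
        have := pdt_C_norm he (Or.inr ⟨t, ⟨ht.1.le, ht.2.le⟩, rfl⟩ : pdt_M e t ∈ pdt_C e)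
        linarith
      · show 0 < e * (e * (t * (1 - t)))
        rw [← mul_assoc, ← sq, he, one_mul]
        exact mul_pos ht.1 (by linarith [ht.2])
  obtain ⟨F₂, hF₂, hF₂K⟩ := hTH _ _ _ hcK hcM (hK0.trans hM0.symm) (hK1.trans hM1.symm)
  refine ⟨F₁.trans F₂, e, he1, ?_, ?_⟩
  · intro z hz
    show F₂ (F₁ z) = z
    rw [hF₁ z hz]
    apply hF₂
    rw [hkO]
    intro h
    exact hz (th_H_int_OD e h)
  · have h1 : ∀ u ∈ Icc (0 : ℝ) 1, (F₁.trans F₂) (g (κ₁ u)) = pdt_S u := by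
      intro u hu
      show F₂ (F₁ (q u)) = _
      rw [hF₁p u hu]
      apply hF₂
      rw [hkO]
      exact hnot _
    have h2 : ∀ u ∈ Icc (0 : ℝ) 1, (F₁.trans F₂) (g (κ₂ u)) = pdt_M e u := by
      intro u hu
      exact hF₂K u hu
    rw [hU, image_union, image_union, ← image_comp, ← image_comp, ← image_comp, ← image_comp]
    unfold pdt_C
    congr 1
    · exact image_congr h1
    · exact image_congr h2

theorem pdt_fin (hTH : St_TH) (g : ℂ ≃ₜ ℂ) (hg : g '' CD ⊆ OD) :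
    ∃ F : ℂ ≃ₜ ℂ, (∀ z, z ∉ OD → F z = z) ∧ F '' (g '' UC) = pdt_C 1 := by
  obtain ⟨F, e, he, hF, hC⟩ := pdt_one hTH g hg
  rcases he with rfl | rfl
  · exact ⟨F, hF, hC⟩
  · obtain ⟨G, hG, hG2⟩ := pdt_twist
    refine ⟨F.trans G, fun z hz => ?_, ?_⟩
    · show G (F z) = z
      rw [hF z hz, hG z hz]
    · have h1 := pdt_C_neg (-1) G (by norm_num) hG2
      rw [neg_neg] at h1
      rw [← h1, ← hC]
      simp only [← image_comp]
      rfl

theorem pdt_core (hTH : St_TH) : St_PDT := by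
  intro g g' hg hg'
  obtain ⟨F, hF, hC⟩ := pdt_fin hTH g hg
  obtain ⟨F', hF', hC'⟩ := pdt_fin hTH g' hg'
  refine ⟨F.trans F'.symm, fun z hz => ?_, ?_⟩
  · show F'.symm (F z) = z
    rw [hF z hz, F'.symm_apply_eq, hF' z hz]
  · let h : ℂ ≃ₜ ℂ := g.trans (F.trans (F'.symm.trans g'.symm))
    have h1 : h '' UC = UC := by
      have h2 : h '' UC = g'.symm '' (F'.symm '' (F '' (g '' UC))) := by
        simp only [← image_comp]
        rfl
      rw [h2, hC, ← hC']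
      simp only [← image_comp]
      have h3 : (⇑g'.symm ∘ ⇑F'.symm) ∘ ⇑F' ∘ ⇑g' = id := by
        funext z
        simp
      rw [show (⇑g'.symm ∘ ⇑F'.symm ∘ ⇑F' ∘ ⇑g') = id from h3, image_id]
    have h2 := pdt_circ h h1
    have h3 : (F.trans F'.symm) '' (g '' CD) = g' '' (h '' CD) := by
      simp only [← image_comp]
      refine image_congr fun z _ => ?_
      show F'.symm (F (g z)) = g' (g'.symm (F'.symm (F (g z))))
      rw [g'.apply_symm_apply]
    rw [h3, h2]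

theorem thm_PDT (hTH : St_TH) (_hTHS : St_THS) (_hSCH : St_SCH) : St_PDT := pdt_core hTH

end Pool.Agent.SRF
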