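import Pool.Agent.SRF.StB

set_option autoImplicit false

/-! # SRF RECT: parametrisation of a rectangle. -/

open Set Metric Filter Topology

namespace Pool.Agent.SRF

/-- sup norm -/
noncomputable def rect_m (z : ℂ) : ℝ := max |z.re| |z.im|

/-- disc to square -/
noncomputable def rect_q (z : ℂ) : ℂ := ((‖z‖ / rect_m z : ℝ) : ℂ) * z

/-- square to disc -/
noncomputable def rect_p (z : ℂ) : ℂ := ((rect_m z / ‖z‖ : ℝ) : ℂ) * z

theorem rect_m_nonneg (z : ℂ) : 0 ≤ rect_m z := le_max_of_le_left (abs_nonneg _)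

theorem rect_m_pos {z : ℂ} (hz : z ≠ 0) : 0 < rect_m z := by
  rcases (rect_m_nonneg z).lt_or_eq with h | h
  · exact h
  · exfalso
    apply hz
    have h1 : |z.re| ≤ 0 := h ▸ le_max_left _ _
    have h2 : |z.im| ≤ 0 := h ▸ le_max_right _ _
    exact Complex.ext (abs_nonpos_iff.1 h1) (abs_nonpos_iff.1 h2)

theorem rect_m_smul (t : ℝ) (z : ℂ) : rect_m ((t : ℂ) * z) = |t| * rect_m z := by
  unfold rect_m
  rw [Complex.re_ofReal_mul, Complex.im_ofReal_mul, abs_mul, abs_mul,
    mul_max_of_nonneg _ _ (abs_nonneg t)]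

theorem rect_norm_le (z : ℂ) : ‖z‖ ≤ 2 * rect_m z := by
  have h1 := Complex.norm_le_abs_re_add_abs_im z
  have h2 : |z.re| ≤ rect_m z := le_max_left _ _
  have h3 : |z.im| ≤ rect_m z := le_max_right _ _
  linarith

theorem rect_m_cont : Continuous rect_m :=
  (Complex.continuous_re.abs).max (Complex.continuous_im.abs)

theorem rect_m_q (z : ℂ) : rect_m (rect_q z) = ‖z‖ := by
  unfold rect_q
  rw [rect_m_smul]
  by_cases hz : z = 0
  · simp [hz]
  · have h1 := rect_m_pos hz
    rw [abs_of_nonneg (div_nonneg (norm_nonneg z) h1.le)]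
    field_simp

theorem rect_norm_p (z : ℂ) : ‖rect_p z‖ = rect_m z := by
  unfold rect_p
  rw [norm_mul, Complex.norm_real]
  by_cases hz : z = 0
  · simp [hz, rect_m]
  · have h1 : 0 < ‖z‖ := norm_pos_iff.2 hz
    rw [Real.norm_of_nonneg (div_nonneg (rect_m_nonneg z) h1.le)]
    field_simp

theorem rect_pq (z : ℂ) : rect_p (rect_q z) = z := by
  by_cases hz : z = 0
  · simp [hz, rect_p, rect_q]
  · have h1 := rect_m_pos hz
    have h2 : 0 < ‖z‖ := norm_pos_iff.2 hz
    unfold rect_p
    rw [rect_m_q]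
    unfold rect_q
    rw [norm_mul, Complex.norm_real, Real.norm_of_nonneg (div_nonneg h2.le h1.le), ← mul_assoc,
      ← Complex.ofReal_mul]
    have h3 : ‖z‖ / (‖z‖ / rect_m z * ‖z‖) * (‖z‖ / rect_m z) = 1 := by field_simp
    rw [h3]
    simp

theorem rect_qp (z : ℂ) : rect_q (rect_p z) = z := by
  by_cases hz : z = 0
  · simp [hz, rect_p, rect_q]
  · have h1 := rect_m_pos hz
    have h2 : 0 < ‖z‖ := norm_pos_iff.2 hz
    unfold rect_q
    rw [rect_norm_p]
    unfold rect_p
    rw [rect_m_smul, abs_of_nonneg (div_nonneg h1.le h2.le), ← mul_assoc,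
      ← Complex.ofReal_mul]
    have h3 : rect_m z / (rect_m z / ‖z‖ * rect_m z) * (rect_m z / ‖z‖) = 1 := by field_simp
    rw [h3]
    simp

theorem rect_q_cont : Continuous rect_q := by
  rw [continuous_iff_continuousAt]
  intro z
  by_cases hz : z = 0
  · subst hz
    have h0 : rect_q 0 = 0 := by simp [rect_q]
    unfold ContinuousAt
    rw [h0]
    apply squeeze_zero_norm (a := fun z : ℂ => 2 * ‖z‖)
    · intro w
      by_cases hw : w = 0
      · simp [hw, rect_q]
      · have h1 := rect_m_pos hw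
        unfold rect_q
        rw [norm_mul, Complex.norm_real, Real.norm_of_nonneg (div_nonneg (norm_nonneg w) h1.le)]
        have h2 : ‖w‖ / rect_m w ≤ 2 := by
          rw [div_le_iff₀ h1]
          exact rect_norm_le w
        exact mul_le_mul_of_nonneg_right h2 (norm_nonneg w)
    · have : Tendsto (fun z : ℂ => 2 * ‖z‖) (𝓝 0) (𝓝 (2 * ‖(0 : ℂ)‖)) :=
        (continuous_const.mul continuous_norm).tendsto 0
      simpa using this
  · have h1 := (rect_m_pos hz).ne'
    exact ((Complex.continuous_ofReal.continuousAt.comp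
      (continuous_norm.continuousAt.div rect_m_cont.continuousAt h1)).mul continuousAt_id)

theorem rect_m_I (z : ℂ) : rect_m (Complex.I * z) = rect_m z := by
  unfold rect_m
  simp [max_comm]

theorem rect_q_I (z : ℂ) : rect_q (Complex.I * z) = Complex.I * rect_q z := by
  unfold rect_q
  rw [rect_m_I, norm_mul, Complex.norm_I]
  ring

theorem rect_carc_I (a b : ℝ) : carc (a + Real.pi / 2) (b + Real.pi / 2) =
    (fun z => Complex.I * z) '' carc a b := by
  have h0 : ∀ t : ℝ, cexpi (t + Real.pi / 2) = Complex.I * cexpi t := by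
    intro t
    unfold cexpi
    have : ((t + Real.pi / 2 : ℝ) : ℂ) * Complex.I = (Real.pi / 2 : ℂ) * Complex.I + t * Complex.I := by
      push_cast
      ring
    rw [this, Complex.exp_add, Complex.exp_pi_div_two_mul_I]
  unfold carc
  ext z
  constructor
  · rintro ⟨t, ht, rfl⟩
    refine ⟨cexpi (t - Real.pi / 2), ⟨t - Real.pi / 2, ⟨by linarith [ht.1], by linarith [ht.2]⟩, rfl⟩, ?_⟩
    simp only
    rw [← h0, sub_add_cancel]
  · rintro ⟨_, ⟨t, ht, rfl⟩, rfl⟩
    exact ⟨t + Real.pi / 2, ⟨by linarith [ht.1], by linarith [ht.2]⟩, h0 t⟩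

theorem rect_I (p q r s : ℝ) : (fun z => Complex.I * z) '' Rect p q r s = Rect (-s) (-r) p q := by
  ext z
  constructor
  · rintro ⟨w, ⟨h1, h2⟩, rfl⟩
    refine ⟨?_, ?_⟩
    · simp only [Complex.mul_re, Complex.I_re, Complex.I_im, zero_mul, one_mul, zero_sub]
      exact ⟨by linarith [h2.2], by linarith [h2.1]⟩
    · simp only [Complex.mul_im, Complex.I_re, Complex.I_im, zero_mul, one_mul, zero_add]
      exact h1
  · rintro ⟨h1, h2⟩
    refine ⟨-Complex.I * z, ⟨?_, ?_⟩, ?_⟩
    · simp only [Complex.mul_re, Complex.neg_re, Complex.neg_im, Complex.I_re, Complex.I_im]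
      exact ⟨by linarith [h2.1], by linarith [h2.2]⟩
    · simp only [Complex.mul_im, Complex.neg_re, Complex.neg_im, Complex.I_re, Complex.I_im]
      exact ⟨by linarith [h1.2], by linarith [h1.1]⟩
    · simp only
      rw [← mul_assoc]
      simp

theorem rect_side0 : rect_q '' carc (-(Real.pi / 4)) (Real.pi / 4) = Rect 1 1 (-1) 1 := by
  have hpi := Real.pi_pos
  have key : ∀ t : ℝ, t ∈ Icc (-(Real.pi / 4)) (Real.pi / 4) → rect_q (cexpi t) =
      ⟨1, Real.tan t⟩ := by
    intro t ht
    have hcos : 0 < Real.cos t := Real.cos_pos_of_mem_Ioo ⟨by linarith [ht.1], by linarith [ht.2]⟩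
    have htan : |Real.tan t| ≤ 1 := by
      rw [abs_le]
      constructor
      · have h1 : Real.tan (-(Real.pi / 4)) ≤ Real.tan t := by
          rcases ht.1.lt_or_eq with h | h
          · exact (Real.tan_lt_tan_of_lt_of_lt_pi_div_two (by linarith) (by linarith [ht.2]) h).le
          · rw [h]
        rw [Real.tan_neg, Real.tan_pi_div_four] at h1
        exact h1
      · have h1 : Real.tan t ≤ Real.tan (Real.pi / 4) := by
          rcases ht.2.lt_or_eq with h | h
          · exact (Real.tan_lt_tan_of_lt_of_lt_pi_div_two (by linarith [ht.1]) (by linarith) h).le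
          · rw [h]
        rw [Real.tan_pi_div_four] at h1
        exact h1
    have hsin : Real.sin t = Real.tan t * Real.cos t := by
      rw [Real.tan_eq_sin_div_cos]; field_simp
    have hre : (cexpi t).re = Real.cos t := Complex.exp_ofReal_mul_I_re t
    have him : (cexpi t).im = Real.sin t := Complex.exp_ofReal_mul_I_im t
    have hn : ‖cexpi t‖ = 1 := Complex.norm_exp_ofReal_mul_I t
    have hm : rect_m (cexpi t) = Real.cos t := by
      unfold rect_m
      rw [hre, him, abs_of_pos hcos, max_eq_left]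
      rw [hsin, abs_mul, abs_of_pos hcos]
      nlinarith
    unfold rect_q
    rw [hn, hm]
    apply Complex.ext
    · rw [Complex.re_ofReal_mul, hre]
      show 1 / Real.cos t * Real.cos t = 1
      field_simp
    · rw [Complex.im_ofReal_mul, him, hsin]
      show 1 / Real.cos t * (Real.tan t * Real.cos t) = Real.tan t
      field_simp
  ext z
  constructor
  · rintro ⟨_, ⟨t, ht, rfl⟩, rfl⟩
    rw [key t ht]
    refine ⟨⟨le_rfl, le_rfl⟩, ?_⟩
    show Real.tan t ∈ Icc (-1 : ℝ) 1
    constructor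
    · have h1 : Real.tan (-(Real.pi / 4)) ≤ Real.tan t := by
        rcases ht.1.lt_or_eq with h | h
        · exact (Real.tan_lt_tan_of_lt_of_lt_pi_div_two (by linarith) (by linarith [ht.2]) h).le
        · rw [h]
      rw [Real.tan_neg, Real.tan_pi_div_four] at h1
      exact h1
    · have h1 : Real.tan t ≤ Real.tan (Real.pi / 4) := by
        rcases ht.2.lt_or_eq with h | h
        · exact (Real.tan_lt_tan_of_lt_of_lt_pi_div_two (by linarith [ht.1]) (by linarith) h).le
        · rw [h]
      rw [Real.tan_pi_div_four] at h1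
      exact h1
  · rintro ⟨h1, h2⟩
    have ht : Real.arctan z.im ∈ Icc (-(Real.pi / 4)) (Real.pi / 4) := by
      constructor
      · have := Real.arctan_mono h2.1
        rwa [Real.arctan_neg, Real.arctan_one] at this
      · have := Real.arctan_mono h2.2
        rwa [Real.arctan_one] at this
    refine ⟨cexpi (Real.arctan z.im), ⟨_, ht, rfl⟩, ?_⟩
    rw [key _ ht, Real.tan_arctan]
    apply Complex.ext
    · show (1 : ℝ) = z.re
      exact le_antisymm h1.1 h1.2
    · rfl

theorem rect_rot {a b p q r s : ℝ} (h : rect_q '' carc a b = Rect p q r s) :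
    rect_q '' carc (a + Real.pi / 2) (b + Real.pi / 2) = Rect (-s) (-r) p q := by
  rw [rect_carc_I, ← rect_I, ← h, image_image, image_image]
  exact image_congr fun z _ => rect_q_I z

theorem thm_RECT : St_RECT := by
  intro a b c d hab hcd
  set A : ℝ → ℝ := fun x => (a + b) / 2 + (b - a) / 2 * x with hA
  set B : ℝ → ℝ := fun x => (c + d) / 2 + (d - c) / 2 * x with hB
  set F : ℂ → ℂ := fun w => ⟨A w.re, B w.im⟩ with hF
  have hFc : Continuous F := by
    have : F = fun w : ℂ => ((A w.re : ℝ) : ℂ) + ((B w.im : ℝ) : ℂ) * Complex.I := by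
      funext w
      apply Complex.ext <;> simp [hF]
    rw [this, hA, hB]
    fun_prop
  have hFi : Function.Injective F := by
    intro z w hzw
    have h1 := congrArg Complex.re hzw
    have h2 := congrArg Complex.im hzw
    simp only [hF, hA, hB] at h1 h2
    apply Complex.ext
    · have h3 : (b - a) / 2 ≠ 0 := by
        have : 0 < (b - a) / 2 := by linarith
        exact this.ne'
      exact mul_left_cancel₀ h3 (by linarith)
    · have h3 : (d - c) / 2 ≠ 0 := by
        have : 0 < (d - c) / 2 := by linarith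
        exact this.ne'
      exact mul_left_cancel₀ h3 (by linarith)
  have hFR : ∀ p q r s : ℝ, F '' Rect p q r s = Rect (A p) (A q) (B r) (B s) := by
    intro p q r s
    have hb : 0 < (b - a) / 2 := by linarith
    have hd : 0 < (d - c) / 2 := by linarith
    ext z
    constructor
    · rintro ⟨w, ⟨h1, h2⟩, rfl⟩
      refine ⟨⟨?_, ?_⟩, ?_, ?_⟩
      · show A p ≤ A w.re
        simp only [hA]; nlinarith [h1.1]
      · show A w.re ≤ A q
        simp only [hA]; nlinarith [h1.2]
      · show B r ≤ B w.im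
        simp only [hB]; nlinarith [h2.1]
      · show B w.im ≤ B s
        simp only [hB]; nlinarith [h2.2]
    · rintro ⟨h1, h2⟩
      simp only [hA, hB] at h1 h2
      refine ⟨⟨(z.re - (a + b) / 2) / ((b - a) / 2), (z.im - (c + d) / 2) / ((d - c) / 2)⟩,
        ⟨⟨?_, ?_⟩, ?_, ?_⟩, ?_⟩
      · show p ≤ (z.re - (a + b) / 2) / ((b - a) / 2)
        rw [le_div_iff₀ hb]; linarith [h1.1]
      · show (z.re - (a + b) / 2) / ((b - a) / 2) ≤ q
        rw [div_le_iff₀ hb]; linarith [h1.2]
      · show r ≤ (z.im - (c + d) / 2) / ((d - c) / 2)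
        rw [le_div_iff₀ hd]; linarith [h2.1]
      · show (z.im - (c + d) / 2) / ((d - c) / 2) ≤ s
        rw [div_le_iff₀ hd]; linarith [h2.2]
      · apply Complex.ext
        · show (a + b) / 2 + (b - a) / 2 * ((z.re - (a + b) / 2) / ((b - a) / 2)) = z.re
          rw [mul_div_cancel₀ _ hb.ne']
          ring
        · show (c + d) / 2 + (d - c) / 2 * ((z.im - (c + d) / 2) / ((d - c) / 2)) = z.im
          rw [mul_div_cancel₀ _ hd.ne']
          ring
  have hA1 : A 1 = b := by simp only [hA]; ring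
  have hA2 : A (-1) = a := by simp only [hA]; ring
  have hB1 : B 1 = d := by simp only [hB]; ring
  have hB2 : B (-1) = c := by simp only [hB]; ring
  have hq : rect_q '' CD = Rect (-1) 1 (-1) 1 := by
    ext z
    constructor
    · rintro ⟨w, hw, rfl⟩
      rw [mem_closedBall_zero_iff, ← rect_m_q w] at hw
      exact ⟨abs_le.1 ((le_max_left _ _).trans hw), abs_le.1 ((le_max_right _ _).trans hw)⟩
    · rintro ⟨h1, h2⟩
      refine ⟨rect_p z, ?_, rect_qp z⟩
      rw [mem_closedBall_zero_iff, rect_norm_p]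
      exact max_le (abs_le.2 h1) (abs_le.2 h2)
  have s0 := rect_side0
  have s1 := rect_rot s0
  have s2 := rect_rot s1
  have s3 := rect_rot s2
  rw [show -(Real.pi / 4) + Real.pi / 2 = Real.pi / 4 by ring,
    show Real.pi / 4 + Real.pi / 2 = 3 * Real.pi / 4 by ring, neg_neg] at s1
  rw [show -(Real.pi / 4) + Real.pi / 2 = Real.pi / 4 by ring,
    show Real.pi / 4 + Real.pi / 2 = 3 * Real.pi / 4 by ring,
    show 3 * Real.pi / 4 + Real.pi / 2 = 5 * Real.pi / 4 by ring, neg_neg] at s2
  rw [show -(Real.pi / 4) + Real.pi / 2 = Real.pi / 4 by ring,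
    show Real.pi / 4 + Real.pi / 2 = 3 * Real.pi / 4 by ring,
    show 3 * Real.pi / 4 + Real.pi / 2 = 5 * Real.pi / 4 by ring,
    show 5 * Real.pi / 4 + Real.pi / 2 = 7 * Real.pi / 4 by ring, neg_neg] at s3
  refine ⟨F ∘ rect_q, (hFc.comp rect_q_cont).continuousOn, ?_, ?_, ?_, ?_, ?_, ?_⟩
  · intro z _ w _ hzw
    have h1 : rect_q z = rect_q w := hFi hzw
    rw [← rect_pq z, ← rect_pq w, h1]
  · rw [image_comp, hq, hFR, hA1, hA2, hB1, hB2]
  · rw [image_comp, s0, hFR, hA1, hB1, hB2]
  · rw [image_comp, s1, hFR, hA1, hA2, hB1]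
  · rw [image_comp, s2, hFR, hA2, hB1, hB2]
  · rw [image_comp, s3, hFR, neg_neg, hA1, hA2, hB2]

end Pool.Agent.SRF
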