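import Pool.Agent.SRF.StB

set_option autoImplicit false

/-! # SRF SHR: local models -/

open Set Metric Filter Topology

namespace Pool.Agent.SRF

theorem shr_one (r : ℝ) (hr : 0 < r) : ∃ σ : ℂ → ℂ, IsOpenEmbedding σ ∧ σ 0 = 0 ∧
    range σ = ball 0 r ∧ (∀ z, 0 ≤ (σ z).im ↔ 0 ≤ z.im) ∧
    ∀ z, ∃ t : ℝ, 0 < t ∧ σ z = t * z := by
  have key : ∀ z : ℂ, ∃ t : ℝ, 0 < t ∧ (OpenPartialHomeomorph.univBall (0 : ℂ) r) z = t * z := by
    intro z
    refine ⟨r * (√(1 + ‖z‖ ^ 2))⁻¹, ?_, ?_⟩
    · positivity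
    · rw [OpenPartialHomeomorph.univBall, dif_pos hr]
      simp [OpenPartialHomeomorph.unitBallBall, OpenPartialHomeomorph.univUnitBall_apply,
        Complex.real_smul]
      ring
  refine ⟨OpenPartialHomeomorph.univBall (0 : ℂ) r, ?_, ?_, ?_, ?_, key⟩
  · exact OpenPartialHomeomorph.isOpenEmbedding _ (by simp)
  · simp
  · rw [← OpenPartialHomeomorph.univBall_target (0 : ℂ) hr,
      ← OpenPartialHomeomorph.image_source_eq_target]
    simp
  · intro z
    obtain ⟨t, ht, h⟩ := key z
    rw [h]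
    simp [ht]

theorem shr_two (ζ : ℂ) (hζ : ζ ∈ UC) (r : ℝ) (hr : 0 < r) : ∃ σ : ℂ → ℂ, IsOpenEmbedding σ ∧
    σ 0 = ζ ∧ range σ ⊆ ball ζ r ∧ ∀ z, σ z ∈ CD ↔ 0 ≤ z.im := by
  have hζ1 : ‖ζ‖ = 1 := by simpa using hζ
  have hζ0 : ζ ≠ 0 := by
    rintro rfl
    simp at hζ1
  obtain ⟨s, hs, hs0, hsr, hsi, hst⟩ := shr_one (min 1 (r / 2)) (by positivity)
  have hsn : ∀ z, ‖s z‖ < min 1 (r / 2) := by
    intro z
    have : s z ∈ range s := mem_range_self z
    rw [hsr] at this
    simpa using this
  refine ⟨fun z => ζ * Complex.exp (Complex.I * s z), ?_, by simp [hs0], ?_, ?_⟩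
  · have hcont : Continuous (fun z => ζ * Complex.exp (Complex.I * s z)) := by
      have := hs.continuous
      fun_prop
    refine IsOpenEmbedding.of_continuous_injective_isOpenMap hcont ?_ ?_
    · intro z w h
      have h1 : Complex.exp (Complex.I * s z) = Complex.exp (Complex.I * s w) :=
        mul_left_cancel₀ hζ0 h
      have hb : ∀ z, -Real.pi < (Complex.I * s z).im ∧ (Complex.I * s z).im ≤ Real.pi := by
        intro z
        have h2 : |(Complex.I * s z).im| < 1 := by
          refine (Complex.abs_im_le_norm _).trans_lt ?_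
          rw [norm_mul, Complex.norm_I, one_mul]
          exact (hsn z).trans_le (min_le_left _ _)
        have h3 := abs_lt.1 h2
        have := Real.pi_gt_three
        constructor <;> linarith [h3.1, h3.2]
      have h4 := Complex.exp_inj_of_neg_pi_lt_of_le_pi (hb z).1 (hb z).2 (hb w).1 (hb w).2 h1
      exact hs.injective (mul_left_cancel₀ Complex.I_ne_zero h4)
    · have ho1 : IsOpenMap (fun w : ℂ => ζ * w) := (Homeomorph.mulLeft₀ ζ hζ0).isOpenMap
      have ho2 : IsOpenMap (fun w : ℂ => Complex.I * w) :=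
        (Homeomorph.mulLeft₀ Complex.I Complex.I_ne_zero).isOpenMap
      exact ho1.comp (Complex.isOpenMap_exp.comp (ho2.comp hs.isOpenMap))
  · rintro _ ⟨z, rfl⟩
    rw [mem_ball, dist_eq_norm]
    have h1 : ζ * Complex.exp (Complex.I * s z) - ζ = ζ * (Complex.exp (Complex.I * s z) - 1) := by
      ring
    rw [h1, norm_mul, hζ1, one_mul]
    have h2 : ‖Complex.I * s z‖ < min 1 (r / 2) := by
      rw [norm_mul, Complex.norm_I, one_mul]
      exact hsn z
    have h3 := Complex.norm_exp_sub_one_le (x := Complex.I * s z)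
      (h2.le.trans (min_le_left _ _))
    have h4 := h2.trans_le (min_le_right _ _)
    linarith
  · intro z
    rw [mem_closedBall, dist_zero_right, norm_mul, hζ1, one_mul, Complex.norm_exp]
    have : (Complex.I * s z).re = -(s z).im := by simp
    rw [this, Real.exp_le_one_iff, neg_nonpos]
    exact hsi z

theorem shr_three (c : ℂ) (hc : c.im < 0) : ∃ τ : ℂ ≃ₜ ℂ, τ 0 = 0 ∧
    ∀ z, (0 ≤ (τ z).im ∨ ∃ s t : ℝ, 0 ≤ s ∧ 0 ≤ t ∧ τ z = s + t * c) ↔ 0 ≤ z.im := by
  have hc0 : c.im ≠ 0 := hc.ne
  let f : ℂ → ℂ := fun z => (((z.re + z.im - |z.re|) / 2 : ℝ) : ℂ) +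
    (((z.re - z.im + |z.re|) / 2 : ℝ) : ℂ) * c
  let g : ℂ → ℂ := fun p => (((p.re - p.im / c.im * c.re) + p.im / c.im : ℝ) : ℂ) +
    (((p.re - p.im / c.im * c.re) - p.im / c.im +
      |(p.re - p.im / c.im * c.re) + p.im / c.im| : ℝ) : ℂ) * Complex.I
  have hfre : ∀ z, (f z).re = (z.re + z.im - |z.re|) / 2 + (z.re - z.im + |z.re|) / 2 * c.re := by
    intro z
    simp [f]
  have hfim : ∀ z, (f z).im = (z.re - z.im + |z.re|) / 2 * c.im := by
    intro z
    simp [f]
  have hgf : ∀ z, g (f z) = z := by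
    intro z
    have h1 : (f z).im / c.im = (z.re - z.im + |z.re|) / 2 := by
      rw [hfim]
      field_simp
    have h2 : (f z).re - (f z).im / c.im * c.re = (z.re + z.im - |z.re|) / 2 := by
      rw [h1, hfre]
      ring
    have h3 : (z.re + z.im - |z.re|) / 2 + (z.re - z.im + |z.re|) / 2 = z.re := by ring
    have h4 : (z.re + z.im - |z.re|) / 2 - (z.re - z.im + |z.re|) / 2 + |z.re| = z.im := by ring
    simp only [g]
    rw [h2, h1, h3, h4]
    exact Complex.re_add_im z
  have hfg : ∀ p, f (g p) = p := by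
    intro p
    have h1 : (g p).re = (p.re - p.im / c.im * c.re) + p.im / c.im := by simp [g]
    have h2 : (g p).im = (p.re - p.im / c.im * c.re) - p.im / c.im +
      |(p.re - p.im / c.im * c.re) + p.im / c.im| := by simp [g]
    apply Complex.ext
    · rw [hfre, h2, h1]
      ring
    · rw [hfim, h2, h1]
      field_simp
      ring
  have hfc : Continuous f := by
    simp only [f]
    fun_prop
  have hgc : Continuous g := by
    simp only [g]
    fun_prop
  refine ⟨⟨⟨f, g, hgf, hfg⟩, hfc, hgc⟩, ?_, ?_⟩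
  · change f 0 = 0
    simp [f]
  · intro z
    change (0 ≤ (f z).im ∨ ∃ s t : ℝ, 0 ≤ s ∧ 0 ≤ t ∧ f z = s + t * c) ↔ 0 ≤ z.im
    constructor
    · rintro (h | ⟨s, t, hs, ht, h⟩)
      · rw [hfim] at h
        have h1 : (z.re - z.im + |z.re|) / 2 ≤ 0 := by
          by_contra h2
          push Not at h2
          nlinarith
        linarith [neg_abs_le z.re]
      · have him := congrArg Complex.im h
        have hre := congrArg Complex.re h
        rw [hfim] at him
        rw [hfre] at hre
        simp only [Complex.add_re, Complex.mul_re, Complex.ofReal_re, Complex.ofReal_im, zero_mul,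
          sub_zero, Complex.add_im, Complex.mul_im, zero_add, add_zero] at him hre
        have h1 : (z.re - z.im + |z.re|) / 2 = t := mul_right_cancel₀ hc0 him
        rw [h1] at hre
        have h2 : (z.re + z.im - |z.re|) / 2 = s := by linarith
        linarith [le_abs_self z.re]
    · intro h
      rcases le_or_gt ((z.re - z.im + |z.re|) / 2) 0 with h1 | h1
      · left
        rw [hfim]
        nlinarith
      · right
        refine ⟨(z.re + z.im - |z.re|) / 2, (z.re - z.im + |z.re|) / 2, ?_, h1.le, rfl⟩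
        have h2 : 0 < z.re := by
          by_contra h3
          push Not at h3
          rw [abs_of_nonpos h3] at h1
          linarith
        rw [abs_of_pos h2]
        linarith

theorem thm_SHR : St_SHR := ⟨shr_one, shr_two, shr_three⟩

end Pool.Agent.SRF
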