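import Pool.Agent.SRF.StB

/-!
# SRF, STEP (helper25): adding a coordinate disc
-/

set_option autoImplicit false

open Set Metric Filter Topology

namespace Pool.Agent.SRF

/-- **STEP.** -/
theorem thm_STEP (hBB : St_BB) (hCAPS : St_CAPS) (hCASEA : St_CASEA) (hFLATN : St_FLATN)
    (hGRB : St_GRB) : St_STEP := by
  intro X _ hX K φ hK hKc hφ hne
  obtain ⟨-, hbord, hconn⟩ := hBB X hX
  obtain ⟨K₁, hK₁, hK₁c, hcase⟩ := hCAPS X hX K φ hK hKc hφ
  have hK₁b : Bord K₁ := hbord K K₁ hK₁ hK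
  have hsub : K ⊆ K₁ := hK₁.subset
  suffices h : ∃ K' : Set X, BuiltFrom K₁ K' ∧ K₁ ∪ φ '' closedBall 0 1 ⊆ K' by
    obtain ⟨K', h1, h2⟩ := h
    exact ⟨K', hK₁.trans h1, (union_subset_union_left _ hsub).trans h2, hbord K₁ K' h1 hK₁b,
      hconn K₁ K' h1 hK₁c⟩
  rcases hcase with ⟨g, hg⟩ | ⟨n, γ, hγ, hdis, hfr, hnot⟩
  · obtain ⟨K', h1, h2, -⟩ := hCASEA X φ hφ g (φ '' closedBall 0 1)
      ((isCompact_closedBall 0 1).image hφ.continuous) (image_subset_range _ _)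
    refine ⟨K', ?_, ?_⟩
    · rw [hg]
      exact h1
    · rw [hg]
      exact h2
  · obtain ⟨ψ, N, C, L, hctx, hCc, hCconn, hCN, himg⟩ :=
      hFLATN X hX K₁ φ hK₁b hφ n γ hγ hdis hfr hnot
    have hne' : (ψ '' C ∩ K₁).Nonempty := by
      rw [himg]
      exact hne.mono (inter_subset_inter_right _ hsub)
    obtain ⟨K', h1, h2⟩ := hGRB X hX K₁ ψ N C L hctx hCc hCconn hCN hne'
    rw [himg] at h2
    exact ⟨K', h1, h2⟩

end Pool.Agent.SRF
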