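import Pool.Agent.SRF.StB
import Pool.Agent.SRF.TH

set_option autoImplicit false

/-! # SRF, module THS (helper17): a crosscut splits a closed disc into two closed discs -/

open Set Metric Filter Topology

namespace Pool.Agent.SRF

/-- a half disc is the image of the unit disc under a homeomorphism of the plane -/
theorem ths_half {u v : ℂ} (hu : u ∈ UC) (hv : v ∈ UC) (huv : u ≠ v) {e : ℝ} (he : e ^ 2 = 1) :
    ∃ k : ℂ ≃ₜ ℂ, k '' OD = interior (thH u v e) ∧ k '' CD = thH u v e ∧
      k '' UC = frontier (thH u v e) := by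
  obtain ⟨k, k1, k2, k3⟩ := exists_homeomorph_image_interior_closure_frontier_eq_unitBall
    (th_H_convex (u := u) (v := v) e) (th_H_ne hu hv huv he) (th_H_bdd e)
  rw [(th_H_closed e).closure_eq] at k2
  have hs : ∀ S : Set ℂ, k.symm '' (k '' S) = S := by
    intro S
    rw [image_image]
    simp
  refine ⟨k.symm, ?_, ?_, ?_⟩
  · change k.symm '' ball 0 1 = _
    rw [← k1, hs]
  · change k.symm '' closedBall 0 1 = _
    rw [← k2, hs]
  · change k.symm '' sphere 0 1 = _
    rw [← k3, hs]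

theorem ths_chord {u v : ℂ} (hu : u ∈ UC) (hv : v ∈ UC) (huv : u ≠ v) :
    thH u v 1 ∩ thH u v (-1) = (fun t : ℝ => u + (t : ℂ) * (v - u)) '' Icc 0 1 := by
  ext z
  constructor
  · rintro ⟨⟨h1, h2⟩, -, h3⟩
    have hL : thL u v z = 0 := by linarith
    exact ⟨thS u v z, th_seg hu hv huv hL h1, (th_line huv hL).symm⟩
  · rintro ⟨t, ht, rfl⟩
    have h1 := th_chord_CD hu hv huv ht
    have h2 := th_L_chord (u := u) (v := v) t
    exact ⟨⟨h1, by rw [h2, mul_zero]⟩, ⟨h1, by rw [h2, mul_zero]⟩⟩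

theorem ths_union (u v : ℂ) : thH u v 1 ∪ thH u v (-1) = CD := by
  ext z
  constructor
  · rintro (h | h)
    · exact h.1
    · exact h.1
  · intro h
    rcases le_total 0 (thL u v z) with h1 | h1
    · exact Or.inl ⟨h, by linarith⟩
    · exact Or.inr ⟨h, by linarith⟩

theorem thm_THS (hSCH : St_SCH) : St_THS := by
  intro g β hβ
  obtain ⟨u, hu⟩ : ∃ u, u = g.symm (β 0) := ⟨_, rfl⟩
  obtain ⟨v, hv⟩ : ∃ v, v = g.symm (β 1) := ⟨_, rfl⟩
  have huU : u ∈ UC := by
    obtain ⟨w, hw, hw2⟩ := hβ.e0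
    rw [hu, ← hw2, g.symm_apply_apply]
    exact hw
  have hvU : v ∈ UC := by
    obtain ⟨w, hw, hw2⟩ := hβ.e1
    rw [hv, ← hw2, g.symm_apply_apply]
    exact hw
  have huv : u ≠ v := by
    rw [hu, hv]
    intro h
    exact zero_ne_one (hβ.arc.2 ⟨le_refl _, zero_le_one⟩ ⟨zero_le_one, le_refl _⟩
      (g.symm.injective h))
  obtain ⟨F, hF1, hF2⟩ := th_main hSCH (fun t => g.symm (β t))
    ⟨g.symm.continuous.comp_continuousOn hβ.arc.1, fun x hx y hy hxy =>
      hβ.arc.2 hx hy (g.symm.injective hxy)⟩ (by rw [← hu]; exact huU) (by rw [← hv]; exact hvU) (by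
      intro t ht
      obtain ⟨w, hw, hw2⟩ := hβ.mid t ht
      simp only [← hw2, g.symm_apply_apply]
      exact hw)
  simp only [← hu, ← hv] at hF2
  have he : (1 : ℝ) ^ 2 = 1 := one_pow 2
  have he' : (-1 : ℝ) ^ 2 = 1 := by norm_num
  obtain ⟨k₁, a1, a2, a3⟩ := ths_half huU hvU huv he
  obtain ⟨k₂, b1, b2, b3⟩ := ths_half huU hvU huv he'
  -- `F` maps the circle and the disc to themselves
  have hFU : F '' UC = UC := by
    have h1 : ∀ z ∈ UC, F z = z := by
      intro z hz
      refine hF1 z fun h => ?_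
      rw [mem_ball_zero_iff] at h
      rw [mem_sphere_zero_iff_norm] at hz
      linarith
    ext z
    constructor
    · rintro ⟨w, hw, rfl⟩
      rw [h1 w hw]
      exact hw
    · intro hz
      exact ⟨z, hz, h1 z hz⟩
  have hFO : F '' ODᶜ = ODᶜ := by
    ext z
    constructor
    · rintro ⟨w, hw, rfl⟩
      rw [hF1 w hw]
      exact hw
    · intro hz
      exact ⟨z, hz, hF1 z hz⟩
  have hFOD : F '' OD = OD := by
    rw [image_compl_eq F.bijective] at hFO
    exact compl_injective hFO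
  have hFC : F '' CD = CD := by
    have h1 : CD = OD ∪ UC := (ball_union_sphere (x := (0 : ℂ)) (ε := 1)).symm
    rw [h1, image_union, hFOD, hFU]
  have hch : g '' (F '' ((fun t : ℝ => u + (t : ℂ) * (v - u)) '' Icc 0 1)) = β '' Icc 0 1 := by
    rw [image_image, image_image]
    refine image_congr fun t ht => ?_
    rw [hF2 t ht, g.apply_symm_apply]
  have hcomp : ∀ (k : ℂ ≃ₜ ℂ) (S : Set ℂ), ((k.trans F).trans g) '' S = g '' (F '' (k '' S)) := by
    intro k S
    rw [image_image, image_image]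
    rfl
  refine ⟨(k₁.trans F).trans g, (k₂.trans F).trans g, ?_, ?_, ?_, ?_, ?_, ?_⟩
  · rw [hcomp, hcomp, a2, b2, ← image_union, ← image_union, ths_union, hFC]
  · rw [hcomp, hcomp, a2, b2, ← image_inter g.injective, ← image_inter F.injective,
      ths_chord huU hvU huv, hch]
  · rw [hcomp, hcomp, a1, b1, disjoint_image_iff g.injective, disjoint_image_iff F.injective,
      Set.disjoint_left]
    intro z hz hz'
    have h1 := th_H_int_L huv he hz
    have h2 := th_H_int_L huv he' hz'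
    linarith
  · rw [hcomp, a3, ← hch]
    refine image_mono (image_mono ?_)
    rintro _ ⟨t, ht, rfl⟩
    have h2 := th_L_chord (u := u) (v := v) t
    rw [th_H_fr huv he]
    exact ⟨⟨th_chord_CD huU hvU huv ht, by rw [h2, mul_zero]⟩, Or.inr h2⟩
  · rw [hcomp, b3, ← hch]
    refine image_mono (image_mono ?_)
    rintro _ ⟨t, ht, rfl⟩
    have h2 := th_L_chord (u := u) (v := v) t
    rw [th_H_fr huv he']
    exact ⟨⟨th_chord_CD huU hvU huv ht, by rw [h2, mul_zero]⟩, Or.inr h2⟩
  · rw [hcomp, hcomp, a3, b3, ← hch, ← image_union, ← image_union]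
    conv_rhs => rw [← hFU, ← image_union, ← image_union]
    congr 2
    rw [← ths_chord huU hvU huv]
    ext z
    rw [mem_union, th_H_fr huv he, th_H_fr huv he', mem_union]
    constructor
    · rintro (⟨h1, h2 | h2⟩ | ⟨h1, h2 | h2⟩)
      · exact Or.inl h2
      · exact Or.inr ⟨h1, h1.1, by rw [h2, mul_zero]⟩
      · exact Or.inl h2
      · exact Or.inr ⟨⟨h1.1, by rw [h2, mul_zero]⟩, h1⟩
    · rintro (h | ⟨h1, h2⟩)
      · rcases (by rw [ths_union]; exact sphere_subset_closedBall h :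
          z ∈ thH u v 1 ∪ thH u v (-1)) with h3 | h3
        · exact Or.inl ⟨h3, Or.inl h⟩
        · exact Or.inr ⟨h3, Or.inl h⟩
      · refine Or.inl ⟨h1, Or.inr ?_⟩
        have h3 := h1.2
        have h4 := h2.2
        linarith

end Pool.Agent.SRF
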