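import Pool.Agent.SRF.St6

set_option autoImplicit false

/-! # SRF, module URY: universality of the Urysohn space -/

open Set Metric Filter Topology TopologicalSpace

namespace Pool.Agent.SRF

theorem ury_step {U Y : Type} [MetricSpace U] [MetricSpace Y] (hU : IsUrysohn U) (y : ℕ → Y)
    (n : ℕ) (v : ℕ → U) (hv : ∀ i < n, ∀ j < n, dist (v i) (v j) = dist (y i) (y j)) :
    ∃ p : U, ∀ i < n, dist p (v i) = dist (y n) (y i) := by
  classical
  let f : U → ℝ := fun a => if h : ∃ i < n, v i = a then dist (y n) (y h.choose) else 0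
  have hf : ∀ i < n, f (v i) = dist (y n) (y i) := by
    intro i hi
    have h : ∃ k < n, v k = v i := ⟨i, hi, rfl⟩
    have h1 : f (v i) = dist (y n) (y h.choose) := by
      simp only [f]
      rw [dif_pos h]
    obtain ⟨hk, hkv⟩ := h.choose_spec
    have h2 := hv _ hk i hi
    rw [hkv, dist_self] at h2
    have h3 : y h.choose = y i := dist_eq_zero.1 h2.symm
    rw [h1, h3]
  obtain ⟨p, hp⟩ := hU.extension ((Finset.range n).image v) f (by
    intro a ha b hb
    rw [Finset.mem_image] at ha hb
    obtain ⟨i, hi, rfl⟩ := ha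
    obtain ⟨j, hj, rfl⟩ := hb
    rw [Finset.mem_range] at hi hj
    rw [hf i hi, hf j hj, hv i hi j hj]
    constructor
    · rw [dist_comm (y n) (y i), dist_comm (y n) (y j)]
      exact abs_dist_sub_le (y i) (y j) (y n)
    · exact dist_triangle_left (y i) (y j) (y n))
  refine ⟨p, fun i hi => ?_⟩
  rw [hp (v i) (Finset.mem_image_of_mem v (Finset.mem_range.2 hi)), hf i hi]

theorem ury_seq {U Y : Type} [MetricSpace U] [MetricSpace Y] (hU : IsUrysohn U) (y : ℕ → Y) :
    ∃ u : ℕ → U, ∀ i j, dist (u i) (u j) = dist (y i) (y j) := by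
  classical
  choose p hp using fun (n : ℕ) (v : {v : ℕ → U // ∀ i < n, ∀ j < n,
    dist (v i) (v j) = dist (y i) (y j)}) => ury_step hU y n v.1 v.2
  obtain ⟨u₀, -⟩ := hU.extension ∅ (fun _ => 0) (by simp)
  let s : (n : ℕ) → {v : ℕ → U // ∀ i < n, ∀ j < n, dist (v i) (v j) = dist (y i) (y j)} :=
    fun n => Nat.rec ⟨fun _ => u₀, fun i hi => absurd hi (Nat.not_lt_zero i)⟩
      (fun n v => ⟨Function.update v.1 n (p n v), by
        intro i hi j hj
        rcases Nat.lt_succ_iff_lt_or_eq.1 hi with hi' | rfl
        · rcases Nat.lt_succ_iff_lt_or_eq.1 hj with hj' | rfl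
          · rw [Function.update_of_ne hi'.ne, Function.update_of_ne hj'.ne]
            exact v.2 i hi' j hj'
          · rw [Function.update_of_ne hi'.ne, Function.update_self, dist_comm, hp _ v i hi',
              dist_comm]
        · rcases Nat.lt_succ_iff_lt_or_eq.1 hj with hj' | rfl
          · rw [Function.update_of_ne hj'.ne, Function.update_self, hp _ v j hj']
          · rw [dist_self, dist_self]⟩) n
  have hs : ∀ n i, i < n → (s (n + 1)).1 i = (s n).1 i := by
    intro n i hi
    show Function.update (s n).1 n (p n (s n)) i = (s n).1 i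
    rw [Function.update_of_ne hi.ne]
  have hs' : ∀ i n, i < n → (s n).1 i = (s (i + 1)).1 i := by
    intro i n hn
    induction n with
    | zero => exact absurd hn (Nat.not_lt_zero i)
    | succ n ih =>
      rcases Nat.lt_succ_iff_lt_or_eq.1 hn with h | rfl
      · rw [hs n i h, ih h]
      · rfl
  refine ⟨fun i => (s (i + 1)).1 i, fun i j => ?_⟩
  have h1 : i < max i j + 1 := Nat.lt_succ_of_le (le_max_left _ _)
  have h2 : j < max i j + 1 := Nat.lt_succ_of_le (le_max_right _ _)
  have h3 := (s (max i j + 1)).2 i h1 j h2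
  rw [hs' i _ h1, hs' j _ h2] at h3
  exact h3

theorem thm_URY : St_URY := by
  intro U Y _ _ hU hY
  have hc := hU.complete
  rcases isEmpty_or_nonempty Y with hE | hN
  · exact ⟨fun y => (IsEmpty.false y).elim, fun y => (IsEmpty.false y).elim⟩
  obtain ⟨u, hu⟩ := ury_seq hU (denseSeq Y)
  let D : Set Y := range (denseSeq Y)
  choose ix hix using fun d : D => d.2
  let g : D → U := fun d => u (ix d)
  have hg : Isometry g := Isometry.of_dist_eq fun a b => by
    show dist (u (ix a)) (u (ix b)) = dist a b
    rw [hu, hix a, hix b]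
    rfl
  have hi : IsUniformInducing (Subtype.val : D → Y) := isUniformInducing_val D
  have hd : DenseRange (Subtype.val : D → Y) := by
    rw [DenseRange, Subtype.range_coe]
    exact denseRange_denseSeq Y
  let j : Y → U := (hi.isDenseInducing hd).extend g
  have hj : UniformContinuous j :=
    uniformContinuous_uniformly_extend hi hd hg.uniformContinuous
  have hjd : ∀ d : D, j d = g d := fun d =>
    uniformly_extend_of_ind hi hd hg.uniformContinuous d
  refine ⟨j, Isometry.of_dist_eq fun a b => ?_⟩
  have hcl : IsClosed {q : Y × Y | dist (j q.1) (j q.2) = dist q.1 q.2} :=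
    isClosed_eq ((hj.continuous.comp continuous_fst).dist (hj.continuous.comp continuous_snd))
      (continuous_fst.dist continuous_snd)
  exact hd.induction_on₂ hcl (fun c d => by
    show dist (j c) (j d) = dist (c : Y) (d : Y)
    rw [hjd, hjd, hg.dist_eq]
    rfl) a b

end Pool.Agent.SRF
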