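import Pool.Agent.SRF.AsmA
import Pool.Agent.SRF.THS
import Pool.Agent.SRF.PDT
import Pool.Agent.SRF.SHR
import Pool.Agent.SRF.ARC0
import Pool.Agent.SRF.BFR
import Pool.Agent.SRF.ATI
import Pool.Agent.SRF.ATE
import Pool.Agent.SRF.ATB
import Pool.Agent.SRF.BB
import Pool.Agent.SRF.ONE1
import Pool.Agent.SRF.ONE2
import Pool.Agent.SRF.BCI
import Pool.Agent.SRF.CAP
import Pool.Agent.SRF.CAPS
import Pool.Agent.SRF.CARS
import Pool.Agent.SRF.RECT
import Pool.Agent.SRF.RATT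
import Pool.Agent.SRF.CASEA
import Pool.Agent.SRF.FLATN
import Pool.Agent.SRF.GR1
import Pool.Agent.SRF.GR2
import Pool.Agent.SRF.GR3
import Pool.Agent.SRF.GR4
import Pool.Agent.SRF.GR5
import Pool.Agent.SRF.GR6
import Pool.Agent.SRF.GRB
import Pool.Agent.SRF.STEP
import Pool.Agent.SRF.EXH
import Pool.Agent.SRF.LOC
import Pool.Agent.SRF.LOCU
import Pool.Agent.SRF.ADJ
import Pool.Agent.SRF.FILL
import Pool.Agent.SRF.MOVX
import Pool.Agent.SRF.CNT
import Pool.Agent.SRF.MAN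
import Pool.Agent.SRF.EFF
import Pool.Agent.SRF.URY
import Pool.Agent.SRF.FIN6

set_option autoImplicit false

/-! # SRF, Part II assembled: exhaustion of surfaces by built sets -/

namespace Pool.Agent.SRF

theorem sTHS : St_THS := thm_THS sSCH
theorem sPDT : St_PDT := thm_PDT sTH sTHS sSCH
theorem sSHR : St_SHR := thm_SHR
theorem sARC0 : St_ARC0 := thm_ARC0
theorem sBFR : St_BFR := thm_BFR sSHR
theorem sATI : St_ATI := thm_ATI sINV sBFR
theorem sATE : St_ATE := thm_ATE sSCH sTH sTE sSHR sBFR sATI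
theorem sATB : St_ATB := thm_ATB sTE sSHR sARC0 sBFR sATI sATE
theorem sBB : St_BB := thm_BB sTE sSHR sARC0 sATB
theorem sONE1 : St_ONE1 := thm_ONE1
theorem sONE2 : St_ONE2 := thm_ONE2 sONE1
theorem sBCI : St_BCI := thm_BCI sBFR sONE2
theorem sCAP : St_CAP := thm_CAP sSCH sINV sBFR
theorem sCAPS : St_CAPS := thm_CAPS sBFR sATB sBCI sCAP
theorem sCARS : St_CARS := thm_CARS
theorem sRECT : St_RECT := thm_RECT
theorem sRATT : St_RATT := thm_RATT sRECT
theorem sCASEA : St_CASEA := thm_CASEA sRECT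
theorem sFLATN : St_FLATN := thm_FLATN sSTR sCARS
theorem sGR1 : St_GR1 := thm_GR1 sBFR
theorem sGR2 : St_GR2 := thm_GR2
theorem sGR3 : St_GR3 := thm_GR3
theorem sGR4 : St_GR4 := thm_GR4 sGR1 sRATT
theorem sGR5 : St_GR5 := thm_GR5 sGR1 sRATT
theorem sGR6 : St_GR6 := thm_GR6 sGR1 sRATT
theorem sGRB : St_GRB := thm_GRB sGR1 sGR2 sGR3 sGR4 sGR5 sGR6
theorem sSTEP : St_STEP := thm_STEP sBB sCAPS sCASEA sFLATN sGRB
theorem sEXH : St_EXH := thm_EXH sSTEP
theorem sLOC : St_LOC := thm_LOC sARC0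
theorem sADJ : St_ADJ := thm_ADJ sBFR
theorem sLOCU : St_LOCU := thm_LOCU sLOC sADJ
theorem sFILL : St_FILL := thm_FILL sARC0 sEXH sLOC sADJ
theorem sMOVX : St_MOVX := thm_MOVX sSHR sMOVE
theorem sCNT : St_CNT := thm_CNT
theorem sMAN : St_MAN := thm_MAN
theorem sEFF : St_EFF := thm_EFF
theorem sURY : St_URY := thm_URY

end Pool.Agent.SRF
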