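import Pool.Agent.SRF.St6

set_option autoImplicit false

/-! # SRF (MP_3b9597_lc), CMP: from connected surfaces to all surfaces -/

open Set Metric Filter Topology TopologicalSpace

namespace Pool.Agent.SRF

/-- A space is the disjoint union of the fibres of a map, if the fibres are open. -/
noncomputable def cmp_sig {X A : Type} [TopologicalSpace X] (p : X → A)
    (hp : ∀ a, IsOpen {x | p x = a}) : (Σ a, {x // p x = a}) ≃ₜ X :=
  (Equiv.sigmaFiberEquiv p).toHomeomorphOfContinuousOpen
    (continuous_sigma fun _ => continuous_subtype_val)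
    (isOpenMap_sigma.2 fun a => (hp a).isOpenMap_subtype_val)

theorem cmp_glue {X Y A : Type} [TopologicalSpace X] [TopologicalSpace Y] (p : X → A) (q : Y → A)
    (hp : ∀ a, IsOpen {x | p x = a}) (hq : ∀ a, IsOpen {y | q y = a})
    (h : ∀ a, Nonempty ({x // p x = a} ≃ₜ {y // q y = a})) : Nonempty (X ≃ₜ Y) := by
  let e := fun a => (h a).some
  let mid : (Σ a, {x // p x = a}) ≃ₜ (Σ a, {y // q y = a}) :=
    { toEquiv := Equiv.sigmaCongrRight fun a => (e a).toEquiv
      continuous_toFun := continuous_sigma fun a => continuous_sigmaMk.comp (e a).continuous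
      continuous_invFun := continuous_sigma fun a => continuous_sigmaMk.comp (e a).symm.continuous }
  exact ⟨(cmp_sig p hp).symm.trans (mid.trans (cmp_sig q hq))⟩

theorem cmp_open {X : Type} [TopologicalSpace X] (hX : IsSurf X) {W : Set X} (hW : IsOpen W) :
    IsSurf W := by
  have h2 := hX.t2
  have hsc := hX.sc
  refine ⟨inferInstance, inferInstance, ?_⟩
  rintro ⟨w, hw⟩
  obtain ⟨φ, hφ, hφ0⟩ := hX.chart w
  have h0 : φ ⁻¹' W ∈ 𝓝 (0 : ℂ) := by
    refine (hW.preimage hφ.continuous).mem_nhds ?_
    show φ 0 ∈ W
    rwa [hφ0]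
  obtain ⟨r, hr, hrW⟩ := Metric.mem_nhds_iff.1 h0
  have hσ : IsOpenEmbedding (OpenPartialHomeomorph.univBall (0 : ℂ) r) :=
    OpenPartialHomeomorph.isOpenEmbedding _ (OpenPartialHomeomorph.univBall_source _ _)
  have hm : ∀ z, φ (OpenPartialHomeomorph.univBall (0 : ℂ) r z) ∈ W := by
    intro z
    refine hrW ?_
    rw [← OpenPartialHomeomorph.univBall_target (0 : ℂ) hr]
    refine (OpenPartialHomeomorph.univBall (0 : ℂ) r).map_source ?_
    rw [OpenPartialHomeomorph.univBall_source]
    exact mem_univ _
  refine ⟨fun z => ⟨φ (OpenPartialHomeomorph.univBall (0 : ℂ) r z), hm z⟩, ?_, ?_⟩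
  · rw [← IsOpenEmbedding.of_comp_iff _ hW.isOpenEmbedding_subtypeVal]
    exact hφ.comp hσ
  · apply Subtype.ext
    show φ (OpenPartialHomeomorph.univBall (0 : ℂ) r 0) = w
    rw [OpenPartialHomeomorph.univBall_apply_zero, hφ0]

theorem cmp_comp {X : Type} [TopologicalSpace X] (hX : IsSurf X) (x : X) :
    IsOpen (connectedComponent x) := by
  rw [isOpen_iff_mem_nhds]
  intro y hy
  obtain ⟨φ, hφ, hφ0⟩ := hX.chart y
  have h1 : IsPreconnected (range φ) := isPreconnected_range hφ.continuous
  have h2 : y ∈ range φ := ⟨0, hφ0⟩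
  have h3 : range φ ⊆ connectedComponent x := by
    have h4 := h1.subset_connectedComponent h2
    rwa [← connectedComponent_eq hy] at h4
  exact mem_of_superset (hφ.isOpen_range.mem_nhds h2) h3

theorem thm_CMP (hC : St_CONN) : St_CMP := by
  rintro X Y _ _ hX hY ⟨H⟩
  let p : X → ConnectedComponents X := fun x => (x : ConnectedComponents X)
  let q : Y → ConnectedComponents X := fun y => p (H.symm (y, 1)).1
  have hp : ∀ a, IsOpen {x | p x = a} := by
    intro a
    obtain ⟨x, rfl⟩ := ConnectedComponents.surjective_coe a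
    have h1 : {z | p z = (x : ConnectedComponents X)} = connectedComponent x :=
      connectedComponents_preimage_singleton
    rw [h1]
    exact cmp_comp hX x
  have hqc : Continuous fun y : Y => (H.symm (y, 1)).1 :=
    continuous_fst.comp (H.symm.continuous.comp (by fun_prop))
  have hq : ∀ a, IsOpen {y | q y = a} := fun a => (hp a).preimage hqc
  have hconst : ∀ (y : Y) (t : Circle), p (H.symm (y, t)).1 = q y := by
    intro y t
    have h1 : Continuous fun t : Circle => (H.symm (y, t)).1 :=
      continuous_fst.comp (H.symm.continuous.comp (by fun_prop))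
    have h2 : IsPreconnected (range fun t : Circle => (H.symm (y, t)).1) :=
      isPreconnected_range h1
    have h3 := h2.subset_connectedComponent ⟨1, rfl⟩ ⟨t, rfl⟩
    exact ConnectedComponents.coe_eq_coe.2 (connectedComponent_eq h3).symm
  have hconst' : ∀ (x : X) (s : Circle), q (H (x, s)).1 = p x := by
    intro x s
    have h1 := hconst (H (x, s)).1 (H (x, s)).2
    rw [Prod.mk.eta, H.symm_apply_apply] at h1
    exact h1.symm
  refine cmp_glue p q hp hq fun a => ?_
  let E : ({x // p x = a} × Circle) ≃ₜ ({y // q y = a} × Circle) :=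
    { toFun := fun z => (⟨(H (z.1.1, z.2)).1, (hconst' _ _).trans z.1.2⟩, (H (z.1.1, z.2)).2)
      invFun := fun z => (⟨(H.symm (z.1.1, z.2)).1, (hconst _ _).trans z.1.2⟩,
        (H.symm (z.1.1, z.2)).2)
      left_inv := by
        rintro ⟨⟨x, hx⟩, s⟩
        refine Prod.ext (Subtype.ext ?_) ?_
        · show (H.symm ((H (x, s)).1, (H (x, s)).2)).1 = x
          rw [Prod.mk.eta, H.symm_apply_apply]
        · show (H.symm ((H (x, s)).1, (H (x, s)).2)).2 = s
          rw [Prod.mk.eta, H.symm_apply_apply]
      right_inv := by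
        rintro ⟨⟨y, hy⟩, t⟩
        refine Prod.ext (Subtype.ext ?_) ?_
        · show (H ((H.symm (y, t)).1, (H.symm (y, t)).2)).1 = y
          rw [Prod.mk.eta, H.apply_symm_apply]
        · show (H ((H.symm (y, t)).1, (H.symm (y, t)).2)).2 = t
          rw [Prod.mk.eta, H.apply_symm_apply]
      continuous_toFun := by
        have h1 : Continuous fun z : {x // p x = a} × Circle => H (z.1.1, z.2) :=
          H.continuous.comp (by fun_prop)
        exact ((continuous_fst.comp h1).subtype_mk _).prodMk (continuous_snd.comp h1)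
      continuous_invFun := by
        have h1 : Continuous fun z : {y // q y = a} × Circle => H.symm (z.1.1, z.2) :=
          H.symm.continuous.comp (by fun_prop)
        exact ((continuous_fst.comp h1).subtype_mk _).prodMk (continuous_snd.comp h1) }
  have hcX : ConnectedSpace {x // p x = a} := by
    obtain ⟨x, rfl⟩ := ConnectedComponents.surjective_coe a
    have h1 : {z | p z = (x : ConnectedComponents X)} = connectedComponent x :=
      connectedComponents_preimage_singleton
    have h2 : IsConnected {z | p z = (x : ConnectedComponents X)} := by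
      rw [h1]
      exact isConnected_connectedComponent
    exact isConnected_iff_connectedSpace.1 h2
  have hcY : ConnectedSpace {y // q y = a} := by
    have h1 : Function.Surjective fun z : {x // p x = a} × Circle => (E z).1 := by
      intro y
      refine ⟨E.symm (y, 1), ?_⟩
      show (E (E.symm (y, 1))).1 = y
      rw [E.apply_symm_apply]
    have h2 : Continuous fun z : {x // p x = a} × Circle => (E z).1 :=
      continuous_fst.comp E.continuous
    exact h1.connectedSpace h2
  exact hC {x // p x = a} {y // q y = a} (cmp_open hX (hp a)) (cmp_open hY (hq a)) hcX hcY ⟨E⟩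

end Pool.Agent.SRF
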