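import Pool.Agent.SRF.StC

set_option autoImplicit false

/-! # SRF, module GEX: the good exhaustion -/

open Set Metric Filter Topology

namespace Pool.Agent.SRF

theorem gex_UC : IsPreconnected UC :=
  isPreconnected_sphere (by rw [Complex.rank_real_complex]; exact Cardinal.one_lt_two) 0 1

theorem thm_GEX (hBB : St_BB) (hBCI : St_BCI) (hEXH : St_EXH) (hADJ : St_ADJ)
    (hJOINC : St_JOINC) (hFILL : St_FILL) : St_GEX := by
  classical
  intro X _ hX hXc K C hK hKc hC
  have := hX.t2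
  obtain ⟨K₁, hK₁, hsub, hB₁, hc₁⟩ := hEXH X hX hXc K C hK hKc hC
  obtain ⟨-, hBB2, hBB3⟩ := hBB X hX
  let P : ℕ → Prop := fun n => ∃ K' : Set X, BuiltFrom K₁ K' ∧ NC (frontier K') n
  have hP : ∃ n, P n := by
    obtain ⟨n, γ, h1, h2, h3⟩ := hBCI X hX K₁ hB₁
    exact ⟨n, K₁, .refl, γ, h1, h2, h3⟩
  obtain ⟨n, hPn, hmin⟩ : ∃ n, P n ∧ ∀ m < n, ¬ P m :=
    ⟨Nat.find hP, Nat.find_spec hP, fun m hm => Nat.find_min hP hm⟩
  obtain ⟨K', hK', γ, hγ, hdis, hfr⟩ := hPn
  have hB' : Bord K' := hBB2 K₁ K' hK' hB₁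
  have hc' : IsConnected K' := hBB3 K₁ K' hK' hc₁
  refine ⟨K', hK₁.trans hK', hsub.trans (interior_mono hK'.subset), hB', hc', ?_⟩
  intro x hx
  obtain ⟨hUo, hUfr, -, h4⟩ := hADJ X hX K' hB' x hx
  have hUK : connectedComponentIn K'ᶜ x ⊆ K'ᶜ := connectedComponentIn_subset _ _
  have hxU : x ∈ connectedComponentIn K'ᶜ x := mem_connectedComponentIn hx
  set U := connectedComponentIn K'ᶜ x with hU
  have hne : (frontier U).Nonempty := by
    rw [nonempty_iff_ne_empty]
    intro h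
    have h1 : IsClopen U := isClopen_iff_frontier_eq_empty.2 h
    have h2 := h1.eq_univ ⟨x, hxU⟩
    obtain ⟨y, hy⟩ := hc'.nonempty
    have h3 : y ∈ U := by
      rw [h2]
      exact mem_univ y
    exact hUK h3 hy
  have hdich : ∀ i, γ i '' UC ⊆ frontier U ∨ Disjoint (γ i '' UC) (closure U) := by
    intro i
    refine h4 _ ?_ (gex_UC.image _ (hγ i).1)
    rw [hfr]
    exact subset_iUnion (fun i => γ i '' UC) i
  let S : Set (Fin n) := {i | γ i '' UC ⊆ frontier U}
  have hmemS : ∀ i, ∀ y ∈ γ i '' UC, y ∈ frontier U → i ∈ S := by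
    intro i y hy hyU
    rcases hdich i with h | h
    · exact h
    · exact absurd (frontier_subset_closure hyU) (disjoint_left.1 h hy)
  obtain ⟨y, hy⟩ := hne
  have hyK := hUfr hy
  rw [hfr, mem_iUnion] at hyK
  obtain ⟨i, hi⟩ := hyK
  have hiS : i ∈ S := hmemS i y hi hy
  constructor
  · intro hcomp
    obtain ⟨h1, h2⟩ := hFILL X hX hXc K' x hB' hc' hx hcomp
    let e : {j // j ∉ S} ≃ Fin (Fintype.card {j // j ∉ S}) := Fintype.equivFin _
    have hlt : Fintype.card {j // j ∉ S} < n := by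
      have := Fintype.card_subtype_lt (p := fun j => j ∉ S) (x := i) (fun h => h hiS)
      rwa [Fintype.card_fin] at this
    refine hmin _ hlt ⟨K' ∪ U, hK'.trans h1, fun k => γ (e.symm k).1, fun k => hγ _, ?_, ?_⟩
    · intro k l hkl
      refine hdis _ _ fun h => hkl ?_
      exact e.symm.injective (Subtype.ext h)
    · rw [h2, hfr]
      ext z
      simp only [Set.mem_sdiff, mem_iUnion]
      constructor
      · rintro ⟨⟨j, hj⟩, hz⟩
        have hjS : j ∉ S := fun h => hz (h hj)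
        refine ⟨e ⟨j, hjS⟩, ?_⟩
        rw [Equiv.symm_apply_apply]
        exact hj
      · rintro ⟨k, hk⟩
        exact ⟨⟨_, hk⟩, fun hz => (e.symm k).2 (hmemS _ z hk hz)⟩
  · refine ⟨γ i, hγ i, ?_⟩
    apply Subset.antisymm
    · intro z hz
      have hzK := hUfr hz
      rw [hfr, mem_iUnion] at hzK
      obtain ⟨j, hj⟩ := hzK
      have hjS : j ∈ S := hmemS j z hj hz
      by_cases hij : j = i
      · rw [← hij]
        exact hj
      · exfalso
        obtain ⟨K₂, h1, h2⟩ := hJOINC X hX K' x hB' hc' hx n γ hγ hdis hfr j i hij hjS hiS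
        refine hmin (n - 1) ?_ ⟨K₂, hK'.trans h1, h2⟩
        have := i.pos
        omega
    · exact hiS

end Pool.Agent.SRF
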