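import Pool.Agent.SRF.StC
import Pool.Agent.SRF.ARC0

set_option autoImplicit false

/-! # SRF, module JCA: a band between two boundary circles of the same component -/

open Set Metric Filter Topology

namespace Pool.Agent.SRF

/-- the point `s - i y` -/
def jca_P (s y : ℝ) : ℂ := ⟨s, -y⟩

theorem jca_P_cont2 : Continuous (fun p : ℝ × ℝ => jca_P p.1 p.2) := by
  have h : (fun p : ℝ × ℝ => jca_P p.1 p.2) =
      fun p : ℝ × ℝ => (p.1 : ℂ) + ((-p.2 : ℝ) : ℂ) * Complex.I := by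
    funext p
    apply Complex.ext <;> simp [jca_P]
  rw [h]
  fun_prop

theorem jca_P_cont (s : ℝ) : Continuous (fun y : ℝ => jca_P s y) :=
  jca_P_cont2.comp (Continuous.prodMk_right s)

/-- continuity on the image of a compact set -/
theorem jca_quot {A B Y : Type*} [TopologicalSpace A] [TopologicalSpace B] [TopologicalSpace Y]
    [T2Space A] [T2Space B] {f : A → B} {K : Set A} (hK : IsCompact K) (hf : ContinuousOn f K)
    {g : B → Y} (h : ContinuousOn (fun a => g (f a)) K) : ContinuousOn g (f '' K) := by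
  rw [continuousOn_iff_isClosed]
  intro C hC
  refine ⟨f '' (K ∩ (fun a => g (f a)) ⁻¹' C), ?_, ?_⟩
  · have h1 : IsClosed (K ∩ (fun a => g (f a)) ⁻¹' C) :=
      h.preimage_isClosed_of_isClosed hK.isClosed hC
    exact ((hK.of_isClosed_subset h1 inter_subset_left).image_of_continuousOn
      (hf.mono inter_subset_left)).isClosed
  · ext b
    constructor
    · rintro ⟨hb, a, ha, rfl⟩
      exact ⟨⟨a, ⟨ha, hb⟩, rfl⟩, a, ha, rfl⟩
    · rintro ⟨⟨a, ⟨ha, hb⟩, rfl⟩, hb'⟩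
      exact ⟨hb, hb'⟩

/-- a Jordan curve from four arcs -/
theorem jca_loop {Y : Type*} [TopologicalSpace Y] (P : ℕ → ℝ → Y) (hc : ∀ i, Continuous (P i))
    (hm : ∀ i < 4, P i 1 = P (i + 1) 0) (h4 : P 4 0 = P 0 0)
    (hi : ∀ i < 4, InjOn (P i) (Ico 0 1))
    (hd : ∀ i < 4, ∀ j < 4, i ≠ j → ∀ u ∈ Ico (0 : ℝ) 1, ∀ v ∈ Ico (0 : ℝ) 1, P i u ≠ P j v) :
    ∃ γ : ℂ → Y, IsJordan γ ∧
      (∀ i : ℕ, i < 4 → γ '' carc (i * (Real.pi / 2)) ((i + 1) * (Real.pi / 2)) = P i '' Icc 0 1) ∧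
      ∀ z ∈ UC, ∃ i < 4, ∃ u ∈ Ico (0 : ℝ) 1, γ z = P i u := by
  have hpi := Real.pi_pos
  obtain ⟨L, hLdef⟩ : ∃ L : ℝ → Y, L = fun u => P ⌊u⌋₊ (u - ⌊u⌋₊) := ⟨_, rfl⟩
  have hL : ∀ i : ℕ, i < 4 → ∀ u ∈ Icc (i : ℝ) (i + 1), L u = P i (u - i) := by
    intro i hi4 u hu
    rw [hLdef]
    rcases hu.2.lt_or_eq with h | h
    · have h1 : ⌊u⌋₊ = i := by
        rw [Nat.floor_eq_iff ((Nat.cast_nonneg i).trans hu.1)]
        exact ⟨hu.1, h⟩
      show P ⌊u⌋₊ (u - ⌊u⌋₊) = _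
      rw [h1]
    · have h1 : ⌊u⌋₊ = i + 1 := by
        rw [Nat.floor_eq_iff ((Nat.cast_nonneg i).trans hu.1)]
        push_cast
        rw [h]
        constructor <;> linarith
      show P ⌊u⌋₊ (u - ⌊u⌋₊) = _
      rw [h1, h]
      push_cast
      rw [sub_self, add_sub_cancel_left]
      exact (hm i hi4).symm
  have hL4 : L 4 = P 0 0 := by
    have := hL 3 (by norm_num) 4 (by constructor <;> norm_num)
    rw [this, ← h4, ← hm 3 (by norm_num)]
    norm_num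
  have hLc1 : ∀ i : ℕ, i < 4 → ContinuousOn L (Icc (i : ℝ) (i + 1)) := by
    intro i hi4
    refine ContinuousOn.congr (f := fun u => P i (u - i)) ?_ (hL i hi4)
    exact ((hc i).comp (continuous_id.sub continuous_const)).continuousOn
  have hLc : ContinuousOn L (Icc 0 4) := by
    have h0 := hLc1 0 (by norm_num)
    have h1 := hLc1 1 (by norm_num)
    have h2 := hLc1 2 (by norm_num)
    have h3 := hLc1 3 (by norm_num)
    norm_num at h0 h1 h2 h3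
    have h5 := ((h0.union_of_isClosed h1 isClosed_Icc isClosed_Icc).union_of_isClosed h2
      (isClosed_Icc.union isClosed_Icc) isClosed_Icc).union_of_isClosed h3
      ((isClosed_Icc.union isClosed_Icc).union isClosed_Icc) isClosed_Icc
    refine h5.mono ?_
    intro u hu
    rcases le_total u 1 with h | h
    · exact Or.inl (Or.inl (Or.inl ⟨hu.1, h⟩))
    · rcases le_total u 2 with h' | h'
      · exact Or.inl (Or.inl (Or.inr ⟨h, h'⟩))
      · rcases le_total u 3 with h'' | h''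
        · exact Or.inl (Or.inr ⟨h', h''⟩)
        · exact Or.inr ⟨h'', hu.2⟩
  have hfl : ∀ u ∈ Ico (0 : ℝ) 4, ⌊u⌋₊ < 4 ∧ u - ⌊u⌋₊ ∈ Ico (0 : ℝ) 1 ∧
      L u = P ⌊u⌋₊ (u - ⌊u⌋₊) := by
    intro u hu
    have h1 : ((⌊u⌋₊ : ℕ) : ℝ) ≤ u := Nat.floor_le hu.1
    have h2 := Nat.lt_floor_add_one u
    refine ⟨?_, ⟨by linarith, by linarith⟩, by rw [hLdef]⟩
    have h3 : ((⌊u⌋₊ : ℕ) : ℝ) < 4 := h1.trans_lt hu.2
    exact_mod_cast h3
  have hLi : ∀ u ∈ Ico (0 : ℝ) 4, ∀ v ∈ Ico (0 : ℝ) 4, L u = L v → u = v := by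
    intro u hu v hv h
    obtain ⟨a1, a2, a3⟩ := hfl u hu
    obtain ⟨b1, b2, b3⟩ := hfl v hv
    rw [a3, b3] at h
    by_cases hij : ⌊u⌋₊ = ⌊v⌋₊
    · rw [hij] at h a2
      have := hi _ b1 a2 b2 h
      linarith
    · exact absurd h (hd _ a1 _ b1 hij _ a2 _ b2)
  have hsur : ∀ z : ℂ, ∃ t : ℝ, z ∈ UC → t ∈ Ico (0 : ℝ) (0 + 2 * Real.pi) ∧ cexpi t = z := by
    intro z
    by_cases hz : z ∈ UC
    · obtain ⟨t, ht, h⟩ := arc0_surj 0 hz
      exact ⟨t, fun _ => ⟨ht, h⟩⟩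
    · exact ⟨0, fun h => absurd h hz⟩
  choose τ hτ using hsur
  obtain ⟨γ, hγdef⟩ : ∃ γ : ℂ → Y, γ = fun z => L (2 / Real.pi * τ z) := ⟨_, rfl⟩
  have hsc : ∀ t : ℝ, t ∈ Ico (0 : ℝ) (0 + 2 * Real.pi) → 2 / Real.pi * t ∈ Ico (0 : ℝ) 4 := by
    intro t ht
    have h2 : 0 < 2 / Real.pi := by positivity
    constructor
    · exact mul_nonneg h2.le ht.1
    · have h3 : t < 2 * Real.pi := by linarith [ht.2]
      calc 2 / Real.pi * t < 2 / Real.pi * (2 * Real.pi) := mul_lt_mul_of_pos_left h3 h2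
        _ = 4 := by field_simp; norm_num
  have hγ : ∀ θ ∈ Icc (0 : ℝ) (2 * Real.pi), γ (cexpi θ) = L (2 / Real.pi * θ) := by
    intro θ hθ
    rw [hγdef]
    show L (2 / Real.pi * τ (cexpi θ)) = _
    obtain ⟨h1, h2⟩ := hτ (cexpi θ) (arc0_mem_UC θ)
    rcases hθ.2.lt_or_eq with h | h
    · rw [arc0_inj h1 ⟨hθ.1, by linarith⟩ h2]
    · have h3 : cexpi θ = cexpi 0 := by
        rw [h, ← arc0_add_two_pi 0, zero_add]
      rw [h3] at h1 h2 ⊢
      have h5 : τ (cexpi 0) = 0 := arc0_inj h1 ⟨le_rfl, by linarith⟩ h2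
      rw [h5, mul_zero, h]
      have h6 : 2 / Real.pi * (2 * Real.pi) = 4 := by field_simp; norm_num
      rw [h6, hL4]
      have := hL 0 (by norm_num) 0 (by constructor <;> norm_num)
      rw [this]
      norm_num
  have hUC : UC = cexpi '' Icc 0 (2 * Real.pi) := by
    apply Subset.antisymm
    · intro z hz
      obtain ⟨t, ht, rfl⟩ := arc0_surj 0 hz
      exact ⟨t, ⟨ht.1, by linarith [ht.2]⟩, rfl⟩
    · rintro _ ⟨t, _, rfl⟩
      exact arc0_mem_UC t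
  refine ⟨γ, ⟨?_, ?_⟩, ?_, ?_⟩
  · rw [hUC]
    refine jca_quot isCompact_Icc arc0_cont.continuousOn ?_
    refine ContinuousOn.congr (f := fun θ => L (2 / Real.pi * θ)) ?_ hγ
    refine hLc.comp (by fun_prop) ?_
    intro θ hθ
    have h2 : 0 < 2 / Real.pi := by positivity
    constructor
    · exact mul_nonneg h2.le hθ.1
    · calc 2 / Real.pi * θ ≤ 2 / Real.pi * (2 * Real.pi) := mul_le_mul_of_nonneg_left hθ.2 h2.le
        _ = 4 := by field_simp; norm_num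
  · intro z hz w hw h
    rw [hγdef] at h
    obtain ⟨h1, h2⟩ := hτ z hz
    obtain ⟨h3, h5⟩ := hτ w hw
    have h6 := hLi _ (hsc _ h1) _ (hsc _ h3) h
    have h7 : (2 / Real.pi) ≠ 0 := by positivity
    have h8 := mul_left_cancel₀ h7 h6
    rw [← h2, ← h5, h8]
  · intro i hi4
    have hi3 : (i : ℝ) ≤ 3 := by
      have : i ≤ 3 := by omega
      exact_mod_cast this
    have hi0 : (0 : ℝ) ≤ i := Nat.cast_nonneg i
    unfold carc
    rw [image_image]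
    apply Subset.antisymm
    · rintro _ ⟨θ, hθ, rfl⟩
      have hu : 2 / Real.pi * θ ∈ Icc (i : ℝ) (i + 1) := by
        constructor
        · calc (i : ℝ) = 2 / Real.pi * (i * (Real.pi / 2)) := by field_simp
            _ ≤ 2 / Real.pi * θ := mul_le_mul_of_nonneg_left hθ.1 (by positivity)
        · calc 2 / Real.pi * θ ≤ 2 / Real.pi * ((i + 1) * (Real.pi / 2)) :=
                mul_le_mul_of_nonneg_left hθ.2 (by positivity)
            _ = (i : ℝ) + 1 := by field_simp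
      have hθ' : θ ∈ Icc (0 : ℝ) (2 * Real.pi) := by
        constructor
        · exact le_trans (by positivity) hθ.1
        · refine hθ.2.trans ?_
          nlinarith
      simp only
      rw [hγ θ hθ', hL i hi4 _ hu]
      exact ⟨_, ⟨by linarith [hu.1], by linarith [hu.2]⟩, rfl⟩
    · rintro _ ⟨u, hu, rfl⟩
      have hθ : (i + u) * (Real.pi / 2) ∈ Icc (i * (Real.pi / 2)) ((i + 1) * (Real.pi / 2)) := by
        constructor
        · exact mul_le_mul_of_nonneg_right (by linarith [hu.1]) (by positivity)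
        · exact mul_le_mul_of_nonneg_right (by linarith [hu.2]) (by positivity)
      have hθ' : (i + u) * (Real.pi / 2) ∈ Icc (0 : ℝ) (2 * Real.pi) := by
        constructor
        · exact le_trans (by positivity) hθ.1
        · refine hθ.2.trans ?_
          nlinarith
      refine ⟨(i + u) * (Real.pi / 2), hθ, ?_⟩
      simp only
      have h1 : 2 / Real.pi * ((i + u) * (Real.pi / 2)) = i + u := by field_simp
      rw [hγ _ hθ', h1, hL i hi4 _ ⟨by linarith [hu.1], by linarith [hu.2]⟩, add_sub_cancel_left]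
  · intro z hz
    obtain ⟨h1, h2⟩ := hτ z hz
    obtain ⟨a1, a2, a3⟩ := hfl _ (hsc _ h1)
    refine ⟨_, a1, _, a2, ?_⟩
    rw [hγdef]
    exact a3

/-- the first point of a closed set on a vertical ray -/
theorem jca_first {Q : Set ℂ} (hQ : IsClosed Q) (s c : ℝ) (hc : 0 ≤ c) (h : jca_P s c ∈ Q) :
    ∃ y, 0 ≤ y ∧ y ≤ c ∧ jca_P s y ∈ Q ∧ ∀ y', 0 ≤ y' → y' < y → jca_P s y' ∉ Q := by
  have hS : IsCompact (Icc 0 c ∩ (fun y => jca_P s y) ⁻¹' Q) :=
    isCompact_Icc.inter_right (hQ.preimage (jca_P_cont s))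
  obtain ⟨y, hy, hmin⟩ := hS.exists_isLeast ⟨c, ⟨hc, le_rfl⟩, h⟩
  refine ⟨y, hy.1.1, hy.1.2, hy.2, fun y' h0 h1 h2 => ?_⟩
  exact absurd (hmin ⟨⟨h0, h1.le.trans hy.1.2⟩, h2⟩) (not_le.2 h1)

/-- the band, in a chart -/
theorem jca_band (hSCH : St_SCH) (hBFR : St_BFR) {X : Type} [TopologicalSpace X] (hX : IsSurf X)
    {K R : Set X} (hKcl : IsClosed K) (hR : IsClosed R) (hM : Bord (K ∪ R))
    (hMc : IsConnected (K ∪ R)) {Φ : ℂ → X} (hΦ : IsOpenEmbedding Φ)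
    (hK : ∀ z, Φ z ∈ K ↔ 0 ≤ z.im) (hΦR : ∀ z : ℂ, 0 ≤ z.im → Φ z ∉ R)
    (hax : ∀ z : ℂ, z.im = 0 → Φ z ∈ frontier (K ∪ R)) (h2 : Φ (jca_P 0 2) ∈ R) :
    ∃ e₂ : ℂ → X, Att (K ∪ R) e₂ (carc 0 (Real.pi / 2) ∪ carc Real.pi (3 * Real.pi / 2))
        (oarc 0 (Real.pi / 2) ∪ oarc Real.pi (3 * Real.pi / 2)) ∧
      e₂ '' carc 0 (Real.pi / 2) ⊆ Φ '' {z | z.im = 0} ∧
      e₂ '' carc Real.pi (3 * Real.pi / 2) ⊆ frontier (K ∪ R) \ K := by
  have := hX.t2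
  obtain ⟨b1, b2, b3, b4, -⟩ := hBFR X hX (K ∪ R) hM
  have hMcl : IsClosed (K ∪ R) := hM.1.isClosed
  have hfrM : ∀ p, p ∈ frontier (K ∪ R) ↔ p ∈ K ∪ R ∧ p ∉ interior (K ∪ R) := by
    intro p
    rw [hMcl.frontier_eq]
    rfl
  obtain ⟨Q, hQ⟩ : ∃ Q : Set ℂ, Q = Φ ⁻¹' R := ⟨_, rfl⟩
  have hQcl : IsClosed Q := by
    rw [hQ]
    exact hR.preimage hΦ.continuous
  have hQm : ∀ z, z ∈ Q ↔ Φ z ∈ R := by
    intro z
    rw [hQ]
    rfl
  have hQim : ∀ z ∈ Q, z.im < 0 := by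
    intro z hz
    by_contra h
    exact hΦR z (not_lt.1 h) ((hQm z).1 hz)
  have hMQ : ∀ z : ℂ, z.im < 0 → (Φ z ∈ K ∪ R ↔ z ∈ Q) := by
    intro z hz
    rw [hQm]
    constructor
    · rintro (h | h)
      · exact absurd ((hK z).1 h) (not_le.2 hz)
      · exact h
    · exact fun h => Or.inr h
  -- first points are in the frontier
  have hfst : ∀ s y : ℝ, jca_P s y ∈ Q → (∀ y', 0 ≤ y' → y' < y → jca_P s y' ∉ Q) →
      0 < y ∧ Φ (jca_P s y) ∈ frontier (K ∪ R) := by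
    intro s y hy hmin
    have hy0 : 0 < y := by
      have : (jca_P s y).im < 0 := hQim _ hy
      have h3 : -y < 0 := this
      linarith
    refine ⟨hy0, (hfrM _).2 ⟨(hMQ _ (hQim _ hy)).2 hy, fun hint => ?_⟩⟩
    have hV : IsOpen ((fun y => Φ (jca_P s y)) ⁻¹' interior (K ∪ R)) :=
      isOpen_interior.preimage (hΦ.continuous.comp (jca_P_cont s))
    obtain ⟨l, hl, hl2⟩ := exists_Ioc_subset_of_mem_nhds (hV.mem_nhds hint) ⟨y - 1, by linarith⟩
    have h5 : (max l 0 + y) / 2 ∈ Ioc l y := by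
      have h6 : max l 0 < y := max_lt hl hy0
      have h7 := le_max_left l 0
      constructor <;> linarith
    have h6 : 0 < (max l 0 + y) / 2 := by
      have h7 := le_max_right l 0
      linarith
    have h7 : (max l 0 + y) / 2 < y := by
      have h8 : max l 0 < y := max_lt hl hy0
      linarith
    refine hmin _ h6.le h7 ((hMQ _ ?_).1 (interior_subset (hl2 h5)))
    show -((max l 0 + y) / 2) < 0
    linarith
  -- the first point on the axis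
  obtain ⟨y₀, hy00, hy02, hy0Q, hy0m⟩ := jca_first hQcl 0 2 (by norm_num) ((hQm _).2 h2)
  obtain ⟨hy0, hp⟩ := hfst 0 y₀ hy0Q hy0m
  have hpK : Φ (jca_P 0 y₀) ∈ Kᶜ := fun h => absurd ((hK _).1 h) (not_le.2 (hQim _ hy0Q))
  obtain ⟨ψ, hψ, hψ0, hψr, hψM⟩ := b3 _ hp (range Φ ∩ Kᶜ)
    ((hΦ.isOpen_range.inter hKcl.isOpen_compl).mem_nhds ⟨mem_range_self _, hpK⟩)
  have hψf := (b1 ψ hψ hψM).1
  -- the chart in the plane
  have hκ : ∀ w : ℂ, ∃ z : ℂ, Φ z = ψ w := fun w => (hψr (mem_range_self w)).1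
  choose κ hκ using hκ
  have hκc : Continuous κ := by
    rw [hΦ.toIsEmbedding.continuous_iff]
    have : Φ ∘ κ = ψ := funext hκ
    rw [this]
    exact hψ.continuous
  have hκi : Function.Injective κ := by
    intro w w' h
    apply hψ.injective
    rw [← hκ, ← hκ, h]
  have hκQ : ∀ t : ℝ, κ (t : ℂ) ∈ Q := by
    intro t
    have h3 : ψ (t : ℂ) ∈ frontier (K ∪ R) := (hψf _).2 (Complex.ofReal_im t)
    have h5 : ψ (t : ℂ) ∉ K := (hψr (mem_range_self _)).2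
    rw [hQm, hκ]
    exact (((hfrM _).1 h3).1).resolve_left h5
  -- a box in the chart
  have hO : IsOpen (Φ ⁻¹' range ψ) := hψ.isOpen_range.preimage hΦ.continuous
  have hO0 : jca_P 0 y₀ ∈ Φ ⁻¹' range ψ := ⟨0, hψ0⟩
  obtain ⟨ε, hε, hball⟩ := Metric.isOpen_iff.1 hO _ hO0
  have hbox : ∀ s y : ℝ, |s| < ε / 2 → |y - y₀| < ε / 2 → jca_P s y ∈ Φ ⁻¹' range ψ := by
    intro s y hs hy
    apply hball
    rw [mem_ball, dist_eq_norm]
    have h3 := Complex.norm_le_abs_re_add_abs_im (jca_P s y - jca_P 0 y₀)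
    have h5 : (jca_P s y - jca_P 0 y₀).re = s := by simp [jca_P]
    have h6 : (jca_P s y - jca_P 0 y₀).im = -(y - y₀) := by
      show -y - -y₀ = -(y - y₀)
      ring
    rw [h5, h6, abs_neg] at h3
    linarith
  obtain ⟨δ, hδ, hδy, hδe⟩ : ∃ δ : ℝ, 0 < δ ∧ δ < y₀ ∧ δ ≤ ε / 2 := by
    refine ⟨min (y₀ / 2) (ε / 2), lt_min (by linarith) (by linarith), ?_, min_le_right _ _⟩
    exact lt_of_le_of_lt (min_le_left _ _) (by linarith)
  -- a tube
  obtain ⟨δ₁, hδ1, hδ1e, htube⟩ : ∃ δ₁ : ℝ, 0 < δ₁ ∧ δ₁ ≤ ε / 2 ∧ ∀ s y : ℝ, |s| < δ₁ → 0 ≤ y →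
      y ≤ y₀ - δ → jca_P s y ∉ Q := by
    have hW : IsOpen {p : ℝ × ℝ | jca_P p.1 p.2 ∈ Qᶜ} := hQcl.isOpen_compl.preimage jca_P_cont2
    have hsub : ({(0 : ℝ)} : Set ℝ) ×ˢ Icc 0 (y₀ - δ) ⊆ {p : ℝ × ℝ | jca_P p.1 p.2 ∈ Qᶜ} := by
      rintro ⟨s, y⟩ ⟨hs, hy⟩
      have hs' : s = 0 := hs
      rw [hs']
      exact hy0m y hy.1 (by linarith [hy.2])
    obtain ⟨u, v, hu, hv, hu0, hv0, huv⟩ := generalized_tube_lemma isCompact_singleton
      isCompact_Icc hW hsub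
    obtain ⟨r, hr, hru⟩ := Metric.isOpen_iff.1 hu 0 (hu0 rfl)
    refine ⟨min r (ε / 2), lt_min hr (by linarith), min_le_right _ _, fun s y hs h0 h1 => ?_⟩
    have h5 : s ∈ u := hru (by
      rw [mem_ball, Real.dist_eq, sub_zero]
      exact hs.trans_le (min_le_left _ _))
    exact huv (mk_mem_prod h5 (hv0 ⟨h0, h1⟩))
  -- two points
  obtain ⟨s₁, s₂, c₁, c₂, hs12, hs1, hs2, hc1, hc2, hQ1, hQ2⟩ : ∃ s₁ s₂ c₁ c₂ : ℝ, s₁ < s₂ ∧
      |s₁| < δ₁ ∧ |s₂| < δ₁ ∧ |c₁ - y₀| < δ ∧ |c₂ - y₀| < δ ∧ jca_P s₁ c₁ ∈ Q ∧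
      jca_P s₂ c₂ ∈ Q := by
    have hG : IsOpen {z : ℂ | |z.re| < δ₁ ∧ |-z.im - y₀| < δ} := by
      refine IsOpen.inter ?_ ?_
      · exact isOpen_lt (Complex.continuous_re.abs) continuous_const
      · exact isOpen_lt ((Complex.continuous_im.neg.sub continuous_const).abs) continuous_const
    have hG0 : jca_P 0 y₀ ∈ {z : ℂ | |z.re| < δ₁ ∧ |-z.im - y₀| < δ} := by
      constructor
      · show |(0 : ℝ)| < δ₁
        rw [abs_zero]
        exact hδ1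
      · show |- -y₀ - y₀| < δ
        rw [neg_neg, sub_self, abs_zero]
        exact hδ
    have hpM : Φ (jca_P 0 y₀) ∈ closure (interior (K ∪ R)) := by
      rw [b2]
      exact ((hfrM _).1 hp).1
    obtain ⟨x, ⟨w₀, hw0, rfl⟩, hx⟩ := mem_closure_iff_nhds.1 hpM _
      ((hΦ.isOpenMap _ hG).mem_nhds ⟨_, hG0, rfl⟩)
    have hW : IsOpen ({z : ℂ | |z.re| < δ₁ ∧ |-z.im - y₀| < δ} ∩ Φ ⁻¹' interior (K ∪ R)) :=
      hG.inter (isOpen_interior.preimage hΦ.continuous)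
    obtain ⟨r, hr, hrW⟩ := Metric.isOpen_iff.1 hW w₀ ⟨hw0, hx⟩
    have hw1 : w₀ + ((r / 2 : ℝ) : ℂ) ∈
        {z : ℂ | |z.re| < δ₁ ∧ |-z.im - y₀| < δ} ∩ Φ ⁻¹' interior (K ∪ R) := by
      apply hrW
      rw [mem_ball, dist_eq_norm, add_sub_cancel_left, Complex.norm_real, Real.norm_eq_abs,
        abs_of_pos (by linarith)]
      linarith
    have key : ∀ w : ℂ, w ∈ {z : ℂ | |z.re| < δ₁ ∧ |-z.im - y₀| < δ} ∩ Φ ⁻¹' interior (K ∪ R) →
        jca_P w.re (-w.im) ∈ Q := by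
      intro w hw
      have h3 : jca_P w.re (-w.im) = w := by
        apply Complex.ext
        · rfl
        · show - -w.im = w.im
          rw [neg_neg]
      rw [h3]
      refine (hMQ w ?_).1 (interior_subset hw.2)
      have h5 := (abs_lt.1 hw.1.2).1
      linarith
    refine ⟨w₀.re, (w₀ + ((r / 2 : ℝ) : ℂ)).re, -w₀.im, -(w₀ + ((r / 2 : ℝ) : ℂ)).im, ?_,
      hw0.1, hw1.1.1, hw0.2, hw1.1.2, key _ ⟨hw0, hx⟩, key _ hw1⟩
    rw [Complex.add_re, Complex.ofReal_re]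
    linarith
  -- the first points on the two verticals
  have hvert : ∀ s c : ℝ, |s| < δ₁ → |c - y₀| < δ → jca_P s c ∈ Q → ∃ y t : ℝ, 0 < y ∧
      (∀ y', 0 ≤ y' → y' < y → jca_P s y' ∉ Q) ∧ jca_P s y ∈ Q ∧ κ (t : ℂ) = jca_P s y := by
    intro s c hs hc hQ1
    have hc' := abs_lt.1 hc
    obtain ⟨y, hy0, hyc, hyQ, hym⟩ := jca_first hQcl s c (by linarith) hQ1
    obtain ⟨hyp, hyf⟩ := hfst s y hyQ hym
    have hlow : y₀ - δ < y := by
      by_contra h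
      exact htube s y hs hy0 (not_lt.1 h) hyQ
    obtain ⟨w, hw⟩ : Φ (jca_P s y) ∈ range ψ := by
      refine hbox s y (hs.trans_le hδ1e) ?_
      rw [abs_lt]
      constructor <;> linarith
    have hwim : w.im = 0 := by
      rw [← hψf, hw]
      exact hyf
    refine ⟨y, w.re, hyp, hym, hyQ, ?_⟩
    have h3 : ((w.re : ℝ) : ℂ) = w := by
      apply Complex.ext
      · exact Complex.ofReal_re _
      · rw [Complex.ofReal_im, hwim]
    rw [h3]
    apply hΦ.injective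
    rw [hκ, hw]
  obtain ⟨y₁, t₁, hy1, hm1, hq1, hk1⟩ := hvert s₁ c₁ hs1 hc1 hQ1
  obtain ⟨y₂, t₂, hy2, hm2, hq2, hk2⟩ := hvert s₂ c₂ hs2 hc2 hQ2
  have ht12 : t₁ ≠ t₂ := by
    intro h
    rw [h, hk2] at hk1
    have h3 : s₂ = s₁ := congrArg Complex.re hk1
    linarith
  -- the closed curve
  obtain ⟨P, hP⟩ : ∃ P : ℕ → ℝ → ℂ, P = fun i u => if i = 0 ∨ i = 4 then jca_P (s₁ + (s₂ - s₁) * u) 0
      else if i = 1 then jca_P s₂ (y₂ * u)
      else if i = 2 then κ ((t₂ + (t₁ - t₂) * u : ℝ) : ℂ) else jca_P s₁ (y₁ * (1 - u)) := ⟨_, rfl⟩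
  have hP0 : ∀ u, P 0 u = jca_P (s₁ + (s₂ - s₁) * u) 0 := fun u => by rw [hP]; simp
  have hP4 : ∀ u, P 4 u = jca_P (s₁ + (s₂ - s₁) * u) 0 := fun u => by rw [hP]; simp
  have hP1 : ∀ u, P 1 u = jca_P s₂ (y₂ * u) := fun u => by rw [hP]; simp
  have hP2 : ∀ u, P 2 u = κ ((t₂ + (t₁ - t₂) * u : ℝ) : ℂ) := fun u => by rw [hP]; simp
  have hP3 : ∀ u, P 3 u = jca_P s₁ (y₁ * (1 - u)) := fun u => by rw [hP]; simp
  have hPc : ∀ i, Continuous (P i) := by
    intro i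
    rw [hP]
    show Continuous fun u => if i = 0 ∨ i = 4 then jca_P (s₁ + (s₂ - s₁) * u) 0
      else if i = 1 then jca_P s₂ (y₂ * u)
      else if i = 2 then κ ((t₂ + (t₁ - t₂) * u : ℝ) : ℂ) else jca_P s₁ (y₁ * (1 - u))
    split_ifs
    · exact jca_P_cont2.comp (Continuous.prodMk (by fun_prop) continuous_const)
    · exact (jca_P_cont s₂).comp (by fun_prop)
    · exact hκc.comp (Complex.continuous_ofReal.comp (by fun_prop))
    · exact (jca_P_cont s₁).comp (by fun_prop)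
  have hPm : ∀ i < 4, P i 1 = P (i + 1) 0 := by
    intro i hi
    interval_cases i
    · rw [hP0, hP1]
      congr 1 <;> ring
    · rw [hP1, hP2, mul_one, mul_zero, add_zero, hk2]
    · rw [hP2, hP3]
      have h3 : t₂ + (t₁ - t₂) * 1 = t₁ := by ring
      rw [h3, hk1]
      congr 1
      ring
    · rw [hP3, hP4]
      congr 1 <;> ring
  have hre : ∀ s y : ℝ, (jca_P s y).re = s := fun s y => rfl
  have him : ∀ s y : ℝ, (jca_P s y).im = -y := fun s y => rfl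
  have hPi : ∀ i < 4, InjOn (P i) (Ico 0 1) := by
    intro i hi u hu v hv h
    interval_cases i
    · rw [hP0, hP0] at h
      have h3 := congrArg Complex.re h
      rw [hre, hre] at h3
      have h5 : (s₂ - s₁) * u = (s₂ - s₁) * v := by linarith
      exact mul_left_cancel₀ (by linarith [hs12] : s₂ - s₁ ≠ 0) h5
    · rw [hP1, hP1] at h
      have h3 := congrArg Complex.im h
      rw [him, him] at h3
      exact mul_left_cancel₀ hy2.ne' (by linarith)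
    · rw [hP2, hP2] at h
      have h3 := Complex.ofReal_injective (hκi h)
      have h5 : (t₁ - t₂) * u = (t₁ - t₂) * v := by linarith
      exact mul_left_cancel₀ (sub_ne_zero.2 ht12) h5
    · rw [hP3, hP3] at h
      have h3 := congrArg Complex.im h
      rw [him, him] at h3
      have h5 : y₁ * u = y₁ * v := by linarith
      exact mul_left_cancel₀ hy1.ne' h5
  have d01 : ∀ u ∈ Ico (0 : ℝ) 1, ∀ v ∈ Ico (0 : ℝ) 1, P 0 u ≠ P 1 v := by
    intro u hu v hv h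
    rw [hP0, hP1] at h
    have h3 := congrArg Complex.re h
    rw [hre, hre] at h3
    nlinarith [hu.2]
  have d02 : ∀ u ∈ Ico (0 : ℝ) 1, ∀ v ∈ Ico (0 : ℝ) 1, P 0 u ≠ P 2 v := by
    intro u hu v hv h
    rw [hP0, hP2] at h
    have h3 := hQim _ (hκQ (t₂ + (t₁ - t₂) * v))
    rw [← h, him] at h3
    linarith
  have d03 : ∀ u ∈ Ico (0 : ℝ) 1, ∀ v ∈ Ico (0 : ℝ) 1, P 0 u ≠ P 3 v := by
    intro u hu v hv h
    rw [hP0, hP3] at h
    have h3 := congrArg Complex.im h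
    rw [him, him] at h3
    have h5 : 0 < y₁ * (1 - v) := mul_pos hy1 (by linarith [hv.2])
    linarith
  have d12 : ∀ u ∈ Ico (0 : ℝ) 1, ∀ v ∈ Ico (0 : ℝ) 1, P 1 u ≠ P 2 v := by
    intro u hu v hv h
    rw [hP1, hP2] at h
    have h3 := hκQ (t₂ + (t₁ - t₂) * v)
    rw [← h] at h3
    exact hm2 _ (mul_nonneg hy2.le hu.1) (by nlinarith [hu.2]) h3
  have d13 : ∀ u ∈ Ico (0 : ℝ) 1, ∀ v ∈ Ico (0 : ℝ) 1, P 1 u ≠ P 3 v := by
    intro u hu v hv h
    rw [hP1, hP3] at h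
    have h3 := congrArg Complex.re h
    rw [hre, hre] at h3
    linarith
  have d23 : ∀ u ∈ Ico (0 : ℝ) 1, ∀ v ∈ Ico (0 : ℝ) 1, P 2 u ≠ P 3 v := by
    intro u hu v hv h
    rw [hP2, hP3] at h
    have h3 := hκQ (t₂ + (t₁ - t₂) * u)
    rw [h] at h3
    have h5 : v = 0 := by
      by_contra hv0
      have hv1 : 0 < v := lt_of_le_of_ne hv.1 (Ne.symm hv0)
      exact hm1 _ (mul_nonneg hy1.le (by linarith [hv.2])) (by nlinarith) h3
    rw [h5, sub_zero, mul_one, ← hk1] at h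
    have h6 := Complex.ofReal_injective (hκi h)
    have h7 : (t₁ - t₂) * (u - 1) = 0 := by linarith
    rcases mul_eq_zero.1 h7 with h8 | h8
    · exact ht12 (by linarith)
    · linarith [hu.2]
  have hPd : ∀ i < 4, ∀ j < 4, i ≠ j → ∀ u ∈ Ico (0 : ℝ) 1, ∀ v ∈ Ico (0 : ℝ) 1,
      P i u ≠ P j v := by
    intro i hi j hj hij u hu v hv
    interval_cases i <;> interval_cases j
    · exact absurd rfl hij
    · exact d01 u hu v hv
    · exact d02 u hu v hv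
    · exact d03 u hu v hv
    · exact (d01 v hv u hu).symm
    · exact absurd rfl hij
    · exact d12 u hu v hv
    · exact d13 u hu v hv
    · exact (d02 v hv u hu).symm
    · exact (d12 v hv u hu).symm
    · exact absurd rfl hij
    · exact d23 u hu v hv
    · exact (d03 v hv u hu).symm
    · exact (d13 v hv u hu).symm
    · exact (d23 v hv u hu).symm
    · exact absurd rfl hij
  obtain ⟨γ, hγJ, hγi, hγu⟩ := jca_loop P hPc hPm (by rw [hP4, hP0]) hPi hPd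
  obtain ⟨g, hg⟩ := hSCH γ hγJ
  have hA : γ '' carc 0 (Real.pi / 2) = P 0 '' Icc 0 1 := by
    have := hγi 0 (by norm_num)
    norm_num at this
    exact this
  have hC : γ '' carc Real.pi (3 * Real.pi / 2) = P 2 '' Icc 0 1 := by
    have := hγi 2 (by norm_num)
    have h3 : ((2 : ℕ) : ℝ) * (Real.pi / 2) = Real.pi := by push_cast; ring
    have h5 : (((2 : ℕ) : ℝ) + 1) * (Real.pi / 2) = 3 * Real.pi / 2 := by push_cast; ring
    rw [h3, h5] at this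
    exact this
  obtain ⟨e, he⟩ : ∃ e : ℂ → X, e = fun z => Φ (g z) := ⟨_, rfl⟩
  have hemb : IsOpenEmbedding e := by
    rw [he]
    exact hΦ.comp g.isOpenEmbedding
  have heγ : ∀ A ⊆ UC, e '' A = Φ '' (γ '' A) := by
    intro A hA
    rw [he, image_image]
    exact image_congr fun z hz => by rw [hg z (hA hz)]
  have hA' : e '' carc 0 (Real.pi / 2) = Φ '' (P 0 '' Icc 0 1) := by
    rw [heγ _ (arc0_sub _ _), hA]
  have hC' : e '' carc Real.pi (3 * Real.pi / 2) = Φ '' (P 2 '' Icc 0 1) := by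
    rw [heγ _ (arc0_sub _ _), hC]
  have hAf : Φ '' (P 0 '' Icc 0 1) ⊆ frontier (K ∪ R) := by
    rintro _ ⟨_, ⟨u, hu, rfl⟩, rfl⟩
    apply hax
    rw [hP0, him, neg_zero]
  have hCf : Φ '' (P 2 '' Icc 0 1) ⊆ frontier (K ∪ R) \ K := by
    rintro _ ⟨_, ⟨u, hu, rfl⟩, rfl⟩
    rw [hP2, hκ]
    exact ⟨(hψf _).2 (Complex.ofReal_im _), (hψr (mem_range_self _)).2⟩
  have hWf : Φ '' (P 0 '' Icc 0 1) ∪ Φ '' (P 2 '' Icc 0 1) ⊆ frontier (K ∪ R) :=
    union_subset hAf (hCf.trans sdiff_subset)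
  -- the rest of `M`
  have hT : IsConnected ((K ∪ R) \ (Φ '' (P 0 '' Icc 0 1) ∪ Φ '' (P 2 '' Icc 0 1))) := by
    refine b4 hMc _ ?_ sdiff_subset
    intro p hp
    exact ⟨interior_subset hp, fun h => ((hfrM p).1 (hWf h)).2 hp⟩
  have hop : IsOpen (e '' OD) := hemb.isOpenMap _ isOpen_ball
  have hcp : IsClosed (e '' CD) := ((isCompact_closedBall 0 1).image hemb.continuous).isClosed
  have hUM : ∀ z ∈ UC, e z ∈ K ∪ R →
      e z ∈ Φ '' (P 0 '' Icc 0 1) ∪ Φ '' (P 2 '' Icc 0 1) := by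
    intro z hz hzM
    have h3 : e z = Φ (γ z) := by
      rw [he]
      show Φ (g z) = Φ (γ z)
      rw [hg z hz]
    obtain ⟨i, hi, u, hu, hγz⟩ := hγu z hz
    have hu' : u ∈ Icc (0 : ℝ) 1 := ⟨hu.1, hu.2.le⟩
    rw [h3, hγz] at hzM ⊢
    interval_cases i
    · exact Or.inl ⟨_, ⟨u, hu', rfl⟩, rfl⟩
    · rcases hu.1.eq_or_lt with h5 | h5
      · left
        refine ⟨_, ⟨1, ⟨zero_le_one, le_rfl⟩, rfl⟩, ?_⟩
        rw [← h5, hPm 0 (by norm_num)]
      · exfalso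
        rw [hP1] at hzM
        have h6 : 0 < y₂ * u := mul_pos hy2 h5
        refine hm2 _ h6.le (by nlinarith [hu.2]) ((hMQ _ ?_).1 hzM)
        rw [him]
        linarith
    · exact Or.inr ⟨_, ⟨u, hu', rfl⟩, rfl⟩
    · rcases hu.1.eq_or_lt with h5 | h5
      · right
        refine ⟨_, ⟨1, ⟨zero_le_one, le_rfl⟩, rfl⟩, ?_⟩
        rw [← h5, hPm 2 (by norm_num)]
      · exfalso
        rw [hP3] at hzM
        have h6 : 0 < y₁ * (1 - u) := mul_pos hy1 (by linarith [hu.2])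
        refine hm1 _ h6.le (by nlinarith [hu.2]) ((hMQ _ ?_).1 hzM)
        rw [him]
        linarith
  have hCDs : ∀ z ∈ CD, z ∈ OD ∨ z ∈ UC := by
    intro z hz
    rw [mem_closedBall_zero_iff] at hz
    rcases hz.lt_or_eq with h1 | h1
    · exact Or.inl (mem_ball_zero_iff.2 h1)
    · exact Or.inr (mem_sphere_zero_iff_norm.2 h1)
  have hcov : (K ∪ R) \ (Φ '' (P 0 '' Icc 0 1) ∪ Φ '' (P 2 '' Icc 0 1)) ⊆
      e '' OD ∪ (e '' CD)ᶜ := by
    rintro x ⟨hx1, hx2⟩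
    by_cases h : x ∈ e '' CD
    · obtain ⟨z, hz, rfl⟩ := h
      rcases hCDs z hz with h1 | h1
      · exact Or.inl ⟨z, h1, rfl⟩
      · exact absurd (hUM z h1 hx1) hx2
    · exact Or.inr h
  have hdis : Disjoint (e '' OD) (e '' CD)ᶜ :=
    disjoint_compl_right_iff_subset.2 (image_mono ball_subset_closedBall)
  have hmeet : e '' CD ∩ (K ∪ R) = Φ '' (P 0 '' Icc 0 1) ∪ Φ '' (P 2 '' Icc 0 1) := by
    rcases hT.isPreconnected.subset_or_subset hop hcp.isOpen_compl hdis hcov with h | h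
    · exfalso
      have h3 : interior (K ∪ R) ⊆ e '' CD := by
        intro p hp
        exact image_mono ball_subset_closedBall
          (h ⟨interior_subset hp, fun h' => ((hfrM p).1 (hWf h')).2 hp⟩)
      have h5 : K ∪ R ⊆ e '' CD := by
        rw [← b2]
        exact closure_minimal h3 hcp
      have h6 : {z : ℂ | 0 ≤ z.im} ⊆ g '' CD := by
        intro z hz
        obtain ⟨w, hw, hwz⟩ := h5 (Or.inl ((hK z).2 hz))
        rw [he] at hwz
        exact ⟨w, hw, hΦ.injective hwz⟩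
      have h7 : Bornology.IsBounded (g '' CD) :=
        ((isCompact_closedBall 0 1).image g.continuous).isBounded
      obtain ⟨C, hC⟩ := (h7.subset h6).exists_norm_le
      have h8 := hC ((C + 1 : ℝ) : ℂ) (by
        show 0 ≤ ((C + 1 : ℝ) : ℂ).im
        rw [Complex.ofReal_im])
      rw [Complex.norm_real, Real.norm_eq_abs] at h8
      have h9 := le_abs_self (C + 1)
      linarith
    · apply Subset.antisymm
      · rintro x ⟨hx1, hx2⟩
        by_contra h3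
        exact h ⟨hx2, h3⟩ hx1
      · rintro x (hx | hx)
        · refine ⟨?_, ((hfrM x).1 (hAf hx)).1⟩
          rw [← hA'] at hx
          exact image_mono ((arc0_sub _ _).trans sphere_subset_closedBall) hx
        · refine ⟨?_, ((hfrM x).1 (hCf hx).1).1⟩
          rw [← hC'] at hx
          exact image_mono ((arc0_sub _ _).trans sphere_subset_closedBall) hx
  have hpi := Real.pi_pos
  refine ⟨e, ⟨⟨hemb.continuous.continuousOn, hemb.injective.injOn, e, hemb, image_subset_range _ _⟩,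
    ?_, ?_⟩, ?_, ?_⟩
  · exact AttSet.two 0 (Real.pi / 2) Real.pi (3 * Real.pi / 2) (by linarith) (by linarith)
      (by linarith) (by linarith)
  · rw [hmeet, image_union, hA', hC']
  · rw [hA']
    rintro _ ⟨_, ⟨u, hu, rfl⟩, rfl⟩
    refine ⟨_, ?_, rfl⟩
    show (P 0 u).im = 0
    rw [hP0, him, neg_zero]
  · rw [hC']
    exact hCf

/-- **JCA.** -/
theorem thm_JCA (hSCH : St_SCH) (hBFR : St_BFR) (hATB : St_ATB) (hRECT : St_RECT)
    (hMOVX : St_MOVX) (hADJ : St_ADJ) : St_JCA := by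
  intro X _ hX K x γ₁ γ₂ hK hKc hx hγ₁ hγ₂ hU₁ hU₂ hdis hV₁ hV₂
  have := hX.t2
  have hpi := Real.pi_pos
  have hKcl : IsClosed K := hK.1.isClosed
  obtain ⟨b1, b2, b3, b4, -⟩ := hBFR X hX K hK
  obtain ⟨a1, a2, a3, -⟩ := hADJ X hX K hK x hx
  set U := connectedComponentIn Kᶜ x with hUdef
  have hUK : U ⊆ Kᶜ := connectedComponentIn_subset _ _
  have hfrK : ∀ p ∈ frontier K, p ∈ K := fun p hp => hKcl.frontier_subset hp
  -- half plane charts at the two circles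
  have hch : ∀ γ : ℂ → X, γ '' UC ⊆ frontier U → (∃ V, IsOpen V ∧ V ∩ frontier K = γ '' UC) →
      ∃ φ : ℂ → X, IsOpenEmbedding φ ∧ (∀ z, φ z ∈ K ↔ 0 ≤ z.im) ∧
        (∀ z : ℂ, z.im = 0 → φ z ∈ γ '' UC) ∧ ∀ z : ℂ, z.im < 0 → φ z ∈ U := by
    rintro γ hγU ⟨V, hVo, hV⟩
    have h1 : γ 1 ∈ γ '' UC := ⟨1, by simp, rfl⟩
    have h2 : γ 1 ∈ frontier K := a2 (hγU h1)
    have h3 : γ 1 ∈ V := by
      rw [← hV] at h1
      exact h1.1
    obtain ⟨φ, hφ, hφ0, hφr, hφK⟩ := b3 _ h2 V (hVo.mem_nhds h3)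
    refine ⟨φ, hφ, hφK, fun z hz => ?_, fun z hz => ?_⟩
    · rw [← hV]
      exact ⟨hφr (mem_range_self z), ((b1 φ hφ hφK).1 z).2 hz⟩
    · refine a3 φ hφ hφK ?_ ⟨z, hz, rfl⟩
      rw [hφ0]
      exact frontier_subset_closure (hγU h1)
  obtain ⟨φ₁, hφ₁, hφ₁K, hφ₁r, hφ₁U⟩ := hch γ₁ hU₁ hV₁
  obtain ⟨φ₂, hφ₂, hφ₂K, hφ₂r, hφ₂U⟩ := hch γ₂ hU₂ hV₂
  -- move a point
  have hq₁ : φ₁ (jca_P 0 2) ∈ U := hφ₁U _ (by show -(2 : ℝ) < 0; norm_num)
  have hq₂ : φ₂ (jca_P 0 1) ∈ U := hφ₂U _ (by show -(1 : ℝ) < 0; norm_num)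
  obtain ⟨χ, C, hC, hCU, hχ, hχq⟩ := hMOVX X hX U a1 isPreconnected_connectedComponentIn _ hq₁ _ hq₂
  have hχK : ∀ p ∈ K, χ p = p := fun p hp => hχ p fun h => hUK (hCU h) hp
  obtain ⟨Φ, hΦdef⟩ : ∃ Φ : ℂ → X, Φ = fun z => χ (φ₁ z) := ⟨_, rfl⟩
  have hΦ : IsOpenEmbedding Φ := by
    rw [hΦdef]
    exact χ.isOpenEmbedding.comp hφ₁
  have hΦz : ∀ z, Φ z = χ (φ₁ z) := fun z => by rw [hΦdef]
  have hΦK : ∀ z, Φ z ∈ K ↔ 0 ≤ z.im := by
    intro z
    rw [← hφ₁K, hΦz]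
    constructor
    · intro h
      have h1 := hχK _ h
      have h2 := χ.injective h1
      rwa [h2] at h
    · intro h
      rw [hχK _ h]
      exact h
  have hΦ1 : ∀ z : ℂ, 0 ≤ z.im → Φ z = φ₁ z := fun z hz => by
    rw [hΦz, hχK _ ((hφ₁K z).2 hz)]
  have hΦr : ∀ z : ℂ, z.im = 0 → Φ z ∈ γ₁ '' UC := fun z hz => by
    rw [hΦ1 z hz.ge]
    exact hφ₁r z hz
  -- the rectangle
  obtain ⟨e₀, he₀c, he₀i, he₀, -, he₀t, -, -⟩ := hRECT (-1) 1 (-2) 0 (by norm_num) (by norm_num)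
  obtain ⟨e₁, he₁def⟩ : ∃ e₁ : ℂ → X, e₁ = fun z => φ₂ (e₀ z) := ⟨_, rfl⟩
  have himg : ∀ A : Set ℂ, e₁ '' A = φ₂ '' (e₀ '' A) := by
    intro A
    rw [he₁def, image_image]
  have hR : e₁ '' CD = φ₂ '' Rect (-1) 1 (-2) 0 := by rw [himg, he₀]
  have hRt : e₁ '' carc (Real.pi / 4) (3 * Real.pi / 4) = φ₂ '' Rect (-1) 1 0 0 := by
    rw [himg, he₀t]
  have he₁c : ContinuousOn e₁ CD := by
    rw [he₁def]
    exact hφ₂.continuous.comp_continuousOn he₀c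
  have htop : φ₂ '' Rect (-1) 1 0 0 ⊆ γ₂ '' UC := by
    rintro _ ⟨z, hz, rfl⟩
    exact hφ₂r z (le_antisymm hz.2.2 hz.2.1)
  have hRK : e₁ '' CD ∩ K = φ₂ '' Rect (-1) 1 0 0 := by
    rw [hR]
    apply Subset.antisymm
    · rintro _ ⟨⟨z, hz, rfl⟩, hzK⟩
      exact ⟨z, ⟨hz.1, (hφ₂K z).1 hzK, hz.2.2⟩, rfl⟩
    · rintro _ ⟨z, hz, rfl⟩
      exact ⟨⟨z, ⟨hz.1, by linarith [hz.2.1], hz.2.2⟩, rfl⟩, (hφ₂K z).2 hz.2.1⟩
  have hAtt : Att K e₁ (carc (Real.pi / 4) (3 * Real.pi / 4))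
      (oarc (Real.pi / 4) (3 * Real.pi / 4)) := by
    refine ⟨⟨he₁c, ?_, φ₂, hφ₂, ?_⟩, AttSet.one _ _ (by linarith) (by linarith), ?_⟩
    · intro z hz w hw h
      rw [he₁def] at h
      exact he₀i hz hw (hφ₂.injective h)
    · rw [himg]
      exact image_subset_range _ _
    · rw [hRK, hRt]
  obtain ⟨hM, hMf⟩ := hATB X hX K e₁ _ _ hK hAtt
  have hRcp : IsCompact (e₁ '' CD) := (isCompact_closedBall 0 1).image_of_continuousOn he₁c
  have hRco : IsConnected (e₁ '' CD) := by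
    refine IsConnected.image ?_ _ he₁c
    exact ⟨⟨0, by simp⟩, (convex_closedBall 0 1).isPreconnected⟩
  have hRKne : (K ∩ e₁ '' CD).Nonempty := by
    rw [inter_comm, hRK]
    exact ⟨φ₂ 0, 0, ⟨⟨by norm_num, by norm_num⟩, le_rfl, le_rfl⟩, rfl⟩
  have hMc : IsConnected (K ∪ e₁ '' CD) := hKc.union hRKne hRco
  have hsubO : e₁ '' oarc (Real.pi / 4) (3 * Real.pi / 4) ⊆ γ₂ '' UC := by
    refine subset_trans ?_ (hRt.trans_subset htop)
    exact image_mono (image_mono Ioo_subset_Icc_self)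
  have g1 : ∀ z : ℂ, 0 ≤ z.im → Φ z ∉ e₁ '' CD := by
    intro z hz h
    have h1 : Φ z ∈ e₁ '' CD ∩ K := ⟨h, (hΦK z).2 hz⟩
    rw [hRK] at h1
    have h2 : Φ z ∈ γ₂ '' UC := htop h1
    have h3 : Φ z ∈ frontier K := a2 (hU₂ h2)
    have h4 : z.im = 0 := ((b1 Φ hΦ hΦK).1 z).1 h3
    exact disjoint_left.1 hdis (hΦr z h4) h2
  have g2 : ∀ z : ℂ, z.im = 0 → Φ z ∈ frontier (K ∪ e₁ '' CD) := by
    intro z hz
    rw [hMf]
    have h1 := hΦr z hz
    exact ⟨Or.inl (a2 (hU₁ h1)), fun h => disjoint_left.1 hdis h1 (hsubO h)⟩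
  have g3 : Φ (jca_P 0 2) ∈ e₁ '' CD := by
    rw [hΦz, hχq, hR]
    refine ⟨_, ⟨⟨?_, ?_⟩, ?_, ?_⟩, rfl⟩
    · show (-1 : ℝ) ≤ 0
      norm_num
    · show (0 : ℝ) ≤ 1
      norm_num
    · show (-2 : ℝ) ≤ -1
      norm_num
    · show -(1 : ℝ) ≤ 0
      norm_num
  obtain ⟨e₂, hA2, hA2a, hA2b⟩ := jca_band hSCH hBFR hX (K := K) (R := e₁ '' CD) hKcl
    hRcp.isClosed hM hMc hΦ hΦK g1 g2 g3
  refine ⟨e₁, e₂, Real.pi / 4, 3 * Real.pi / 4, 0, Real.pi / 2, Real.pi, 3 * Real.pi / 2,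
    by linarith, by linarith, by linarith, by linarith, by linarith, by linarith, hAtt,
    hRt.trans_subset htop, hA2, ?_, ?_⟩
  · refine hA2a.trans ?_
    rintro _ ⟨z, hz, rfl⟩
    exact hΦr z hz
  · intro p hp
    obtain ⟨h1, h2⟩ := hA2b hp
    rw [hMf] at h1
    refine ⟨Or.inr ?_, h1.2⟩
    rcases h1.1 with h3 | h3
    · exact absurd (hfrK p h3) h2
    · exact h3

end Pool.Agent.SRF
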