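import Pool.Agent.SRF.StC

set_option autoImplicit false

/-! # SRF, module JOINC: joining two boundary circles of one component of the complement -/

open Set Metric Filter Topology

namespace Pool.Agent.SRF

theorem joinc_carc (a b : ℝ) : carc a b ⊆ UC := by
  rintro _ ⟨t, -, rfl⟩
  simp [cexpi, Complex.norm_exp_ofReal_mul_I]

theorem joinc_oc (a b : ℝ) : oarc a b ⊆ carc a b := image_mono Ioo_subset_Icc_self

theorem joinc_closed {X : Type} [TopologicalSpace X] [T2Space X] {γ : ℂ → X} (h : IsJordan γ) :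
    IsClosed (γ '' UC) :=
  ((isCompact_sphere (0 : ℂ) 1).image_of_continuousOn h.1).isClosed

theorem joinc_nc {X : Type} [TopologicalSpace X] {ι : Type} [Fintype ι] (γ : ι → ℂ → X)
    (h : ∀ k, IsJordan (γ k)) (hd : ∀ k l, k ≠ l → Disjoint (γ k '' UC) (γ l '' UC)) :
    NC (⋃ k, γ k '' UC) (Fintype.card ι) := by
  let e := Fintype.equivFin ι
  refine ⟨fun k => γ (e.symm k), fun k => h _, fun k l hkl => hd _ _ fun h => hkl
    (e.symm.injective h), ?_⟩
  exact (e.symm.surjective.iUnion_comp (fun k => γ k '' UC)).symm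

theorem thm_JOINC (hATB : St_ATB) (_hBB : St_BB) (hJCA : St_JCA) (hCNT : St_CNT) : St_JOINC := by
  classical
  intro X _ hX K x hB hc hx n γ hγ hdis hfr i j hij hi hj
  have := hX.t2
  have hKc : IsClosed K := hB.1.isClosed
  have hmemK : ∀ k, γ k '' UC ⊆ frontier K := by
    intro k
    rw [hfr]
    exact subset_iUnion (fun k => γ k '' UC) k
  have hV : ∀ k, ∃ V, IsOpen V ∧ V ∩ frontier K = γ k '' UC := by
    intro k
    refine ⟨(⋃ l : {l : Fin n // l ≠ k}, γ l.1 '' UC)ᶜ, ?_, ?_⟩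
    · exact (isClosed_iUnion_of_finite fun l => joinc_closed (hγ _)).isOpen_compl
    · ext z
      constructor
      · rintro ⟨h1, h2⟩
        rw [hfr, mem_iUnion] at h2
        obtain ⟨l, hl⟩ := h2
        by_cases hlk : l = k
        · rw [← hlk]
          exact hl
        · exact absurd (mem_iUnion.2 ⟨⟨l, hlk⟩, hl⟩) h1
      · intro hz
        refine ⟨?_, hmemK k hz⟩
        intro h
        obtain ⟨l, hl⟩ := mem_iUnion.1 h
        exact disjoint_left.1 (hdis _ _ l.2) hl hz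
  obtain ⟨e₁, e₂, a₁, b₁, a, b, c, d, hab₁, hba₁, hab, hbc, hcd, hda, hA₁, hs₁, hA₂, hs₂, hs₃⟩ :=
    hJCA X hX K x (γ i) (γ j) hB hc hx (hγ i) (hγ j) hi hj (hdis i j hij) (hV i) (hV j)
  obtain ⟨hB₁, hf₁⟩ := hATB X hX K e₁ _ _ hB hA₁
  obtain ⟨hB₂, hf₂⟩ := hATB X hX _ e₂ _ _ hB₁ hA₂
  have hK₁c : IsClosed (K ∪ e₁ '' CD) := hB₁.1.isClosed
  have hUCCD : (UC : Set ℂ) ⊆ CD := sphere_subset_closedBall
  obtain ⟨hc₁, hi₁, -⟩ := hA₁.tile
  obtain ⟨hc₂, hi₂, -⟩ := hA₂.tile
  have hm₁ := hA₁.meet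
  have hm₂ := hA₂.meet
  obtain ⟨γ', hγ', hγ'i⟩ := (hCNT X e₁ (hc₁.mono hUCCD) (hi₁.mono hUCCD)).1 (γ j) a₁ b₁ (hγ j)
    hab₁ hba₁ (by
      apply Subset.antisymm
      · rintro z ⟨⟨w, hw, rfl⟩, hz⟩
        rw [← hm₁]
        exact ⟨mem_image_of_mem _ (hUCCD hw), hKc.frontier_subset (hmemK j hz)⟩
      · intro z hz
        refine ⟨?_, hs₁ hz⟩
        exact image_mono (joinc_carc _ _) hz)
  rw [← hγ'i] at hs₃
  -- circles other than j miss the tile e₁
  have hd₁ : ∀ k, k ≠ j → Disjoint (γ k '' UC) (e₁ '' CD) := by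
    intro k hk
    rw [disjoint_left]
    intro z hz hz'
    have h1 : z ∈ e₁ '' carc a₁ b₁ := by
      rw [← hm₁]
      exact ⟨hz', hKc.frontier_subset (hmemK k hz)⟩
    exact disjoint_left.1 (hdis k j hk) hz (hs₁ h1)
  have hd₂ : ∀ k, k ≠ j → Disjoint (γ k '' UC) (γ' '' UC) := by
    intro k hk
    rw [disjoint_left]
    intro z hz hz'
    rw [hγ'i] at hz'
    rcases hz'.1 with h | h
    · exact disjoint_left.1 (hdis k j hk) hz h
    · exact disjoint_left.1 (hd₁ k hk) hz (image_mono hUCCD h)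
  have hγ'f : γ' '' UC ⊆ frontier (K ∪ e₁ '' CD) := by
    rw [hγ'i, hf₁]
    exact sdiff_subset_sdiff_left (union_subset_union_left _ (hmemK j))
  have hif : ∀ k, k ≠ j → γ k '' UC ⊆ frontier (K ∪ e₁ '' CD) := by
    intro k hk z hz
    rw [hf₁]
    refine ⟨Or.inl (hmemK k hz), fun h => ?_⟩
    exact disjoint_left.1 (hd₁ k hk) hz
      (image_mono ((joinc_oc _ _).trans ((joinc_carc _ _).trans hUCCD)) h)
  have hf₁' : ∀ z ∈ frontier (K ∪ e₁ '' CD), z ∈ γ' '' UC ∨ ∃ k, k ≠ j ∧ z ∈ γ k '' UC := by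
    intro z hz
    rw [hf₁] at hz
    obtain ⟨h1, h2⟩ := hz
    rcases h1 with h1 | h1
    · rw [hfr, mem_iUnion] at h1
      obtain ⟨k, hk⟩ := h1
      by_cases hkj : k = j
      · left
        rw [hγ'i]
        rw [hkj] at hk
        exact ⟨Or.inl hk, h2⟩
      · exact Or.inr ⟨k, hkj, hk⟩
    · left
      rw [hγ'i]
      exact ⟨Or.inr h1, h2⟩
  obtain ⟨γ'', hγ'', hγ''i⟩ := (hCNT X e₂ (hc₂.mono hUCCD) (hi₂.mono hUCCD)).2 (γ i) γ' a b c d
    (hγ i) hγ' (hd₂ i hij) hab hbc hcd hda (by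
      apply Subset.antisymm
      · rintro z ⟨⟨w, hw, rfl⟩, hz⟩
        have h1 : e₂ w ∈ e₂ '' (carc a b ∪ carc c d) := by
          rw [← hm₂]
          exact ⟨mem_image_of_mem _ (hUCCD hw), hK₁c.frontier_subset (hif i hij hz)⟩
        rw [image_union] at h1
        rcases h1 with h1 | h1
        · exact h1
        · exact absurd (hs₃ h1) (disjoint_left.1 (hd₂ i hij) hz)
      · intro z hz
        exact ⟨image_mono (joinc_carc _ _) hz, hs₂ hz⟩) (by
      apply Subset.antisymm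
      · rintro z ⟨⟨w, hw, rfl⟩, hz⟩
        have h1 : e₂ w ∈ e₂ '' (carc a b ∪ carc c d) := by
          rw [← hm₂]
          exact ⟨mem_image_of_mem _ (hUCCD hw), hK₁c.frontier_subset (hγ'f hz)⟩
        rw [image_union] at h1
        rcases h1 with h1 | h1
        · exact absurd hz (disjoint_left.1 (hd₂ i hij) (hs₂ h1))
        · exact h1
      · intro z hz
        exact ⟨image_mono (joinc_carc _ _) hz, hs₃ hz⟩)
  have hd₃ : ∀ k, k ≠ i → k ≠ j → Disjoint (γ k '' UC) (e₂ '' CD) := by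
    intro k hki hkj
    rw [disjoint_left]
    intro z hz hz'
    have h1 : z ∈ e₂ '' (carc a b ∪ carc c d) := by
      rw [← hm₂]
      exact ⟨hz', hK₁c.frontier_subset (hif k hkj hz)⟩
    rw [image_union] at h1
    rcases h1 with h1 | h1
    · exact disjoint_left.1 (hdis k i hki) hz (hs₂ h1)
    · exact disjoint_left.1 (hd₂ k hkj) hz (hs₃ h1)
  have hd₄ : ∀ k, k ≠ i → k ≠ j → Disjoint (γ k '' UC) (γ'' '' UC) := by
    intro k hki hkj
    rw [disjoint_left]
    intro z hz hz'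
    rw [hγ''i] at hz'
    rcases hz'.1 with (h | h) | h
    · exact disjoint_left.1 (hdis k i hki) hz h
    · exact disjoint_left.1 (hd₂ k hkj) hz h
    · exact disjoint_left.1 (hd₃ k hki hkj) hz (image_mono hUCCD h)
  refine ⟨K ∪ e₁ '' CD ∪ e₂ '' CD, .step _ e₂ _ _ (.step _ e₁ _ _ .refl hA₁) hA₂, ?_⟩
  let δ : {k : Fin n // k ≠ j} → ℂ → X := fun k => if k.1 = i then γ'' else γ k.1
  have hδi : ∀ k : {k : Fin n // k ≠ j}, k.1 = i → δ k = γ'' := fun k hk => if_pos hk
  have hδn : ∀ k : {k : Fin n // k ≠ j}, k.1 ≠ i → δ k = γ k.1 := fun k hk => if_neg hk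
  have hcard : Fintype.card {k : Fin n // k ≠ j} = n - 1 := by
    rw [Fintype.card_subtype_compl, Fintype.card_fin, Fintype.card_subtype_eq]
  rw [← hcard]
  have hU : frontier (K ∪ e₁ '' CD ∪ e₂ '' CD) = ⋃ k, δ k '' UC := by
    apply Subset.antisymm
    · intro z hz
      rw [hf₂] at hz
      obtain ⟨h1, h2⟩ := hz
      have hgi : z ∈ γ'' '' UC → z ∈ ⋃ k, δ k '' UC := by
        intro h
        refine mem_iUnion.2 ⟨⟨i, hij⟩, ?_⟩
        rw [hδi _ rfl]
        exact h
      rcases h1 with h1 | h1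
      · rcases hf₁' z h1 with h3 | ⟨k, hkj, hk⟩
        · apply hgi
          rw [hγ''i]
          exact ⟨Or.inl (Or.inr h3), h2⟩
        · by_cases hki : k = i
          · apply hgi
            rw [hγ''i]
            rw [hki] at hk
            exact ⟨Or.inl (Or.inl hk), h2⟩
          · refine mem_iUnion.2 ⟨⟨k, hkj⟩, ?_⟩
            rw [hδn _ hki]
            exact hk
      · apply hgi
        rw [hγ''i]
        exact ⟨Or.inr h1, h2⟩
    · intro z hz
      obtain ⟨k, hk⟩ := mem_iUnion.1 hz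
      rw [hf₂]
      by_cases hki : k.1 = i
      · rw [hδi _ hki, hγ''i] at hk
        refine ⟨?_, hk.2⟩
        rcases hk.1 with (h | h) | h
        · exact Or.inl (hif i hij h)
        · exact Or.inl (hγ'f h)
        · exact Or.inr h
      · rw [hδn _ hki] at hk
        refine ⟨Or.inl (hif _ k.2 hk), fun h => ?_⟩
        refine disjoint_left.1 (hd₃ _ hki k.2) hk (image_mono ?_ h)
        exact (union_subset ((joinc_oc _ _).trans (joinc_carc _ _))
          ((joinc_oc _ _).trans (joinc_carc _ _))).trans hUCCD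
  rw [hU]
  apply joinc_nc
  · intro k
    by_cases hki : k.1 = i
    · rw [hδi _ hki]
      exact hγ''
    · rw [hδn _ hki]
      exact hγ _
  · intro k l hkl
    have hkl' : k.1 ≠ l.1 := fun h => hkl (Subtype.ext h)
    by_cases hki : k.1 = i
    · have hli : l.1 ≠ i := fun h => hkl' (hki.trans h.symm)
      rw [hδi _ hki, hδn _ hli]
      exact (hd₄ _ hli l.2).symm
    · rw [hδn _ hki]
      by_cases hli : l.1 = i
      · rw [hδi _ hli]
        exact hd₄ _ hki k.2
      · rw [hδn _ hli]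
        exact hdis _ _ hkl'

end Pool.Agent.SRF
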