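import Pool.Agent.SRF.AsmB
import Pool.Agent.SRF.JCA
import Pool.Agent.SRF.JOINC
import Pool.Agent.SRF.GEX
import Pool.Agent.SRF.CMP

set_option autoImplicit false

/-! # SRF, the good exhaustion assembled, and Part VI relative to the classification -/

namespace Pool.Agent.SRF

theorem sJCA : St_JCA := thm_JCA sSCH sBFR sATB sRECT sMOVX sADJ
theorem sJOINC : St_JOINC := thm_JOINC sATB sBB sJCA sCNT
theorem sGEX : St_GEX := thm_GEX sBB sBCI sEXH sADJ sJOINC sFILL

/-- Part VI: everything follows from the statement for connected surfaces. -/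
theorem fin6_of_conn (h : St_CONN) : St_FIN6 := thm_FIN6 (thm_CMP h) sURY sMAN sEFF

end Pool.Agent.SRF
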