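import Mathlib

set_option autoImplicit false

/-! # SRF (MP_3b9597_lc): surfaces, tiles, built subsurfaces. Common definitions. -/

open Set Metric Filter Topology

namespace Pool.Agent.SRF

/-- The closed unit disc. -/
abbrev CD : Set ℂ := closedBall 0 1

/-- The open unit disc. -/
abbrev OD : Set ℂ := ball 0 1

/-- The unit circle. -/
abbrev UC : Set ℂ := sphere 0 1

/-- The point of the unit circle with angle `t`. -/
noncomputable def cexpi (t : ℝ) : ℂ := Complex.exp (t * Complex.I)

/-- Closed arc of the unit circle. -/
def carc (a b : ℝ) : Set ℂ := cexpi '' Icc a b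

/-- Open arc of the unit circle. -/
def oarc (a b : ℝ) : Set ℂ := cexpi '' Ioo a b

/-- A (second countable, Hausdorff) surface without boundary; not necessarily connected. -/
structure IsSurf (X : Type*) [TopologicalSpace X] : Prop where
  t2 : T2Space X
  sc : SecondCountableTopology X
  chart : ∀ x : X, ∃ φ : ℂ → X, IsOpenEmbedding φ ∧ φ 0 = x

section

variable {X : Type*} [TopologicalSpace X]

/-- A Jordan curve, parametrised by the unit circle (only the values on the circle matter). -/
def IsJordan (γ : ℂ → X) : Prop := ContinuousOn γ UC ∧ InjOn γ UC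

/-- An arc, parametrised by `[0,1]` (only the values there matter). -/
def IsArc (α : ℝ → X) : Prop := ContinuousOn α (Icc 0 1) ∧ InjOn α (Icc 0 1)

/-- A closed disc in `X`, contained in a coordinate disc (only the values on `CD` matter). -/
def IsTile (e : ℂ → X) : Prop :=
  ContinuousOn e CD ∧ InjOn e CD ∧ ∃ φ : ℂ → X, IsOpenEmbedding φ ∧ e '' CD ⊆ range φ

/-- A tame compact bordered subsurface: at every frontier point there is a chart in which it is a
closed half plane. -/
def Bord (K : Set X) : Prop :=
  IsCompact K ∧ ∀ p ∈ frontier K, ∃ φ : ℂ → X, IsOpenEmbedding φ ∧ φ 0 = p ∧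
    ∀ z, φ z ∈ K ↔ 0 ≤ z.im

/-- The possible attaching sets `S` in the unit circle, with their relative interiors `O`:
one arc, two disjoint arcs, the whole circle. -/
inductive AttSet : Set ℂ → Set ℂ → Prop
  | one (a b : ℝ) : a < b → b < a + 2 * Real.pi → AttSet (carc a b) (oarc a b)
  | two (a b c d : ℝ) : a < b → b < c → c < d → d < a + 2 * Real.pi →
      AttSet (carc a b ∪ carc c d) (oarc a b ∪ oarc c d)
  | full : AttSet UC UC

/-- The tile `e` is attached to `K` along `e '' S`. -/
structure Att (K : Set X) (e : ℂ → X) (S O : Set ℂ) : Prop where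
  tile : IsTile e
  shape : AttSet S O
  meet : e '' CD ∩ K = e '' S

/-- `K'` is built from `K` by attaching finitely many tiles. -/
inductive BuiltFrom (K : Set X) : Set X → Prop
  | refl : BuiltFrom K K
  | step (L : Set X) (e : ℂ → X) (S O : Set ℂ) : BuiltFrom K L → Att L e S O →
      BuiltFrom K (L ∪ e '' CD)

/-- `K` is built from a closed disc. -/
def Built (K : Set X) : Prop := ∃ e : ℂ → X, IsTile e ∧ BuiltFrom (e '' CD) K

/-- Finite disjoint union of Jordan curves, with parametrisations. -/
def IsCircles (M : Set X) : Prop :=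
  ∃ (n : ℕ) (γ : Fin n → ℂ → X), (∀ i, IsJordan (γ i)) ∧
    (∀ i j, i ≠ j → Disjoint (γ i '' UC) (γ j '' UC)) ∧ M = ⋃ i, γ i '' UC

end

/-- The function `f` has a continuous logarithm on `K`. -/
def HasLog (f : ℂ → ℂ) (K : Set ℂ) : Prop :=
  ∃ h : ℂ → ℂ, ContinuousOn h K ∧ ∀ z ∈ K, Complex.exp (h z) = f z

/-- Every continuous function without zeros on `K` has a continuous logarithm on `K`. -/
def LogSet (K : Set ℂ) : Prop :=
  ∀ f : ℂ → ℂ, ContinuousOn f K → (∀ z ∈ K, f z ≠ 0) → HasLog f K

theorem BuiltFrom.trans {X : Type*} [TopologicalSpace X] {K L M : Set X} (h : BuiltFrom K L)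
    (h' : BuiltFrom L M) : BuiltFrom K M := by
  induction h' with
  | refl => exact h
  | step L' e S O _ ha ih => exact .step L' e S O ih ha

theorem BuiltFrom.subset {X : Type*} [TopologicalSpace X] {K L : Set X} (h : BuiltFrom K L) :
    K ⊆ L := by
  induction h with
  | refl => exact Subset.rfl
  | step L' e S O _ ha ih => exact ih.trans subset_union_left

end Pool.Agent.SRF
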