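import Pool.Agent.SRF.StA

set_option autoImplicit false

/-! # SRF, JOIN (helper96): joining two arcs outside a compact set -/

open Set Metric Filter Topology

namespace Pool.Agent.SRF

/-- an arc between two points of an open connected set -/
private theorem join_A (hM : St_MOVE) (W : Set ℂ) (hW : IsOpen W) (hc : IsPreconnected W)
    (x y : ℂ) (hx : x ∈ W) (hy : y ∈ W) (hxy : x ≠ y) :
    ∃ κ : ℝ → ℂ, Continuous κ ∧ Function.Injective κ ∧ κ 0 = x ∧ κ 1 = y ∧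
      ∀ r ∈ Icc (0 : ℝ) 1, κ r ∈ W := by
  obtain ⟨r, hr, hball⟩ := Metric.isOpen_iff.1 hW x hx
  have hr2 : (0 : ℝ) < r / 2 := by positivity
  have hW' : IsOpen (W \ {x}) := hW.sdiff isClosed_singleton
  have hc' : IsPreconnected (W \ {x}) := hM.2 W hW hc {x} (finite_singleton x)
  have hin : ∀ t : ℝ, 0 ≤ t → t ≤ 1 → x + ((t * (r / 2) : ℝ) : ℂ) ∈ W := by
    intro t h0 h1
    refine hball ?_
    rw [mem_ball, dist_eq_norm, add_sub_cancel_left, Complex.norm_real, Real.norm_eq_abs,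
      abs_of_nonneg (by positivity)]
    nlinarith
  have hinj : ∀ t t' : ℝ, x + ((t * (r / 2) : ℝ) : ℂ) = x + ((t' * (r / 2) : ℝ) : ℂ) → t = t' := by
    intro t t' h
    have h1 := add_left_cancel h
    have h2 : t * (r / 2) = t' * (r / 2) := by exact_mod_cast h1
    exact mul_right_cancel₀ hr2.ne' h2
  have hx' : x + ((1 * (r / 2) : ℝ) : ℂ) ∈ W \ {x} := by
    refine ⟨hin 1 zero_le_one le_rfl, ?_⟩
    intro h
    rw [mem_singleton_iff] at h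
    have h1 : x + ((1 * (r / 2) : ℝ) : ℂ) = x + ((0 * (r / 2) : ℝ) : ℂ) := by
      rw [h]; simp
    exact one_ne_zero (hinj 1 0 h1)
  obtain ⟨χ, h1, h2⟩ := hM.1 _ hW' hc' _ hx' y ⟨hy, fun h => hxy h.symm⟩
  refine ⟨fun t => χ (x + ((t * (r / 2) : ℝ) : ℂ)), ?_, ?_, ?_, h2, ?_⟩
  · exact χ.continuous.comp (by fun_prop)
  · intro t t' h
    exact hinj t t' (χ.injective h)
  · show χ (x + ((0 * (r / 2) : ℝ) : ℂ)) = x
    have h3 : x + ((0 * (r / 2) : ℝ) : ℂ) = x := by simp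
    rw [h3]
    exact h1 x (fun h => h.2 rfl)
  · rintro t ⟨h0, ht⟩
    by_contra hn
    have h3 : χ (χ (x + ((t * (r / 2) : ℝ) : ℂ))) = χ (x + ((t * (r / 2) : ℝ) : ℂ)) :=
      h1 _ (fun h => hn h.1)
    have h4 := χ.injective h3
    refine hn ?_
    show χ (x + ((t * (r / 2) : ℝ) : ℂ)) ∈ W
    rw [h4]
    exact hin t h0 ht

/-- a point near the end of an arc which is joined with the complement of `Z` by a segment -/
private theorem join_B (Z : Set ℂ) (α : ℝ → ℂ) (hZ : IsCompact Z) (hint : interior Z = ∅)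
    (hα : IsArc α) (hαZ : α '' Icc 0 1 ⊆ Z) (hU : ∃ U ∈ 𝓝 (α 1), U ∩ Z ⊆ α '' Icc 0 1)
    (ε δ : ℝ) (hε : 0 < ε) (hδ : 0 < δ) :
    ∃ (x : ℂ) (s : ℝ), x ∉ Z ∧ 1 - ε < s ∧ 0 ≤ s ∧ s ≤ 1 ∧ x ∈ ball (α 1) δ ∧
      α s ∈ ball (α 1) δ ∧ ∀ r : ℝ, 0 < r → r ≤ 1 → α s + r * (x - α s) ∉ Z := by
  obtain ⟨U, hU, hUZ⟩ := hU
  have h1Z : α 1 ∈ Z := hαZ ⟨1, right_mem_Icc.2 zero_le_one, rfl⟩
  have hcl : IsClosed (α '' Icc 0 (1 - ε)) :=
    (isCompact_Icc.image_of_continuousOn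
      (hα.1.mono (Icc_subset_Icc le_rfl (by linarith)))).isClosed
  have hna : α 1 ∉ α '' Icc 0 (1 - ε) := by
    rintro ⟨r, hr, h⟩
    have h2 := hα.2 (show r ∈ Icc (0 : ℝ) 1 from ⟨hr.1, by linarith [hr.2]⟩)
      (right_mem_Icc.2 zero_le_one) h
    linarith [hr.2]
  have hV : (α '' Icc 0 (1 - ε))ᶜ ∈ 𝓝 (α 1) := hcl.isOpen_compl.mem_nhds hna
  obtain ⟨ρ, hρ, hball⟩ := Metric.mem_nhds_iff.1
    (Filter.inter_mem (Filter.inter_mem hU hV) (ball_mem_nhds (α 1) hδ))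
  have h1 : ¬ ball (α 1) (ρ / 2) ⊆ Z := by
    intro h
    have h2 : ball (α 1) (ρ / 2) ⊆ interior Z := interior_maximal h isOpen_ball
    rw [hint] at h2
    exact h2 (mem_ball_self (by positivity))
  obtain ⟨x, hx, hxZ⟩ := Set.not_subset.1 h1
  obtain ⟨p, hp, hpd⟩ := hZ.exists_infDist_eq_dist ⟨α 1, h1Z⟩ x
  have h2 : dist x p ≤ dist x (α 1) := by
    rw [← hpd]
    exact infDist_le_dist_of_mem h1Z
  have h3 : dist x (α 1) < ρ / 2 := hx
  have hpa : dist p (α 1) < ρ := by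
    have h4 := dist_triangle p x (α 1)
    rw [dist_comm p x] at h4
    linarith
  have hpm := hball (mem_ball.2 hpa)
  have hxm := hball (mem_ball.2 (show dist x (α 1) < ρ by linarith))
  obtain ⟨s, hs, rfl⟩ := hUZ ⟨hpm.1.1, hp⟩
  have hs1 : 1 - ε < s := by
    by_contra h
    exact hpm.1.2 ⟨s, ⟨hs.1, not_lt.1 h⟩, rfl⟩
  refine ⟨x, s, hxZ, hs1, hs.1, hs.2, hxm.2, hpm.2, ?_⟩
  intro r hr0 hr1 hw
  have h5 : 0 < dist x (α s) := dist_pos.2 (fun h => hxZ (h ▸ hp))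
  have h6 : dist x (α s + r * (x - α s)) = (1 - r) * dist x (α s) := by
    rw [dist_eq_norm, dist_eq_norm]
    have h7 : x - (α s + r * (x - α s)) = ((1 - r : ℝ) : ℂ) * (x - α s) := by
      push_cast; ring
    rw [h7, norm_mul, Complex.norm_real, Real.norm_eq_abs, abs_of_nonneg (by linarith)]
  have h7 : dist x (α s) ≤ dist x (α s + r * (x - α s)) := by
    rw [← hpd]
    exact infDist_le_dist_of_mem hw
  rw [h6] at h7
  nlinarith

/-- concatenation of two arcs -/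
theorem join_concat (f g : ℝ → ℂ) (hf : IsArc f) (hg : IsArc g) (h : f 1 = g 0)
    (hd : ∀ z ∈ f '' Icc 0 1, z ∈ g '' Icc 0 1 → z = g 0) :
    ∃ β : ℝ → ℂ, IsArc β ∧ β 0 = f 0 ∧ β 1 = g 1 ∧
      β '' Icc 0 1 = f '' Icc 0 1 ∪ g '' Icc 0 1 := by
  have hp : ∀ r : ℝ, max 0 (min r 1) ∈ Icc (0 : ℝ) 1 := fun r =>
    ⟨le_max_left _ _, max_le zero_le_one (min_le_right _ _)⟩
  have hpe : ∀ r : ℝ, 0 ≤ r → r ≤ 1 → max 0 (min r 1) = r := fun r h0 h1 => by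
    rw [min_eq_left h1, max_eq_right h0]
  have hcf : Continuous fun r : ℝ => f (max 0 (min r 1)) :=
    hf.1.comp_continuous (by fun_prop) hp
  have hcg : Continuous fun r : ℝ => g (max 0 (min r 1)) :=
    hg.1.comp_continuous (by fun_prop) hp
  obtain ⟨β, hβ⟩ : ∃ β : ℝ → ℂ, β = fun r => if r ≤ 1 / 2 then f (max 0 (min (2 * r) 1))
    else g (max 0 (min (2 * r - 1) 1)) := ⟨_, rfl⟩
  have hc : Continuous β := by
    rw [hβ]
    refine Continuous.if_le (hcf.comp (by fun_prop)) (hcg.comp (by fun_prop)) continuous_id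
      continuous_const ?_
    intro r hr
    have hr' : r = 1 / 2 := hr
    show f (max 0 (min (2 * r) 1)) = g (max 0 (min (2 * r - 1) 1))
    rw [hr', hpe (2 * (1 / 2)) (by norm_num) (by norm_num),
      hpe (2 * (1 / 2) - 1) (by norm_num) (by norm_num)]
    norm_num
    exact h
  have e1 : ∀ r : ℝ, 0 ≤ r → r ≤ 1 / 2 → β r = f (2 * r) := by
    intro r h0 h1
    rw [hβ]
    show (if r ≤ 1 / 2 then f (max 0 (min (2 * r) 1)) else g (max 0 (min (2 * r - 1) 1))) = _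
    rw [if_pos h1, hpe _ (by linarith) (by linarith)]
  have e2 : ∀ r : ℝ, 1 / 2 < r → r ≤ 1 → β r = g (2 * r - 1) := by
    intro r h0 h1
    rw [hβ]
    show (if r ≤ 1 / 2 then f (max 0 (min (2 * r) 1)) else g (max 0 (min (2 * r - 1) 1))) = _
    rw [if_neg (not_le.2 h0), hpe _ (by linarith) (by linarith)]
  have hx : ∀ r r' : ℝ, 0 ≤ r → r ≤ 1 / 2 → 1 / 2 < r' → r' ≤ 1 → β r = β r' → False := by
    intro r r' h0 h1 h0' h1' he
    rw [e1 r h0 h1, e2 r' h0' h1'] at he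
    have h2 := hd (f (2 * r)) ⟨2 * r, ⟨by linarith, by linarith⟩, rfl⟩
      (he ▸ ⟨2 * r' - 1, ⟨by linarith, by linarith⟩, rfl⟩)
    rw [he] at h2
    have h3 := hg.2 (show 2 * r' - 1 ∈ Icc (0 : ℝ) 1 from ⟨by linarith, by linarith⟩)
      (left_mem_Icc.2 zero_le_one) h2
    linarith
  refine ⟨β, ⟨hc.continuousOn, ?_⟩, ?_, ?_, ?_⟩
  · rintro r ⟨h0, h1⟩ r' ⟨h0', h1'⟩ he
    rcases le_or_gt r (1 / 2) with hr | hr
    · rcases le_or_gt r' (1 / 2) with hr' | hr'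
      · rw [e1 r h0 hr, e1 r' h0' hr'] at he
        have h3 := hf.2 (show 2 * r ∈ Icc (0 : ℝ) 1 from ⟨by linarith, by linarith⟩)
          (show 2 * r' ∈ Icc (0 : ℝ) 1 from ⟨by linarith, by linarith⟩) he
        linarith
      · exact (hx r r' h0 hr hr' h1' he).elim
    · rcases le_or_gt r' (1 / 2) with hr' | hr'
      · exact (hx r' r h0' hr' hr h1 he.symm).elim
      · rw [e2 r hr h1, e2 r' hr' h1'] at he
        have h3 := hg.2 (show 2 * r - 1 ∈ Icc (0 : ℝ) 1 from ⟨by linarith, by linarith⟩)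
          (show 2 * r' - 1 ∈ Icc (0 : ℝ) 1 from ⟨by linarith, by linarith⟩) he
        linarith
  · rw [e1 0 le_rfl (by norm_num), mul_zero]
  · rw [e2 1 (by norm_num) le_rfl]
    norm_num
  · ext z
    constructor
    · rintro ⟨r, ⟨h0, h1⟩, rfl⟩
      rcases le_or_gt r (1 / 2) with hr | hr
      · rw [e1 r h0 hr]
        exact Or.inl ⟨2 * r, ⟨by linarith, by linarith⟩, rfl⟩
      · rw [e2 r hr h1]
        exact Or.inr ⟨2 * r - 1, ⟨by linarith, by linarith⟩, rfl⟩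
    · rintro (⟨r, ⟨h0, h1⟩, rfl⟩ | ⟨r, ⟨h0, h1⟩, rfl⟩)
      · refine ⟨r / 2, ⟨by linarith, by linarith⟩, ?_⟩
        rw [e1 (r / 2) (by linarith) (by linarith)]
        congr 1
        ring
      · rcases eq_or_lt_of_le h0 with h2 | h2
        · refine ⟨1 / 2, ⟨by norm_num, by norm_num⟩, ?_⟩
          rw [e1 (1 / 2) (by norm_num) le_rfl, ← h2, ← h]
          congr 1
          norm_num
        · refine ⟨(r + 1) / 2, ⟨by linarith, by linarith⟩, ?_⟩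
          rw [e2 ((r + 1) / 2) (by linarith) (by linarith)]
          congr 1
          ring

/-- a segment is an arc -/
private theorem join_seg (p u : ℂ) (h : p ≠ u) : IsArc (fun r : ℝ => p + r * (u - p)) := by
  refine ⟨Continuous.continuousOn (by fun_prop), ?_⟩
  intro r _ r' _ he
  have h1 : (r : ℂ) * (u - p) = r' * (u - p) := add_left_cancel he
  have h2 : (r : ℂ) = r' := mul_right_cancel₀ (sub_ne_zero.2 h.symm) h1
  exact_mod_cast h2

private theorem join_ball (a p x : ℂ) (δ r : ℝ) (hp : p ∈ ball a δ) (hx : x ∈ ball a δ)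
    (h0 : 0 ≤ r) (h1 : r ≤ 1) : p + r * (x - p) ∈ ball a δ := by
  have h2 := (convex_ball a δ) hp hx (show 0 ≤ 1 - r by linarith) h0 (by ring)
  have h3 : p + r * (x - p) = (1 - r) • p + r • x := by
    rw [Complex.real_smul, Complex.real_smul]
    push_cast
    ring
  rw [h3]
  exact h2

/-- **JOIN.** -/
theorem thm_JOIN (hM : St_MOVE) : St_JOIN := by
  intro Z α α' hZ hZc hint hα hα' hαZ hα'Z hU hU' hne ε hε _
  obtain ⟨δ, hδ⟩ : ∃ δ : ℝ, δ = dist (α 1) (α' 0) / 2 := ⟨_, rfl⟩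
  have hδ0 : 0 < δ := by
    rw [hδ]
    exact half_pos (dist_pos.2 hne)
  have hdisj : ∀ z : ℂ, z ∈ ball (α 1) δ → z ∈ ball (α' 0) δ → False := by
    intro z h1 h2
    rw [mem_ball] at h1 h2
    have h3 := dist_triangle (α 1) z (α' 0)
    rw [dist_comm (α 1) z] at h3
    linarith
  obtain ⟨x, s, hxZ, hs1, hs0, hs2, hxb, hpb, hseg⟩ :=
    join_B Z α hZ hint hα hαZ hU ε δ hε hδ0
  -- the reversed arc
  have hrev : IsArc (fun r => α' (1 - r)) := by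
    refine ⟨hα'.1.comp (Continuous.continuousOn (by fun_prop)) ?_, ?_⟩
    · rintro r ⟨h0, h1⟩
      exact ⟨by linarith, by linarith⟩
    · rintro r ⟨h0, h1⟩ r' ⟨h0', h1'⟩ he
      have h3 := hα'.2 (show 1 - r ∈ Icc (0 : ℝ) 1 from ⟨by linarith, by linarith⟩)
        (show 1 - r' ∈ Icc (0 : ℝ) 1 from ⟨by linarith, by linarith⟩) he
      linarith
  have hrim : (fun r => α' (1 - r)) '' Icc 0 1 = α' '' Icc 0 1 := by
    ext z
    constructor
    · rintro ⟨r, ⟨h0, h1⟩, rfl⟩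
      exact ⟨1 - r, ⟨by linarith, by linarith⟩, rfl⟩
    · rintro ⟨r, ⟨h0, h1⟩, rfl⟩
      refine ⟨1 - r, ⟨by linarith, by linarith⟩, ?_⟩
      show α' (1 - (1 - r)) = α' r
      rw [sub_sub_cancel]
  obtain ⟨y, s', hyZ, hs1', hs0', hs2', hyb, hqb, hseg'⟩ :=
    join_B Z (fun r => α' (1 - r)) hZ hint hrev (by rw [hrim]; exact hα'Z)
      (by rw [hrim]; simpa only [sub_self] using hU') ε δ hε hδ0
  simp only [sub_self] at hyb hqb hseg'
  obtain ⟨p, hp⟩ : ∃ p : ℂ, p = α s := ⟨_, rfl⟩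
  obtain ⟨q, hq⟩ : ∃ q : ℂ, q = α' (1 - s') := ⟨_, rfl⟩
  rw [← hp] at hpb hseg
  rw [← hq] at hqb hseg'
  have hpZ : p ∈ Z := hp ▸ hαZ ⟨s, ⟨hs0, hs2⟩, rfl⟩
  have hqZ : q ∈ Z := hq ▸ hα'Z ⟨1 - s', ⟨by linarith, by linarith⟩, rfl⟩
  have hxy : x ≠ y := fun h => hdisj x hxb (h ▸ hyb)
  obtain ⟨κ, hκc, hκi, hκ0, hκ1, hκZ⟩ := join_A hM Zᶜ hZ.isClosed.isOpen_compl
    hZc.isPreconnected x y hxZ hyZ hxy
  obtain ⟨P, hP⟩ : ∃ P : Set ℂ, P = (fun r : ℝ => p + r * (x - p)) '' Icc 0 1 := ⟨_, rfl⟩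
  obtain ⟨Q, hQ⟩ : ∃ Q : Set ℂ, Q = (fun r : ℝ => q + r * (y - q)) '' Icc 0 1 := ⟨_, rfl⟩
  have hPc : IsClosed P := by
    rw [hP]
    exact (isCompact_Icc.image (by fun_prop)).isClosed
  have hQc : IsClosed Q := by
    rw [hQ]
    exact (isCompact_Icc.image (by fun_prop)).isClosed
  have hPb : ∀ z ∈ P, z ∈ ball (α 1) δ := by
    rw [hP]
    rintro z ⟨r, ⟨h0, h1⟩, rfl⟩
    exact join_ball _ _ _ _ _ hpb hxb h0 h1
  have hQb : ∀ z ∈ Q, z ∈ ball (α' 0) δ := by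
    rw [hQ]
    rintro z ⟨r, ⟨h0, h1⟩, rfl⟩
    exact join_ball _ _ _ _ _ hqb hyb h0 h1
  have hxP : x ∈ P := by
    rw [hP]
    refine ⟨1, right_mem_Icc.2 zero_le_one, ?_⟩
    show p + ((1 : ℝ) : ℂ) * (x - p) = x
    push_cast
    ring
  have hyQ : y ∈ Q := by
    rw [hQ]
    refine ⟨1, right_mem_Icc.2 zero_le_one, ?_⟩
    show q + ((1 : ℝ) : ℂ) * (y - q) = y
    push_cast
    ring
  obtain ⟨r₁, ⟨hr₁I, hr₁P⟩, hr₁g⟩ := (isCompact_Icc.inter_right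
    (hPc.preimage hκc) : IsCompact (Icc (0 : ℝ) 1 ∩ κ ⁻¹' P)).exists_isGreatest
    ⟨0, left_mem_Icc.2 zero_le_one, by
      show κ 0 ∈ P
      rw [hκ0]; exact hxP⟩
  obtain ⟨r₂, ⟨hr₂I, hr₂Q⟩, hr₂l⟩ := (isCompact_Icc.inter_right
    (hQc.preimage hκc) : IsCompact (Icc r₁ 1 ∩ κ ⁻¹' Q)).exists_isLeast
    ⟨1, right_mem_Icc.2 hr₁I.2, by
      show κ 1 ∈ Q
      rw [hκ1]; exact hyQ⟩
  have hr₁P' : κ r₁ ∈ P := hr₁P
  have hr₂Q' : κ r₂ ∈ Q := hr₂Q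
  have hlt : r₁ < r₂ := by
    rcases eq_or_lt_of_le hr₂I.1 with h | h
    · exact (hdisj _ (hPb _ hr₁P') (h ▸ hQb _ hr₂Q')).elim
    · exact h
  have hafter : ∀ r, r₁ < r → r ≤ 1 → κ r ∉ P := by
    intro r h1 h2 h3
    have h4 := hr₁g (show r ∈ Icc (0 : ℝ) 1 ∩ κ ⁻¹' P from ⟨⟨by linarith [hr₁I.1], h2⟩, h3⟩)
    linarith
  have hbefore : ∀ r, r₁ ≤ r → r < r₂ → κ r ∉ Q := by
    intro r h1 h2 h3
    have h4 := hr₂l (show r ∈ Icc r₁ 1 ∩ κ ⁻¹' Q from ⟨⟨h1, by linarith [hr₂I.2]⟩, h3⟩)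
    linarith
  obtain ⟨u, hu⟩ : ∃ u : ℂ, u = κ r₁ := ⟨_, rfl⟩
  obtain ⟨v, hv⟩ : ∃ v : ℂ, v = κ r₂ := ⟨_, rfl⟩
  have huZ : u ∉ Z := hu ▸ hκZ r₁ hr₁I
  have hvZ : v ∉ Z := hv ▸ hκZ r₂ ⟨by linarith [hr₁I.1, hr₂I.1], hr₂I.2⟩
  rw [← hu] at hr₁P'
  rw [← hv] at hr₂Q'
  -- the segment from `p` to `u`
  have hpu : ∀ r : ℝ, 0 ≤ r → r ≤ 1 → p + r * (u - p) ∈ P ∧ (0 < r → p + r * (u - p) ∉ Z) := by
    rw [hP] at hr₁P'
    obtain ⟨l, ⟨hl0, hl1⟩, hl⟩ := hr₁P'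
    have hl' : p + l * (x - p) = u := hl
    have hlp : 0 < l := by
      rcases eq_or_lt_of_le hl0 with h | h
      · refine (huZ ?_).elim
        rw [← hl', ← h]
        simpa using hpZ
      · exact h
    intro r h0 h1
    have h2 : p + r * (u - p) = p + ((r * l : ℝ) : ℂ) * (x - p) := by
      rw [← hl']
      push_cast
      ring
    rw [h2]
    refine ⟨?_, fun h3 => hseg (r * l) (by positivity) (by nlinarith)⟩
    rw [hP]
    exact ⟨r * l, ⟨by positivity, by nlinarith⟩, rfl⟩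
  have hqv : ∀ r : ℝ, 0 ≤ r → r ≤ 1 → v + r * (q - v) ∈ Q ∧ (r < 1 → v + r * (q - v) ∉ Z) := by
    rw [hQ] at hr₂Q'
    obtain ⟨l, ⟨hl0, hl1⟩, hl⟩ := hr₂Q'
    have hl' : q + l * (y - q) = v := hl
    have hlp : 0 < l := by
      rcases eq_or_lt_of_le hl0 with h | h
      · refine (hvZ ?_).elim
        rw [← hl', ← h]
        simpa using hqZ
      · exact h
    intro r h0 h1
    have h2 : v + r * (q - v) = q + (((1 - r) * l : ℝ) : ℂ) * (y - q) := by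
      rw [← hl']
      push_cast
      ring
    rw [h2]
    have h4 : 0 ≤ 1 - r := by linarith
    refine ⟨?_, fun h3 => hseg' ((1 - r) * l) (mul_pos (by linarith) hlp) (by nlinarith)⟩
    rw [hQ]
    exact ⟨(1 - r) * l, ⟨by positivity, by nlinarith⟩, rfl⟩
  have hpune : p ≠ u := fun h => huZ (h ▸ hpZ)
  have hvqne : v ≠ q := fun h => hvZ (h ▸ hqZ)
  have hgarc : IsArc (fun r : ℝ => κ (r₁ + r * (r₂ - r₁))) := by
    refine ⟨Continuous.continuousOn (hκc.comp (by fun_prop)), ?_⟩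
    intro r _ r' _ he
    have h1 := hκi he
    have h2 : r * (r₂ - r₁) = r' * (r₂ - r₁) := by linarith
    exact mul_right_cancel₀ (by linarith : r₂ - r₁ ≠ 0) h2
  have hgI : ∀ r ∈ Icc (0 : ℝ) 1, r₁ + r * (r₂ - r₁) ∈ Icc r₁ r₂ := by
    rintro r ⟨h0, h1⟩
    constructor <;> nlinarith
  obtain ⟨β₁, hβ₁, hβ₁0, hβ₁1, hβ₁im⟩ := join_concat (fun r : ℝ => p + r * (u - p))
    (fun r : ℝ => κ (r₁ + r * (r₂ - r₁))) (join_seg p u hpune) hgarc (by
      show p + ((1 : ℝ) : ℂ) * (u - p) = κ (r₁ + 0 * (r₂ - r₁))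
      rw [zero_mul, add_zero, ← hu]
      push_cast
      ring) (by
      rintro z ⟨r, ⟨h0, h1⟩, rfl⟩ ⟨r', hr', he⟩
      have he' : κ (r₁ + r' * (r₂ - r₁)) = p + r * (u - p) := he
      have h2 : κ (r₁ + r' * (r₂ - r₁)) ∈ P := he' ▸ (hpu r h0 h1).1
      have h3 := hgI r' hr'
      have h4 : r₁ + r' * (r₂ - r₁) = r₁ := by
        rcases eq_or_lt_of_le h3.1 with h | h
        · exact h.symm
        · exact (hafter _ h (h3.2.trans hr₂I.2) h2).elim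
      show p + r * (u - p) = κ (r₁ + 0 * (r₂ - r₁))
      rw [← he', h4, zero_mul, add_zero])
  have hβ₁0' : β₁ 0 = p := by
    rw [hβ₁0]
    show p + ((0 : ℝ) : ℂ) * (u - p) = p
    push_cast
    ring
  have hβ₁1' : β₁ 1 = v := by
    rw [hβ₁1]
    show κ (r₁ + 1 * (r₂ - r₁)) = v
    rw [hv]
    congr 1
    ring
  obtain ⟨β, hβ, hβ0, hβ1, hβim⟩ := join_concat β₁ (fun r : ℝ => v + r * (q - v)) hβ₁
    (join_seg v q hvqne) (by
      rw [hβ₁1']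
      show v = v + ((0 : ℝ) : ℂ) * (q - v)
      push_cast
      ring) (by
      intro z hz hz'
      have hzQ : z ∈ Q := by
        obtain ⟨r, ⟨h0, h1⟩, rfl⟩ := hz'
        exact (hqv r h0 h1).1
      have hgoal : z = v → z = (fun r : ℝ => v + r * (q - v)) 0 := by
        intro h
        rw [h]
        show v = v + ((0 : ℝ) : ℂ) * (q - v)
        push_cast
        ring
      refine hgoal ?_
      rw [hβ₁im] at hz
      rcases hz with ⟨r, ⟨h0, h1⟩, rfl⟩ | ⟨r, hr, rfl⟩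
      · exact (hdisj _ (hPb _ (hpu r h0 h1).1) (hQb _ hzQ)).elim
      · have h3 := hgI r hr
        have hzQ' : κ (r₁ + r * (r₂ - r₁)) ∈ Q := hzQ
        show κ (r₁ + r * (r₂ - r₁)) = v
        rcases eq_or_lt_of_le h3.2 with h | h
        · rw [h, hv]
        · exact (hbefore _ h3.1 h hzQ').elim)
  have hβ0' : β 0 = p := by rw [hβ0, hβ₁0']
  have hβ1' : β 1 = q := by
    rw [hβ1]
    show v + ((1 : ℝ) : ℂ) * (q - v) = q
    push_cast
    ring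
  refine ⟨β, s, 1 - s', hβ, hs1, hs2, by linarith, by linarith, by rw [hβ0', hp],
    by rw [hβ1', hq], ?_⟩
  rintro r ⟨h0, h1⟩ hrZ
  have hrI : r ∈ Icc (0 : ℝ) 1 := ⟨h0.le, h1.le⟩
  have h2 : β r ∈ β '' Icc 0 1 := ⟨r, hrI, rfl⟩
  rw [hβim, hβ₁im] at h2
  rcases h2 with (⟨r', ⟨h0', h1'⟩, he⟩ | ⟨r', hr', he⟩) | ⟨r', ⟨h0', h1'⟩, he⟩
  · have he' : p + r' * (u - p) = β r := he
    rcases eq_or_lt_of_le h0' with h3 | h3
    · have h4 : β r = β 0 := by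
        rw [hβ0', ← he', ← h3]
        push_cast
        ring
      have h5 := hβ.2 hrI (left_mem_Icc.2 zero_le_one) h4
      linarith
    · exact (hpu r' h0' h1').2 h3 (he' ▸ hrZ)
  · have he' : κ (r₁ + r' * (r₂ - r₁)) = β r := he
    have h3 := hgI r' hr'
    exact hκZ _ ⟨by linarith [hr₁I.1, h3.1], h3.2.trans hr₂I.2⟩ (he' ▸ hrZ)
  · have he' : v + r' * (q - v) = β r := he
    rcases eq_or_lt_of_le h1' with h3 | h3
    · have h4 : β r = β 1 := by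
        rw [hβ1', ← he', h3]
        push_cast
        ring
      have h5 := hβ.2 hrI (right_mem_Icc.2 zero_le_one) h4
      linarith
    · exact (hqv r' h0' h1').2 h3 (he' ▸ hrZ)

end Pool.Agent.SRF
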