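import Pool.Agent.SRF.St6

set_option autoImplicit false

/-! # MAN: manifolds and surfaces -/

open Set Metric Filter Topology TopologicalSpace

namespace Pool.Agent.SRF

theorem man_surf (X : Type) [TopologicalSpace X] (h : IsManifold 2 X) : IsSurf X := by
  refine ⟨h.t2, h.sc, fun x => ?_⟩
  obtain ⟨e, hx⟩ := h.chart x
  have hopen : IsOpen e.target := e.open_target
  obtain ⟨r, hr, hball⟩ := Metric.isOpen_iff.1 hopen (e x) (e.map_source hx)
  have hfin : Module.finrank ℝ ℂ = Module.finrank ℝ (EuclideanSpace ℝ (Fin 2)) := by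
    rw [Complex.finrank_real_complex, finrank_euclideanSpace_fin]
  let L : ℂ ≃L[ℝ] EuclideanSpace ℝ (Fin 2) := ContinuousLinearEquiv.ofFinrankEq hfin
  let ub := OpenPartialHomeomorph.univBall (e x) r
  let g : OpenPartialHomeomorph ℂ X :=
    (L.toHomeomorph.toOpenPartialHomeomorph.trans ub).trans e.symm
  have hg : g.source = univ := by
    apply eq_univ_of_forall
    intro z
    simp only [g, OpenPartialHomeomorph.trans_source, mem_inter_iff, mem_preimage,
      OpenPartialHomeomorph.symm_source]
    refine ⟨⟨by simp, ?_⟩, ?_⟩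
    · simp [ub, OpenPartialHomeomorph.univBall_source]
    · apply hball
      have h1 : ub ((L.toHomeomorph.toOpenPartialHomeomorph) z) ∈ ub.target :=
        ub.map_source (by simp [ub, OpenPartialHomeomorph.univBall_source])
      rw [show ub.target = ball (e x) r from OpenPartialHomeomorph.univBall_target _ hr] at h1
      exact h1
  refine ⟨g, g.isOpenEmbedding hg, ?_⟩
  show e.symm (ub (L 0)) = x
  rw [map_zero, show ub 0 = e x from OpenPartialHomeomorph.univBall_apply_zero _ _]
  exact e.left_inv hx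

theorem man_prod (X : Type) [TopologicalSpace X] (h : IsManifold 2 X) :
    IsManifold 3 (X × Circle) := by
  have := h.t2
  have := h.sc
  have : SecondCountableTopology Circle := inferInstance
  refine ⟨inferInstance, inferInstance, ?_⟩
  rintro ⟨x, s⟩
  obtain ⟨e, hx⟩ := h.chart x
  let c : OpenPartialHomeomorph Circle (EuclideanSpace ℝ (Fin 1)) :=
    chartAt (EuclideanSpace ℝ (Fin 1)) s
  have hc : s ∈ c.source := mem_chart_source _ s
  have hfin : Module.finrank ℝ (EuclideanSpace ℝ (Fin 2) × EuclideanSpace ℝ (Fin 1)) =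
      Module.finrank ℝ (EuclideanSpace ℝ (Fin 3)) := by
    rw [Module.finrank_prod, finrank_euclideanSpace_fin, finrank_euclideanSpace_fin,
      finrank_euclideanSpace_fin]
  let L : (EuclideanSpace ℝ (Fin 2) × EuclideanSpace ℝ (Fin 1)) ≃L[ℝ] EuclideanSpace ℝ (Fin 3) :=
    ContinuousLinearEquiv.ofFinrankEq hfin
  refine ⟨(e.prod c).trans L.toHomeomorph.toOpenPartialHomeomorph, ?_⟩
  simp only [OpenPartialHomeomorph.trans_source, OpenPartialHomeomorph.prod_source,
    mem_inter_iff, mem_prod, mem_preimage]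
  exact ⟨⟨hx, hc⟩, by simp⟩

theorem man_transport (n : ℕ) (X Y : Type) [TopologicalSpace X] [TopologicalSpace Y]
    (hXY : Nonempty (X ≃ₜ Y)) (h : IsManifold n X) : IsManifold n Y := by
  obtain ⟨f⟩ := hXY
  have := h.t2
  have := h.sc
  refine ⟨f.symm.isEmbedding.t2Space, f.symm.isEmbedding.secondCountableTopology, fun y => ?_⟩
  obtain ⟨e, hy⟩ := h.chart (f.symm y)
  refine ⟨f.symm.toOpenPartialHomeomorph.trans e, ?_⟩
  simp only [OpenPartialHomeomorph.trans_source, mem_inter_iff, mem_preimage]
  exact ⟨by simp, hy⟩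

/-- MAN. -/
theorem thm_MAN : St_MAN :=
  ⟨fun X _ h => man_surf X h, fun X _ h => man_prod X h,
    fun n X Y _ _ hXY h => man_transport n X Y hXY h⟩

end Pool.Agent.SRF
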