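import Mathlib

set_option autoImplicit false

/-! # MP_3b9597_lc: the statement of the problem

Borel reducibility of the homeomorphism relation on surfaces to the homeomorphism relation on
3-manifolds, for closed subspaces of the Urysohn space with the Effros Borel structure. -/

open Set TopologicalSpace

namespace Pool.Agent.SRF

/-- `X` is an `n`-manifold: Hausdorff, second countable, and every point is in the domain of a
homeomorphism of an open subset of `X` onto an open subset of `ℝⁿ` (no boundary, not necessarily
compact, not necessarily connected). -/
structure IsManifold (n : ℕ) (X : Type) [TopologicalSpace X] : Prop where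
  t2 : T2Space X
  sc : SecondCountableTopology X
  chart : ∀ x : X, ∃ e : OpenPartialHomeomorph X (EuclideanSpace ℝ (Fin n)), x ∈ e.source

/-- `U` is (isometric to) the Urysohn universal space: it is a complete separable metric space, and
every one point extension of a finite subset `A` of `U` (given by the distances `f a`, `a ∈ A`,
of the new point) is realised by a point of `U`. -/
structure IsUrysohn (U : Type) [MetricSpace U] : Prop where
  complete : CompleteSpace U
  separable : SeparableSpace U
  extension : ∀ (A : Finset U) (f : U → ℝ),
    (∀ a ∈ A, ∀ b ∈ A, |f a - f b| ≤ dist a b ∧ dist a b ≤ f a + f b) →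
    ∃ u : U, ∀ a ∈ A, dist u a = f a

/-- The Effros Borel structure on the set `F(U)` of closed subsets of `U`: the sigma-algebra
generated by the sets of all closed `F` which meet `V`, where `V` is an open subset of `U`. -/
@[reducible] def effros (U : Type) [TopologicalSpace U] : MeasurableSpace (Closeds U) :=
  MeasurableSpace.generateFrom
    {S | ∃ V : Set U, IsOpen V ∧ S = {F : Closeds U | ((F : Set U) ∩ V).Nonempty}}

/-- `M_n`: the set of closed subsets of `U` which are `n`-manifolds. -/
abbrev MM (n : ℕ) (U : Type) [TopologicalSpace U] : Type := {F : Closeds U // IsManifold n ↥F}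

/-- The Borel structure on `M_n` as a subspace of `F(U)`. -/
@[reducible] def borelMM (n : ℕ) (U : Type) [TopologicalSpace U] : MeasurableSpace (MM n U) :=
  (effros U).comap (fun F : MM n U => F.1)

/-- The homeomorphism relation on `M_n`. -/
def Homeo (n : ℕ) (U : Type) [TopologicalSpace U] (F G : MM n U) : Prop :=
  Nonempty (↥F.1 ≃ₜ ↥G.1)

/-- Borel reducibility of the relation `E` on `(X, mX)` to the relation `F` on `(Y, mY)`. -/
def BorelReducible {X Y : Type} (mX : MeasurableSpace X) (mY : MeasurableSpace Y)
    (E : X → X → Prop) (F : Y → Y → Prop) : Prop :=
  ∃ f : X → Y, @Measurable X Y mX mY f ∧ ∀ x x' : X, E x x' ↔ F (f x) (f x')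

/-- The question Q1, as a statement about the Urysohn space `U`. -/
def Question (U : Type) [MetricSpace U] : Prop :=
  BorelReducible (borelMM 2 U) (borelMM 3 U) (Homeo 2 U) (Homeo 3 U)

end Pool.Agent.SRF
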