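import Pool.Agent.SRF.StB

set_option autoImplicit false

/-! # SRF RATT: attaching a rectangle in a chart. -/

open Set Metric Filter Topology

namespace Pool.Agent.SRF

theorem ratt_union {a b c : ℝ} (h1 : a ≤ b) (h2 : b ≤ c) : carc a b ∪ carc b c = carc a c := by
  unfold carc
  rw [← image_union, Icc_union_Icc_eq_Icc h1 h2]

theorem ratt_shift_one (t : ℝ) : cexpi (t + 2 * Real.pi) = cexpi t := by
  unfold cexpi
  have : ((t + 2 * Real.pi : ℝ) : ℂ) * Complex.I = t * Complex.I + 2 * Real.pi * Complex.I := by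
    push_cast
    rw [add_mul]
  rw [this, Complex.exp_add, Complex.exp_two_pi_mul_I, mul_one]

theorem ratt_shift (a b : ℝ) : carc (a + 2 * Real.pi) (b + 2 * Real.pi) = carc a b := by
  unfold carc
  ext z
  constructor
  · rintro ⟨t, ht, rfl⟩
    refine ⟨t - 2 * Real.pi, ⟨by linarith [ht.1], by linarith [ht.2]⟩, ?_⟩
    rw [← ratt_shift_one, sub_add_cancel]
  · rintro ⟨t, ht, rfl⟩
    exact ⟨t + 2 * Real.pi, ⟨by linarith [ht.1], by linarith [ht.2]⟩, ratt_shift_one t⟩

theorem ratt_full : UC = carc (-(Real.pi / 4)) (7 * Real.pi / 4) := by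
  have hpi := Real.pi_pos
  ext z
  constructor
  · intro hz
    rw [mem_sphere_zero_iff_norm] at hz
    have h1 : cexpi z.arg = z := by
      have := Complex.norm_mul_exp_arg_mul_I z
      rw [hz, Complex.ofReal_one, one_mul] at this
      exact this
    have h2 := Complex.neg_pi_lt_arg z
    have h3 := Complex.arg_le_pi z
    by_cases h4 : -(Real.pi / 4) ≤ z.arg
    · exact ⟨z.arg, ⟨h4, by linarith⟩, h1⟩
    · push Not at h4
      rw [← ratt_shift_one z.arg] at h1
      exact ⟨z.arg + 2 * Real.pi, ⟨by linarith, by linarith⟩, h1⟩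
  · rintro ⟨t, -, rfl⟩
    rw [mem_sphere_zero_iff_norm]
    exact Complex.norm_exp_ofReal_mul_I t

theorem thm_RATT (h0 : St_RECT) : St_RATT := by
  intro X _ φ hφ M a b c d W hab hcd hsel hmeet
  obtain ⟨e0, hc, hi, him, hR, hT, hL, hB⟩ := h0 a b c d hab hcd
  have hpi := Real.pi_pos
  have gen : ∀ S O : Set ℂ, AttSet S O → e0 '' S = W → ∃ (e : ℂ → X) (S O : Set ℂ),
      Att M e S O ∧ e '' CD = φ '' Rect a b c d := by
    intro S O hSO hS
    refine ⟨φ ∘ e0, S, O, ⟨⟨hφ.continuous.comp_continuousOn hc,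
      hφ.injective.comp_injOn hi, φ, hφ, ?_⟩, hSO, ?_⟩, ?_⟩
    · rw [image_comp]
      exact image_subset_range _ _
    · rw [image_comp, him, hmeet, image_comp, hS]
    · rw [image_comp, him]
  cases hsel with
  | right => exact gen _ _ (AttSet.one _ _ (by linarith) (by linarith)) hR
  | top => exact gen _ _ (AttSet.one _ _ (by linarith) (by linarith)) hT
  | left => exact gen _ _ (AttSet.one _ _ (by linarith) (by linarith)) hL
  | bottom => exact gen _ _ (AttSet.one _ _ (by linarith) (by linarith)) hB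
  | lbr =>
    refine gen _ _ (AttSet.one (3 * Real.pi / 4) (9 * Real.pi / 4) (by linarith) (by linarith)) ?_
    have h1 : carc (7 * Real.pi / 4) (9 * Real.pi / 4) = carc (-(Real.pi / 4)) (Real.pi / 4) := by
      rw [← ratt_shift (-(Real.pi / 4)) (Real.pi / 4)]
      congr 1 <;> ring
    rw [← ratt_union (show 3 * Real.pi / 4 ≤ 7 * Real.pi / 4 by linarith)
      (show 7 * Real.pi / 4 ≤ 9 * Real.pi / 4 by linarith),
      ← ratt_union (show 3 * Real.pi / 4 ≤ 5 * Real.pi / 4 by linarith)
      (show 5 * Real.pi / 4 ≤ 7 * Real.pi / 4 by linarith), h1, image_union, image_union, hL, hB,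
      hR]
  | ltr =>
    refine gen _ _ (AttSet.one (-(Real.pi / 4)) (5 * Real.pi / 4) (by linarith) (by linarith)) ?_
    rw [← ratt_union (show -(Real.pi / 4) ≤ 3 * Real.pi / 4 by linarith)
      (show 3 * Real.pi / 4 ≤ 5 * Real.pi / 4 by linarith),
      ← ratt_union (show -(Real.pi / 4) ≤ Real.pi / 4 by linarith)
      (show Real.pi / 4 ≤ 3 * Real.pi / 4 by linarith), image_union, image_union, hL, hT, hR]
    ext z
    simp only [mem_union]
    tauto
  | lr =>
    refine gen _ _ (AttSet.two (-(Real.pi / 4)) (Real.pi / 4) (3 * Real.pi / 4) (5 * Real.pi / 4)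
      (by linarith) (by linarith) (by linarith) (by linarith)) ?_
    rw [image_union, hR, hL, union_comm]
  | bt =>
    refine gen _ _ (AttSet.two (Real.pi / 4) (3 * Real.pi / 4) (5 * Real.pi / 4) (7 * Real.pi / 4)
      (by linarith) (by linarith) (by linarith) (by linarith)) ?_
    rw [image_union, hT, hB, union_comm]
  | all =>
    refine gen _ _ AttSet.full ?_
    rw [ratt_full, ← ratt_union (show -(Real.pi / 4) ≤ 5 * Real.pi / 4 by linarith)
      (show 5 * Real.pi / 4 ≤ 7 * Real.pi / 4 by linarith),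
      ← ratt_union (show -(Real.pi / 4) ≤ 3 * Real.pi / 4 by linarith)
      (show 3 * Real.pi / 4 ≤ 5 * Real.pi / 4 by linarith),
      ← ratt_union (show -(Real.pi / 4) ≤ Real.pi / 4 by linarith)
      (show Real.pi / 4 ≤ 3 * Real.pi / 4 by linarith), image_union, image_union, image_union, hL,
      hT, hR, hB]
    ext z
    simp only [mem_union]
    tauto

end Pool.Agent.SRF
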