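import Pool.Agent.SRF.Defs
import Pool.Agent.SRF.Problem

set_option autoImplicit false

/-! # SRF, Part VI: from the topological theorem to the Borel reduction (statements; proofs in the
comments)

Every `St_X` is proved in `Pool/Agent/SRF/X.lean` as `theorem thm_X (hypotheses) : St_X`. -/

open Set Metric Filter Topology TopologicalSpace

namespace Pool.Agent.SRF

/-- The topological theorem for connected surfaces (result of Parts I-V). -/
def St_CONN : Prop := ∀ (X Y : Type) [TopologicalSpace X] [TopologicalSpace Y], IsSurf X → IsSurf Y →
  ConnectedSpace X → ConnectedSpace Y → Nonempty ((X × Circle) ≃ₜ (Y × Circle)) →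
  Nonempty (X ≃ₜ Y)

/-- The topological theorem for all surfaces. -/
def St_TOP : Prop := ∀ (X Y : Type) [TopologicalSpace X] [TopologicalSpace Y], IsSurf X → IsSurf Y →
  Nonempty ((X × Circle) ≃ₜ (Y × Circle)) → Nonempty (X ≃ₜ Y)

/-- CMP. From connected surfaces to all surfaces. Needs: CONN.

Let `H : X × Circle ≃ₜ Y × Circle`. `X`, `Y` are locally connected (charts), so their connected
components are open, and they are surfaces (an open subset of a surface is a surface: compose a
chart with an open embedding of the plane onto a small ball, e.g. `z ↦ r z / (1 + |z|)`), connected.
The connected component of `(x, s)` in `X × Circle` is `connectedComponent x ×ˢ univ` (connected as a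
product, and every connected set containing `(x, s)` projects into `connectedComponent x`). So
`H` maps `connectedComponent x ×ˢ univ` onto `connectedComponent y ×ˢ univ` for `y = (H (x, 1)).1`;
restricting, `connectedComponent x × Circle ≃ₜ connectedComponent y × Circle`, and by `St_CONN` there
is a homeomorphism of `connectedComponent x` onto `connectedComponent y`. `ConnectedComponents X →
ConnectedComponents Y`, `[x] ↦ [(H (x, 1)).1]` is a bijection (inverse: the same map for `H⁻¹`).
Choose for every component of `X` a homeomorphism onto the corresponding component of `Y`; their
union is a bijection `X → Y` which is continuous with continuous inverse because the components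
are open. (Handy: `X ≃ₜ Σ c : ConnectedComponents X, (ConnectedComponents.mk ⁻¹' {c})` since the
fibres are open; and a sigma of homeomorphisms over a bijection of the index sets.) -/
def St_CMP : Prop := St_TOP

/-- URY. Universality of the Urysohn space. Needs: nothing.

Let `y : ℕ → Y` be a dense sequence (if `Y` is empty, there is nothing to do; `U` is nonempty by the
extension property for `A = ∅`). Construct `u : ℕ → U` with `dist (u i) (u j) = dist (y i) (y j)` for
all `i, j` recursively: given `u 0, ..., u (n-1)`, let `A` be their set and let `f (u i) = dist (y n) (y i)`
(well defined because `u i = u j` implies `y i = y j`; choose any preimage index, `0` off `A`). The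
hypothesis of the extension property is the triangle inequality in `Y`. (In Lean: strong recursion
on finite isometries, e.g. build functions `v_n : ℕ → U` with the property for indices `< n`,
`v_{n+1} = Function.update v_n n u` by choice, so that `v_{n+1} i = v_n i` for `i < n`, and put
`u i = v_{i+1} i`.) The map `y i ↦ u i` is an isometry of the dense subset `range y` into the
complete space `U`; it extends to an isometry of `Y` (uniformly continuous extension:
`DenseRange`, `IsDenseInducing.extend`, or `Isometry` on closures; the extension of an isometry is an
isometry by density). -/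
def St_URY : Prop := ∀ (U Y : Type) [MetricSpace U] [MetricSpace Y], IsUrysohn U →
  SeparableSpace Y → ∃ j : Y → U, Isometry j

/-- MAN. Manifolds and surfaces. Needs: nothing.

(1) Let `x : X`, `e` the chart, `x ∈ e.source`. `EuclideanSpace ℝ (Fin 2)` is homeomorphic to `ℂ` (both
are real vector spaces of dimension 2: `ContinuousLinearEquiv.ofFinrankEq`). Let `ball (e x) r ⊆
e.target`; `σ z = e x + r z / (1 + |z|)` (with `z ∈ ℂ` moved to the Euclidean space; the norms are
equivalent, so take `r` small enough) is an open embedding of the plane onto an open subset of
`e.target` with `σ 0 = e x`, and `φ = e.symm ∘ σ`.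
(2) The product of a chart of `X` and a chart of `Circle` (e.g.
`chartAt (EuclideanSpace ℝ (Fin 1)) s` for the Mathlib charted space structure on `Circle`, or the
local inverse of `Circle.exp`), composed with a homeomorphism
`EuclideanSpace ℝ (Fin 2) × EuclideanSpace ℝ (Fin 1) ≃ₜ EuclideanSpace ℝ (Fin 3)`
(`ContinuousLinearEquiv.ofFinrankEq`). Hausdorff and second countable: products.
(3) Transport the charts (`Homeomorph.toOpenPartialHomeomorph`, `trans`). -/
def St_MAN : Prop :=
  (∀ (X : Type) [TopologicalSpace X], IsManifold 2 X → IsSurf X) ∧
  (∀ (X : Type) [TopologicalSpace X], IsManifold 2 X → IsManifold 3 (X × Circle)) ∧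
  (∀ (n : ℕ) (X Y : Type) [TopologicalSpace X] [TopologicalSpace Y], Nonempty (X ≃ₜ Y) →
    IsManifold n X → IsManifold n Y)

/-- EFF. The reduction. Needs: nothing.

`j` is an isometry of the complete space `U × Circle` (sup metric) into `U`, so it is a closed
embedding (`Isometry.isClosedEmbedding`, needs completeness of `U × Circle`: `U` complete, `Circle`
compact). `f F` = the closed set `j '' (F ×ˢ univ)`. It is homeomorphic to `F × Circle` (the product
set `F ×ˢ univ` as a subspace is homeomorphic to `F × Circle`, and `j` is an embedding).
Measurability (`measurable_generateFrom`): for an open `V` the set of all `F` such that `f F` meets `V` is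
the set of all `F` which meet `Prod.fst '' (j ⁻¹' V)`, and this set is open since the projection is an
open map. -/
def St_EFF : Prop := ∀ (U : Type) [MetricSpace U], CompleteSpace U → ∀ j : U × Circle → U,
  Isometry j → ∃ f : Closeds U → Closeds U, @Measurable _ _ (effros U) (effros U) f ∧
    ∀ F : Closeds U, Nonempty (↥(f F) ≃ₜ (↥F × Circle))

/-- FIN6. Assembly. Needs: TOP, URY, MAN, EFF.

`U × Circle` is separable; URY gives the isometry `j`, EFF the map `f`. For `F ∈ M_2` the set `f F` is
homeomorphic to `F × Circle`, so it is in `M_3` (MAN (2), (3)). The restricted map is measurable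
(the structures on `M_2` and `M_3` are comaps). If `F ≃ₜ G`, then `F × Circle ≃ₜ G × Circle`, so
`f F ≃ₜ f G`; conversely, if `f F ≃ₜ f G`, then `F × Circle ≃ₜ G × Circle` and `F ≃ₜ G` by TOP and
MAN (1). -/
def St_FIN6 : Prop := ∀ (U : Type) [MetricSpace U], IsUrysohn U → Question U

end Pool.Agent.SRF
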