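import Pool.Agent.SRF.Defs

set_option autoImplicit false

/-! # SRF, Part I: plane topology (statements; the proof of each is in its comment)

Every `St_X` is proved in `Pool/Agent/SRF/X.lean` as `theorem thm_X (hypotheses) : St_X`. The
hypotheses are the statements named in the comment (Needs). Statements of the library
`Pool.Agent.CT` (`Stmt_InvDom`, `Stmt_HoloInv`, ...) are theorems on main (`Pool.Agent.CT.h1 :
Stmt_InvDom` in `Pool/Agent/CT/H1.lean`, and so on); they may be used directly by importing the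
file. -/

open Set Metric Filter Topology

namespace Pool.Agent.SRF

/-! ## Logarithms -/

/-- LOGB. Basic facts on logarithms. Needs: nothing.

(1) If `h` is continuous on the circle `sphere c r` and `exp (h z) = z - c` there, put
`u t = h (c + r exp (i t)) - i t` for `t` in `[0, 2 pi]`: `exp (u t) = r`, so `u` is continuous
with values in a discrete set (`Real.log r + 2 pi i k`), hence constant; but
`u (2 pi) = u 0 - 2 pi i`.
(2) `exp` is a covering of the plane minus `0` and the plane is simply connected: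
`Complex.isCoveringMapOn_exp.existsUnique_continuousMap_lifts` exactly as in Mathlib
`Mathlib/Analysis/Complex/BranchLogRoot.lean` (or that theorem with `U = univ`).
(3) Compose with the retraction `z -> c + min 1 (r / |z - c|) (z - c)` onto the closed ball and use
(2); the empty ball is trivial.
(4) `f (alpha (proj_{[0,1]} (re z)))` is continuous without zeros on the plane, so it has a
logarithm `h` by (2); `alpha` is injective and continuous on the compact `[0,1]`, so it has an
inverse `beta` continuous on `alpha '' Icc 0 1`; take `w -> h (beta w)`.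
(5) On `K ∩ L` the difference of the two logarithms is continuous with values in `2 pi i Z`, so it
is constant there (preconnected; if it is empty, take `0`); change the second one by this constant
and glue on the two closed sets.
(6) `f / g` takes values in the ball of radius 1 about 1, where `Complex.log` is continuous. -/
def St_LOGB : Prop :=
  (∀ (c : ℂ) (r : ℝ), 0 < r → ¬ HasLog (fun z => z - c) (sphere c r)) ∧
  (∀ f : ℂ → ℂ, Continuous f → (∀ z, f z ≠ 0) →
    ∃ h : ℂ → ℂ, Continuous h ∧ ∀ z, Complex.exp (h z) = f z) ∧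
  (∀ (c : ℂ) (r : ℝ), LogSet (closedBall c r)) ∧
  (∀ α : ℝ → ℂ, IsArc α → LogSet (α '' Icc 0 1)) ∧
  (∀ (f : ℂ → ℂ) (K L : Set ℂ), IsClosed K → IsClosed L → IsPreconnected (K ∩ L) →
    HasLog f K → HasLog f L → HasLog f (K ∪ L)) ∧
  (∀ (f g : ℂ → ℂ) (K : Set ℂ), ContinuousOn f K → ContinuousOn g K →
    (∀ z ∈ K, ‖f z - g z‖ < ‖g z‖) → (HasLog g K ↔ HasLog f K))

/-- MOVE. Moving points. Needs: nothing.

(2) By induction on the finite set it is enough to remove one point `z` of `W` (open). Let
`ball z r ⊆ W`. The punctured ball is preconnected (image of `(0, r) x circle`). If `W \ {z}` is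
covered by two disjoint (on `W \ {z}`) open sets `A`, `B`, the punctured ball lies in one of them,
say `A`; then `A ∪ ball z r` and `B \ closedBall`... more simply: `(A ∩ W) ∪ {z}` is open and
`B ∩ W \ {z}` is open, they are disjoint and cover `W`, so one of them is empty.
(1) Local step: if `ball p ρ ⊆ W` and `q ∈ ball p ρ`, then
`χ z = z + max 0 (1 - |z - p| / ρ) (q - p)` is the identity plus a Lipschitz map with constant
`|q - p| / ρ < 1`, so it is a homeomorphism of the plane (`ApproximatesLinearOn.toHomeomorph` with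
the identity); it is the identity off the ball, and `χ p = q`. The relation `there is χ with
χ p = q, χ = id off W` is an equivalence relation on `W` (composition, inverse: `χ` maps `W` to
`W`), its classes are open, and `W` is preconnected. -/
def St_MOVE : Prop :=
  (∀ W : Set ℂ, IsOpen W → IsPreconnected W → ∀ p ∈ W, ∀ q ∈ W,
    ∃ χ : ℂ ≃ₜ ℂ, (∀ z, z ∉ W → χ z = z) ∧ χ p = q) ∧
  (∀ W : Set ℂ, IsOpen W → IsPreconnected W → ∀ Z : Set ℂ, Z.Finite → IsPreconnected (W \ Z))

/-- FINZ. A function with finitely many zeros. Needs: LOGB, MOVE.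

Induction on the number of zeros of `F` in the plane. No zeros: LOGB (2). Let the zeros be
`{z₀} ∪ Z'` with `z₀ ∉ Z'`. They are not in `K`. Choose `R` with `K ∪ Z' ⊆ ball 0 R` and `q` with
`|q| > R`. The set `W = Kᶜ \ Z'` is open and preconnected (MOVE (2)) and contains `z₀` and `q`; let
`χ` be the homeomorphism of MOVE (1), `χ z₀ = q`, `χ = id` on `K ∪ Z'`. `F₁ = F ∘ χ⁻¹` has the zeros
`{q} ∪ Z'` and equals `F` on `K`. Let `ρ` be the retraction `z -> min 1 (R/|z|) z` of the plane onto
`closedBall 0 R`; `F₂ = F₁ ∘ ρ` equals `F` on `K` and its zeros are exactly the points of `Z'` (if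
`ρ z ∈ Z'`, then `|ρ z| < R`, so `ρ z = z`; and `ρ z ≠ q`). By induction `F₂` has a logarithm on
`K`, so `F` has. -/
def St_FINZ : Prop := ∀ K : Set ℂ, IsCompact K → IsPreconnected Kᶜ → ∀ F : ℂ → ℂ, Continuous F →
  {z | F z = 0}.Finite → (∀ z ∈ K, F z ≠ 0) → HasLog F K

/-- APX. Approximation by functions with finitely many zeros. Needs: nothing.

`Continuous.exists_contDiff_approx` (Mathlib, `n = 1`) gives `G₀` of class `C¹` (over the reals)
with `|G₀ - F| < c / 2` everywhere. Sard:
`MeasureTheory.addHaar_image_eq_zero_of_det_fderivWithin_eq_zero` on the set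
`{z | (fderiv ℝ G₀ z).det = 0}`: its image has measure zero, so there is `w` with `|w| < c / 2` not
in the image. `G₁ = G₀ - w`: at every zero of `G₁` the derivative is invertible, so the zero is
isolated (strict derivative, inverse function theorem:
`HasStrictFDerivAt.eventually_left_inverse`, or local injectivity). So the zero set of `G₁` is
closed and discrete, hence finite in `closedBall 0 (R + 1)`. Choose `R'` in `(R, R + 1)` such that
no zero has `|z| = R'` (finitely many zeros, infinitely many `R'`), and put `G = G₁ ∘ ρ` with the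
retraction `ρ` of the plane onto `closedBall 0 R'`: the zeros of `G` are the zeros of `G₁` in
`ball 0 R'`, and `G = G₁` on `closedBall 0 R`. -/
def St_APX : Prop := ∀ F : ℂ → ℂ, Continuous F → ∀ c : ℝ, 0 < c → ∀ R : ℝ, 0 < R →
  ∃ G : ℂ → ℂ, Continuous G ∧ (∀ z ∈ closedBall (0 : ℂ) R, ‖G z - F z‖ < c) ∧
    {z | G z = 0}.Finite

/-- BE. Borsuk-Eilenberg: a compact set which does not separate the plane is a log set.
Needs: LOGB, FINZ, APX.

`K` empty is trivial. Let `f` be continuous without zeros on `K`. Tietze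
(`ContinuousMap.exists_restrict_eq`, `K` is closed) extends it to a continuous `F` on the plane.
`c = min_K |f| > 0`, `K ⊆ closedBall 0 R`. Take `G` from APX. On `K`: `|G - f| < c ≤ |f|`, so `G`
has no zero on `K`; FINZ gives a logarithm of `G` on `K`, and LOGB (6) (roles: `g := f`, `f := G`)
one of `f`. -/
def St_BE : Prop := ∀ K : Set ℂ, IsCompact K → IsPreconnected Kᶜ → LogSet K

/-- EC. Eilenberg's criterion. Needs: LOGB.

Facts: components of the open set `Kᶜ` are open, their frontier lies in `K`; `{z | R < |z|}` is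
connected, so with `K ⊆ closedBall 0 R` it lies in one component of `Kᶜ`, and every unbounded
component is this one.
First part, (<-). Let `S` be the set of `y ∉ K` such that `(z - x)/(z - y)` has a logarithm on `K`.
If `ball y ρ` misses `K` and `|y' - y| < ρ`, then `(z - y')/(z - y) = 1 + (y - y')/(z - y)` is in the
ball of radius 1 about 1 for `z ∈ K`, so it has a logarithm (`Complex.log`) and
`y ∈ S <-> y' ∈ S`. So `S` and `Kᶜ \ S` are open, `x ∈ S`, and the component of `x` lies in `S`.
(->). Suppose `y` is not in the component of `x`. The components of `x` and `y` are different, so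
one of them is bounded; exchanging `x` and `y` (the function is replaced by its inverse) we may
assume that `V`, the component of `x`, is bounded; `y ∉ closure V` (its frontier is in `K`). Extend
the logarithm `h` to a continuous function `H` on the plane (Tietze). Put
`G z = (z - y) exp (H z)` for `z ∈ closure V` and `G z = z - x` for `z ∉ V`: on the frontier of `V`
(in `K`) both are equal to `z - x`. `G` is continuous without zeros on the plane, so it has a
continuous logarithm (LOGB (2)); on a circle about `x` which surrounds `V` this is a logarithm of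
`z - x`: contradiction with LOGB (1).
Second part. Choose `y` with `|y| > R`. On `K`: `z - y = -y (1 - z / y)` has a logarithm, so
`z - x` has one iff `(z - x)/(z - y)` has one iff `y` is in the component of `x` iff this component
is unbounded. -/
def St_EC : Prop :=
  (∀ K : Set ℂ, IsCompact K → ∀ x y : ℂ, x ∉ K → y ∉ K →
    (HasLog (fun z => (z - x) / (z - y)) K ↔ y ∈ connectedComponentIn Kᶜ x)) ∧
  (∀ K : Set ℂ, IsCompact K → ∀ x : ℂ, x ∉ K →
    (HasLog (fun z => z - x) K ↔ ¬ Bornology.IsBounded (connectedComponentIn Kᶜ x)))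

/-- JAN. Janiszewski's theorem and consequences. Needs: LOGB, EC.

(1) EC (first part) and LOGB (5) for the function `(z - x)/(z - y)`.
(2) For `x ∉ K` the function `z - x` has a logarithm on `K`, so the component of `x` in `Kᶜ` is
unbounded (EC, second part); there is only one unbounded component (see the comment of EC), so
`Kᶜ` is connected; it is nonempty since `K` is bounded.
(3) LOGB (5).
(4) Arcs have empty interior: if `closedBall c r ⊆ α '' Icc 0 1`, `r > 0`, let `S = sphere c r`. The
preimage of `S` in `[0,1]` is compact and, being the image of `S` under the continuous inverse of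
`α`, connected: `[u, v]` with `u < v`. Let `m = (u+v)/2`: `[u,v] \ {m}` is not preconnected, but
`S \ {α m}` is connected (image of an open interval): contradiction. -/
def St_JAN : Prop :=
  (∀ K L : Set ℂ, IsCompact K → IsCompact L → IsPreconnected (K ∩ L) → ∀ x y : ℂ,
    x ∉ K ∪ L → y ∉ K ∪ L → y ∈ connectedComponentIn Kᶜ x → y ∈ connectedComponentIn Lᶜ x →
    y ∈ connectedComponentIn (K ∪ L)ᶜ x) ∧
  (∀ K : Set ℂ, IsCompact K → LogSet K → IsConnected Kᶜ) ∧
  (∀ K L : Set ℂ, IsClosed K → IsClosed L → IsPreconnected (K ∩ L) → LogSet K → LogSet L →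
    LogSet (K ∪ L)) ∧
  (∀ α : ℝ → ℂ, IsArc α → interior (α '' Icc 0 1) = ∅)

/-- JSEP. A Jordan curve separates the plane, and it is the frontier of every component of its
complement. Needs: LOGB, BE, JAN.

Let `J = γ '' UC`. (1) If `Jᶜ` is preconnected, BE says that `J` is a log set. The inverse of `γ` on
`J` (continuous, `UC` is compact) has a logarithm `h` on `J`; then `h ∘ γ` is a logarithm of `z` on
`UC`, contradiction with LOGB (1).
(2) Let `V` be the component of `x`; it is open and its frontier lies in `J`. Suppose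
`γ ζ₀ ∉ frontier V`, `ζ₀ ∈ UC`. The frontier is closed, so an open arc of `UC` about `ζ₀` is mapped
into its complement; the rest of `UC` is a closed arc, its image `A` is an arc (`IsArc` after
reparametrisation by `[0,1]`) and `frontier V ⊆ A`. By LOGB (4) and JAN (2), `Aᶜ` is connected. `V`
is contained in `Aᶜ`, open, and closed in `Aᶜ` (its frontier is in `A`), nonempty, so `V = Aᶜ`. But
`γ ζ₀ ∈ Aᶜ` is not in `V`, contradiction.
(3) By (1) there are two different components, and only one component is unbounded (see EC). -/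
def St_JSEP : Prop := ∀ γ : ℂ → ℂ, IsJordan γ →
  (¬ IsPreconnected (γ '' UC)ᶜ) ∧
  (∀ x, x ∉ γ '' UC → frontier (connectedComponentIn (γ '' UC)ᶜ x) = γ '' UC) ∧
  (∃ x, x ∉ γ '' UC ∧ Bornology.IsBounded (connectedComponentIn (γ '' UC)ᶜ x))

/-- HLOG. Bounded open connected sets with connected complement are log sets. Needs: BE.

`V` empty is trivial; let `f` be continuous without zeros on `V`, `p₀ ∈ V`, `exp c₀ = f p₀`.
(a) For compact `C ⊆ V` let `Ĉ` be the complement of the unbounded component of `Cᶜ` (the component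
which contains `{z | R < |z|}` for large `R`). `Ĉ` is compact, `C ⊆ Ĉ`, its complement is connected.
`Vᶜ` is preconnected, contains `{z | R < |z|}` for large `R` (`V` is bounded) and lies in `Cᶜ`, so it
lies in the unbounded component: `Ĉ ⊆ V`. By BE `f` has a logarithm on `Ĉ`, hence on `C`.
(b) If `C` is moreover preconnected and `p₀ ∈ C`, there is exactly one logarithm `h_C` of `f` on `C`
with `h_C p₀ = c₀` (two logarithms differ by a continuous function with values in `2 pi i Z`).
(c) `V` is open and connected, so it is path connected: every `z ∈ V` lies with `p₀` in a compact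
connected `C ⊆ V` (range of a path). Put `h z = h_C z`. This does not depend on `C`: for `C`, `C'`
use `C ∪ C'` (connected, both contain `p₀`) and uniqueness. Continuity at `z`: let
`closedBall z r ⊆ V`; `C' = C ∪ closedBall z r` is compact connected, and `h = h_{C'}` on the ball. -/
def St_HLOG : Prop := ∀ V : Set ℂ, IsOpen V → IsPreconnected V → Bornology.IsBounded V →
  IsPreconnected Vᶜ → LogSet V

/-- RMTV. Riemann mapping theorem for bounded open connected log sets. Needs: nothing (uses
`Pool.Agent.CT` h4, h5, h6: Montel, Hurwitz, inverse of injective holomorphic maps).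

Copy the proofs of `Pool/Agent/CT/H7.lean` (Koebe's square root step) and
`Pool/Agent/CT/H8.lean`; the only place where simple connectedness is used there is the existence
of a continuous square root of a nonvanishing holomorphic function on `V`
(`Complex.exists_continuousOn_pow_eq` in `H7.lean`), which is here `exp (h / 2)` with `h` from the
hypothesis `LogSet V` (outside `V` choose any values), and path connectedness, which is here a
hypothesis. -/
def St_RMTV : Prop := ∀ V : Set ℂ, IsOpen V → IsConnected V → Bornology.IsBounded V → LogSet V →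
  ∀ p ∈ V, ∃ f : ℂ → ℂ, DifferentiableOn ℂ f OD ∧ InjOn f OD ∧ f '' OD = V ∧ f 0 = p

/-- CARC. Caratheodory for Jordan domains, continuity. Needs: JAN, JSEP (and `Pool.Agent.CT` h6,
h10).

Let `J = γ '' UC`, `V` the component, `g : V → OD` the inverse of `f` (holomorphic, h6), so `f` is a
homeomorphism of `OD` onto `V`; `frontier V = J` by JSEP.
Step 1. For every `η > 0` there is `δ > 0` such that every nonempty `E ⊆ J` with diameter `≤ δ`
(i.e. any two points have distance `≤ δ`) lies in a compact connected `A ⊆ J` whose points have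
mutual distances `≤ η`: `γ` and its inverse on `J` are uniformly continuous. If `γ ζ₀ ∈ E`, the
preimage of `E` lies in `UC ∩ closedBall ζ₀ η'`, which is a closed arc of the circle (connected,
image of an interval of angles); `A` is its image under `γ`.
Step 2. Fix `ζ ∈ UC` and `ε > 0`; let `η, δ ≤ η` be small with `δ + η < ε` and
`δ + η < dist (f 0) J`. h10 (`Stmt_Crosscut`) gives `0 < r < 1/2` such that the points of `f '' C_r`,
`C_r = OD ∩ sphere ζ r`, have mutual distances `≤ δ`. `C_r` is an open arc of a circle (connected),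
closed in `OD`; `Γ₀ = closure (f '' C_r)` is compact, connected, with mutual distances `≤ δ`, and
`Γ₀ ∩ V = f '' C_r` (`f` is a homeomorphism `OD → V`). `Γ₀` meets `J`: take `z_n ∈ C_r` converging to a
point of `UC`; a limit point of `f z_n` cannot be in `V` (continuity of `g`), so it is in
`closure V \ V = J`. Let `E = Γ₀ ∩ J`, `A` from Step 1, `Γ = Γ₀ ∪ A`: compact, contained in
`closedBall a (δ + η)` for every `a ∈ E`; `J ∩ Γ = A` is connected.
Step 3. Claim: `f z₁ ∈ closedBall a (δ + η)` for all `z₁ ∈ OD ∩ ball ζ r`. Suppose not and put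
`x = f z₁`, `y = f 0`: both are outside `closedBall a (δ + η)` (for `y`: `a ∈ J`). They are in the
same component of `Jᶜ` (namely `V`) and in the same component of `Γᶜ` (the complement of a closed
ball is connected). By JAN (1) they are in the same component `U` of `(J ∪ Γ)ᶜ`. `U` is connected,
in `Jᶜ`, so `U ⊆ V`, and `U` misses `f '' C_r`. So `g '' U ⊆ OD` is connected, misses `sphere ζ r`
and contains `z₁` and `0`; but `|z₁ - ζ| < r < 1 = |0 - ζ|`: contradiction.
Step 4. So `f` has a limit at every `ζ ∈ UC` (Cauchy filter), and `F = extendFrom OD f` is continuous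
on `closure OD = CD` (`continuousOn_extendFrom`). `F '' UC ⊆ J`: limits of `f z_n`, `z_n → ζ ∈ UC`,
are not in `V` (as in Step 2) and in `closure V`. `F '' CD` is compact and contains `V`, so it contains
`closure V ⊇ J`; `F '' OD = V` misses `J`. -/
def St_CARC : Prop := ∀ γ : ℂ → ℂ, IsJordan γ → ∀ x, x ∉ γ '' UC →
  Bornology.IsBounded (connectedComponentIn (γ '' UC)ᶜ x) → ∀ f : ℂ → ℂ,
  DifferentiableOn ℂ f OD → InjOn f OD → f '' OD = connectedComponentIn (γ '' UC)ᶜ x →
  ∃ F : ℂ → ℂ, ContinuousOn F CD ∧ EqOn F f OD ∧ F '' UC = γ '' UC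

/-- CARI. Caratheodory for Jordan domains, injectivity on the circle. Needs: JSEP (and
`Pool.Agent.CT` h12, `Stmt_ArcConst`, and invariance of domain or the open mapping theorem for
`F '' OD`).

Let `J = γ '' UC`, `V = F '' OD` (open, connected). Suppose `F ζ₁ = F ζ₂ = a` with `ζ₁ ≠ ζ₂` on `UC`;
`a ∈ J`. Let `κ : [0,1] → CD`, `κ t = (1 - 2 t) ζ₁` for `t ≤ 1/2`, `(2 t - 1) ζ₂` for `t ≥ 1/2`; `F ∘ κ`
is injective on `[0,1)` and `F (κ 0) = F (κ 1) = a`; so `C = F '' (κ '' Icc 0 1)` is a Jordan curve
(`IsJordan`, parametrise by `exp (2 pi i t) ↦ F (κ t)`), and `C \ {a} ⊆ V`. The complement in `OD`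
of the two radii is `S₁ ∪ S₂`, two open sectors (connected), `S_k = {ρ exp (i t) : 0 < ρ < 1,
t ∈ T_k}`, `T_k` an open interval, and the open arcs `I_k = {exp (i t) : t ∈ T_k}` lie in the closure
of `S_k`. By JSEP for `C`: `Cᶜ` has at least two components, and each has frontier `C`. Let `W` be
a component of `Cᶜ` and `x = F 0 ∈ C ∩ V`: `W` meets the neighbourhood `V` of `x`, and
`V \ C = F '' S₁ ∪ F '' S₂` (disjoint from `C` by injectivity), so `W` meets, hence contains,
`F '' S₁` or `F '' S₂`. So there are exactly two components `W₁ ⊇ F '' S₁`, `W₂ ⊇ F '' S₂`.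
`J \ {a}` is connected (image of the circle minus a point) and misses `C`, so it lies in `W₁` or
`W₂`; say `W₁` (the other case is symmetric). Then `F '' I₂ ⊆ J ∩ closure W₂ ⊆ J ∩ (W₂ ∪ C) ⊆ {a}`:
`F` is constant `= a` on an arc, so `F 0 = a` by h12; but `F 0 ∈ V` and `a ∈ J`: contradiction. -/
def St_CARI : Prop := ∀ γ : ℂ → ℂ, IsJordan γ → ∀ F : ℂ → ℂ, ContinuousOn F CD →
  DifferentiableOn ℂ F OD → InjOn F OD → Disjoint (F '' OD) (γ '' UC) → F '' UC = γ '' UC →
  InjOn F UC

/-- JD. The closure of a bounded component is a closed disc. Needs: JSEP, HLOG, RMTV, CARC, CARI.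

`J = γ '' UC`, `V` the component. `Vᶜ` is the union of `J` (connected) and of the other components
`W` of `Jᶜ`, and `W ∪ J` is connected (`J = frontier W`, so `W ⊆ W ∪ J = closure W`); so `Vᶜ` is
preconnected (`isPreconnected_sUnion` with a point of `J`). HLOG: `V` is a log set. RMTV: `f` with
`f 0 = x`. CARC: `F`. CARI: `F` is injective on `UC`; it is injective on `OD`, and
`F '' OD = V` and `F '' UC = J` are disjoint. -/
def St_JD : Prop := ∀ γ : ℂ → ℂ, IsJordan γ → ∀ x, x ∉ γ '' UC →
  Bornology.IsBounded (connectedComponentIn (γ '' UC)ᶜ x) →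
  ∃ F : ℂ → ℂ, ContinuousOn F CD ∧ InjOn F CD ∧ F '' OD = connectedComponentIn (γ '' UC)ᶜ x ∧
    F '' UC = γ '' UC ∧ F 0 = x

/-- RADH. Radial extension of a circle map. Needs: nothing (uses `Pool.Agent.CT.h1` invariance of
domain).

`c z = |z| b (z / |z|)`, `c 0 = 0`. It is continuous (at `0` because `|c z| = |z|`), injective, and
norm preserving, hence proper (closed map). Its image is open (invariance of domain,
`Stmt_InvDom` applied to small closed discs after scaling) and closed, so it is everything; a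
continuous closed bijection is a homeomorphism. -/
def St_RADH : Prop := ∀ b : ℂ → ℂ, ContinuousOn b UC → InjOn b UC → MapsTo b UC UC →
  ∃ c : ℂ ≃ₜ ℂ, EqOn c b UC ∧ ∀ z, ‖c z‖ = ‖z‖

/-- UNIQ. There is only one bounded component. Needs: JD, RADH (and `Pool.Agent.CT.h1`).

Suppose `V ≠ V'` are two bounded components of `Jᶜ`, `F`, `F'` the maps from JD. On `UC` let
`b = F'⁻¹ ∘ F` (maps `UC` to `UC`, continuous and injective), `c` its extension from RADH (it
preserves norms). Let `Φ z = F z` for `|z| ≤ 1` and `Φ z = F' (c (1 / conj z))` for `|z| ≥ 1`: for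
`|z| = 1` one has `1 / conj z = z` and `F' (b z) = F z`. `Φ` is continuous and injective on the plane
(`F '' OD = V`, `F' '' OD = V'` are disjoint). The set `T = V ∪ J ∪ V' = F '' CD ∪ F' '' CD` is
compact and nonempty. It is open: points of `V`, `V'` are interior, and a point `F ζ = Φ ζ`,
`ζ ∈ UC`, is interior to the image of a small closed disc about `ζ` under `Φ` (invariance of domain,
`Stmt_InvDom` after scaling), which lies in `T`. The plane is connected and not compact:
contradiction. -/
def St_UNIQ : Prop := ∀ γ : ℂ → ℂ, IsJordan γ → ∀ x y, x ∉ γ '' UC → y ∉ γ '' UC →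
  Bornology.IsBounded (connectedComponentIn (γ '' UC)ᶜ x) →
  Bornology.IsBounded (connectedComponentIn (γ '' UC)ᶜ y) →
  connectedComponentIn (γ '' UC)ᶜ x = connectedComponentIn (γ '' UC)ᶜ y

/-- SCH. Schoenflies' theorem, with parametrisation. Needs: JSEP, JD, UNIQ, RADH, MOVE.

`J = γ '' UC`. Let `V` be the bounded component (JSEP (3)), `F` from JD (any base point `p ∈ V`,
`F 0 = p`). `ι z = 1 / (z - p)` is a homeomorphism of the plane minus `p` onto the plane minus `0`;
`γ' = ι ∘ γ` is a Jordan curve with image `J'`. Let `U` be the unbounded component of `Jᶜ` (it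
contains `{z | R < |z|}`). `V' = ι '' U ∪ {0}` is open, connected, bounded (`U` has positive distance
from `p`), misses `J'`. It is the component of `0` in `J'ᶜ`: if `W` is this component, then
`V' ⊆ W`, `W \ {0}` is connected (MOVE (2)), it meets `ι '' U`, and its preimage under `ι` is connected
in `Jᶜ`, so it is in `U`. JD for `γ'` and the point `0` gives `F'` with `F' 0 = 0`. For `|z| ≥ 1` put
`E z = p + 1 / F' (1 / conj z)` (`F' w ≠ 0` for `0 < |w| ≤ 1`). `E` is continuous and injective on
`{|z| ≥ 1}`, `E '' UC = J`, `E '' {|z| > 1} = U`, and `|E z| → ∞` for `|z| → ∞`. By UNIQ and since there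
is only one unbounded component, `Jᶜ = V ∪ U`.
On `UC` let `b₁ = F⁻¹ ∘ γ`, `b₂ = E⁻¹ ∘ γ` (continuous injective maps of `UC` to itself), `c₁`, `c₂`
their extensions by RADH. Put `g z = F (c₁ z)` for `|z| ≤ 1`, `g z = E (c₂ z)` for `|z| ≥ 1`. On `UC`
both are `γ z`. `g` is a continuous bijection of the plane with `|g z| → ∞` for `|z| → ∞`, hence a
closed map, hence a homeomorphism. -/
def St_SCH : Prop := ∀ γ : ℂ → ℂ, IsJordan γ → ∃ g : ℂ ≃ₜ ℂ, ∀ z ∈ UC, g z = γ z

/-- A crosscut of the closed disc `g '' CD`, parametrised by `[0,1]`. -/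
structure IsCross (g : ℂ ≃ₜ ℂ) (β : ℝ → ℂ) : Prop where
  arc : IsArc β
  e0 : β 0 ∈ g '' UC
  e1 : β 1 ∈ g '' UC
  mid : ∀ t ∈ Ioo (0 : ℝ) 1, β t ∈ g '' OD

/-- TH. Crosscuts (theta lemma). Needs: SCH.

Conjugating with `g` we may assume `g = id`. Let `u = β 0 ≠ v = β 1` in `UC`, `UC = A₁ ∪ A₂` the two
closed arcs between them, `A₁ ∩ A₂ = {u, v}`. Let `γ₁ = id` on `A₁` and `γ₁ = β ∘ τ₁` on `A₂`, where
`τ₁ : A₂ → [0,1]` is a homeomorphism (proportional to the angle) with `τ₁ u = 0`, `τ₁ v = 1`:
a Jordan curve with image `J₁ = A₁ ∪ β`, `g₁` from SCH. Similarly `γ₂ = id` on `A₂`, `γ₂ = β ∘ τ₂`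
on `A₁`, `J₂ = A₂ ∪ β`, `g₂`. Put `D_i = g_i '' CD`, `B_i = g_i '' OD` (open connected bounded;
`J_iᶜ = B_i ∪ g_i '' CDᶜ`, the second set is connected, open and unbounded), `frontier B_i = J_i`.
(a) `B₁ ⊆ OD \ β`: the connected set `CDᶜ` misses `J₁` and is unbounded, so it lies in
`g₁ '' CDᶜ` (the only other component is bounded); the open arc `A₂ \ {u, v}` is in the closure of
`CDᶜ` and not in `J₁`, so it is in `g₁ '' CDᶜ`, too. So `B₁` misses `CDᶜ ∪ UC` and `β`. Same for
`B₂`.
(b) `B₁ ∩ B₂ = ∅`: `B₁` is connected and misses `J₂`. If it meets `B₂`, then `B₁ ⊆ B₂`, so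
`A₁ ⊆ J₁ = frontier B₁ ⊆ closure B₂ = D₂`; but the open arc `A₁ \ {u, v}` is in `g₂ '' CDᶜ` by (a).
(c) `D₁ ∩ D₂ = J₁ ∩ J₂ = β '' Icc 0 1` (`B₁` misses `D₂` by (a), (b)).
(d) Every point `p` of the open crosscut `β '' Ioo 0 1` has a neighbourhood in `D₁ ∪ D₂`: let `p = g₁ ζ`,
`ζ ∈ UC`, and let `ρ > 0` be so small that `N = g₁ '' ball ζ ρ` misses `A₁ ∪ A₂`. `N ∩ J₁ = N ∩ J₂ =
N ∩ β`, `N \ J₁` is the union of the two connected sets `N₊ = g₁ '' (ball ζ ρ ∩ OD) ⊆ B₁` and
`N₋ = g₁ '' (ball ζ ρ \ CD)`. `p ∈ J₂ = frontier B₂`, so `B₂` meets `N`; it misses `N₊` (b) and `β`, so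
it meets `N₋`, which is connected and misses `J₂`, so `N₋ ⊆ B₂`.
(e) `D₁ ∪ D₂ = CD`: `W = OD \ (D₁ ∪ D₂)` is open, and closed in `OD`: a limit point of `W` in `OD` not
in `W` would be in `D₁ ∪ D₂`, hence in `J₁ ∪ J₂` (`B_i` is open and misses `W`), hence in the open
crosscut, against (d). `OD` is connected and `B₁ ≠ ∅`, so `W = ∅`. And `UC = A₁ ∪ A₂ ⊆ D₁ ∪ D₂`.
Do the same for `β'` (same `τ_i`): `g_i'`, `D_i'`. Put `F = g_i' ∘ g_i⁻¹` on `D_i` and `F = id` off `OD`.
On `A_i`: `F = id`; on `β`: `F (β t) = β' t` for both `i`. The three closed sets `D₁`, `D₂`, `ODᶜ`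
cover the plane, and their intersections are `β`, `A₁`, `A₂` (`D_i ∩ ODᶜ = A_i`), so `F` is well
defined and continuous; the same construction with `β`, `β'` exchanged is its inverse. -/
def St_TH : Prop := ∀ (g : ℂ ≃ₜ ℂ) (β β' : ℝ → ℂ), IsCross g β → IsCross g β' → β 0 = β' 0 →
  β 1 = β' 1 → ∃ F : ℂ ≃ₜ ℂ, (∀ z, z ∉ g '' OD → F z = z) ∧ ∀ t ∈ Icc (0 : ℝ) 1, F (β t) = β' t

/-- JOIN. Joining two arcs outside a compact set. Needs: MOVE.

(A) In an open connected `W ⊆ ℂ` any two points `x ≠ y` are joined by an arc: let `x' ≠ x` be close to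
`x` with `[x, x'] ⊆ W`. `W' = W \ {x}` is open and preconnected (MOVE (2)) and contains `x'` and `y`;
let `χ` be the homeomorphism of MOVE (1) for `W'`, `χ x' = y`, `χ x = x`, `χ W = W`. The arc is
`t ↦ χ (x + t (x' - x))`.
(B) Let `a = α 1`, `b = α' 0`, `a ≠ b`. `Z` has empty interior, so there is `x ∉ Z` very close to `a`;
let `p` be a point of the compact `Z` nearest to `x`. Then `|p - a| ≤ 2 |x - a|`, so `p` is in the
neighbourhood `U` of the hypothesis and `p = α s`; `α '' Icc 0 (1 - ε)` has positive distance from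
`a = α 1` (injectivity), so `s > 1 - ε` if `x` is close enough to `a`. The half open segment
`(p, x]` misses `Z`. Similarly `y` close to `b`, `q = α' t`, `t < ε`, `(q, y]` misses `Z`. If both are
close enough, the segments `P = [p, x]` and `Q = [q, y]` are disjoint (`a ≠ b`).
(C) By (A) there is an arc `κ` in the open connected set `Zᶜ` from `x` to `y`. Let `r₁` be the last
parameter with `κ r₁ ∈ P` and `r₂ ≥ r₁` the first one after `r₁` with `κ r₂ ∈ Q`; `r₁ < r₂`. The
concatenation of the segment from `p` to `κ r₁` (in `P`), `κ` on `[r₁, r₂]` and the segment from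
`κ r₂` to `q` (in `Q`) is injective: this is `β` (parametrised on `[0,1/3]`, `[1/3,2/3]`,
`[2/3,1]`; `κ r₁ ≠ p` and `κ r₂ ≠ q` because `p, q ∈ Z`). -/
def St_JOIN : Prop := ∀ (Z : Set ℂ) (α α' : ℝ → ℂ), IsCompact Z → IsConnected Zᶜ →
  interior Z = ∅ → IsArc α → IsArc α' → α '' Icc 0 1 ⊆ Z → α' '' Icc 0 1 ⊆ Z →
  (∃ U ∈ 𝓝 (α 1), U ∩ Z ⊆ α '' Icc 0 1) → (∃ U ∈ 𝓝 (α' 0), U ∩ Z ⊆ α' '' Icc 0 1) →
  α 1 ≠ α' 0 → ∀ ε : ℝ, 0 < ε → ε < 1 / 2 → ∃ (β : ℝ → ℂ) (s t : ℝ), IsArc β ∧
    1 - ε < s ∧ s ≤ 1 ∧ 0 ≤ t ∧ t < ε ∧ β 0 = α s ∧ β 1 = α' t ∧ ∀ r ∈ Ioo (0 : ℝ) 1, β r ∉ Z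

/-- CHN. A Jordan curve through finitely many disjoint arcs. Needs: LOGB, JAN, JOIN.

(A) Claim `P(n)`: for disjoint arcs `α_0, ..., α_n` and `0 < ε < 1/2` there are an arc `A` and
`0 < ε' < 1/2` with `α_i '' Icc ε (1 - ε) ⊆ A '' Icc ε' (1 - ε')` for all `i`. `n = 0`: `A = α_0`. Step: for
`n + 2` arcs let `Z` be the union of all of them: it is compact, a log set (LOGB (4), JAN (3) with
empty intersections), so `Zᶜ` is connected (JAN (2)), and it has empty interior (JAN (4), finite
union of closed sets with empty interior). JOIN for `α_0` and `α_1` (with `ε`) gives `β`, `s > 1 - ε`,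
`t < ε`. `A₁` = concatenation of `α_0` on `[0, s]`, `β`, `α_1` on `[t, 1]` (parametrised on thirds) is an
arc, disjoint from `α_2, ...`, and for small `ε₁ ≤ ε` it satisfies
`α_i '' Icc ε (1 - ε) ⊆ A₁ '' Icc ε₁ (1 - ε₁)` for `i = 0, 1`. Apply the claim for one arc less to
`A₁, α_2, ...` and `ε₁` (for `i ≥ 2`: `Icc ε (1 - ε) ⊆ Icc ε₁ (1 - ε₁)`).
(B) Let `A`, `ε'` be as in (A) for all arcs, `Z = A '' Icc 0 1`; JOIN for `α = α' = A` (`A 1 ≠ A 0`) with
`ε'` gives `β` from `A s` to `A t`, `s > 1 - ε'`, `t < ε'`. The concatenation of `A` on `[t, s]` and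
`β` is a closed curve which is injective except for the coincidence of the ends: a Jordan curve
`γ`; parametrise it so that the half circle `carc 0 pi` is mapped onto `A '' Icc t s` (then
`oarc pi (2 pi)` is mapped onto the open arc `β '' Ioo 0 1`). -/
def St_CHN : Prop := ∀ (n : ℕ) (α : Fin (n + 1) → ℝ → ℂ), (∀ i, IsArc (α i)) →
  (∀ i j, i ≠ j → Disjoint (α i '' Icc 0 1) (α j '' Icc 0 1)) → ∀ ε : ℝ, 0 < ε → ε < 1 / 2 →
  ∃ γ : ℂ → ℂ, IsJordan γ ∧ ∀ i, α i '' Icc ε (1 - ε) ⊆ γ '' carc 0 Real.pi

/-- STR. Simultaneous straightening of finitely many disjoint arcs. Needs: CHN, SCH.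

`n = 0`: `g = id`. Otherwise let `γ` be as in CHN and `g₀` the homeomorphism of SCH, `g₀ = γ` on `UC`.
Let `γ_R` be the Jordan curve which is the boundary of the upper half disc, parametrised such
that `carc 0 pi` is mapped onto the segment `[-1, 1]` (`exp (i t) ↦ 1 - 2 t / pi` for
`0 ≤ t ≤ pi`) and `carc pi (2 pi)` onto the half circle (`exp (i t) ↦ exp (i (2 pi - t))` for
`pi ≤ t ≤ 2 pi`; check the ends: `t = pi`: `-1`; `t = 2 pi`: `1`). Let `g₁` be the homeomorphism of SCH
for `γ_R`. `g = g₁ ∘ g₀⁻¹` maps `γ '' carc 0 pi` onto the segment `[-1,1]`, so it maps the compact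
connected sets `α_i '' Icc ε (1 - ε)` onto compact connected subsets of the real axis: intervals
`[u_i, v_i]`, and `u_i < v_i` because `α_i` is injective. -/
def St_STR : Prop := ∀ (n : ℕ) (α : Fin n → ℝ → ℂ), (∀ i, IsArc (α i)) →
  (∀ i j, i ≠ j → Disjoint (α i '' Icc 0 1) (α j '' Icc 0 1)) → ∀ ε : ℝ, 0 < ε → ε < 1 / 2 →
  ∃ (g : ℂ ≃ₜ ℂ) (u v : Fin n → ℝ), (∀ i, u i < v i) ∧
    ∀ i, g '' (α i '' Icc ε (1 - ε)) = (fun x : ℝ => (x : ℂ)) '' Icc (u i) (v i)

/-- INV. Invariance of domain for surfaces. Needs: nothing (uses `Pool.Agent.CT.h1`).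

(1) Let `z ∈ U`, `p = f z`, `φ` a chart at `p` (`φ 0 = p`). For small `r > 0`, `closedBall z r ⊆ U` and
`f '' closedBall z r ⊆ range φ`. `F w = φ⁻¹ (f (z + r w))` is continuous and injective on `CD`, so
`F 0 ∈ interior (F '' CD)` (`Stmt_InvDom`), so `p = φ (F 0)` is interior to `φ '' (F '' CD) ⊆ f '' U`.
(2) By (1), applied to `f ∘ ψ` for the charts `ψ` of `Y`, `f` is an open map; an injective continuous
open map is an open embedding. -/
def St_INV : Prop := ∀ (X : Type) [TopologicalSpace X], IsSurf X →
  (∀ (U : Set ℂ) (f : ℂ → X), IsOpen U → ContinuousOn f U → InjOn f U → IsOpen (f '' U)) ∧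
  (∀ (Y : Type) [TopologicalSpace Y], IsSurf Y → ∀ f : Y → X, Continuous f →
    Function.Injective f → IsOpenEmbedding f)

/-- TE. Every tile extends to a coordinate disc. Needs: SCH, INV (only for the plane; or
`Pool.Agent.CT.h1`).

Let `φ` be the open embedding of the definition of `IsTile`, `ψ = φ⁻¹ ∘ e : CD → ℂ`: continuous
and injective on `CD`. `γ = ψ` on `UC` is a Jordan curve with image `J`; `g` from SCH. `ψ '' OD` is
open (invariance of domain), connected, disjoint from `J`, and `ψ '' OD = ψ '' CD \ J` is closed in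
`Jᶜ`; so it is a component of `Jᶜ`; it is bounded; the components of `Jᶜ` are `g '' OD` (bounded) and
`g '' CDᶜ` (unbounded), so `ψ '' OD = g '' OD`. `E₀ = ψ` on `CD`, `E₀ = g` off `OD` is well defined, a
continuous bijection of the plane, proper, hence a homeomorphism. `E = φ ∘ E₀`. -/
def St_TE : Prop := ∀ (X : Type) [TopologicalSpace X], T2Space X → ∀ e : ℂ → X, IsTile e →
  ∃ E : ℂ → X, IsOpenEmbedding E ∧ EqOn E e CD

end Pool.Agent.SRF
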