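import Pool.Agent.SRF.StA

set_option autoImplicit false

/-! # SRF, Part II: bordered subsurfaces and the exhaustion (statements; proofs in the comments)

Every `St_X` is proved in `Pool/Agent/SRF/X.lean` as `theorem thm_X (hypotheses) : St_X`; the
hypotheses are the statements named in the comment (Needs), in that order. -/

open Set Metric Filter Topology

namespace Pool.Agent.SRF

/-! ## Two more statements of plane topology -/

/-- THS. A crosscut splits a closed disc into two closed discs. Needs: SCH.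

This is (a)-(e) of the comment of TH (`StA.lean`): `g₁`, `g₂` are the homeomorphisms given by SCH
for the two Jordan curves `A₁ ∪ β`, `A₂ ∪ β` (after conjugation with `g`). -/
def St_THS : Prop := ∀ (g : ℂ ≃ₜ ℂ) (β : ℝ → ℂ), IsCross g β → ∃ g₁ g₂ : ℂ ≃ₜ ℂ,
  g₁ '' CD ∪ g₂ '' CD = g '' CD ∧ g₁ '' CD ∩ g₂ '' CD = β '' Icc 0 1 ∧
  Disjoint (g₁ '' OD) (g₂ '' OD) ∧ β '' Icc 0 1 ⊆ g₁ '' UC ∧ β '' Icc 0 1 ⊆ g₂ '' UC ∧
  g₁ '' UC ∪ g₂ '' UC = g '' UC ∪ β '' Icc 0 1

/-- PDT. Moving a closed disc onto another one inside the unit disc. Needs: TH, THS, SCH.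

It is enough to find, for every `g`, such an `F` with `F '' (g '' CD) = D' := closedBall 0 (1/2)`
(then compose one of these with the inverse of another). `E = g '' CD`, `J = g '' UC`. Let `a`, `b`
be points of `E` with smallest and largest real part; they are in `J`, `a.re < b.re`. Let
`u = (-sqrt(1 - a.im^2), a.im)`, `v = (sqrt(1 - b.im^2), b.im)` on `UC`. The segments `[u,a]` and
`[b,v]` meet `E` only in `a`, `b`, they are disjoint and, except for `u`, `v`, inside `OD`. `J` is the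
union of two arcs `J₁`, `J₂` from `a` to `b` (images of the two arcs of `UC` between `g⁻¹ a` and
`g⁻¹ b`). `β₁ = [u,a] J₁ [b,v]` (on thirds of `[0,1]`) is a crosscut of `CD`. `UC \ {u,v}` is the union
of two open arcs `A₁`, `A₂`. By THS `OD \ β₁ = B₁ ∪ B₂`, two disjoint connected open sets, where
`B_k` is the one with `A_k ⊆ closure B_k` (every point of `UC \ {u, v}` is in exactly one of the two
closed discs, and the open arcs are connected). The open arc `J₂` is connected and misses `β₁`, so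
it lies in `B_i` for some `i`.
Now the model. `a' = u/2`, `b' = v/2`, `J₁'` = the arc of the circle `|z| = 1/2` in the direction of
`A_{3-i}`, that is `{m/2 : m ∈ closure A_{3-i}}`, and `J₂' = {m/2 : m ∈ closure A_i}`;
`β₁' = [u,a'] J₁' [b',v]`, also a crosscut. Let `g_k'` (`k = 1, 2`) be the homeomorphisms of THS for
`β₁'`, numbered such that `A_k ⊆ g_k' '' CD`. The segment from `m/2` to `m` with `m ∈ A_i` misses
`β₁'`, so the open arc `J₂'` lies in `g_i' '' OD`.
TH (with the identity) gives `F₁`, the identity off `OD`, with `F₁ (β₁ t) = β₁' t`. `F₁ '' B_i` is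
connected, in `OD \ β₁'`, with closure containing `A_i` (`F₁` is the identity there), so it is in
`g_i' '' OD`. So `F₁ ∘ J₂` and `J₂'` are two crosscuts of the closed disc `g_i' '' CD` with the same
ends `a'`, `b'`. TH with `g_i'` gives `F₂`, the identity off `g_i' '' OD`, which maps the first one
onto the second one. `F = F₂ ∘ F₁` is the identity off `OD` and maps `J = J₁ ∪ J₂` onto
`J₁' ∪ J₂' = sphere 0 (1/2)`. So it maps the bounded component of the complement of `J` onto the one
of the complement of the sphere: `F '' E = D'`. -/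
def St_PDT : Prop := ∀ g g' : ℂ ≃ₜ ℂ, g '' CD ⊆ OD → g' '' CD ⊆ OD →
  ∃ F : ℂ ≃ₜ ℂ, (∀ z, z ∉ OD → F z = z) ∧ F '' (g '' CD) = g' '' CD

/-! ## Local models -/

/-- SHR. Local models. Needs: nothing.

(1) `σ z = r z / (1 + |z|)`.
(2) `σ z = ζ exp (i η z / (1 + |z|))` with small `η > 0` (`exp` is injective on the ball of radius
`1`, `|exp (i w)| = exp (-w.im)`, and `|exp w' - 1| ≤ 2 |w'|` for `|w'| ≤ 1`).
(3) A real linear map fixes `1` and maps `c` to `-i`; it preserves the sign of the imaginary part.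
So let `c = -i`; then the set is the three quarter plane `{Im ≥ 0} ∪ {Re ≥ 0}`. The map
`τ (x + i y)`: for `x ≥ 0, y ≥ 0`: `x (-i) + y (1 + i)`; for `x ≤ 0, y ≥ 0`: `(-x)(-1) + y (1 + i)`;
for `x ≤ 0, y ≤ 0`: `(-x)(-1) + (-y)(-1 - i)`; for `x ≥ 0, y ≤ 0`: `x (-i) + (-y) (-1 - i)` is a
homeomorphism (piecewise linear, with the piecewise linear inverse on the four image sectors)
which maps the upper half plane onto the three quarter plane. (Any other homeomorphism will do.) -/
def St_SHR : Prop :=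
  (∀ r : ℝ, 0 < r → ∃ σ : ℂ → ℂ, IsOpenEmbedding σ ∧ σ 0 = 0 ∧ range σ = ball 0 r ∧
    (∀ z, 0 ≤ (σ z).im ↔ 0 ≤ z.im) ∧ ∀ z, ∃ t : ℝ, 0 < t ∧ σ z = t * z) ∧
  (∀ ζ ∈ UC, ∀ r : ℝ, 0 < r → ∃ σ : ℂ → ℂ, IsOpenEmbedding σ ∧ σ 0 = ζ ∧ range σ ⊆ ball ζ r ∧
    ∀ z, σ z ∈ CD ↔ 0 ≤ z.im) ∧
  (∀ c : ℂ, c.im < 0 → ∃ τ : ℂ ≃ₜ ℂ, τ 0 = 0 ∧
    ∀ z, (0 ≤ (τ z).im ∨ ∃ s t : ℝ, 0 ≤ s ∧ 0 ≤ t ∧ τ z = s + t * c) ↔ 0 ≤ z.im)

/-- ARC0. Elementary facts on attaching sets. Needs: nothing.

`cexpi` is injective on half open intervals of length `2 pi`, its image is `UC`, and it is a local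
homeomorphism onto `UC`. -/
def St_ARC0 : Prop := ∀ S O : Set ℂ, AttSet S O → O ⊆ S ∧ S ⊆ UC ∧ IsCompact S ∧ S.Nonempty ∧
  S = closure O ∧ (∀ ζ ∈ O, S ∈ 𝓝[UC] ζ) ∧
  (∀ ζ ∈ S, ζ ∉ O → ∃ a σ τ : ℝ, (σ = 1 ∨ σ = -1) ∧ 0 < τ ∧ ζ = cexpi a ∧
    (∀ t ∈ Ico 0 τ, cexpi (a + σ * t) ∈ S) ∧ (∀ t ∈ Ioo 0 τ, cexpi (a - σ * t) ∉ S))

/-- BFR. Bordered sets. Needs: SHR.

(1) `{z | 0 < z.im}` is mapped to an open subset of `K`, `{z | z.im < 0}` to an open subset of the
complement, and points with `z.im = 0` are limits of both.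
(2) `K` is closed; points of the frontier are limits of interior points by (1).
(3) Compose the chart of the definition with SHR (1), `r` small.
(4) `interior K ⊆ T ⊆ K = closure (interior K)`, so it is enough that `interior K` is connected
(nonempty by (2)). If `interior K = A ∪ B` with `A`, `B` disjoint open nonempty, then
`K = closure A ∪ closure B`; since `K` is connected there is `p` in both closures; `p` is not in
`interior K` (if `p ∈ A` then `p ∉ closure B`), so `p ∈ frontier K`. In a chart `φ` as in (1) at `p` the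
set `range φ ∩ interior K = φ '' {0 < im}` is connected, so it is in `A` or in `B`, say in `A`; but
`p ∈ closure B` and `range φ` is a neighbourhood of `p`: contradiction.
(5) `e '' OD` misses `K` because `e` is injective on `CD` and `S ⊆ UC`; a point `e ζ`, `ζ ∈ S`, is in
`K` and a limit of points of `e '' OD`. -/
def St_BFR : Prop := ∀ (X : Type) [TopologicalSpace X], IsSurf X → ∀ K : Set X, Bord K →
  (∀ φ : ℂ → X, IsOpenEmbedding φ → (∀ z, φ z ∈ K ↔ 0 ≤ z.im) →
    (∀ z, φ z ∈ frontier K ↔ z.im = 0) ∧ (∀ z, φ z ∈ interior K ↔ 0 < z.im)) ∧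
  closure (interior K) = K ∧
  (∀ p ∈ frontier K, ∀ U ∈ 𝓝 p, ∃ φ : ℂ → X, IsOpenEmbedding φ ∧ φ 0 = p ∧ range φ ⊆ U ∧
    ∀ z, φ z ∈ K ↔ 0 ≤ z.im) ∧
  (IsConnected K → ∀ T : Set X, interior K ⊆ T → T ⊆ K → IsConnected T) ∧
  (∀ (e : ℂ → X) (S : Set ℂ), IsTile e → S ⊆ UC → e '' CD ∩ K = e '' S →
    e '' S ⊆ frontier K ∧ Disjoint (e '' OD) K)

/-- ATI. Attaching, interior points of the attaching arcs. Needs: INV, BFR.

`e '' OD` is open (INV), `e '' CD` is compact. `p = e ζ ∈ frontier K` (BFR (5); `ζ ∈ S`). Let `φ` be a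
half plane chart of `K` at `p`. Choose `ρ > 0` such that `UC ∩ ball ζ ρ ⊆ S`. The compact set
`e '' (UC \ ball ζ ρ)` does not contain `p`; choose `ρ' > 0` such that `φ '' ball 0 ρ'` misses it. Let
`B = ball 0 ρ' ∩ {im < 0}` (convex). `φ '' B` misses `K`, and it misses `e '' UC`: the points of
`e '' (UC ∩ ball ζ ρ)` are in `K`. So the connected set `φ '' B` lies in the union of the disjoint
open sets `e '' OD` and `(e '' CD)ᶜ`, hence in one of them. `p` is a limit of points of `e '' OD`, which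
are not in `K`, so `φ '' ball 0 ρ'` contains a point of `e '' OD`, and it is in `φ '' B`. So
`φ '' B ⊆ e '' OD` and `φ '' ball 0 ρ' ⊆ K ∪ e '' CD`. -/
def St_ATI : Prop := ∀ (X : Type) [TopologicalSpace X], IsSurf X → ∀ (K : Set X) (e : ℂ → X)
  (S : Set ℂ), Bord K → IsTile e → S ⊆ UC → e '' CD ∩ K = e '' S → ∀ ζ ∈ UC, S ∈ 𝓝[UC] ζ →
  e ζ ∈ interior (K ∪ e '' CD)

/-- ATE. Attaching, end points of the attaching arcs. Needs: SCH, TH, TE, SHR, BFR, ATI.

`p = e (cexpi a)`. `e '' OD` is open, `frontier (e '' CD) = e '' UC` (TE: `e` extends to an open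
embedding of the plane). Note `e ξ ∈ K <-> ξ ∈ S` for `ξ ∈ CD`. Let `φ` be a half plane chart of `K`
at `p` and `0 < τ' < min τ 3` such that `e (cexpi (a + s)) ∈ range φ` for `|s| ≤ τ'`.
`α₊ t = φ⁻¹ (e (cexpi (a + σ t)))` is real for `t ∈ [0, τ')` (in `frontier K`, BFR (5), (1)),
continuous, injective, `α₊ 0 = 0`, so it is strictly monotone; replacing `φ` by `φ (- conj z)` we
may assume `α₊ t > 0` for `t > 0`. `α₋ t = φ⁻¹ (e (cexpi (a - σ t)))` has `im < 0` for `t ∈ (0, τ')`.
Put `τ₀ = τ'/2` and choose `ρ > 0` with `ρ < α₊ τ₀`, `ρ < |α₋ τ₀|` and such that `closedBall 0 ρ` misses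
`φ⁻¹ (e '' {cexpi (a + s) : τ₀ ≤ |s| ≤ pi})`. `H = {|z| ≤ ρ, im z ≤ 0}` is a closed disc: `H = g '' CD`
with `g` from SCH for its boundary curve (as in the proof of TE: `interior H` is a bounded
component of the complement of the curve). Let `t₁` be the first `t` with `|α₋ t| = ρ`,
`c = α₋ t₁`, `c.im < 0`. `β t = α₋ (t t₁)` and `β' t = t c` are crosscuts of `H` with the same ends. TH
gives `F`, the identity off `g '' OD = interior H`, `F (β t) = t c`. `φ₁ = φ ∘ F⁻¹` is an open
embedding with `φ₁ 0 = p` and `φ₁ z ∈ K <-> 0 ≤ im z`. Choose `ρ₃ > 0` so small that for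
`|z| < ρ₃`: `z' = F⁻¹ z` has `|z'| < ρ` and `z'` is not in the compact set `α₋ '' Icc t₁ τ₀` (it does not
contain `0`). Then in `ball 0 ρ₃` the set `φ₁⁻¹ (e '' UC)` is exactly
`{x real, x ≥ 0} ∪ {t c : t ≥ 0}` (for the first part: `α₊` takes all values in `[0, ρ]`).
Let `R = {s + t c : s, t > 0} ∩ ball 0 ρ₃`, `R' = {-s + t c : s, t > 0} ∩ ball 0 ρ₃` (convex). Both are
mapped by `φ₁` off `K` and `e '' UC`, so each is mapped into `e '' OD` or off `e '' CD`.
`R`: for `0 < x < ρ₃` the point `φ₁ x = e ξ`, `ξ = cexpi (a + σ t)` with `0 < t < τ₀`, has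
`S ∈ 𝓝[UC] ξ`, so by ATI it is interior to `K ∪ e '' CD`: points of `R` near `x` are mapped into
`e '' CD`. So `φ₁ '' R ⊆ e '' OD`.
`R'`: if it were mapped into `e '' OD`, then for small `t > 0` the point `φ₁ (t c) ∈ e '' UC` would be
interior to `e '' CD`, impossible. So `φ₁ '' R'` misses `e '' CD`.
So for `z ∈ ball 0 ρ₃`: `φ₁ z ∈ K ∪ e '' CD` iff `im z ≥ 0` or `z = s + t c` with `s, t ≥ 0`. The chart
is `φ₁ ∘ σ ∘ τ` with `σ` from SHR (1) (`r = ρ₃`; it multiplies by positive numbers) and `τ` from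
SHR (3). -/
def St_ATE : Prop := ∀ (X : Type) [TopologicalSpace X], IsSurf X → ∀ (K : Set X) (e : ℂ → X)
  (S : Set ℂ), Bord K → IsTile e → S ⊆ UC → IsClosed S → e '' CD ∩ K = e '' S →
  ∀ a σ τ : ℝ, (σ = 1 ∨ σ = -1) → 0 < τ → (∀ t ∈ Ico 0 τ, cexpi (a + σ * t) ∈ S) →
  (∀ t ∈ Ioo 0 τ, cexpi (a - σ * t) ∉ S) →
  ∃ φ : ℂ → X, IsOpenEmbedding φ ∧ φ 0 = e (cexpi a) ∧ ∀ z, φ z ∈ K ∪ e '' CD ↔ 0 ≤ z.im

/-- ATB. Attaching a tile preserves bordered sets. Needs: TE, SHR, ARC0, BFR, ATI, ATE.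

`L = K ∪ e '' CD` is compact, hence closed. Charts for `L`: (a) at `p ∈ frontier K`, `p ∉ e '' CD`:
BFR (3) with `U = (e '' CD)ᶜ`. (b) at `p = e ζ`, `ζ ∈ UC`, `p ∉ K`: let `E` be the open embedding of TE,
`σ` from SHR (2) with `r` so small that `E '' ball ζ r` misses `K`; the chart is `E ∘ σ`. (c) at
`p = e ζ`, `ζ ∈ S \ O`: ARC0 and ATE. A point with a half plane chart for `L` is in the frontier of
`L`. Frontier formula: `⊆`: `p ∈ frontier L` is in `L` (closed) and not interior, so not in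
`interior K`, not in `e '' OD` (open), so `p ∈ frontier K ∪ e '' UC`, and not in `e '' O` by ARC0
(`S ∈ 𝓝[UC] ζ` for `ζ ∈ O`) and ATI. `⊇`: a point `p` of the right side is of type (a), (b) or (c) (if
`p ∈ K ∩ e '' CD = e '' S`, then `p = e ζ`, `ζ ∈ S`, `ζ ∉ O`; `e '' UC \ K` is type (b);
`frontier K \ e '' CD` is type (a)). -/
def St_ATB : Prop := ∀ (X : Type) [TopologicalSpace X], IsSurf X → ∀ (K : Set X) (e : ℂ → X)
  (S O : Set ℂ), Bord K → Att K e S O → Bord (K ∪ e '' CD) ∧
    frontier (K ∪ e '' CD) = (frontier K ∪ e '' UC) \ e '' O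

/-- BB. Built sets. Needs: TE, SHR, ARC0, ATB.

A tile is bordered: TE and SHR (2) as in (b) of ATB (`frontier (e '' CD) = e '' UC` by TE). It is
connected. Then induction with ATB; `K ∪ e '' CD` is connected because `e '' S ≠ ∅` is in both. -/
def St_BB : Prop := ∀ (X : Type) [TopologicalSpace X], IsSurf X →
  (∀ e : ℂ → X, IsTile e → Bord (e '' CD) ∧ frontier (e '' CD) = e '' UC ∧
    IsConnected (e '' CD)) ∧
  (∀ K L : Set X, BuiltFrom K L → Bord K → Bord L) ∧
  (∀ K L : Set X, BuiltFrom K L → IsConnected K → IsConnected L)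

/-! ## One dimensional manifolds -/

/-- Open lines. -/
def IsLine {M : Type} [TopologicalSpace M] (A : Set M) : Prop :=
  ∃ f : ℝ → M, IsOpenEmbedding f ∧ range f = A

/-- Open circles. -/
def IsCirc {M : Type} [TopologicalSpace M] (A : Set M) : Prop :=
  IsOpen A ∧ ∃ γ : ℂ → M, IsJordan γ ∧ γ '' UC = A

/-- ONE1. Two intersecting open lines. Needs: nothing.

Let `A = range f`, `B = range g`, and suppose that neither of them contains the other.
`O = f⁻¹ B` is open in `ℝ`, and `t = g⁻¹ ∘ f : O → ℝ` is continuous, injective and open. Let `(α, β)`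
(`-∞ ≤ α < β ≤ ∞`) be a component of `O`; `t` is strictly monotone on it. If `α` is finite, then
`t s → ±∞` for `s → α+`: the limit exists in the extended reals by monotonicity, and a finite limit
`ℓ` would give `f α = g ℓ`, `α ∈ O`. Same for `β`. If both are finite, the limits are `-∞` and `∞` and
`t` maps `(α, β)` onto `ℝ`, so `B ⊆ A`, excluded. `O = ℝ` means `A ⊆ B`, excluded. So `O` is `(α, ∞)` or
`(-∞, β)` or `(-∞, β) ∪ (α, ∞)` with `β ≤ α`. (`O ≠ ∅` by hypothesis.)
One ray. Replacing `f` by `f (-x)` let `O = (α, ∞)`; replacing `g` by `g (-x)` let `t → -∞` at `α`, so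
`t` is increasing and maps `(α, ∞)` onto `(-∞, s₁)`, `s₁` finite (otherwise `B ⊆ A`). Let `x₁ > α`,
`y₁ = t x₁`. `k x = f x` for `x ≤ x₁`, `k x = g (x - x₁ + y₁)` for `x ≥ x₁`. It is injective (if
`f x = g y` with `x ≤ x₁`, `y ≥ y₁`, then `x ∈ O` and `y = t x ≤ y₁`), continuous, open (it is locally
`f` or `g` up to translation; near `x₁` use that `A ∩ B` is open) with range `A ∪ B`.
Two rays. Replacing `g` by `g (-x)` let `t → -∞` at `α+`; `t` maps `(α, ∞)` increasingly onto
`(-∞, s₁)`, `s₁ < ∞`. The image of `(-∞, β)` is disjoint from this one, so `t → ∞` at `β-`, `t` is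
increasing there, onto `(s₂, ∞)`, `s₁ ≤ s₂`. Choose `x₁ > α`, `x₀ < β`, `y₁ = t x₁ < s₁`,
`y₀ = t x₀ > s₂`. The closed curve `f` on `[x₀, x₁]` followed by `g` on `[y₁, y₀]` is injective except
for its ends (`f x = g y` with `x₀ < x < x₁`, `y₁ < y < y₀`: `x ∈ (α, x₁)` gives `y = t x < y₁`,
`x ∈ (x₀, β)` gives `y > y₀`) and its image is `A ∪ B` (`f x = g (t x)` with `t x ∈ (y₁, s₁)` for
`x > x₁`, and so on). `A ∪ B` is open. -/
def St_ONE1 : Prop := ∀ (M : Type) [TopologicalSpace M] [T2Space M] (A B : Set M), IsLine A →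
  IsLine B → (A ∩ B).Nonempty → B ⊆ A ∨ A ⊆ B ∨ IsLine (A ∪ B) ∨ IsCirc (A ∪ B)

/-- ONE2. Compact one dimensional manifolds. Needs: ONE1.

Facts: a circle (`IsCirc`) is open and compact, hence clopen, and connected; a line is open and
connected; so a line or circle which meets a circle `A` is contained in `A`.
(Insertion) Let `𝒜` be a finite set of pairwise disjoint lines and circles and `B` a line or a
circle. Then there is a finite set `ℬ` of pairwise disjoint lines and circles with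
`⋃₀ ℬ = ⋃₀ 𝒜 ∪ B`. Induction on the number of elements of `𝒜`. If `B` is disjoint from all elements of
`𝒜`: add it. If `B` is a circle: every element which meets `B` is contained in `B`; remove these and
add `B`. Let `B` be a line. If it meets a circle of `𝒜`, it is contained in it: `ℬ = 𝒜`. Otherwise it
meets a line `A ∈ 𝒜`; ONE1: if `B ⊆ A`, `ℬ = 𝒜`; if `A ⊆ B`, or if `A ∪ B` is a line or a circle, insert
`A ∪ B` into `𝒜 \ {A}` (induction).
Cover the compact `M` by finitely many lines (hypothesis) and insert them one after the other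
into the empty family: `univ` is a finite disjoint union of lines and circles. There is no line:
its complement is a union of open sets, so it would be closed, hence compact, but `ℝ` is not
compact. Enumerate the circles. -/
def St_ONE2 : Prop := ∀ (M : Type) [TopologicalSpace M] [T2Space M] [CompactSpace M],
  (∀ p : M, ∃ f : ℝ → M, IsOpenEmbedding f ∧ f 0 = p) → IsCircles (univ : Set M)

/-- BCI. The frontier of a bordered set is a finite disjoint union of Jordan curves.
Needs: BFR, ONE2.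

Apply ONE2 to the subspace `M = frontier K` (compact). For `p ∈ M` let `φ` be a half plane chart;
`x ↦ φ x` (`x` real) maps `ℝ` into `M` (BFR (1)), it is an embedding, and its image is
`M ∩ range φ`, open in `M`. -/
def St_BCI : Prop := ∀ (X : Type) [TopologicalSpace X], IsSurf X → ∀ K : Set X, Bord K →
  IsCircles (frontier K)

/-! ## Capping -/

/-- CAP. A boundary circle inside a chart. Needs: SCH, INV, BFR.

`γ' = φ⁻¹ ∘ γ` is a Jordan curve in the plane; `g` from SCH; `e = φ ∘ g` is `γ` on `UC`.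
`e '' OD` is open, `e '' CD` compact. `T = K \ e '' UC` is connected by BFR (4) (`e '' UC ⊆ frontier K`,
`K` closed), and it is contained in the union of the disjoint open sets `e '' OD` and
`(e '' CD)ᶜ`. If `T ⊆ e '' OD`, then `K ⊆ e '' CD`. Otherwise `K ∩ e '' CD = e '' UC`. -/
def St_CAP : Prop := ∀ (X : Type) [TopologicalSpace X], IsSurf X → ∀ (K : Set X) (φ γ : ℂ → X),
  Bord K → IsConnected K → IsOpenEmbedding φ → IsJordan γ → γ '' UC ⊆ frontier K →
  γ '' UC ⊆ range φ → ∃ g : ℂ ≃ₜ ℂ, (φ ∘ g) '' UC = γ '' UC ∧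
    ((φ ∘ g) '' CD ∩ K = (φ ∘ g) '' UC ∨ K ⊆ (φ ∘ g) '' CD)

/-- CAPS. Capping all boundary circles inside a chart. Needs: BFR, ATB, BCI, CAP.

Let `frontier K` be the disjoint union of `γ_i '' UC`, `i < n` (BCI); induction on `n` (claim for all
bordered connected `K` with such a list of length `n`). If no circle is contained in `range φ`:
second alternative with `K₁ = K`. Otherwise let `g_i` be the homeomorphisms of CAP for the circles
in `range φ`, `e_i = φ ∘ g_i` (a tile). If for one of them `e_i '' CD ∩ K = e_i '' UC`, then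
`Att K e_i UC UC`, and by ATB `K ∪ e_i '' CD` is bordered with frontier `frontier K \ e_i '' UC`, the
union of the `n - 1` other circles; it is connected; use the induction hypothesis and
`BuiltFrom.trans`. Otherwise `K ⊆ e_i '' CD ⊆ range φ` for all circles in `range φ`; so all circles
(subsets of `K`) are in `range φ`. Suppose there are two, `i ≠ j`. `e_j '' UC ⊆ K ⊆ e_i '' CD` and it is
disjoint from `e_i '' UC`, so `g_j '' UC ⊆ g_i '' OD`. The set `g_i '' ODᶜ` is connected, unbounded and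
misses the curve `g_j '' UC`; the complement of this curve is the union of the disjoint open sets
`g_j '' OD` (bounded) and `g_j '' CDᶜ`; so `g_i '' ODᶜ ⊆ g_j '' CDᶜ`, that is `g_j '' CD ⊆ g_i '' OD`.
Exchanging `i`, `j`: `g_i '' CD ⊆ g_j '' OD ⊆ g_j '' CD ⊆ g_i '' OD`: contradiction. So there is exactly
one circle, `frontier K = e '' UC`, `K ⊆ e '' CD`. `e '' OD` is connected, misses `frontier K`, and
meets `K` (`interior K ≠ ∅` by BFR (2), and it is contained in `e '' CD \ e '' UC`), so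
`e '' OD ⊆ K` (a connected set which misses the frontier of the closed set `K` and meets `K` is in
`K`), `K = e '' CD`: first alternative. -/
def St_CAPS : Prop := ∀ (X : Type) [TopologicalSpace X], IsSurf X → ∀ (K : Set X) (φ : ℂ → X),
  Bord K → IsConnected K → IsOpenEmbedding φ → ∃ K₁ : Set X, BuiltFrom K K₁ ∧ IsConnected K₁ ∧
    ((∃ g : ℂ ≃ₜ ℂ, K₁ = (φ ∘ g) '' CD) ∨
      (∃ (n : ℕ) (γ : Fin n → ℂ → X), (∀ i, IsJordan (γ i)) ∧
        (∀ i j, i ≠ j → Disjoint (γ i '' UC) (γ j '' UC)) ∧ frontier K₁ = (⋃ i, γ i '' UC) ∧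
        ∀ i, ¬ γ i '' UC ⊆ range φ))

/-! ## Rectangles -/

/-- The closed rectangle. -/
def Rect (a b c d : ℝ) : Set ℂ := {z | z.re ∈ Icc a b ∧ z.im ∈ Icc c d}

/-- RECT. Parametrisation of a rectangle. Needs: nothing.

For the square `[-1,1]²`: `z ↦ z |z| / max |z.re| |z.im|` (`0 ↦ 0`) is a homeomorphism of `CD` onto
the square, mapping directions to themselves: the right side is the image of the angles
`[-pi/4, pi/4]`, and so on. Compose with an affine map `(x, y) ↦ (x₀ + λ x, y₀ + μ y)`,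
`λ, μ > 0`. -/
def St_RECT : Prop := ∀ a b c d : ℝ, a < b → c < d → ∃ e : ℂ → ℂ, ContinuousOn e CD ∧ InjOn e CD ∧
  e '' CD = Rect a b c d ∧
  e '' carc (-(Real.pi / 4)) (Real.pi / 4) = Rect b b c d ∧
  e '' carc (Real.pi / 4) (3 * Real.pi / 4) = Rect a b d d ∧
  e '' carc (3 * Real.pi / 4) (5 * Real.pi / 4) = Rect a a c d ∧
  e '' carc (5 * Real.pi / 4) (7 * Real.pi / 4) = Rect a b c c

/-- The possible selections of sides of a rectangle along which it is attached. -/
inductive RSel (a b c d : ℝ) : Set ℂ → Prop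
  | right : RSel a b c d (Rect b b c d)
  | top : RSel a b c d (Rect a b d d)
  | left : RSel a b c d (Rect a a c d)
  | bottom : RSel a b c d (Rect a b c c)
  | lbr : RSel a b c d (Rect a a c d ∪ Rect a b c c ∪ Rect b b c d)
  | ltr : RSel a b c d (Rect a a c d ∪ Rect a b d d ∪ Rect b b c d)
  | lr : RSel a b c d (Rect a a c d ∪ Rect b b c d)
  | bt : RSel a b c d (Rect a b c c ∪ Rect a b d d)
  | all : RSel a b c d (Rect a a c d ∪ Rect a b c c ∪ Rect b b c d ∪ Rect a b d d)

/-- RATT. Attaching a rectangle in a chart. Needs: RECT.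

`e = φ ∘ e₀` with `e₀` from RECT. Attaching sets: right `carc (-pi/4) (pi/4)`, top
`carc (pi/4) (3 pi/4)`, left `carc (3 pi/4) (5 pi/4)`, bottom `carc (5 pi/4) (7 pi/4)`; `lbr`:
`carc (3 pi/4) (9 pi/4)` (union of the three arcs, `cexpi` is `2 pi`-periodic); `ltr`:
`carc (-pi/4) (5 pi/4)`; `lr`: the two arcs `(-pi/4, pi/4)`, `(3 pi/4, 5 pi/4)`; `bt`: the two arcs
`(pi/4, 3 pi/4)`, `(5 pi/4, 7 pi/4)`; `all`: `UC`. -/
def St_RATT : Prop := ∀ (X : Type) [TopologicalSpace X] (φ : ℂ → X), IsOpenEmbedding φ →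
  ∀ (M : Set X) (a b c d : ℝ) (W : Set ℂ), a < b → c < d → RSel a b c d W →
  φ '' Rect a b c d ∩ M = φ '' W →
  ∃ (e : ℂ → X) (S O : Set ℂ), Att M e S O ∧ e '' CD = φ '' Rect a b c d

/-- CASEA. From a disc in a chart to a bigger disc. Needs: RECT.

`ψ = φ ∘ g`. `ψ⁻¹ C` is bounded; let it be in `closedBall 0 R`, `R > 1`. `E w = ψ (exp w)`. The two
rectangles `Rect 0 (log R) 0 pi` and `Rect 0 (log R) pi (2 pi)` are mapped injectively by `exp` onto
the two closed half annuli. Tiles `e₁ = ψ ∘ exp ∘ e₀`, `e₂ = ψ ∘ exp ∘ e₀'` (`e₀`, `e₀'` from RECT).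
`e₁ '' CD ∩ K = e₁ '' (left side)`: one arc; `K = ψ '' CD`. `e₂ '' CD ∩ (K ∪ e₁ '' CD)` is the image of the
left, bottom and top sides of the second rectangle (angle `2 pi` and angle `0` coincide): one
arc `carc (pi/4) (7 pi/4)`. `K' = K ∪ e₁ '' CD ∪ e₂ '' CD = ψ '' closedBall 0 R`. -/
def St_CASEA : Prop := ∀ (X : Type) [TopologicalSpace X] (φ : ℂ → X), IsOpenEmbedding φ →
  ∀ (g : ℂ ≃ₜ ℂ) (C : Set X), IsCompact C → C ⊆ range φ →
  ∃ K' : Set X, BuiltFrom ((φ ∘ g) '' CD) K' ∧ (φ ∘ g) '' CD ∪ C ⊆ K' ∧ IsConnected K'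

/-! ## Straightening the frontier in a chart -/

/-- CARS. Arcs of a Jordan curve inside an open set. Needs: nothing.

Let `ζ₀ = cexpi θ₀ ∈ UC` with `γ ζ₀ ∉ U`. `δ θ = γ (cexpi θ)` is injective and continuous on
`(θ₀, θ₀ + 2 pi)`, and its image there is `γ '' UC \ {γ ζ₀}`. `A = {θ ∈ (θ₀, θ₀ + 2 pi) : δ θ ∈ C}` is
compact (it is also `{θ ∈ [θ₀, θ₀ + 2 pi] : δ θ ∈ C}`), `V = {θ ∈ (θ₀, θ₀ + 2 pi) : δ θ ∈ U}` is open in
`ℝ`, `A ⊆ V`. The components of `V` are open intervals; finitely many of them cover the compact `A`.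
For each of these components `(c_i, d_i)` which meets `A`: `A ∩ (c_i, d_i)` is compact (it is `A` minus
the other components); choose `c_i < a_i < a_i' < b_i' < b_i < d_i` with
`A ∩ (c_i, d_i) ⊆ [a_i', b_i']`. `α_i` is `δ` composed with the piecewise linear homeomorphism of
`[0,1]` onto `[a_i, b_i]` which maps `1/4`, `3/4` to `a_i'`, `b_i'`. -/
def St_CARS : Prop := ∀ (X : Type) [TopologicalSpace X] [T2Space X] (γ : ℂ → X) (U C : Set X),
  IsJordan γ → IsOpen U → IsClosed C → C ⊆ U → ¬ γ '' UC ⊆ U →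
  ∃ (m : ℕ) (α : Fin m → ℝ → X), (∀ i, IsArc (α i)) ∧
    (∀ i j, i ≠ j → Disjoint (α i '' Icc 0 1) (α j '' Icc 0 1)) ∧
    (∀ i, α i '' Icc 0 1 ⊆ γ '' UC ∩ U) ∧
    γ '' UC ∩ C ⊆ ⋃ i, α i '' Icc (1 / 4) (3 / 4)

/-- A chart in which the frontier of `K` is, inside the open set `N`, a relatively open subset `L`
of the real axis. -/
structure GCtx {X : Type} [TopologicalSpace X] (K : Set X) (ψ : ℂ → X) (N : Set ℂ)
    (L : Set ℝ) : Prop where
  bord : Bord K
  emb : IsOpenEmbedding ψ
  opn : IsOpen N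
  fr : ∀ z ∈ N, (ψ z ∈ frontier K ↔ z.im = 0 ∧ z.re ∈ L)
  nhd : ∀ x ∈ L, ((x : ℝ) : ℂ) ∈ N → L ∈ 𝓝 x

/-- FLATN. Straightening. Needs: STR, CARS.

CARS for every circle `γ_i`, with `U = range φ` and `C = φ '' closedBall 0 2`, gives finitely many
arcs; all of them together (enumerate the sigma type) are pairwise disjoint arcs `α_j` in
`frontier K ∩ range φ`, and `frontier K ∩ φ '' closedBall 0 2 ⊆ ⋃ α_j '' Icc (1/4) (3/4)`. Apply STR with
`ε = 1/4` to `φ⁻¹ ∘ α_j`: `g`, `u_j`, `v_j`. Put `ψ = φ ∘ g⁻¹`, `N = g '' ball 0 2`,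
`C = g '' closedBall 0 1`, `L = ⋃ Icc (u_j) (v_j)`. `fr`: clear. `nhd`: let `x ∈ [u_j, v_j]`, `x ∈ N`,
`ψ x = α_j t` with `t ∈ [1/4, 3/4]`. If `t` is not `1/4` or `3/4`, then `x` is in the open interval
`(u_j, v_j)` (`t ↦ x` is a homeomorphism of `[1/4, 3/4]` onto `[u_j, v_j]`). If `t = 1/4`: for
`t' < 1/4` close to `1/4` the point `α_j t'` is in `φ '' ball 0 2`, so it is in some
`α_k '' Icc (1/4) (3/4)`; by disjointness `k = j` and by injectivity `t' ≥ 1/4`: contradiction. Same
for `3/4`. -/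
def St_FLATN : Prop := ∀ (X : Type) [TopologicalSpace X], IsSurf X → ∀ (K : Set X) (φ : ℂ → X),
  Bord K → IsOpenEmbedding φ → ∀ (n : ℕ) (γ : Fin n → ℂ → X), (∀ i, IsJordan (γ i)) →
  (∀ i j, i ≠ j → Disjoint (γ i '' UC) (γ j '' UC)) → frontier K = (⋃ i, γ i '' UC) →
  (∀ i, ¬ γ i '' UC ⊆ range φ) → ∃ (ψ : ℂ → X) (N C : Set ℂ) (L : Set ℝ), GCtx K ψ N L ∧
    IsCompact C ∧ IsConnected C ∧ C ⊆ N ∧ ψ '' C = φ '' closedBall 0 1

/-! ## The grid

Cells are pairs of integers; the cell `c` is the closed square of side `h` about `h (c.1 + i c.2)`.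
A cell is a vertex cell if both coordinates are even, a face cell if both are odd, and an edge
cell otherwise. -/

/-- The square of the cell `c`. -/
def T (h : ℝ) (c : ℤ × ℤ) : Set ℂ :=
  {z | |z.re - h * c.1| ≤ h / 2 ∧ |z.im - h * c.2| ≤ h / 2}

/-- The cells touching the cell `f` (with `f` itself). -/
noncomputable def blk (f : ℤ × ℤ) : Finset (ℤ × ℤ) := Finset.Icc (f.1 - 1) (f.1 + 1) ×ˢ Finset.Icc (f.2 - 1) (f.2 + 1)

def IsV (c : ℤ × ℤ) : Prop := Even c.1 ∧ Even c.2
def IsF (c : ℤ × ℤ) : Prop := Odd c.1 ∧ Odd c.2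
def IsE (c : ℤ × ℤ) : Prop := ¬ IsV c ∧ ¬ IsF c

/-- The two cells have a common side. -/
def Adj (c c' : ℤ × ℤ) : Prop := |c.1 - c'.1| + |c.2 - c'.2| = 1

section

variable {X : Type} [TopologicalSpace X]

/-- Status `O`: the cell misses `K`. -/
def SO (K : Set X) (ψ : ℂ → X) (h : ℝ) (c : ℤ × ℤ) : Prop := Disjoint (ψ '' T h c) K
/-- Status `K`: the cell is contained in `K`. -/
def SK (K : Set X) (ψ : ℂ → X) (h : ℝ) (c : ℤ × ℤ) : Prop := ψ '' T h c ⊆ K
/-- Status `L`: the cell is in the row `0` and `K` is its upper (`σ = 1`) or lower (`σ = -1`) half. -/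
def SL (K : Set X) (ψ : ℂ → X) (h : ℝ) (σ : ℝ) (c : ℤ × ℤ) : Prop :=
  c.2 = 0 ∧ (σ = 1 ∨ σ = -1) ∧ ∀ z ∈ T h c, (ψ z ∈ K ↔ 0 ≤ σ * z.im)
/-- The part of the cell which has to be added. -/
def pc (K : Set X) (ψ : ℂ → X) (h : ℝ) (c : ℤ × ℤ) : Set ℂ := closure {z ∈ T h c | ψ z ∉ K}
/-- `K` with the parts of the cells of `Σ` added. -/
def gM (K : Set X) (ψ : ℂ → X) (h : ℝ) (Sg : Finset (ℤ × ℤ)) : Set X :=
  K ∪ ψ '' ⋃ c ∈ Sg, pc K ψ h c

end

/-- GR1. Every cell in `N` has exactly one status. Needs: BFR.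

Let `c` be a cell with `T h c ⊆ N`. If `c.2 ≠ 0`, the square does not meet the real axis, so (`fr`)
`ψ '' T` misses `frontier K`; it is connected, so it is in `interior K` or misses `K` (`K` is closed).
If `c.2 = 0`, let `J` be the interval `T ∩ ℝ`; `J ⊆ N`, and `L ∩ J` is open in `J` (`nhd`) and closed in `J`
(`fr`, the frontier is closed), so `J ∩ L = ∅` or `J ⊆ L`. In the first case `ψ '' T` misses
`frontier K` as before. In the second case the two sets `T± = {z ∈ T : ± z.im > 0}` are convex and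
miss `frontier K`, so each of them is mapped into `interior K` or off `K`. The points of `J` are mapped
into `frontier K ⊆ K`. Not both halves are in `K`: otherwise the centre of the square would be an
interior point of `K`. Not both are off `K`: the centre is mapped to a point of
`K = closure (interior K)` (BFR (2)), so the open set `interior T` contains points mapped into
`interior K`; the set of these points is open, so it is not contained in the real axis. So the
status is `L` with `σ = 1` or `σ = -1`. The formulas for `pc` follow (`h > 0`; the closed half square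
is the closure of the half open one). -/
def St_GR1 : Prop := ∀ (X : Type) [TopologicalSpace X], IsSurf X → ∀ (K : Set X) (ψ : ℂ → X)
  (N : Set ℂ) (L : Set ℝ), GCtx K ψ N L → ∀ (h : ℝ) (c : ℤ × ℤ), 0 < h → T h c ⊆ N →
  (SO K ψ h c ∧ pc K ψ h c = T h c) ∨ (SK K ψ h c ∧ pc K ψ h c = ∅) ∨
    (∃ σ : ℝ, SL K ψ h σ c ∧ pc K ψ h c = {z ∈ T h c | σ * z.im ≤ 0})

/-- GR2. Choice of the grid. Needs: nothing.

Let `3 h < dist (C, Nᶜ)` roughly: choose `δ > 0` with the closed `δ`-neighbourhood of `C` inside `N`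
and `h = δ / 10`. `Φ` = the set of face cells `f` such that the block `⋃ c ∈ blk f, T h c` (the closed
square of side `3 h` about the centre of `f`) meets `C`; finite because `C` is bounded. Every point
of the plane is in the block of some face cell (the centres of the face cells form a grid of
mesh `2 h`, and `3 h / 2 > h`), so the blocks of `Φ` cover `C`; they are in the `δ`-neighbourhood
(diameter `< 5 h`). Connectedness: let `A` be as in the statement, and let `Y` be the union of the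
blocks of `Φ ∩ A`, `Y'` the union of the blocks of `Φ \ A`. Both are closed, they cover `C`, and both
meet `C` if they are nonempty. If some `f' ∈ Φ` is not in `A`, then by connectedness of `C` some
block of `f ∈ Φ ∩ A` meets some block of `f' ∈ Φ \ A`: then `|f.1 - f'.1| ≤ 3`, so `≤ 2` (both odd), the
same for the second coordinate, and `f' ∈ A` by hypothesis: contradiction. -/
def St_GR2 : Prop := ∀ C N : Set ℂ, IsCompact C → IsConnected C → IsOpen N → C ⊆ N →
  ∃ (h : ℝ) (Φ : Finset (ℤ × ℤ)), 0 < h ∧ Φ.Nonempty ∧ (∀ f ∈ Φ, IsF f) ∧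
    (C ⊆ ⋃ f ∈ Φ, ⋃ c ∈ blk f, T h c) ∧ (∀ f ∈ Φ, ∀ c ∈ blk f, T h c ⊆ N) ∧
    (∀ f ∈ Φ, ∃ c ∈ blk f, (T h c ∩ C).Nonempty) ∧
    (∀ A : Set (ℤ × ℤ), (∃ f ∈ Φ, f ∈ A) → (∀ f ∈ Φ, ∀ f' ∈ Φ, f ∈ A → |f.1 - f'.1| ≤ 2 →
      |f.2 - f'.2| ≤ 2 → f' ∈ A) → ∀ f ∈ Φ, f ∈ A)

/-- GR3. The combinatorial search step. Needs: nothing (pure combinatorics).

`D` = the union of the blocks of `Φ`; `o`, `k`, `l` are the statuses. (a) Some vertex cell of `D` has
not status `o`. Let `c₀ ∈ blk f` with status not `o`, and go to a vertex cell in the same block by at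
most two steps: if `c₀` is a face cell (`c₀ = f`), its status is not `l` (row odd), so it is `k`, and
an adjacent edge cell has status not `o`; so let `c₀` be an edge cell. If `c₀` has status `k`, an
adjacent vertex cell (in the block; adjacent cells of an edge cell in the block include a vertex
cell) has status not `o`. If it has status `l`, its row is `0`, so `c₀ = (odd, 0)`, and the
horizontally adjacent vertex cell has status `l`.
(b) Let `U = {w : vertex cell in D, status o, w ∉ W} ≠ ∅`. Suppose there is no triple as required. Claim: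
if `w ∈ U`, `w'` a vertex cell, `e` an edge cell of `D` adjacent to both, then `w' ∈ U`. The status of
`e` is `o`: if it were `k`, `w` would not be `o`; if it were `l`, then `e = (odd, 0)`, `w` is horizontally
adjacent and would be `l`. The status of `w'` is not `k` (adjacent to `e`, status `o`). If it is `l` or
if `w' ∈ W`, then `(w, e, w')` is as required: contradiction. So it has status `o` and is not in `W`.
(c) So for every `f ∈ Φ` the four vertex cells of `blk f` are all in `U` or all not in `U` (they are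
joined in a cycle by the four edge cells of the block). Two faces `f, f' ∈ Φ` with
`|f.1 - f'.1| ≤ 2`, `|f.2 - f'.2| ≤ 2` have a common vertex cell in their blocks. By the connectedness
hypothesis (with `A` = the faces all whose vertex cells are in `U`) all vertex cells of `D` are in
`U`, so all have status `o`, against (a). -/
def St_GR3 : Prop := ∀ (Φ : Finset (ℤ × ℤ)) (o k l : ℤ × ℤ → Prop), (∀ f ∈ Φ, IsF f) →
  (∀ A : Set (ℤ × ℤ), (∃ f ∈ Φ, f ∈ A) → (∀ f ∈ Φ, ∀ f' ∈ Φ, f ∈ A → |f.1 - f'.1| ≤ 2 →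
      |f.2 - f'.2| ≤ 2 → f' ∈ A) → ∀ f ∈ Φ, f ∈ A) →
  (∀ c ∈ Φ.biUnion blk, o c ∨ k c ∨ l c) → (∀ c ∈ Φ.biUnion blk, l c → c.2 = 0) →
  (∀ c ∈ Φ.biUnion blk, ∀ c' ∈ Φ.biUnion blk, Adj c c' → k c → ¬ o c') →
  (∀ c ∈ Φ.biUnion blk, ∀ c' ∈ Φ.biUnion blk, Adj c c' → c.2 = 0 → c'.2 = 0 → l c →
    l c' ∧ ¬ o c') →
  (∃ c ∈ Φ.biUnion blk, ¬ o c) → ∀ W : Finset (ℤ × ℤ),
  (∃ w ∈ Φ.biUnion blk, IsV w ∧ o w ∧ w ∉ W) →
  ∃ w ∈ Φ.biUnion blk, ∃ e ∈ Φ.biUnion blk, ∃ v ∈ Φ.biUnion blk, IsV w ∧ IsE e ∧ IsV v ∧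
    o w ∧ w ∉ W ∧ o e ∧ Adj e w ∧ Adj e v ∧ v ≠ w ∧ (v ∈ W ∨ l v)

/-- GR4. Attaching single cells: vertex cells on the frontier, and face cells. Needs: GR1, RATT.

All cells have their squares in `N`; `h > 0`.
(1) Let `v` be a vertex cell with status `L`, `σ`, and let all cells of `Σ` be vertex cells,
`v ∉ Σ`. The part `pc v` is the rectangle
`[h v.1 - h/2, h v.1 + h/2] x [0, h/2]` (`σ = -1`) or `x [-h/2, 0]` (`σ = 1`). It meets `K` exactly in its
side on the real axis, and it does not meet the squares of other vertex cells (distance `≥ h`).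
RATT (bottom or top).
(2) Let `f` be a face cell with status `O`, `f ∉ Σ`, and suppose that every cell of `blk f` other
than `f` which has not status `K` is in `Σ`. The square `T f` misses `K`. For a cell `c ≠ f`:
`T c ∩ T f` is contained in the boundary of `T f`. The side between `f` and an adjacent cell `c`
(an edge cell, in `Σ` because its status is not `K`: `K` would meet `T f`) is contained in `pc c`: if
`c` has status `O`, clear; if it has status `L`, `σ`, the side is at height `± h/2` in the half of `T c`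
which is not in `K` (as `T f` misses `K`). So `ψ '' T f ∩ gM Σ = ψ '' (boundary of T f)`: RATT (all). -/
def St_GR4 : Prop := ∀ (X : Type) [TopologicalSpace X], IsSurf X → ∀ (K : Set X) (ψ : ℂ → X)
  (N : Set ℂ) (L : Set ℝ), GCtx K ψ N L → ∀ h : ℝ, 0 < h →
  (∀ (Sg : Finset (ℤ × ℤ)) (v : ℤ × ℤ) (σ : ℝ), (∀ c ∈ Sg, T h c ⊆ N ∧ IsV c) → IsV v →
    T h v ⊆ N → v ∉ Sg → SL K ψ h σ v → ∃ (e : ℂ → X) (S O : Set ℂ), Att (gM K ψ h Sg) e S O ∧
      gM K ψ h (insert v Sg) = gM K ψ h Sg ∪ e '' CD) ∧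
  (∀ (Sg : Finset (ℤ × ℤ)) (f : ℤ × ℤ), (∀ c ∈ Sg, T h c ⊆ N) → IsF f →
    (∀ c ∈ blk f, T h c ⊆ N) → f ∉ Sg → SO K ψ h f →
    (∀ c ∈ blk f, c ≠ f → ¬ SK K ψ h c → c ∈ Sg) → ∃ (e : ℂ → X) (S O : Set ℂ),
      Att (gM K ψ h Sg) e S O ∧ gM K ψ h (insert f Sg) = gM K ψ h Sg ∪ e '' CD)

/-- GR5. Attaching a vertex cell with an edge cell. Needs: GR1, RATT.

The rectangle is `R = T e ∪ T w` (side lengths `2 h` and `h`), it misses `K`; `pc e = T e`,
`pc w = T w`. Let `side = T e ∩ T v` (a side of `R`, opposite to `w`). It is contained in `pc v`: if `v` has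
status `O`, clear; it has not status `K` (it is adjacent to `e`); if it has status `L`, `σ`, then `e`
is above or below `v` (a horizontally adjacent cell would contain points of `K` on the real
axis), and the side is in the half of `T v` off `K` since `T e` misses `K`. Other cells `c ∈ Σ`: if `c`
is a vertex cell, `c ≠ v, w`, its square misses `T e` (the only vertex cells touching `e` are `v`, `w`)
and `T w`. If `c` is an edge cell, `c ≠ e`: it touches `T e` only if it is diagonal to `e`, that is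
adjacent to `v` or to `w`; adjacent to `w` is excluded; if it is adjacent to `v`, then
`T c ∩ T e` is one point, a corner of `T v`, so in `side`; and `T c ∩ T w ≠ ∅` only if `c` is adjacent to
`w` (edge cells touching a vertex cell are adjacent to it). There are no face cells in `Σ`. So
`ψ '' R ∩ gM Σ = ψ '' side`: RATT (one side). -/
def St_GR5 : Prop := ∀ (X : Type) [TopologicalSpace X], IsSurf X → ∀ (K : Set X) (ψ : ℂ → X)
  (N : Set ℂ) (L : Set ℝ), GCtx K ψ N L → ∀ h : ℝ, 0 < h →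
  ∀ (Sg : Finset (ℤ × ℤ)) (w e v : ℤ × ℤ), (∀ c ∈ Sg, T h c ⊆ N ∧ ¬ IsF c) →
    T h w ⊆ N → T h e ⊆ N → IsV w → IsE e → IsV v → SO K ψ h w → SO K ψ h e → Adj e w →
    Adj e v → v ≠ w → v ∈ Sg → w ∉ Sg → e ∉ Sg → (∀ c ∈ Sg, ¬ Adj c w) →
    ∃ (t : ℂ → X) (S O : Set ℂ), Att (gM K ψ h Sg) t S O ∧
      gM K ψ h (insert w (insert e Sg)) = gM K ψ h Sg ∪ t '' CD

/-- GR6. Attaching an edge cell between two vertex cells. Needs: GR1, RATT.

Let `v₁`, `v₂` be the two vertex cells adjacent to the edge cell `e`, both in `Σ`; `Σ` contains no face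
cell. (1) Status `O`: `pc e = T e` misses `K`; the two sides towards `v₁`, `v₂` are contained in
`pc v₁`, `pc v₂` as in GR5; other cells of `Σ` touch `T e` at most in corners, which are in these two
sides. RATT (`lr` if `e = (odd, even)`, `bt` if `e = (even, odd)`).
(2) Status `L`, `σ`: `e = (odd, 0)`, `pc e = [h e.1 - h/2, h e.1 + h/2] x [0, h/2]` (`σ = -1`) or
`x [-h/2, 0]`; it meets `K` exactly in its side on the real axis. `v₁`, `v₂` are horizontally adjacent,
so they have status `L` with the same `σ` (compare on the common vertical side), and `pc v_i`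
contains the vertical sides of `pc e`; other cells of `Σ` (edge cells diagonal to `e`) touch `T e`
only in corners of `T e`, which are on the vertical sides of `pc e` or not in `pc e`. RATT (`lbr` or
`ltr`). -/
def St_GR6 : Prop := ∀ (X : Type) [TopologicalSpace X], IsSurf X → ∀ (K : Set X) (ψ : ℂ → X)
  (N : Set ℂ) (L : Set ℝ), GCtx K ψ N L → ∀ h : ℝ, 0 < h →
  ∀ (Sg : Finset (ℤ × ℤ)) (e : ℤ × ℤ), (∀ c ∈ Sg, T h c ⊆ N ∧ ¬ IsF c) →
    T h e ⊆ N → IsE e → ¬ SK K ψ h e → (∀ v, IsV v → Adj e v → v ∈ Sg) → e ∉ Sg →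
    ∃ (t : ℂ → X) (S O : Set ℂ), Att (gM K ψ h Sg) t S O ∧
      gM K ψ h (insert e Sg) = gM K ψ h Sg ∪ t '' CD

/-- GRB. The grid theorem. Needs: GR1, GR2, GR3, GR4, GR5, GR6.

`h`, `Φ` from GR2, `D = Φ.biUnion blk`; all squares of cells of `D` are in `N`, so every cell of `D` has a
status (GR1); statuses `K` and `O` exclude each other (squares are nonempty), status `L` excludes
both. Rules for adjacent cells `c`, `c'` (common side): `K`, then not `O`; `L` in row `0` and horizontally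
adjacent: the common side contains points on both sides of the real axis and in row `0`, so `c'` is
not `O`, not `K`, so it is `L`. Some cell of `D` has not status `O`: `C` contains `z₀` with `ψ z₀ ∈ K`, and it
is in a cell of `D`. A cell `c` is skipped (`pc c = ∅`) if its status is `K`.
Phase 0: the vertex cells of `D` with status `L` one after the other (GR4 (1)): `gM Σ₀` is built
from `K`. (With `Σ = ∅`: `gM ∅ = K`.)
Phase 1: claim: for every finite set `W` of vertex cells of `D` with status `O` ... by induction on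
the number of remaining vertex cells: a state is a pair `(W, Σ)` with `W` a set of vertex cells of `D`
with status `O`, `Σ = Σ₀ ∪ W ∪ (edge cells of D with status O whose two vertex cells are in
Σ₀ ∪ W; only some of them)`, `gM Σ` built from `K`. If some vertex cell of `D` with status `O` is not in
`W`, GR3 gives `w, e, v` with `v ∈ W` or `v` of status `L` (so `v ∈ Σ`); `w ∉ Σ`, `e ∉ Σ` and no cell of `Σ` is
adjacent to `w` (edge cells in `Σ` have both vertex cells in `Σ`, and `w ∉ Σ`): GR5. New state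
`W ∪ {w}`, `Σ ∪ {e, w}`.
Phase 2: now all vertex cells of `D` which are not `K` are in `Σ`. Add the edge cells of `D` with
status not `K` which are not yet in `Σ` one after the other: their two vertex cells are in `D` (a
block which contains an edge cell contains its two vertex cells), and they are not `K` (if `e` is
`O`: rule; if `e` is `L`: the vertex cells are `L`), so they are in `Σ`: GR6.
Phase 3: add the face cells of `D` with status not `K` (then `O`, because `L` is only in row `0`, which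
is even) one after the other. They are in `Φ` (a face cell of a block `blk f` is `f`), so their
blocks are in `D`: GR4 (2).
`K' = gM D'` with `D'` = all cells of `D` which are not `K`, and `K' = K ∪ ψ '' ⋃ c ∈ D, T h c` (the part
of a square which is not in `K` is in `pc`), so `ψ '' C ⊆ K'`. `K'` is built from `K` and connected by
induction (BuiltFrom preserves connectedness: `e '' S ≠ ∅`; or directly). -/
def St_GRB : Prop := ∀ (X : Type) [TopologicalSpace X], IsSurf X → ∀ (K : Set X) (ψ : ℂ → X)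
  (N C : Set ℂ) (L : Set ℝ), GCtx K ψ N L → IsCompact C → IsConnected C → C ⊆ N →
  (ψ '' C ∩ K).Nonempty → ∃ K' : Set X, BuiltFrom K K' ∧ K ∪ ψ '' C ⊆ K'

/-! ## Exhaustion -/

/-- STEP. Adding a coordinate disc. Needs: BB, CAPS, CASEA, FLATN, GRB.

CAPS: `K₁`. First alternative: CASEA with `C = φ '' closedBall 0 1`. Second alternative: FLATN and
GRB for `K₁` (bordered by BB). Then `BuiltFrom.trans`, and BB for `K'` (bordered, connected). -/
def St_STEP : Prop := ∀ (X : Type) [TopologicalSpace X], IsSurf X → ∀ (K : Set X) (φ : ℂ → X),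
  Bord K → IsConnected K → IsOpenEmbedding φ → (φ '' closedBall 0 1 ∩ K).Nonempty →
  ∃ K' : Set X, BuiltFrom K K' ∧ K ∪ φ '' closedBall 0 1 ⊆ K' ∧ Bord K' ∧ IsConnected K'

/-- EXH. Exhaustion. Needs: STEP.

Choose a chart `φ_x` at every `x` (`φ_x 0 = x`). (a) For every `K₀` which is bordered and connected and
every `x` there is `K'` built from `K₀`, bordered, connected, with `x ∈ interior K'`: the set `U` of
these `x` is open; nonempty (`interior K₀ ≠ ∅`? if `K₀` has a point `y`, STEP with `φ_y` gives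
`y ∈ U`); closed: if `x ∈ closure U`, then `φ_x '' ball 0 1` meets `interior K'` for some such `K'`, and
STEP for `K'` and `φ_x` gives `x ∈ U`. `X` is connected, so `U = X`.
(b) Cover the compact `K ∪ C` by finitely many `φ_{x_i} '' ball 0 1`, `i = 1, ..., r`. Starting with `K`,
for each `i` apply first (a) (to get `x_i` into the interior) and then STEP with `φ_{x_i}`. The final
`K'` contains the open set `⋃ φ_{x_i} '' ball 0 1 ⊇ K ∪ C`. -/
def St_EXH : Prop := ∀ (X : Type) [TopologicalSpace X], IsSurf X → ConnectedSpace X →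
  ∀ K C : Set X, Bord K → IsConnected K → IsCompact C →
  ∃ K' : Set X, BuiltFrom K K' ∧ K ∪ C ⊆ interior K' ∧ Bord K' ∧ IsConnected K'

/-- LOC. Localisation of a building process. Needs: ARC0 (only `S ⊆ UC`).

Lemma: if `Kᶜ = A ∪ B`, `A`, `B` open and disjoint, `K` closed, `BuiltFrom K L` and
`K ⊆ M ⊆ K ∪ A`, then `BuiltFrom M (M ∪ (L ∩ B))`. Induction: for `L = K`: `L ∩ B = ∅`. Step `L ∪ δ`,
`δ = e '' CD`: `e '' OD` is connected and misses `L ⊇ K` (`e` injective on `CD`, `S ⊆ UC`), so it lies in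
`A` or in `B`; `δ ⊆ closure (e '' OD)`. If `e '' OD ⊆ A`, then `δ` misses the open set `B`, and
`(L ∪ δ) ∩ B = L ∩ B`. If `e '' OD ⊆ B`, then `δ` misses `A`, so `δ ⊆ B ∪ K`, and
`(M ∪ (L ∩ B)) ∩ δ = L ∩ δ` (`M ∩ δ ⊆ (K ∪ A) ∩ δ = K ∩ δ`, `K ⊆ M`, and `L ∩ δ ⊆ L ∩ (B ∪ K)`), so
`Att (M ∪ (L ∩ B)) e S O`, and `M ∪ ((L ∪ δ) ∩ B) = (M ∪ (L ∩ B)) ∪ δ` since `δ ⊆ B ∪ K`.
Apply it with `A`, `B` exchanged and `M = K`: `BuiltFrom K (K ∪ (L ∩ A))`; and with
`M = K ∪ (L ∩ A)`: `M ∪ (L ∩ B) = L`. -/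
def St_LOC : Prop := ∀ (X : Type) [TopologicalSpace X] [T2Space X] (K L A B : Set X), IsClosed K →
  BuiltFrom K L → IsOpen A → IsOpen B → Disjoint A B → Kᶜ = A ∪ B →
  BuiltFrom K (K ∪ (L ∩ A)) ∧ BuiltFrom (K ∪ (L ∩ A)) L

end Pool.Agent.SRF
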