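import Pool.Agent.SRF.StB

set_option autoImplicit false

/-! # SRF, Part II continued: the good exhaustion (statements; proofs in the comments)

Every `St_X` is proved in `Pool/Agent/SRF/X.lean` as `theorem thm_X (hypotheses) : St_X`; the
hypotheses are the statements named in the comment (Needs), in that order. -/

open Set Metric Filter Topology

namespace Pool.Agent.SRF

/-- `M` is the disjoint union of exactly `n` Jordan curves. -/
def NC {X : Type} [TopologicalSpace X] (M : Set X) (n : ℕ) : Prop :=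
  ∃ γ : Fin n → ℂ → X, (∀ i, IsJordan (γ i)) ∧
    (∀ i j, i ≠ j → Disjoint (γ i '' UC) (γ j '' UC)) ∧ M = ⋃ i, γ i '' UC

/-- MOVX. Moving points in a surface. Needs: SHR, MOVE.

Local step: let `p ∈ U` and let `φ` be a chart at `p` with `range φ ⊆ U` (shrink a chart with
SHR (1)). For `w ∈ ball 0 2` MOVE (1) with `W = ball 0 2` gives `χ₀ : ℂ ≃ₜ ℂ`, the identity off
`ball 0 2`, `χ₀ 0 = w`. Let `χ = φ ∘ χ₀ ∘ φ⁻¹` on `range φ` and `χ = id` off `range φ`. It is a
homeomorphism of `X`: it is a bijection, it is continuous on the open set `range φ`, and on the open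
set `(φ '' closedBall 0 2)ᶜ` (compact in a Hausdorff space) it is the identity; the same holds for the
inverse. It is the identity off the compact subset `φ '' closedBall 0 2` of `U`, and `χ p = φ w`. So
the relation of the statement (there are `χ` and `C` as required with `χ p = q`) is an equivalence
relation on `U` (composition: `C₁ ∪ C₂`; a `χ` which is the identity off `C ⊆ U` maps `C` onto `C`)
with open classes, and `U` is preconnected. -/
def St_MOVX : Prop := ∀ (X : Type) [TopologicalSpace X], IsSurf X → ∀ U : Set X, IsOpen U →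
  IsPreconnected U → ∀ p ∈ U, ∀ q ∈ U, ∃ (χ : X ≃ₜ X) (C : Set X), IsCompact C ∧ C ⊆ U ∧
    (∀ x, x ∉ C → χ x = x) ∧ χ p = q

/-- ADJ. Components of the complement of a bordered set. Needs: BFR.

`X` is locally connected (charts), so `U` is open, and it is closed in `Kᶜ`; so
`frontier U ⊆ K`, and a point of `frontier U` is a limit of points of `U ⊆ Kᶜ`, so it is in
`frontier K`. Let `φ` be a chart with `φ z ∈ K <-> 0 ≤ z.im`. `φ '' {im < 0}` is connected and misses
`K`, so it lies in `U` or misses `U`. If `φ 0 ∈ closure U`, then `U` meets the neighbourhood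
`range φ` of `φ 0`, and `U ∩ range φ ⊆ φ '' {im < 0}`; so `φ '' {im < 0} ⊆ U`. In this case all points
`φ x`, `x` real, are in `frontier U`; otherwise `range φ` misses `closure U`... precisely: if
`φ '' {im < 0}` misses `U`, then `range φ` misses `U` and hence `closure U`. So
`{p ∈ frontier K : p ∈ closure U}` is open and closed in `frontier K`; it is equal to `frontier U`
(`U` is open and misses `K`). The last claim follows. -/
def St_ADJ : Prop := ∀ (X : Type) [TopologicalSpace X], IsSurf X → ∀ K : Set X, Bord K →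
  ∀ x, x ∉ K → IsOpen (connectedComponentIn Kᶜ x) ∧
    frontier (connectedComponentIn Kᶜ x) ⊆ frontier K ∧
    (∀ φ : ℂ → X, IsOpenEmbedding φ → (∀ z, φ z ∈ K ↔ 0 ≤ z.im) →
      φ 0 ∈ closure (connectedComponentIn Kᶜ x) →
      φ '' {z | z.im < 0} ⊆ connectedComponentIn Kᶜ x) ∧
    (∀ A ⊆ frontier K, IsPreconnected A → A ⊆ frontier (connectedComponentIn Kᶜ x) ∨
      Disjoint A (closure (connectedComponentIn Kᶜ x)))

/-- JCA. A band between two boundary circles of the same component of the complement.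
Needs: SCH, BFR, ATB, RECT, MOVX, ADJ.

Let `U` be the component, `p₁ ∈ γ₁ '' UC`, `p₂ ∈ γ₂ '' UC`, `φ₁`, `φ₂` half plane charts of `K` at
them. `φ_k '' {im < 0} ⊆ U` (ADJ). `φ_k` maps the real axis into `frontier K`, it is connected and
`γ_k '' UC` is relatively open and closed in `frontier K`, so `φ_k` maps the real axis into
`γ_k '' UC`. Let `q₁ = φ₁ (-2 i)`, `q₂ = φ₂ (-i)`, both in `U`, `χ`, `C` from MOVX with `χ q₁ = q₂`, and
`Φ = χ ∘ φ₁`. `χ` maps `U` onto `U` and is the identity off `U`, so `Φ z ∈ K <-> 0 ≤ im z`, `Φ = φ₁` on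
`{im ≥ 0}`, and `Φ (-2 i) = φ₂ (-i)`.
`R = φ₂ '' Rect (-1) 1 (-2) 0`; `R ∩ K = φ₂ '' Rect (-1) 1 0 0` (top side). `e₁ = φ₂ ∘ e₀` with `e₀` from
RECT, `a₁ = pi/4`, `b₁ = 3 pi/4`: `Att K e₁ (carc a₁ b₁) (oarc a₁ b₁)`, `e₁ '' CD = R`. Write
`O₁ = oarc a₁ b₁`.
`M = K ∪ R` is bordered (ATB), connected, `frontier M = (frontier K ∪ e₁ '' UC) \ e₁ '' O₁`.
`Q = Φ⁻¹ R` is closed and contained in `{im < 0}`: if `im z ≥ 0` and `Φ z ∈ R`, then
`Φ z = φ₁ z ∈ R ∩ K ⊆ γ₂ '' UC`, so `im z = 0` (`im z > 0` is interior to `K`) and `Φ z ∈ γ₁ '' UC`: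
contradiction. `-2 i ∈ Q`. Let `y₀ > 0` be the least `y ≥ 0` with `-i y ∈ Q`, `p = Φ (-i y₀)`. For
`0 < y < y₀` the point `Φ (-i y)` is not in `M`, so `p ∈ frontier M`. Let `ψ` be a half plane chart of
`M` at `p` with `range ψ ⊆ range Φ` (BFR (3)). The set
`F₂ = (γ₂ '' UC ∪ e₁ '' UC) \ e₁ '' O₁ = frontier M \ (frontier K \ γ₂ '' UC)` is relatively open and
closed in `frontier M` (`frontier K \ γ₂ '' UC` is compact and misses `R`), `p ∈ R`, `p ∉ K`... so
`p ∈ F₂`, and `ψ` maps the real axis into `F₂`.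
Choose `0 < δ < y₀` such that the box `[-δ, δ] x [-y₀ - δ, -y₀ + δ]` is in `Φ⁻¹ (range ψ)`; since
`{0} x [-(y₀ - δ), 0]` misses the closed set `Q`, there is `0 < δ₁ ≤ δ` such that
`[-δ₁, δ₁] x [-(y₀ - δ), 0]` misses `Q`. The open box
`G = (-δ₁, δ₁) x (-y₀ - δ, -y₀ + δ)` contains `-i y₀`, and `p ∈ M = closure (interior M)`, so the open
set `G ∩ Φ⁻¹ (interior M)` is nonempty; choose two points `s₁ - i y₁'`, `s₂ - i y₂'` in it with
`s₁ < s₂`. They are in `M`, not in `K` (`im < 0`), so in `Q`. Let `y_k` be the least `y ≥ 0` with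
`s_k - i y ∈ Q`: `y₀ - δ < y_k ≤ y_k' < y₀ + δ`. So `Φ (s_k - i y_k)` is in `range ψ` and, as before, in
`frontier M`: it is `ψ t_k`, `t_k` real, `t₁ ≠ t₂`.
Let `Γ` be the closed curve consisting of the segment `[s₁, s₂]`, the vertical segment
`{s₂} x [-y₂, 0]`, the arc `Φ⁻¹ (ψ (segment between t₂ and t₁))`, and the vertical segment
`{s₁} x [-y₁, 0]`. It is a Jordan curve: the vertical half open segments `{s_k} x (-y_k, 0)` are
mapped by `Φ` off `M`; `ψ '' ℝ ⊆ F₂` misses `Φ '' ℝ ⊆ γ₁ '' UC`. Parametrise it by `UC` such that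
`carc 0 (pi/2)`, `carc (pi/2) pi`, `carc pi (3 pi/2)`, `carc (3 pi/2) (2 pi)` are mapped onto the four
pieces. SCH: `g`, `e₂ = Φ ∘ g`, a tile, equal to `Φ ∘ Γ` on `UC`. Let
`T = M \ (Φ '' [s₁, s₂] ∪ ψ '' [t₁, t₂])`; it contains `interior M`, so it is connected (BFR (4)), and
it misses `e₂ '' UC`. `e₂ '' OD` and `(e₂ '' CD)ᶜ` are disjoint open sets covering `T`. If
`T ⊆ e₂ '' OD`, then `K ⊆ M ⊆ e₂ '' CD ⊆ range Φ`, so `K = Φ '' {0 ≤ im}` and the closed half plane
would be compact: contradiction. So `e₂ '' CD ∩ M = e₂ '' (carc 0 (pi/2) ∪ carc pi (3 pi/2))`. -/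
def St_JCA : Prop := ∀ (X : Type) [TopologicalSpace X], IsSurf X → ∀ (K : Set X) (x : X)
  (γ₁ γ₂ : ℂ → X), Bord K → IsConnected K → x ∉ K → IsJordan γ₁ → IsJordan γ₂ →
  γ₁ '' UC ⊆ frontier (connectedComponentIn Kᶜ x) →
  γ₂ '' UC ⊆ frontier (connectedComponentIn Kᶜ x) → Disjoint (γ₁ '' UC) (γ₂ '' UC) →
  (∃ V, IsOpen V ∧ V ∩ frontier K = γ₁ '' UC) → (∃ V, IsOpen V ∧ V ∩ frontier K = γ₂ '' UC) →
  ∃ (e₁ e₂ : ℂ → X) (a₁ b₁ a b c d : ℝ), a₁ < b₁ ∧ b₁ < a₁ + 2 * Real.pi ∧ a < b ∧ b < c ∧ c < d ∧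
    d < a + 2 * Real.pi ∧ Att K e₁ (carc a₁ b₁) (oarc a₁ b₁) ∧ e₁ '' carc a₁ b₁ ⊆ γ₂ '' UC ∧
    Att (K ∪ e₁ '' CD) e₂ (carc a b ∪ carc c d) (oarc a b ∪ oarc c d) ∧
    e₂ '' carc a b ⊆ γ₁ '' UC ∧
    e₂ '' carc c d ⊆ (γ₂ '' UC ∪ e₁ '' UC) \ e₁ '' oarc a₁ b₁

/-- CNT. Surgery of Jordan curves. Needs: nothing.

(0) If `e` is injective and continuous on `UC`, `a < b < a + 2 pi` and `e '' carc a b ⊆ γ '' UC`, `≠`, then
`γ '' UC \ e '' oarc a b` is the image of an arc `β` (`IsArc`) with `β 0 = e (cexpi b)`,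
`β 1 = e (cexpi a)`: the preimage of `e '' carc a b` under `γ` is a compact connected subset of the
circle with more than one point and not the whole circle, so it is `carc u v` with
`u < v < u + 2 pi`; the homeomorphism `γ⁻¹ ∘ e` of `carc a b` onto `carc u v` maps ends to ends (ends are
the points whose removal leaves a connected set) and `oarc a b` onto `oarc u v`; `β` is `γ` on
`carc v (u + 2 pi)`, in one direction or the other.
(`γ '' UC ⊄ e '' carc a b` because a circle is not homeomorphic to a subset of an arc: in (1) it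
follows from `e '' CD ∩ γ '' UC = e '' carc a b` only with this argument: a compact connected subset
of `[0,1]` which is homeomorphic to the circle does not exist, remove an inner point.)
(1) The curve consists of `β` and of `e` on `carc b (a + 2 pi)`: two arcs with the same ends,
otherwise disjoint: a Jordan curve.
(2) Four arcs in cyclic order: `β₁` from `e (cexpi b)` to `e (cexpi a)` (from `γ₁`),
`e` on `carc b c`, `β₂` (from `γ₂`) with ends `e (cexpi c)`, `e (cexpi d)`, `e` on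
`carc d (a + 2 pi)`; consecutive ones share one end, others are disjoint. -/
def St_CNT : Prop := ∀ (X : Type) [TopologicalSpace X] [T2Space X] (e : ℂ → X),
  ContinuousOn e UC → InjOn e UC →
  (∀ (γ : ℂ → X) (a b : ℝ), IsJordan γ → a < b → b < a + 2 * Real.pi →
    e '' UC ∩ γ '' UC = e '' carc a b →
    ∃ γ' : ℂ → X, IsJordan γ' ∧ γ' '' UC = (γ '' UC ∪ e '' UC) \ e '' oarc a b) ∧
  (∀ (γ₁ γ₂ : ℂ → X) (a b c d : ℝ), IsJordan γ₁ → IsJordan γ₂ → Disjoint (γ₁ '' UC) (γ₂ '' UC) →
    a < b → b < c → c < d → d < a + 2 * Real.pi → e '' UC ∩ γ₁ '' UC = e '' carc a b →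
    e '' UC ∩ γ₂ '' UC = e '' carc c d →
    ∃ γ' : ℂ → X, IsJordan γ' ∧
      γ' '' UC = (γ₁ '' UC ∪ γ₂ '' UC ∪ e '' UC) \ e '' (oarc a b ∪ oarc c d))

/-- JOINC. Two circles of one component can be joined. Needs: ATB, BB, JCA, CNT.

Let `frontier K = ⋃ γ_k '' UC` (`n` circles), `i ≠ j`. The circles are compact and disjoint, so each is
relatively open in `frontier K`. JCA for `γ₁ := γ_i`, `γ₂ := γ_j`: `e₁`, `e₂`. By ATB twice,
`K₁ = K ∪ e₁ '' CD` has the frontier `(⋃_{k ≠ j} γ_k '' UC) ∪ γ_j' '' UC` with `γ_j'` from CNT (1)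
(`e₁ '' UC ∩ frontier K = e₁ '' carc a₁ b₁ ⊆ γ_j '' UC`), and `K₂ = K₁ ∪ e₂ '' CD` has the frontier
`(⋃_{k ≠ i, j} γ_k '' UC) ∪ γ' '' UC` with `γ'` from CNT (2) for `γ_i`, `γ_j'`:
`e₂ '' UC ∩ frontier K₁ = e₂ '' (carc a b ∪ carc c d)`, the first arc is in `γ_i '' UC`, the second
one in `γ_j' '' UC`. So `NC (frontier K₂) (n - 1)`. -/
def St_JOINC : Prop := ∀ (X : Type) [TopologicalSpace X], IsSurf X → ∀ (K : Set X) (x : X),
  Bord K → IsConnected K → x ∉ K → ∀ (n : ℕ) (γ : Fin n → ℂ → X), (∀ i, IsJordan (γ i)) →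
  (∀ i j, i ≠ j → Disjoint (γ i '' UC) (γ j '' UC)) → frontier K = (⋃ i, γ i '' UC) →
  ∀ i j, i ≠ j → γ i '' UC ⊆ frontier (connectedComponentIn Kᶜ x) →
  γ j '' UC ⊆ frontier (connectedComponentIn Kᶜ x) →
  ∃ K₂ : Set X, BuiltFrom K K₂ ∧ NC (frontier K₂) (n - 1)

/-- FILL. Filling a relatively compact component. Needs: ARC0, EXH, LOC, ADJ.

EXH with `C = closure U`: `K'` built from `K` with `closure U ⊆ K'`. LOC with `A = U` and
`B = Kᶜ \ U` (open: the union of the other components of `Kᶜ`, which are open by ADJ):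
`K ∪ (K' ∩ U) = K ∪ U` is built from `K`. Frontier: `L = K ∪ U` is closed (`closure U = U ∪ frontier U`,
`frontier U ⊆ K`). A point `p` of `frontier U` has a half plane chart `φ` of `K` (`p ∈ frontier K`) with
`φ '' {im < 0} ⊆ U` (ADJ), so `range φ ⊆ L` and `p ∈ interior L`. A point of `frontier K` not in
`frontier U` is not in `closure U`, so near it `L` is `K`: it is in `frontier L`. Points of
`interior K ∪ U` are interior. -/
def St_FILL : Prop := ∀ (X : Type) [TopologicalSpace X], IsSurf X → ConnectedSpace X →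
  ∀ (K : Set X) (x : X), Bord K → IsConnected K → x ∉ K →
  IsCompact (closure (connectedComponentIn Kᶜ x)) →
  BuiltFrom K (K ∪ connectedComponentIn Kᶜ x) ∧
    frontier (K ∪ connectedComponentIn Kᶜ x) =
      frontier K \ frontier (connectedComponentIn Kᶜ x)

/-- GEX. The good exhaustion. Needs: BB, BCI, EXH, ADJ, JOINC, FILL.

Let `K₁` be given by EXH for `K`, `C`. The set of `n` such that there is `K'` with `BuiltFrom K₁ K'` and
`NC (frontier K') n` is nonempty (BCI for `K₁`); let `n` be the least one and `K'` such a set,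
`frontier K' = ⋃ γ_i '' UC`. It is bordered and connected (BB) and contains `K₁`, so
`K ∪ C ⊆ interior K₁ ⊆ interior K'`. Let `x ∉ K'`, `U` its component. By ADJ each `γ_i '' UC` is
contained in `frontier U` or disjoint from `closure U`, `frontier U ⊆ frontier K'`, and
`frontier U ≠ ∅` (`X` is connected, `U` is open and nonempty, and `U ≠ X` since `K' ≠ ∅`). So
`frontier U = ⋃_{i ∈ S} γ_i '' UC` with `S ≠ ∅`. If `closure U` is compact, FILL gives a set built from
`K₁` whose frontier is the union of the circles `i ∉ S`: fewer circles (enumerate them), against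
the minimality of `n`. If `S` has two elements, JOINC contradicts the minimality (`n ≥ 2`, so
`n - 1 < n`). So `S = {i}`. -/
def St_GEX : Prop := ∀ (X : Type) [TopologicalSpace X], IsSurf X → ConnectedSpace X →
  ∀ K C : Set X, Bord K → IsConnected K → IsCompact C → ∃ K' : Set X, BuiltFrom K K' ∧
    K ∪ C ⊆ interior K' ∧ Bord K' ∧ IsConnected K' ∧
    ∀ x, x ∉ K' → ¬ IsCompact (closure (connectedComponentIn K'ᶜ x)) ∧
      ∃ γ : ℂ → X, IsJordan γ ∧ frontier (connectedComponentIn K'ᶜ x) = γ '' UC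

end Pool.Agent.SRF
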