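import Pool.Agent.SRF.Problem

set_option autoImplicit false

/-! # SRF, module UEX: the Urysohn space exists

A pseudometric on `ℕ` is constructed by adding one point after the other: at the step `m` a
request (finitely many rational distances) is considered, and if it is admissible, the new point
`m` has (approximately) these distances to the first points. The completion has the approximate
extension property, and in a complete space this gives the exact one. -/

open Set Metric Filter Topology TopologicalSpace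

namespace Pool.Agent.SRF

/-- The formula for the distances of a new point. -/
noncomputable def uexL (N : ℕ) (r : ℕ → ℝ) (d : ℕ → ℕ → ℝ) (x : ℕ) : ℝ :=
  ⨅ k : Fin N, (r k + d k x)

/-- Admissible requests. -/
def uexV (N : ℕ) (r : ℕ → ℝ) (d : ℕ → ℕ → ℝ) (m : ℕ) : Prop :=
  0 < N ∧ N ≤ m ∧ ∀ k < N, ∀ l < N, d k l ≤ r k + r l

open Classical in
/-- The distances of the new point. -/
noncomputable def uexP (q : ℕ × (ℕ → ℝ)) (m : ℕ) (d : ℕ → ℕ → ℝ) (x : ℕ) : ℝ :=
  if uexV q.1 q.2 d m then uexL q.1 q.2 d x else d 0 x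

/-- Extension of a pseudometric by one point. -/
noncomputable def uexE (m : ℕ) (d : ℕ → ℕ → ℝ) (f : ℕ → ℝ) (x y : ℕ) : ℝ :=
  if x < m then (if y < m then d x y else f x) else (if y < m then f y else 0)

/-- The recursion. -/
noncomputable def uexD (R : ℕ → ℕ × (ℕ → ℝ)) : ℕ → ℕ → ℕ → ℝ
  | 0 => fun _ _ => 0
  | m + 1 => uexE m (uexD R m) (uexP (R m) m (uexD R m))

/-- `d` is a pseudometric below `m`. -/
structure UexOk (m : ℕ) (d : ℕ → ℕ → ℝ) : Prop where
  self : ∀ x < m, d x x = 0
  symm : ∀ x < m, ∀ y < m, d x y = d y x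
  tri : ∀ x < m, ∀ y < m, ∀ z < m, d x z ≤ d x y + d y z

theorem uexL_le {N : ℕ} (r : ℕ → ℝ) (d : ℕ → ℕ → ℝ) (x : ℕ) {k : ℕ} (hk : k < N) :
    uexL N r d x ≤ r k + d k x :=
  ciInf_le (Set.finite_range _).bddBelow (⟨k, hk⟩ : Fin N)

theorem uexL_eq {N : ℕ} (hN : 0 < N) (r : ℕ → ℝ) (d : ℕ → ℕ → ℝ) (x : ℕ) :
    ∃ k < N, uexL N r d x = r k + d k x := by
  have : Nonempty (Fin N) := ⟨⟨0, hN⟩⟩
  obtain ⟨k, hk⟩ := exists_eq_ciInf_of_finite (f := fun k : Fin N => r k + d k x)
  exact ⟨k, k.2, hk.symm⟩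

theorem uexL_kat {m : ℕ} {d : ℕ → ℕ → ℝ} (hd : UexOk m d) {N : ℕ} {r : ℕ → ℝ}
    (hV : uexV N r d m) : ∀ x < m, ∀ y < m, |uexL N r d x - uexL N r d y| ≤ d x y ∧
      d x y ≤ uexL N r d x + uexL N r d y := by
  obtain ⟨hN, hNm, hs⟩ := hV
  intro x hx y hy
  obtain ⟨k, hk, hkx⟩ := uexL_eq hN r d x
  obtain ⟨l, hl, hly⟩ := uexL_eq hN r d y
  have h1 := uexL_le r d y hk
  have h2 := uexL_le r d x hl
  have hkm : k < m := by omega
  have hlm : l < m := by omega
  have t1 := hd.tri k hkm x hx y hy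
  have t2 := hd.tri l hlm y hy x hx
  have s1 := hd.symm x hx y hy
  have t3 := hd.tri x hx k hkm y hy
  have t4 := hd.tri k hkm l hlm y hy
  have s2 := hd.symm x hx k hkm
  have h3 := hs k hk l hl
  refine ⟨abs_le.2 ⟨?_, ?_⟩, ?_⟩ <;> linarith

theorem uexP_kat {m : ℕ} {d : ℕ → ℕ → ℝ} (hd : UexOk m d) (q : ℕ × (ℕ → ℝ)) :
    ∀ x < m, ∀ y < m, |uexP q m d x - uexP q m d y| ≤ d x y ∧
      d x y ≤ uexP q m d x + uexP q m d y := by
  intro x hx y hy
  unfold uexP
  split_ifs with hV
  · exact uexL_kat hd hV x hx y hy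
  · have h0 : 0 < m := by omega
    have t1 := hd.tri 0 h0 x hx y hy
    have t2 := hd.tri 0 h0 y hy x hx
    have t3 := hd.tri x hx 0 h0 y hy
    have s1 := hd.symm x hx y hy
    have s2 := hd.symm x hx 0 h0
    refine ⟨abs_le.2 ⟨?_, ?_⟩, ?_⟩ <;> linarith

theorem uexE_ok {m : ℕ} {d : ℕ → ℕ → ℝ} (hd : UexOk m d) {f : ℕ → ℝ}
    (hf : ∀ x < m, ∀ y < m, |f x - f y| ≤ d x y ∧ d x y ≤ f x + f y) :
    UexOk (m + 1) (uexE m d f) := by
  have hn : ∀ x < m, 0 ≤ f x := by
    intro x hx
    have := (hf x hx x hx).2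
    rw [hd.self x hx] at this
    linarith
  refine ⟨?_, ?_, ?_⟩
  · intro x _
    unfold uexE
    by_cases h : x < m
    · rw [if_pos h, if_pos h, hd.self x h]
    · rw [if_neg h, if_neg h]
  · intro x _ y _
    unfold uexE
    by_cases h : x < m
    · by_cases h' : y < m
      · rw [if_pos h, if_pos h', if_pos h', if_pos h, hd.symm x h y h']
      · rw [if_pos h, if_neg h', if_neg h', if_pos h]
    · by_cases h' : y < m
      · rw [if_neg h, if_pos h', if_pos h', if_neg h]
      · rw [if_neg h, if_neg h', if_neg h', if_neg h]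
  · intro x _ y _ z _
    unfold uexE
    by_cases hx : x < m
    · by_cases hy : y < m
      · by_cases hz : z < m
        · simp only [if_pos hx, if_pos hy, if_pos hz]
          exact hd.tri x hx y hy z hz
        · simp only [if_pos hx, if_pos hy, if_neg hz]
          have := (abs_le.1 (hf x hx y hy).1).2
          linarith
      · by_cases hz : z < m
        · simp only [if_pos hx, if_neg hy, if_pos hz]
          exact (hf x hx z hz).2
        · simp only [if_pos hx, if_neg hy, if_neg hz]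
          linarith
    · by_cases hy : y < m
      · by_cases hz : z < m
        · simp only [if_neg hx, if_pos hy, if_pos hz]
          have := (abs_le.1 (hf y hy z hz).1).1
          linarith
        · simp only [if_neg hx, if_pos hy, if_neg hz]
          have := hn y hy
          linarith
      · by_cases hz : z < m
        · simp only [if_neg hx, if_neg hy, if_pos hz]
          linarith
        · simp only [if_neg hx, if_neg hy, if_neg hz]
          linarith

theorem uexD_ok (R : ℕ → ℕ × (ℕ → ℝ)) (m : ℕ) : UexOk m (uexD R m) := by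
  induction m with
  | zero => exact ⟨fun x hx => absurd hx (Nat.not_lt_zero x),
      fun x hx => absurd hx (Nat.not_lt_zero x), fun x hx => absurd hx (Nat.not_lt_zero x)⟩
  | succ m ih => exact uexE_ok ih (uexP_kat ih (R m))

theorem uexD_stable (R : ℕ → ℕ × (ℕ → ℝ)) {m m' : ℕ} (h : m ≤ m') {x y : ℕ} (hx : x < m)
    (hy : y < m) : uexD R m' x y = uexD R m x y := by
  induction m', h using Nat.le_induction with
  | base => rfl
  | succ m' hm ih =>
    have h1 : x < m' := by omega
    have h2 : y < m' := by omega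
    show uexE m' (uexD R m') _ x y = _
    unfold uexE
    rw [if_pos h1, if_pos h2, ih]

/-- The requests. -/
noncomputable def uexR (m : ℕ) : ℕ × (ℕ → ℝ) :=
  (((Encodable.decode (Nat.unpair m).2 : Option (List ℚ)).getD []).length,
    fun k => ((((Encodable.decode (Nat.unpair m).2 : Option (List ℚ)).getD []).getD k 0 : ℚ) : ℝ))

/-- The final pseudometric. -/
noncomputable def uexd (x y : ℕ) : ℝ := uexD uexR (max x y + 1) x y

theorem uexd_eq {m x y : ℕ} (hx : x < m) (hy : y < m) : uexD uexR m x y = uexd x y :=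
  uexD_stable uexR (by omega) (by omega) (by omega)

theorem uexd_self (x : ℕ) : uexd x x = 0 :=
  (uexD_ok uexR _).self x (Nat.lt_succ_of_le (le_max_left _ _))

theorem uexd_comm (x y : ℕ) : uexd x y = uexd y x := by
  have hx : x < max x y + 1 := Nat.lt_succ_of_le (le_max_left _ _)
  have hy : y < max x y + 1 := Nat.lt_succ_of_le (le_max_right _ _)
  rw [← uexd_eq hx hy, ← uexd_eq hy hx]
  exact (uexD_ok uexR _).symm x hx y hy

theorem uexd_tri (x y z : ℕ) : uexd x z ≤ uexd x y + uexd y z := by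
  obtain ⟨m, hx, hy, hz⟩ : ∃ m : ℕ, x < m ∧ y < m ∧ z < m := ⟨x + y + z + 1, by omega⟩
  rw [← uexd_eq hx hz, ← uexd_eq hx hy, ← uexd_eq hy hz]
  exact (uexD_ok uexR _).tri x hx y hy z hz

/-- The countable space. -/
def UexN : Type := ℕ

noncomputable instance : PseudoMetricSpace UexN where
  dist x y := uexd x y
  dist_self := uexd_self
  dist_comm := uexd_comm
  dist_triangle := uexd_tri

/-- A point of the countable space. -/
def uexpt (n : ℕ) : UexN := n

theorem uexpt_dist (x y : ℕ) : dist (uexpt x) (uexpt y) = uexd x y := rfl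

/-- Every admissible request is realised. -/
theorem uex_real (N : ℕ) (hN : 0 < N) (r : ℕ → ℚ)
    (hr : ∀ k < N, ∀ l < N, uexd k l ≤ (r k : ℝ) + r l) :
    ∃ m : ℕ, ∀ x < N, (∃ k < N, uexd m x = (r k : ℝ) + uexd k x) ∧ uexd m x ≤ r x := by
  let l : List ℚ := (List.range N).map r
  let m := Nat.pair N (Encodable.encode l)
  have hm : N ≤ m := Nat.left_le_pair _ _
  have hdec : (Encodable.decode (Nat.unpair m).2 : Option (List ℚ)).getD [] = l := by
    simp only [m, Nat.unpair_pair, Encodable.encodek, Option.getD_some]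
  have hlen : l.length = N := by simp [l]
  have hget : ∀ k < N, l.getD k 0 = r k := by
    intro k hk
    rw [List.getD_eq_getElem _ _ (by rw [hlen]; exact hk)]
    simp [l]
  have hR1 : (uexR m).1 = N := by
    show ((Encodable.decode (Nat.unpair m).2 : Option (List ℚ)).getD []).length = N
    rw [hdec, hlen]
  have hR2 : ∀ k < N, (uexR m).2 k = r k := by
    intro k hk
    show ((((Encodable.decode (Nat.unpair m).2 : Option (List ℚ)).getD []).getD k 0 : ℚ) : ℝ) = _
    rw [hdec, hget k hk]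
  have hV : uexV (uexR m).1 (uexR m).2 (uexD uexR m) m := by
    rw [uexV, hR1]
    refine ⟨hN, hm, fun k hk l hl => ?_⟩
    rw [hR2 k hk, hR2 l hl, uexd_eq (hk.trans_le hm) (hl.trans_le hm)]
    exact hr k hk l hl
  refine ⟨m, fun x hx => ?_⟩
  have hxm : x < m := hx.trans_le hm
  have h1 : uexd m x = uexL (uexR m).1 (uexR m).2 (uexD uexR m) x := by
    rw [← uexd_eq (Nat.lt_succ_self m) (hxm.trans (Nat.lt_succ_self m))]
    show uexE m (uexD uexR m) (uexP (uexR m) m (uexD uexR m)) m x = _
    unfold uexE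
    rw [if_neg (lt_irrefl m), if_pos hxm]
    unfold uexP
    rw [if_pos hV]
  rw [h1, hR1]
  constructor
  · obtain ⟨k, hk, hkx⟩ := uexL_eq hN (uexR m).2 (uexD uexR m) x
    refine ⟨k, hk, ?_⟩
    rw [hkx, hR2 k hk, uexd_eq (hk.trans_le hm) hxm]
  · have := uexL_le (uexR m).2 (uexD uexR m) x hx
    rw [hR2 x hx, (uexD_ok uexR m).self x hxm, add_zero] at this
    exact this

/-- The completion. -/
abbrev UexU : Type := UniformSpace.Completion UexN

/-- The approximate extension property implies the exact one in complete spaces. -/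
theorem uex_exact {U : Type} [MetricSpace U] [CompleteSpace U]
    (happ : ∀ (A : Finset U) (f : U → ℝ),
      (∀ a ∈ A, ∀ b ∈ A, |f a - f b| ≤ dist a b ∧ dist a b ≤ f a + f b) → ∀ ε : ℝ, 0 < ε →
      ∃ u : U, ∀ a ∈ A, |dist u a - f a| ≤ ε)
    (A : Finset U) (f : U → ℝ)
    (hf : ∀ a ∈ A, ∀ b ∈ A, |f a - f b| ≤ dist a b ∧ dist a b ≤ f a + f b) :
    ∃ u : U, ∀ a ∈ A, dist u a = f a := by
  classical
  rcases A.eq_empty_or_nonempty with rfl | hne
  · obtain ⟨u, -⟩ := happ ∅ f hf 1 one_pos
    exact ⟨u, fun a ha => absurd ha (Finset.notMem_empty a)⟩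
  -- improvement step
  have hstep : ∀ (u : U) (ε η : ℝ), 0 < η → (∀ a ∈ A, |dist u a - f a| ≤ ε) →
      ∃ v : U, (∀ a ∈ A, |dist v a - f a| ≤ η) ∧ dist u v ≤ ε + η := by
    intro u ε η hη hu
    by_cases huA : u ∈ A
    · obtain ⟨v, hv⟩ := happ A f hf η hη
      refine ⟨v, hv, ?_⟩
      have h1 := abs_le.1 (hv u huA)
      have h2 := abs_le.1 (hu u huA)
      rw [dist_self] at h2
      rw [dist_comm u v]
      linarith [h1.2, h2.1]
    · obtain ⟨b, hb, hbmax⟩ := A.exists_max_image (fun a => |dist u a - f a|) hne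
      let δ := |dist u b - f b|
      have hδ : ∀ a ∈ A, |dist u a - f a| ≤ δ := hbmax
      let g : U → ℝ := fun x => if x = u then δ else f x
      have hgu : g u = δ := if_pos rfl
      have hgA : ∀ a ∈ A, g a = f a := fun a ha => if_neg fun h : a = u => huA (h ▸ ha)
      have hδa : ∀ a ∈ A, δ ≤ f a + dist a u := by
        intro a ha
        have h1 := hf a ha b hb
        have h2 := abs_le.1 h1.1
        have h3 := dist_triangle u a b
        have h4 := dist_triangle a u b
        rw [dist_comm a u] at h4 ⊢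
        apply abs_le.2
        constructor <;> linarith [h1.2, h2.1, h2.2]
      have hg : ∀ a ∈ insert u A, ∀ c ∈ insert u A, |g a - g c| ≤ dist a c ∧
          dist a c ≤ g a + g c := by
        intro a ha c hc
        rw [Finset.mem_insert] at ha hc
        rcases ha with rfl | ha
        · rcases hc with rfl | hc
          · rw [sub_self, abs_zero, dist_self, hgu]
            exact ⟨le_rfl, by positivity⟩
          · rw [hgu, hgA c hc]
            have h1 := abs_le.1 (hδ c hc)
            have h2 := hδa c hc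
            rw [dist_comm c] at h2
            refine ⟨abs_le.2 ⟨?_, ?_⟩, ?_⟩ <;> linarith [h1.1, h1.2]
        · rcases hc with rfl | hc
          · rw [hgu, hgA a ha]
            have h1 := abs_le.1 (hδ a ha)
            have h2 := hδa a ha
            rw [dist_comm] at h1
            refine ⟨abs_le.2 ⟨?_, ?_⟩, ?_⟩ <;> linarith [h1.1, h1.2]
          · rw [hgA a ha, hgA c hc]
            exact hf a ha c hc
      obtain ⟨v, hv⟩ := happ (insert u A) g hg η hη
      refine ⟨v, fun a ha => ?_, ?_⟩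
      · have := hv a (Finset.mem_insert_of_mem ha)
        rwa [hgA a ha] at this
      · have h1 := abs_le.1 (hv u (Finset.mem_insert_self u A))
        rw [hgu] at h1
        have h2 : δ ≤ ε := hu b hb
        rw [dist_comm u v]
        linarith [h1.2]
  -- the sequence
  have hseq : ∃ s : ℕ → U, ∀ n, (∀ a ∈ A, |dist (s n) a - f a| ≤ (1 / 2) ^ n) ∧
      dist (s n) (s (n + 1)) ≤ 2 * (1 / 2) ^ n := by
    obtain ⟨u₀, hu₀⟩ := happ A f hf 1 one_pos
    have hpos : ∀ n : ℕ, (0 : ℝ) < (1 / 2) ^ n := fun n => by positivity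
    let T : ℕ → Type := fun n => {u : U // ∀ a ∈ A, |dist u a - f a| ≤ (1 / 2) ^ n}
    have hnext : ∀ n (u : T n), ∃ v : T (n + 1), dist u.1 v.1 ≤ 2 * (1 / 2) ^ n := by
      intro n u
      obtain ⟨v, h1, h2⟩ := hstep u.1 ((1 / 2) ^ n) ((1 / 2) ^ (n + 1)) (hpos _) u.2
      refine ⟨⟨v, h1⟩, h2.trans ?_⟩
      rw [pow_succ]
      have := hpos n
      linarith
    choose nxt hnxt using hnext
    let s : ∀ n, T n := fun n => Nat.rec (motive := fun n => T n)
      ⟨u₀, by simpa using hu₀⟩ (fun n u => nxt n u) n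
    refine ⟨fun n => (s n).1, fun n => ⟨(s n).2, hnxt n (s n)⟩⟩
  obtain ⟨s, hs⟩ := hseq
  have hC : CauchySeq s := by
    apply cauchySeq_of_le_geometric (1 / 2) 2 (by norm_num)
    intro n
    exact (hs n).2
  obtain ⟨u, hu⟩ := cauchySeq_tendsto_of_complete hC
  refine ⟨u, fun a ha => ?_⟩
  have h1 : Tendsto (fun n => |dist (s n) a - f a|) atTop (𝓝 |dist u a - f a|) :=
    ((hu.dist tendsto_const_nhds).sub tendsto_const_nhds).abs
  have h2 : Tendsto (fun n : ℕ => (1 / 2 : ℝ) ^ n) atTop (𝓝 0) :=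
    tendsto_pow_atTop_nhds_zero_of_lt_one (by norm_num) (by norm_num)
  have h3 : |dist u a - f a| ≤ 0 := le_of_tendsto_of_tendsto' h1 h2 fun n => (hs n).1 a ha
  exact sub_eq_zero.1 (abs_nonpos_iff.1 h3)

theorem uex_approx (A : Finset UexU) (f : UexU → ℝ)
    (hf : ∀ a ∈ A, ∀ b ∈ A, |f a - f b| ≤ dist a b ∧ dist a b ≤ f a + f b) (ε : ℝ) (hε : 0 < ε) :
    ∃ u : UexU, ∀ a ∈ A, |dist u a - f a| ≤ ε := by
  classical
  rcases A.eq_empty_or_nonempty with rfl | hne
  · exact ⟨((uexpt 0 : UexN) : UexU), fun a ha => absurd ha (Finset.notMem_empty a)⟩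
  -- the extension of `f`
  have hF : ∃ F : UexU → ℝ, (∀ a ∈ A, F a = f a) ∧ (∀ x y, F x ≤ F y + dist y x) ∧
      ∀ x y, dist x y ≤ F x + F y := by
    refine ⟨fun x => A.inf' hne fun a => f a + dist a x, ?_, ?_, ?_⟩
    · intro a ha
      apply le_antisymm
      · refine (Finset.inf'_le _ ha).trans ?_
        simp
      · refine Finset.le_inf' _ _ fun b hb => ?_
        have := (abs_le.1 (hf a ha b hb).1).2
        rw [dist_comm b a]
        linarith
    · intro x y
      obtain ⟨b, hb, hbe⟩ := Finset.exists_mem_eq_inf' hne fun a => f a + dist a y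
      show A.inf' hne (fun a => f a + dist a x) ≤ A.inf' hne (fun a => f a + dist a y) + dist y x
      rw [hbe]
      refine (Finset.inf'_le _ hb).trans ?_
      have := dist_triangle b y x
      linarith
    · intro x y
      obtain ⟨b, hb, hbe⟩ := Finset.exists_mem_eq_inf' hne fun a => f a + dist a x
      obtain ⟨c, hc, hce⟩ := Finset.exists_mem_eq_inf' hne fun a => f a + dist a y
      show dist x y ≤ A.inf' hne (fun a => f a + dist a x) + A.inf' hne (fun a => f a + dist a y)
      rw [hbe, hce]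
      have h1 := (hf b hb c hc).2
      have h2 := dist_triangle x b y
      have h3 := dist_triangle b c y
      rw [dist_comm x b] at h2
      linarith
  obtain ⟨F, hFA, hFl, hFs⟩ := hF
  have hη : 0 < ε / 4 := by positivity
  have hdense : ∀ a : UexU, ∃ n : ℕ, dist a ((uexpt n : UexN) : UexU) < ε / 4 := by
    intro a
    obtain ⟨n, hn⟩ := UniformSpace.Completion.denseRange_coe.exists_dist_lt a hη
    exact ⟨n, hn⟩
  choose ν hν using hdense
  let N : ℕ := A.sup ν + 1
  have hνN : ∀ a ∈ A, ν a < N := fun a ha => Nat.lt_succ_of_le (Finset.le_sup ha)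
  have hrat : ∀ k : ℕ, ∃ r : ℚ, F ((uexpt k : UexN) : UexU) < r ∧
      (r : ℝ) < F ((uexpt k : UexN) : UexU) + ε / 4 := fun k => exists_rat_btwn (by linarith)
  choose r hr1 hr2 using hrat
  have hcoe : ∀ x y : ℕ, dist ((uexpt x : UexN) : UexU) ((uexpt y : UexN) : UexU) = uexd x y := by
    intro x y
    rw [UniformSpace.Completion.dist_eq, uexpt_dist]
  obtain ⟨m, hm⟩ := uex_real N (Nat.succ_pos _) r (by
    intro k _ l _
    have h1 := hFs ((uexpt k : UexN) : UexU) ((uexpt l : UexN) : UexU)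
    rw [hcoe] at h1
    have h2 := hr1 k
    have h3 := hr1 l
    linarith)
  refine ⟨((uexpt m : UexN) : UexU), fun a ha => ?_⟩
  obtain ⟨⟨k, -, hk⟩, h2⟩ := hm (ν a) (hνN a ha)
  have h3 := hFl ((uexpt (ν a) : UexN) : UexU) ((uexpt k : UexN) : UexU)
  rw [hcoe] at h3
  have h4 := hr1 k
  have h5 := hr2 (ν a)
  have h6 := hν a
  have h7 := hFl a ((uexpt (ν a) : UexN) : UexU)
  have h8 := hFl ((uexpt (ν a) : UexN) : UexU) a
  rw [hFA a ha] at h7 h8
  have h9 := dist_triangle ((uexpt m : UexN) : UexU) ((uexpt (ν a) : UexN) : UexU) a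
  have h10 := dist_triangle ((uexpt m : UexN) : UexU) a ((uexpt (ν a) : UexN) : UexU)
  rw [hcoe] at h9 h10
  rw [dist_comm ((uexpt (ν a) : UexN) : UexU) a] at h7 h9
  apply abs_le.2
  constructor <;> linarith

/-- The Urysohn space exists. -/
theorem uex_exists : ∃ (U : Type) (_ : MetricSpace U), IsUrysohn U :=
  ⟨UexU, inferInstance, inferInstance, by
    have : Countable UexN := inferInstanceAs (Countable ℕ)
    infer_instance, fun A f hf => uex_exact uex_approx A f hf⟩

end Pool.Agent.SRF
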